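import Pool.Agent.Work.MP_655153_ba.Interface3

/-! # Two-arc beam detectors, block AC: paths through a full chain -/

open MeasureTheory Set

namespace Pool.BA

noncomputable section

/-- monotonicity below `m` -/
theorem AC_mono (m : ℕ) (f : ℕ → ℝ) (h : ∀ i, i + 1 < m → f i < f (i + 1)) (i j : ℕ)
    (hij : i ≤ j) (hj : j < m) : f i ≤ f j := by
  induction j, hij using Nat.le_induction with
  | base => exact le_rfl
  | succ j hij ih => exact (ih (by omega)).trans (h j hj).le

/-- the caps of a full chain cover exactly the interval -/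
theorem AC_union (m : ℕ) (κ α : ℕ → ℝ) (a b : ℝ) (p : List ℕ) (h : Full m κ α a b)
    (hp : Visits m p) : (⋃ i ∈ p, Icc (Lf κ α i) (Rt κ α i)) = Icc a b := by
  have hpos := h.pos
  ext x
  simp only [mem_iUnion, exists_prop]
  constructor
  · rintro ⟨i, hi, hx⟩
    have him : i < m := (hp.2 i).1 hi
    have h1 := AC_mono m (Lf κ α) h.ch.l 0 i (Nat.zero_le i) him
    have h2 := AC_mono m (Rt κ α) h.ch.r i (m - 1) (by omega) (by omega)
    rw [h.left] at h1
    rw [h.right] at h2
    exact ⟨h1.trans hx.1, hx.2.trans h2⟩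
  · intro hx
    have key : ∀ n : ℕ, n < m → x ≤ Rt κ α n →
        ∃ i, i ≤ n ∧ Lf κ α i ≤ x ∧ x ≤ Rt κ α i := by
      intro n
      induction n with
      | zero =>
        intro _ hxn
        refine ⟨0, le_rfl, ?_, hxn⟩
        rw [h.left]
        exact hx.1
      | succ n ih =>
        intro hn hxn
        by_cases hL : Lf κ α (n + 1) ≤ x
        · exact ⟨n + 1, le_rfl, hL, hxn⟩
        · push Not at hL
          obtain ⟨i, hi, h1, h2⟩ := ih (by omega) (hL.le.trans (h.nogap n hn))
          exact ⟨i, by omega, h1, h2⟩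
    obtain ⟨i, hi, h1, h2⟩ := key (m - 1) (by omega) (by rw [h.right]; exact hx.2)
    exact ⟨i, (hp.2 i).2 (by omega), h1, h2⟩

theorem AC_U (m : ℕ) (κ α : ℕ → ℝ) (a b : ℝ) (p : List ℕ) (h : Full m κ α a b)
    (hp : Visits m p) : U κ α p = b - a := by
  have hpos := h.pos
  unfold U
  rw [AC_union m κ α a b p h hp, Real.volume_Icc, ENNReal.toReal_ofReal]
  have h1 := AC_mono m (Lf κ α) h.ch.l 0 (m - 1) (Nat.zero_le _) (by omega)
  have h2 := h.ch.α0 (m - 1) (by omega)
  have h3 : Lf κ α (m - 1) ≤ Rt κ α (m - 1) := by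
    unfold Lf Rt
    linarith
  rw [h.left] at h1
  rw [h.right] at h3
  linarith

/-- AC. -/
theorem p_AC (hHU : Stmt_HU) : Stmt_AC := by
  intro m κ α a b p hF hm hb hp
  have hU := AC_U m κ α a b p hF hp
  have hwin : Rt κ α (m - 1) < Lf κ α 0 + 2 * Real.pi := by
    rw [hF.left, hF.right]
    exact hb
  rcases hHU m κ α p 0 hF.ch hwin hp (Or.inl hm) (Or.inl rfl) with h | ⟨s, hs, hg, h⟩
  · right
    rw [hU] at h
    linarith
  · left
    rcases Nat.eq_zero_or_pos s with h0 | h0
    · subst h0
      have hgap : gap κ α m 0 = 2 * Real.pi - (b - a) := by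
        unfold gap
        rw [if_pos rfl, hF.left, hF.right]
        ring
      have hprd : prd m 0 = m - 1 := by
        unfold prd
        rw [if_pos rfl]
      rw [hU, hgap, hprd] at h
      linarith
    · exfalso
      unfold gap at hg
      rw [if_neg (by omega)] at hg
      obtain ⟨k, rfl⟩ : ∃ k, s = k + 1 := ⟨s - 1, by omega⟩
      have h1 := hF.nogap k hs
      rw [Nat.add_sub_cancel] at hg
      linarith

end

end Pool.BA
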