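import Pool.Agent.Work.MP_655153_ba.Interface5

/-! # Two-arc beam detectors, block ATT: the infimum is attained (helper78) -/

open MeasureTheory Set

namespace Pool.BA

noncomputable section

/-- the optimal length of the ends of the bow -/
def ATT_t (s : ℝ) : ℝ := √((2 - s) / (2 + s))

theorem ATT_t_sq {s : ℝ} (h0 : 0 ≤ s) (h1 : s ≤ 1) : ATT_t s ^ 2 = (2 - s) / (2 + s) :=
  Real.sq_sqrt (div_nonneg (by linarith) (by linarith))

theorem ATT_t_pos {s : ℝ} (h0 : 0 ≤ s) (h1 : s ≤ 1) : 0 < ATT_t s :=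
  Real.sqrt_pos.2 (div_pos (by linarith) (by linarith))

theorem ATT_t_le {s : ℝ} (h0 : 0 ≤ s) : ATT_t s ≤ 1 := by
  unfold ATT_t
  rw [Real.sqrt_le_left (by norm_num), one_pow, div_le_one (by linarith)]
  linarith

theorem ATT_key {s : ℝ} (h0 : 0 ≤ s) (h1 : s ≤ 1) : (2 + s) * (1 + ATT_t s ^ 2) = 4 := by
  rw [ATT_t_sq h0 h1]
  have : (2 + s) ≠ 0 := by linarith
  field_simp
  ring

theorem ATT_min {s : ℝ} (h0 : 0 ≤ s) (h1 : s ≤ 1) {t : ℝ} (ht : 0 ≤ t) :
    (2 + s) * ATT_t s - 4 * Real.arctan (ATT_t s) ≤ (2 + s) * t - 4 * Real.arctan t := by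
  have hkey := ATT_key h0 h1
  have hpos := ATT_t_pos h0 h1
  generalize ATT_t s = t0 at *
  have hd : ∀ x : ℝ, HasDerivAt (fun x : ℝ => (2 + s) * x - 4 * Real.arctan x)
      ((2 + s) - 4 * (1 / (1 + x ^ 2))) x := by
    intro x
    have h : HasDerivAt (fun x : ℝ => (2 + s) * x - 4 * Real.arctan x)
        ((2 + s) * 1 - 4 * (1 / (1 + x ^ 2))) x :=
      ((hasDerivAt_id x).const_mul (2 + s)).sub ((Real.hasDerivAt_arctan x).const_mul 4)
    rw [mul_one] at h
    exact h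
  have hc : Continuous (fun x : ℝ => (2 + s) * x - 4 * Real.arctan x) := by
    have := Real.continuous_arctan
    fun_prop
  rcases le_total t0 t with h | h
  · have hm : MonotoneOn (fun x : ℝ => (2 + s) * x - 4 * Real.arctan x) (Ici t0) := by
      apply monotoneOn_of_deriv_nonneg (convex_Ici t0) hc.continuousOn
      · exact fun x _ => (hd x).differentiableAt.differentiableWithinAt
      · intro x hx
        rw [interior_Ici] at hx
        rw [(hd x).deriv]
        have hx' : t0 < x := hx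
        have h2 : t0 ^ 2 ≤ x ^ 2 := pow_le_pow_left₀ hpos.le hx'.le 2
        have h3 : 4 * (1 / (1 + x ^ 2)) ≤ 2 + s := by
          rw [mul_one_div, div_le_iff₀ (by positivity)]
          nlinarith
        linarith
    exact hm (mem_Ici.2 le_rfl) (mem_Ici.2 h) h
  · have hm : AntitoneOn (fun x : ℝ => (2 + s) * x - 4 * Real.arctan x) (Icc 0 t0) := by
      apply antitoneOn_of_deriv_nonpos (convex_Icc 0 t0) hc.continuousOn
      · exact fun x _ => (hd x).differentiableAt.differentiableWithinAt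
      · intro x hx
        rw [interior_Icc] at hx
        rw [(hd x).deriv]
        have h2 : x ^ 2 ≤ t0 ^ 2 := pow_le_pow_left₀ hx.1.le hx.2.le 2
        have h3 : 2 + s ≤ 4 * (1 / (1 + x ^ 2)) := by
          rw [mul_one_div, le_div_iff₀ (by positivity)]
          nlinarith
        linarith
    exact hm ⟨ht, h⟩ ⟨hpos.le, le_rfl⟩ h

/-- the length as a function of `μ` alone -/
def ATT_g (μ : ℝ) : ℝ := bowArrow μ (ATT_t (Real.sin μ))

theorem ATT_sin {μ : ℝ} (h0 : 0 ≤ μ) (h1 : μ ≤ Real.pi / 2) :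
    0 ≤ Real.sin μ ∧ Real.sin μ ≤ 1 :=
  ⟨Real.sin_nonneg_of_nonneg_of_le_pi h0 (by linarith [Real.pi_pos]), Real.sin_le_one _⟩

theorem ATT_bow (μ t : ℝ) : bowArrow μ t =
    2 * Real.pi - 2 * μ + Real.tan μ * Real.sin μ +
      ((2 + Real.sin μ) * t - 4 * Real.arctan t) := by
  unfold bowArrow
  ring

theorem ATT_g_le {μ t : ℝ} (h0 : 0 ≤ μ) (h1 : μ ≤ Real.pi / 2) (ht : 0 ≤ t) :
    ATT_g μ ≤ bowArrow μ t := by
  unfold ATT_g
  rw [ATT_bow, ATT_bow μ t]
  obtain ⟨s0', s1'⟩ := ATT_sin h0 h1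
  linarith [ATT_min s0' s1' ht]

theorem ATT_one : ATT_t 0 = 1 := by
  unfold ATT_t
  norm_num

theorem ATT_g_zero : ATT_g 0 = Real.pi + 2 := by
  unfold ATT_g
  rw [Real.sin_zero, ATT_one, ATT_bow, Real.sin_zero, Real.arctan_one]
  ring

theorem ATT_g_big {μ : ℝ} (h0 : 0 ≤ μ) (h1 : μ < Real.pi / 2) (hc : Real.cos μ ≤ 3 / 10) :
    5 ≤ ATT_g μ := by
  obtain ⟨s0', s1'⟩ := ATT_sin h0 h1.le
  have hcp : 0 < Real.cos μ := Real.cos_pos_of_mem_Ioo ⟨by linarith [Real.pi_pos], h1⟩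
  have e1 : Real.tan μ * Real.sin μ = Real.sin μ ^ 2 / Real.cos μ := by
    rw [Real.tan_eq_sin_div_cos]
    ring
  have e2 : (3 : ℝ) ≤ Real.sin μ ^ 2 / Real.cos μ := by
    rw [le_div_iff₀ hcp]
    have := Real.sin_sq_add_cos_sq μ
    nlinarith
  have e3 := ATT_min (le_refl (0 : ℝ)) zero_le_one (ATT_t_pos s0' s1').le
  rw [ATT_one, Real.arctan_one] at e3
  have e4 : 0 ≤ Real.sin μ * ATT_t (Real.sin μ) := mul_nonneg s0' (ATT_t_pos s0' s1').le
  unfold ATT_g
  rw [ATT_bow, e1]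
  nlinarith [Real.pi_pos]

theorem ATT_cont : ContinuousOn ATT_g (Icc 0 (Real.arccos (3 / 10))) := by
  have hcos : ∀ μ ∈ Icc 0 (Real.arccos (3 / 10)), Real.cos μ ≠ 0 := by
    intro μ hμ
    have h1 := Real.cos_le_cos_of_nonneg_of_le_pi hμ.1 (Real.arccos_le_pi _) hμ.2
    rw [Real.cos_arccos (by norm_num) (by norm_num)] at h1
    linarith
  have htan : ContinuousOn Real.tan (Icc 0 (Real.arccos (3 / 10))) :=
    Real.continuousOn_tan.mono hcos
  have hq : Continuous fun μ => ATT_t (Real.sin μ) := by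
    unfold ATT_t
    refine Real.continuous_sqrt.comp ?_
    refine Continuous.div (by fun_prop) (by fun_prop) ?_
    intro μ
    have := Real.neg_one_le_sin μ
    linarith
  have hat : Continuous fun μ => Real.arctan (ATT_t (Real.sin μ)) :=
    Real.continuous_arctan.comp hq
  unfold ATT_g bowArrow
  refine ContinuousOn.add (Continuous.continuousOn ?_) (ContinuousOn.mul
    (htan.add hq.continuousOn) Real.continuous_sin.continuousOn)
  fun_prop

theorem p_ATT (hTU : Stmt_TU) : Stmt_ATT := by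
  have hpi := Real.pi_pos
  have hpi3 : (3.14 : ℝ) < Real.pi := by
    have := Real.pi_gt_d2
    linarith
  have hA0 : 0 ≤ Real.arccos (3 / 10) := Real.arccos_nonneg _
  have hA1 : Real.arccos (3 / 10) < Real.pi / 2 := Real.arccos_lt_pi_div_two.2 (by norm_num)
  have hcA : Real.cos (Real.arccos (3 / 10)) = 3 / 10 :=
    Real.cos_arccos (by norm_num) (by norm_num)
  set Y : Set ℝ := {y | ∃ μ t, 0 < μ ∧ μ < Real.pi / 2 ∧ 0 < t ∧
    4 * Real.arctan t < 2 * Real.pi - 2 * μ ∧ y = bowArrow μ t} with hY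
  have hTs : Tstar = sInf Y := rfl
  have hYne : Y.Nonempty := by
    refine ⟨_, Real.pi / 4, 1, by linarith, by linarith, one_pos, ?_, rfl⟩
    rw [Real.arctan_one]
    linarith
  have hlt : sInf Y < 482 / 100 := by
    have h : Tstar ≤ 4819 / 1000 := hTU
    rw [hTs] at h
    linarith
  obtain ⟨y, ⟨μ1, t1, a1, a2, a3, _, a5⟩, hy⟩ := exists_lt_of_csInf_lt hYne hlt
  have hg1 : ATT_g μ1 < 482 / 100 := by
    have := ATT_g_le a1.le a2.le a3.le
    linarith
  have hin : ∀ μ : ℝ, 0 ≤ μ → μ < Real.pi / 2 → ATT_g μ < 5 →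
      μ < Real.arccos (3 / 10) := by
    intro μ h0 h1 h2
    by_contra hge
    push Not at hge
    have h3 := Real.cos_le_cos_of_nonneg_of_le_pi hA0 (by linarith) hge
    rw [hcA] at h3
    linarith [ATT_g_big h0 h1 h3]
  obtain ⟨m, hmI, hmin⟩ := isCompact_Icc.exists_isMinOn (nonempty_Icc.2 hA0) ATT_cont
  have hm0 : 0 ≤ m := hmI.1
  have hm1 : m < Real.pi / 2 := lt_of_le_of_lt hmI.2 hA1
  have hgm : ATT_g m < 482 / 100 :=
    lt_of_le_of_lt (isMinOn_iff.1 hmin μ1 ⟨a1.le, (hin μ1 a1.le a2 (by linarith)).le⟩) hg1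
  have hmpos : 0 < m := by
    rcases hm0.lt_or_eq with h | h
    · exact h
    · exfalso
      rw [← h, ATT_g_zero] at hgm
      linarith
  have hglob : ∀ μ : ℝ, 0 ≤ μ → μ < Real.pi / 2 → ATT_g m ≤ ATT_g μ := by
    intro μ h0 h1
    by_cases h2 : ATT_g μ < 5
    · exact isMinOn_iff.1 hmin μ ⟨h0, (hin μ h0 h1 h2).le⟩
    · push Not at h2
      linarith
  obtain ⟨s0', s1'⟩ := ATT_sin hm0 hm1.le
  have htp := ATT_t_pos s0' s1'
  have htl := ATT_t_le s0'
  have hat : Real.arctan (ATT_t (Real.sin m)) ≤ Real.pi / 4 := by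
    rw [← Real.arctan_one]
    exact Real.arctan_strictMono.monotone htl
  have hcond : 4 * Real.arctan (ATT_t (Real.sin m)) < 2 * Real.pi - 2 * m := by linarith
  have hcm : 0 < Real.cos m := Real.cos_pos_of_mem_Ioo ⟨by linarith, hm1⟩
  refine ⟨m, ATT_t (Real.sin m), hmpos, hm1, htp, hcond, ?_, ATT_key s0' s1', ?_⟩
  · rw [hTs]
    have hleast : IsLeast Y (bowArrow m (ATT_t (Real.sin m))) := by
      refine ⟨⟨m, _, hmpos, hm1, htp, hcond, rfl⟩, ?_⟩
      rintro z ⟨μ, t, b1, b2, b3, _, rfl⟩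
      exact (hglob μ b1.le b2).trans (ATT_g_le b1.le b2.le b3.le)
    exact hleast.csInf_eq
  · set t := ATT_t (Real.sin m) with ht
    have hloc : IsLocalMin (fun μ => bowArrow μ t) m := by
      have hnhds : Ioo 0 (Real.pi / 2) ∈ nhds m := Ioo_mem_nhds hmpos hm1
      filter_upwards [hnhds] with μ hμ
      exact (hglob μ hμ.1.le hμ.2).trans (ATT_g_le hμ.1.le hμ.2.le htp.le)
    have hd : HasDerivAt (fun μ => bowArrow μ t)
        (-2 + ((1 / Real.cos m ^ 2) * Real.sin m + (Real.tan m + t) * Real.cos m)) m := by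
      have d1 : HasDerivAt (fun μ : ℝ => 2 * Real.pi - 2 * μ + 2 * t - 4 * Real.arctan t) (-2) m := by
        have h := (((hasDerivAt_id m).const_mul 2).const_sub (2 * Real.pi)).add_const (2 * t)
        have h' := h.sub_const (4 * Real.arctan t)
        simpa using h'
      have d2 : HasDerivAt (fun μ : ℝ => (Real.tan μ + t) * Real.sin μ)
          ((1 / Real.cos m ^ 2) * Real.sin m + (Real.tan m + t) * Real.cos m) m :=
        ((Real.hasDerivAt_tan hcm.ne').add_const t).mul (Real.hasDerivAt_sin m)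
      exact d1.add d2
    have h0 := hloc.hasDerivAt_eq_zero hd
    rw [Real.tan_eq_sin_div_cos] at h0
    have hne := hcm.ne'
    field_simp at h0
    nlinarith [h0]

end

end Pool.BA
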