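import Pool.Agent.Work.MP_655153_ba.Interface3

/-! # Block B1 (helper69): overlapping flat pair at the bottom, small angles -/

open MeasureTheory Set

namespace Pool.BA

noncomputable section

theorem B1_lin (x : ℂ) (a b : ℝ) (h : a ^ 2 + b ^ 2 = 1) : x.re * a + x.im * b ≤ ‖x‖ := by
  have h1 : ‖x‖ ^ 2 = x.re * x.re + x.im * x.im := by
    rw [Complex.sq_norm, Complex.normSq_apply]
  have h2 : (x.re * a + x.im * b) ^ 2 ≤ ‖x‖ ^ 2 := by
    rw [h1]
    have h3 : x.re * x.re + x.im * x.im = (x.re * x.re + x.im * x.im) * (a ^ 2 + b ^ 2) := by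
      rw [h, mul_one]
    rw [h3]
    nlinarith [sq_nonneg (x.re * b - x.im * a)]
  by_contra h4
  push Not at h4
  have h5 := norm_nonneg x
  nlinarith

/-- the saving is nonnegative -/
theorem B1_L {A ρ p : ℝ} (h0 : 0 ≤ A) (h1 : A ≤ Real.pi / 3) (hρ : 1 ≤ ρ)
    (h : p * Real.sin A ≤ 1 + ρ * Real.cos A) : 0 ≤ ρ * Real.sin A - p * (1 - Real.cos A) := by
  rcases eq_or_lt_of_le h0 with h2 | h2
  · rw [← h2, Real.sin_zero, Real.cos_zero]
    simp
  · have hpi := Real.pi_pos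
    have hs : 0 < Real.sin A := Real.sin_pos_of_pos_of_lt_pi h2 (by linarith)
    have hc : 0 ≤ 1 - Real.cos A := by
      have := Real.cos_le_one A
      linarith
    have hsc := Real.sin_sq_add_cos_sq A
    have h3 : 0 ≤ Real.sin A * (ρ * Real.sin A - p * (1 - Real.cos A)) := by
      have h4 : (1 - Real.cos A) * (p * Real.sin A) ≤ (1 - Real.cos A) * (1 + ρ * Real.cos A) :=
        mul_le_mul_of_nonneg_left h hc
      have h5 : ρ * Real.sin A ^ 2 = ρ * (1 - Real.cos A) * (1 + Real.cos A) := by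
        have : Real.sin A ^ 2 = 1 - Real.cos A ^ 2 := by linarith
        rw [this]
        ring
      have h6 : 0 ≤ (1 - Real.cos A) * (ρ - 1) := mul_nonneg hc (by linarith)
      nlinarith
    exact (mul_nonneg_iff_of_pos_left hs).1 h3

/-- the saving if the edge is steeper than the angle -/
theorem B1_L2 {τ ϑ ρ p : ℝ} (h0 : 0 < ϑ) (h1 : ϑ ≤ τ) (h2 : τ ≤ Real.pi / 6) (hρ : 1 ≤ ρ)
    (h : p * Real.sin (τ + ϑ) ≤ 1 + ρ * Real.cos (τ + ϑ)) :
    -(2 * (Real.sin τ - Real.sin ϑ)) ≤ ρ * Real.sin (2 * τ) - p * (1 - Real.cos (2 * τ)) := by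
  have hpi := Real.pi_pos
  have hs : 0 < Real.sin (τ + ϑ) := Real.sin_pos_of_pos_of_lt_pi (by linarith) (by linarith)
  have hst : 0 < Real.sin τ := Real.sin_pos_of_pos_of_lt_pi (by linarith) (by linarith)
  have hsth : 0 < Real.sin ϑ := Real.sin_pos_of_pos_of_lt_pi h0 (by linarith)
  have hm1 : Real.sin ϑ ≤ Real.sin τ :=
    Real.sin_le_sin_of_le_of_le_pi_div_two (by linarith) (by linarith) h1
  have hm2 : Real.sin τ ≤ Real.sin (τ + ϑ) :=
    Real.sin_le_sin_of_le_of_le_pi_div_two (by linarith) (by linarith) (by linarith)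
  have hc2 : 1 - Real.cos (2 * τ) = 2 * Real.sin τ ^ 2 := by
    rw [Real.cos_two_mul]
    have := Real.sin_sq_add_cos_sq τ
    linarith
  have hs2 : Real.sin (2 * τ) = 2 * Real.sin τ * Real.cos τ := Real.sin_two_mul τ
  have hid : Real.sin τ * Real.cos (τ + ϑ) - Real.cos τ * Real.sin (τ + ϑ) = -Real.sin ϑ := by
    have h5 : Real.sin (τ - (τ + ϑ)) = -Real.sin ϑ := by
      rw [show τ - (τ + ϑ) = -ϑ by ring, Real.sin_neg]
    rw [← h5, Real.sin_sub]
  rw [hc2, hs2]
  have h3 : 0 ≤ Real.sin (τ + ϑ) * (ρ * (2 * Real.sin τ * Real.cos τ) -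
      p * (2 * Real.sin τ ^ 2) + 2 * (Real.sin τ - Real.sin ϑ)) := by
    have h4 : 2 * Real.sin τ ^ 2 * (p * Real.sin (τ + ϑ)) ≤
        2 * Real.sin τ ^ 2 * (1 + ρ * Real.cos (τ + ϑ)) :=
      mul_le_mul_of_nonneg_left h (by positivity)
    have h6 : 2 * Real.sin τ ^ 2 * (1 + ρ * Real.cos (τ + ϑ)) -
        Real.sin (τ + ϑ) * (ρ * (2 * Real.sin τ * Real.cos τ)) =
        2 * Real.sin τ * (Real.sin τ - ρ * Real.sin ϑ) := by
      have : 2 * Real.sin τ ^ 2 * (1 + ρ * Real.cos (τ + ϑ)) -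
        Real.sin (τ + ϑ) * (ρ * (2 * Real.sin τ * Real.cos τ)) =
        2 * Real.sin τ * (Real.sin τ + ρ * (Real.sin τ * Real.cos (τ + ϑ) -
          Real.cos τ * Real.sin (τ + ϑ))) := by ring
      rw [this, hid]
      ring
    have h7 : 2 * Real.sin τ * (Real.sin τ - ρ * Real.sin ϑ) ≤
        2 * Real.sin τ * (Real.sin τ - Real.sin ϑ) := by
      apply mul_le_mul_of_nonneg_left _ (by positivity)
      nlinarith
    have h8 : 2 * Real.sin τ * (Real.sin τ - Real.sin ϑ) ≤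
        2 * Real.sin (τ + ϑ) * (Real.sin τ - Real.sin ϑ) := by
      apply mul_le_mul_of_nonneg_right _ (by linarith)
      linarith
    have h9 : Real.sin (τ + ϑ) * (ρ * (2 * Real.sin τ * Real.cos τ) -
      p * (2 * Real.sin τ ^ 2) + 2 * (Real.sin τ - Real.sin ϑ)) =
      Real.sin (τ + ϑ) * (ρ * (2 * Real.sin τ * Real.cos τ)) -
      2 * Real.sin τ ^ 2 * (p * Real.sin (τ + ϑ)) +
      2 * Real.sin (τ + ϑ) * (Real.sin τ - Real.sin ϑ) := by ring
    rw [h9]
    linarith
  have h5 := (mul_nonneg_iff_of_pos_left hs).1 h3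
  linarith

/-- the lower bound with the vectors `u (t - π/2)`, `u (π/2 - t)` -/
theorem B1_core (σ t ρ p q c : ℝ) (w w' z : ℂ) (ht0 : 0 ≤ t) (ht1 : t ≤ Real.pi / 6)
    (hw : w = ρ * u (Real.pi + σ) - p * e (Real.pi + σ))
    (hw' : w' = ρ * u (Real.pi + σ) + q * e (Real.pi + σ)) (hc : c ≤ 1) (hz : c ≤ z.re) :
    p + q + c - 1 + 2 * Real.sin t + (ρ * Real.sin (t - σ) - p * (1 - Real.cos (t - σ))) +
      (ρ * Real.sin (t + σ) - q * (1 - Real.cos (t + σ))) ≤ dist w z + dist z w' := by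
  have hpi := Real.pi_pos
  have hre : w.re = -ρ * Real.cos σ - p * Real.sin σ := by
    rw [hw]
    simp [u, e, Real.cos_add, Real.sin_add]
  have him : w.im = -ρ * Real.sin σ + p * Real.cos σ := by
    rw [hw]
    simp [u, e, Real.cos_add, Real.sin_add]
  have hre' : w'.re = -ρ * Real.cos σ + q * Real.sin σ := by
    rw [hw']
    simp [u, e, Real.cos_add, Real.sin_add]
  have him' : w'.im = -ρ * Real.sin σ - q * Real.cos σ := by
    rw [hw']
    simp [u, e, Real.cos_add, Real.sin_add]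
    ring
  have hsc := Real.sin_sq_add_cos_sq t
  have d1 := B1_lin (z - w) (Real.sin t) (-Real.cos t) (by rw [neg_sq]; exact hsc)
  have d2 := B1_lin (z - w') (Real.sin t) (Real.cos t) hsc
  have e1 : dist w z = ‖z - w‖ := by rw [dist_comm, dist_eq_norm]
  have e2 : dist z w' = ‖z - w'‖ := by rw [dist_eq_norm]
  rw [e1, e2]
  rw [Complex.sub_re, Complex.sub_im, hre, him] at d1
  rw [Complex.sub_re, Complex.sub_im, hre', him'] at d2
  have hs0 : 0 ≤ Real.sin t := Real.sin_nonneg_of_nonneg_of_le_pi ht0 (by linarith)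
  have hs1 : Real.sin t ≤ 1 / 2 := by
    rw [← Real.sin_pi_div_six]
    exact Real.sin_le_sin_of_le_of_le_pi_div_two (by linarith) (by linarith) ht1
  have f1 : c * Real.sin t ≤ z.re * Real.sin t := mul_le_mul_of_nonneg_right hz hs0
  have f2 : 0 ≤ (1 - 2 * Real.sin t) * (1 - c) := mul_nonneg (by linarith) (by linarith)
  rw [Real.sin_sub, Real.cos_sub, Real.sin_add, Real.cos_add]
  nlinarith

theorem p_B1 : Stmt_B1 := by
  intro σ ϑ ρ p q c w w' z hσ h0 h1 hρ hw hw' h2 h3 hc hz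
  have hpi := Real.pi_pos
  have hre : w.re = -ρ * Real.cos σ - p * Real.sin σ := by
    rw [hw]
    simp [u, e, Real.cos_add, Real.sin_add]
  have him : w.im = -ρ * Real.sin σ + p * Real.cos σ := by
    rw [hw]
    simp [u, e, Real.cos_add, Real.sin_add]
  have hre' : w'.re = -ρ * Real.cos σ + q * Real.sin σ := by
    rw [hw']
    simp [u, e, Real.cos_add, Real.sin_add]
  have him' : w'.im = -ρ * Real.sin σ - q * Real.cos σ := by
    rw [hw']
    simp [u, e, Real.cos_add, Real.sin_add]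
    ring
  have H1 : p * Real.sin (ϑ - σ) ≤ 1 + ρ * Real.cos (ϑ - σ) := by
    unfold pr at h2
    rw [hre, him] at h2
    rw [Real.sin_sub, Real.cos_sub]
    linarith
  have H2 : q * Real.sin (ϑ + σ) ≤ 1 + ρ * Real.cos (ϑ + σ) := by
    unfold pr at h3
    rw [hre', him', Real.cos_neg, Real.sin_neg] at h3
    rw [Real.sin_add, Real.cos_add]
    linarith
  obtain ⟨hσ1, hσ2⟩ := abs_le.1 hσ
  by_cases hc1 : |σ| ≤ ϑ
  · obtain ⟨hc2, hc3⟩ := abs_le.1 hc1
    have k1 := B1_L (A := ϑ - σ) (by linarith) (by linarith) hρ H1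
    have k2 := B1_L (A := ϑ + σ) (by linarith) (by linarith) hρ H2
    have k3 := B1_core σ ϑ ρ p q c w w' z h0.le h1 hw hw' hc hz
    linarith
  · push Not at hc1
    rcases le_or_gt σ 0 with hs | hs
    · have ha : |σ| = -σ := abs_of_nonpos hs
      rw [ha] at hc1
      have k1 := B1_L2 (τ := -σ) (ϑ := ϑ) (p := p) h0 hc1.le (by linarith) hρ (by
        rw [show -σ + ϑ = ϑ - σ by ring]
        exact H1)
      have k3 := B1_core σ (-σ) ρ p q c w w' z (by linarith) (by linarith) hw hw' hc hz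
      rw [show -σ - σ = 2 * -σ by ring, show -σ + σ = 0 by ring, Real.sin_zero,
        Real.cos_zero] at k3
      linarith
    · have ha : |σ| = σ := abs_of_pos hs
      rw [ha] at hc1
      have k1 := B1_L2 (τ := σ) (ϑ := ϑ) (p := q) h0 hc1.le (by linarith) hρ (by
        rw [show σ + ϑ = ϑ + σ by ring]
        exact H2)
      have k3 := B1_core σ σ ρ p q c w w' z (by linarith) (by linarith) hw hw' hc hz
      rw [show σ - σ = 0 by ring, show σ + σ = 2 * σ by ring, Real.sin_zero,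
        Real.cos_zero] at k3
      linarith

end

end Pool.BA
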