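import Pool.Agent.Work.MP_655153_ba.Interface3

/-! B2 (overlapping flat pair, `μ1, μ2 ≥ π/6`) of the development for MP_655153. -/

namespace Pool.BA

theorem B2_key (σ μ ρ p : ℝ) (hσ : |σ| ≤ Real.pi / 6) (h1 : Real.pi / 6 ≤ μ)
    (h2 : μ ≤ 7 * Real.pi / 12) (hρ : 1 ≤ ρ)
    (hp : -(ρ * Real.cos (μ - σ)) + p * Real.sin (μ - σ) ≤ 1) :
    2 * Real.sin ((μ - Real.pi / 6) / 2) * Real.sin ((Real.pi / 6 - σ) / 2) /
        Real.sin ((μ - σ) / 2) ≤
      ρ * Real.sin (Real.pi / 6 - σ) - p * (1 - Real.cos (Real.pi / 6 - σ)) := by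
  have hpi := Real.pi_pos
  obtain ⟨hσ1, hσ2⟩ := abs_le.1 hσ
  obtain ⟨h, hh⟩ : ∃ h : ℝ, h = (μ - σ) / 2 := ⟨_, rfl⟩
  obtain ⟨a, ha⟩ : ∃ a : ℝ, a = (Real.pi / 6 - σ) / 2 := ⟨_, rfl⟩
  have ec : (μ - Real.pi / 6) / 2 = h - a := by rw [hh, ha]; ring
  have em : μ - σ = 2 * h := by rw [hh]; ring
  have eA : Real.pi / 6 - σ = 2 * a := by rw [ha]; ring
  rw [em] at hp
  rw [ec, ← hh, ← ha, eA]
  have ha0 : 0 ≤ a := by rw [ha]; linarith
  have ha1 : a ≤ Real.pi / 6 := by rw [ha]; linarith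
  have hc0 : 0 ≤ h - a := by rw [hh, ha]; linarith
  have hh1 : h ≤ 3 * Real.pi / 8 := by rw [hh]; linarith
  have hh0 : 0 ≤ h := by linarith
  have hsa : 0 ≤ Real.sin a := Real.sin_nonneg_of_nonneg_of_le_pi ha0 (by linarith)
  rcases hh0.eq_or_lt with h0 | hpos
  · have ea : a = 0 := by linarith
    rw [ea, ← h0]
    simp
  · have hs : 0 < Real.sin h := Real.sin_pos_of_pos_of_lt_pi hpos (by linarith)
    have hc : 0 < Real.cos h := Real.cos_pos_of_mem_Ioo ⟨by linarith, by linarith⟩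
    have hco : 0 ≤ Real.sin (2 * h - a) :=
      Real.sin_nonneg_of_nonneg_of_le_pi (by linarith) (by linarith)
    rw [Real.sin_sub, Real.sin_two_mul, Real.cos_two_mul] at hco
    rw [Real.sin_two_mul, Real.cos_two_mul] at hp
    rw [Real.sin_sub, Real.sin_two_mul, Real.cos_two_mul, div_le_iff₀ hs]
    have e1 := Real.sin_sq_add_cos_sq a
    have e2 := Real.sin_sq_add_cos_sq h
    generalize Real.sin a = sa at *
    generalize Real.cos a = ca at *
    generalize Real.sin h = sh at *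
    generalize Real.cos h = ch at *
    have k1 : 0 ≤ sa * ((ρ - 1) * (2 * sh * ch * ca - (2 * ch ^ 2 - 1) * sa)) :=
      mul_nonneg hsa (mul_nonneg (by linarith) hco)
    have k2 : sa ^ 2 * (-(ρ * (2 * ch ^ 2 - 1)) + p * (2 * sh * ch)) ≤ sa ^ 2 * 1 :=
      mul_le_mul_of_nonneg_left hp (sq_nonneg _)
    refine le_of_mul_le_mul_right ?_ hc
    have e3 : 1 - (2 * ca ^ 2 - 1) = 2 * sa ^ 2 := by linarith
    rw [e3]
    nlinarith [k1, k2]

theorem B2_norm (w z : ℂ) (θ : ℝ) : (z.re - w.re) * Real.cos θ + (z.im - w.im) * Real.sin θ ≤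
    dist w z := by
  rw [dist_comm, Complex.dist_eq]
  have h1 : ((z.re - w.re) * Real.cos θ + (z.im - w.im) * Real.sin θ) ^ 2 ≤ ‖z - w‖ ^ 2 := by
    rw [← Complex.normSq_eq_norm_sq, Complex.normSq_apply, Complex.sub_re, Complex.sub_im]
    have e1 := Real.sin_sq_add_cos_sq θ
    nlinarith [sq_nonneg ((z.re - w.re) * Real.sin θ - (z.im - w.im) * Real.cos θ), e1]
  exact le_of_abs_le (abs_le_of_sq_le_sq h1 (norm_nonneg _))

theorem p_B2 (hGS : Stmt_GS) : Stmt_B2 := by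
  intro σ μ1 μ2 ρ p q w w' z hσ h11 h12 h21 h22 hρ hw hw' hp hq
  have hG := hGS.2 σ μ1 μ2 hσ h11 h12 h21 h22
  have hwre : w.re = -(ρ * Real.cos σ) - p * Real.sin σ := by
    rw [hw]
    simp only [u, e, Complex.sub_re, Complex.mul_re, Complex.ofReal_re, Complex.ofReal_im]
    rw [show Real.pi + σ = σ + Real.pi by ring, Real.cos_add_pi, Real.sin_add_pi]
    ring
  have hwim : w.im = -(ρ * Real.sin σ) + p * Real.cos σ := by
    rw [hw]
    simp only [u, e, Complex.sub_im, Complex.mul_im, Complex.ofReal_re, Complex.ofReal_im]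
    rw [show Real.pi + σ = σ + Real.pi by ring, Real.cos_add_pi, Real.sin_add_pi]
    ring
  have hwre' : w'.re = -(ρ * Real.cos σ) + q * Real.sin σ := by
    rw [hw']
    simp only [u, e, Complex.add_re, Complex.mul_re, Complex.ofReal_re, Complex.ofReal_im]
    rw [show Real.pi + σ = σ + Real.pi by ring, Real.cos_add_pi, Real.sin_add_pi]
    ring
  have hwim' : w'.im = -(ρ * Real.sin σ) - q * Real.cos σ := by
    rw [hw']
    simp only [u, e, Complex.add_im, Complex.mul_im, Complex.ofReal_re, Complex.ofReal_im]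
    rw [show Real.pi + σ = σ + Real.pi by ring, Real.cos_add_pi, Real.sin_add_pi]
    ring
  have k1 := B2_key σ μ1 ρ p hσ h11 h12 hρ (by
    simp only [pr] at hp
    rw [hwre, hwim] at hp
    rw [Real.cos_sub, Real.sin_sub]
    nlinarith [hp])
  have k2 := B2_key (-σ) μ2 ρ q (by rwa [abs_neg]) h21 h22 hρ (by
    simp only [pr] at hq
    rw [hwre', hwim', Real.cos_neg, Real.sin_neg] at hq
    rw [Real.cos_sub, Real.sin_sub, Real.cos_neg, Real.sin_neg]
    nlinarith [hq])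
  rw [show μ2 - -σ = μ2 + σ by ring, show Real.pi / 6 - -σ = Real.pi / 6 + σ by ring] at k2
  have n1 := B2_norm w z (-(Real.pi / 3))
  have n2 := B2_norm w' z (Real.pi / 3)
  rw [Real.cos_neg, Real.sin_neg, Real.cos_pi_div_three, Real.sin_pi_div_three] at n1
  rw [Real.cos_pi_div_three, Real.sin_pi_div_three] at n2
  rw [dist_comm w' z] at n2
  rw [Real.sin_sub, Real.cos_sub, Real.cos_pi_div_six, Real.sin_pi_div_six] at k1
  rw [Real.sin_add, Real.cos_add, Real.cos_pi_div_six, Real.sin_pi_div_six] at k2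
  rw [hwre, hwim] at n1
  rw [hwre', hwim'] at n2
  nlinarith [k1, k2, n1, n2, hG]

end Pool.BA
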