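import Pool.Agent.Work.MP_655153_ba.Interface5

/-! # MP_655153_co (helper97), block BOTH (typed by helper63) -/

set_option autoImplicit false

open MeasureTheory Set

namespace Pool.BA

noncomputable section

theorem both_per (hROT : Stmt_ROT) (P : List ℂ) (k : ℤ) (θ : ℝ) :
    Free P (θ + (k : ℝ) * (2 * Real.pi)) ↔ Free P θ := by
  have h : Function.Periodic (Free P) (2 * Real.pi) := fun x => propext (hROT.2.2.2.2.2.1 P x)
  exact Iff.of_eq ((h.int_mul k) θ)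

theorem both_star (hMS : Stmt_MS) (hROT : Stmt_ROT) (P Q : List ℂ)
    (h : ∀ θ, ¬ Free P θ ∨ ¬ Free Q θ) (a b α β θ' c d : ℝ) (hab : a < b) (hα : 0 ≤ α)
    (hβ : 0 ≤ β) (h1 : ∀ θ ∈ Ioo a b, Free P θ) (h2 : ∀ θ ∈ Icc b (b + 2 * α), ¬ Free P θ)
    (h3 : ∀ θ ∈ Icc (a + 2 * Real.pi - 2 * β) (a + 2 * Real.pi), ¬ Free P θ)
    (h4 : b + 2 * α < θ') (h5 : θ' < a + 2 * Real.pi - 2 * β) (h6 : Free P θ')
    (hcd : c < d) (hQ : ∀ θ ∈ Ioo c d, Free Q θ) :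
    fr P + (d - c) + 2 * α ≤ 2 * Real.pi ∨ fr P + (d - c) + 2 * β ≤ 2 * Real.pi := by
  have hπ := Real.two_pi_pos
  obtain ⟨k, hk1, hk2⟩ : ∃ k : ℤ, b ≤ c - (k : ℝ) * (2 * Real.pi) ∧
      c - (k : ℝ) * (2 * Real.pi) < b + 2 * Real.pi := by
    have h7 := toIcoMod_mem_Ico hπ b c
    have h8 : toIcoMod hπ b c = c - (toIcoDiv hπ b c : ℝ) * (2 * Real.pi) := by
      rw [← zsmul_eq_mul]
      rfl
    rw [h8] at h7
    exact ⟨toIcoDiv hπ b c, h7.1, h7.2⟩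
  set c' : ℝ := c - (k : ℝ) * (2 * Real.pi) with hc'
  set d' : ℝ := d - (k : ℝ) * (2 * Real.pi) with hd'
  have hcd' : c' < d' := by linarith
  have hlen : d' - c' = d - c := by simp only [hc', hd']; ring
  have hQ' : ∀ θ ∈ Ioo c' d', Free Q θ := by
    intro θ hθ
    have := hQ (θ + (k : ℝ) * (2 * Real.pi)) ⟨by linarith [hθ.1], by linarith [hθ.2]⟩
    exact (both_per hROT Q k θ).1 this
  have hP' : ∀ θ ∈ Ioo c' d', ¬ Free P θ := by
    intro θ hθ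
    rcases h θ with h8 | h8
    · exact h8
    · exact absurd (hQ' θ hθ) h8
  have hPs : ∀ θ ∈ Ioo (a + 2 * Real.pi) (b + 2 * Real.pi), Free P θ := by
    intro θ hθ
    have h8 := h1 (θ - 2 * Real.pi) ⟨by linarith [hθ.1], by linarith [hθ.2]⟩
    have h9 := (hROT.2.2.2.2.2.1 P (θ - 2 * Real.pi)).2 h8
    rwa [sub_add_cancel] at h9
  have hc1 : c' < a + 2 * Real.pi := by
    by_contra hcon
    push Not at hcon
    have h8 : c' < min d' (b + 2 * Real.pi) := lt_min hcd' hk2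
    have h9 : min d' (b + 2 * Real.pi) ≤ d' := min_le_left _ _
    have h10 : min d' (b + 2 * Real.pi) ≤ b + 2 * Real.pi := min_le_right _ _
    refine hP' ((c' + min d' (b + 2 * Real.pi)) / 2) ⟨by linarith, by linarith⟩
      (hPs _ ⟨by linarith, by linarith⟩)
  have hd1 : d' ≤ a + 2 * Real.pi := by
    by_contra hcon
    push Not at hcon
    have h8 : a + 2 * Real.pi < min d' (b + 2 * Real.pi) := lt_min hcon (by linarith)
    have h9 : min d' (b + 2 * Real.pi) ≤ d' := min_le_left _ _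
    have h10 : min d' (b + 2 * Real.pi) ≤ b + 2 * Real.pi := min_le_right _ _
    refine hP' ((a + 2 * Real.pi + min d' (b + 2 * Real.pi)) / 2) ⟨by linarith, by linarith⟩
      (hPs _ ⟨by linarith, by linarith⟩)
  have hθ : d' ≤ θ' ∨ θ' ≤ c' := by
    by_contra hcon
    push Not at hcon
    exact hP' θ' ⟨hcon.2, hcon.1⟩ h6
  rcases hθ with h8 | h8
  · right
    have h9 := hMS.2.1 P c' d' (a + 2 * Real.pi - 2 * β) (a + 2 * Real.pi) hcd'.le (by linarith)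
      (by linarith) (by linarith) hP' (fun θ hθ => h3 θ ⟨hθ.1.le, hθ.2.le⟩)
    linarith
  · left
    have h9 := hMS.2.1 P b (b + 2 * α) c' d' (by linarith) (by linarith)
      hcd'.le (by linarith) (fun θ hθ => h2 θ ⟨hθ.1.le, hθ.2.le⟩) hP'
    linarith

theorem both_hu (hMS : Stmt_MS) (hSFB : Stmt_SFB) (P Q : List ℂ)
    (h : ∀ θ, ¬ Free P θ ∨ ¬ Free Q θ)
    (hP : 2 * Real.pi - fr P / 2 - 2 * s0 ≤ plen P)
    (hQ : ∃ a b α β θ' : ℝ, a < b ∧ 0 ≤ α ∧ α < Real.pi / 2 ∧ 0 ≤ β ∧ β < Real.pi / 2 ∧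
    (∀ θ ∈ Ioo a b, Free Q θ) ∧ (∀ θ ∈ Icc b (b + 2 * α), ¬ Free Q θ) ∧
    (∀ θ ∈ Icc (a + 2 * Real.pi - 2 * β) (a + 2 * Real.pi), ¬ Free Q θ) ∧
    b + 2 * α < θ' ∧ θ' < a + 2 * Real.pi - 2 * β ∧ Free Q θ' ∧
    2 * Real.pi - fr Q / 2 - (b - a) / 2 - sf α - sf β ≤ plen Q) :
    Real.pi + 2 ≤ plen P + plen Q := by
  obtain ⟨a, b, α, β, θ', hab, hα, hα', hβ, hβ', h1, h2, h3, h4, h5, h6, h7⟩ := hQ
  have e1 := hMS.2.1 Q b (b + 2 * α) (a + 2 * Real.pi - 2 * β) (a + 2 * Real.pi) (by linarith)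
    (by linarith) (by linarith) (by linarith) (fun θ hθ => h2 θ ⟨hθ.1.le, hθ.2.le⟩)
    (fun θ hθ => h3 θ ⟨hθ.1.le, hθ.2.le⟩)
  have e2 := hMS.2.1 P a b b b hab.le le_rfl le_rfl (by linarith)
    (fun θ hθ => by
      rcases h θ with h8 | h8
      · exact h8
      · exact absurd (h1 θ hθ) h8) (fun θ hθ => absurd (hθ.1.trans hθ.2) (lt_irrefl _))
  have f1 := (hSFB α hα hα').2
  have f2 := (hSFB β hβ hβ').2
  have hs : s0 = Real.pi / 2 - 1 := rfl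
  linarith

theorem p_BOTH (hTWO : Stmt_TWO) (hMS : Stmt_MS) (hSFB : Stmt_SFB) (hROT : Stmt_ROT) :
    Stmt_BOTH := by
  intro P Q h hP hQ
  have h' : ∀ θ, ¬ Free Q θ ∨ ¬ Free P θ := fun θ => (h θ).symm
  have hs : s0 = Real.pi / 2 - 1 := rfl
  rcases hTWO P hP with h1 | h1
  · rcases hTWO Q hQ with h2 | h2
    · have h3 := hMS.2.2.1 P Q h
      have hπ := Real.pi_pos
      linarith
    · exact both_hu hMS hSFB P Q h h1 h2
  · rcases hTWO Q hQ with h2 | h2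
    · have h3 := both_hu hMS hSFB Q P h' h2 h1
      linarith
    · obtain ⟨a, b, α, β, θ', hab, hα, hα', hβ, hβ', p1, p2, p3, p4, p5, p6, p7⟩ := h1
      obtain ⟨c, d, γ, δ, ϑ', hcd, hγ, hγ', hδ, hδ', q1, q2, q3, q4, q5, q6, q7⟩ := h2
      have s1 := both_star hMS hROT P Q h a b α β θ' c d hab hα hβ p1 p2 p3 p4 p5 p6 hcd q1
      have s2 := both_star hMS hROT Q P h' c d γ δ ϑ' a b hcd hγ hδ q1 q2 q3 q4 q5 q6 hab p1
      have fα := hSFB α hα hα'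
      have fβ := hSFB β hβ hβ'
      have fγ := hSFB γ hγ hγ'
      have fδ := hSFB δ hδ hδ'
      rcases s1 with s1 | s1 <;> rcases s2 with s2 | s2
      · linarith [fα.2, fβ.1, fγ.2, fδ.1]
      · linarith [fα.2, fβ.1, fδ.2, fγ.1]
      · linarith [fβ.2, fα.1, fγ.2, fδ.1]
      · linarith [fβ.2, fα.1, fδ.2, fγ.1]

end

end Pool.BA
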