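import Pool.Agent.Work.MP_655153_ba.Interface1

/-!
# Block BV: the charge lemma with one end

The lemmas `BV_cover`, `BV_sum` are stated for an arbitrary set `E` of ends.
-/

open MeasureTheory Set
open scoped ENNReal

namespace Pool.BA

noncomputable section

/-- `i` and `j` are consecutive in `p`, in some order -/
def BV_Ad (p : List ℕ) (i j : ℕ) : Prop := [i, j] <:+: p ∨ [j, i] <:+: p

/-- `i`, `i + 1` are consecutive in `p` and their caps overlap -/
def BV_Us (κ α : ℕ → ℝ) (p : List ℕ) (i : ℕ) : Prop :=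
  BV_Ad p i (i + 1) ∧ Lf κ α (i + 1) ≤ Rt κ α i

open Classical in
/-- right end of the cell -/
def BV_cr (κ α : ℕ → ℝ) (p : List ℕ) (E : ℕ → Prop) (i : ℕ) : ℝ :=
  if BV_Us κ α p i ∧ E (i + 1) then Lf κ α (i + 1) else Rt κ α i

open Classical in
/-- left end of the cell -/
def BV_cl (κ α : ℕ → ℝ) (p : List ℕ) (E : ℕ → Prop) (i : ℕ) : ℝ :=
  if 0 < i ∧ BV_Us κ α p (i - 1) ∧ ¬ E i then Rt κ α (i - 1) else Lf κ α i

open Classical in
/-- the charge of `i` from the pair `i j` -/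
def BV_c (κ α : ℕ → ℝ) (p : List ℕ) (E : ℕ → Prop) (i j : ℕ) : ℝ :=
  if ov κ α i j then
    (if j = i + 1 then Real.sin (BV_cr κ α p E i - κ i) / Real.cos (α i)
      else Real.sin (κ i - BV_cl κ α p E i) / Real.cos (α i))
  else Real.tan (α i)

theorem BV_ov_comm (κ α : ℕ → ℝ) (i j : ℕ) : ov κ α i j ↔ ov κ α j i := by
  unfold ov
  exact Or.comm

theorem BV_ov_succ {κ α : ℕ → ℝ} {i : ℕ} (h : Lf κ α (i + 1) ≤ Rt κ α i) : ov κ α i (i + 1) :=
  Or.inl ⟨rfl, h⟩

theorem BV_mem_of_Ad {p : List ℕ} {i j : ℕ} (h : BV_Ad p i j) : i ∈ p ∧ j ∈ p := by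
  rcases h with h | h
  · exact ⟨h.subset (by simp), h.subset (by simp)⟩
  · exact ⟨h.subset (by simp), h.subset (by simp)⟩

theorem BV_LR {κ α : ℕ → ℝ} {i : ℕ} (h : 0 ≤ α i) : Lf κ α i ≤ Rt κ α i := by
  unfold Lf Rt
  linarith

section cells

variable {m : ℕ} {κ α : ℕ → ℝ} {p : List ℕ} {E : ℕ → Prop}

theorem BV_cr_le (i : ℕ) :
    BV_cr κ α p E i ≤ Rt κ α i := by
  unfold BV_cr
  split_ifs with h
  · exact h.1.2
  · exact le_rfl

theorem BV_lt_cr (hC : Chain m κ α) (hp : ∀ i ∈ p, i < m) {i : ℕ} (hi : i < m) :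
    Lf κ α i ≤ BV_cr κ α p E i := by
  unfold BV_cr
  split_ifs with h
  · exact (hC.l i (hp _ (BV_mem_of_Ad h.1.1).2)).le
  · exact BV_LR (hC.α0 i hi)

theorem BV_le_cl (i : ℕ) : Lf κ α i ≤ BV_cl κ α p E i := by
  unfold BV_cl
  split_ifs with h
  · have h1 := h.2.1.2
    rwa [Nat.sub_add_cancel h.1] at h1
  · exact le_rfl

theorem BV_cl_le (hC : Chain m κ α) {i : ℕ} (hi : i < m) :
    BV_cl κ α p E i ≤ Rt κ α i := by
  unfold BV_cl
  split_ifs with h
  · have h1 := hC.r (i - 1) (by omega)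
    rw [Nat.sub_add_cancel h.1] at h1
    exact h1.le
  · exact BV_LR (hC.α0 i hi)

theorem BV_cl_le_cr (hC : Chain m κ α) (hp : ∀ i ∈ p, i < m) {i : ℕ} (hi : i < m) :
    BV_cl κ α p E i ≤ BV_cr κ α p E i := by
  by_cases h1 : 0 < i ∧ BV_Us κ α p (i - 1) ∧ ¬ E i
  · have e1 : BV_cl κ α p E i = Rt κ α (i - 1) := if_pos h1
    by_cases h2 : BV_Us κ α p i ∧ E (i + 1)
    · have e2 : BV_cr κ α p E i = Lf κ α (i + 1) := if_pos h2
      rw [e1, e2]
      have h3 : i + 1 < m := hp _ (BV_mem_of_Ad h2.1.1).2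
      have h4 := hC.sep (i - 1) (by omega)
      have h5 : i - 1 + 2 = i + 1 := by omega
      rw [h5] at h4
      exact h4.le
    · have e2 : BV_cr κ α p E i = Rt κ α i := if_neg h2
      rw [e2]
      exact BV_cl_le hC hi
  · have e1 : BV_cl κ α p E i = Lf κ α i := if_neg h1
    rw [e1]
    exact BV_lt_cr hC hp hi

theorem BV_meet {i : ℕ} (h : BV_Us κ α p i) : BV_cr κ α p E i = BV_cl κ α p E (i + 1) := by
  by_cases hE : E (i + 1)
  · have e1 : BV_cr κ α p E i = Lf κ α (i + 1) := if_pos ⟨h, hE⟩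
    have e2 : BV_cl κ α p E (i + 1) = Lf κ α (i + 1) := if_neg (fun h' => h'.2.2 hE)
    rw [e1, e2]
  · have e1 : BV_cr κ α p E i = Rt κ α i := if_neg (fun h' => hE h'.2)
    have e2 : BV_cl κ α p E (i + 1) = Rt κ α i := if_pos ⟨Nat.succ_pos i, h, hE⟩
    rw [e1, e2]

theorem BV_end_cr (hE : ∀ i, BV_Us κ α p i → ¬ (E i ∧ E (i + 1))) {i : ℕ} (h : E i) :
    BV_cr κ α p E i = Rt κ α i :=
  if_neg (fun h' => hE i h'.1 ⟨h, h'.2⟩)

theorem BV_end_cl {i : ℕ} (h : E i) : BV_cl κ α p E i = Lf κ α i :=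
  if_neg (fun h' => h'.2.2 h)

/-- the cells cover the caps -/
theorem BV_sub (hC : Chain m κ α) (hp : ∀ i ∈ p, i < m)
    (hE : ∀ i, BV_Us κ α p i → ¬ (E i ∧ E (i + 1))) :
    (⋃ i ∈ p, Icc (Lf κ α i) (Rt κ α i)) ⊆
      ⋃ i ∈ p, Icc (BV_cl κ α p E i) (BV_cr κ α p E i) := by
  intro x hx
  rw [Set.mem_iUnion₂] at hx ⊢
  obtain ⟨i, hi, hxi⟩ := hx
  have him := hp i hi
  rcases lt_or_ge x (BV_cl κ α p E i) with h | h
  · by_cases h1 : 0 < i ∧ BV_Us κ α p (i - 1) ∧ ¬ E i
    · have e1 : BV_cl κ α p E i = Rt κ α (i - 1) := if_pos h1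
      obtain ⟨h0, hU, hEi⟩ := h1
      refine ⟨i - 1, (BV_mem_of_Ad hU.1).1, ?_, ?_⟩
      · refine le_trans ?_ hxi.1
        by_cases h2 : 0 < i - 1 ∧ BV_Us κ α p (i - 1 - 1) ∧ ¬ E (i - 1)
        · have e2 : BV_cl κ α p E (i - 1) = Rt κ α (i - 1 - 1) := if_pos h2
          rw [e2]
          have h3 := hC.sep (i - 1 - 1) (by omega)
          have h4 : i - 1 - 1 + 2 = i := by omega
          rw [h4] at h3
          exact h3.le
        · have e2 : BV_cl κ α p E (i - 1) = Lf κ α (i - 1) := if_neg h2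
          rw [e2]
          have h3 := hC.l (i - 1) (by omega)
          rw [Nat.sub_add_cancel h0] at h3
          exact h3.le
      · have e3 : BV_cr κ α p E (i - 1) = Rt κ α (i - 1) := by
          refine if_neg (fun h' => ?_)
          have h3 := h'.2
          rw [Nat.sub_add_cancel h0] at h3
          exact hEi h3
        rw [e3, ← e1]
        exact h.le
    · have e1 : BV_cl κ α p E i = Lf κ α i := if_neg h1
      rw [e1] at h
      exact absurd hxi.1 (not_le.2 h)
  · rcases le_or_gt x (BV_cr κ α p E i) with h2 | h2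
    · exact ⟨i, hi, h, h2⟩
    · by_cases h3 : BV_Us κ α p i ∧ E (i + 1)
      · have e1 : BV_cr κ α p E i = Lf κ α (i + 1) := if_pos h3
        have h4 := (BV_mem_of_Ad h3.1.1).2
        refine ⟨i + 1, h4, ?_, ?_⟩
        · rw [BV_end_cl h3.2, ← e1]
          exact h2.le
        · rw [BV_end_cr hE h3.2]
          exact hxi.2.trans (hC.r i (hp _ h4)).le
      · have e1 : BV_cr κ α p E i = Rt κ α i := if_neg h3
        rw [e1] at h2
        exact absurd hxi.2 (not_le.2 h2)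

theorem BV_cover (hC : Chain m κ α) (hn : p.Nodup) (hp : ∀ i ∈ p, i < m)
    (hE : ∀ i, BV_Us κ α p i → ¬ (E i ∧ E (i + 1))) :
    U κ α p ≤ (p.map fun i => BV_cr κ α p E i - BV_cl κ α p E i).sum := by
  classical
  have h0 : ∀ i ∈ p.toFinset, 0 ≤ BV_cr κ α p E i - BV_cl κ α p E i := fun i hi =>
    sub_nonneg.2 (BV_cl_le_cr hC hp (hp i (List.mem_toFinset.1 hi)))
  have h1 : volume (⋃ i ∈ p, Icc (Lf κ α i) (Rt κ α i)) ≤
      ENNReal.ofReal (∑ i ∈ p.toFinset, (BV_cr κ α p E i - BV_cl κ α p E i)) := by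
    refine (measure_mono (BV_sub hC hp hE)).trans ?_
    have h2 : (⋃ i ∈ p, Icc (BV_cl κ α p E i) (BV_cr κ α p E i)) =
        ⋃ i ∈ p.toFinset, Icc (BV_cl κ α p E i) (BV_cr κ α p E i) := by
      ext x
      simp only [Set.mem_iUnion, List.mem_toFinset]
    rw [h2]
    refine (measure_biUnion_finset_le _ _).trans ?_
    rw [ENNReal.ofReal_sum_of_nonneg h0]
    exact Finset.sum_le_sum fun i _ => by rw [Real.volume_Icc]
  unfold U
  refine (ENNReal.toReal_mono ENNReal.ofReal_ne_top h1).trans ?_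
  rw [ENNReal.toReal_ofReal (Finset.sum_nonneg h0), List.sum_toFinset _ hn]

end cells

section charges

variable {m : ℕ} {κ α : ℕ → ℝ} {p : List ℕ} {E : ℕ → Prop}

theorem BV_sin_le {x a : ℝ} (ha : a < Real.pi / 2) (h : |x| ≤ a) :
    Real.sin x / Real.cos a ≤ Real.tan a := by
  obtain ⟨h1, h2⟩ := abs_le.1 h
  have h0 : 0 ≤ a := (abs_nonneg x).trans h
  have hc : 0 < Real.cos a := Real.cos_pos_of_mem_Ioo ⟨by linarith [Real.pi_pos], ha⟩
  rw [Real.tan_eq_sin_div_cos]
  refine div_le_div_of_nonneg_right ?_ hc.le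
  exact Real.sin_le_sin_of_le_of_le_pi_div_two (by linarith) ha.le h2

/-- the three possible charges -/
theorem BV_c_cases (i j : ℕ) :
    (j = i + 1 ∧ BV_c κ α p E i j = Real.sin (BV_cr κ α p E i - κ i) / Real.cos (α i)) ∨
    (i = j + 1 ∧ BV_c κ α p E i j = Real.sin (κ i - BV_cl κ α p E i) / Real.cos (α i)) ∨
    BV_c κ α p E i j = Real.tan (α i) := by
  unfold BV_c
  by_cases h : ov κ α i j
  · rw [if_pos h]
    rcases h with h | h
    · left
      exact ⟨h.1, if_pos h.1⟩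
    · right
      left
      exact ⟨h.1, if_neg (by omega)⟩
  · right
    right
    exact if_neg h

theorem BV_AB (hCH : Stmt_CH) (hC : Chain m κ α) (hp : ∀ i ∈ p, i < m) {i : ℕ} (hi : i < m) :
    BV_cr κ α p E i - BV_cl κ α p E i ≤
      Real.sin (BV_cr κ α p E i - κ i) / Real.cos (α i) +
        Real.sin (κ i - BV_cl κ α p E i) / Real.cos (α i) ∧
    Real.sin (BV_cr κ α p E i - κ i) / Real.cos (α i) ≤ Real.tan (α i) ∧
    Real.sin (κ i - BV_cl κ α p E i) / Real.cos (α i) ≤ Real.tan (α i) := by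
  have h1 := BV_cr_le (κ := κ) (α := α) (p := p) (E := E) i
  have h2 := BV_lt_cr (E := E) hC hp hi
  have h3 := BV_le_cl (κ := κ) (α := α) (p := p) (E := E) i
  have h4 := BV_cl_le (p := p) (E := E) hC hi
  have h5 := BV_cl_le_cr (E := E) hC hp hi
  have h6 := hC.α1 i hi
  unfold Rt at h1 h4
  unfold Lf at h2 h3
  have ha : |BV_cr κ α p E i - κ i| ≤ α i := abs_le.2 ⟨by linarith, by linarith⟩
  have hb : |κ i - BV_cl κ α p E i| ≤ α i := abs_le.2 ⟨by linarith, by linarith⟩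
  refine ⟨?_, BV_sin_le h6 ha, BV_sin_le h6 hb⟩
  have h7 := hCH (α i) _ _ h6 ha hb (by linarith)
  rw [add_div] at h7
  linarith

/-- two different neighbours -/
theorem BV_two (hCH : Stmt_CH) (hC : Chain m κ α) (hp : ∀ i ∈ p, i < m) {i : ℕ} (hi : i < m)
    {a b : ℕ} (hab : a ≠ b) :
    BV_cr κ α p E i - BV_cl κ α p E i ≤ BV_c κ α p E i a + BV_c κ α p E i b := by
  obtain ⟨h1, h2, h3⟩ := BV_AB (E := E) hCH hC hp hi
  rcases BV_c_cases (κ := κ) (α := α) (p := p) (E := E) i a with ⟨ha, ea⟩ | ⟨ha, ea⟩ | ea <;>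
  rcases BV_c_cases (κ := κ) (α := α) (p := p) (E := E) i b with ⟨hb, eb⟩ | ⟨hb, eb⟩ | eb <;>
  rw [ea, eb] <;> first | omega | linarith

/-- one neighbour and an additional charge -/
theorem BV_one (hCH : Stmt_CH) (hC : Chain m κ α) (hp : ∀ i ∈ p, i < m) {i : ℕ} (hi : i < m)
    (a : ℕ) :
    BV_cr κ α p E i - BV_cl κ α p E i ≤ BV_c κ α p E i a + Real.tan (α i) := by
  obtain ⟨h1, h2, h3⟩ := BV_AB (E := E) hCH hC hp hi
  rcases BV_c_cases (κ := κ) (α := α) (p := p) (E := E) i a with ⟨ha, ea⟩ | ⟨ha, ea⟩ | ea <;>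
  rw [ea] <;> linarith

/-- the charge of an end -/
theorem BV_end (hE : ∀ i, BV_Us κ α p i → ¬ (E i ∧ E (i + 1))) {i : ℕ} (h : E i) (a : ℕ) :
    BV_c κ α p E i a = Real.tan (α i) ∧
    BV_cr κ α p E i - BV_cl κ α p E i - sf (α i) = Real.tan (α i) := by
  have e1 : BV_cr κ α p E i = κ i + α i := BV_end_cr hE h
  have e2 : BV_cl κ α p E i = κ i - α i := BV_end_cl h
  constructor
  · rcases BV_c_cases (κ := κ) (α := α) (p := p) (E := E) i a with ⟨ha, ea⟩ | ⟨ha, ea⟩ | ea
    · rw [ea, e1, add_sub_cancel_left, Real.tan_eq_sin_div_cos]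
    · rw [ea, e2, sub_sub_cancel, Real.tan_eq_sin_div_cos]
    · exact ea
  · rw [e1, e2]
    unfold sf
    ring

/-- the pair inequality -/
theorem BV_pair (hPRJ : Stmt_PRJ) (hC : Chain m κ α) (hp : ∀ i ∈ p, i < m) {i j : ℕ}
    (h : [i, j] <:+: p) :
    BV_c κ α p E i j + BV_c κ α p E j i + exc κ α i j ≤ dd κ α i j := by
  have hi : i < m := hp i (h.subset (by simp))
  have hj : j < m := hp j (h.subset (by simp))
  have hc : ∀ k, k < m → 0 < Real.cos (α k) := fun k hk =>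
    Real.cos_pos_of_mem_Ioo ⟨by linarith [Real.pi_pos, hC.α0 k hk], hC.α1 k hk⟩
  by_cases ho : ov κ α i j
  · have ho' : ov κ α j i := (BV_ov_comm κ α i j).1 ho
    have e0 : exc κ α i j = 0 := if_pos ho
    rcases ho with ⟨hij, hLR⟩ | ⟨hij, hLR⟩
    · subst hij
      have hU : BV_Us κ α p i := ⟨Or.inl h, hLR⟩
      have e1 : BV_c κ α p E i (i + 1) =
          Real.sin (BV_cr κ α p E i - κ i) / Real.cos (α i) := by
        unfold BV_c
        rw [if_pos (BV_ov_succ hLR), if_pos rfl]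
      have e2 : BV_c κ α p E (i + 1) i =
          Real.sin (κ (i + 1) - BV_cl κ α p E (i + 1)) / Real.cos (α (i + 1)) := by
        unfold BV_c
        rw [if_pos ho', if_neg (by omega)]
      rw [e0, e1, e2, BV_meet hU, add_zero]
      exact hPRJ _ _ _ _ _ (hc _ hi) (hc _ hj)
    · subst hij
      have hU : BV_Us κ α p j := ⟨Or.inr h, hLR⟩
      have e1 : BV_c κ α p E j (j + 1) =
          Real.sin (BV_cr κ α p E j - κ j) / Real.cos (α j) := by
        unfold BV_c
        rw [if_pos (BV_ov_succ hLR), if_pos rfl]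
      have e2 : BV_c κ α p E (j + 1) j =
          Real.sin (κ (j + 1) - BV_cl κ α p E (j + 1)) / Real.cos (α (j + 1)) := by
        unfold BV_c
        rw [if_pos ((BV_ov_comm κ α _ _).1 ho'), if_neg (by omega)]
      rw [e0, e1, e2, BV_meet hU, add_zero, add_comm]
      unfold dd
      rw [dist_comm]
      exact hPRJ _ _ _ _ _ (hc _ hj) (hc _ hi)
  · have ho' : ¬ ov κ α j i := fun h' => ho ((BV_ov_comm κ α i j).2 h')
    have e0 : exc κ α i j = dd κ α i j - Real.tan (α i) - Real.tan (α j) := if_neg ho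
    have e1 : BV_c κ α p E i j = Real.tan (α i) := if_neg ho
    have e2 : BV_c κ α p E j i = Real.tan (α j) := if_neg ho'
    rw [e0, e1, e2]
    linarith

end charges

/-- summation of the charges along a list -/
theorem BV_list (p : List ℕ) (c D X : ℕ → ℕ → ℝ) (w : ℕ → ℝ) (s : ℝ) (l : ℕ)
    (H1 : ∀ i j, [i, j] <:+: p → c i j + c j i + X i j ≤ D i j)
    (H2 : ∀ i j k, [i, j, k] <:+: p → w j ≤ c j i + c j k)
    (H3 : ∀ i, [i, l] <:+: p → w l - s ≤ c l i) :
    ∀ (q : List ℕ) (a b : ℕ), (a :: b :: q) <:+ p → (a :: b :: q).getLast? = some l →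
      psum X (a :: b :: q) + c a b + ((b :: q).map w).sum - s ≤ psum D (a :: b :: q) := by
  intro q
  induction q with
  | nil =>
    intro a b hs hl
    have hbl : b = l := by simpa using hl
    subst hbl
    have h1 : [a, b] <:+: p := hs.isInfix
    have h2 := H1 a b h1
    have h3 := H3 a h1
    simp only [psum, List.map_cons, List.map_nil, List.sum_cons, List.sum_nil]
    linarith
  | cons d q ih =>
    intro a b hs hl
    have hpre2 : [a, b] <+: (a :: b :: d :: q) := ⟨d :: q, rfl⟩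
    have hpre3 : [a, b, d] <+: (a :: b :: d :: q) := ⟨q, rfl⟩
    have h1 : [a, b] <:+: p := hpre2.isInfix.trans hs.isInfix
    have h2 : [a, b, d] <:+: p := hpre3.isInfix.trans hs.isInfix
    have hs' : (b :: d :: q) <:+ p := (List.suffix_cons a _).trans hs
    have hl' : (b :: d :: q).getLast? = some l := by
      rw [← hl]
      exact (List.getLast?_cons_cons (a := a) (b := b) (l := d :: q)).symm
    have h3 := ih b d hs' hl'
    have h4 := H1 a b h1
    have h5 := H2 a b d h2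
    have e1 : psum X (a :: b :: d :: q) = X a b + psum X (b :: d :: q) := rfl
    have e2 : psum D (a :: b :: d :: q) = D a b + psum D (b :: d :: q) := rfl
    have e3 : ((b :: d :: q).map w).sum = w b + ((d :: q).map w).sum := by
      rw [List.map_cons, List.sum_cons]
    rw [e1, e2, e3]
    linarith

/-- the sum of the charges, for any set of ends which contains the last index -/
theorem BV_sum (hPRJ : Stmt_PRJ) (hCH : Stmt_CH) {m : ℕ} {κ α : ℕ → ℝ} {E : ℕ → Prop}
    {a b l : ℕ} {q : List ℕ} (hC : Chain m κ α) (hn : (a :: b :: q).Nodup)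
    (hp : ∀ i ∈ a :: b :: q, i < m)
    (hE : ∀ i, BV_Us κ α (a :: b :: q) i → ¬ (E i ∧ E (i + 1)))
    (hl : (a :: b :: q).getLast? = some l) (hEl : E l) :
    psum (exc κ α) (a :: b :: q) + BV_c κ α (a :: b :: q) E a b +
      ((b :: q).map fun i => BV_cr κ α (a :: b :: q) E i - BV_cl κ α (a :: b :: q) E i).sum -
        sf (α l) ≤ psum (dd κ α) (a :: b :: q) := by
  refine BV_list (a :: b :: q) (BV_c κ α (a :: b :: q) E) (dd κ α) (exc κ α) _ (sf (α l)) l
    ?_ ?_ ?_ q a b List.suffix_rfl hl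
  · intro i j h
    exact BV_pair hPRJ hC hp h
  · intro i j k h
    have h1 : [i, j, k].Nodup := hn.sublist h.sublist
    refine BV_two hCH hC hp (hp j (h.subset (by simp))) ?_
    intro hik
    subst hik
    simp at h1
  · intro i _
    obtain ⟨h1, h2⟩ := BV_end hE hEl i
    rw [h1, h2]

theorem p_BV (hPRJ : Stmt_PRJ) (hCH : Stmt_CH) : Stmt_BV := by
  intro m κ α p f l hC hn hp hf hl
  have hE : ∀ i, BV_Us κ α p i → ¬ (i = l ∧ i + 1 = l) := by
    intro i _ h
    omega
  have hcov := BV_cover (E := fun i => i = l) hC hn hp hE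
  match p, hf with
  | [], hf => exact absurd hf (by simp)
  | [a], hf =>
    have haf : a = f := by simpa using hf
    have hal : a = l := by simpa using hl
    subst haf
    subst hal
    have h1 := (BV_end (E := fun i => i = a) hE rfl 0).2
    simp only [List.map_cons, List.map_nil, List.sum_cons, List.sum_nil, add_zero] at hcov
    simp only [psum]
    linarith
  | a :: b :: q, hf =>
    have haf : a = f := by simpa using hf
    subst haf
    have h1 := BV_sum (E := fun i => i = l) hPRJ hCH hC hn hp hE hl rfl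
    have h2 := BV_one (E := fun i => i = l) hCH hC hp (hp a (by simp)) b
    rw [List.map_cons, List.sum_cons] at hcov
    linarith

end

end Pool.BA
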