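import Pool.Agent.Work.MP_655153_ba.Interface5

/-!
# Block CA: the case `μ ≤ 50°`
-/

set_option autoImplicit false

open MeasureTheory Set

namespace Pool.BA

noncomputable section

theorem CA_dir {Q : List ℂ} {θ : ℝ} (h : ¬ Free Q θ) : ∃ x ∈ Q, 1 ≤ pr θ x := by
  unfold Free at h
  push Not at h
  exact h

theorem CA_re (z : ℂ) : pr 0 z = z.re := by
  unfold pr
  rw [Real.cos_zero, Real.sin_zero]
  ring

theorem CA_cot (x : ℝ) (h0 : 0 < x) (h1 : x ≤ Real.pi / 3) :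
    17 / 10 ≤ 1 / Real.tan (x / 2) := by
  have hpi := Real.pi_pos
  have h2 : 0 < Real.tan (x / 2) :=
    Real.tan_pos_of_pos_of_lt_pi_div_two (by linarith) (by linarith)
  have h3 : Real.tan (x / 2) ≤ Real.tan (Real.pi / 6) := by
    rcases eq_or_lt_of_le h1 with h | h
    · rw [h]
      have : Real.pi / 3 / 2 = Real.pi / 6 := by ring
      rw [this]
    · exact (Real.tan_lt_tan_of_nonneg_of_lt_pi_div_two (by linarith) (by linarith)
        (by linarith)).le
  rw [Real.tan_pi_div_six] at h3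
  have h4 : (17 / 10 : ℝ) ≤ √3 := by
    apply Real.le_sqrt_of_sq_le
    norm_num
  rw [le_div_iff₀ h2]
  have h5 : 0 < √(3 : ℝ) := by positivity
  have h6 : Real.tan (x / 2) * √3 ≤ 1 := by
    rwa [le_div_iff₀ h5] at h3
  nlinarith

theorem p_CA (hPDEV : Stmt_PDEV) (hQR : Stmt_QR) (hLVL : Stmt_LVL) (hLOWC : Stmt_LOWC)
    (hROT : Stmt_ROT) (hSPZ : Stmt_SPZ) (hTU : Stmt_TU) : Stmt_CA := by
  intro P Q μ a' b' ε F hμ
  obtain ⟨R1, R2, R3, R4, R5, R6, R7, R8⟩ := hROT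
  have hpi := Real.pi_pos
  have hm := F.mpos
  have hm2 := F.mle
  have hcov : ∀ θ ∈ Icc (-μ) μ, ¬ Free Q θ := by
    intro θ hθ h
    have h1 := F.covQ (θ + 2 * Real.pi) ⟨by linarith [hθ.1, F.hb], by linarith [hθ.2, F.ha]⟩
    exact h1 ((R6 Q θ).2 h)
  obtain ⟨δ, hδ1, hδ2, hP⟩ := hPDEV P μ hm hμ F.gapP
  obtain ⟨Q1, Q2, -, -⟩ := hQR Q μ hm hm2 hcov
  have hcμ : 0 < Real.cos μ := Real.cos_pos_of_mem_Ioo ⟨by linarith, by linarith⟩
  have hδl : -(μ) < δ := (abs_lt.1 hδ2).1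
  have hδr : δ < μ := (abs_lt.1 hδ2).2
  have hcδ : Real.cos μ ≤ Real.cos δ := by
    rw [← Real.cos_abs δ]
    exact Real.cos_le_cos_of_nonneg_of_le_pi (abs_nonneg _) (by linarith) hδ2.le
  have hcc : 1 ≤ Real.cos δ / Real.cos μ := by
    rw [le_div_iff₀ hcμ]
    linarith
  have hTU' : Tstar ≤ 4819 / 1000 := hTU
  by_cases hf : Free P (-δ)
  · obtain ⟨z, hz, hz1, hzm, h | h⟩ := hLVL P Q ε (-δ) F.pair hf
    · have h1 := hP z hz (pr (-δ) z) hz1.le (le_refl _)
      have h2 := Q1 hμ δ (pr (-δ) z + ε) hδ1 hδ2 h.2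
      linarith
    · have h2 := Q1 hμ δ (-1 + ε) hδ1 hδ2 h.2
      have hδ3 := abs_le.1 hδ1
      have h3 : 1 / Real.tan ((μ + δ) / 2) + 1 / Real.tan ((μ - δ) / 2) ≤ plen (rot δ P) := by
        refine hLOWC (rot δ P) (μ + δ) (μ - δ) (by linarith) (by linarith [hδ3.2]) (by linarith)
          (by linarith [hδ3.1]) ?_ ?_ ?_
        · intro x hx
          obtain ⟨y, hy, rfl⟩ := List.mem_map.1 hx
          rw [← CA_re, R1, zero_sub]
          exact (hzm y hy).trans_lt h.1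
        · obtain ⟨y, hy, hy1⟩ := CA_dir (F.gapP.1 μ ⟨le_refl _, by linarith⟩)
          refine ⟨y * u δ, List.mem_map.2 ⟨y, hy, rfl⟩, ?_⟩
          rw [R1, add_sub_cancel_right]
          exact hy1
        · obtain ⟨y, hy, hy1⟩ := CA_dir (F.gapP.1 (2 * Real.pi - μ) ⟨by linarith, le_refl _⟩)
          refine ⟨y * u δ, List.mem_map.2 ⟨y, hy, rfl⟩, ?_⟩
          rw [R1]
          have e : -(μ - δ) - δ = -μ := by ring
          rw [e]
          have e2 : pr (2 * Real.pi - μ) y = pr (-μ) y := by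
            unfold pr
            rw [Real.cos_two_pi_sub, Real.sin_two_pi_sub, Real.cos_neg, Real.sin_neg]
          rw [← e2]
          exact hy1
      rw [R2] at h3
      have h4 := CA_cot (μ + δ) (by linarith) (by linarith [hδ3.2])
      have h5 := CA_cot (μ - δ) (by linarith) (by linarith [hδ3.1])
      linarith
  · obtain ⟨z, hz, hz1⟩ := CA_dir hf
    have h1 := hP z hz 1 (le_refl _) hz1
    by_cases hf0 : Free P 0
    · obtain ⟨y, hy, hy1, -, h⟩ := hLVL P Q ε 0 F.pair hf0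
      have h2 : ∃ q ∈ Q, q.re ≤ 1 + ε := by
        rcases h with ⟨-, q, hq, hq1⟩ | ⟨-, q, hq, hq1⟩
        · exact ⟨q, hq, by rw [← CA_re]; linarith⟩
        · exact ⟨q, hq, by rw [← CA_re]; linarith⟩
      have h3 := Q2 (by linarith) (1 + ε) h2
      have h4 : Real.cos δ / Real.cos μ ≤ 1 / Real.cos μ := by
        apply div_le_div_of_nonneg_right (Real.cos_le_one δ) hcμ.le
      linarith
    · have h2 := hSPZ P Q μ a' b' ε F hf0
      linarith

end

end Pool.BA
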