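import Pool.Agent.Work.MP_655153_ba.Interface5

/-! CB (`50° ≤ μ ≤ 75°`) of the development for MP_655153 (helper22). -/

open MeasureTheory Set

namespace Pool.BA

theorem CB_pr0 (z : ℂ) : pr 0 z = z.re := by
  simp [pr]

theorem CB_cover {P : List ℂ} {θ : ℝ} (h : ¬ Free P θ) : ∃ x ∈ P, 1 ≤ pr θ x := by
  unfold Free at h
  push Not at h
  exact h

theorem p_CB (hPMID : Stmt_PMID) (hQR : Stmt_QR) (hNV : Stmt_NV) (hLVL : Stmt_LVL)
    (hLOWC : Stmt_LOWC) (hSPZ : Stmt_SPZ) (hROT : Stmt_ROT) : Stmt_CB := by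
  intro P Q μ a' b' ε F h1 h2
  have hpi := Real.pi_pos
  by_cases h0 : Free P 0
  swap
  · exact hSPZ P Q μ a' b' ε F h0
  have hper : ∀ (P : List ℂ) (θ : ℝ), Free P (θ + 2 * Real.pi) ↔ Free P θ :=
    hROT.2.2.2.2.2.1
  have hQ : ∀ θ ∈ Icc (-μ) μ, ¬ Free Q θ := by
    intro θ hθ hf
    rw [← hper Q θ] at hf
    refine F.covQ (θ + 2 * Real.pi) ⟨?_, ?_⟩ hf
    · linarith [F.hb, hθ.1]
    · linarith [F.ha, hθ.2]
  obtain ⟨-, q2, q3, -⟩ := hQR Q μ F.mpos F.mle hQ
  obtain ⟨z, hz, hz1, hz2, hz3⟩ := hLVL P Q ε 0 F.pair h0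
  simp only [CB_pr0] at hz1 hz2 hz3
  rcases hz3 with ⟨hc, hq⟩ | ⟨hc, hq⟩
  · have k1 := hPMID P μ z.re z h1 F.mle F.gapP hz le_rfl hz1.le
    rcases le_total μ (Real.pi / 3) with h3 | h3
    · have k2 := q2 h3 _ hq
      obtain ⟨n1, n2⟩ := hNV.1 μ h1 h3
      rcases min_choice (Real.pi + 1 - μ) (Real.pi + 2 - 2 * μ + bS μ) with e | e <;>
        rw [e] at k1 <;> linarith
    · have k2 := q3 h3 _ hq
      obtain ⟨n1, n2⟩ := hNV.2.1 μ h3 h2
      rcases min_choice (Real.pi + 1 - μ) (Real.pi + 2 - 2 * μ + bS μ) with e | e <;>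
        rw [e] at k1 <;> linarith
  · have c1 : ∀ x ∈ P, x.re < -1 := fun x hx => (hz2 x hx).trans_lt hc
    have c2 : ∃ x ∈ P, 1 ≤ pr μ x :=
      CB_cover (F.gapP.1 μ ⟨le_rfl, by linarith [F.mle]⟩)
    have c3 : ∃ x ∈ P, 1 ≤ pr (-μ) x := by
      apply CB_cover
      rw [← hper P (-μ)]
      refine F.gapP.1 _ ⟨by linarith [F.mle], by linarith⟩
    have k1 := hLOWC P μ μ F.mpos F.mle F.mpos F.mle c1 c2 c3
    have hμ0 := F.mpos
    have t0 : 0 < Real.tan (μ / 2) :=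
      Real.tan_pos_of_pos_of_lt_pi_div_two (by linarith) (by linarith [F.mle])
    rcases le_total μ (Real.pi / 3) with h3 | h3
    · have k2 := q2 h3 _ hq
      have t1 : Real.tan (μ / 2) ≤ 1 / √3 := by
        rw [← Real.tan_pi_div_six]
        rcases (show μ / 2 ≤ Real.pi / 6 by linarith).eq_or_lt with e | e
        · rw [e]
        · exact (Real.tan_lt_tan_of_lt_of_lt_pi_div_two (by linarith) (by linarith) e).le
      have t2 : √3 ≤ 1 / Real.tan (μ / 2) := by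
        rw [le_div_iff₀ t0]
        have h5 : (0 : ℝ) < √3 := by positivity
        calc √3 * Real.tan (μ / 2) ≤ √3 * (1 / √3) := mul_le_mul_of_nonneg_left t1 h5.le
          _ = 1 := by field_simp
      have t3 : (17 / 10 : ℝ) ≤ √3 := Real.le_sqrt_of_sq_le (by norm_num)
      have hcos : 0 < Real.cos μ := Real.cos_pos_of_mem_Ioo ⟨by linarith, by linarith⟩
      have t4 : 1 ≤ 1 / Real.cos μ := by
        rw [le_div_iff₀ hcos, one_mul]
        exact Real.cos_le_one _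
      linarith
    · have k2 := q3 h3 _ hq
      have t1 : Real.tan (μ / 2) ≤ 1 := by
        rw [← Real.tan_pi_div_four]
        rcases (show μ / 2 ≤ Real.pi / 4 by linarith [F.mle]).eq_or_lt with e | e
        · rw [e]
        · exact (Real.tan_lt_tan_of_lt_of_lt_pi_div_two (by linarith) (by linarith) e).le
      have t2 : 1 ≤ 1 / Real.tan (μ / 2) := by
        rw [le_div_iff₀ t0, one_mul]
        exact t1
      linarith

end Pool.BA
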