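import Pool.Agent.Work.MP_655153_ba.Interface5

/-! # Block CC (the two-arc beam detection constant, `75° ≤ μ ≤ 90°`) -/

open MeasureTheory Set
open scoped ENNReal

namespace Pool.BA

noncomputable section

open Pool.Agent.Work.MP_655153_co

theorem CC_pr0 (z : ℂ) : pr 0 z = z.re := by
  simp [pr]

theorem CC_prpi (z : ℂ) : pr Real.pi z = -z.re := by
  simp [pr]

theorem CC_pr2pi (θ : ℝ) (z : ℂ) : pr (2 * Real.pi - θ) z = pr (-θ) z := by
  unfold pr
  rw [Real.cos_two_pi_sub, Real.sin_two_pi_sub, Real.cos_neg, Real.sin_neg]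

theorem CC_notfree {P : List ℂ} {θ : ℝ} (h : ¬ Free P θ) : ∃ p ∈ P, 1 ≤ pr θ p := by
  unfold Free at h
  push Not at h
  exact h

theorem p_CC (hPMID : Stmt_PMID) (hQIV : Stmt_QIV) (hNV : Stmt_NV) (hQR : Stmt_QR)
    (hLVL : Stmt_LVL) (hLOWC : Stmt_LOWC) (hROT : Stmt_ROT) (hSPZ : Stmt_SPZ) : Stmt_CC := by
  intro P Q μ a' b' ε hF hμ
  by_cases h0 : Free P 0
  swap
  · exact hSPZ P Q μ a' b' ε hF h0
  obtain ⟨hr1, hr2, hr3, hr4, hr5, hr6, hr7, hr8⟩ := hROT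
  have hpi := Real.pi_gt_d2
  have hpi0 := Real.pi_pos
  have hmpos := hF.mpos
  have hmle := hF.mle
  have hepos := hF.epos
  have ha := hF.ha
  have hb := hF.hb
  have hlen := hF.len
  have hQcov : ∀ θ ∈ Icc (-μ) μ, ¬ Free Q θ := by
    intro θ hθ hf
    refine hF.covQ (θ + 2 * Real.pi) ⟨?_, ?_⟩ ((hr6 Q θ).2 hf)
    · linarith [hθ.1]
    · linarith [hθ.2]
  obtain ⟨z, hzP, hz1, hzmax, hz⟩ := hLVL P Q ε 0 hF.pair h0
  rw [CC_pr0] at hz1
  rcases hz with ⟨hc, q, hqQ, hq⟩ | ⟨hc, q, hqQ, hq⟩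
  · rw [CC_pr0] at hc hq
    rw [CC_pr0] at hq
    have h1 := hPMID P μ z.re z (by linarith) hmle hF.gapP hzP le_rfl hz1.le
    have h2 : Real.pi + 1 - μ ≤ min (Real.pi + 1 - μ) (Real.pi + 2 - 2 * μ + bS μ) := by
      refine le_min le_rfl ?_
      have := hNV.2.2 μ hμ hmle
      linarith
    have hgap : GapAt (rot (-Real.pi) Q) (b' - Real.pi) (Real.pi - a') := by
      refine ⟨?_, ?_, ?_⟩
      · intro θ hθ hf
        rw [hr3, sub_neg_eq_add] at hf
        exact hF.covQ (θ + Real.pi) ⟨by linarith [hθ.1], by linarith [hθ.2]⟩ hf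
      · intro η hη
        obtain ⟨θ, hθ, hf⟩ := hF.accA η hη
        refine ⟨θ - Real.pi, ⟨by linarith [hθ.1], by linarith [hθ.2]⟩, ?_⟩
        rw [hr3, sub_neg_eq_add, sub_add_cancel]
        exact hf
      · intro η hη
        obtain ⟨θ, hθ, hf⟩ := hF.accB η hη
        refine ⟨θ - Real.pi, ⟨by linarith [hθ.1], by linarith [hθ.2]⟩, ?_⟩
        rw [hr3, sub_neg_eq_add, sub_add_cancel]
        exact hf
    have hre : (q * u (-Real.pi)).re = -q.re := by
      rw [← CC_pr0, hr1, zero_sub, neg_neg, CC_prpi]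
    have h3 := hQIV (rot (-Real.pi) Q) μ (b' - Real.pi) (Real.pi - a') (-z.re - ε)
      (q * u (-Real.pi)) hμ hmle (by linarith) (by linarith) (by linarith) hgap
      (List.mem_map.2 ⟨q, hqQ, rfl⟩) (by rw [hre]; linarith) (by linarith)
    rw [hr2] at h3
    linarith
  · rw [CC_pr0] at hc hq
    have hlow : ∀ x ∈ P, x.re < -1 := by
      intro x hx
      have := hzmax x hx
      rw [CC_pr0, CC_pr0] at this
      linarith
    have hx : ∃ x ∈ P, 1 ≤ pr μ x :=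
      CC_notfree (hF.gapP.1 μ ⟨le_rfl, by linarith⟩)
    have hy : ∃ y ∈ P, 1 ≤ pr (-μ) y := by
      obtain ⟨y, hyP, hy⟩ := CC_notfree (hF.gapP.1 (2 * Real.pi - μ) ⟨by linarith, le_rfl⟩)
      refine ⟨y, hyP, ?_⟩
      rw [CC_pr2pi] at hy
      exact hy
    have h1 := hLOWC P μ μ hmpos hmle hmpos hmle hlow hx hy
    have ht0 : 0 < Real.tan (μ / 2) :=
      Real.tan_pos_of_pos_of_lt_pi_div_two (by linarith) (by linarith)
    have ht1 : Real.tan (μ / 2) ≤ 1 := by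
      rw [← Real.tan_pi_div_four]
      rcases eq_or_lt_of_le (show μ / 2 ≤ Real.pi / 4 by linarith) with h | h
      · rw [h]
      · exact (Real.tan_lt_tan_of_nonneg_of_lt_pi_div_two (by linarith) (by linarith) h).le
    have h2 : 1 ≤ 1 / Real.tan (μ / 2) := by
      rw [le_div_iff₀ ht0]
      linarith
    have h3 := (hQR Q μ hmpos hmle hQcov).2.2.1 (by linarith) (-1 + ε) ⟨q, hqQ, hq⟩
    linarith

end

end Pool.BA
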