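import Pool.Agent.Work.MP_655153_ba.Interface5

/-! # Block CG: hulls in general position -/

open MeasureTheory Set
open scoped ENNReal

namespace Pool.BA

noncomputable section

theorem p_CG (hCA : Stmt_CA) (hCB : Stmt_CB) (hCC : Stmt_CC) (hROT : Stmt_ROT)
    (hTU : Stmt_TU) : Stmt_CG := by
  intro P Q a b c d ε hε0 hε1 hPair hab hbc hcd hda hlen hHP hHQ
  obtain ⟨-, hpl, hfr, hpair, -⟩ := hROT
  have hpi := Real.pi_pos
  have key : ∀ (R : List ℂ) (θ : ℝ), Free (rot (-((a + b) / 2)) R) θ ↔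
      Free R (θ + (a + b) / 2) := by
    intro R θ
    rw [hfr, sub_neg_eq_add]
  obtain ⟨hP1, hP2, hP3⟩ := hHP
  obtain ⟨hQ1, hQ2, hQ3⟩ := hHQ
  have hF : Frame (rot (-((a + b) / 2)) P) (rot (-((a + b) / 2)) Q) ((b - a) / 2)
      (c - (a + b) / 2) (d - (a + b) / 2) ε := by
    refine ⟨by linarith, by linarith, hε0, hε1, hpair _ P Q ε hPair, ⟨?_, ?_, ?_⟩,
      by linarith, by linarith, by linarith, ?_, ?_, ?_⟩
    · intro θ hθ
      rw [key]
      exact hP1 _ ⟨by linarith [hθ.1], by linarith [hθ.2]⟩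
    · intro η hη
      obtain ⟨θ, hθ, h⟩ := hP2 η hη
      refine ⟨θ - (a + b) / 2, ⟨by linarith [hθ.1], by linarith [hθ.2]⟩, ?_⟩
      rw [key, sub_add_cancel]
      exact h
    · intro η hη
      obtain ⟨θ, hθ, h⟩ := hP3 η hη
      refine ⟨θ - (a + b) / 2, ⟨by linarith [hθ.1], by linarith [hθ.2]⟩, ?_⟩
      rw [key, sub_add_cancel]
      exact h
    · intro θ hθ
      rw [key]
      exact hQ1 _ ⟨by linarith [hθ.1], by linarith [hθ.2]⟩
    · intro η hη
      obtain ⟨θ, hθ, h⟩ := hQ2 η hη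
      refine ⟨θ - (a + b) / 2, ⟨by linarith [hθ.1], by linarith [hθ.2]⟩, ?_⟩
      rw [key, sub_add_cancel]
      exact h
    · intro η hη
      obtain ⟨θ, hθ, h⟩ := hQ3 η hη
      refine ⟨θ - (a + b) / 2, ⟨by linarith [hθ.1], by linarith [hθ.2]⟩, ?_⟩
      rw [key, sub_add_cancel]
      exact h
  have hTU' : Tstar ≤ 4819 / 1000 := hTU
  rw [← hpl (-((a + b) / 2)) P, ← hpl (-((a + b) / 2)) Q]
  rcases le_total ((b - a) / 2) (5 * Real.pi / 18) with h1 | h1
  · exact hCA _ _ _ _ _ _ hF h1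
  · rcases le_total ((b - a) / 2) (5 * Real.pi / 12) with h2 | h2
    · have := hCB _ _ _ _ _ _ hF h1 h2
      linarith
    · have := hCC _ _ _ _ _ _ hF h2
      linarith

end

end Pool.BA
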