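import Pool.Agent.Work.MP_655153_ba.Interface1

/-! # Block CH (helper72) -/

namespace Pool.BA

theorem CH_tan (x : ℝ) (h0 : 0 ≤ x) (h1 : x < Real.pi / 2) :
    x * Real.cos x ≤ Real.sin x := by
  have hc : 0 < Real.cos x := Real.cos_pos_of_mem_Ioo ⟨by linarith [Real.pi_pos], h1⟩
  have h2 := Real.le_tan h0 h1
  rw [Real.tan_eq_sin_div_cos, le_div_iff₀ hc] at h2
  exact h2

theorem CH_claim (α x : ℝ) (h0 : 0 ≤ x) (h1 : x ≤ α) (h2 : α < Real.pi / 2) :
    x * Real.cos α ≤ Real.sin x * Real.cos (α - x) := by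
  have hpi := Real.pi_pos
  have hcx : 0 < Real.cos x := Real.cos_pos_of_mem_Ioo ⟨by linarith, by linarith⟩
  have hca : 0 < Real.cos α := Real.cos_pos_of_mem_Ioo ⟨by linarith, h2⟩
  have hs : 0 ≤ Real.sin (α - x) :=
    Real.sin_nonneg_of_nonneg_of_le_pi (by linarith) (by linarith)
  have h3 := CH_tan x h0 (by linarith)
  rw [Real.sin_sub] at hs
  rw [Real.cos_sub]
  refine le_of_mul_le_mul_right ?_ hcx
  have h4 := Real.sin_sq_add_cos_sq x
  have h5 : x * Real.cos α * Real.cos x ≤ Real.cos α * Real.sin x := by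
    have := mul_le_mul_of_nonneg_left h3 hca.le
    linarith
  have h6 : Real.cos α * Real.sin x * Real.sin x ^ 2 ≤
      Real.sin α * Real.cos x * Real.sin x ^ 2 :=
    mul_le_mul_of_nonneg_right (by linarith) (sq_nonneg _)
  have h7 : Real.sin x * (Real.cos α * Real.cos x + Real.sin α * Real.sin x) * Real.cos x =
      Real.cos α * Real.sin x * Real.cos x ^ 2 + Real.sin α * Real.cos x * Real.sin x ^ 2 := by
    ring
  have h8 : Real.cos α * Real.sin x = Real.cos α * Real.sin x * Real.cos x ^ 2 +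
      Real.cos α * Real.sin x * Real.sin x ^ 2 := by
    rw [← mul_add, add_comm (Real.cos x ^ 2), h4, mul_one]
  rw [h7]
  linarith

theorem p_CH : Stmt_CH := by
  intro α ρ ρ' h1 h2 h3 h4
  have hpi := Real.pi_pos
  have a2 := abs_le.1 h2
  have a3 := abs_le.1 h3
  have hca : 0 < Real.cos α := Real.cos_pos_of_mem_Ioo ⟨by linarith [abs_nonneg ρ], h1⟩
  rw [le_div_iff₀ hca]
  obtain ⟨x, hx⟩ : ∃ x, x = (ρ + ρ') / 2 := ⟨_, rfl⟩
  obtain ⟨y, hy⟩ : ∃ y, y = (ρ - ρ') / 2 := ⟨_, rfl⟩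
  have e1 : ρ = x + y := by linarith
  have e2 : ρ' = x - y := by linarith
  have hx0 : 0 ≤ x := by linarith
  have hxa : x ≤ α := by linarith
  have hya : |y| ≤ α - x := by
    rw [abs_le]
    constructor <;> linarith
  have hsx : 0 ≤ Real.sin x := Real.sin_nonneg_of_nonneg_of_le_pi hx0 (by linarith)
  have hcy : Real.cos (α - x) ≤ Real.cos y := by
    rw [← Real.cos_abs y]
    exact Real.cos_le_cos_of_nonneg_of_le_pi (abs_nonneg y) (by linarith) hya
  have h5 := CH_claim α x hx0 hxa h1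
  have h6 := mul_le_mul_of_nonneg_left hcy hsx
  have h7 : Real.sin ρ + Real.sin ρ' = 2 * (Real.sin x * Real.cos y) := by
    rw [e1, e2, Real.sin_add, Real.sin_sub]
    ring
  rw [h7]
  have h8 : ρ + ρ' = 2 * x := by linarith
  rw [h8]
  linarith

end Pool.BA
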