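import Pool.Agent.Work.MP_655153_ba.Interface3

/-! # Block CLS: the line through two vertices with disjoint caps -/

open MeasureTheory Set

namespace Pool.BA

noncomputable section

private theorem CLS_cos_lt {a y : ℝ} (h0 : 0 ≤ a) (h1 : a < y) (h2 : y < 2 * Real.pi - a) :
    Real.cos y < Real.cos a := by
  by_cases h : y ≤ Real.pi
  · exact Real.cos_lt_cos_of_nonneg_of_le_pi h0 h h1
  · push Not at h
    have e : Real.cos y = Real.cos (2 * Real.pi - y) := by
      rw [Real.cos_two_pi_sub]
    rw [e]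
    exact Real.cos_lt_cos_of_nonneg_of_le_pi h0 (by linarith) (by linarith)

private theorem CLS_pr (κ α θ : ℝ) : pr θ (V κ α) = Real.cos (κ - θ) / Real.cos α := by
  rw [Real.cos_sub]
  simp only [pr, V]
  ring

private theorem CLS_rot (θ ψ : ℝ) (z : ℂ) :
    pr θ z = pr ψ z * Real.cos (θ - ψ) + pr (ψ + Real.pi / 2) z * Real.sin (θ - ψ) := by
  have hc : Real.cos θ = Real.cos ψ * Real.cos (θ - ψ) - Real.sin ψ * Real.sin (θ - ψ) := by
    rw [← Real.cos_add]
    congr 1
    ring
  have hs : Real.sin θ = Real.sin ψ * Real.cos (θ - ψ) + Real.cos ψ * Real.sin (θ - ψ) := by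
    rw [← Real.sin_add]
    congr 1
    ring
  simp only [pr, Real.cos_add_pi_div_two, Real.sin_add_pi_div_two]
  rw [hc, hs]
  ring

private theorem CLS_sin_pos {x : ℝ} (h1 : -Real.pi ≤ x) (h : 0 < Real.sin x) :
    (0 < x ∧ x < Real.pi) ∨ 2 * Real.pi < x := by
  by_contra hcon
  push Not at hcon
  obtain ⟨h3, h4⟩ := hcon
  by_cases h5 : 0 < x
  · have h6 := h3 h5
    have h7 : 0 ≤ Real.sin (x - Real.pi) :=
      Real.sin_nonneg_of_nonneg_of_le_pi (by linarith) (by linarith)
    rw [Real.sin_sub_pi] at h7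
    linarith
  · push Not at h5
    have := Real.sin_nonpos_of_nonpos_of_neg_pi_le h5 h1
    linarith

private theorem CLS_sin_neg {x : ℝ} (h2 : x ≤ 3 * Real.pi) (h : Real.sin x < 0) :
    x < 0 ∨ (Real.pi < x ∧ x < 2 * Real.pi) := by
  by_contra hcon
  push Not at hcon
  obtain ⟨h3, h4⟩ := hcon
  by_cases h5 : x ≤ Real.pi
  · have := Real.sin_nonneg_of_nonneg_of_le_pi h3 h5
    linarith
  · push Not at h5
    have h6 := h4 h5
    have h7 : 0 ≤ Real.sin (x - 2 * Real.pi) :=
      Real.sin_nonneg_of_nonneg_of_le_pi (by linarith) (by linarith)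
    rw [Real.sin_sub_two_pi] at h7
    linarith

theorem p_CLS : Stmt_CLS := by
  intro κ κ' α α' ψ hα0 hα1 hα'0 hα'1 hκ hsep hκ' hwin hψ heq
  have hpi := Real.pi_pos
  obtain ⟨hψ1, hψ2⟩ := abs_le.1 hψ
  have hca : 0 < Real.cos α := Real.cos_pos_of_mem_Ioo ⟨by linarith, by linarith⟩
  have hca' : 0 < Real.cos α' := Real.cos_pos_of_mem_Ioo ⟨by linarith, by linarith⟩
  set A : ℝ := pr (ψ + Real.pi / 2) (V κ α) - pr (ψ + Real.pi / 2) (V κ' α') with hA
  have hf : ∀ θ : ℝ, Real.cos (κ - θ) / Real.cos α - Real.cos (κ' - θ) / Real.cos α' =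
      A * Real.sin (θ - ψ) := by
    intro θ
    rw [← CLS_pr, ← CLS_pr, CLS_rot θ ψ (V κ α), CLS_rot θ ψ (V κ' α'), heq, hA]
    ring
  have E1 : 0 < A * Real.sin (κ - α - ψ) := by
    rw [← hf, show κ - (κ - α) = α by ring, div_self hca.ne']
    have h1 : Real.cos (κ' - (κ - α)) < Real.cos α' :=
      CLS_cos_lt hα'0 (by linarith) (by linarith)
    have := (div_lt_one hca').2 h1
    linarith
  have E2 : 0 < A * Real.sin (κ + α - ψ) := by
    rw [← hf, show κ - (κ + α) = -α by ring, Real.cos_neg, div_self hca.ne']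
    have h1 : Real.cos (κ' - (κ + α)) < Real.cos α' :=
      CLS_cos_lt hα'0 (by linarith) (by linarith)
    have := (div_lt_one hca').2 h1
    linarith
  have E3 : A * Real.sin (κ' - α' - ψ) < 0 := by
    rw [← hf, show κ' - (κ' - α') = α' by ring, div_self hca'.ne']
    have h1 : Real.cos (κ - (κ' - α')) < Real.cos α := by
      rw [← Real.cos_neg]
      exact CLS_cos_lt hα0 (by linarith) (by linarith)
    have := (div_lt_one hca).2 h1
    linarith
  have E4 : A * Real.sin (κ' + α' - ψ) < 0 := by
    rw [← hf, show κ' - (κ' + α') = -α' by ring, Real.cos_neg, div_self hca'.ne']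
    have h1 : Real.cos (κ - (κ' + α')) < Real.cos α := by
      rw [← Real.cos_neg]
      exact CLS_cos_lt hα0 (by linarith) (by linarith)
    have := (div_lt_one hca).2 h1
    linarith
  rcases lt_trichotomy A 0 with h | h | h
  · right
    have s1 : Real.sin (κ - α - ψ) < 0 := by
      by_contra hc
      push Not at hc
      linarith [mul_nonpos_of_nonpos_of_nonneg h.le hc]
    have s2 : Real.sin (κ + α - ψ) < 0 := by
      by_contra hc
      push Not at hc
      linarith [mul_nonpos_of_nonpos_of_nonneg h.le hc]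
    have s3 : 0 < Real.sin (κ' - α' - ψ) := by
      by_contra hc
      push Not at hc
      linarith [mul_nonneg_of_nonpos_of_nonpos h.le hc]
    refine ⟨by linarith, ?_⟩
    rcases CLS_sin_neg (by linarith) s2 with t2 | ⟨t2, t2'⟩
    · left
      linarith
    · right
      rcases CLS_sin_pos (by linarith) s3 with ⟨_, t3⟩ | t3
      · exfalso
        linarith
      · linarith
  · rw [h, zero_mul] at E1
    exact absurd E1 (lt_irrefl 0)
  · left
    have s1 : 0 < Real.sin (κ - α - ψ) := by
      by_contra hc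
      push Not at hc
      linarith [mul_nonpos_of_nonneg_of_nonpos h.le hc]
    have s2 : 0 < Real.sin (κ + α - ψ) := by
      by_contra hc
      push Not at hc
      linarith [mul_nonpos_of_nonneg_of_nonpos h.le hc]
    have s3 : Real.sin (κ' - α' - ψ) < 0 := by
      by_contra hc
      push Not at hc
      linarith [mul_nonneg h.le hc]
    have s4 : Real.sin (κ' + α' - ψ) < 0 := by
      by_contra hc
      push Not at hc
      linarith [mul_nonneg h.le hc]
    refine ⟨by linarith, ?_⟩
    rcases CLS_sin_neg (by linarith) s3 with t3 | ⟨t3, t3'⟩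
    · exfalso
      rcases CLS_sin_pos (by linarith) s1 with ⟨t1, _⟩ | t1 <;> linarith
    · rcases CLS_sin_neg (by linarith) s4 with t4 | ⟨t4, t4'⟩
      · exfalso
        linarith
      · rcases CLS_sin_pos (by linarith) s1 with ⟨t1, t1'⟩ | t1
        · rcases CLS_sin_pos (by linarith) s2 with ⟨t2, t2'⟩ | t2
          · exact ⟨by linarith, by linarith, by linarith, by linarith⟩
          · exfalso
            linarith
        · exfalso
          linarith

end

end Pool.BA
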