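import Pool.Agent.Work.MP_655153_ba.CPCore

open MeasureTheory Set
open scoped ENNReal

namespace Pool.BA

noncomputable section

/-- head and last element adjacent in a list without repetition: the list has length two -/
theorem CP_two {f l : ℕ} : ∀ (y : ℕ) (q : List ℕ), (f :: y :: q).Nodup →
    (y :: q).getLast? = some l → (CP_adj f l (f :: y :: q)) → q = [] := by
  intro y q hnd hla hadj
  have h : (f = f ∧ y = l) ∨ (f = l ∧ y = f) ∨ CP_adj f l (y :: q) := hadj
  have hf : f ∉ y :: q := (List.nodup_cons.mp hnd).1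
  rcases h with ⟨_, h⟩ | ⟨_, h⟩ | h
  · cases q with
    | nil => rfl
    | cons z q =>
      exfalso
      rw [List.getLast?_cons_cons] at hla
      have h1 : l ∈ z :: q := List.mem_of_getLast? hla
      have h2 := (List.nodup_cons.mp (List.nodup_cons.mp hnd).2).1
      rw [h] at h2
      exact h2 h1
  · exfalso
    apply hf
    rw [h]
    simp
  · exfalso
    exact hf (CP_adj_mem _ _ _ h).1

theorem p_CP (hPRJ : Stmt_PRJ) (hCH : Stmt_CH) : Stmt_CP := by
  intro m κ α p f l hC hnd hm hf hl h2 hov
  obtain ⟨y, q, rfl⟩ : ∃ y q, p = f :: y :: q := by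
    match p, hf, h2 with
    | x :: y :: q, hf, _ =>
      simp at hf
      exact ⟨y, q, by rw [hf]⟩
  have hla : (y :: q).getLast? = some l := by
    rw [List.getLast?_cons_cons] at hl
    exact hl
  have hlmem : l ∈ y :: q := List.mem_of_getLast? hla
  have hfl : f ≠ l := by
    intro h
    subst h
    exact (List.nodup_cons.mp hnd).1 hlmem
  have hE : CP_HE κ α (fun i => i = f ∨ i = l) (f :: y :: q) := by
    intro i hadj ho h1 h2'
    have key : CP_adj f l (f :: y :: q) ∧ ov κ α f l := by
      rcases h1 with h1 | h1 <;> rcases h2' with h2' | h2'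
      · omega
      · subst h1; subst h2'; exact ⟨hadj, ho⟩
      · subst h1; subst h2'; exact ⟨CP_adj_symm _ _ _ hadj, CP_ov_symm ho⟩
      · omega
    have hq := CP_two y q hnd hla key.1
    subst hq
    exact hov (by simp) key.2
  have h3 := CP_sum hPRJ hCH hC hm hE (l := l) (Or.inr rfl) q f y hnd hla (fun i j h => h)
  have h4 := CP_U_le hC hm hE
  obtain ⟨h5, h6, h7⟩ := CP_end hE (i := f) (Or.inl rfl)
  have e1 : CP_W κ α (fun i => i = f ∨ i = l) (f :: y :: q) (f :: y :: q) =
      (Rt κ α f - Lf κ α f) + CP_W κ α (fun i => i = f ∨ i = l) (f :: y :: q) (y :: q) := by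
    simp only [CP_W, List.map_cons, List.sum_cons, h5, h6]
  rw [h7 y] at h3
  rw [e1] at h4
  have e2 : Rt κ α f - Lf κ α f = 2 * α f := by unfold Rt Lf; ring
  have e3 : sf (α f) = 2 * α f - Real.tan (α f) := rfl
  rw [e2] at h4
  rw [e3]
  linarith

end

end Pool.BA
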