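import Pool.Agent.Work.MP_655153_ba.Interface1

namespace Pool.BA

theorem D1_aux {x α : ℝ} (h0 : 0 ≤ x) (h1 : x ≤ α) (h2 : α < Real.pi / 2) :
    x ≤ Real.sin x / Real.cos α := by
  have hpi := Real.pi_pos
  have hc : 0 < Real.cos α := Real.cos_pos_of_mem_Ioo ⟨by linarith, h2⟩
  have hcx : 0 < Real.cos x := Real.cos_pos_of_mem_Ioo ⟨by linarith, by linarith⟩
  have hle : Real.cos α ≤ Real.cos x := Real.cos_le_cos_of_nonneg_of_le_pi h0 (by linarith) h1
  have ht : x ≤ Real.tan x := Real.le_tan h0 (by linarith)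
  rw [Real.tan_eq_sin_div_cos, le_div_iff₀ hcx] at ht
  rw [le_div_iff₀ hc]
  nlinarith

theorem p_D1 (hPRJ : Stmt_PRJ) : Stmt_D1 := by
  intro κ κ' α α' h0 h1 h0' h1' hk ho
  have hpi := Real.pi_pos
  have hc : 0 < Real.cos α := Real.cos_pos_of_mem_Ioo ⟨by linarith, h1⟩
  have hc' : 0 < Real.cos α' := Real.cos_pos_of_mem_Ioo ⟨by linarith, h1'⟩
  rcases le_or_gt (κ' - α') κ with h | h
  · have := hPRJ κ κ' α α' κ hc hc'
    have e := D1_aux (x := κ' - κ) (α := α') (by linarith) (by linarith) h1'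
    simp only [sub_self, Real.sin_zero, zero_div, zero_add] at this
    linarith
  · have := hPRJ κ κ' α α' (κ' - α') hc hc'
    have e1 := D1_aux (x := κ' - α' - κ) (α := α) (by linarith) (by linarith) h1
    have e2 := D1_aux (x := κ' - (κ' - α')) (α := α') (by linarith) (by linarith) h1'
    linarith

end Pool.BA
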