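import Pool.Agent.Work.MP_655153_ba.Interface4

/-! # Two-arc beam detectors, block EXF: extraction of a full chain (helper78) -/

open MeasureTheory Set

namespace Pool.BA

noncomputable section

theorem EXF_cont (x : ℂ) : Continuous fun θ => pr θ x := by
  unfold pr
  fun_prop

theorem EXF_per (x : ℂ) (θ : ℝ) : pr (θ + 2 * Real.pi) x = pr θ x := by
  unfold pr
  rw [Real.cos_add_two_pi, Real.sin_add_two_pi]

/-- if there are free directions arbitrarily close to `c` then the level in direction `c` is at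
most one -/
theorem EXF_le (P : List ℂ) (c : ℝ) (h : ∀ ε > 0, ∃ θ, |θ - c| < ε ∧ Free P θ) (x : ℂ)
    (hx : x ∈ P) : pr c x ≤ 1 := by
  by_contra hlt
  push Not at hlt
  have hopen : IsOpen {θ : ℝ | 1 < pr θ x} := isOpen_lt continuous_const (EXF_cont x)
  obtain ⟨ε, hε, hball⟩ := Metric.isOpen_iff.1 hopen c hlt
  obtain ⟨θ, hθ, hf⟩ := h ε hε
  have h1 : θ ∈ Metric.ball c ε := by
    rw [Metric.mem_ball, Real.dist_eq]
    exact hθ
  have h2 : 1 < pr θ x := hball h1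
  have h3 := hf x hx
  linarith

theorem p_EXF (hEXG : Stmt_EXG) (hLIFT : Stmt_LIFT) : Stmt_EXF := by
  classical
  intro P a b hab hba hcov hfa hfb
  have hpi := Real.pi_pos
  obtain ⟨θ0, hθ0, hfree0⟩ := hfa (b - a) (by linarith)
  have t1 : a < θ0 := hθ0.1
  have t2 : θ0 < b := by linarith [hθ0.2]
  have hnf : ∀ (Q : List ℂ) (θ : ℝ), ¬ Free Q θ ↔ ∃ q ∈ Q, 1 ≤ pr θ q := by
    intro Q θ
    unfold Free
    push Not
    rfl
  set P' : List ℂ := P.filter (fun x => decide (∃ θ ∈ Icc b (a + 2 * Real.pi), 1 ≤ pr θ x))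
    with hP'
  have hmem : ∀ x, x ∈ P' ↔ x ∈ P ∧ ∃ θ ∈ Icc b (a + 2 * Real.pi), 1 ≤ pr θ x := by
    intro x
    rw [hP', List.mem_filter, decide_eq_true_eq]
  have hcov' : ∀ θ ∈ Icc b (a + 2 * Real.pi), ¬ Free P' θ := by
    intro θ hθ
    obtain ⟨x, hx, h1⟩ := (hnf P θ).1 (hcov θ hθ)
    exact (hnf P' θ).2 ⟨x, (hmem x).2 ⟨hx, θ, hθ, h1⟩, h1⟩
  have hfree0' : Free P' θ0 := fun x hx => hfree0 x ((hmem x).1 hx).1
  obtain ⟨m, κ, α, hm, hch, hL0, hRm, hV, hcv⟩ := hEXG P' θ0 hfree0'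
    ⟨b, hcov' b ⟨le_refl _, hba.le⟩⟩
  -- the covered directions of the reduced list
  have key : ∀ θ ∈ Icc θ0 (θ0 + 2 * Real.pi), ¬ Free P' θ → b ≤ θ ∧ θ ≤ a + 2 * Real.pi := by
    intro θ hθ hn
    obtain ⟨x, hx, h1⟩ := (hnf P' θ).1 hn
    obtain ⟨hxP, θ1, hθ1, h2⟩ := (hmem x).1 hx
    obtain ⟨l1, l2⟩ := hLIFT x θ0 (hfree0 x hxP)
    obtain ⟨k, β, _, _, _, _, _, hcap⟩ := l1 (l2 θ h1)
    have c1 := (hcap θ hθ).1 h1
    have c2 := (hcap θ1 ⟨by linarith [hθ1.1], by linarith [hθ1.2]⟩).1 h2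
    constructor
    · by_contra hlt
      push Not at hlt
      obtain ⟨θ2, hθ2, hf⟩ := hfb (b - θ) (by linarith)
      have e1 : θ < θ2 := by linarith [hθ2.1]
      have e2 : θ2 < b := hθ2.2
      have h3 := (hcap θ2 ⟨by linarith [hθ.1], by linarith⟩).2
        ⟨by linarith [c1.1], by linarith [c2.2, hθ1.1]⟩
      have h4 := hf x hxP
      linarith
    · by_contra hlt
      push Not at hlt
      obtain ⟨θ2, hθ2, hf⟩ := hfa (θ - (a + 2 * Real.pi)) (by linarith)
      have e1 : θ2 + 2 * Real.pi < θ := by linarith [hθ2.2]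
      have e2 : a < θ2 := hθ2.1
      have h3 := (hcap (θ2 + 2 * Real.pi) ⟨by linarith, by linarith [hθ.2]⟩).2
        ⟨by linarith [c2.1, hθ1.2], by linarith [c1.2]⟩
      rw [EXF_per] at h3
      have h4 := hf x hxP
      linarith
  have hLm : ∀ i j, i ≤ j → j < m → Lf κ α i ≤ Lf κ α j := by
    intro i j hij
    induction j, hij using Nat.le_induction with
    | base => exact fun _ => le_refl _
    | succ j _ ih => exact fun hj => (ih (by omega)).trans (hch.l j hj).le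
  have hRmo : ∀ i j, i ≤ j → j < m → Rt κ α i ≤ Rt κ α j := by
    intro i j hij
    induction j, hij using Nat.le_induction with
    | base => exact fun _ => le_refl _
    | succ j _ ih => exact fun hj => (ih (by omega)).trans (hch.r j hj).le
  have hLR : ∀ i < m, Lf κ α i ≤ Rt κ α i := by
    intro i hi
    have := hch.α0 i hi
    unfold Lf Rt
    linarith
  have hleft : Lf κ α 0 = b := by
    apply le_antisymm
    · obtain ⟨i, hi, h1, _⟩ := (hcv b ⟨t2.le, by linarith⟩).1 (hcov' b ⟨le_refl _, hba.le⟩)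
      exact (hLm 0 i (by omega) hi).trans h1
    · have hle : Lf κ α 0 ≤ θ0 + 2 * Real.pi :=
        ((hLR 0 hm).trans (hRmo 0 (m - 1) (by omega) (by omega))).trans hRm.le
      have h0 : Lf κ α 0 ∈ Icc θ0 (θ0 + 2 * Real.pi) := ⟨hL0.le, hle⟩
      exact (key _ h0 ((hcv _ h0).2 ⟨0, hm, le_refl _, hLR 0 hm⟩)).1
  have hright : Rt κ α (m - 1) = a + 2 * Real.pi := by
    apply le_antisymm
    · have hge : θ0 ≤ Rt κ α (m - 1) :=
        hL0.le.trans ((hLR 0 hm).trans (hRmo 0 (m - 1) (by omega) (by omega)))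
      have h0 : Rt κ α (m - 1) ∈ Icc θ0 (θ0 + 2 * Real.pi) := ⟨hge, hRm.le⟩
      exact (key _ h0 ((hcv _ h0).2 ⟨m - 1, by omega, hLR _ (by omega), le_refl _⟩)).2
    · obtain ⟨i, hi, _, h1⟩ := (hcv (a + 2 * Real.pi) ⟨by linarith, by linarith⟩).1
        (hcov' _ ⟨hba.le, le_refl _⟩)
      exact h1.trans (hRmo i (m - 1) (by omega) (by omega))
  refine ⟨m, κ, α, ⟨hch, hm, hleft, hright, ?_⟩, ?_, ?_⟩
  · intro i hi
    by_contra hlt
    push Not at hlt
    have hθ1 : b ≤ (Rt κ α i + Lf κ α (i + 1)) / 2 := by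
      have h1 := hLm 0 i (by omega) (by omega)
      have h2 := hLR i (by omega)
      rw [hleft] at h1
      linarith
    have hθ2 : (Rt κ α i + Lf κ α (i + 1)) / 2 ≤ a + 2 * Real.pi := by
      have h1 := hRmo (i + 1) (m - 1) (by omega) (by omega)
      have h2 := hLR (i + 1) hi
      rw [hright] at h1
      linarith
    obtain ⟨j, hj, h1, h2⟩ := (hcv _ ⟨by linarith, by linarith⟩).1 (hcov' _ ⟨hθ1, hθ2⟩)
    rcases Nat.lt_or_ge i j with h | h
    · have := hLm (i + 1) j h hj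
      linarith
    · have := hRmo j i h (by omega)
      linarith
  · intro i hi
    exact ((hmem _).1 (hV i hi)).1
  · intro x hx
    refine ⟨EXF_le P a ?_ x hx, EXF_le P b ?_ x hx⟩
    · intro ε hε
      obtain ⟨θ, hθ, hf⟩ := hfa ε hε
      exact ⟨θ, by rw [abs_lt]; constructor <;> linarith [hθ.1, hθ.2], hf⟩
    · intro ε hε
      obtain ⟨θ, hθ, hf⟩ := hfb ε hε
      exact ⟨θ, by rw [abs_lt]; constructor <;> linarith [hθ.1, hθ.2], hf⟩

end

end Pool.BA
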