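import Pool.Agent.Work.MP_655153_ba.Interface2

/-!
# Block EXG: extraction of the chain in a window
-/

open MeasureTheory Set

namespace Pool.BA

noncomputable section

/-- `pr` is periodic in the direction -/
theorem EXG_pr (θ : ℝ) (n : ℤ) (z : ℂ) : pr (θ - n • (2 * Real.pi)) z = pr θ z := by
  unfold pr
  rw [zsmul_eq_mul, Real.cos_sub_int_mul_two_pi, Real.sin_sub_int_mul_two_pi]

theorem EXG_free (P : List ℂ) (θ : ℝ) (n : ℤ) : Free P (θ - n • (2 * Real.pi)) ↔ Free P θ := by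
  unfold Free
  simp only [EXG_pr]

theorem EXG_notFree (P : List ℂ) (θ : ℝ) : ¬ Free P θ ↔ ∃ p ∈ P, 1 ≤ pr θ p := by
  unfold Free
  push Not
  rfl

theorem p_EXG (hLIFT : Stmt_LIFT) (hINTV : Stmt_INTV) : Stmt_EXG := by
  classical
  intro P θ0 hfree hcov
  have key : ∀ x : ℂ, x ∈ P → 1 ≤ ‖x‖ → ∃ s : ℝ × ℝ, (0 ≤ s.2 ∧ s.2 < Real.pi / 2) ∧
      θ0 < s.1 - s.2 ∧ s.1 + s.2 < θ0 + 2 * Real.pi ∧ x = V s.1 s.2 ∧
      ∀ θ ∈ Icc θ0 (θ0 + 2 * Real.pi), (1 ≤ pr θ x ↔ s.1 - s.2 ≤ θ ∧ θ ≤ s.1 + s.2) := by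
    intro x hx hn
    obtain ⟨κ, α, h1, h2, h3, h4, h5, h6⟩ := (hLIFT x θ0 (hfree x hx)).1 hn
    exact ⟨(κ, α), ⟨h1, h2⟩, h3, h4, h5, h6⟩
  choose! s hs1 hs2 hs3 hs4 hs5 using key
  set S : Finset (ℝ × ℝ) := (P.toFinset.filter (fun x => 1 ≤ ‖x‖)).image s with hS
  have hmemS : ∀ t ∈ S, ∃ x ∈ P, 1 ≤ ‖x‖ ∧ s x = t := by
    intro t ht
    obtain ⟨x, hx, rfl⟩ := Finset.mem_image.1 ht
    have hx' := Finset.mem_filter.1 hx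
    exact ⟨x, List.mem_toFinset.1 hx'.1, hx'.2, rfl⟩
  have hSmem : ∀ x ∈ P, 1 ≤ ‖x‖ → s x ∈ S := by
    intro x hx hn
    exact Finset.mem_image.2 ⟨x, Finset.mem_filter.2 ⟨List.mem_toFinset.2 hx, hn⟩, rfl⟩
  obtain ⟨m, κ, α, hch, hmem, hcv⟩ := hINTV S (by
    intro t ht
    obtain ⟨x, hx, hn, rfl⟩ := hmemS t ht
    exact hs1 x hx hn)
  have hmain : ∀ θ ∈ Icc θ0 (θ0 + 2 * Real.pi),
      (¬ Free P θ ↔ ∃ i < m, Lf κ α i ≤ θ ∧ θ ≤ Rt κ α i) := by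
    intro θ hθ
    rw [← hcv θ, EXG_notFree]
    constructor
    · rintro ⟨x, hx, hx1⟩
      have hn : 1 ≤ ‖x‖ := (hLIFT x θ0 (hfree x hx)).2 θ hx1
      exact ⟨s x, hSmem x hx hn, (hs5 x hx hn θ hθ).1 hx1⟩
    · rintro ⟨t, ht, ht1⟩
      obtain ⟨x, hx, hn, rfl⟩ := hmemS t ht
      exact ⟨x, hx, (hs5 x hx hn θ hθ).2 ht1⟩
  have hm : 0 < m := by
    obtain ⟨θ, hθ⟩ := hcov
    have h1 := toIcoMod_mem_Ico Real.two_pi_pos θ0 θ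
    have h2 : toIcoMod Real.two_pi_pos θ0 θ =
        θ - toIcoDiv Real.two_pi_pos θ0 θ • (2 * Real.pi) := rfl
    have h3 : ¬ Free P (toIcoMod Real.two_pi_pos θ0 θ) := by
      rw [h2, EXG_free]
      exact hθ
    obtain ⟨i, hi, -⟩ := (hmain _ ⟨h1.1, h1.2.le⟩).1 h3
    omega
  refine ⟨m, κ, α, hm, hch, ?_, ?_, ?_, hmain⟩
  · obtain ⟨x, hx, hn, h1⟩ := hmemS _ (hmem 0 hm)
    have h2 := hs2 x hx hn
    rw [h1] at h2
    exact h2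
  · obtain ⟨x, hx, hn, h1⟩ := hmemS _ (hmem (m - 1) (by omega))
    have h2 := hs3 x hx hn
    rw [h1] at h2
    exact h2
  · intro i hi
    obtain ⟨x, hx, hn, h1⟩ := hmemS _ (hmem i hi)
    have h2 := hs4 x hx hn
    rw [h1] at h2
    rw [← h2]
    exact hx

end

end Pool.BA

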