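import Pool.Agent.Work.MP_655153_ba.Interface2

/-!
# Block FER: three points on a path and three unit vectors with sum zero
-/

namespace Pool.BA

theorem FER_dist (θ : ℝ) (p q : ℂ) : pr θ p - pr θ q ≤ dist p q := by
  have h : (pr θ p - pr θ q) ^ 2 ≤ dist p q ^ 2 := by
    rw [Complex.dist_eq, Complex.sq_norm, Complex.normSq_apply, Complex.sub_re, Complex.sub_im]
    unfold pr
    have e : ((p.re * Real.cos θ + p.im * Real.sin θ) - (q.re * Real.cos θ + q.im * Real.sin θ)) ^ 2
        + ((p.re - q.re) * Real.sin θ - (p.im - q.im) * Real.cos θ) ^ 2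
        = ((p.re - q.re) * (p.re - q.re) + (p.im - q.im) * (p.im - q.im))
          * (Real.sin θ ^ 2 + Real.cos θ ^ 2) := by ring
    rw [Real.sin_sq_add_cos_sq, mul_one] at e
    rw [← e]
    have h2 : 0 ≤ ((p.re - q.re) * Real.sin θ - (p.im - q.im) * Real.cos θ) ^ 2 := sq_nonneg _
    linarith
  exact le_trans (le_abs_self _) (abs_le_of_sq_le_sq h dist_nonneg)

theorem FER_sum (w : ℂ) :
    pr (2 * Real.pi / 3) w + pr (4 * Real.pi / 3) w = -w.re := by
  unfold pr
  have e1 : 2 * Real.pi / 3 = Real.pi - Real.pi / 3 := by ring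
  have e2 : 4 * Real.pi / 3 = Real.pi / 3 + Real.pi := by ring
  rw [e1, e2, Real.cos_pi_sub, Real.sin_pi_sub, Real.cos_add_pi, Real.sin_add_pi,
    Real.cos_pi_div_three]
  ring

theorem FER_zero (w : ℂ) : pr 0 w = w.re := by
  unfold pr
  rw [Real.cos_zero, Real.sin_zero]
  ring

/-- FER -/
theorem p_FER (hTHREE : Stmt_THREE) : Stmt_FER := by
  intro P x y z hx hy hz
  have sx := FER_sum x
  have sy := FER_sum y
  have sz := FER_sum z
  have z0 := FER_zero z
  have x0 := FER_zero x
  have y0 := FER_zero y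
  rcases hTHREE P x y z hx hy hz with h | h | h
  · -- middle `y`
    have h1 := FER_dist (2 * Real.pi / 3) x y
    have h2 := FER_dist 0 z y
    rw [dist_comm z y] at h2
    linarith
  · -- middle `x`
    have h1 := FER_dist (4 * Real.pi / 3) y x
    have h2 := FER_dist 0 z x
    rw [dist_comm z x] at h2
    linarith
  · -- middle `z`
    have h1 := FER_dist (2 * Real.pi / 3) x z
    have h2 := FER_dist (4 * Real.pi / 3) y z
    rw [dist_comm y z] at h2
    linarith

end Pool.BA
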