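import Pool.Agent.Work.MP_655153_ba.Interface5

/-! Block FIN (helper99) -/

open MeasureTheory Set
open scoped ENNReal

namespace Pool.BA

open Pool.Agent.Work.MP_655153_co

theorem p_FIN (hRED : Stmt_RED) (hUBX : Stmt_UBX) (hATT : Stmt_ATT) : Stmt_FIN := by
  obtain ⟨μ, t, h1, h2, h3, h4, h5, -, -⟩ := hATT
  obtain ⟨A, hA, hle⟩ := hUBX μ t h1 h2 h3 h4
  rw [← h5] at hle
  have h6 : detectorConstant 2 ≤ ∑ i, (A i).length := iInf₂_le A hA
  have h7 : ENNReal.ofReal Tstar ≤ detectorConstant 2 := hRED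
  exact ⟨le_antisymm (h6.trans hle) h7, A, hA, le_antisymm hle (h7.trans h6)⟩

end Pool.BA
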