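import Pool.Agent.Work.MP_655153_ba.Interface5

open MeasureTheory Set

namespace Pool.BA

theorem FTB_shift (hper : ∀ (P : List ℂ) (θ : ℝ), Free P (θ + 2 * Real.pi) ↔ Free P θ)
    {P : List ℂ} {a b : ℝ} (h : Hull P a b) :
    Hull P (a + 2 * Real.pi) (b + 2 * Real.pi) := by
  obtain ⟨h1, h2, h3⟩ := h
  refine ⟨?_, ?_, ?_⟩
  · intro θ hθ hf
    refine h1 (θ - 2 * Real.pi) ⟨by linarith [hθ.1], by linarith [hθ.2]⟩ ?_
    rw [← hper P (θ - 2 * Real.pi), sub_add_cancel]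
    exact hf
  · intro η hη
    obtain ⟨θ, hθ, hf⟩ := h2 η hη
    exact ⟨θ + 2 * Real.pi, ⟨by linarith [hθ.1], by linarith [hθ.2]⟩, (hper P θ).2 hf⟩
  · intro η hη
    obtain ⟨θ, hθ, hf⟩ := h3 η hη
    exact ⟨θ + 2 * Real.pi, ⟨by linarith [hθ.1], by linarith [hθ.2]⟩, (hper P θ).2 hf⟩

theorem p_FTB (hK0 : Stmt_K0) (hBOTH : Stmt_BOTH) (hHULL : Stmt_HULL) (hCG : Stmt_CG)
    (hROT : Stmt_ROT) (hTU : Stmt_TU) : Stmt_FTB := by
  intro P Q ε hε hε1 hPair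
  obtain ⟨-, -, -, -, hsym, hper, -, hnn⟩ := hROT
  have hT : Tstar ≤ 4819 / 1000 := hTU
  have hpi : 3.14 < Real.pi := Real.pi_gt_d2
  by_cases h1 : ∃ θ, Free P θ
  swap
  · have := hK0 P (fun θ h => h1 ⟨θ, h⟩)
    have := hnn Q
    norm_num at hpi
    linarith
  by_cases h2 : ∃ θ, Free Q θ
  swap
  · have := hK0 Q (fun θ h => h2 ⟨θ, h⟩)
    have := hnn P
    norm_num at hpi
    linarith
  have main : ∀ P Q : List ℂ, Pair P Q ε → (∃ θ, Free P θ) → (∃ θ, Free Q θ) → ¬ TwoC P →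
      Tstar - ε ≤ plen P + plen Q := by
    intro P Q hPair h1 h2 hT2
    obtain ⟨a, b, c, d, hab, hbc, hcd, hda, hP, hQ⟩ := hHULL P Q hPair.2.2.1 h1 h2 hT2
    rcases le_total (b - a) (d - c) with h | h
    · exact hCG P Q a b c d ε hε hε1 hPair hab hbc hcd hda h hP hQ
    · have := hCG Q P c d (a + 2 * Real.pi) (b + 2 * Real.pi) ε hε hε1 (hsym _ _ _ hPair) hcd
        hda (by linarith) (by linarith) (by linarith) hQ (FTB_shift hper hP)
      linarith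
  by_cases hP2 : TwoC P
  · by_cases hQ2 : TwoC Q
    · have := hBOTH P Q hPair.2.2.1 hP2 hQ2
      norm_num at hpi
      linarith
    · have := main Q P (hsym _ _ _ hPair) h2 h1 hQ2
      linarith
  · exact main P Q hPair h1 h2 hP2

end Pool.BA
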