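import Pool.Agent.Work.MP_655153_ba.Interface1

/-!
# Block PI: two caps at angular distance `Θ` of their centres
-/

open MeasureTheory Set

namespace Pool.BA

noncomputable section

theorem PI_dist (κ κ' α α' Θ : ℝ) (hΘ : Real.cos Θ = Real.cos (κ' - κ)) :
    dist (V κ α) (V κ' α') = dist (V 0 α) (V Θ α') := by
  rw [Complex.dist_eq_re_im, Complex.dist_eq_re_im]
  congr 1
  simp only [V]
  rw [Real.cos_sub] at hΘ
  simp only [div_eq_mul_inv, Real.cos_zero, Real.sin_zero]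
  have h1 := Real.sin_sq_add_cos_sq κ
  have h2 := Real.sin_sq_add_cos_sq κ'
  have h3 := Real.sin_sq_add_cos_sq Θ
  generalize (Real.cos α)⁻¹ = a
  generalize (Real.cos α')⁻¹ = b
  have e1 : (Real.cos κ * a - Real.cos κ' * b) ^ 2 + (Real.sin κ * a - Real.sin κ' * b) ^ 2 =
      (Real.sin κ ^ 2 + Real.cos κ ^ 2) * a ^ 2 + (Real.sin κ' ^ 2 + Real.cos κ' ^ 2) * b ^ 2 -
        2 * a * b * (Real.cos κ' * Real.cos κ + Real.sin κ' * Real.sin κ) := by ring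
  have e2 : (1 * a - Real.cos Θ * b) ^ 2 + (0 * a - Real.sin Θ * b) ^ 2 =
      a ^ 2 + (Real.sin Θ ^ 2 + Real.cos Θ ^ 2) * b ^ 2 - 2 * a * b * Real.cos Θ := by ring
  rw [e1, e2, h1, h2, h3, hΘ]
  ring

theorem p_PI (hHL : Stmt_HL) (hPRJ : Stmt_PRJ) : Stmt_PI := by
  intro κ κ' α α' Θ hα hα2 hα' hα2' hcos hΘ hΘπ
  rw [PI_dist κ κ' α α' Θ hcos]
  have hc : 0 < Real.cos α := Real.cos_pos_of_mem_Ioo ⟨by linarith [Real.pi_pos], hα2⟩
  have hc' : 0 < Real.cos α' := Real.cos_pos_of_mem_Ioo ⟨by linarith [Real.pi_pos], hα2'⟩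
  obtain ⟨ω, h1, h2, h3, h4⟩ : ∃ ω, α ≤ ω ∧ ω ≤ Real.pi / 2 ∧ α' ≤ Θ - ω ∧ Θ - ω ≤ Real.pi / 2 := by
    rcases le_total α (Θ - Real.pi / 2) with h | h
    · exact ⟨Θ - Real.pi / 2, h, by linarith, by linarith, by linarith⟩
    · exact ⟨α, le_rfl, hα2.le, by linarith, by linarith⟩
  have h5 := hPRJ 0 Θ α α' ω hc hc'
  have h6 := hHL α ω hα h1 h2 hα2
  have h7 := hHL α' (Θ - ω) hα' h3 h4 hα2'
  rw [sub_zero] at h5
  linarith

end

end Pool.BA
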