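import Pool.Agent.Work.MP_655153_ba.Interface1
import Pool.Agent.Work.MP_655153_ba.B_PI

namespace Pool.BA

theorem GAIN_tan {α : ℝ} (h0 : 0 ≤ α) (h1 : α ≤ Real.pi / 36) : Real.tan α ≤ 9 / 100 := by
  have hp1 := Real.pi_gt_d2
  have hp2 := Real.pi_lt_d2
  have hc : 0 < Real.cos α := Real.cos_pos_of_mem_Ioo ⟨by linarith, by linarith⟩
  have hcos : 1 - α ^ 2 / 2 ≤ Real.cos α := Real.one_sub_sq_div_two_le_cos
  have hs : Real.sin α ≤ α := Real.sin_le h0
  rw [Real.tan_eq_sin_div_cos, div_le_iff₀ hc]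
  have : α ≤ 875 / 10000 := by linarith
  nlinarith

theorem GAIN_G1 {g : ℝ} (h0 : 22 / 100 ≤ g) (h1 : g ≤ Real.pi / 2) :
    g / 2 + 9 / 100 * (1 - Real.cos g) + 1 / 10 ≤ Real.sin g := by
  have hp1 := Real.pi_gt_d4
  have hp2 := Real.pi_lt_d4
  rcases le_or_gt g 1 with h | h
  · have hs : g - g ^ 3 / 6 < Real.sin g := Real.sin_gt_sub_cube (by linarith)
    have hc : 1 - g ^ 2 / 2 ≤ Real.cos g := Real.one_sub_sq_div_two_le_cos
    nlinarith [mul_nonneg (sub_nonneg.2 h0) (sub_nonneg.2 h),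
      mul_nonneg (mul_nonneg (sub_nonneg.2 h0) (sub_nonneg.2 h)) (by linarith : (0:ℝ) ≤ g)]
  · have hs : Real.sin g = Real.cos (Real.pi / 2 - g) := (Real.cos_pi_div_two_sub g).symm
    have hc : 1 - (Real.pi / 2 - g) ^ 2 / 2 ≤ Real.cos (Real.pi / 2 - g) :=
      Real.one_sub_sq_div_two_le_cos
    have hc0 : 0 ≤ Real.cos g := Real.cos_nonneg_of_mem_Icc ⟨by linarith, h1⟩
    rw [hs]
    obtain ⟨y, hy⟩ : ∃ y, y = Real.pi / 2 - g := ⟨_, rfl⟩
    rw [← hy] at hc ⊢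
    have hy0 : 0 ≤ y := by linarith
    have hy1 : y ≤ 571 / 1000 := by linarith
    have hg : g = Real.pi / 2 - y := by linarith
    nlinarith

theorem p_GAIN (hHL : Stmt_HL) (hPRJ : Stmt_PRJ) : Stmt_GAIN := by
  intro κ κ' α α' Θ h0 h1 h0' h1' hcos hΘ hΘπ
  have hp1 := Real.pi_gt_d4
  have hp2 := Real.pi_lt_d4
  rw [PI_dist κ κ' α α' Θ hcos]
  have hc : 0 < Real.cos α := Real.cos_pos_of_mem_Ioo ⟨by linarith, by linarith⟩
  have hc' : 0 < Real.cos α' := Real.cos_pos_of_mem_Ioo ⟨by linarith, h1'⟩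
  have ht := GAIN_tan h0 h1
  have ht0 : 0 ≤ Real.tan α := Real.tan_nonneg_of_nonneg_of_le_pi_div_two h0 (by linarith)
  obtain ⟨g, hg⟩ : ∃ g, g = Θ - α - α' := ⟨_, rfl⟩
  rcases le_or_gt g (Real.pi / 2 - α) with h | h
  · have k := hPRJ 0 Θ α α' (Θ - α') hc hc'
    have e1 : Real.sin (Θ - α' - 0) / Real.cos α =
        Real.sin g + Real.tan α * Real.cos g := by
      have : Θ - α' - 0 = g + α := by rw [hg]; ring
      rw [this, Real.sin_add, Real.tan_eq_sin_div_cos]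
      field_simp
    have e2 : Real.sin (Θ - (Θ - α')) / Real.cos α' = Real.tan α' := by
      rw [Real.tan_eq_sin_div_cos]
      congr 2
      ring
    rw [e1, e2] at k
    have hG := GAIN_G1 (g := g) (by rw [hg]; linarith) (by linarith)
    have hcg : Real.cos g ≤ 1 := Real.cos_le_one g
    have : Θ - α - α' = g := hg.symm
    rw [this]
    nlinarith
  · have k := hPRJ 0 Θ α α' (Real.pi / 2) hc hc'
    have e1 : Real.sin (Real.pi / 2 - 0) / Real.cos α = 1 / Real.cos α := by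
      rw [sub_zero, Real.sin_pi_div_two]
    have e1' : 1 ≤ 1 / Real.cos α := by
      rw [le_div_iff₀ hc]
      linarith [Real.cos_le_one α]
    have h7 := hHL α' (Θ - Real.pi / 2) h0' (by linarith) (by linarith) h1'
    rw [e1] at k
    linarith

end Pool.BA
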