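import Pool.Agent.Work.MP_655153_ba.Interface3

/-!
# Block GS: the bonus function (helper63)
-/

set_option autoImplicit false

open MeasureTheory Set

namespace Pool.BA

noncomputable section

/-- concavity of the sine: `3 x / π ≤ sin x` for `0 ≤ x ≤ π / 6` -/
theorem GS_sin {x : ℝ} (h0 : 0 ≤ x) (h1 : x ≤ Real.pi / 6) : x / (Real.pi / 6) ≤ 2 * Real.sin x := by
  have hpi := Real.pi_pos
  have hc := strictConcaveOn_sin_Icc.concaveOn
  have hh : (0 : ℝ) < Real.pi / 6 := by positivity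
  have ht0 : 0 ≤ x / (Real.pi / 6) := div_nonneg h0 hh.le
  have ht1 : x / (Real.pi / 6) ≤ 1 := (div_le_one hh).2 h1
  have hz : (0 : ℝ) ∈ Icc (0 : ℝ) Real.pi := ⟨le_refl _, hpi.le⟩
  have hy : Real.pi / 6 ∈ Icc (0 : ℝ) Real.pi := ⟨hh.le, by linarith⟩
  have h1' : (0 : ℝ) ≤ 1 - x / (Real.pi / 6) := by linarith
  have h2' : 1 - x / (Real.pi / 6) + x / (Real.pi / 6) = 1 := by ring
  have h := hc.2 hz hy h1' ht0 h2'
  simp only [smul_eq_mul, Real.sin_zero, mul_zero, zero_add, Real.sin_pi_div_six] at h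
  have e : x / (Real.pi / 6) * (Real.pi / 6) = x := div_mul_cancel₀ x hh.ne'
  rw [e] at h
  linarith

theorem GS_one (σ μ : ℝ) (hσ : |σ| ≤ Real.pi / 6) (h1 : Real.pi / 6 ≤ μ)
    (h2 : μ ≤ 7 * Real.pi / 12) :
    0 ≤ bS μ ∧ bS μ * ((Real.pi / 6 - σ) / (Real.pi / 3)) ≤
      2 * Real.sin ((μ - Real.pi / 6) / 2) * Real.sin ((Real.pi / 6 - σ) / 2) /
        Real.sin ((μ - σ) / 2) := by
  have hpi := Real.pi_pos
  obtain ⟨s1, s2⟩ := abs_le.1 hσ
  obtain ⟨A, hA⟩ : ∃ A, A = (μ - Real.pi / 6) / 2 := ⟨_, rfl⟩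
  obtain ⟨x, hx⟩ : ∃ x, x = (Real.pi / 6 - σ) / 2 := ⟨_, rfl⟩
  have hA0 : 0 ≤ A := by rw [hA]; linarith
  have hA1 : A ≤ 5 * Real.pi / 24 := by rw [hA]; linarith
  have hx0 : 0 ≤ x := by rw [hx]; linarith
  have hx1 : x ≤ Real.pi / 6 := by rw [hx]; linarith
  have e1 : (μ + Real.pi / 6) / 2 = A + Real.pi / 6 := by rw [hA]; ring
  have e2 : (μ - σ) / 2 = A + x := by rw [hA, hx]; ring
  have e3 : (Real.pi / 6 - σ) / (Real.pi / 3) = x / (Real.pi / 6) := by
    rw [hx]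
    field_simp
    ring
  have hsA : 0 ≤ Real.sin A := Real.sin_nonneg_of_nonneg_of_le_pi hA0 (by linarith)
  have hsB : 0 < Real.sin (A + Real.pi / 6) :=
    Real.sin_pos_of_pos_of_lt_pi (by linarith) (by linarith)
  have hb : bS μ = Real.sin A / Real.sin (A + Real.pi / 6) := by
    unfold bS
    rw [← hA, e1]
  have hb0 : 0 ≤ bS μ := by
    rw [hb]
    exact div_nonneg hsA hsB.le
  refine ⟨hb0, ?_⟩
  rw [e3, ← hA, ← hx, e2, hb]
  by_cases hAx : A + x = 0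
  · have hA' : A = 0 := by linarith
    rw [hA', Real.sin_zero]
    simp
  · have hpos : 0 < A + x := lt_of_le_of_ne (by linarith) (Ne.symm hAx)
    have hsC : 0 < Real.sin (A + x) := Real.sin_pos_of_pos_of_lt_pi hpos (by linarith)
    have hmono : Real.sin (A + x) ≤ Real.sin (A + Real.pi / 6) :=
      Real.sin_le_sin_of_le_of_le_pi_div_two (by linarith) (by linarith) (by linarith)
    have hsx := GS_sin hx0 hx1
    have hx6 : 0 ≤ x / (Real.pi / 6) := div_nonneg hx0 (by positivity)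
    calc Real.sin A / Real.sin (A + Real.pi / 6) * (x / (Real.pi / 6))
        ≤ Real.sin A / Real.sin (A + x) * (2 * Real.sin x) := by
          refine mul_le_mul ?_ hsx hx6 (div_nonneg hsA hsC.le)
          exact div_le_div_of_nonneg_left hsA hsC hmono
      _ = 2 * Real.sin A * Real.sin x / Real.sin (A + x) := by ring

theorem p_GS : Stmt_GS := by
  refine ⟨GS_one, ?_⟩
  intro σ μ1 μ2 hσ h1 h2 h3 h4
  obtain ⟨a0, a1⟩ := GS_one σ μ1 hσ h1 h2
  obtain ⟨b0, b1⟩ := GS_one (-σ) μ2 (by rwa [abs_neg]) h3 h4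
  obtain ⟨s1, s2⟩ := abs_le.1 hσ
  have hpi := Real.pi_pos
  rw [sub_neg_eq_add, sub_neg_eq_add] at b1
  have c0 : 0 ≤ (Real.pi / 6 - σ) / (Real.pi / 3) := div_nonneg (by linarith) (by positivity)
  have c1 : 0 ≤ (Real.pi / 6 + σ) / (Real.pi / 3) := div_nonneg (by linarith) (by positivity)
  have c2 : (Real.pi / 6 - σ) / (Real.pi / 3) + (Real.pi / 6 + σ) / (Real.pi / 3) = 1 := by
    rw [← add_div, div_eq_one_iff_eq (by positivity)]
    ring
  have d1 := mul_le_mul_of_nonneg_right (min_le_left (bS μ1) (bS μ2)) c0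
  have d2 := mul_le_mul_of_nonneg_right (min_le_right (bS μ1) (bS μ2)) c1
  calc min (bS μ1) (bS μ2)
      = min (bS μ1) (bS μ2) * ((Real.pi / 6 - σ) / (Real.pi / 3)) +
        min (bS μ1) (bS μ2) * ((Real.pi / 6 + σ) / (Real.pi / 3)) := by
        rw [← mul_add, c2, mul_one]
    _ ≤ _ := by linarith

end

end Pool.BA
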