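import Pool.Agent.Work.MP_655153_ba.Interface4

/-! # Block GV1 (helper72) -/

namespace Pool.BA

theorem p_GV1 (hSFB : Stmt_SFB) (hMINT : Stmt_MINT) : Stmt_GV1 := by
  intro μ α β h0 h1 h2 h3 h4 h5
  have hpi := Real.pi_pos
  have e1 : |Real.pi / 2 - μ| = Real.pi / 2 - μ := abs_of_nonneg (by linarith)
  have m1 := hMINT μ α h0.le (by linarith) h2 h3
  have m2 := hMINT μ β h0.le (by linarith) h4 h5
  rw [e1, Real.sin_pi_div_two_sub] at m1 m2
  have s1 := (hSFB α h2 h3).1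
  have s2 := (hSFB β h4 h5).1
  unfold s0 at s1 s2
  rcases max_cases (Real.cos μ - Real.tan α * Real.sin μ)
    (Real.cos μ - Real.tan β * Real.sin μ) with ⟨h, -⟩ | ⟨h, -⟩
  · rw [h]
    linarith
  · rw [h]
    linarith

end Pool.BA
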