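import Pool.Agent.Work.MP_655153_ba.Interface4

set_option autoImplicit false

/-!
# Block GV2 (helper10)
-/

open MeasureTheory Set

namespace Pool.BA

noncomputable section

theorem GV2_b {x : ℝ} (h1 : Real.pi / 4 ≤ x) (h2 : x ≤ 7 * Real.pi / 12) :
    x - 33 / 25 ≤ bS x := by
  have p1 := Real.pi_gt_d4
  have p2 := Real.pi_lt_d4
  have hu1 : 0 < (x - Real.pi / 6) / 2 := by linarith
  have hu2 : (x - Real.pi / 6) / 2 ≤ 6546 / 10000 := by linarith
  have hs := Real.sin_gt_sub_cube hu1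
  have hc : ((x - Real.pi / 6) / 2) ^ 3 ≤ (6546 / 10000 : ℝ) ^ 3 :=
    pow_le_pow_left₀ hu1.le hu2 3
  have s1 : 0 < Real.sin ((x + Real.pi / 6) / 2) :=
    Real.sin_pos_of_pos_of_lt_pi (by linarith) (by linarith)
  have s2 := Real.sin_le_one ((x + Real.pi / 6) / 2)
  have s4 : x - 33 / 25 ≤ Real.sin ((x - Real.pi / 6) / 2) := by
    norm_num at hc
    linarith
  have s3 : 0 ≤ Real.sin ((x - Real.pi / 6) / 2) :=
    (Real.sin_pos_of_pos_of_lt_pi hu1 (by linarith)).le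
  unfold bS
  rw [le_div_iff₀ s1]
  rcases le_total 0 (x - 33 / 25) with h | h
  · nlinarith
  · nlinarith

theorem GV2_one (hSFB : Stmt_SFB) (hMINT : Stmt_MINT) {μ x y α β : ℝ}
    (h1 : 5 * Real.pi / 12 ≤ μ) (hx : x ≤ Real.pi - μ) (hy : y ≤ Real.pi - μ)
    (hx0 : Real.pi / 4 ≤ x) (hα0 : 0 ≤ α) (hα1 : α < Real.pi / 2)
    (hβ0 : 0 ≤ β) (hβ1 : β < Real.pi / 2) :
    μ + 17 / 25 ≤ 2 * Real.pi - x - y - sf α - sf β -
      (Real.cos x - Real.tan α * Real.sin x) := by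
  have p1 := Real.pi_gt_d4
  have p2 := Real.pi_lt_d4
  have m1 := hMINT x α (by linarith) (by linarith) hα0 hα1
  have m2 := (hSFB β hβ0 hβ1).1
  have e0 : s0 = Real.pi / 2 - 1 := rfl
  rcases le_total x (Real.pi / 2) with h | h
  · rw [abs_of_nonneg (by linarith : 0 ≤ Real.pi / 2 - x), Real.sin_pi_div_two_sub] at m1
    linarith
  · rw [abs_of_nonpos (by linarith : Real.pi / 2 - x ≤ 0)] at m1
    have e1 : Real.sin (-(Real.pi / 2 - x)) = -Real.cos x := by
      rw [Real.sin_neg, Real.sin_pi_div_two_sub]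
    have e2 : (2 / Real.pi) * (-(Real.pi / 2 - x)) ≤ Real.sin (-(Real.pi / 2 - x)) :=
      Real.mul_le_sin (by linarith) (by linarith)
    have e3 : (1 : ℝ) / 2 ≤ 2 / Real.pi := by
      rw [div_le_div_iff₀ (by norm_num) (by linarith)]
      linarith
    have e4 : (1 / 2) * (-(Real.pi / 2 - x)) ≤ (2 / Real.pi) * (-(Real.pi / 2 - x)) :=
      mul_le_mul_of_nonneg_right e3 (by linarith)
    rw [e1] at m1 e2
    linarith

theorem p_GV2 (hSFB : Stmt_SFB) (hMINT : Stmt_MINT) : Stmt_GV2 := by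
  intro μ μ1 μ2 h1 h2 hm1 hm2 hs
  have p1 := Real.pi_gt_d4
  have p2 := Real.pi_lt_d4
  have l1 : Real.pi / 4 ≤ μ1 := by linarith
  have l2 : Real.pi / 4 ≤ μ2 := by linarith
  have e0 : s0 = Real.pi / 2 - 1 := rfl
  refine ⟨?_, ?_, ?_⟩
  · intro α β hα0 hα1 hβ0 hβ1
    rcases max_choice (Real.cos μ1 - Real.tan α * Real.sin μ1)
      (Real.cos μ2 - Real.tan β * Real.sin μ2) with h | h
    · rw [h]
      exact GV2_one hSFB hMINT h1 hm1 hm2 l1 hα0 hα1 hβ0 hβ1
    · rw [h]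
      have h3 := GV2_one hSFB hMINT h1 hm2 hm1 l2 hβ0 hβ1 hα0 hα1
      linarith
  · have hc : ∀ x, Real.pi / 4 ≤ x → x ≤ Real.pi → Real.cos x ≤ √2 / 2 := by
      intro x hx hx'
      rw [← Real.cos_pi_div_four]
      exact Real.cos_le_cos_of_nonneg_of_le_pi (by linarith) hx' hx
    have c1 := hc μ1 l1 (by linarith)
    have c2 := hc μ2 l2 (by linarith)
    have c3 := max_le c1 c2
    have c4 : √2 ≤ 3 / 2 := by
      rw [Real.sqrt_le_left (by norm_num)]
      norm_num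
    linarith
  · have b1 := GV2_b l1 (by linarith)
    have b2 := GV2_b l2 (by linarith)
    rcases min_choice (bS μ1) (bS μ2) with h | h
    · rw [h]
      linarith
    · rw [h]
      linarith

end

end Pool.BA
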