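import Pool.Agent.Work.MP_655153_ba.Interface1

/-! # Block HL (helper72) -/

namespace Pool.BA

theorem HL_tan (x : ℝ) (h0 : 0 ≤ x) (h1 : x < Real.pi / 2) :
    x * Real.cos x ≤ Real.sin x := by
  have hc : 0 < Real.cos x := Real.cos_pos_of_mem_Ioo ⟨by linarith [Real.pi_pos], h1⟩
  have h2 := Real.le_tan h0 h1
  rw [Real.tan_eq_sin_div_cos, le_div_iff₀ hc] at h2
  exact h2

theorem HL_end (β : ℝ) (h0 : 0 ≤ β) (h1 : β ≤ Real.pi / 2) :
    β / 2 * Real.sin β ≤ 1 - Real.cos β := by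
  have hpi := Real.pi_pos
  have h2 := HL_tan (β / 2) (by linarith) (by linarith)
  have h3 : 0 ≤ Real.sin (β / 2) := Real.sin_nonneg_of_nonneg_of_le_pi (by linarith) (by linarith)
  have e1 : Real.sin β = 2 * Real.sin (β / 2) * Real.cos (β / 2) := by
    rw [← Real.sin_two_mul]
    congr 1
    ring
  have e2 : Real.cos β = 1 - 2 * Real.sin (β / 2) ^ 2 := by
    have h4 := Real.cos_two_mul (β / 2)
    have h5 := Real.sin_sq_add_cos_sq (β / 2)
    have h6 : 2 * (β / 2) = β := by ring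
    rw [h6] at h4
    rw [h4]
    linarith
  rw [e1, e2]
  have h4 := mul_le_mul_of_nonneg_left h2 h3
  nlinarith

theorem p_HL : Stmt_HL := by
  intro α ω h0 h1 h2 h3
  have hpi := Real.pi_pos
  have hc : 0 < Real.cos α := Real.cos_pos_of_mem_Ioo ⟨by linarith, h3⟩
  rw [le_div_iff₀ hc, Real.tan_eq_sin_div_cos, add_mul, div_mul_cancel₀ _ hc.ne']
  have hd : 0 < Real.pi / 2 - α := by linarith
  obtain ⟨t, ht⟩ : ∃ t, t = (ω - α) / (Real.pi / 2 - α) := ⟨_, rfl⟩
  have ht0 : 0 ≤ t := by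
    rw [ht]
    exact div_nonneg (by linarith) hd.le
  have ht1 : t ≤ 1 := by
    rw [ht, div_le_one hd]
    linarith
  have htm : t * (Real.pi / 2 - α) = ω - α := by
    rw [ht, div_mul_cancel₀ _ hd.ne']
  have h4 := strictConcaveOn_sin_Icc.concaveOn.2 (x := α) (y := Real.pi / 2)
    ⟨h0, by linarith⟩ ⟨by linarith, by linarith⟩ (sub_nonneg.2 ht1) ht0 (by ring)
  simp only [smul_eq_mul] at h4
  have e1 : (1 - t) * α + t * (Real.pi / 2) = ω := by linarith
  rw [e1, Real.sin_pi_div_two] at h4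
  have h5 := HL_end (Real.pi / 2 - α) hd.le (by linarith)
  rw [Real.sin_pi_div_two_sub, Real.cos_pi_div_two_sub] at h5
  have h6 := mul_le_mul_of_nonneg_left h5 ht0
  have h7 : (ω - α) / 2 * Real.cos α = t * ((Real.pi / 2 - α) / 2 * Real.cos α) := by
    rw [← htm]
    ring
  rw [h7]
  linarith

end Pool.BA
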