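import Pool.Agent.Work.MP_655153_ba.Interface1

/-!
# MP_655153_co, block HU: hopped or unhopped gap
-/

set_option autoImplicit false

open MeasureTheory Set

namespace Pool.BA

noncomputable section

/-! ### Lists -/

theorem HU_cons_mono {R R' : ℕ → ℕ → Prop} (h : ∀ i j, R i j → R' i j) :
    ∀ p : List ℕ, Cons R p → Cons R' p
  | [], _ => trivial
  | [_], _ => trivial
  | i :: j :: l, hp => ⟨h i j hp.1, HU_cons_mono h (j :: l) hp.2⟩

theorem HU_cons_and {R R' : ℕ → ℕ → Prop} :
    ∀ p : List ℕ, Cons R p → Cons R' p → Cons (fun i j => R i j ∧ R' i j) p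
  | [], _, _ => trivial
  | [_], _, _ => trivial
  | _ :: j :: l, hp, hq => ⟨⟨hp.1, hq.1⟩, HU_cons_and (j :: l) hp.2 hq.2⟩

theorem HU_not_some {R : ℕ → ℕ → Prop} :
    ∀ p : List ℕ, ¬ Some2 R p → Cons (fun i j => ¬ R i j) p
  | [], _ => trivial
  | [_], _ => trivial
  | _ :: j :: l, h => ⟨fun hh => h (Or.inl hh), HU_not_some (j :: l) (fun hh => h (Or.inr hh))⟩

theorem HU_some_mono {R R' : ℕ → ℕ → Prop} (h : ∀ i j, R i j → R' i j) :
    ∀ p : List ℕ, Some2 R p → Some2 R' p
  | [], hp => hp
  | [_], hp => hp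
  | i :: j :: l, hp => by
      rcases hp with hp | hp
      · exact Or.inl (h i j hp)
      · exact Or.inr (HU_some_mono h (j :: l) hp)

theorem HU_cons_base (m : ℕ) : ∀ p : List ℕ, p.Nodup → (∀ i ∈ p, i < m) →
    Cons (fun i j => i < m ∧ j < m ∧ i ≠ j) p
  | [], _, _ => trivial
  | [_], _, _ => trivial
  | i :: j :: l, hn, hm => by
      refine ⟨⟨hm i (by simp), hm j (by simp), ?_⟩, ?_⟩
      · intro h
        subst h
        simp at hn
      · exact HU_cons_base m (j :: l) (List.nodup_cons.mp hn).2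
          (fun x hx => hm x (List.mem_cons_of_mem _ hx))

theorem HU_cons_map {R : ℕ → ℕ → Prop} {σ : ℕ → ℕ} :
    ∀ p : List ℕ, Cons (fun i j => R (σ i) (σ j)) p → Cons R (p.map σ)
  | [], _ => trivial
  | [_], _ => trivial
  | _ :: j :: l, hp => ⟨hp.1, HU_cons_map (j :: l) hp.2⟩

theorem HU_psum_map (f : ℕ → ℕ → ℝ) (σ : ℕ → ℕ) :
    ∀ p : List ℕ, psum f (p.map σ) = psum (fun i j => f (σ i) (σ j)) p
  | [] => rfl
  | [_] => rfl
  | i :: j :: l => by
      have h := HU_psum_map f σ (j :: l)
      show f (σ i) (σ j) + psum f ((j :: l).map σ) = f (σ i) (σ j) + _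
      rw [h]

theorem HU_psum_mono {f g : ℕ → ℕ → ℝ} :
    ∀ p : List ℕ, Cons (fun i j => f i j ≤ g i j) p → psum f p ≤ psum g p
  | [], _ => le_refl _
  | [_], _ => le_refl _
  | i :: j :: l, hp => by
      have h1 := HU_psum_mono (j :: l) hp.2
      have h2 : f i j ≤ g i j := hp.1
      show f i j + psum f (j :: l) ≤ g i j + psum g (j :: l)
      linarith

theorem HU_psum_some {f g : ℕ → ℕ → ℝ} {η : ℝ} :
    ∀ p : List ℕ, Cons (fun i j => f i j ≤ g i j) p → Some2 (fun i j => f i j + η ≤ g i j) p →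
      psum f p + η ≤ psum g p
  | [], _, h => h.elim
  | [_], _, h => h.elim
  | i :: j :: l, hp, hs => by
      have h2 : f i j ≤ g i j := hp.1
      show f i j + psum f (j :: l) + η ≤ g i j + psum g (j :: l)
      rcases hs with h | h
      · have h1 := HU_psum_mono (j :: l) hp.2
        have h3 : f i j + η ≤ g i j := h
        linarith
      · have h1 := HU_psum_some (j :: l) hp.2 h
        linarith

theorem HU_psum_sum (S : Finset ℕ) (φ : ℕ → ℕ → ℕ → ℝ) :
    ∀ p : List ℕ, psum (fun i j => ∑ s ∈ S, φ s i j) p = ∑ s ∈ S, psum (φ s) p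
  | [] => by simp [psum]
  | [_] => by simp [psum]
  | i :: j :: l => by
      have h := HU_psum_sum S φ (j :: l)
      show (∑ s ∈ S, φ s i j) + psum (fun i j => ∑ s ∈ S, φ s i j) (j :: l)
        = ∑ s ∈ S, (φ s i j + psum (φ s) (j :: l))
      rw [h, Finset.sum_add_distrib]

theorem HU_psum_nn {f : ℕ → ℕ → ℝ} (h0 : ∀ i j, 0 ≤ f i j) : ∀ p : List ℕ, 0 ≤ psum f p
  | [] => le_refl _
  | [_] => le_refl _
  | i :: j :: l => by
      have h := HU_psum_nn h0 (j :: l)
      show 0 ≤ f i j + psum f (j :: l)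
      have := h0 i j
      linarith

theorem HU_psum_ge {f : ℕ → ℕ → ℝ} {R : ℕ → ℕ → Prop} {c : ℝ} (h0 : ∀ i j, 0 ≤ f i j)
    (h1 : ∀ i j, R i j → c ≤ f i j) : ∀ p : List ℕ, Some2 R p → c ≤ psum f p
  | [], h => h.elim
  | [_], h => h.elim
  | i :: j :: l, h => by
      show c ≤ f i j + psum f (j :: l)
      rcases h with h | h
      · have a := h1 i j h
        have b := HU_psum_nn h0 (j :: l)
        linarith
      · have a := h0 i j
        have b := HU_psum_ge h0 h1 (j :: l) h
        linarith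

/-! ### Chains -/

theorem HU_LR {m : ℕ} {κ α : ℕ → ℝ} (h : Chain m κ α) {i : ℕ} (hi : i < m) :
    Lf κ α i ≤ Rt κ α i := by
  have := h.α0 i hi
  unfold Lf Rt
  linarith

theorem HU_Lmono {m : ℕ} {κ α : ℕ → ℝ} (h : Chain m κ α) {i j : ℕ} (hij : i ≤ j) :
    j < m → Lf κ α i ≤ Lf κ α j := by
  induction j, hij using Nat.le_induction with
  | base => intro _; exact le_refl _
  | succ n hn ih => intro hj; exact (ih (by omega)).trans (h.l n hj).le

theorem HU_Rmono {m : ℕ} {κ α : ℕ → ℝ} (h : Chain m κ α) {i j : ℕ} (hij : i ≤ j) :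
    j < m → Rt κ α i ≤ Rt κ α j := by
  induction j, hij using Nat.le_induction with
  | base => intro _; exact le_refl _
  | succ n hn ih => intro hj; exact (ih (by omega)).trans (h.r n hj).le

theorem HU_nov {m : ℕ} {κ α : ℕ → ℝ} (h : Chain m κ α) {i j : ℕ} (hij : i < j) (hj : j < m)
    (hov : ¬ ov κ α i j) : Rt κ α i < Lf κ α j := by
  by_cases h1 : j = i + 1
  · by_contra hc
    exact hov (Or.inl ⟨h1, not_lt.mp hc⟩)
  · have h2 : i + 2 ≤ j := by omega
    exact (h.sep i (by omega)).trans_le (HU_Lmono h h2 hj)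

theorem HU_ovc {κ α : ℕ → ℝ} {i j : ℕ} : ov κ α i j ↔ ov κ α j i := by
  unfold ov
  exact Or.comm

theorem HU_ddc (κ α : ℕ → ℝ) (i j : ℕ) : dd κ α i j = dd κ α j i := by
  unfold dd
  exact dist_comm _ _

theorem HU_excc (κ α : ℕ → ℝ) (i j : ℕ) : exc κ α i j = exc κ α j i := by
  unfold exc
  by_cases h : ov κ α i j
  · rw [if_pos h, if_pos (HU_ovc.mp h)]
  · rw [if_neg h, if_neg (fun hh => h (HU_ovc.mpr hh)), HU_ddc κ α i j]
    ring

theorem HU_sum {m : ℕ} {κ α : ℕ → ℝ} (h : Chain m κ α) {i j : ℕ} (hij : i ≤ j) :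
    j < m → ∑ s ∈ Finset.Ioc i j, max 0 (Lf κ α s - Rt κ α (s - 1))
      ≤ max 0 (Lf κ α j - Rt κ α i) := by
  induction j, hij using Nat.le_induction with
  | base => intro _; simp
  | succ n hn ih =>
    intro hj
    rw [Finset.sum_Ioc_succ_top hn]
    have ih' := ih (by omega)
    have h1 : n + 1 - 1 = n := by omega
    rw [h1]
    have hL := h.l n hj
    have hR := HU_Rmono h hn (by omega)
    have hLR := HU_LR h (show n < m by omega)
    rcases le_total (Lf κ α n - Rt κ α i) 0 with a | a
    · rw [max_eq_left a] at ih'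
      have : max 0 (Lf κ α (n + 1) - Rt κ α n) ≤ max 0 (Lf κ α (n + 1) - Rt κ α i) :=
        max_le_max le_rfl (by linarith)
      linarith
    · rw [max_eq_right a] at ih'
      have h5 := le_max_right 0 (Lf κ α (n + 1) - Rt κ α i)
      rcases le_total (Lf κ α (n + 1) - Rt κ α n) 0 with b | b
      · rw [max_eq_left b]
        linarith
      · rw [max_eq_right b]
        linarith

theorem HU_union (A B : Finset ℕ) (f : ℕ → ℝ) (hf : ∀ s, 0 ≤ f s) :
    ∑ s ∈ A ∪ B, f s ≤ ∑ s ∈ A, f s + ∑ s ∈ B, f s := by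
  have h := Finset.sum_union_inter (s₁ := A) (s₂ := B) (f := f)
  have h2 : 0 ≤ ∑ s ∈ A ∩ B, f s := Finset.sum_nonneg (fun s _ => hf s)
  linarith

/-- the pair `i j` hops the gap `s` -/
def HU_hop (κ : ℕ → ℝ) (s i j : ℕ) : Prop :=
  (κ (max i j) - κ (min i j) ≤ Real.pi → min i j < s ∧ s ≤ max i j) ∧
  (¬ κ (max i j) - κ (min i j) ≤ Real.pi → s ≤ min i j ∨ max i j < s)

theorem HU_gap0 {κ α : ℕ → ℝ} {m : ℕ} :
    gap κ α m 0 = Lf κ α 0 + 2 * Real.pi - Rt κ α (m - 1) := by
  unfold gap
  rw [if_pos rfl]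

theorem HU_gaps {κ α : ℕ → ℝ} {m s : ℕ} (hs : 0 < s) :
    gap κ α m s = Lf κ α s - Rt κ α (s - 1) := by
  unfold gap
  rw [if_neg (by omega)]

open Classical in
theorem HU_short {m : ℕ} {κ α : ℕ → ℝ} (h : Chain m κ α)
    (hw : Rt κ α (m - 1) < Lf κ α 0 + 2 * Real.pi) {i j : ℕ} (hij : i < j) (hj : j < m)
    (hov : ¬ ov κ α i j) :
    ∑ s ∈ Finset.range m, (if HU_hop κ s i j then max 0 (gap κ α m s) else 0)
      ≤ short κ α i j := by
  have hmax : max i j = j := max_eq_right hij.le
  have hmin : min i j = i := min_eq_left hij.le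
  rw [← Finset.sum_filter]
  have hG : ∀ s, 0 ≤ max 0 (gap κ α m s) := fun s => le_max_left _ _
  by_cases hin : κ j - κ i ≤ Real.pi
  · have hsub : (Finset.range m).filter (fun s => HU_hop κ s i j) ⊆ Finset.Ioc i j := by
      intro s hs
      rw [Finset.mem_filter] at hs
      have := hs.2.1
      rw [hmax, hmin] at this
      exact Finset.mem_Ioc.mpr (this hin)
    have h1 : ∑ s ∈ (Finset.range m).filter (fun s => HU_hop κ s i j), max 0 (gap κ α m s)
        ≤ ∑ s ∈ Finset.Ioc i j, max 0 (gap κ α m s) :=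
      Finset.sum_le_sum_of_subset_of_nonneg hsub (fun s _ _ => hG s)
    have h2 : ∑ s ∈ Finset.Ioc i j, max 0 (gap κ α m s)
        = ∑ s ∈ Finset.Ioc i j, max 0 (Lf κ α s - Rt κ α (s - 1)) := by
      refine Finset.sum_congr rfl (fun s hs => ?_)
      rw [HU_gaps (by have := (Finset.mem_Ioc.mp hs).1; omega)]
    have h3 := HU_sum h hij.le hj
    have h4 := HU_nov h hij hj hov
    rw [max_eq_right (by linarith)] at h3
    unfold short
    rw [if_pos hin]
    linarith
  · have hsub : (Finset.range m).filter (fun s => HU_hop κ s i j)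
        ⊆ {0} ∪ (Finset.Ioc 0 i ∪ Finset.Ioc j (m - 1)) := by
      intro s hs
      rw [Finset.mem_filter] at hs
      have h1 := hs.2.2
      rw [hmax, hmin] at h1
      have h2 := h1 hin
      have h3 := Finset.mem_range.mp hs.1
      rw [Finset.mem_union, Finset.mem_union, Finset.mem_singleton, Finset.mem_Ioc,
        Finset.mem_Ioc]
      omega
    have h1 : ∑ s ∈ (Finset.range m).filter (fun s => HU_hop κ s i j), max 0 (gap κ α m s)
        ≤ ∑ s ∈ {0} ∪ (Finset.Ioc 0 i ∪ Finset.Ioc j (m - 1)), max 0 (gap κ α m s) :=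
      Finset.sum_le_sum_of_subset_of_nonneg hsub (fun s _ _ => hG s)
    have h2 := HU_union {0} (Finset.Ioc 0 i ∪ Finset.Ioc j (m - 1))
      (fun s => max 0 (gap κ α m s)) hG
    have h3 := HU_union (Finset.Ioc 0 i) (Finset.Ioc j (m - 1))
      (fun s => max 0 (gap κ α m s)) hG
    have e : ∀ a b : ℕ, ∑ s ∈ Finset.Ioc a b, max 0 (gap κ α m s)
        = ∑ s ∈ Finset.Ioc a b, max 0 (Lf κ α s - Rt κ α (s - 1)) := by
      intro a b
      refine Finset.sum_congr rfl (fun s hs => ?_)
      rw [HU_gaps (by have := (Finset.mem_Ioc.mp hs).1; omega)]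
    have h4 := HU_sum h (Nat.zero_le i) (by omega)
    have h5 := HU_sum h (show j ≤ m - 1 by omega) (by omega)
    simp only [e, Finset.sum_singleton, HU_gap0] at h2 h3
    have h6 : max 0 (Lf κ α i - Rt κ α 0) ≤ Lf κ α i - Lf κ α 0 := by
      have a := HU_LR h (show 0 < m by omega)
      have b := HU_Lmono h (Nat.zero_le i) (by omega)
      exact max_le (by linarith) (by linarith)
    have h7 : max 0 (Lf κ α (m - 1) - Rt κ α j) ≤ Rt κ α (m - 1) - Rt κ α j := by
      have a := HU_LR h (show m - 1 < m by omega)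
      have b := HU_Rmono h (show j ≤ m - 1 by omega) (by omega)
      exact max_le (by linarith) (by linarith)
    rw [max_eq_right (by linarith : (0 : ℝ) ≤ Lf κ α 0 + 2 * Real.pi - Rt κ α (m - 1))] at h2
    unfold short
    rw [if_neg hin]
    linarith

theorem HU_exc (hPI : Stmt_PI) {m : ℕ} {κ α : ℕ → ℝ} (h : Chain m κ α)
    (hw : Rt κ α (m - 1) < Lf κ α 0 + 2 * Real.pi) {i j : ℕ} (hij : i < j) (hj : j < m)
    (hov : ¬ ov κ α i j) : 0 ≤ short κ α i j ∧ short κ α i j / 2 ≤ exc κ α i j := by
  have hi : i < m := by omega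
  have h4 := HU_nov h hij hj hov
  have hRm := HU_Rmono h (show j ≤ m - 1 by omega) (by omega)
  have hL0 := HU_Lmono h (Nat.zero_le i) hi
  unfold exc
  rw [if_neg hov]
  unfold short
  by_cases hin : κ j - κ i ≤ Real.pi
  · rw [if_pos hin]
    have h5 := hPI (κ i) (κ j) (α i) (α j) (κ j - κ i) (h.α0 i hi) (h.α1 i hi) (h.α0 j hj)
      (h.α1 j hj) rfl (by unfold Lf Rt at h4; linarith) hin
    unfold Lf Rt at h4 ⊢
    unfold dd
    constructor
    · linarith
    · linarith
  · rw [if_neg hin]
    have h5 := hPI (κ i) (κ j) (α i) (α j) (2 * Real.pi - (κ j - κ i)) (h.α0 i hi) (h.α1 i hi)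
      (h.α0 j hj) (h.α1 j hj) (Real.cos_two_pi_sub _)
      (by unfold Lf Rt at *; linarith) (by linarith)
    unfold Lf Rt at *
    unfold dd
    constructor
    · linarith
    · linarith

/-! ### The measure of the union of the caps -/

/-- the union of the caps -/
def HU_S (κ α : ℕ → ℝ) (m : ℕ) : Set ℝ := {x | ∃ i, i < m ∧ Lf κ α i ≤ x ∧ x ≤ Rt κ α i}

theorem HU_U {m : ℕ} {κ α : ℕ → ℝ} {p : List ℕ} (hv : Visits m p) :
    U κ α p = (volume (HU_S κ α m)).toReal := by
  unfold U
  have : (⋃ i ∈ p, Icc (Lf κ α i) (Rt κ α i)) = HU_S κ α m := by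
    ext x
    simp only [Set.mem_iUnion, Set.mem_Icc, HU_S, Set.mem_ofPred_eq, exists_prop]
    constructor
    · rintro ⟨i, hi, h⟩
      exact ⟨i, (hv.2 i).mp hi, h⟩
    · rintro ⟨i, hi, h⟩
      exact ⟨i, (hv.2 i).mpr hi, h⟩
  rw [this]

theorem HU_fin {m : ℕ} {κ α : ℕ → ℝ} (h : Chain m κ α) : volume (HU_S κ α m) ≠ ⊤ := by
  have hsub : HU_S κ α m ⊆ Icc (Lf κ α 0) (Rt κ α (m - 1)) := by
    rintro x ⟨i, hi, h1, h2⟩
    have a := HU_Lmono h (Nat.zero_le i) hi
    have b := HU_Rmono h (show i ≤ m - 1 by omega) (by omega)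
    exact ⟨by linarith, by linarith⟩
  have := measure_mono (μ := volume) hsub
  rw [Real.volume_Icc] at this
  exact ne_top_of_le_ne_top ENNReal.ofReal_ne_top this

theorem HU_cover {m : ℕ} {κ α : ℕ → ℝ} {x : ℝ} (hx : Lf κ α 0 ≤ x) :
    ∀ n, n < m → x ∈ HU_S κ α m ∨ (∃ t, t < n ∧ Rt κ α t < x ∧ x < Lf κ α (t + 1)) ∨
      Rt κ α n < x := by
  intro n
  induction n with
  | zero =>
    intro hn
    by_cases h1 : x ≤ Rt κ α 0
    · exact Or.inl ⟨0, hn, hx, h1⟩
    · exact Or.inr (Or.inr (not_le.mp h1))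
  | succ n ih =>
    intro hn
    rcases ih (by omega) with h1 | ⟨t, ht, h1⟩ | h1
    · exact Or.inl h1
    · exact Or.inr (Or.inl ⟨t, by omega, h1⟩)
    · by_cases h2 : x < Lf κ α (n + 1)
      · exact Or.inr (Or.inl ⟨n, by omega, h1, h2⟩)
      · by_cases h3 : x ≤ Rt κ α (n + 1)
        · exact Or.inl ⟨n + 1, hn, not_lt.mp h2, h3⟩
        · exact Or.inr (Or.inr (not_le.mp h3))

theorem HU_total {m : ℕ} {κ α : ℕ → ℝ} (hm : 0 < m) (h : Chain m κ α)
    (hw : Rt κ α (m - 1) < Lf κ α 0 + 2 * Real.pi) :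
    2 * Real.pi ≤ (volume (HU_S κ α m)).toReal +
      ∑ s ∈ Finset.range m, max 0 (gap κ α m s) := by
  obtain ⟨n, rfl⟩ : ∃ n, m = n + 1 := ⟨m - 1, by omega⟩
  rw [Finset.sum_range_succ']
  have hn1 : n + 1 - 1 = n := by omega
  rw [hn1] at hw
  have h0 : max 0 (gap κ α (n + 1) 0) = Lf κ α 0 + 2 * Real.pi - Rt κ α n := by
    rw [HU_gap0, hn1]
    exact max_eq_right (by linarith)
  rw [h0]
  have h1 : ∀ t ∈ Finset.range n, max 0 (gap κ α (n + 1) (t + 1))
      = (ENNReal.ofReal (Lf κ α (t + 1) - Rt κ α t)).toReal := by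
    intro t _
    rw [HU_gaps (by omega), ENNReal.toReal_ofReal', max_comm]
    rfl
  rw [Finset.sum_congr rfl h1]
  have hsub : Icc (Lf κ α 0) (Rt κ α n) ⊆ HU_S κ α (n + 1) ∪
      ⋃ t ∈ Finset.range n, Ioo (Rt κ α t) (Lf κ α (t + 1)) := by
    rintro x ⟨hx1, hx2⟩
    rcases HU_cover (m := n + 1) hx1 n (by omega) with h2 | ⟨t, ht, h2, h3⟩ | h2
    · exact Or.inl h2
    · right
      simp only [Set.mem_iUnion, exists_prop]
      exact ⟨t, Finset.mem_range.mpr ht, h2, h3⟩
    · exact absurd hx2 (not_le.mpr h2)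
  have h2 : ENNReal.ofReal (Rt κ α n - Lf κ α 0) ≤ volume (HU_S κ α (n + 1)) +
      ∑ t ∈ Finset.range n, ENNReal.ofReal (Lf κ α (t + 1) - Rt κ α t) := by
    rw [← Real.volume_Icc]
    refine (measure_mono hsub).trans ((measure_union_le _ _).trans ?_)
    gcongr
    refine (measure_biUnion_finset_le _ _).trans ?_
    refine Finset.sum_le_sum (fun t _ => ?_)
    rw [Real.volume_Ioo]
  have hfin := HU_fin h
  have hfs : ∑ t ∈ Finset.range n, ENNReal.ofReal (Lf κ α (t + 1) - Rt κ α t) ≠ ⊤ :=
    ENNReal.sum_ne_top.mpr (fun t _ => ENNReal.ofReal_ne_top)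
  have h3 := ENNReal.toReal_mono (ENNReal.add_ne_top.mpr ⟨hfin, hfs⟩) h2
  rw [ENNReal.toReal_add hfin hfs, ENNReal.toReal_sum (fun t _ => ENNReal.ofReal_ne_top),
    ENNReal.toReal_ofReal'] at h3
  have h4 := le_max_left (Rt κ α n - Lf κ α 0) 0
  linarith

/-! ### The saving -/

theorem HU_sf {x : ℝ} (h0 : 0 ≤ x) (h1 : x < Real.pi / 2) : sf x ≤ s0 := by
  obtain ⟨z, rfl⟩ : ∃ z, x = Real.pi / 4 + z := ⟨x - Real.pi / 4, by ring⟩
  have hpi := Real.pi_pos
  have hz1 : -(Real.pi / 4) ≤ z := by linarith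
  have hz2 : z < Real.pi / 4 := by linarith
  have key : z * (Real.cos z - Real.sin z) ≤ Real.sin z := by
    rcases le_total 0 z with hz | hz
    · have ht := Real.le_tan hz (by linarith)
      have hc : 0 < Real.cos z := Real.cos_pos_of_mem_Ioo ⟨by linarith, by linarith⟩
      rw [Real.tan_eq_sin_div_cos, le_div_iff₀ hc] at ht
      have hs : 0 ≤ Real.sin z := Real.sin_nonneg_of_nonneg_of_le_pi hz (by linarith)
      have := mul_nonneg hz hs
      nlinarith
    · obtain ⟨v, rfl⟩ : ∃ v, z = -v := ⟨-z, by ring⟩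
      have hv : 0 ≤ v := by linarith
      rw [Real.cos_neg, Real.sin_neg]
      have hc : 0 ≤ Real.cos v := Real.cos_nonneg_of_mem_Icc ⟨by linarith, by linarith⟩
      have hs : 0 ≤ Real.sin v := Real.sin_nonneg_of_nonneg_of_le_pi hv (by linarith)
      have hs1 := Real.sin_le hv
      have hc1 := Real.cos_le_one v
      have hs2 := Real.sin_le_one v
      have hsq := Real.sin_sq_add_cos_sq v
      have h2 : 1 ≤ Real.cos v + Real.sin v := by nlinarith
      have h3 : v * 1 ≤ v * (Real.cos v + Real.sin v) := mul_le_mul_of_nonneg_left h2 hv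
      nlinarith
  have hcx : 0 < Real.cos (Real.pi / 4 + z) :=
    Real.cos_pos_of_mem_Ioo ⟨by linarith, by linarith⟩
  unfold sf s0
  have h3 : 1 + 2 * z ≤ Real.tan (Real.pi / 4 + z) := by
    rw [Real.tan_eq_sin_div_cos, le_div_iff₀ hcx, Real.cos_add, Real.sin_add,
      Real.cos_pi_div_four, Real.sin_pi_div_four]
    have hr : 0 < Real.sqrt 2 / 2 := by positivity
    have h4 : (1 + 2 * z) * (Real.cos z - Real.sin z) ≤ Real.cos z + Real.sin z := by
      nlinarith
    have h5 := mul_le_mul_of_nonneg_left h4 hr.le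
    nlinarith
  linarith

/-! ### Rotation of the window -/

/-- new index of an old vertex -/
def HU_sig (m s i : ℕ) : ℕ := if s ≤ i then i - s else i + m - s

/-- the centres of the rotated chain -/
def HU_k (κ : ℕ → ℝ) (m s i : ℕ) : ℝ :=
  if i < m - s then κ (i + s) else κ (i + s - m) + 2 * Real.pi

/-- the half-angles of the rotated chain -/
def HU_a (α : ℕ → ℝ) (m s i : ℕ) : ℝ := if i < m - s then α (i + s) else α (i + s - m)

theorem HU_L1 {κ α : ℕ → ℝ} {m s i : ℕ} (hi : i < m - s) :
    Lf (HU_k κ m s) (HU_a α m s) i = Lf κ α (i + s) := by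
  unfold Lf HU_k HU_a
  rw [if_pos hi, if_pos hi]

theorem HU_R1 {κ α : ℕ → ℝ} {m s i : ℕ} (hi : i < m - s) :
    Rt (HU_k κ m s) (HU_a α m s) i = Rt κ α (i + s) := by
  unfold Rt HU_k HU_a
  rw [if_pos hi, if_pos hi]

theorem HU_L2 {κ α : ℕ → ℝ} {m s i : ℕ} (hi : ¬ i < m - s) :
    Lf (HU_k κ m s) (HU_a α m s) i = Lf κ α (i + s - m) + 2 * Real.pi := by
  unfold Lf HU_k HU_a
  rw [if_neg hi, if_neg hi]
  ring

theorem HU_R2 {κ α : ℕ → ℝ} {m s i : ℕ} (hi : ¬ i < m - s) :
    Rt (HU_k κ m s) (HU_a α m s) i = Rt κ α (i + s - m) + 2 * Real.pi := by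
  unfold Rt HU_k HU_a
  rw [if_neg hi, if_neg hi]
  ring

theorem HU_chain {m : ℕ} {κ α : ℕ → ℝ} (h : Chain m κ α)
    (hw : Rt κ α (m - 1) < Lf κ α 0 + 2 * Real.pi) {s : ℕ} (hs0 : 0 < s) (hs : s < m) :
    Chain m (HU_k κ m s) (HU_a α m s) := by
  have hLR0 := HU_LR h (show 0 < m by omega)
  have hLRm := HU_LR h (show m - 1 < m by omega)
  refine ⟨?_, ?_, ?_, ?_, ?_⟩
  · intro i hi
    unfold HU_a
    split_ifs with h1
    · exact h.α0 _ (by omega)
    · exact h.α0 _ (by omega)
  · intro i hi
    unfold HU_a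
    split_ifs with h1
    · exact h.α1 _ (by omega)
    · exact h.α1 _ (by omega)
  · intro i hi
    by_cases h1 : i + 1 < m - s
    · rw [HU_L1 (show i < m - s by omega), HU_L1 h1]
      have := h.l (i + s) (by omega)
      rwa [show i + s + 1 = i + 1 + s by omega] at this
    · rw [HU_L2 h1]
      by_cases h2 : i < m - s
      · rw [HU_L1 h2, show i + s = m - 1 by omega, show i + 1 + s - m = 0 by omega]
        linarith
      · rw [HU_L2 h2]
        have := h.l (i + s - m) (by omega)
        rw [show i + s - m + 1 = i + 1 + s - m by omega] at this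
        linarith
  · intro i hi
    by_cases h1 : i + 1 < m - s
    · rw [HU_R1 (show i < m - s by omega), HU_R1 h1]
      have := h.r (i + s) (by omega)
      rwa [show i + s + 1 = i + 1 + s by omega] at this
    · rw [HU_R2 h1]
      by_cases h2 : i < m - s
      · rw [HU_R1 h2, show i + s = m - 1 by omega, show i + 1 + s - m = 0 by omega]
        linarith
      · rw [HU_R2 h2]
        have := h.r (i + s - m) (by omega)
        rw [show i + s - m + 1 = i + 1 + s - m by omega] at this
        linarith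
  · intro i hi
    by_cases h1 : i + 2 < m - s
    · rw [HU_R1 (show i < m - s by omega), HU_L1 h1]
      have := h.sep (i + s) (by omega)
      rwa [show i + s + 2 = i + 2 + s by omega] at this
    · rw [HU_L2 h1]
      by_cases h2 : i < m - s
      · rw [HU_R1 h2]
        have a := HU_Rmono h (show i + s ≤ m - 1 by omega) (by omega)
        have b := HU_Lmono h (Nat.zero_le (i + 2 + s - m)) (by omega)
        linarith
      · rw [HU_R2 h2]
        have := h.sep (i + s - m) (by omega)
        rw [show i + s - m + 2 = i + 2 + s - m by omega] at this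
        linarith

theorem HU_sig_lt {m s i : ℕ} (hs : s < m) (hs0 : 0 < s) (hi : i < m) : HU_sig m s i < m := by
  unfold HU_sig
  split_ifs with h
  · omega
  · omega

theorem HU_sigL1 {κ α : ℕ → ℝ} {m s i : ℕ} (h1 : s ≤ i) (hi : i < m) :
    Lf (HU_k κ m s) (HU_a α m s) (HU_sig m s i) = Lf κ α i := by
  have : HU_sig m s i = i - s := by unfold HU_sig; rw [if_pos h1]
  rw [this, HU_L1 (by omega), show i - s + s = i by omega]

theorem HU_sigR1 {κ α : ℕ → ℝ} {m s i : ℕ} (h1 : s ≤ i) (hi : i < m) :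
    Rt (HU_k κ m s) (HU_a α m s) (HU_sig m s i) = Rt κ α i := by
  have : HU_sig m s i = i - s := by unfold HU_sig; rw [if_pos h1]
  rw [this, HU_R1 (by omega), show i - s + s = i by omega]

theorem HU_sigL2 {κ α : ℕ → ℝ} {m s i : ℕ} (h1 : i < s) (hs : s < m) :
    Lf (HU_k κ m s) (HU_a α m s) (HU_sig m s i) = Lf κ α i + 2 * Real.pi := by
  have : HU_sig m s i = i + m - s := by unfold HU_sig; rw [if_neg (by omega)]
  rw [this, HU_L2 (by omega), show i + m - s + s - m = i by omega]

theorem HU_sigR2 {κ α : ℕ → ℝ} {m s i : ℕ} (h1 : i < s) (hs : s < m) :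
    Rt (HU_k κ m s) (HU_a α m s) (HU_sig m s i) = Rt κ α i + 2 * Real.pi := by
  have : HU_sig m s i = i + m - s := by unfold HU_sig; rw [if_neg (by omega)]
  rw [this, HU_R2 (by omega), show i + m - s + s - m = i by omega]

theorem HU_sigV {κ α : ℕ → ℝ} {m s i : ℕ} (hs : s < m) (hi : i < m) :
    V (HU_k κ m s (HU_sig m s i)) (HU_a α m s (HU_sig m s i)) = V (κ i) (α i) ∧
      HU_a α m s (HU_sig m s i) = α i := by
  by_cases h1 : s ≤ i
  · have h2 : HU_sig m s i = i - s := by unfold HU_sig; rw [if_pos h1]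
    have h3 : HU_k κ m s (HU_sig m s i) = κ i := by
      rw [h2]
      unfold HU_k
      rw [if_pos (by omega), show i - s + s = i by omega]
    have h4 : HU_a α m s (HU_sig m s i) = α i := by
      rw [h2]
      unfold HU_a
      rw [if_pos (by omega), show i - s + s = i by omega]
    rw [h3, h4]
    exact ⟨rfl, rfl⟩
  · have h2 : HU_sig m s i = i + m - s := by unfold HU_sig; rw [if_neg h1]
    have h3 : HU_k κ m s (HU_sig m s i) = κ i + 2 * Real.pi := by
      rw [h2]
      unfold HU_k
      rw [if_neg (by omega), show i + m - s + s - m = i by omega]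
    have h4 : HU_a α m s (HU_sig m s i) = α i := by
      rw [h2]
      unfold HU_a
      rw [if_neg (by omega), show i + m - s + s - m = i by omega]
    rw [h3, h4]
    refine ⟨?_, rfl⟩
    unfold V
    rw [Real.cos_add_two_pi, Real.sin_add_two_pi]

/-- overlapping neighbours are the same before and after the rotation -/
theorem HU_ov1 {m : ℕ} {κ α : ℕ → ℝ} (h : Chain m κ α)
    (hw : Rt κ α (m - 1) < Lf κ α 0 + 2 * Real.pi) {s : ℕ} (hs0 : 0 < s) (hs : s < m)
    (hg : Rt κ α (s - 1) < Lf κ α s) {i j : ℕ} (hij : i < j) (hj : j < m) :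
    (ov (HU_k κ m s) (HU_a α m s) (HU_sig m s i) (HU_sig m s j) ↔ ov κ α i j) := by
  have hi : i < m := by omega
  by_cases h1 : s ≤ i
  · have e1 : HU_sig m s i = i - s := by unfold HU_sig; rw [if_pos h1]
    have e2 : HU_sig m s j = j - s := by unfold HU_sig; rw [if_pos (by omega)]
    unfold ov
    rw [HU_sigL1 h1 hi, HU_sigR1 h1 hi, HU_sigL1 (show s ≤ j by omega) hj,
      HU_sigR1 (show s ≤ j by omega) hj, e1, e2]
    constructor
    · rintro (⟨a, b⟩ | ⟨a, b⟩)
      · exact Or.inl ⟨by omega, b⟩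
      · omega
    · rintro (⟨a, b⟩ | ⟨a, b⟩)
      · exact Or.inl ⟨by omega, b⟩
      · omega
  · by_cases h2 : s ≤ j
    · have e1 : HU_sig m s i = i + m - s := by unfold HU_sig; rw [if_neg h1]
      have e2 : HU_sig m s j = j - s := by unfold HU_sig; rw [if_pos h2]
      unfold ov
      rw [HU_sigL2 (show i < s by omega) hs, HU_sigR2 (show i < s by omega) hs,
        HU_sigL1 h2 hj, HU_sigR1 h2 hj, e1, e2]
      have a1 := HU_Rmono h (show j ≤ m - 1 by omega) (by omega)
      have a2 := HU_Lmono h (Nat.zero_le i) hi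
      constructor
      · rintro (⟨a, b⟩ | ⟨a, b⟩)
        · omega
        · exfalso
          linarith
      · rintro (⟨a, b⟩ | ⟨a, b⟩)
        · exfalso
          have e3 : j = s := by omega
          have e4 : i = s - 1 := by omega
          rw [e3, e4] at b
          linarith
        · omega
    · have e1 : HU_sig m s i = i + m - s := by unfold HU_sig; rw [if_neg h1]
      have e2 : HU_sig m s j = j + m - s := by unfold HU_sig; rw [if_neg h2]
      unfold ov
      rw [HU_sigL2 (show i < s by omega) hs, HU_sigR2 (show i < s by omega) hs,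
        HU_sigL2 (show j < s by omega) hs, HU_sigR2 (show j < s by omega) hs, e1, e2]
      constructor
      · rintro (⟨a, b⟩ | ⟨a, b⟩)
        · exact Or.inl ⟨by omega, by linarith⟩
        · omega
      · rintro (⟨a, b⟩ | ⟨a, b⟩)
        · exact Or.inl ⟨by omega, by linarith⟩
        · omega

theorem HU_ov2 {m : ℕ} {κ α : ℕ → ℝ} (h : Chain m κ α)
    (hw : Rt κ α (m - 1) < Lf κ α 0 + 2 * Real.pi) {s : ℕ} (hs0 : 0 < s) (hs : s < m)
    (hg : Rt κ α (s - 1) < Lf κ α s) {i j : ℕ} (hij : i ≠ j) (hi : i < m) (hj : j < m) :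
    (ov (HU_k κ m s) (HU_a α m s) (HU_sig m s i) (HU_sig m s j) ↔ ov κ α i j) := by
  rcases lt_or_gt_of_ne hij with h1 | h1
  · exact HU_ov1 h hw hs0 hs hg h1 hj
  · rw [HU_ovc, HU_ovc (i := i)]
    exact HU_ov1 h hw hs0 hs hg h1 hi

theorem HU_dd2 {m : ℕ} {κ α : ℕ → ℝ} {s : ℕ} (hs : s < m) {i j : ℕ} (hi : i < m) (hj : j < m) :
    dd (HU_k κ m s) (HU_a α m s) (HU_sig m s i) (HU_sig m s j) = dd κ α i j := by
  unfold dd
  rw [(HU_sigV (κ := κ) (α := α) hs hi).1, (HU_sigV (κ := κ) (α := α) hs hj).1]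

theorem HU_exc2 {m : ℕ} {κ α : ℕ → ℝ} (h : Chain m κ α)
    (hw : Rt κ α (m - 1) < Lf κ α 0 + 2 * Real.pi) {s : ℕ} (hs0 : 0 < s) (hs : s < m)
    (hg : Rt κ α (s - 1) < Lf κ α s) {i j : ℕ} (hij : i ≠ j) (hi : i < m) (hj : j < m) :
    exc (HU_k κ m s) (HU_a α m s) (HU_sig m s i) (HU_sig m s j) = exc κ α i j := by
  have h1 := HU_ov2 h hw hs0 hs hg hij hi hj
  unfold exc
  by_cases h2 : ov κ α i j
  · rw [if_pos h2, if_pos (h1.mpr h2)]
  · rw [if_neg h2, if_neg (fun hh => h2 (h1.mp hh)), HU_dd2 hs hi hj,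
      (HU_sigV (κ := κ) (α := α) hs hi).2, (HU_sigV (κ := κ) (α := α) hs hj).2]

theorem HU_vis {m : ℕ} {p : List ℕ} (hv : Visits m p) {s : ℕ} (hs0 : 0 < s) (hs : s < m) :
    Visits m (p.map (HU_sig m s)) := by
  constructor
  · refine List.Nodup.map_on ?_ hv.1
    intro x hx y hy hxy
    have hx' := (hv.2 x).mp hx
    have hy' := (hv.2 y).mp hy
    unfold HU_sig at hxy
    split_ifs at hxy <;> omega
  · intro i
    rw [List.mem_map]
    constructor
    · rintro ⟨j, hj, rfl⟩
      exact HU_sig_lt hs hs0 ((hv.2 j).mp hj)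
    · intro hi
      by_cases h1 : i < m - s
      · refine ⟨i + s, (hv.2 _).mpr (by omega), ?_⟩
        unfold HU_sig
        rw [if_pos (by omega)]
        omega
      · refine ⟨i + s - m, (hv.2 _).mpr (by omega), ?_⟩
        unfold HU_sig
        rw [if_neg (by omega)]
        omega

theorem HU_vol {m : ℕ} {κ α : ℕ → ℝ} (h : Chain m κ α)
    (hw : Rt κ α (m - 1) < Lf κ α 0 + 2 * Real.pi) {s : ℕ} (hs0 : 0 < s) (hs : s < m) :
    (volume (HU_S κ α m)).toReal ≤ (volume (HU_S (HU_k κ m s) (HU_a α m s) m)).toReal := by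
  have hc := HU_chain h hw hs0 hs
  refine ENNReal.toReal_mono (HU_fin hc) ?_
  have hX : HU_S κ α m ⊆ {x | ∃ i, i < s ∧ Lf κ α i ≤ x ∧ x ≤ Rt κ α i} ∪
      {x | ∃ i, s ≤ i ∧ i < m ∧ Lf κ α i ≤ x ∧ x ≤ Rt κ α i} := by
    rintro x ⟨i, hi, h1⟩
    by_cases h2 : i < s
    · exact Or.inl ⟨i, h2, h1⟩
    · exact Or.inr ⟨i, by omega, hi, h1⟩
  refine (measure_mono hX).trans ((measure_union_le _ _).trans ?_)
  rw [← measure_inter_add_sdiff (HU_S (HU_k κ m s) (HU_a α m s) m)
    (measurableSet_Iic (a := Rt κ α (m - 1))), add_comm]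
  refine add_le_add ?_ ?_
  · refine measure_mono ?_
    rintro x ⟨i, h1, h2, h3, h4⟩
    refine ⟨⟨HU_sig m s i, HU_sig_lt hs hs0 h2, ?_, ?_⟩, ?_⟩
    · rw [HU_sigL1 h1 h2]
      exact h3
    · rw [HU_sigR1 h1 h2]
      exact h4
    · have := HU_Rmono h (show i ≤ m - 1 by omega) (by omega)
      show x ≤ Rt κ α (m - 1)
      linarith
  · rw [← measure_preimage_add_right volume (-(2 * Real.pi))
      {x | ∃ i, i < s ∧ Lf κ α i ≤ x ∧ x ≤ Rt κ α i}]
    refine measure_mono ?_
    rintro x ⟨i, h1, h2, h3⟩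
    have h2' : Lf κ α i ≤ x + -(2 * Real.pi) := h2
    have h3' : x + -(2 * Real.pi) ≤ Rt κ α i := h3
    refine ⟨⟨HU_sig m s i, HU_sig_lt hs hs0 (by omega), ?_, ?_⟩, ?_⟩
    · rw [HU_sigL2 h1 hs]
      linarith
    · rw [HU_sigR2 h1 hs]
      linarith
    · intro hx
      have hx' : x ≤ Rt κ α (m - 1) := hx
      have := HU_Lmono h (Nat.zero_le i) (by omega)
      linarith

/-! ### Assembly -/

theorem HU_len {m : ℕ} {p : List ℕ} (hv : Visits m p) : p.length = m := by
  have h1 : p.toFinset = Finset.range m := by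
    ext i
    rw [List.mem_toFinset, Finset.mem_range]
    exact hv.2 i
  rw [← List.toFinset_card_of_nodup hv.1, h1, Finset.card_range]

/-- lower bound of the excess of a pair -/
theorem HU_exc3 (hPI : Stmt_PI) {m : ℕ} {κ α : ℕ → ℝ} (h : Chain m κ α)
    (hw : Rt κ α (m - 1) < Lf κ α 0 + 2 * Real.pi) {i j : ℕ} (hij : i ≠ j) (hi : i < m)
    (hj : j < m) (hov : ¬ ov κ α i j) :
    short κ α (min i j) (max i j) / 2 ≤ exc κ α i j := by
  rcases lt_or_gt_of_ne hij with h1 | h1
  · rw [min_eq_left h1.le, max_eq_right h1.le]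
    exact (HU_exc hPI h hw h1 hj hov).2
  · rw [min_eq_right h1.le, max_eq_left h1.le, HU_excc]
    exact (HU_exc hPI h hw h1 hi (fun hh => hov (HU_ovc.mpr hh))).2

theorem HU_hopc {κ : ℕ → ℝ} {s i j : ℕ} : HU_hop κ s i j ↔ HU_hop κ s j i := by
  unfold HU_hop
  rw [max_comm, min_comm]

open Classical in
theorem HU_short3 {m : ℕ} {κ α : ℕ → ℝ} (h : Chain m κ α)
    (hw : Rt κ α (m - 1) < Lf κ α 0 + 2 * Real.pi) {i j : ℕ} (hij : i ≠ j) (hi : i < m)
    (hj : j < m) (hov : ¬ ov κ α i j) :
    ∑ s ∈ Finset.range m, (if HU_hop κ s i j then max 0 (gap κ α m s) else 0)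
      ≤ short κ α (min i j) (max i j) := by
  rcases lt_or_gt_of_ne hij with h1 | h1
  · rw [min_eq_left h1.le, max_eq_right h1.le]
    exact HU_short h hw h1 hj hov
  · rw [min_eq_right h1.le, max_eq_left h1.le]
    have h2 := HU_short h hw h1 hi (fun hh => hov (HU_ovc.mpr hh))
    refine le_trans (le_of_eq ?_) h2
    refine Finset.sum_congr rfl (fun s _ => ?_)
    by_cases h3 : HU_hop κ s i j
    · rw [if_pos h3, if_pos (HU_hopc.mp h3)]
    · rw [if_neg h3, if_neg (fun hh => h3 (HU_hopc.mpr hh))]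

open Classical in
theorem p_HU (hPI : Stmt_PI) (hCP : Stmt_CP) (hLA : Stmt_LA) : Stmt_HU := by
  intro m κ α p η h hw hv hm2 hη
  have hm : 2 ≤ m := by omega
  have hlen := HU_len hv
  have hpm : ∀ i ∈ p, i < m := fun i hi => (hv.2 i).mp hi
  have hbase := HU_cons_base m p hv.1 hpm
  have hne : p ≠ [] := by
    intro h1
    rw [h1] at hlen
    simp at hlen
    omega
  obtain ⟨f, hf⟩ : ∃ f, p.head? = some f := ⟨p.head hne, List.head?_eq_some_head hne⟩
  obtain ⟨l, hl⟩ : ∃ l, p.getLast? = some l := ⟨p.getLast hne, List.getLast?_eq_some_getLast hne⟩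
  have hfp : f ∈ p := List.mem_of_mem_head? hf
  have hlp : l ∈ p := List.mem_of_mem_getLast? hl
  have hfm := hpm f hfp
  have hlm := hpm l hlp
  have h2nov : p.length = 2 → ¬ ov κ α f l := by
    intro hl2 hov
    have e : m = 2 := by omega
    have hR : Rt κ α 0 < Lf κ α 1 := by
      rcases hm2 with h3 | h3
      · omega
      · exact h3.2
    rcases hov with ⟨a, b⟩ | ⟨a, b⟩
    · have e1 : f = 0 := by omega
      have e2 : l = 1 := by omega
      rw [e1, e2] at b
      linarith
    · have e1 : l = 0 := by omega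
      have e2 : f = 1 := by omega
      rw [e1, e2] at b
      linarith
  by_cases hall : ∀ s, s < m → 0 < gap κ α m s →
      Some2 (fun i j => ¬ ov κ α i j ∧ HU_hop κ s i j) p
  · left
    have hcp := hCP m κ α p f l h hv.1 hpm hf hl (by omega) h2nov
    have hsf := HU_sf (h.α0 f hfm) (h.α1 f hfm)
    have hsl := HU_sf (h.α0 l hlm) (h.α1 l hlm)
    have htot := HU_total (show 0 < m by omega) h hw
    rw [← HU_U hv] at htot
    -- the sum over the pairs
    have hT : psum (fun i j => ∑ s ∈ Finset.range m,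
        (if ¬ ov κ α i j ∧ HU_hop κ s i j then max 0 (gap κ α m s) / 2 else 0)) p + η
        ≤ psum (exc κ α) p := by
      have hcons : Cons (fun i j => (∑ s ∈ Finset.range m,
          (if ¬ ov κ α i j ∧ HU_hop κ s i j then max 0 (gap κ α m s) / 2 else 0))
          ≤ exc κ α i j ∧ (¬ ov κ α i j → (∑ s ∈ Finset.range m,
          (if ¬ ov κ α i j ∧ HU_hop κ s i j then max 0 (gap κ α m s) / 2 else 0))
          ≤ short κ α (min i j) (max i j) / 2)) p := by
        refine HU_cons_mono ?_ p hbase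
        rintro i j ⟨hi, hj, hij⟩
        by_cases hov : ov κ α i j
        · constructor
          · have e1 : exc κ α i j = 0 := by
              unfold exc
              rw [if_pos hov]
            rw [e1]
            refine le_of_eq (Finset.sum_eq_zero (fun s _ => ?_))
            rw [if_neg (fun hh => hh.1 hov)]
          · intro h3
            exact absurd hov h3
        · have h3 := HU_short3 h hw hij hi hj hov
          have h4 := HU_exc3 hPI h hw hij hi hj hov
          have h5 : (∑ s ∈ Finset.range m,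
              (if ¬ ov κ α i j ∧ HU_hop κ s i j then max 0 (gap κ α m s) / 2 else 0))
              = (∑ s ∈ Finset.range m,
              (if HU_hop κ s i j then max 0 (gap κ α m s) else 0)) / 2 := by
            rw [Finset.sum_div]
            refine Finset.sum_congr rfl (fun s _ => ?_)
            by_cases h6 : HU_hop κ s i j
            · rw [if_pos ⟨hov, h6⟩, if_pos h6]
            · rw [if_neg (fun hh => h6 hh.2), if_neg h6]
              ring
          rw [h5]
          constructor
          · linarith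
          · intro _
            linarith
      have hc1 := HU_cons_mono (fun i j hh => hh.1) p hcons
      rcases hη with h0 | ⟨h0, hsome⟩
      · rw [h0, add_zero]
        exact HU_psum_mono p hc1
      · refine HU_psum_some p hc1 ?_
        have h7 : ∀ q : List ℕ, Cons (fun i j => (∑ s ∈ Finset.range m,
            (if ¬ ov κ α i j ∧ HU_hop κ s i j then max 0 (gap κ α m s) / 2 else 0))
            ≤ exc κ α i j ∧ (¬ ov κ α i j → (∑ s ∈ Finset.range m,
            (if ¬ ov κ α i j ∧ HU_hop κ s i j then max 0 (gap κ α m s) / 2 else 0))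
            ≤ short κ α (min i j) (max i j) / 2)) q →
            Some2 (fun i j => ¬ ov κ α i j ∧
              short κ α (min i j) (max i j) / 2 + η ≤ exc κ α i j) q →
            Some2 (fun i j => (∑ s ∈ Finset.range m,
            (if ¬ ov κ α i j ∧ HU_hop κ s i j then max 0 (gap κ α m s) / 2 else 0)) + η
            ≤ exc κ α i j) q := by
          intro q
          induction q with
          | nil => intro _ hh; exact hh
          | cons a q ih =>
            cases q with
            | nil => intro _ hh; exact hh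
            | cons b q =>
              intro hq1 hq2
              rcases hq2 with hh | hh
              · left
                have h8 := hq1.1.2 hh.1
                have h9 := hh.2
                linarith
              · right
                exact ih hq1.2 hh
        exact h7 p hcons hsome
    rw [HU_psum_sum (Finset.range m) (fun s i j =>
      if ¬ ov κ α i j ∧ HU_hop κ s i j then max 0 (gap κ α m s) / 2 else 0)] at hT
    have hge : ∑ s ∈ Finset.range m, max 0 (gap κ α m s) / 2
        ≤ ∑ s ∈ Finset.range m, psum (fun i j =>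
          if ¬ ov κ α i j ∧ HU_hop κ s i j then max 0 (gap κ α m s) / 2 else 0) p := by
      refine Finset.sum_le_sum (fun s hs => ?_)
      have hnn : ∀ i j, 0 ≤ (if ¬ ov κ α i j ∧ HU_hop κ s i j
          then max 0 (gap κ α m s) / 2 else 0) := by
        intro i j
        have := le_max_left 0 (gap κ α m s)
        split_ifs
        · linarith
        · exact le_refl _
      by_cases hpos : 0 < gap κ α m s
      · refine HU_psum_ge (R := fun i j => ¬ ov κ α i j ∧ HU_hop κ s i j) hnn ?_ p
          (hall s (Finset.mem_range.mp hs) hpos)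
        intro i j hR
        rw [if_pos hR]
      · have e0 : max 0 (gap κ α m s) = 0 := max_eq_left (not_lt.mp hpos)
        have := HU_psum_nn hnn p
        rw [e0] at this ⊢
        simpa using this
    rw [← Finset.sum_div] at hge
    linarith
  · right
    push Not at hall
    obtain ⟨s, hs, hg, hns⟩ := hall
    refine ⟨s, hs, hg, ?_⟩
    have hc0 := HU_cons_and p hbase (HU_not_some p hns)
    by_cases hs0 : s = 0
    · -- no outer pair
      subst hs0
      have hcons : Cons (fun i j => ov κ α i j ∨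
          (Lf κ α (max i j) - Rt κ α (min i j)) / 2 ≤ exc κ α i j) p := by
        refine HU_cons_mono ?_ p hc0
        rintro i j ⟨⟨hi, hj, hij⟩, hR⟩
        by_cases hov : ov κ α i j
        · exact Or.inl hov
        · right
          have h3 := HU_exc3 hPI h hw hij hi hj hov
          have hin : κ (max i j) - κ (min i j) ≤ Real.pi := by
            by_contra hc
            exact hR ⟨hov, fun hh => absurd hh hc, fun _ => Or.inl (Nat.zero_le _)⟩
          unfold short at h3
          rw [if_pos hin] at h3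
          exact h3
      have hla := hLA m κ α p f l 0 (m - 1) h hv.1 hpm hf hl (by omega) h2nov
        ((hv.2 0).mpr (by omega)) ((hv.2 (m - 1)).mpr (by omega))
        (fun i hi => ⟨Nat.zero_le i, by have := hpm i hi; omega⟩) hcons
      have e1 : prd m 0 = m - 1 := by
        unfold prd
        rw [if_pos rfl]
      rw [e1, HU_gap0]
      linarith
    · -- rotation
      have hs1 : 0 < s := by omega
      rw [HU_gaps hs1] at hg ⊢
      have hg' : Rt κ α (s - 1) < Lf κ α s := by linarith
      have hch := HU_chain h hw hs1 hs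
      have hvis := HU_vis hv hs1 hs
      have hcons : Cons (fun i j => ov (HU_k κ m s) (HU_a α m s) i j ∨
          (Lf (HU_k κ m s) (HU_a α m s) (max i j) - Rt (HU_k κ m s) (HU_a α m s) (min i j)) / 2
            ≤ exc (HU_k κ m s) (HU_a α m s) i j) (p.map (HU_sig m s)) := by
        refine HU_cons_map p (HU_cons_mono ?_ p hc0)
        rintro i j ⟨⟨hi, hj, hij⟩, hR⟩
        by_cases hov : ov κ α i j
        · left
          exact (HU_ov2 h hw hs1 hs hg' hij hi hj).mpr hov
        · right
          rw [HU_exc2 h hw hs1 hs hg' hij hi hj]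
          have h3 := HU_exc3 hPI h hw hij hi hj hov
          -- the ordered statement
          have hord : ∀ a b, a < b → b < m → ¬ HU_hop κ s a b →
              Lf (HU_k κ m s) (HU_a α m s) (max (HU_sig m s a) (HU_sig m s b)) -
                Rt (HU_k κ m s) (HU_a α m s) (min (HU_sig m s a) (HU_sig m s b))
              = short κ α a b := by
            intro a b hab hb hnh
            have ha : a < m := by omega
            have hmx : max a b = b := max_eq_right hab.le
            have hmn : min a b = a := min_eq_left hab.le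
            unfold HU_hop at hnh
            rw [hmx, hmn] at hnh
            by_cases h4 : s ≤ a
            · have hin : κ b - κ a ≤ Real.pi := by
                by_contra hc
                exact hnh ⟨fun hh => absurd hh hc, fun _ => Or.inl h4⟩
              have hlt : HU_sig m s a ≤ HU_sig m s b := by
                unfold HU_sig
                rw [if_pos h4, if_pos (by omega)]
                omega
              rw [max_eq_right hlt, min_eq_left hlt, HU_sigL1 (by omega) hb, HU_sigR1 h4 ha]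
              unfold short
              rw [if_pos hin]
            · by_cases h5 : s ≤ b
              · have hout : ¬ κ b - κ a ≤ Real.pi := by
                  intro hc
                  exact hnh ⟨fun _ => ⟨by omega, h5⟩, fun hh => absurd hc hh⟩
                have hlt : HU_sig m s b ≤ HU_sig m s a := by
                  unfold HU_sig
                  rw [if_neg h4, if_pos h5]
                  omega
                rw [max_eq_left hlt, min_eq_right hlt, HU_sigL2 (by omega) hs,
                  HU_sigR1 h5 hb]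
                unfold short
                rw [if_neg hout]
              · have hin : κ b - κ a ≤ Real.pi := by
                  by_contra hc
                  exact hnh ⟨fun hh => absurd hh hc, fun _ => Or.inr (by omega)⟩
                have hlt : HU_sig m s a ≤ HU_sig m s b := by
                  unfold HU_sig
                  rw [if_neg h4, if_neg h5]
                  omega
                rw [max_eq_right hlt, min_eq_left hlt, HU_sigL2 (by omega) hs,
                  HU_sigR2 (by omega) hs]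
                unfold short
                rw [if_pos hin]
                ring
          have hnh : ¬ HU_hop κ s i j := fun hh => hR ⟨hov, hh⟩
          rcases lt_or_gt_of_ne hij with h1 | h1
          · rw [hord i j h1 hj hnh]
            rwa [min_eq_left h1.le, max_eq_right h1.le] at h3
          · rw [max_comm, min_comm, hord j i h1 hi (fun hh => hnh (HU_hopc.mpr hh))]
            rwa [min_eq_right h1.le, max_eq_left h1.le] at h3
      have hpm' : ∀ i ∈ p.map (HU_sig m s), i < m := fun i hi => (hvis.2 i).mp hi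
      have hfl : (p.map (HU_sig m s)).length = 2 →
          ¬ ov (HU_k κ m s) (HU_a α m s) (HU_sig m s f) (HU_sig m s l) := by
        intro hl2
        rw [List.length_map] at hl2
        by_cases hfl : f = l
        · intro hov
          rw [hfl] at hov
          rcases hov with ⟨a, _⟩ | ⟨a, _⟩ <;> omega
        · intro hov
          exact h2nov hl2 ((HU_ov2 h hw hs1 hs hg' hfl hfm hlm).mp hov)
      have hla := hLA m (HU_k κ m s) (HU_a α m s) (p.map (HU_sig m s)) (HU_sig m s f)
        (HU_sig m s l) 0 (m - 1) hch hvis.1 hpm' (by rw [List.head?_map, hf]; rfl)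
        (by rw [List.getLast?_map, hl]; rfl) (by rw [List.length_map]; omega) hfl
        ((hvis.2 0).mpr (by omega)) ((hvis.2 (m - 1)).mpr (by omega))
        (fun i hi => ⟨Nat.zero_le i, by have := hpm' i hi; omega⟩) hcons
      have e1 : prd m s = s - 1 := by
        unfold prd
        rw [if_neg hs0]
      have e2 : HU_a α m s 0 = α s := by
        unfold HU_a
        rw [if_pos (by omega), Nat.zero_add]
      have e3 : HU_a α m s (m - 1) = α (s - 1) := by
        unfold HU_a
        rw [if_neg (by omega), show m - 1 + s - m = s - 1 by omega]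
      have e4 : Lf (HU_k κ m s) (HU_a α m s) 0 = Lf κ α s := by
        rw [HU_L1 (by omega), Nat.zero_add]
      have e5 : Rt (HU_k κ m s) (HU_a α m s) (m - 1) = Rt κ α (s - 1) + 2 * Real.pi := by
        rw [HU_R2 (by omega), show m - 1 + s - m = s - 1 by omega]
      have e6 : psum (dd (HU_k κ m s) (HU_a α m s)) (p.map (HU_sig m s)) = psum (dd κ α) p := by
        rw [HU_psum_map]
        refine le_antisymm (HU_psum_mono p ?_) (HU_psum_mono p ?_)
        · refine HU_cons_mono ?_ p hbase
          rintro i j ⟨hi, hj, _⟩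
          exact le_of_eq (HU_dd2 hs hi hj)
        · refine HU_cons_mono ?_ p hbase
          rintro i j ⟨hi, hj, _⟩
          exact le_of_eq (HU_dd2 hs hi hj).symm
      have e7 : U κ α p ≤ U (HU_k κ m s) (HU_a α m s) (p.map (HU_sig m s)) := by
        rw [HU_U hv, HU_U hvis]
        exact HU_vol h hw hs1 hs
      rw [e2, e3, e4, e5, e6] at hla
      rw [e1]
      linarith

end

end Pool.BA
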