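import Pool.Agent.Work.MP_655153_ba.CPCore

/-! # Block LA (helper17) -/

open MeasureTheory Set
open scoped ENNReal

namespace Pool.BA

noncomputable section

theorem LA_aux {m : ℕ} {κ α : ℕ → ℝ} (hC : Chain m κ α) (i : ℕ) :
    ∀ d : ℕ, i + d + 1 < m →
      Lf κ α i < Lf κ α (i + d + 1) ∧ Rt κ α i < Rt κ α (i + d + 1) := by
  intro d
  induction d with
  | zero => intro h; exact ⟨hC.l i h, hC.r i h⟩
  | succ d ih =>
    intro h
    have h1 := ih (by omega)
    have h2 := hC.l (i + d + 1) (by omega)
    have h3 := hC.r (i + d + 1) (by omega)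
    have e : i + (d + 1) + 1 = i + d + 1 + 1 := by ring
    rw [e]
    exact ⟨h1.1.trans h2, h1.2.trans h3⟩

theorem LA_lt {m : ℕ} {κ α : ℕ → ℝ} (hC : Chain m κ α) {i j : ℕ} (hij : i < j) (hj : j < m) :
    Lf κ α i < Lf κ α j ∧ Rt κ α i < Rt κ α j := by
  have h := LA_aux hC i (j - i - 1) (by omega)
  have e : i + (j - i - 1) + 1 = j := by omega
  rw [e] at h
  exact h

theorem LA_gap {m : ℕ} {κ α : ℕ → ℝ} (hC : Chain m κ α) {i j : ℕ} (hij : i < j) (hj : j < m)
    (ho : ¬ ov κ α i j) : Rt κ α i < Lf κ α j := by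
  by_cases h1 : j = i + 1
  · by_contra h2
    exact ho (Or.inl ⟨h1, not_lt.mp h2⟩)
  · by_cases h2 : j = i + 2
    · subst h2; exact hC.sep i hj
    · exact (hC.sep i (by omega)).trans (LA_lt hC (i := i + 2) (by omega) hj).1

theorem LA_fin (a b : ℕ → ℝ) : ∀ q : List ℕ, volume (⋃ i ∈ q, Icc (a i) (b i)) ≠ ⊤
  | [] => by simp
  | x :: q => by
    have h1 := LA_fin a b q
    have h2 : (⋃ i ∈ (x :: q), Icc (a i) (b i)) ⊆ Icc (a x) (b x) ∪ ⋃ i ∈ q, Icc (a i) (b i) := by
      intro t ht
      simp only [mem_iUnion] at ht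
      obtain ⟨i, hi, hti⟩ := ht
      rcases List.mem_cons.mp hi with h3 | h3
      · subst h3; exact Or.inl hti
      · exact Or.inr (by simp only [mem_iUnion]; exact ⟨i, h3, hti⟩)
    refine ne_top_of_le_ne_top ?_ ((measure_mono h2).trans (measure_union_le _ _))
    rw [Real.volume_Icc]
    exact ENNReal.add_ne_top.mpr ⟨ENNReal.ofReal_ne_top, h1⟩

/-- adding one cap to the union -/
theorem LA_cons (κ α : ℕ → ℝ) (f : ℕ) (q : List ℕ) (s t : ℝ) (hst : s ≤ t)
    (h : ∀ x, Lf κ α f ≤ x → x ≤ Rt κ α f → (s ≤ x ∧ x ≤ t) ∨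
      ∃ i ∈ q, Lf κ α i ≤ x ∧ x ≤ Rt κ α i) :
    U κ α (f :: q) ≤ U κ α q + (t - s) := by
  have h2 : (⋃ i ∈ (f :: q), Icc (Lf κ α i) (Rt κ α i)) ⊆
      Icc s t ∪ ⋃ i ∈ q, Icc (Lf κ α i) (Rt κ α i) := by
    intro x hx
    simp only [mem_iUnion] at hx
    obtain ⟨i, hi, hxi⟩ := hx
    rcases List.mem_cons.mp hi with h3 | h3
    · subst h3
      rcases h x hxi.1 hxi.2 with h4 | ⟨j, hj, h4⟩
      · exact Or.inl h4
      · exact Or.inr (by simp only [mem_iUnion]; exact ⟨j, hj, h4⟩)
    · exact Or.inr (by simp only [mem_iUnion]; exact ⟨i, h3, hxi⟩)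
  have h3 := (measure_mono (μ := volume) h2).trans (measure_union_le _ _)
  rw [Real.volume_Icc] at h3
  have h4 := ENNReal.toReal_mono (ENNReal.add_ne_top.mpr
    ⟨ENNReal.ofReal_ne_top, LA_fin (Lf κ α) (Rt κ α) q⟩) h3
  rw [ENNReal.toReal_add ENNReal.ofReal_ne_top (LA_fin (Lf κ α) (Rt κ α) q),
    ENNReal.toReal_ofReal (by linarith)] at h4
  unfold U
  linarith

/-- the hypothesis on the pairs -/
def LA_R (κ α : ℕ → ℝ) (i j : ℕ) : Prop := ov κ α i j ∨
    (Lf κ α (max i j) - Rt κ α (min i j)) / 2 ≤ exc κ α i j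

theorem LA_R_symm {κ α : ℕ → ℝ} {i j : ℕ} (h : LA_R κ α i j) : LA_R κ α j i := by
  rcases h with h | h
  · exact Or.inl (CP_ov_symm h)
  · right
    rw [max_comm, min_comm, CP_exc_symm κ α j i]
    exact h

/-- the union of the gaps of the pairs -/
def LA_B (κ α : ℕ → ℝ) : List ℕ → Set ℝ
  | [] => ∅
  | [_] => ∅
  | i :: j :: l => Ioo (Rt κ α (min i j)) (Lf κ α (max i j)) ∪ LA_B κ α (j :: l)

theorem LA_pair {m : ℕ} {κ α : ℕ → ℝ} (hC : Chain m κ α) {i j : ℕ} (hi : i < m) (hj : j < m)
    (hij : i ≠ j) (h : LA_R κ α i j) : 0 ≤ exc κ α i j ∧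
      volume (Ioo (Rt κ α (min i j)) (Lf κ α (max i j))) ≤ ENNReal.ofReal (2 * exc κ α i j) := by
  rw [Real.volume_Ioo]
  by_cases ho : ov κ α i j
  · have he : exc κ α i j = 0 := by unfold exc; rw [if_pos ho]
    rw [he]
    refine ⟨le_rfl, ENNReal.ofReal_le_ofReal ?_⟩
    rcases ho with ⟨h1, h2⟩ | ⟨h1, h2⟩
    · rw [max_eq_right (by omega), min_eq_left (by omega)]; linarith
    · rw [max_eq_left (by omega), min_eq_right (by omega)]; linarith
  · rcases h with h | h
    · exact absurd h ho
    · have h3 : Rt κ α (min i j) < Lf κ α (max i j) := by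
        rcases Nat.lt_or_gt_of_ne hij with h4 | h4
        · rw [max_eq_right h4.le, min_eq_left h4.le]
          exact LA_gap hC h4 hj ho
        · rw [max_eq_left h4.le, min_eq_right h4.le]
          exact LA_gap hC h4 hi (fun hh => ho (CP_ov_symm hh))
      exact ⟨by linarith, ENNReal.ofReal_le_ofReal (by linarith)⟩

theorem LA_volB {m : ℕ} {κ α : ℕ → ℝ} (hC : Chain m κ α) : ∀ p : List ℕ, p.Nodup →
    (∀ i ∈ p, i < m) → Cons (LA_R κ α) p → 0 ≤ psum (exc κ α) p ∧
      volume (LA_B κ α p) ≤ ENNReal.ofReal (2 * psum (exc κ α) p)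
  | [], _, _, _ => by simp [LA_B, psum]
  | [x], _, _, _ => by simp [LA_B, psum]
  | i :: j :: l, hnd, hm, hR => by
    have hR' : LA_R κ α i j ∧ Cons (LA_R κ α) (j :: l) := hR
    obtain ⟨h1, h2⟩ := LA_volB hC (j :: l) (List.nodup_cons.mp hnd).2
      (fun x hx => hm x (List.mem_cons_of_mem _ hx)) hR'.2
    have hij : i ≠ j := by
      intro h
      subst h
      exact (List.nodup_cons.mp hnd).1 (by simp)
    obtain ⟨h3, h4⟩ := LA_pair hC (hm i (by simp)) (hm j (by simp)) hij hR'.1
    have e1 : psum (exc κ α) (i :: j :: l) = exc κ α i j + psum (exc κ α) (j :: l) := rfl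
    have e2 : LA_B κ α (i :: j :: l) =
      Ioo (Rt κ α (min i j)) (Lf κ α (max i j)) ∪ LA_B κ α (j :: l) := rfl
    rw [e1, e2]
    refine ⟨by linarith, (measure_union_le _ _).trans ((add_le_add h4 h2).trans ?_)⟩
    rw [← ENNReal.ofReal_add (by linarith) (by linarith)]
    exact ENNReal.ofReal_le_ofReal (by linarith)

/-- caps and gaps of the pairs cover everything between two vertices -/
theorem LA_cover {m : ℕ} {κ α : ℕ → ℝ} (hC : Chain m κ α) : ∀ (q : List ℕ) (f : ℕ),
    (∀ i ∈ f :: q, i < m) → ∀ i ∈ f :: q, ∀ x,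
      (κ f ≤ x ∧ x ≤ κ i) ∨ (κ i ≤ x ∧ x ≤ κ f) →
      (∃ j ∈ f :: q, Lf κ α j ≤ x ∧ x ≤ Rt κ α j) ∨ x ∈ LA_B κ α (f :: q)
  | [], f, hm, i, hi, x, hx => by
    have e : i = f := by simpa using hi
    subst e
    have ha := hC.α0 i (hm i (by simp))
    have e2 : x = κ i := by rcases hx with h | h <;> linarith [h.1, h.2]
    subst e2
    exact Or.inl ⟨i, by simp, by unfold Lf; linarith, by unfold Rt; linarith⟩
  | y :: q, f, hm, i, hi, x, hx => by
    have hf := hm f (by simp)
    have hy := hm y (by simp)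
    have haf := hC.α0 f hf
    have hay := hC.α0 y hy
    have e2 : LA_B κ α (f :: y :: q) =
      Ioo (Rt κ α (min f y)) (Lf κ α (max f y)) ∪ LA_B κ α (y :: q) := rfl
    rcases List.mem_cons.mp hi with h | h
    · subst h
      have e2 : x = κ i := by rcases hx with h | h <;> linarith [h.1, h.2]
      subst e2
      exact Or.inl ⟨i, by simp, by unfold Lf; linarith, by unfold Rt; linarith⟩
    · by_cases hfy : (κ f ≤ x ∧ x ≤ κ y) ∨ (κ y ≤ x ∧ x ≤ κ f)
      · by_cases hcf : Lf κ α f ≤ x ∧ x ≤ Rt κ α f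
        · exact Or.inl ⟨f, by simp, hcf⟩
        · by_cases hcy : Lf κ α y ≤ x ∧ x ≤ Rt κ α y
          · exact Or.inl ⟨y, by simp, hcy⟩
          · right
            rw [e2]
            left
            rcases hfy with hfy | hfy
            · have h1 : Rt κ α f < x := by
                by_contra h2
                exact hcf ⟨by unfold Lf; linarith, not_lt.mp h2⟩
              have h2 : x < Lf κ α y := by
                by_contra h3
                exact hcy ⟨not_lt.mp h3, by unfold Rt; linarith⟩
              have h3 : f < y := by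
                by_contra h4
                rcases Nat.lt_or_ge y f with h5 | h5
                · have h6 := LA_lt hC h5 hf
                  have h7 : Lf κ α f ≤ Rt κ α f := by unfold Lf Rt; linarith
                  linarith [h6.1]
                · have h6 : f = y := by omega
                  subst h6
                  have h7 : Lf κ α f ≤ Rt κ α f := by unfold Lf Rt; linarith
                  linarith
              rw [min_eq_left h3.le, max_eq_right h3.le]
              exact ⟨h1, h2⟩
            · have h1 : Rt κ α y < x := by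
                by_contra h2
                exact hcy ⟨by unfold Lf; linarith, not_lt.mp h2⟩
              have h2 : x < Lf κ α f := by
                by_contra h3
                exact hcf ⟨not_lt.mp h3, by unfold Rt; linarith⟩
              have h3 : y < f := by
                by_contra h4
                rcases Nat.lt_or_ge f y with h5 | h5
                · have h6 := LA_lt hC h5 hy
                  have h7 : Lf κ α y ≤ Rt κ α y := by unfold Lf Rt; linarith
                  linarith [h6.1]
                · have h6 : f = y := by omega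
                  subst h6
                  have h7 : Lf κ α f ≤ Rt κ α f := by unfold Lf Rt; linarith
                  linarith
              rw [min_eq_right h3.le, max_eq_left h3.le]
              exact ⟨h1, h2⟩
      · have h1 : (κ y ≤ x ∧ x ≤ κ i) ∨ (κ i ≤ x ∧ x ≤ κ y) := by
          by_contra h2
          push Not at h2 hfy
          obtain ⟨h3, h4⟩ := h2
          obtain ⟨h5, h6⟩ := hfy
          rcases le_total x (κ y) with h7 | h7
          · rcases hx with hx | hx
            · have := h5 hx.1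
              linarith
            · have := h4 hx.1
              linarith
          · rcases hx with hx | hx
            · have := h3 h7
              linarith [hx.2]
            · have := h6 h7
              linarith [hx.2]
        rcases LA_cover hC q y (fun j hj => hm j (List.mem_cons_of_mem _ hj)) i h x h1 with
          ⟨j, hj, hj2⟩ | h2
        · exact Or.inl ⟨j, List.mem_cons_of_mem _ hj, hj2⟩
        · right
          rw [e2]
          exact Or.inr h2

theorem LA_main {m : ℕ} {κ α : ℕ → ℝ} (hC : Chain m κ α) (p : List ℕ) (hnd : p.Nodup)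
    (hm : ∀ i ∈ p, i < m) (hR : Cons (LA_R κ α) p) (a b : ℕ) (ha : a ∈ p) (hb : b ∈ p)
    (hab : a ≤ b) :
    Rt κ α b - Lf κ α a ≤ U κ α p + 2 * psum (exc κ α) p := by
  obtain ⟨h1, h2⟩ := LA_volB hC p hnd hm hR
  have hsub : Icc (Lf κ α a) (Rt κ α b) ⊆
      (⋃ i ∈ p, Icc (Lf κ α i) (Rt κ α i)) ∪ LA_B κ α p := by
    intro x hx
    by_cases h3 : x ≤ κ a
    · left
      simp only [mem_iUnion]
      exact ⟨a, ha, hx.1, by have := hC.α0 a (hm a ha); unfold Rt; linarith⟩
    · by_cases h4 : κ b ≤ x
      · left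
        simp only [mem_iUnion]
        exact ⟨b, hb, by have := hC.α0 b (hm b hb); unfold Lf; linarith, hx.2⟩
      · push Not at h3 h4
        match p, ha, hb, hm with
        | f :: q, ha, hb, hm =>
          have key : (∃ j ∈ f :: q, Lf κ α j ≤ x ∧ x ≤ Rt κ α j) ∨ x ∈ LA_B κ α (f :: q) := by
            rcases le_total x (κ f) with h5 | h5
            · exact LA_cover hC q f hm a ha x (Or.inr ⟨h3.le, h5⟩)
            · exact LA_cover hC q f hm b hb x (Or.inl ⟨h5, h4.le⟩)
          rcases key with ⟨j, hj, hj2⟩ | h5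
          · left
            simp only [mem_iUnion]
            exact ⟨j, hj, hj2⟩
          · exact Or.inr h5
  have hle : Lf κ α a ≤ Rt κ α b := by
    have haa := hC.α0 a (hm a ha)
    have h7 : Lf κ α a ≤ Rt κ α a := by unfold Lf Rt; linarith
    rcases Nat.lt_or_ge a b with h5 | h5
    · have := (LA_lt hC h5 (hm b hb)).2
      linarith
    · have h6 : a = b := by omega
      subst h6
      exact h7
  have h3 := (measure_mono (μ := volume) hsub).trans (measure_union_le _ _)
  rw [Real.volume_Icc] at h3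
  have h3' := h3.trans (add_le_add le_rfl h2)
  have hfin := LA_fin (Lf κ α) (Rt κ α) p
  have h4 := ENNReal.toReal_mono (ENNReal.add_ne_top.mpr ⟨hfin, ENNReal.ofReal_ne_top⟩) h3'
  rw [ENNReal.toReal_add hfin ENNReal.ofReal_ne_top, ENNReal.toReal_ofReal (by linarith),
    ENNReal.toReal_ofReal (by linarith)] at h4
  unfold U
  linarith

/-- one step: the first vertex is neither `a` nor `b` -/
theorem LA_step (hD : Stmt_D1) {m : ℕ} {κ α : ℕ → ℝ} (hC : Chain m κ α) (f y : ℕ) (q : List ℕ)
    (hnd : (f :: y :: q).Nodup) (hm : ∀ i ∈ f :: y :: q, i < m)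
    (hR : LA_R κ α f y) : U κ α (f :: y :: q) ≤ U κ α (y :: q) + 2 * dd κ α f y := by
  have hf := hm f (by simp)
  have hy := hm y (by simp)
  have haf := hC.α0 f hf
  have hay := hC.α0 y hy
  have haf1 := hC.α1 f hf
  have hay1 := hC.α1 y hy
  have hfy : f ≠ y := by
    intro h
    subst h
    exact (List.nodup_cons.mp hnd).1 (by simp)
  by_cases ho : ov κ α f y
  · rcases ho with ⟨h1, h2⟩ | ⟨h1, h2⟩
    · have h3 := LA_lt hC (i := f) (j := y) (by omega) hy
      have h4 := hD (κ f) (κ y) (α f) (α y) haf haf1 hay hay1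
        (by have := h3.1; have := h3.2; unfold Lf Rt at *; linarith) h2
      have h5 := LA_cons κ α f (y :: q) (Lf κ α f) (Lf κ α y) h3.1.le (by
        intro x hx1 hx2
        rcases le_total x (Lf κ α y) with h6 | h6
        · exact Or.inl ⟨hx1, h6⟩
        · exact Or.inr ⟨y, by simp, h6, by linarith [h3.2]⟩)
      have h6 : Lf κ α y - Lf κ α f ≤ 2 * (κ y - κ f) := by
        have := h3.2
        unfold Lf Rt at *
        linarith
      have h7 : κ y - κ f ≤ dd κ α f y := h4
      linarith
    · have h3 := LA_lt hC (i := y) (j := f) (by omega) hf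
      have h4 := hD (κ y) (κ f) (α y) (α f) hay hay1 haf haf1
        (by have := h3.1; have := h3.2; unfold Lf Rt at *; linarith) h2
      have h5 := LA_cons κ α f (y :: q) (Rt κ α y) (Rt κ α f) h3.2.le (by
        intro x hx1 hx2
        rcases le_total x (Rt κ α y) with h6 | h6
        · exact Or.inr ⟨y, by simp, by linarith [h3.1], h6⟩
        · exact Or.inl ⟨h6, hx2⟩)
      have h6 : Rt κ α f - Rt κ α y ≤ 2 * (κ f - κ y) := by
        have := h3.1
        unfold Lf Rt at *
        linarith
      have h7 : κ f - κ y ≤ dd κ α y f := h4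
      rw [CP_dd_symm κ α y f] at h7
      linarith
  · have h1 := (LA_pair hC hf hy hfy hR).1
    have h2 : exc κ α f y = dd κ α f y - Real.tan (α f) - Real.tan (α y) := by
      unfold exc; rw [if_neg ho]
    have h3 : α f ≤ Real.tan (α f) := Real.le_tan haf haf1
    have h4 : α y ≤ Real.tan (α y) := Real.le_tan hay hay1
    have h5 := LA_cons κ α f (y :: q) (Lf κ α f) (Rt κ α f) (by unfold Lf Rt; linarith) (by
        intro x hx1 hx2
        exact Or.inl ⟨hx1, hx2⟩)
    have h6 : Rt κ α f - Lf κ α f = 2 * α f := by unfold Lf Rt; ring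
    linarith

theorem LA_psum_append (g : ℕ → ℕ → ℝ) : ∀ (l₁ : List ℕ) (x y : ℕ),
    psum g (l₁ ++ [x, y]) = psum g (l₁ ++ [x]) + g x y
  | [], x, y => by simp [psum]
  | [z], x, y => by simp [psum]
  | z :: w :: l₁, x, y => by
    have h := LA_psum_append g (w :: l₁) x y
    have e1 : psum g (z :: w :: l₁ ++ [x, y]) = g z w + psum g (w :: l₁ ++ [x, y]) := rfl
    have e2 : psum g (z :: w :: l₁ ++ [x]) = g z w + psum g (w :: l₁ ++ [x]) := rfl
    rw [e1, e2, h]; ring

theorem LA_psum_rev (g : ℕ → ℕ → ℝ) (hg : ∀ i j, g i j = g j i) : ∀ p : List ℕ,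
    psum g p.reverse = psum g p
  | [] => rfl
  | [_] => rfl
  | x :: y :: l => by
    have h := LA_psum_rev g hg (y :: l)
    have e1 : (x :: y :: l).reverse = l.reverse ++ [y, x] := by simp
    have e2 : (y :: l).reverse = l.reverse ++ [y] := by simp
    have e3 : psum g (x :: y :: l) = g x y + psum g (y :: l) := rfl
    rw [e1, LA_psum_append, ← e2, h, e3, hg y x]; ring

theorem LA_Cons_append (R : ℕ → ℕ → Prop) : ∀ (l₁ : List ℕ) (x y : ℕ),
    Cons R (l₁ ++ [x]) → R x y → Cons R (l₁ ++ [x, y])
  | [], x, y, _, h2 => ⟨h2, trivial⟩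
  | [z], x, y, h1, h2 => by
    have h1' : R z x ∧ Cons R [x] := h1
    exact ⟨h1'.1, h2, trivial⟩
  | z :: w :: l₁, x, y, h1, h2 => by
    have h1' : R z w ∧ Cons R (w :: l₁ ++ [x]) := h1
    exact ⟨h1'.1, LA_Cons_append R (w :: l₁) x y h1'.2 h2⟩

theorem LA_Cons_rev (R : ℕ → ℕ → Prop) (hR : ∀ i j, R i j → R j i) : ∀ p : List ℕ,
    Cons R p → Cons R p.reverse
  | [], h => h
  | [_], h => h
  | x :: y :: l, h => by
    have h' : R x y ∧ Cons R (y :: l) := h
    have h1 := LA_Cons_rev R hR (y :: l) h'.2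
    have e1 : (x :: y :: l).reverse = l.reverse ++ [y, x] := by simp
    have e2 : (y :: l).reverse = l.reverse ++ [y] := by simp
    rw [e1]
    rw [e2] at h1
    exact LA_Cons_append R _ _ _ h1 (hR _ _ h'.1)

theorem LA_U_rev (κ α : ℕ → ℝ) (p : List ℕ) : U κ α p.reverse = U κ α p := by
  unfold U
  have : (⋃ i ∈ p.reverse, Icc (Lf κ α i) (Rt κ α i)) = ⋃ i ∈ p, Icc (Lf κ α i) (Rt κ α i) := by
    ext x
    simp only [mem_iUnion, List.mem_reverse]
  rw [this]

theorem LA_ind (hCP : Stmt_CP) (hD : Stmt_D1) {m : ℕ} {κ α : ℕ → ℝ} (hC : Chain m κ α)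
    (a b : ℕ) : ∀ (n : ℕ) (p : List ℕ) (f l : ℕ), p.length = n →
    p.Nodup → (∀ i ∈ p, i < m) → p.head? = some f → p.getLast? = some l → 2 ≤ p.length →
    (p.length = 2 → ¬ ov κ α f l) → a ∈ p → b ∈ p → (∀ i ∈ p, a ≤ i ∧ i ≤ b) →
    Cons (LA_R κ α) p →
    (Rt κ α b - Lf κ α a) / 2 + U κ α p / 2 - sf (α a) - sf (α b) ≤ psum (dd κ α) p := by
  intro n
  induction n with
  | zero => intro p f l h1 _ _ _ _ h2; omega
  | succ n ih =>
    -- the step for lists whose first element is neither `a` nor `b`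
    have step : ∀ (p : List ℕ) (f l : ℕ), p.length = n + 1 →
        p.Nodup → (∀ i ∈ p, i < m) → p.head? = some f → p.getLast? = some l → 2 ≤ p.length →
        a ∈ p → b ∈ p → (∀ i ∈ p, a ≤ i ∧ i ≤ b) →
        Cons (LA_R κ α) p → f ≠ a → f ≠ b → a < b →
        (Rt κ α b - Lf κ α a) / 2 + U κ α p / 2 - sf (α a) - sf (α b) ≤ psum (dd κ α) p := by
      intro p f l hlen hnd hm hf hl h2 ha hb hab hR hfa hfb hlt
      obtain ⟨y, q, rfl⟩ : ∃ y q, p = f :: y :: q := by
        match p, hf, h2 with
        | x :: y :: q, hf, _ =>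
          simp at hf
          exact ⟨y, q, by rw [hf]⟩
      have hla : (y :: q).getLast? = some l := by
        rw [List.getLast?_cons_cons] at hl
        exact hl
      have ha' : a ∈ y :: q := by
        rcases List.mem_cons.mp ha with h | h
        · exact absurd h.symm hfa
        · exact h
      have hb' : b ∈ y :: q := by
        rcases List.mem_cons.mp hb with h | h
        · exact absurd h.symm hfb
        · exact h
      have hR' : LA_R κ α f y ∧ Cons (LA_R κ α) (y :: q) := hR
      have hff := hab f (by simp)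
      have hlen2 : 2 ≤ (y :: q).length := by
        rcases Nat.lt_or_ge (y :: q).length 2 with h | h
        · exfalso
          have h3 : q = [] := by
            have : q.length = 0 := by simp at h; exact List.length_eq_zero_iff.mpr h
            exact List.length_eq_zero_iff.mp this
          subst h3
          simp at ha' hb'
          omega
        · exact h
      have h3 := ih (y :: q) y l (by simp at hlen ⊢; omega) (List.nodup_cons.mp hnd).2
        (fun i hi => hm i (List.mem_cons_of_mem _ hi)) rfl hla hlen2 (by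
          intro h4 hov
          obtain ⟨z, rfl⟩ : ∃ z, q = [z] := by
            have : q.length = 1 := by simp at h4; omega
            exact List.length_eq_one_iff.mp this
          have hz : z = l := by simpa using hla
          subst hz
          simp at ha' hb'
          have hh : (y = a ∧ z = b) ∨ (y = b ∧ z = a) := by omega
          have hg : ¬ (y + 1 = z) ∧ ¬ (z + 1 = y) := by
            rcases hh with ⟨h5, h6⟩ | ⟨h5, h6⟩ <;> omega
          rcases hov with h7 | h7
          · exact hg.1 h7.1.symm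
          · exact hg.2 h7.1.symm) ha' hb'
        (fun i hi => hab i (List.mem_cons_of_mem _ hi)) hR'.2
      have h4 := LA_step hD hC f y q hnd hm hR'.1
      have e1 : psum (dd κ α) (f :: y :: q) = dd κ α f y + psum (dd κ α) (y :: q) := rfl
      rw [e1]
      linarith
    intro p f l hlen hnd hm hf hl h2 hov ha hb hab hR
    have hfl : f ≠ l ∧ f ∈ p ∧ l ∈ p := by
      obtain ⟨y, q, rfl⟩ : ∃ y q, p = f :: y :: q := by
        match p, hf, h2 with
        | x :: y :: q, hf, _ =>
          simp at hf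
          exact ⟨y, q, by rw [hf]⟩
      have hla : (y :: q).getLast? = some l := by
        rw [List.getLast?_cons_cons] at hl
        exact hl
      have hlmem : l ∈ y :: q := List.mem_of_getLast? hla
      refine ⟨?_, by simp, List.mem_cons_of_mem _ hlmem⟩
      intro h
      subst h
      exact (List.nodup_cons.mp hnd).1 hlmem
    have hlt : a < b := by
      have h3 := hab f hfl.2.1
      have h4 := hab l hfl.2.2
      have h5 := hfl.1
      omega
    by_cases c1 : f ≠ a ∧ f ≠ b
    · exact step p f l hlen hnd hm hf hl h2 ha hb hab hR c1.1 c1.2 hlt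
    by_cases c2 : l ≠ a ∧ l ≠ b
    · have h3 := step p.reverse l f (by simpa using hlen) (List.nodup_reverse.mpr hnd)
        (by simpa using hm) (by rw [List.head?_reverse]; exact hl)
        (by rw [List.getLast?_reverse]; exact hf) (by simpa using h2) (by simpa using ha)
        (by simpa using hb) (by simpa using hab)
        (LA_Cons_rev _ (fun i j h => LA_R_symm h) p hR) c2.1 c2.2 hlt
      rw [LA_U_rev, LA_psum_rev _ (CP_dd_symm κ α)] at h3
      exact h3
    have h3 := hCP m κ α p f l hC hnd hm hf hl h2 hov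
    have h4 := LA_main hC p hnd hm hR a b ha hb hlt.le
    have h5 : sf (α f) + sf (α l) = sf (α a) + sf (α b) := by
      have h6 : (f = a ∧ l = b) ∨ (f = b ∧ l = a) := by
        have h7 := hfl.1
        omega
      rcases h6 with ⟨h6, h7⟩ | ⟨h6, h7⟩
      · rw [h6, h7]
      · rw [h6, h7]; ring
    linarith

theorem p_LA (hCP : Stmt_CP) (hD : Stmt_D1) : Stmt_LA := by
  intro m κ α p f l a b hC hnd hm hf hl h2 hov ha hb hab hR
  exact LA_ind hCP hD hC a b p.length p f l rfl hnd hm hf hl h2 hov ha hb hab hR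

end

end Pool.BA
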