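import Pool.Agent.Work.MP_655153_ba.Interface5
import Pool.Agent.Work.MP_655153_ba.B_LA

/-! # Block HUL (helper17) -/

open MeasureTheory Set

namespace Pool.BA

noncomputable section

theorem p_HUL (hEXG : Stmt_EXG) (hSUBZ : Stmt_SUBZ) (hPLS : Stmt_PLS) (hHU : Stmt_HU)
    (hMS : Stmt_MS) : Stmt_HUL := by
  intro P θ0 hfree hex
  obtain ⟨m, κ, α, hm, hC, hL, hR, hmem, hiff⟩ := hEXG P θ0 hfree hex
  refine ⟨m, κ, α, hm, hC, hL, hR, hmem, hiff, ?_⟩
  intro h3
  have hwin : Rt κ α (m - 1) < Lf κ α 0 + 2 * Real.pi := by linarith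
  obtain ⟨⟨p, hv, hsub⟩, _⟩ := hSUBZ P m κ α hC hmem hwin
  have hlen : psum (dd κ α) p ≤ plen P := by
    have h4 := hPLS.1 _ _ hsub
    have h5 : plen (pts κ α p) = psum (dd κ α) p := hPLS.2.1 (fun i => V (κ i) (α i)) p
    rw [h5] at h4
    exact h4
  have hLi : ∀ i < m, Lf κ α 0 ≤ Lf κ α i := by
    intro i hi
    rcases Nat.eq_zero_or_pos i with h | h
    · rw [h]
    · exact (LA_lt hC h hi).1.le
  have hRi : ∀ i < m, Rt κ α i ≤ Rt κ α (m - 1) := by
    intro i hi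
    rcases Nat.lt_or_ge i (m - 1) with h | h
    · exact (LA_lt hC h (by omega)).2.le
    · have : i = m - 1 := by omega
      rw [this]
  set C : Set ℝ := ⋃ i ∈ p, Icc (Lf κ α i) (Rt κ α i) with hCdef
  have hCmeas : MeasurableSet C := by
    have h5 : C = ⋃ i ∈ p.toFinset, Icc (Lf κ α i) (Rt κ α i) := by
      rw [hCdef]
      ext x
      simp only [mem_iUnion, List.mem_toFinset]
    rw [h5]
    exact Finset.measurableSet_biUnion _ (fun i _ => measurableSet_Icc)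
  have hCmem : ∀ x, x ∈ C ↔ ∃ i < m, Lf κ α i ≤ x ∧ x ≤ Rt κ α i := by
    intro x
    rw [hCdef]
    simp only [mem_iUnion, mem_Icc]
    constructor
    · rintro ⟨i, hi, h5⟩
      exact ⟨i, (hv.2 i).mp hi, h5⟩
    · rintro ⟨i, hi, h5⟩
      exact ⟨i, (hv.2 i).mpr hi, h5⟩
  have hpi := Real.pi_pos
  have e1 : Ioc θ0 (θ0 + 2 * Real.pi) ∩ C = C := by
    ext x
    constructor
    · exact fun h => h.2
    · intro h
      refine ⟨?_, h⟩
      obtain ⟨i, hi, h5, h6⟩ := (hCmem x).mp h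
      have := hLi i hi
      have := hRi i hi
      exact ⟨by linarith, by linarith⟩
  have e2 : Ioc θ0 (θ0 + 2 * Real.pi) \ C = {θ | Free P θ} ∩ Ioc θ0 (θ0 + 2 * Real.pi) := by
    ext x
    simp only [mem_diff, mem_inter_iff, mem_setOf_eq]
    constructor
    · rintro ⟨h5, h6⟩
      refine ⟨?_, h5⟩
      by_contra h7
      exact h6 ((hCmem x).mpr ((hiff x ⟨h5.1.le, h5.2⟩).mp h7))
    · rintro ⟨h5, h6⟩
      refine ⟨h6, fun h7 => ?_⟩
      exact (hiff x ⟨h6.1.le, h6.2⟩).mpr ((hCmem x).mp h7) h5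
  have hU : U κ α p = 2 * Real.pi - fr P := by
    have h5 := measure_inter_add_diff (μ := volume) (Ioc θ0 (θ0 + 2 * Real.pi)) hCmeas
    rw [e1, e2, Real.volume_Ioc] at h5
    have h6 := hMS.1 P θ0
    have h7 : volume C ≠ ⊤ := by
      intro h
      rw [h, top_add] at h5
      exact ENNReal.ofReal_ne_top h5.symm
    have h8 : volume ({θ | Free P θ} ∩ Ioc θ0 (θ0 + 2 * Real.pi)) ≠ ⊤ := by
      intro h
      rw [h, add_top] at h5
      exact ENNReal.ofReal_ne_top h5.symm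
    have h9 := congrArg ENNReal.toReal h5
    rw [ENNReal.toReal_add h7 h8, h6, ENNReal.toReal_ofReal (by linarith)] at h9
    unfold U
    rw [← hCdef]
    linarith
  have h4 := hHU m κ α p 0 hC hwin hv h3 (Or.inl rfl)
  rw [hU] at h4
  rcases h4 with h4 | ⟨s, hs, h5, h6⟩
  · left
    linarith
  · right
    exact ⟨s, hs, h5, by linarith⟩

end

end Pool.BA
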