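import Pool.Agent.Work.MP_655153_ba.Interface5

/-! # Block HULL -/

set_option autoImplicit false

open MeasureTheory Set
open scoped ENNReal

namespace Pool.BA

noncomputable section

open Pool.Agent.Work.MP_655153_co

/-- the hull of an open set in an interval with ends outside of the set -/
theorem HULL_ivl (F : Set ℝ) (hF : IsOpen F) (x y : ℝ) (hx : x ∉ F) (hy : y ∉ F)
    (hne : ∃ z ∈ Icc x y, z ∈ F) :
    ∃ a b : ℝ, x ≤ a ∧ a < b ∧ b ≤ y ∧ (∀ θ ∈ Icc x a, θ ∉ F) ∧ (∀ θ ∈ Icc b y, θ ∉ F) ∧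
      (∀ η > 0, ∃ θ ∈ Ioo a (a + η), θ ∈ F) ∧ (∀ η > 0, ∃ θ ∈ Ioo (b - η) b, θ ∈ F) := by
  set S : Set ℝ := F ∩ Icc x y with hS
  obtain ⟨z, hz, hzF⟩ := hne
  have hSne : S.Nonempty := ⟨z, hzF, hz⟩
  have hbb : BddBelow S := ⟨x, fun θ hθ => hθ.2.1⟩
  have hba : BddAbove S := ⟨y, fun θ hθ => hθ.2.2⟩
  have hxa : x ≤ sInf S := le_csInf hSne fun θ hθ => hθ.2.1
  have hby : sSup S ≤ y := csSup_le hSne fun θ hθ => hθ.2.2
  have haz : sInf S ≤ z := csInf_le hbb ⟨hzF, hz⟩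
  have hzb : z ≤ sSup S := le_csSup hba ⟨hzF, hz⟩
  have haF : sInf S ∉ F := by
    intro ha
    obtain ⟨ε, hε, hball⟩ := Metric.isOpen_iff.1 hF _ ha
    have hxa' : x < sInf S := lt_of_le_of_ne hxa fun h => hx (h ▸ ha)
    have hm : max x (sInf S - ε / 2) ∈ F := by
      refine hball ?_
      rw [Metric.mem_ball, Real.dist_eq, abs_lt]
      constructor
      · have := le_max_right x (sInf S - ε / 2)
        linarith
      · have := max_lt hxa' (by linarith : sInf S - ε / 2 < sInf S)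
        linarith
    have h1 : max x (sInf S - ε / 2) < sInf S := max_lt hxa' (by linarith)
    have h2 : max x (sInf S - ε / 2) ∈ S :=
      ⟨hm, le_max_left _ _, h1.le.trans (haz.trans hz.2)⟩
    exact absurd (csInf_le hbb h2) (not_le.2 h1)
  have hbF : sSup S ∉ F := by
    intro hb
    obtain ⟨ε, hε, hball⟩ := Metric.isOpen_iff.1 hF _ hb
    have hby' : sSup S < y := lt_of_le_of_ne hby fun h => hy (h ▸ hb)
    have hm : min y (sSup S + ε / 2) ∈ F := by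
      refine hball ?_
      rw [Metric.mem_ball, Real.dist_eq, abs_lt]
      constructor
      · have := lt_min hby' (by linarith : sSup S < sSup S + ε / 2)
        linarith
      · have := min_le_right y (sSup S + ε / 2)
        linarith
    have h1 : sSup S < min y (sSup S + ε / 2) := lt_min hby' (by linarith)
    have h2 : min y (sSup S + ε / 2) ∈ S :=
      ⟨hm, (hz.1.trans hzb).trans h1.le, min_le_left _ _⟩
    exact absurd (le_csSup hba h2) (not_le.2 h1)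
  have hacA : ∀ η > 0, ∃ θ ∈ Ioo (sInf S) (sInf S + η), θ ∈ F ∧ θ ≤ sSup S := by
    intro η hη
    obtain ⟨θ, hθ, hlt⟩ := exists_lt_of_csInf_lt hSne (by linarith : sInf S < sInf S + η)
    have h1 : sInf S ≤ θ := csInf_le hbb hθ
    exact ⟨θ, ⟨lt_of_le_of_ne h1 fun h => haF (h ▸ hθ.1), hlt⟩, hθ.1, le_csSup hba hθ⟩
  have hacB : ∀ η > 0, ∃ θ ∈ Ioo (sSup S - η) (sSup S), θ ∈ F := by
    intro η hη
    obtain ⟨θ, hθ, hlt⟩ := exists_lt_of_lt_csSup hSne (by linarith : sSup S - η < sSup S)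
    have h1 : θ ≤ sSup S := le_csSup hba hθ
    exact ⟨θ, ⟨hlt, lt_of_le_of_ne h1 fun h => hbF (h ▸ hθ.1)⟩, hθ.1⟩
  refine ⟨sInf S, sSup S, hxa, ?_, hby, ?_, ?_, ?_, hacB⟩
  · obtain ⟨θ, hθ, -, h2⟩ := hacA 1 one_pos
    exact lt_of_lt_of_le hθ.1 h2
  · intro θ hθ hθF
    rcases lt_or_eq_of_le hθ.2 with h | h
    · exact absurd (csInf_le hbb ⟨hθF, hθ.1, hθ.2.trans (haz.trans hz.2)⟩) (not_le.2 h)
    · exact haF (h ▸ hθF)
  · intro θ hθ hθF
    rcases lt_or_eq_of_le hθ.1 with h | h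
    · exact absurd (le_csSup hba ⟨hθF, (hz.1.trans hzb).trans hθ.1, hθ.2⟩) (not_le.2 h)
    · exact hbF (h ▸ hθF)
  · intro η hη
    obtain ⟨θ, hθ, h1, -⟩ := hacA η hη
    exact ⟨θ, hθ, h1⟩

theorem p_HULL (hROT : Stmt_ROT) : Stmt_HULL := by
  obtain ⟨-, -, -, -, -, hper, hopen, -⟩ := hROT
  intro P Q hdis hP hQ hT
  have hpi : 0 < 2 * Real.pi := by positivity
  have hper' : ∀ (P : List ℂ) (θ : ℝ), Free P θ ↔ Free P (θ - 2 * Real.pi) := by
    intro P θ
    have h1 := hper P (θ - 2 * Real.pi)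
    rw [sub_add_cancel] at h1
    exact h1
  obtain ⟨θQ, hθQ⟩ := hQ
  have hθQ' : Free Q (θQ + 2 * Real.pi) := (hper Q θQ).2 hθQ
  have hPQ : ∀ θ, Free Q θ → ¬ Free P θ := fun θ h => (hdis θ).resolve_right fun h' => h' h
  have hQP : ∀ θ, Free P θ → ¬ Free Q θ := fun θ h => (hdis θ).resolve_left fun h' => h' h
  -- the hull of the free directions of `P`
  have hPne : ∃ z ∈ Icc θQ (θQ + 2 * Real.pi), z ∈ {θ | Free P θ} := by
    obtain ⟨θ, hθ⟩ := hP
    have hp : Function.Periodic (fun θ => Free P θ) (2 * Real.pi) := fun θ => propext (hper P θ)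
    obtain ⟨y, hy, hxy⟩ := hp.exists_mem_Ico hpi θ θQ
    exact ⟨y, ⟨hy.1, hy.2.le⟩, hxy.mp hθ⟩
  obtain ⟨a, b, hxa, hab, hby, hnA, hnB, haA, haB⟩ := HULL_ivl {θ | Free P θ} (hopen P) θQ
    (θQ + 2 * Real.pi) (hPQ _ hθQ) (hPQ _ hθQ') hPne
  have hHP : Hull P a b := by
    refine ⟨?_, haA, haB⟩
    intro θ hθ
    rcases le_total θ (θQ + 2 * Real.pi) with h | h
    · exact hnB θ ⟨hθ.1, h⟩
    · rw [hper']
      exact hnA (θ - 2 * Real.pi) ⟨by linarith, by linarith [hθ.2]⟩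
  -- the interval is free for `P`
  have hfree : ∀ n ∈ Ioo a b, Free P n := by
    intro n hn
    by_contra hcon
    obtain ⟨θ1, h1, h1'⟩ := haA (n - a) (by linarith [hn.1])
    obtain ⟨θ2, h2, h2'⟩ := haB (b - n) (by linarith [hn.2])
    refine hT ⟨θ1, n, θ2, θQ + 2 * Real.pi, ?_, ?_, ?_, ?_, h1', hcon, h2', hPQ _ hθQ'⟩
    · linarith [h1.2]
    · linarith [h2.1]
    · linarith [h2.2]
    · linarith [h1.1]
  -- `Q` is not free on `[a, b]`
  have hQab : ∀ θ ∈ Icc a b, ¬ Free Q θ := by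
    intro θ hθ hfr
    obtain ⟨ε, hε, hball⟩ := Metric.isOpen_iff.1 (hopen Q) θ hfr
    rcases lt_or_eq_of_le hθ.1 with h | h
    · rcases lt_or_eq_of_le hθ.2 with h' | h'
      · exact hQP θ (hfree θ ⟨h, h'⟩) hfr
      · obtain ⟨θ2, h2, h2'⟩ := haB ε hε
        refine hQP θ2 h2' (hball ?_)
        rw [Metric.mem_ball, Real.dist_eq, abs_lt]
        constructor
        · linarith [h2.1]
        · linarith [h2.2]
    · obtain ⟨θ1, h1, h1'⟩ := haA ε hε
      refine hQP θ1 h1' (hball ?_)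
      rw [Metric.mem_ball, Real.dist_eq, abs_lt]
      constructor
      · linarith [h1.1]
      · linarith [h1.2]
  -- the hull of the free directions of `Q`
  obtain ⟨c, d, hbc, hcd, hda, hnC, hnD, haC, haD⟩ := HULL_ivl {θ | Free Q θ} (hopen Q) b
    (a + 2 * Real.pi) (hQab b ⟨hab.le, le_rfl⟩)
    (fun h => hQab a ⟨le_rfl, hab.le⟩ ((hper Q a).1 h))
    ⟨θQ + 2 * Real.pi, ⟨hby, by linarith⟩, hθQ'⟩
  refine ⟨a, b, c, d, hab, hbc, hcd, hda, hHP, ?_, haC, haD⟩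
  intro θ hθ
  rcases le_total θ (a + 2 * Real.pi) with h | h
  · exact hnD θ ⟨hθ.1, h⟩
  · rcases le_total θ (b + 2 * Real.pi) with h' | h'
    · rw [hper']
      exact hQab _ ⟨by linarith, by linarith⟩
    · rw [hper']
      exact hnC (θ - 2 * Real.pi) ⟨by linarith, by linarith [hθ.2]⟩

end

end Pool.BA
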