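import Pool.Agent.Work.MP_655153_ba.Interface3

/-! # Block IM: the insertion lemma in the frame `ν = 0` -/

open MeasureTheory Set

namespace Pool.BA

noncomputable section

/-- the saving at an end is at most `s0` -/
theorem IM_sf {x : ℝ} (h0 : 0 ≤ x) (h1 : x < Real.pi / 2) : sf x ≤ s0 := by
  unfold sf s0
  obtain ⟨y, hy⟩ : ∃ y, y = x - Real.pi / 4 := ⟨_, rfl⟩
  have hx : x = y + Real.pi / 4 := by rw [hy]; ring
  have hpi := Real.pi_pos
  have hcx : 0 < Real.cos x := Real.cos_pos_of_mem_Ioo ⟨by linarith, h1⟩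
  have h2 : 0 < √2 / 2 := by positivity
  have hs : Real.sin x = √2 / 2 * (Real.cos y + Real.sin y) := by
    rw [hx, Real.sin_add, Real.sin_pi_div_four, Real.cos_pi_div_four]
    ring
  have hc : Real.cos x = √2 / 2 * (Real.cos y - Real.sin y) := by
    rw [hx, Real.cos_add, Real.sin_pi_div_four, Real.cos_pi_div_four]
    ring
  have hd : 0 < Real.cos y - Real.sin y := by
    rw [hc] at hcx
    exact (mul_pos_iff_of_pos_left h2).1 hcx
  have ht : Real.tan x = (Real.cos y + Real.sin y) / (Real.cos y - Real.sin y) := by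
    rw [Real.tan_eq_sin_div_cos, hs, hc, mul_div_mul_left _ _ h2.ne']
  have hkey : 1 + 2 * y ≤ Real.tan x := by
    rw [ht, le_div_iff₀ hd]
    rcases le_total 0 y with hy0 | hy0
    · have hyl : y < Real.pi / 2 := by linarith
      have e1 := Real.le_tan hy0 hyl
      have e2 : 0 < Real.cos y := Real.cos_pos_of_mem_Ioo ⟨by linarith, hyl⟩
      have e3 : y * Real.cos y ≤ Real.sin y := by
        rw [Real.tan_eq_sin_div_cos, le_div_iff₀ e2] at e1
        exact e1
      have e4 : 0 ≤ Real.sin y := Real.sin_nonneg_of_nonneg_of_le_pi hy0 (by linarith)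
      have e5 : 0 ≤ y * Real.sin y := mul_nonneg hy0 e4
      nlinarith
    · have e1 : Real.sin (-y) ≤ -y := Real.sin_le (by linarith)
      have e2 : 0 ≤ Real.sin (-y) := Real.sin_nonneg_of_nonneg_of_le_pi (by linarith) (by linarith)
      have e3 : 0 ≤ Real.cos y := Real.cos_nonneg_of_mem_Icc ⟨by linarith, by linarith⟩
      rw [Real.sin_neg] at e1 e2
      have e4 := Real.sin_sq_add_cos_sq y
      have e5 : 1 ≤ Real.cos y - Real.sin y := by
        nlinarith [mul_nonneg e2 e3]
      have e6 : -y ≤ -y * (Real.cos y - Real.sin y) := by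
        have : 0 ≤ -y * (Real.cos y - Real.sin y - 1) :=
          mul_nonneg (by linarith) (by linarith)
        linarith
      nlinarith
  rw [hy] at hkey
  linarith

/-- left ends increase -/
theorem IM_L {m : ℕ} {κ α : ℕ → ℝ} (hC : Chain m κ α) {i j : ℕ} (hij : i ≤ j) (hj : j < m) :
    Lf κ α i ≤ Lf κ α j := by
  induction j, hij using Nat.le_induction with
  | base => exact le_rfl
  | succ j hij ih => exact (ih (by omega)).trans (hC.l j hj).le

/-- right ends increase -/
theorem IM_R {m : ℕ} {κ α : ℕ → ℝ} (hC : Chain m κ α) {i j : ℕ} (hij : i ≤ j) (hj : j < m) :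
    Rt κ α i ≤ Rt κ α j := by
  induction j, hij using Nat.le_induction with
  | base => exact le_rfl
  | succ j hij ih => exact (ih (by omega)).trans (hC.r j hj).le

/-- the caps of a pair which is not `ov` are disjoint -/
theorem IM_sep {m : ℕ} {κ α : ℕ → ℝ} (hC : Chain m κ α) {i j : ℕ} (hij : i < j) (hj : j < m)
    (hov : ¬ ov κ α i j) : Rt κ α i < Lf κ α j := by
  rcases Nat.lt_or_ge (i + 1) j with h | h
  · exact (hC.sep i (by omega)).trans_le (IM_L hC (by omega) hj)
  · have hj1 : j = i + 1 := by omega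
    by_contra hcon
    push Not at hcon
    exact hov (Or.inl ⟨hj1, hcon⟩)

/-- the excess of a pair is nonnegative, ordered form -/
theorem IM_exc' (hPI : Stmt_PI) {m : ℕ} {κ α : ℕ → ℝ} {a b : ℝ} (hF : Full m κ α a b)
    (hab : b < a + 2 * Real.pi) {i j : ℕ} (hij : i < j) (hj : j < m) (hov : ¬ ov κ α i j) :
    Real.tan (α i) + Real.tan (α j) ≤ dd κ α i j := by
  have hC := hF.ch
  have h1 := IM_sep hC hij hj hov
  have h2 : a ≤ Lf κ α i := by
    rw [← hF.left]
    exact IM_L hC (Nat.zero_le i) (hij.trans hj)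
  have h3 : Rt κ α j ≤ b := by
    rw [← hF.right]
    exact IM_R hC (by omega) (by omega)
  have hαi := hC.α0 i (hij.trans hj)
  have hαj := hC.α0 j hj
  unfold Lf at h1 h2
  unfold Rt at h1 h3
  rcases le_total (κ j - κ i) Real.pi with h | h
  · have := hPI (κ i) (κ j) (α i) (α j) (κ j - κ i) hαi (hC.α1 i (hij.trans hj)) hαj
      (hC.α1 j hj) rfl (by linarith) h
    unfold dd
    linarith
  · have := hPI (κ i) (κ j) (α i) (α j) (2 * Real.pi - (κ j - κ i)) hαi
      (hC.α1 i (hij.trans hj)) hαj (hC.α1 j hj) (Real.cos_two_pi_sub _) (by linarith)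
      (by linarith)
    unfold dd
    linarith

theorem IM_ov_comm (κ α : ℕ → ℝ) (i j : ℕ) : ov κ α i j ↔ ov κ α j i := by
  unfold ov
  exact Or.comm

theorem IM_dd_comm (κ α : ℕ → ℝ) (i j : ℕ) : dd κ α i j = dd κ α j i := by
  unfold dd
  exact dist_comm _ _

/-- the excess of a pair is nonnegative -/
theorem IM_exc (hPI : Stmt_PI) {m : ℕ} {κ α : ℕ → ℝ} {a b : ℝ} (hF : Full m κ α a b)
    (hab : b < a + 2 * Real.pi) {i j : ℕ} (hij : i ≠ j) (hi : i < m) (hj : j < m) :
    0 ≤ exc κ α i j := by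
  unfold exc
  split_ifs with hov
  · exact le_rfl
  · rcases lt_or_gt_of_ne hij with h | h
    · have := IM_exc' hPI hF hab h hj hov
      linarith
    · have := IM_exc' hPI hF hab h hi (fun h' => hov ((IM_ov_comm κ α i j).2 h'))
      rw [IM_dd_comm κ α i j]
      linarith

theorem IM_psum_exc (hPI : Stmt_PI) {m : ℕ} {κ α : ℕ → ℝ} {a b : ℝ} (hF : Full m κ α a b)
    (hab : b < a + 2 * Real.pi) (p : List ℕ) (hnd : p.Nodup) (hm : ∀ i ∈ p, i < m) :
    0 ≤ psum (exc κ α) p := by
  induction p with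
  | nil => exact le_refl (0 : ℝ)
  | cons i p ih =>
    cases p with
    | nil => exact le_refl (0 : ℝ)
    | cons j l =>
      have h1 : 0 ≤ exc κ α i j := by
        refine IM_exc hPI hF hab ?_ (hm i (by simp)) (hm j (by simp))
        rintro rfl
        simp at hnd
      have h2 : 0 ≤ psum (exc κ α) (j :: l) :=
        ih (List.nodup_cons.1 hnd).2 (fun k hk => hm k (List.mem_cons_of_mem i hk))
      show 0 ≤ exc κ α i j + psum (exc κ α) (j :: l)
      linarith

theorem IM_plen (hPLS : Stmt_PLS) (κ α : ℕ → ℝ) (p : List ℕ) :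
    psum (dd κ α) p = plen (pts κ α p) := (hPLS.2.1 (fun i => V (κ i) (α i)) p).symm

/-- the charge lemma for a half path that starts at `f` -/
theorem IM_end (hBV : Stmt_BV) (hPI : Stmt_PI) (hPLS : Stmt_PLS) {m : ℕ} {κ α : ℕ → ℝ} {a b : ℝ}
    (hF : Full m κ α a b) (hab : b < a + 2 * Real.pi) (f : ℕ) (q : List ℕ)
    (hnd : (f :: q).Nodup) (hm : ∀ i ∈ f :: q, i < m) :
    U κ α (f :: q) - s0 ≤ plen (pts κ α (f :: q)) + Real.tan (α f) := by
  obtain ⟨l, hl⟩ : ∃ l, l = (f :: q).getLast (List.cons_ne_nil f q) := ⟨_, rfl⟩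
  have hlm : l ∈ f :: q := by
    rw [hl]
    exact List.getLast_mem _
  have h1 := hBV m κ α (f :: q) f l hF.ch hnd hm rfl
    (by rw [hl]; exact List.getLast?_eq_some_getLast _)
  have h2 := IM_psum_exc hPI hF hab (f :: q) hnd hm
  have h3 := IM_sf (hF.ch.α0 l (hm l hlm)) (hF.ch.α1 l (hm l hlm))
  rw [IM_plen hPLS] at h1
  linarith

/-- a full chain covers its interval -/
theorem IM_cover {m : ℕ} {κ α : ℕ → ℝ} {a b : ℝ} (hF : Full m κ α a b) {θ : ℝ} (h1 : a ≤ θ)
    (h2 : θ ≤ b) : ∃ i < m, θ ∈ Icc (Lf κ α i) (Rt κ α i) := by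
  classical
  have hpos := hF.pos
  have hleft := hF.left
  have hright := hF.right
  by_cases hex : ∃ i, i + 1 < m ∧ θ < Lf κ α (i + 1)
  · have hs := Nat.find_spec hex
    obtain ⟨i, hi⟩ : ∃ i, i = Nat.find hex := ⟨_, rfl⟩
    rw [← hi] at hs
    refine ⟨i, by omega, ?_, hs.2.le.trans (hF.nogap i hs.1)⟩
    rcases Nat.eq_zero_or_pos i with h0 | h0
    · rw [h0, hleft]
      exact h1
    · have hm := Nat.find_min hex (m := i - 1) (by omega)
      rw [Nat.sub_add_cancel h0] at hm
      by_contra hcon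
      push Not at hcon
      exact hm ⟨by omega, hcon⟩
  · push Not at hex
    refine ⟨m - 1, by omega, ?_, by rw [hright]; exact h2⟩
    rcases Nat.eq_zero_or_pos (m - 1) with h0 | h0
    · rw [h0, hleft]
      exact h1
    · have := hex (m - 1 - 1) (by omega)
      rwa [Nat.sub_add_cancel h0] at this

theorem IM_fin {m : ℕ} {κ α : ℕ → ℝ} {a b : ℝ} (hF : Full m κ α a b) (p : List ℕ)
    (hm : ∀ i ∈ p, i < m) :
    volume (⋃ i ∈ p, Icc (Lf κ α i) (Rt κ α i)) ≠ ⊤ := by
  refine ne_top_of_le_ne_top (b := volume (Icc a b)) ?_ (measure_mono ?_)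
  · rw [Real.volume_Icc]
    exact ENNReal.ofReal_ne_top
  · refine iUnion₂_subset fun i hi => ?_
    have him := hm i hi
    have h1 := IM_L hF.ch (Nat.zero_le i) him
    have h2 := IM_R hF.ch (show i ≤ m - 1 by omega) (by omega)
    rw [hF.left] at h1
    rw [hF.right] at h2
    exact Icc_subset_Icc h1 h2

/-- the two halves together cover the interval -/
theorem IM_U {m : ℕ} {κ α : ℕ → ℝ} {a b : ℝ} (hF : Full m κ α a b) (p q : List ℕ)
    (hp : ∀ i ∈ p, i < m) (hq : ∀ i ∈ q, i < m) (hall : ∀ i < m, i ∈ p ∨ i ∈ q) :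
    b - a ≤ U κ α p + U κ α q := by
  have hfp := IM_fin hF p hp
  have hfq := IM_fin hF q hq
  unfold U
  rw [← ENNReal.toReal_add hfp hfq]
  rw [← ENNReal.ofReal_le_iff_le_toReal (ENNReal.add_ne_top.2 ⟨hfp, hfq⟩)]
  rw [← Real.volume_Icc]
  refine le_trans (measure_mono ?_) (measure_union_le _ _)
  intro θ hθ
  obtain ⟨i, hi, hiθ⟩ := IM_cover hF hθ.1 hθ.2
  rcases hall i hi with h | h
  · left
    exact mem_iUnion₂.2 ⟨i, h, hiθ⟩
  · right
    exact mem_iUnion₂.2 ⟨i, h, hiθ⟩

theorem IM_re (x y : ℂ) : x.re - y.re ≤ dist x y := by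
  have h := Complex.abs_re_le_norm (x - y)
  rw [Complex.sub_re] at h
  rw [dist_eq_norm]
  exact (le_abs_self _).trans h

/-- IZ1 and IZ2 together -/
theorem IM_iz (hIZ1 : Stmt_IZ1) (hIZ2 : Stmt_IZ2) {m : ℕ} {κ α : ℕ → ℝ} {μ1 μ2 c : ℝ} {z : ℂ}
    (h1 : 0 < μ1) (h2 : 0 < μ2) (hμ : (μ1 ≤ Real.pi / 4 ∧ μ2 ≤ Real.pi / 4) ∨
    (Real.pi / 6 ≤ μ1 ∧ Real.pi / 6 ≤ μ2 ∧ μ1 ≤ 7 * Real.pi / 12 ∧ μ2 ≤ 7 * Real.pi / 12))
    (hF : Full m κ α μ1 (2 * Real.pi - μ2)) (hz1 : pr μ1 z ≤ 1) (hz2 : pr (-μ2) z ≤ 1)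
    (hc1 : c ≤ 1) (hc : c ≤ z.re) (hc0 : max (W κ α 0).re (W κ α (m - 1)).re ≤ c)
    {i j : ℕ} (hij : i < j) (hj : j < m) :
    (dd κ α i j + (c - max (W κ α 0).re (W κ α (m - 1)).re) ≤
      dist (W κ α i) z + dist z (W κ α j)) ∨
    (dd κ α i j + c - loss μ1 μ2 ≤ dist (W κ α i) z + dist z (W κ α j)) ∨
    (Real.tan (α i) + Real.tan (α j) + c - loss μ1 μ2 ≤
      dist (W κ α i) z + dist z (W κ α j)) := by
  have hpi := Real.pi_pos
  unfold loss
  split_ifs with hmin
  · have ha : Real.pi / 6 ≤ μ1 := hmin.trans (min_le_left _ _)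
    have hb : Real.pi / 6 ≤ μ2 := hmin.trans (min_le_right _ _)
    have ha' : μ1 ≤ 7 * Real.pi / 12 := by
      rcases hμ with h | h
      · linarith [h.1]
      · exact h.2.2.1
    have hb' : μ2 ≤ 7 * Real.pi / 12 := by
      rcases hμ with h | h
      · linarith [h.2]
      · exact h.2.2.2
    rcases hIZ2 m κ α μ1 μ2 c i j z ha ha' hb hb' hF hij hj hc hc0 with h | h | h
    · exact Or.inl h
    · right
      left
      linarith [h.2]
    · right
      right
      linarith [h.2]
  · have hmin' : min μ1 μ2 < Real.pi / 6 := not_le.1 hmin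
    have hab : μ1 ≤ Real.pi / 4 ∧ μ2 ≤ Real.pi / 4 := by
      rcases hμ with h | h
      · exact h
      · exact absurd (le_min h.1 h.2.1) hmin
    rcases hIZ1 m κ α μ1 μ2 c i j z h1 hab.1 h2 hab.2 hmin' hF hij hj hz1 hz2 hc1 hc hc0 with
      h | h | h
    · exact Or.inl h
    · right
      left
      linarith [h.2]
    · right
      right
      linarith [h.2]

/-- the same for an unordered pair -/
theorem IM_iz' (hIZ1 : Stmt_IZ1) (hIZ2 : Stmt_IZ2) {m : ℕ} {κ α : ℕ → ℝ} {μ1 μ2 c : ℝ} {z : ℂ}
    (h1 : 0 < μ1) (h2 : 0 < μ2) (hμ : (μ1 ≤ Real.pi / 4 ∧ μ2 ≤ Real.pi / 4) ∨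
    (Real.pi / 6 ≤ μ1 ∧ Real.pi / 6 ≤ μ2 ∧ μ1 ≤ 7 * Real.pi / 12 ∧ μ2 ≤ 7 * Real.pi / 12))
    (hF : Full m κ α μ1 (2 * Real.pi - μ2)) (hz1 : pr μ1 z ≤ 1) (hz2 : pr (-μ2) z ≤ 1)
    (hc1 : c ≤ 1) (hc : c ≤ z.re) (hc0 : max (W κ α 0).re (W κ α (m - 1)).re ≤ c)
    {i j : ℕ} (hij : i ≠ j) (hi : i < m) (hj : j < m) :
    (dd κ α i j + (c - max (W κ α 0).re (W κ α (m - 1)).re) ≤
      dist (W κ α i) z + dist z (W κ α j)) ∨
    (dd κ α i j + c - loss μ1 μ2 ≤ dist (W κ α i) z + dist z (W κ α j)) ∨
    (Real.tan (α i) + Real.tan (α j) + c - loss μ1 μ2 ≤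
      dist (W κ α i) z + dist z (W κ α j)) := by
  rcases lt_or_gt_of_ne hij with h | h
  · exact IM_iz hIZ1 hIZ2 h1 h2 hμ hF hz1 hz2 hc1 hc hc0 h hj
  · have h3 := IM_iz hIZ1 hIZ2 h1 h2 hμ hF hz1 hz2 hc1 hc hc0 h hi
    rw [IM_dd_comm κ α j i, dist_comm (W κ α j) z, dist_comm z (W κ α i)] at h3
    rcases h3 with h3 | h3 | h3
    · left
      linarith
    · right
      left
      linarith
    · right
      right
      linarith

/-- IM. -/
theorem p_IM (hIZ1 : Stmt_IZ1) (hIZ2 : Stmt_IZ2) (hLEV : Stmt_LEV) (hPLS : Stmt_PLS)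
    (hSUBZ : Stmt_SUBZ) (hBV : Stmt_BV) (hPI : Stmt_PI) : Stmt_IM := by
  intro m κ α μ1 μ2 c P z h1 h2 hμ hF hW hP hz hc hc1
  have hpos := hF.pos
  have hpi := Real.pi_pos
  have hwin : 2 * Real.pi - μ2 < μ1 + 2 * Real.pi := by linarith
  have hwin' : Rt κ α (m - 1) < Lf κ α 0 + 2 * Real.pi := by
    rw [hF.left, hF.right]
    exact hwin
  obtain ⟨hs1, hs2⟩ := hSUBZ P m κ α hF.ch hW hwin'
  rcases le_or_gt c (max (W κ α 0).re (W κ α (m - 1)).re) with hcc | hcc
  · obtain ⟨p, hp, hsub⟩ := hs1
    refine ⟨p, hp, Or.inl ?_⟩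
    have h3 := hPLS.1 _ _ hsub
    rw [IM_plen hPLS]
    linarith
  · obtain ⟨hlev, -, -⟩ := hLEV m κ α μ1 μ2 h1 h2 hF
    rcases hs2 z hz with ⟨i, hi, hzi⟩ | ⟨p₁, p₂, hp, hsub⟩
    · exfalso
      have h3 := hlev i hi
      have h4 : z = W κ α i := hzi
      rw [h4] at hc
      linarith
    · have hlen := hPLS.1 _ _ hsub
      have hmem : ∀ i, i ∈ p₁ ∨ i ∈ p₂ ↔ i < m := by
        intro i
        rw [← hp.2 i, List.mem_append]
      have hdist : ∀ i < m, c - max (W κ α 0).re (W κ α (m - 1)).re ≤ dist z (W κ α i) := by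
        intro i hi
        have h3 := hlev i hi
        have h4 := IM_re z (W κ α i)
        linarith
      refine ⟨p₁ ++ p₂, hp, ?_⟩
      rw [IM_plen hPLS]
      rcases List.eq_nil_or_concat p₁ with hp1 | ⟨q₁, i, hp1⟩
      · -- the point `z` is the first one
        subst hp1
        cases p₂ with
        | nil =>
          exfalso
          have := (hmem 0).2 hpos
          simp at this
        | cons j q₂ =>
          left
          have hj : j < m := (hmem j).1 (Or.inr (by simp))
          have h3 := hdist j hj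
          have h4 : plen (pts κ α [] ++ z :: pts κ α (j :: q₂)) =
              dist z (W κ α j) + plen (pts κ α (j :: q₂)) := rfl
          rw [h4] at hlen
          rw [List.nil_append]
          linarith
      · rw [List.concat_eq_append] at hp1
        subst hp1
        have hi : i < m := (hmem i).1 (Or.inl (by simp))
        have hA : pts κ α (q₁ ++ [i]) = pts κ α q₁ ++ [W κ α i] := by
          unfold pts
          rw [List.map_append]
          rfl
        cases p₂ with
        | nil =>
          -- the point `z` is the last one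
          left
          have h3 := hdist i hi
          have h4 : plen (pts κ α (q₁ ++ [i]) ++ z :: pts κ α []) =
              plen (pts κ α (q₁ ++ [i])) + dist (W κ α i) z := by
            rw [hA, List.append_assoc]
            have h5 := hPLS.2.2.2 (pts κ α q₁) (z :: pts κ α []) (W κ α i)
            have h6 : plen (W κ α i :: z :: pts κ α []) = dist (W κ α i) z := by
              show dist (W κ α i) z + 0 = dist (W κ α i) z
              rw [add_zero]
            rw [h6] at h5
            exact h5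
          rw [h4, dist_comm] at hlen
          rw [List.append_nil]
          linarith
        | cons j q₂ =>
          have hj : j < m := (hmem j).1 (Or.inr (by simp))
          have hnd := hp.1
          have hnd' := List.nodup_append.1 hnd
          have hij : i ≠ j := hnd'.2.2 i (by simp) j (by simp)
          have h4 : plen (pts κ α (q₁ ++ [i]) ++ z :: pts κ α (j :: q₂)) =
              plen (pts κ α (q₁ ++ [i])) + dist (W κ α i) z + dist z (W κ α j) +
                plen (pts κ α (j :: q₂)) := by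
            rw [hA, List.append_assoc]
            have h5 := hPLS.2.2.2 (pts κ α q₁) (z :: pts κ α (j :: q₂)) (W κ α i)
            have h6 : plen (W κ α i :: z :: pts κ α (j :: q₂)) =
                dist (W κ α i) z + (dist z (W κ α j) + plen (pts κ α (j :: q₂))) := rfl
            rw [h6] at h5
            refine Eq.trans h5 ?_
            ring
          have h7 : plen (pts κ α ((q₁ ++ [i]) ++ (j :: q₂))) =
              plen (pts κ α (q₁ ++ [i])) + dd κ α i j + plen (pts κ α (j :: q₂)) := by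
            have h8 : pts κ α ((q₁ ++ [i]) ++ (j :: q₂)) =
                pts κ α q₁ ++ W κ α i :: pts κ α (j :: q₂) := by
              unfold pts
              rw [List.map_append, List.map_append, List.append_assoc]
              rfl
            have h5 := hPLS.2.2.2 (pts κ α q₁) (pts κ α (j :: q₂)) (W κ α i)
            have h6 : plen (W κ α i :: pts κ α (j :: q₂)) =
                dd κ α i j + plen (pts κ α (j :: q₂)) := rfl
            rw [h8, h5, h6, hA]
            ring
          rw [h4] at hlen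
          rw [h7]
          rcases IM_iz' hIZ1 hIZ2 h1 h2 hμ hF (hP z hz).1 (hP z hz).2 hc1 hc hcc.le hij hi hj with
            h | h | h
          · left
            linarith
          · right
            left
            linarith
          · right
            right
            have hsub1 : ∀ k ∈ i :: q₁.reverse, k ∈ q₁ ++ [i] := by
              intro k hk
              rcases List.mem_cons.1 hk with hk | hk
              · rw [hk]
                simp
              · exact List.mem_append_left _ (List.mem_reverse.1 hk)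
            have hrev : i :: q₁.reverse = (q₁ ++ [i]).reverse := by
              rw [List.reverse_append]
              rfl
            have hnd1 : (i :: q₁.reverse).Nodup := by
              rw [hrev, List.nodup_reverse]
              exact hnd'.1
            have hm1 : ∀ k ∈ i :: q₁.reverse, k < m := fun k hk =>
              (hmem k).1 (Or.inl (hsub1 k hk))
            have hm2 : ∀ k ∈ j :: q₂, k < m := fun k hk => (hmem k).1 (Or.inr hk)
            have hE1 := IM_end hBV hPI hPLS hF hwin i q₁.reverse hnd1 hm1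
            have hE2 := IM_end hBV hPI hPLS hF hwin j q₂ hnd'.2.1 hm2
            have hR : plen (pts κ α (i :: q₁.reverse)) = plen (pts κ α (q₁ ++ [i])) := by
              rw [hrev]
              have h5 : pts κ α (q₁ ++ [i]).reverse = (pts κ α (q₁ ++ [i])).reverse := by
                unfold pts
                rw [List.map_reverse]
              rw [h5]
              exact hPLS.2.2.1 _
            rw [hR] at hE1
            have hU := IM_U hF (i :: q₁.reverse) (j :: q₂) hm1 hm2 (by
              intro k hk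
              rcases (hmem k).2 hk with h5 | h5
              · left
                rw [hrev]
                exact List.mem_reverse.2 h5
              · exact Or.inr h5)
            linarith

end

end Pool.BA
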