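import Pool.Agent.Work.MP_655153_ba.Interface2

/-!
# Block INTV: minimal subfamily of finitely many closed intervals
-/

open Set

namespace Pool.BA

noncomputable section

theorem p_INTV : Stmt_INTV := by
  classical
  intro S hS
  set cov : Finset (ℝ × ℝ) → ℝ → Prop :=
    fun T θ => ∃ s ∈ T, s.1 - s.2 ≤ θ ∧ θ ≤ s.1 + s.2 with hcov
  obtain ⟨T, hT, hmin⟩ : ∃ T ∈ S.powerset.filter (fun T => ∀ θ, cov S θ ↔ cov T θ),
      ∀ T' ∈ S.powerset.filter (fun T => ∀ θ, cov S θ ↔ cov T θ), T.card ≤ T'.card := by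
    apply Finset.exists_min_image
    refine ⟨S, ?_⟩
    rw [Finset.mem_filter, Finset.mem_powerset]
    exact ⟨Finset.Subset.refl S, fun θ => Iff.rfl⟩
  rw [Finset.mem_filter, Finset.mem_powerset] at hT
  obtain ⟨hTS, hTc⟩ := hT
  have key : ∀ s ∈ T, (∀ θ, s.1 - s.2 ≤ θ → θ ≤ s.1 + s.2 →
      ∃ t ∈ T, t ≠ s ∧ t.1 - t.2 ≤ θ ∧ θ ≤ t.1 + t.2) → False := by
    intro s hs h
    have h1 : T.erase s ∈ S.powerset.filter (fun T => ∀ θ, cov S θ ↔ cov T θ) := by
      rw [Finset.mem_filter, Finset.mem_powerset]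
      refine ⟨(Finset.erase_subset _ _).trans hTS, fun θ => ?_⟩
      rw [hTc θ]
      constructor
      · rintro ⟨t, ht, h2, h3⟩
        by_cases hts : t = s
        · subst hts
          obtain ⟨t', ht', hne, h4, h5⟩ := h θ h2 h3
          exact ⟨t', Finset.mem_erase.2 ⟨hne, ht'⟩, h4, h5⟩
        · exact ⟨t, Finset.mem_erase.2 ⟨hts, ht⟩, h2, h3⟩
      · rintro ⟨t, ht, h2, h3⟩
        exact ⟨t, Finset.mem_of_mem_erase ht, h2, h3⟩
    have h2 := hmin _ h1
    rw [Finset.card_erase_of_mem hs] at h2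
    have : 0 < T.card := Finset.card_pos.2 ⟨s, hs⟩
    omega
  have hinj : ∀ s ∈ T, ∀ t ∈ T, s.1 - s.2 = t.1 - t.2 → s = t := by
    intro s hs t ht hst
    by_contra hne
    rcases le_total (s.1 + s.2) (t.1 + t.2) with h | h
    · exact key s hs (fun θ h1 h2 =>
        ⟨t, ht, fun h => hne h.symm, by linarith, by linarith⟩)
    · exact key t ht (fun θ h1 h2 => ⟨s, hs, hne, by linarith, by linarith⟩)
  set G : Finset ℝ := T.image (fun s => s.1 - s.2) with hG
  obtain ⟨m, hm⟩ : ∃ m, G.card = m := ⟨_, rfl⟩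
  set e : Fin m ↪o ℝ := G.orderEmbOfFin hm with he
  have hex : ∀ i : Fin m, ∃ s ∈ T, s.1 - s.2 = e i := by
    intro i
    have h1 := G.orderEmbOfFin_mem hm i
    obtain ⟨s, hs, h2⟩ := Finset.mem_image.1 h1
    exact ⟨s, hs, h2⟩
  choose c hcT hce using hex
  obtain ⟨κ, hκ⟩ : ∃ κ : ℕ → ℝ, ∀ i (h : i < m), κ i = (c ⟨i, h⟩).1 :=
    ⟨fun i => if h : i < m then (c ⟨i, h⟩).1 else 0, fun i h => dif_pos h⟩
  obtain ⟨α, hα⟩ : ∃ α : ℕ → ℝ, ∀ i (h : i < m), α i = (c ⟨i, h⟩).2 :=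
    ⟨fun i => if h : i < m then (c ⟨i, h⟩).2 else 0, fun i h => dif_pos h⟩
  have hL : ∀ i (h : i < m), Lf κ α i = e ⟨i, h⟩ := by
    intro i h
    rw [← hce, Lf, hκ i h, hα i h]
  have hL' : ∀ i (h : i < m), Lf κ α i = (c ⟨i, h⟩).1 - (c ⟨i, h⟩).2 := by
    intro i h
    rw [Lf, hκ i h, hα i h]
  have hR : ∀ i (h : i < m), Rt κ α i = (c ⟨i, h⟩).1 + (c ⟨i, h⟩).2 := by
    intro i h
    rw [Rt, hκ i h, hα i h]
  have hLlt : ∀ i j (hi : i < m) (hj : j < m), i < j → Lf κ α i < Lf κ α j := by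
    intro i j hi hj hij
    rw [hL i hi, hL j hj]
    exact e.strictMono (by simpa using hij)
  have hcne : ∀ i j (hi : i < m) (hj : j < m), i < j → c ⟨i, hi⟩ ≠ c ⟨j, hj⟩ := by
    intro i j hi hj hij h
    have h1 := hLlt i j hi hj hij
    rw [hL' i hi, hL' j hj, h] at h1
    exact lt_irrefl _ h1
  have hRlt : ∀ i, i + 1 < m → Rt κ α i < Rt κ α (i + 1) := by
    intro i hi
    by_contra hcon
    push Not at hcon
    have hi' : i < m := by omega
    refine key (c ⟨i + 1, hi⟩) (hcT _) (fun θ h1 h2 => ⟨c ⟨i, hi'⟩, hcT _,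
      hcne i (i + 1) hi' hi (by omega), ?_, ?_⟩)
    · have h3 := hLlt i (i + 1) hi' hi (by omega)
      rw [hL' i hi', hL' (i + 1) hi] at h3
      linarith
    · rw [hR i hi', hR (i + 1) hi] at hcon
      linarith
  refine ⟨m, κ, α, ⟨?_, ?_, ?_, hRlt, ?_⟩, ?_, ?_⟩
  · intro i hi
    rw [hα i hi]
    exact (hS _ (hTS (hcT _))).1
  · intro i hi
    rw [hα i hi]
    exact (hS _ (hTS (hcT _))).2
  · intro i hi
    exact hLlt i (i + 1) (by omega) hi (by omega)
  · intro i hi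
    by_contra hcon
    push Not at hcon
    have hi0 : i < m := by omega
    have hi1 : i + 1 < m := by omega
    refine key (c ⟨i + 1, hi1⟩) (hcT _) (fun θ h1 h2 => ?_)
    rcases le_total θ (Rt κ α i) with h | h
    · refine ⟨c ⟨i, hi0⟩, hcT _, hcne i (i + 1) hi0 hi1 (by omega), ?_, ?_⟩
      · have h3 := hLlt i (i + 1) hi0 hi1 (by omega)
        rw [hL' i hi0, hL' (i + 1) hi1] at h3
        linarith
      · rw [hR i hi0] at h
        exact h
    · refine ⟨c ⟨i + 2, hi⟩, hcT _, (hcne (i + 1) (i + 2) hi1 hi (by omega)).symm, ?_, ?_⟩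
      · rw [← hL' (i + 2) hi]
        linarith
      · have h3 := hRlt (i + 1) hi
        rw [hR (i + 1) hi1, hR (i + 1 + 1) hi] at h3
        linarith
  · intro i hi
    rw [hκ i hi, hα i hi]
    exact hTS (hcT _)
  · intro θ
    have h1 : cov S θ ↔ cov T θ := hTc θ
    have h2 : cov T θ ↔ ∃ i < m, Lf κ α i ≤ θ ∧ θ ≤ Rt κ α i := by
      constructor
      · rintro ⟨s, hs, h3, h4⟩
        have h5 : s.1 - s.2 ∈ G := by
          rw [hG]
          exact Finset.mem_image.2 ⟨s, hs, rfl⟩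
        have h6 : s.1 - s.2 ∈ Set.range e := by
          rw [he, Finset.range_orderEmbOfFin]
          exact h5
        obtain ⟨i, hi⟩ := h6
        have h7 : c i = s := hinj _ (hcT i) _ hs (by rw [hce, hi])
        refine ⟨i, i.2, ?_, ?_⟩
        · rw [hL' i i.2]
          rw [show (⟨(i : ℕ), i.2⟩ : Fin m) = i from rfl, h7]
          exact h3
        · rw [hR i i.2]
          rw [show (⟨(i : ℕ), i.2⟩ : Fin m) = i from rfl, h7]
          exact h4
      · rintro ⟨i, hi, h3, h4⟩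
        refine ⟨c ⟨i, hi⟩, hcT _, ?_, ?_⟩
        · rw [← hL' i hi]
          exact h3
        · rw [← hR i hi]
          exact h4
    exact h1.trans h2

end

end Pool.BA
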