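import Pool.Agent.Work.MP_655153_ba.Interface3

set_option autoImplicit false

/-!
# Block IZ1: insertion between two vertices, small angles (helper10)
-/

open MeasureTheory Set

namespace Pool.BA

noncomputable section

theorem IZ1_sin {x : ℝ} (h1 : Real.pi / 6 ≤ x) (h2 : x ≤ 5 * Real.pi / 6) :
    1 / 2 ≤ Real.sin x := by
  have hpi := Real.pi_pos
  have h : ∀ y, Real.pi / 6 ≤ y → y ≤ Real.pi / 2 → 1 / 2 ≤ Real.sin y := by
    intro y hy1 hy2
    rw [← Real.sin_pi_div_six]
    exact Real.sin_le_sin_of_le_of_le_pi_div_two (by linarith) hy2 hy1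
  rcases le_total x (Real.pi / 2) with hx | hx
  · exact h x h1 hx
  · rw [← Real.sin_pi_sub]
    exact h _ (by linarith) (by linarith)

theorem IZ1_cos {a x : ℝ} (h0 : 0 ≤ a) (h1 : a ≤ x) (h2 : x ≤ 2 * Real.pi - a) :
    Real.cos x ≤ Real.cos a := by
  rcases le_total x Real.pi with hx | hx
  · exact Real.cos_le_cos_of_nonneg_of_le_pi h0 hx h1
  · rw [← Real.cos_two_pi_sub x]
    exact Real.cos_le_cos_of_nonneg_of_le_pi h0 (by linarith) (by linarith)

theorem IZ1_Lmono {m : ℕ} {κ α : ℕ → ℝ} (h : Chain m κ α) {a b : ℕ} (hab : a ≤ b)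
    (hb : b < m) : Lf κ α a ≤ Lf κ α b := by
  induction b, hab using Nat.le_induction with
  | base => exact le_rfl
  | succ n hn ih => exact (ih (by omega)).trans (h.l n hb).le

theorem IZ1_Rmono {m : ℕ} {κ α : ℕ → ℝ} (h : Chain m κ α) {a b : ℕ} (hab : a ≤ b)
    (hb : b < m) : Rt κ α a ≤ Rt κ α b := by
  induction b, hab using Nat.le_induction with
  | base => exact le_rfl
  | succ n hn ih => exact (ih (by omega)).trans (h.r n hb).le

theorem IZ1_or {θ : ℝ} (h0 : 0 < θ) (h1 : θ < 2 * Real.pi) (h : |Real.sin θ| < 1 / 2) :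
    θ < Real.pi / 6 ∨ |θ - Real.pi| ≤ Real.pi / 6 ∨ 11 * Real.pi / 6 < θ := by
  have hpi := Real.pi_pos
  rw [abs_lt] at h
  by_contra hcon
  push Not at hcon
  obtain ⟨c1, c2, c3⟩ := hcon
  rcases le_total θ Real.pi with hθ | hθ
  · rw [abs_of_nonpos (by linarith)] at c2
    have h2 := IZ1_sin c1 (by linarith)
    linarith [h.2]
  · rw [abs_of_nonneg (by linarith)] at c2
    have h2 := IZ1_sin (x := θ - Real.pi) (by linarith) (by linarith)
    rw [Real.sin_sub_pi] at h2
    linarith [h.1]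

theorem IZ1_pr (θ κ α : ℝ) : pr θ (V κ α) = Real.cos (κ - θ) / Real.cos α := by
  unfold pr V
  rw [Real.cos_sub]
  ring

/-- the direction orthogonal to the segment of two points with `2 |D.re| < |D|` -/
theorem IZ1_psi {x y : ℂ} (h : |x.re - y.re| < dist x y / 2) :
    ∃ ψ t : ℝ, |ψ| ≤ Real.pi / 6 ∧ y.re - x.re = -(t * Real.sin ψ) ∧
      y.im - x.im = t * Real.cos ψ := by
  have hpi := Real.pi_pos
  have hd : dist x y ^ 2 = (x.re - y.re) ^ 2 + (x.im - y.im) ^ 2 := by
    rw [Complex.dist_eq_re_im, Real.sq_sqrt (by positivity)]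
  have hd0 : 0 ≤ dist x y := dist_nonneg
  have h1 : (x.re - y.re) ^ 2 < dist x y ^ 2 / 4 := by
    have h2 : |x.re - y.re| ^ 2 < (dist x y / 2) ^ 2 := by
      apply pow_lt_pow_left₀ h (abs_nonneg _) (by norm_num)
    rw [sq_abs] at h2
    linarith
  set a := y.re - x.re with ha
  set b := y.im - x.im with hb
  have e1 : (x.re - y.re) ^ 2 = a ^ 2 := by rw [ha]; ring
  have e2 : (x.im - y.im) ^ 2 = b ^ 2 := by rw [hb]; ring
  rw [e1, e2] at hd
  rw [e1] at h1
  have hb0 : b ≠ 0 := by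
    intro hb0
    rw [hb0] at hd
    nlinarith [sq_nonneg a]
  set ψ := -Real.arctan (a / b) with hψ
  have hcos : 0 < Real.cos ψ := by
    rw [hψ, Real.cos_neg]
    exact Real.cos_arctan_pos _
  have hsin : Real.sin ψ = -(a / b) * Real.cos ψ := by
    have h3 : Real.tan ψ = -(a / b) := by rw [hψ, Real.tan_neg, Real.tan_arctan]
    rw [← h3, Real.tan_mul_cos hcos.ne']
  have h4 : a * Real.cos ψ + b * Real.sin ψ = 0 := by
    rw [hsin]
    field_simp
    ring
  have h5 := Real.sin_sq_add_cos_sq ψ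
  have ea : a = -((-(a * Real.sin ψ) + b * Real.cos ψ) * Real.sin ψ) := by
    linear_combination (-a) * h5 + Real.cos ψ * h4
  have eb : b = (-(a * Real.sin ψ) + b * Real.cos ψ) * Real.cos ψ := by
    linear_combination (-b) * h5 + Real.sin ψ * h4
  refine ⟨ψ, -(a * Real.sin ψ) + b * Real.cos ψ, ?_, ea, eb⟩
  by_contra hcon
  push Not at hcon
  have hψ1 : -(Real.pi / 2) < ψ := by
    rw [hψ]
    linarith [Real.arctan_lt_pi_div_two (a / b)]
  have hψ2 : ψ < Real.pi / 2 := by
    rw [hψ]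
    linarith [Real.neg_pi_div_two_lt_arctan (a / b)]
  have hs : 1 / 4 ≤ Real.sin ψ ^ 2 := by
    rcases le_total 0 ψ with h6 | h6
    · rw [abs_of_nonneg h6] at hcon
      have h7 := IZ1_sin hcon.le (by linarith)
      nlinarith
    · rw [abs_of_nonpos h6] at hcon
      have h7 := IZ1_sin hcon.le (by linarith)
      rw [Real.sin_neg] at h7
      nlinarith
  set t := -(a * Real.sin ψ) + b * Real.cos ψ with ht
  have e3 : a ^ 2 = t ^ 2 * Real.sin ψ ^ 2 := by
    calc a ^ 2 = (-(t * Real.sin ψ)) ^ 2 := by rw [← ea]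
      _ = t ^ 2 * Real.sin ψ ^ 2 := by ring
  have e4 : b ^ 2 = t ^ 2 * Real.cos ψ ^ 2 := by
    calc b ^ 2 = (t * Real.cos ψ) ^ 2 := by rw [← eb]
      _ = t ^ 2 * Real.cos ψ ^ 2 := by ring
  have e5 : dist x y ^ 2 = t ^ 2 := by
    rw [hd, e3, e4]
    linear_combination t ^ 2 * h5
  rw [e5, e3] at h1
  nlinarith [sq_nonneg t]

theorem p_IZ1 (hST : Stmt_ST) (hWL : Stmt_WL) (hOVG : Stmt_OVG) (hLEV : Stmt_LEV)
    (hWZ : Stmt_WZ) (hCLS : Stmt_CLS) (hB1 : Stmt_B1) (hK1 : Stmt_K1) : Stmt_IZ1 := by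
  intro m κ α μ1 μ2 c i j z hμ1 hμ1' hμ2 hμ2' hmin F hij hjm hz1 hz2 hc1 hcz hc0
  have hpi := Real.pi_pos
  obtain ⟨lev1, lev2, lev3⟩ := hLEV m κ α μ1 μ2 hμ1 hμ2 F
  obtain ⟨wz1, wz2⟩ := hWZ m κ α μ1 μ2 z hμ1 hμ2 F
  have him : i < m := hij.trans hjm
  have hwi := lev1 i him
  have hwj := lev1 j hjm
  have hLi : μ1 ≤ Lf κ α i := by
    have h := IZ1_Lmono F.ch (Nat.zero_le i) him
    rwa [F.left] at h
  have hLj : μ1 ≤ Lf κ α j := by
    have h := IZ1_Lmono F.ch (Nat.zero_le j) hjm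
    rwa [F.left] at h
  have hRi : Rt κ α i ≤ 2 * Real.pi - μ2 := by
    have h := IZ1_Rmono F.ch (show i ≤ m - 1 by omega) (by omega)
    rwa [F.right] at h
  have hRj : Rt κ α j ≤ 2 * Real.pi - μ2 := by
    have h := IZ1_Rmono F.ch (show j ≤ m - 1 by omega) (by omega)
    rwa [F.right] at h
  have hz1' : z.im ≤ (W κ α 0).im :=
    wz1 (by linarith) hz1 ((le_max_left _ _).trans (hc0.trans hcz))
  have hz2' : (W κ α (m - 1)).im ≤ z.im :=
    wz2 (by linarith) hz2 ((le_max_right _ _).trans (hc0.trans hcz))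
  have hdd : dd κ α i j = dist (W κ α i) (W κ α j) := rfl
  have fin1 : (W κ α 0).im ≤ (W κ α i).im → (W κ α j).re ≤ (W κ α i).re →
      (W κ α i).im ≤ (W κ α j).im →
      dd κ α i j + (c - max (W κ α 0).re (W κ α (m - 1)).re) ≤
        dist (W κ α i) z + dist z (W κ α j) := by
    intro h1 h2 h3
    have h4 := hWL (W κ α i) (W κ α j) z h3 h2 (hz1'.trans h1) (by linarith)
    rw [hdd]
    linarith
  have fin2 : (W κ α j).im ≤ (W κ α (m - 1)).im → (W κ α i).re ≤ (W κ α j).re →
      (W κ α i).im ≤ (W κ α j).im →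
      dd κ α i j + (c - max (W κ α 0).re (W κ α (m - 1)).re) ≤
        dist (W κ α i) z + dist z (W κ α j) := by
    intro h1 h2 h3
    have h4 := hWL ((starRingEnd ℂ) (W κ α j)) ((starRingEnd ℂ) (W κ α i))
      ((starRingEnd ℂ) z) (by rw [Complex.conj_im, Complex.conj_im]; linarith)
      (by rw [Complex.conj_re, Complex.conj_re]; exact h2)
      (by rw [Complex.conj_im, Complex.conj_im]; linarith)
      (by rw [Complex.conj_re, Complex.conj_re]; linarith)
    rw [Complex.dist_conj_conj, Complex.dist_conj_conj, Complex.dist_conj_conj,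
      Complex.conj_re, Complex.conj_re, dist_comm (W κ α j) (W κ α i),
      dist_comm (W κ α j) z, dist_comm z (W κ α i)] at h4
    rw [hdd]
    linarith
  have ϑ0 : 0 < min μ1 μ2 := lt_min hμ1 hμ2
  have ϑ1 : min μ1 μ2 ≤ μ1 := min_le_left _ _
  have ϑ2 : min μ1 μ2 ≤ μ2 := min_le_right _ _
  have hai0 := F.ch.α0 i him
  have hai1 := F.ch.α1 i him
  have haj0 := F.ch.α0 j hjm
  have haj1 := F.ch.α1 j hjm
  have hci : 0 < Real.cos (α i) := Real.cos_pos_of_mem_Ioo ⟨by linarith, hai1⟩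
  have hcj : 0 < Real.cos (α j) := Real.cos_pos_of_mem_Ioo ⟨by linarith, haj1⟩
  have hLR : Lf κ α i < Lf κ α j ∧ Rt κ α i < Rt κ α j := by
    obtain ⟨k, rfl⟩ : ∃ k, j = k + 1 := ⟨j - 1, by omega⟩
    exact ⟨(IZ1_Lmono F.ch (show i ≤ k by omega) (by omega)).trans_lt (F.ch.l k hjm),
      (IZ1_Rmono F.ch (show i ≤ k by omega) (by omega)).trans_lt (F.ch.r k hjm)⟩
  rcases le_or_gt (dist (W κ α i) (W κ α j) / 2) |(W κ α i).re - (W κ α j).re| with hst | hst
  · left
    exact hST _ _ _ _ _ hwi hwj hc0 hcz hst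
  by_cases hov : ov κ α i j
  · have hov' : j = i + 1 ∧ Lf κ α j ≤ Rt κ α i := by
      rcases hov with h | h
      · exact h
      · omega
    obtain ⟨hj, hLR'⟩ := hov'
    obtain ⟨θ0, ρ, p, q, hθ1, hθ2, hρ, hpq, hw, hw', hdist⟩ :=
      hOVG (κ i) (κ j) (α i) (α j) hai0 hai1 haj0 haj1 hLR.1 hLR' hLR.2
    have hθ1' : Lf κ α j ≤ θ0 := hθ1
    have hθ2' : θ0 ≤ Rt κ α i := hθ2
    have hre : (W κ α j).re - (W κ α i).re = -((p + q) * Real.sin θ0) := by
      unfold W
      rw [hw, hw']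
      simp [u, e]
      ring
    have him' : (W κ α j).im - (W κ α i).im = (p + q) * Real.cos θ0 := by
      unfold W
      rw [hw, hw']
      simp [u, e]
      ring
    have hd : dist (W κ α i) (W κ α j) = p + q := hdist
    have hsin : |Real.sin θ0| < 1 / 2 := by
      have h1 : |(W κ α i).re - (W κ α j).re| = (p + q) * |Real.sin θ0| := by
        have h2 : (W κ α i).re - (W κ α j).re = (p + q) * Real.sin θ0 := by linarith
        rw [h2, abs_mul, abs_of_nonneg hpq]
      rw [h1, hd] at hst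
      by_contra hcon
      push Not at hcon
      nlinarith
    rcases IZ1_or (by linarith) (by linarith) hsin with h6 | h6 | h6
    · left
      have hs : 0 ≤ Real.sin θ0 := Real.sin_nonneg_of_nonneg_of_le_pi (by linarith) (by linarith)
      have hc : 0 ≤ Real.cos θ0 := Real.cos_nonneg_of_neg_pi_div_two_le_of_le (by linarith)
        (by linarith)
      have hs' := mul_nonneg hpq hs
      have hc' := mul_nonneg hpq hc
      refine fin1 (lev2 i him (Or.inr ⟨by omega, ?_⟩)) (by linarith) (by linarith)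
      rw [← hj]
      linarith
    · right
      left
      refine ⟨hov, ?_⟩
      have e0 : Real.pi + (θ0 - Real.pi) = θ0 := by ring
      have h7 := hB1 (θ0 - Real.pi) (min μ1 μ2) ρ p q c (V (κ i) (α i)) (V (κ j) (α j)) z h6 ϑ0
        hmin.le hρ (by rw [e0]; exact hw) (by rw [e0]; exact hw') (by
          rw [IZ1_pr, div_le_one hci]
          have h8 : κ i - α i = Lf κ α i := rfl
          have h9 : κ i + α i = Rt κ α i := rfl
          exact IZ1_cos hai0 (by linarith) (by linarith)) (by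
          rw [IZ1_pr, div_le_one hcj]
          have h8 : κ j - α j = Lf κ α j := rfl
          have h9 : κ j + α j = Rt κ α j := rfl
          exact IZ1_cos haj0 (by linarith) (by linarith)) hc1 hcz
      rw [hdd, hd]
      exact h7
    · left
      have hs : Real.sin θ0 ≤ 0 := by
        have h7 : 0 ≤ Real.sin (θ0 - Real.pi) :=
          Real.sin_nonneg_of_nonneg_of_le_pi (by linarith) (by linarith)
        rw [Real.sin_sub_pi] at h7
        linarith
      have hc : 0 ≤ Real.cos θ0 := by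
        rw [← Real.cos_two_pi_sub]
        exact Real.cos_nonneg_of_neg_pi_div_two_le_of_le (by linarith) (by linarith)
      have hs' := mul_nonneg hpq (neg_nonneg.2 hs)
      have hc' := mul_nonneg hpq hc
      refine fin2 (lev3 j hjm (Or.inr ⟨by omega, ?_⟩)) (by linarith) (by linarith)
      have h8 : j - 1 = i := by omega
      rw [h8]
      linarith
  · have hgap : Rt κ α i < Lf κ α j := by
      rcases Nat.lt_or_ge (i + 1) j with h | h
      · exact (F.ch.sep i (by omega)).trans_le (IZ1_Lmono F.ch (by omega) hjm)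
      · have hj : j = i + 1 := by omega
        exact absurd (Or.inl ⟨hj, by rw [hj]; exact F.nogap i (by omega)⟩) hov
    obtain ⟨ψ, t, hψ, hre, him'⟩ := IZ1_psi hst
    have hpr : pr ψ (V (κ i) (α i)) = pr ψ (V (κ j) (α j)) := by
      have h1 : (V (κ j) (α j)).re - (V (κ i) (α i)).re = -(t * Real.sin ψ) := hre
      have h2 : (V (κ j) (α j)).im - (V (κ i) (α i)).im = t * Real.cos ψ := him'
      unfold pr
      linear_combination (-Real.cos ψ) * h1 - Real.sin ψ * h2
    have hpr2 : pr (ψ + Real.pi / 2) (V (κ j) (α j)) - pr (ψ + Real.pi / 2) (V (κ i) (α i)) =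
        t := by
      have h1 : (V (κ j) (α j)).re - (V (κ i) (α i)).re = -(t * Real.sin ψ) := hre
      have h2 : (V (κ j) (α j)).im - (V (κ i) (α i)).im = t * Real.cos ψ := him'
      have h3 := Real.sin_sq_add_cos_sq ψ
      unfold pr
      rw [Real.cos_add_pi_div_two, Real.sin_add_pi_div_two]
      linear_combination (-Real.sin ψ) * h1 + Real.cos ψ * h2 + t * h3
    obtain ⟨hψ1, hψ2⟩ := abs_le.1 hψ
    have g1 : κ i - α i = Lf κ α i := rfl
    have g2 : κ i + α i = Rt κ α i := rfl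
    have g3 : κ j - α j = Lf κ α j := rfl
    have g4 : κ j + α j = Rt κ α j := rfl
    rcases hCLS (κ i) (κ j) (α i) (α j) ψ hai0 hai1 haj0 haj1 (by linarith) (by linarith)
      (by linarith) (by linarith) hψ hpr with h | h
    · obtain ⟨-, h1, h2, h3, h4⟩ := h
      right
      right
      exact ⟨hov, hK1 (κ i) (κ j) (α i) (α j) ψ (min μ1 μ2) c z hai0 hai1 haj0 haj1 hψ ϑ0
        hmin.le h1 h2 h3 h4 (by linarith) (by linarith) hc1 hcz⟩
    · obtain ⟨ht, h⟩ := h
      have ht0 : 0 < t := by linarith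
      have hc : 0 ≤ Real.cos ψ := Real.cos_nonneg_of_neg_pi_div_two_le_of_le (by linarith)
        (by linarith)
      have hc' := mul_nonneg ht0.le hc
      left
      rcases h with h | h
      · have hs : 0 ≤ Real.sin ψ := Real.sin_nonneg_of_nonneg_of_le_pi (by linarith)
          (by linarith)
        have hs' := mul_nonneg ht0.le hs
        exact fin1 (lev2 i him (Or.inl (by linarith))) (by linarith) (by linarith)
      · have hs : 0 ≤ -Real.sin ψ := by
          rw [← Real.sin_neg]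
          exact Real.sin_nonneg_of_nonneg_of_le_pi (by linarith) (by linarith)
        have hs' := mul_nonneg ht0.le hs
        exact fin2 (lev3 j hjm (Or.inl (by linarith))) (by linarith) (by linarith)

end

end Pool.BA
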