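import Pool.Agent.Work.MP_655153_ba.Interface3

/-!
# Block IZ2: insertion between two vertices, large angles
-/

open MeasureTheory Set

namespace Pool.BA

noncomputable section

/-- left ends increase -/
theorem IZ2_l {m : ℕ} {κ α : ℕ → ℝ} (C : Chain m κ α) {i j : ℕ} (hij : i ≤ j) (hj : j < m) :
    Lf κ α i ≤ Lf κ α j := by
  induction j, hij using Nat.le_induction with
  | base => exact le_rfl
  | succ n hn ih => exact (ih (by omega)).trans (C.l n hj).le

/-- right ends increase -/
theorem IZ2_r {m : ℕ} {κ α : ℕ → ℝ} (C : Chain m κ α) {i j : ℕ} (hij : i ≤ j) (hj : j < m) :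
    Rt κ α i ≤ Rt κ α j := by
  induction j, hij using Nat.le_induction with
  | base => exact le_rfl
  | succ n hn ih => exact (ih (by omega)).trans (C.r n hj).le

/-- directions outside the open cap -/
theorem IZ2_cos {x a : ℝ} (ha : 0 ≤ a) (_ha1 : a ≤ Real.pi) (h1 : a ≤ x)
    (h2 : x ≤ 2 * Real.pi - a) : Real.cos x ≤ Real.cos a := by
  rcases le_total x Real.pi with h | h
  · exact Real.cos_le_cos_of_nonneg_of_le_pi ha h h1
  · have e : Real.cos x = Real.cos (2 * Real.pi - x) := by
      rw [Real.cos_two_pi_sub]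
    rw [e]
    exact Real.cos_le_cos_of_nonneg_of_le_pi ha (by linarith) (by linarith)

theorem IZ2_pr (θ κ α : ℝ) : pr θ (V κ α) = Real.cos (κ - θ) / Real.cos α := by
  unfold pr V
  rw [Real.cos_sub]
  ring

theorem IZ2_out {θ κ α : ℝ} (ha : 0 ≤ α) (ha1 : α < Real.pi / 2)
    (h : Real.cos (κ - θ) ≤ Real.cos α) : pr θ (V κ α) ≤ 1 := by
  have hc : 0 < Real.cos α := Real.cos_pos_of_mem_Ioo ⟨by linarith [Real.pi_pos], ha1⟩
  rw [IZ2_pr, div_le_one hc]
  exact h

theorem IZ2_sin {x : ℝ} (h1 : Real.pi / 6 ≤ x) (h2 : x ≤ 5 * Real.pi / 6) :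
    1 / 2 ≤ Real.sin x := by
  have hpi := Real.pi_pos
  rw [← Real.sin_pi_div_six]
  rcases le_total x (Real.pi / 2) with h | h
  · exact Real.sin_le_sin_of_le_of_le_pi_div_two (by linarith) h h1
  · rw [← Real.sin_pi_sub x]
    exact Real.sin_le_sin_of_le_of_le_pi_div_two (by linarith) (by linarith) (by linarith)

theorem IZ2_sigma {x : ℝ} (h1 : Real.pi / 6 ≤ x) (h2 : x ≤ 2 * Real.pi - Real.pi / 6)
    (h3 : |Real.sin x| < 1 / 2) : |x - Real.pi| ≤ Real.pi / 6 := by
  have hpi := Real.pi_pos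
  have h4 := abs_lt.1 h3
  rw [abs_le]
  constructor
  · by_contra h
    have h5 := IZ2_sin h1 (by linarith : x ≤ 5 * Real.pi / 6)
    linarith [h4.2]
  · by_contra h
    have h5 := IZ2_sin (x := x - Real.pi) (by linarith) (by linarith)
    rw [Real.sin_sub_pi] at h5
    linarith [h4.1]

theorem IZ2_psi (D : ℂ) (h : |D.re| ≤ ‖D‖ / 2) :
    ∃ ψ : ℝ, |ψ| ≤ Real.pi / 6 ∧ D.re * Real.cos ψ + D.im * Real.sin ψ = 0 := by
  have hpi := Real.pi_pos
  have hsq : 3 * D.re ^ 2 ≤ D.im ^ 2 := by
    have h1 : ‖D‖ ^ 2 = D.re ^ 2 + D.im ^ 2 := by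
      rw [Complex.sq_norm, Complex.normSq_apply]
      ring
    have h2 : |D.re| ^ 2 ≤ (‖D‖ / 2) ^ 2 := by
      have := abs_nonneg D.re
      gcongr
    rw [sq_abs] at h2
    nlinarith
  by_cases hi : D.im = 0
  · have h0 : D.re = 0 := by
      rw [hi] at hsq
      nlinarith [sq_nonneg D.re]
    exact ⟨0, by rw [abs_zero]; positivity, by rw [h0, hi]; ring⟩
  · have h3 : (0 : ℝ) < √3 := Real.sqrt_pos.2 (by norm_num)
    have h33 : √3 * √3 = 3 := Real.mul_self_sqrt (by norm_num)
    have hr : |D.re / D.im| ≤ 1 / √3 := by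
      rw [abs_div, div_le_div_iff₀ (abs_pos.2 hi) h3, one_mul]
      refine abs_le_of_sq_le_sq' ?_ (abs_nonneg _) |>.2
      rw [mul_pow, sq_abs, sq_abs, Real.sq_sqrt (by norm_num)]
      linarith
    have hr' := abs_le.1 hr
    have ht : Real.arctan (1 / √3) = Real.pi / 6 := by
      rw [← Real.tan_pi_div_six]
      exact Real.arctan_tan (by linarith) (by linarith)
    refine ⟨Real.arctan (-(D.re / D.im)), ?_, ?_⟩
    · rw [abs_le]
      constructor
      · rw [← ht, ← Real.arctan_neg]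
        exact Real.arctan_strictMono.monotone (by linarith [hr'.2])
      · rw [← ht]
        exact Real.arctan_strictMono.monotone (by linarith [hr'.1])
    · have hc := Real.cos_arctan_pos (-(D.re / D.im))
      have h4 : Real.sin (Real.arctan (-(D.re / D.im))) =
          -(D.re / D.im) * Real.cos (Real.arctan (-(D.re / D.im))) := by
        rw [← Real.tan_mul_cos hc.ne', Real.tan_arctan]
      rw [h4]
      field_simp
      ring

theorem p_IZ2 (hST : Stmt_ST) (hOVG : Stmt_OVG) (hLEV : Stmt_LEV) (hCLS : Stmt_CLS)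
    (hB2 : Stmt_B2) (hK2 : Stmt_K2) : Stmt_IZ2 := by
  intro m κ α μ1 μ2 c i j z hm1 hm1' hm2 hm2' F hij hj hcz hc0
  have hpi := Real.pi_pos
  have C := F.ch
  have hμ1 : 0 < μ1 := by linarith
  have hμ2 : 0 < μ2 := by linarith
  have hi : i < m := hij.trans hj
  have hlev := (hLEV m κ α μ1 μ2 hμ1 hμ2 F).1
  rcases le_or_gt (dist (W κ α i) (W κ α j) / 2) |(W κ α i).re - (W κ α j).re| with hd | hd
  · left
    exact hST (W κ α i) (W κ α j) z c _ (hlev i hi) (hlev j hj) hc0 hcz hd
  -- positions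
  have hLi : μ1 ≤ κ i - α i := by
    have h1 := IZ2_l C (Nat.zero_le i) hi
    rw [F.left] at h1
    exact h1
  have hRj : κ j + α j ≤ 2 * Real.pi - μ2 := by
    have h1 := IZ2_r C (Nat.le_sub_one_of_lt hj) (Nat.sub_lt F.pos one_pos)
    rw [F.right] at h1
    exact h1
  have hLij : κ i - α i < κ j - α j :=
    (C.l i (by omega)).trans_le (IZ2_l C hij hj)
  have hRij : κ i + α i < κ j + α j :=
    (C.r i (by omega)).trans_le (IZ2_r C hij hj)
  have ai0 := C.α0 i hi
  have ai1 := C.α1 i hi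
  have aj0 := C.α0 j hj
  have aj1 := C.α1 j hj
  by_cases hov : ov κ α i j
  · -- overlapping neighbours
    right
    left
    refine ⟨hov, ?_⟩
    have hov' : κ j - α j ≤ κ i + α i := by
      rcases hov with h | h
      · exact h.2
      · omega
    obtain ⟨θ0, ρ, p, q, hθ1, hθ2, hρ, hpq, hw, hw', hdist⟩ :=
      hOVG (κ i) (κ j) (α i) (α j) ai0 ai1 aj0 aj1 hLij hov' hRij
    have hre : (W κ α i).re - (W κ α j).re = (p + q) * Real.sin θ0 := by
      unfold W
      rw [hw, hw']
      simp only [u, e, Complex.add_re, Complex.sub_re, Complex.mul_re, Complex.ofReal_re,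
        Complex.ofReal_im]
      ring
    have hd' : dist (W κ α i) (W κ α j) = p + q := hdist
    rw [hre, hd', abs_mul, abs_of_nonneg hpq] at hd
    have hs : |Real.sin θ0| < 1 / 2 := by
      by_contra h
      push Not at h
      have := mul_le_mul_of_nonneg_left h hpq
      linarith
    have hσ := IZ2_sigma (x := θ0) (by linarith) (by linarith) hs
    have e0 : Real.pi + (θ0 - Real.pi) = θ0 := by ring
    have hb := hB2 (θ0 - Real.pi) μ1 μ2 ρ p q (W κ α i) (W κ α j) z hσ hm1 hm1' hm2 hm2' hρ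
      (by rw [e0]; exact hw) (by rw [e0]; exact hw')
      (by
        refine IZ2_out ai0 ai1 (IZ2_cos ai0 (by linarith) (by linarith) (by linarith)))
      (by
        refine IZ2_out aj0 aj1 (IZ2_cos aj0 (by linarith) (by linarith) (by linarith)))
    have hdd : dd κ α i j = p + q := hdist
    rw [hdd]
    linarith
  · -- disjoint caps
    right
    right
    refine ⟨hov, ?_⟩
    have hsep : κ i + α i < κ j - α j := by
      rcases Nat.lt_or_ge (i + 1) j with h | h
      · exact (C.sep i (by omega)).trans_le (IZ2_l C (by omega) hj)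
      · have e1 : j = i + 1 := by omega
        subst e1
        exact absurd (Or.inl ⟨rfl, F.nogap i hj⟩) hov
    obtain ⟨ψ, hψ, hψ2⟩ := IZ2_psi (W κ α i - W κ α j) (by
      rw [← Complex.dist_eq, Complex.sub_re]
      exact hd.le)
    have hpr : pr ψ (V (κ i) (α i)) = pr ψ (V (κ j) (α j)) := by
      rw [Complex.sub_re, Complex.sub_im] at hψ2
      unfold pr
      unfold W at hψ2
      linarith
    have hψ' := abs_le.1 hψ
    rcases hCLS (κ i) (κ j) (α i) (α j) ψ ai0 ai1 aj0 aj1 (by linarith) hsep (by linarith)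
      (by linarith) hψ hpr with h | h
    · have hk := hK2 (κ i) (κ j) (α i) (α j) ψ μ1 μ2 z ai0 ai1 aj0 aj1 hψ hm1 hm1' hm2 hm2'
        h.2.1 h.2.2.1 h.2.2.2.1 h.2.2.2.2 hLi hRj
      have e1 : dist (W κ α i) z + dist z (W κ α j) =
        dist (V (κ i) (α i)) z + dist z (V (κ j) (α j)) := rfl
      rw [e1]
      linarith
    · exfalso
      rcases h.2 with h1 | h1
      · linarith
      · linarith

end

end Pool.BA

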