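import Pool.Agent.Work.MP_655153_ba.Interface4

/-!
# Block SFB
-/

open MeasureTheory Set

namespace Pool.BA

private theorem SFB_aux (t : ℝ) (ht : 0 ≤ t) : 1 - Real.pi / 2 ≤ t - 2 * Real.arctan t := by
  have hd : ∀ x : ℝ, HasDerivAt (fun t : ℝ => t - 2 * Real.arctan t) (1 - 2 * (1 / (1 + x ^ 2))) x :=
    fun x => (hasDerivAt_id x).sub ((Real.hasDerivAt_arctan x).const_mul 2)
  have hc : Continuous (fun t : ℝ => t - 2 * Real.arctan t) :=
    continuous_iff_continuousAt.2 fun x => (hd x).continuousAt
  have h1 : (fun t : ℝ => t - 2 * Real.arctan t) 1 = 1 - Real.pi / 2 := by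
    simp only [Real.arctan_one]
    ring
  rcases le_total t 1 with h | h
  · have hm : AntitoneOn (fun t : ℝ => t - 2 * Real.arctan t) (Icc 0 1) := by
      refine antitoneOn_of_deriv_nonpos (convex_Icc 0 1) hc.continuousOn
        (fun x _ => (hd x).differentiableAt.differentiableWithinAt) fun x hx => ?_
      rw [interior_Icc] at hx
      rw [(hd x).deriv]
      have h2 : 0 < 1 + x ^ 2 := by positivity
      have h3 : x ^ 2 ≤ 1 := by nlinarith [hx.1, hx.2]
      have h4 : 1 / 2 ≤ 1 / (1 + x ^ 2) := by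
        apply one_div_le_one_div_of_le h2
        linarith
      linarith
    have := hm ⟨ht, h⟩ ⟨zero_le_one, le_rfl⟩ h
    rw [h1] at this
    exact this
  · have hm : MonotoneOn (fun t : ℝ => t - 2 * Real.arctan t) (Ici 1) := by
      refine monotoneOn_of_deriv_nonneg (convex_Ici 1) hc.continuousOn
        (fun x _ => (hd x).differentiableAt.differentiableWithinAt) fun x hx => ?_
      rw [interior_Ici] at hx
      rw [(hd x).deriv]
      have h2 : (0 : ℝ) < 2 := by norm_num
      have h3 : 1 ≤ x ^ 2 := by nlinarith [mem_Ioi.1 hx]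
      have h4 : 1 / (1 + x ^ 2) ≤ 1 / 2 := by
        apply one_div_le_one_div_of_le h2
        linarith
      linarith
    have := hm (mem_Ici.2 le_rfl) (mem_Ici.2 h) h
    rw [h1] at this
    exact this

theorem p_SFB : Stmt_SFB := by
  intro α h0 h1
  have ht : 0 ≤ Real.tan α := Real.tan_nonneg_of_nonneg_of_le_pi_div_two h0 h1.le
  have ha : Real.arctan (Real.tan α) = α := Real.arctan_tan (by linarith [Real.pi_pos]) h1
  have h2 := SFB_aux (Real.tan α) ht
  have h3 := Real.le_tan h0 h1
  rw [ha] at h2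
  unfold sf s0
  constructor <;> linarith

end Pool.BA
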