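import Pool.Agent.Work.MP_655153_ba.Interface5
import Pool.Agent.Work.MP_655153_ba.B_SFB

/-!
# Block K0: no free direction
-/

open MeasureTheory Set

namespace Pool.BA

/-- level sets are countable -/
private theorem K0_ctbl (z : ℂ) (c : ℝ) (hc : 0 < c) : {θ : ℝ | pr θ z = c}.Countable := by
  rcases Set.eq_empty_or_nonempty {θ : ℝ | pr θ z = c} with h | ⟨θ1, h1⟩
  · rw [h]
    exact Set.countable_empty
  · have e1 := Complex.norm_mul_cos_arg z
    have e2 := Complex.norm_mul_sin_arg z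
    have hz : ∀ θ, pr θ z = ‖z‖ * Real.cos (θ - Complex.arg z) := by
      intro θ
      rw [Real.cos_sub]
      unfold pr
      calc z.re * Real.cos θ + z.im * Real.sin θ
          = (‖z‖ * Real.cos (Complex.arg z)) * Real.cos θ +
            (‖z‖ * Real.sin (Complex.arg z)) * Real.sin θ := by rw [e1, e2]
        _ = _ := by ring
    have h1' : pr θ1 z = c := h1
    have hn : ‖z‖ ≠ 0 := by
      intro h0
      rw [hz, h0, zero_mul] at h1'
      exact hc.ne h1'
    refine ((Set.countable_range fun k : ℤ =>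
      Complex.arg z + (2 * (k : ℝ) * Real.pi + (θ1 - Complex.arg z))).union
      (Set.countable_range fun k : ℤ =>
      Complex.arg z + (2 * (k : ℝ) * Real.pi - (θ1 - Complex.arg z)))).mono ?_
    intro θ hθ
    have hθ' : pr θ z = c := hθ
    have h2 : Real.cos (θ1 - Complex.arg z) = Real.cos (θ - Complex.arg z) := by
      rw [hz] at h1' hθ'
      exact mul_left_cancel₀ hn (h1'.trans hθ'.symm)
    obtain ⟨k, hk | hk⟩ := Real.cos_eq_cos_iff.1 h2
    · left
      exact ⟨k, by simp only; linarith⟩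
    · right
      exact ⟨k, by simp only; linarith⟩

private theorem K0_mono {m : ℕ} {f : ℕ → ℝ} (h : ∀ i, i + 1 < m → f i < f (i + 1)) :
    ∀ i j, i ≤ j → j < m → f i ≤ f j := by
  intro i j hij
  induction j, hij using Nat.le_induction with
  | base =>
    intro _
    exact le_rfl
  | succ j _ ih =>
    intro hj
    exact (ih (by omega)).trans (h j hj).le

/-- the gaps are free intervals -/
private theorem K0_gap (hMS : Stmt_MS) (hROT : Stmt_ROT) (P : List ℂ) (θ0 : ℝ) (m : ℕ)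
    (κ α : ℕ → ℝ) (hm : 0 < m) (hch : Chain m κ α) (h1 : θ0 < Lf κ α 0)
    (h2 : Rt κ α (m - 1) < θ0 + 2 * Real.pi)
    (h3 : ∀ θ ∈ Icc θ0 (θ0 + 2 * Real.pi),
      (¬ Free P θ ↔ ∃ i < m, Lf κ α i ≤ θ ∧ θ ≤ Rt κ α i)) (s : ℕ) (hs : s < m) :
    gap κ α m s ≤ fr P := by
  have h0 : 0 ≤ fr P := ENNReal.toReal_nonneg
  have hL := K0_mono hch.l
  have hR := K0_mono hch.r
  have hLR : ∀ i, i < m → Lf κ α i ≤ Rt κ α i := by
    intro i hi
    have := hch.α0 i hi
    unfold Lf Rt
    linarith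
  have hm1 : m - 1 < m := by omega
  unfold gap
  split_ifs with h
  · by_cases hab : Rt κ α (m - 1) ≤ Lf κ α 0 + 2 * Real.pi
    · refine (hMS.2.2.2 P (Rt κ α (m - 1)) (Lf κ α 0 + 2 * Real.pi) hab ?_ ?_).2
      · have a1 := hL 0 (m - 1) (by omega) hm1
        have a2 := hLR (m - 1) hm1
        linarith
      · rintro θ ⟨g1, g2⟩
        have a1 : θ0 < Rt κ α (m - 1) :=
          h1.trans_le ((hL 0 (m - 1) (by omega) hm1).trans (hLR (m - 1) hm1))
        rcases le_or_gt θ (θ0 + 2 * Real.pi) with h5 | h5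
        · by_contra hF
          obtain ⟨i, hi, -, h6⟩ := (h3 θ ⟨by linarith, h5⟩).1 hF
          have := hR i (m - 1) (by omega) hm1
          linarith
        · have h7 := hROT.2.2.2.2.2.1 P (θ - 2 * Real.pi)
          rw [sub_add_cancel] at h7
          rw [h7]
          by_contra hF
          have a2 := hL 0 (m - 1) (by omega) hm1
          have a3 := hLR (m - 1) hm1
          obtain ⟨i, hi, h6, -⟩ := (h3 (θ - 2 * Real.pi) ⟨by linarith, by linarith⟩).1 hF
          have := hL 0 i (by omega) hi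
          linarith
    · linarith
  · by_cases hab : Rt κ α (s - 1) ≤ Lf κ α s
    · have b1 := hL 0 (s - 1) (by omega) (by omega)
      have b2 := hLR (s - 1) (by omega)
      have b3 := hR s (m - 1) (by omega) hm1
      have b4 := hLR s hs
      refine (hMS.2.2.2 P (Rt κ α (s - 1)) (Lf κ α s) hab (by linarith) ?_).2
      rintro θ ⟨g1, g2⟩
      by_contra hF
      obtain ⟨i, hi, h6, h7⟩ := (h3 θ ⟨by linarith, by linarith⟩).1 hF
      rcases le_or_gt i (s - 1) with h8 | h8
      · have := hR i (s - 1) h8 (by omega)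
        linarith
      · have := hL s i (by omega) hi
        linarith
    · linarith

private theorem K0_plen (c : ℝ) (hc : 0 ≤ c) : ∀ P : List ℂ,
    plen (P.map (fun z => c • z)) = c * plen P
  | [] => by simp [plen]
  | [x] => by simp [plen]
  | x :: y :: l => by
    have ih := K0_plen c hc (y :: l)
    simp only [List.map_cons, plen] at ih ⊢
    rw [ih, dist_smul₀, Real.norm_of_nonneg hc]
    ring

private theorem K0_norm (κ α : ℝ) (h0 : 0 ≤ α) (h1 : α < Real.pi / 2) (R : ℝ)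
    (h : ‖V κ α‖ ≤ R) : α ≤ Real.arccos (1 / R) := by
  have hc : 0 < Real.cos α := Real.cos_pos_of_mem_Ioo ⟨by linarith [Real.pi_pos], h1⟩
  have h2 : ‖V κ α‖ = 1 / Real.cos α := by
    have h3 : ‖V κ α‖ ^ 2 = (1 / Real.cos α) ^ 2 := by
      rw [← Complex.normSq_eq_norm_sq, Complex.normSq_apply]
      unfold V
      have := Real.sin_sq_add_cos_sq κ
      field_simp
      linarith
    exact (sq_eq_sq₀ (norm_nonneg _) (by positivity)).1 h3
  rw [h2] at h
  have hR : 0 < R := lt_of_lt_of_le (by positivity) h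
  have h4 : 1 / R ≤ Real.cos α := by
    rw [div_le_iff₀ hR]
    rw [div_le_iff₀ hc] at h
    linarith
  have h5 : Real.arccos (Real.cos α) = α := Real.arccos_cos h0 (by linarith [Real.pi_pos])
  rw [← h5]
  exact Real.arccos_le_arccos h4

private theorem K0_est (hHUL : Stmt_HUL) (hMS : Stmt_MS) (hROT : Stmt_ROT) (Q : List ℂ)
    (θ0 R η : ℝ) (hR : ∀ z ∈ Q, ‖z‖ ≤ R) (hfree : Free Q θ0) (hfr : fr Q < η)
    (hη : η ≤ Real.pi - 2 * Real.arccos (1 / R)) : Real.pi + 2 - η ≤ plen Q := by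
  have h0 : 0 ≤ fr Q := ENNReal.toReal_nonneg
  have hpi := Real.pi_pos
  have hA := Real.arccos_nonneg (1 / R)
  have hnf : ∃ θ, ¬ Free Q θ := by
    by_contra hall
    push Not at hall
    have := (hMS.2.2.2 Q 0 (2 * Real.pi) (by linarith) (by linarith) (fun θ _ => hall θ)).2
    linarith
  obtain ⟨m, κ, α, hm, hch, h1, h2, hV, h3, h4⟩ := hHUL Q θ0 hfree hnf
  have hα : ∀ i, i < m → α i ≤ Real.arccos (1 / R) := fun i hi =>
    K0_norm (κ i) (α i) (hch.α0 i hi) (hch.α1 i hi) R (hR _ (hV i hi))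
  have hg := K0_gap hMS hROT Q θ0 m κ α hm hch h1 h2 h3
  have hm3 : 3 ≤ m := by
    by_contra hlt
    have hc : m = 1 ∨ m = 2 := by omega
    rcases hc with rfl | rfl
    · have a1 := hg 0 (by omega)
      have a2 := hα 0 (by omega)
      unfold gap Lf Rt at a1
      rw [if_pos rfl] at a1
      simp only [Nat.sub_self] at a1
      linarith
    · have a1 := hg 0 (by omega)
      have a2 := hα 0 (by omega)
      have a3 := hg 1 (by omega)
      have a4 := hα 1 (by omega)
      unfold gap Lf Rt at a1 a3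
      rw [if_pos rfl] at a1
      rw [if_neg one_ne_zero] at a3
      simp only [Nat.sub_self, Nat.add_one_sub_one] at a1 a3
      linarith
  rcases h4 (Or.inl hm3) with h5 | ⟨s, hs, h6, h7⟩
  · unfold s0 at h5
    linarith
  · have a1 := hg s hs
    have hp : prd m s < m := by
      unfold prd
      split_ifs <;> omega
    have a2 := (p_SFB (α s) (hch.α0 s hs) (hch.α1 s hs)).1
    have a3 := (p_SFB (α (prd m s)) (hch.α0 _ hp) (hch.α1 _ hp)).1
    unfold s0 at a2 a3
    linarith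

theorem p_K0 (hHUL : Stmt_HUL) (hMS : Stmt_MS) (hROT : Stmt_ROT) : Stmt_K0 := by
  classical
  intro P hP
  by_contra hlt
  push Not at hlt
  have hpi := Real.pi_pos
  have hne : P ≠ [] := by
    rintro rfl
    exact hP 0 (fun p hp => absurd hp (by simp))
  have hs : P.toFinset.Nonempty := List.toFinset_nonempty_iff P |>.2 hne
  let h : ℝ → ℝ := fun θ => P.toFinset.sup' hs (fun p => pr θ p)
  have hprc : ∀ p : ℂ, Continuous fun θ => pr θ p := by
    intro p
    unfold pr
    fun_prop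
  have hcont : Continuous h := Continuous.finset_sup'_apply hs (fun p _ => hprc p)
  have hge : ∀ θ, 1 ≤ h θ := by
    intro θ
    have h1 := hP θ
    unfold Free at h1
    push Not at h1
    obtain ⟨p, hp, h2⟩ := h1
    exact h2.trans (Finset.le_sup' (fun p => pr θ p) (List.mem_toFinset.2 hp))
  obtain ⟨θ0, hθ0, hmin⟩ := isCompact_Icc.exists_isMinOn
    (nonempty_Icc.2 (by linarith : (0 : ℝ) ≤ 2 * Real.pi)) hcont.continuousOn
  have hl1 := hge θ0
  have hl0 : 0 < h θ0 := by linarith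
  -- the constants
  let R : ℝ := max (P.toFinset.sup' hs (fun z => ‖z‖)) 2
  have hR0 : 0 < R := lt_of_lt_of_le (by norm_num) (le_max_right _ _)
  have hRb : ∀ z ∈ P, ‖z‖ ≤ R := fun z hz =>
    (Finset.le_sup' (fun z => ‖z‖) (List.mem_toFinset.2 hz)).trans (le_max_left _ _)
  have hA : Real.arccos (1 / R) < Real.pi / 2 := Real.arccos_lt_pi_div_two.2 (by positivity)
  obtain ⟨η, hη0, hη1, hη2⟩ : ∃ η : ℝ, 0 < η ∧ η ≤ Real.pi - 2 * Real.arccos (1 / R) ∧
      η < Real.pi + 2 - plen P := by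
    refine ⟨min (Real.pi - 2 * Real.arccos (1 / R)) ((Real.pi + 2 - plen P) / 2), ?_, min_le_left _ _,
      (min_le_right _ _).trans_lt (by linarith)⟩
    exact lt_min (by linarith) (by linarith)
  -- the measure
  let S : ℕ → Set ℝ := fun n => {θ | h θ < h θ0 * (1 + 1 / ((n : ℝ) + 1))} ∩ Ioc 0 (2 * Real.pi)
  have hSm : ∀ n, NullMeasurableSet (S n) volume := fun n =>
    ((isOpen_lt hcont continuous_const).measurableSet.inter measurableSet_Ioc).nullMeasurableSet
  have hSa : Antitone S := by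
    intro a b hab θ hθ
    refine ⟨?_, hθ.2⟩
    show h θ < h θ0 * (1 + 1 / ((a : ℝ) + 1))
    have h0 : h θ < h θ0 * (1 + 1 / ((b : ℝ) + 1)) := hθ.1
    refine lt_of_lt_of_le h0 ?_
    refine mul_le_mul_of_nonneg_left ?_ hl0.le
    have h1 : ((a : ℝ)) ≤ b := by exact_mod_cast hab
    have h2 : 1 / ((b : ℝ) + 1) ≤ 1 / ((a : ℝ) + 1) :=
      one_div_le_one_div_of_le (by positivity) (by linarith)
    linarith
  have hSf : ∃ n, volume (S n) ≠ ⊤ := by
    refine ⟨0, ne_top_of_le_ne_top ?_ (measure_mono (inter_subset_right : S 0 ⊆ _))⟩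
    rw [Real.volume_Ioc]
    exact ENNReal.ofReal_ne_top
  have hS0 : volume (⋂ n, S n) = 0 := by
    have hsub : (⋂ n, S n) ⊆ ⋃ p ∈ P.toFinset, {θ | pr θ p = h θ0} := by
      intro θ hθ
      have h1 : ∀ n, θ ∈ S n := fun n => mem_iInter.1 hθ n
      have h2 : h θ0 ≤ h θ := hmin ⟨(h1 0).2.1.le, (h1 0).2.2⟩
      have h3 : h θ ≤ h θ0 := by
        by_contra hc
        push Not at hc
        obtain ⟨n, hn⟩ := exists_nat_one_div_lt (div_pos (sub_pos.2 hc) hl0)
        have h4 := (h1 n).1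
        rw [lt_div_iff₀ hl0] at hn
        have h4' : h θ < h θ0 * (1 + 1 / ((n : ℝ) + 1)) := h4
        nlinarith
      obtain ⟨p, hp, hp2⟩ := Finset.exists_mem_eq_sup' hs (fun p => pr θ p)
      refine mem_iUnion₂.2 ⟨p, hp, ?_⟩
      show pr θ p = h θ0
      rw [← hp2]
      exact le_antisymm h3 h2
    refine measure_mono_null hsub ?_
    exact (Set.Countable.biUnion (Finset.countable_toSet _)
      (fun p _ => K0_ctbl p (h θ0) hl0)).measure_zero volume
  have htend := tendsto_measure_iInter_atTop hSm hSa hSf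
  rw [hS0] at htend
  obtain ⟨n, hn⟩ := ((tendsto_order.1 htend).2 (ENNReal.ofReal η)
    (ENNReal.ofReal_pos.2 hη0)).exists
  have hn' : (volume (S n)).toReal < η := ENNReal.toReal_lt_of_lt_ofReal hn
  -- the scaled list
  have hc1 : 1 ≤ h θ0 * (1 + 1 / ((n : ℝ) + 1)) := by
    have h1 : (0 : ℝ) < 1 / ((n : ℝ) + 1) := by positivity
    nlinarith
  have hc2 : h θ0 < h θ0 * (1 + 1 / ((n : ℝ) + 1)) := by
    have h1 : (0 : ℝ) < 1 / ((n : ℝ) + 1) := by positivity
    nlinarith
  have hSn : S n = {θ | h θ < h θ0 * (1 + 1 / ((n : ℝ) + 1))} ∩ Ioc 0 (2 * Real.pi) := rfl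
  rw [hSn] at hn'
  generalize h θ0 * (1 + 1 / ((n : ℝ) + 1)) = c at hc1 hc2 hn'
  have hc0 : 0 < c := by linarith
  have hinv : c⁻¹ ≤ 1 := inv_le_one_of_one_le₀ hc1
  have hinv0 : 0 < c⁻¹ := inv_pos.2 hc0
  have hF : ∀ θ, Free (P.map (fun z => c⁻¹ • z)) θ ↔ h θ < c := by
    intro θ
    have h1 : h θ < c ↔ ∀ p ∈ P.toFinset, pr θ p < c := Finset.sup'_lt_iff hs
    rw [h1]
    unfold Free
    have h2 : ∀ z : ℂ, pr θ (c⁻¹ • z) = c⁻¹ * pr θ z := by
      intro z
      unfold pr
      rw [Complex.smul_re, Complex.smul_im, smul_eq_mul, smul_eq_mul]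
      ring
    constructor
    · intro h3 p hp
      have h4 := h3 (c⁻¹ • p) (List.mem_map.2 ⟨p, List.mem_toFinset.1 hp, rfl⟩)
      rw [h2, inv_mul_lt_iff₀ hc0, mul_one] at h4
      exact h4
    · intro h3 q hq
      obtain ⟨p, hp, rfl⟩ := List.mem_map.1 hq
      rw [h2, inv_mul_lt_iff₀ hc0, mul_one]
      exact h3 p (List.mem_toFinset.2 hp)
  have hfr : fr (P.map (fun z => c⁻¹ • z)) < η := by
    unfold fr
    have h1 : {θ | Free (P.map (fun z => c⁻¹ • z)) θ} = {θ | h θ < c} := by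
      ext θ
      exact hF θ
    rw [h1]
    exact hn'
  have hb : ∀ z ∈ P.map (fun z => c⁻¹ • z), ‖z‖ ≤ R := by
    intro z hz
    obtain ⟨p, hp, rfl⟩ := List.mem_map.1 hz
    rw [norm_smul, Real.norm_of_nonneg hinv0.le]
    have h1 := hRb p hp
    have h2 := norm_nonneg p
    nlinarith
  have hend := K0_est hHUL hMS hROT (P.map (fun z => c⁻¹ • z)) θ0 R η hb
    ((hF θ0).2 hc2) hfr hη1
  rw [K0_plen c⁻¹ hinv0.le] at hend
  have hpl := hROT.2.2.2.2.2.2.2 P
  nlinarith

end Pool.BA
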