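import Pool.Agent.Work.MP_655153_ba.Interface3

/-! # Block K1 (helper53): flat pair with disjoint caps, small angles -/

open MeasureTheory Set

namespace Pool.BA

noncomputable section

private theorem K1_pr (θ : ℝ) (w z : ℂ) : pr θ z - pr θ w ≤ dist w z := by
  rw [Complex.dist_eq_re_im]
  apply Real.le_sqrt_of_sq_le
  unfold pr
  nlinarith [Real.sin_sq_add_cos_sq θ,
    sq_nonneg ((w.re - z.re) * Real.sin θ - (w.im - z.im) * Real.cos θ),
    mul_self_nonneg (w.re - z.re), mul_self_nonneg (w.im - z.im)]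

/-- (1) -/
private theorem K1_one (α x : ℝ) (h0 : 0 ≤ α) (h1 : α < Real.pi / 2) (hx : α ≤ x)
    (hx' : x ≤ Real.pi - α) : Real.tan α ≤ Real.sin x / Real.cos α := by
  have hc : 0 < Real.cos α := Real.cos_pos_of_mem_Ioo ⟨by linarith, h1⟩
  rw [Real.tan_eq_sin_div_cos]
  refine div_le_div_of_nonneg_right ?_ hc.le
  rcases le_total x (Real.pi / 2) with h | h
  · exact Real.sin_le_sin_of_le_of_le_pi_div_two (by linarith) h hx
  · rw [← Real.sin_pi_sub x]
    exact Real.sin_le_sin_of_le_of_le_pi_div_two (by linarith) (by linarith) (by linarith)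

/-- (2) -/
private theorem K1_two (κ α τ : ℝ) (h1 : α < Real.pi / 2) (hγ : 0 < κ - α)
    (hγτ : κ - α ≤ τ) (hτ : τ ≤ Real.pi / 6) (hκ : κ + α ≤ Real.pi - τ) (h0 : 0 ≤ α) :
    Real.tan α ≤ Real.sin (κ - τ) / Real.cos α + 2 * (Real.sin τ - Real.sin (κ - α)) := by
  have hpi := Real.pi_pos
  have hc : 0 < Real.cos α := Real.cos_pos_of_mem_Ioo ⟨by linarith, h1⟩
  obtain ⟨v, hv⟩ : ∃ v, v = (τ - (κ - α)) / 2 := ⟨_, rfl⟩
  obtain ⟨h, hh⟩ : ∃ h, h = (τ + (κ - α)) / 2 := ⟨_, rfl⟩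
  have hv0 : 0 ≤ Real.sin v := Real.sin_nonneg_of_nonneg_of_le_pi (by linarith) (by linarith)
  have hh0 : 0 < Real.sin h := Real.sin_pos_of_pos_of_lt_pi (by linarith) (by linarith)
  have e1 : κ - τ = (α - v) - v := by rw [hv]; ring
  have e2 : α = (α - v) + v := by ring
  have e3 : τ = h + v := by rw [hv, hh]; ring
  have e4 : κ - α = h - v := by rw [hv, hh]; ring
  -- `sin α - sin (κ - τ) = 2 cos (α - v) sin v`
  have h2 : Real.sin α - Real.sin (κ - τ) = 2 * Real.cos (α - v) * Real.sin v := by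
    rw [e1, Real.sin_sub (α - v) v]
    nth_rewrite 1 [e2]
    rw [Real.sin_add]
    ring
  have h3 : Real.sin τ - Real.sin (κ - α) = 2 * Real.cos h * Real.sin v := by
    rw [e3, e4, Real.sin_add, Real.sin_sub]
    ring
  have h4 : Real.sin α * Real.sin h ≤ Real.cos α * Real.cos h := by
    have h5 : 0 ≤ Real.cos (α + h) := Real.cos_nonneg_of_mem_Icc ⟨by linarith, by linarith⟩
    rw [Real.cos_add] at h5
    linarith
  have h6 : Real.sin (h + v) ≤ Real.sin (2 * h) :=
    Real.sin_le_sin_of_le_of_le_pi_div_two (by linarith) (by linarith) (by linarith)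
  have h7 : Real.cos (α - v) ≤ 2 * Real.cos h * Real.cos α := by
    have h8 : Real.sin h * Real.cos (α - v) ≤ Real.sin h * (2 * Real.cos h * Real.cos α) := by
      calc Real.sin h * Real.cos (α - v)
          = Real.sin h * Real.cos α * Real.cos v + (Real.sin α * Real.sin h) * Real.sin v := by
            rw [Real.cos_sub]
            ring
        _ ≤ Real.sin h * Real.cos α * Real.cos v + (Real.cos α * Real.cos h) * Real.sin v := by
            have := mul_le_mul_of_nonneg_right h4 hv0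
            linarith
        _ = Real.cos α * Real.sin (h + v) := by
            rw [Real.sin_add]
            ring
        _ ≤ Real.cos α * Real.sin (2 * h) := mul_le_mul_of_nonneg_left h6 hc.le
        _ = Real.sin h * (2 * Real.cos h * Real.cos α) := by
            rw [Real.sin_two_mul]
            ring
    exact le_of_mul_le_mul_left h8 hh0
  have h9 : Real.sin α ≤ Real.sin (κ - τ) +
      2 * (Real.sin τ - Real.sin (κ - α)) * Real.cos α := by
    rw [h3]
    have h10 := mul_le_mul_of_nonneg_right h7 hv0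
    nlinarith
  rw [Real.tan_eq_sin_div_cos, div_add' _ _ _ hc.ne']
  exact div_le_div_of_nonneg_right h9 hc.le

private theorem K1_half (κ κ' α α' ψ ϑ τ : ℝ) (h0 : 0 ≤ α) (h1 : α < Real.pi / 2)
    (h0' : 0 ≤ α') (h1' : α' < Real.pi / 2) (hψ : 0 ≤ ψ) (hψ' : ψ ≤ Real.pi / 6) (hϑ : 0 < ϑ)
    (hϑ' : ϑ ≤ Real.pi / 6) (hτ : τ = max ψ ϑ) (a1 : ψ + α < κ) (a2 : κ < ψ + Real.pi - α)
    (a3 : ϑ ≤ κ - α) (b2 : κ' < -ψ + Real.pi - α')
    (b3 : ϑ ≤ κ' - α') :
    Real.tan α + Real.tan α' ≤ Real.sin (κ - τ) / Real.cos α + Real.sin (κ' - τ) / Real.cos α' +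
      2 * (Real.sin τ - Real.sin ϑ) := by
  have hpi := Real.pi_pos
  have hτ1 : ψ ≤ τ := by rw [hτ]; exact le_max_left _ _
  have hτ2 : ϑ ≤ τ := by rw [hτ]; exact le_max_right _ _
  have hτ3 : τ ≤ Real.pi / 6 := by rw [hτ]; exact max_le hψ' hϑ'
  have hτ4 : τ ≤ κ - α := by rw [hτ]; exact max_le (by linarith) a3
  have hs : Real.sin ϑ ≤ Real.sin τ :=
    Real.sin_le_sin_of_le_of_le_pi_div_two (by linarith) (by linarith) hτ2
  have hS := K1_one α (κ - τ) h0 h1 (by linarith) (by linarith)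
  rcases le_total τ (κ' - α') with h | h
  · have hS' := K1_one α' (κ' - τ) h0' h1' (by linarith) (by linarith)
    linarith
  · -- then `τ = ψ` or `τ = κ' - α'`
    rcases le_total ψ ϑ with h2 | h2
    · have h3 : τ = ϑ := by rw [hτ]; exact max_eq_right h2
      have hS' := K1_one α' (κ' - τ) h0' h1' (by linarith) (by linarith)
      linarith
    · have h3 : τ = ψ := by rw [hτ]; exact max_eq_left h2
      have hS' := K1_two κ' α' τ h1' (by linarith) h hτ3 (by linarith) h0'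
      have hs' : Real.sin ϑ ≤ Real.sin (κ' - α') :=
        Real.sin_le_sin_of_le_of_le_pi_div_two (by linarith) (by linarith) b3
      linarith

theorem p_K1 : Stmt_K1 := by
  intro κ κ' α α' ψ ϑ c z h0 h1 h0' h1' hψ hϑ hϑ' a1 a2 b1 b2 a3 b3 hc hz
  have hpi := Real.pi_pos
  obtain ⟨τ, hτ⟩ : ∃ τ, τ = max |ψ| ϑ := ⟨_, rfl⟩
  have hτ2 : ϑ ≤ τ := by rw [hτ]; exact le_max_right _ _
  have hτ3 : τ ≤ Real.pi / 6 := by rw [hτ]; exact max_le hψ hϑ'
  have hst : Real.sin τ ≤ 1 / 2 := by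
    rw [← Real.sin_pi_div_six]
    exact Real.sin_le_sin_of_le_of_le_pi_div_two (by linarith) (by linarith) hτ3
  have hst0 : 0 ≤ Real.sin τ := Real.sin_nonneg_of_nonneg_of_le_pi (by linarith) (by linarith)
  have hkey : Real.tan α + Real.tan α' ≤ Real.sin (κ - τ) / Real.cos α +
      Real.sin (2 * Real.pi - κ' - τ) / Real.cos α' + 2 * (Real.sin τ - Real.sin ϑ) := by
    rcases le_total 0 ψ with h | h
    · rw [abs_of_nonneg h] at hτ hψ
      exact K1_half κ (2 * Real.pi - κ') α α' ψ ϑ τ h0 h1 h0' h1' h hψ hϑ hϑ' hτ a1 a2 a3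
        (by linarith) (by linarith)
    · rw [abs_of_nonpos h] at hτ hψ
      have h2 := K1_half (2 * Real.pi - κ') κ α' α (-ψ) ϑ τ h0' h1' h0 h1 (by linarith) hψ hϑ hϑ'
        hτ (by linarith) (by linarith) (by linarith) (by linarith) a3
      linarith
  have d1 := K1_pr (τ - Real.pi / 2) (V κ α) z
  have d2 := K1_pr (Real.pi / 2 - τ) (V κ' α') z
  rw [dist_comm] at d2
  have p1 : pr (τ - Real.pi / 2) (V κ α) = -(Real.sin (κ - τ) / Real.cos α) := by
    unfold pr V
    rw [Real.cos_sub_pi_div_two, Real.sin_sub_pi_div_two, Real.sin_sub κ τ]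
    ring
  have p2 : pr (Real.pi / 2 - τ) (V κ' α') = -(Real.sin (2 * Real.pi - κ' - τ) / Real.cos α') := by
    unfold pr V
    have e1 : Real.sin (2 * Real.pi - κ' - τ) = -Real.sin (κ' + τ) := by
      rw [show 2 * Real.pi - κ' - τ = 2 * Real.pi - (κ' + τ) by ring, Real.sin_two_pi_sub]
    rw [e1]
    rw [Real.cos_pi_div_two_sub, Real.sin_pi_div_two_sub, Real.sin_add κ' τ]
    ring
  have p3 : pr (τ - Real.pi / 2) z + pr (Real.pi / 2 - τ) z = 2 * z.re * Real.sin τ := by
    unfold pr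
    rw [Real.cos_sub_pi_div_two, Real.sin_sub_pi_div_two, Real.cos_pi_div_two_sub,
      Real.sin_pi_div_two_sub]
    ring
  have h3 : c * Real.sin τ ≤ z.re * Real.sin τ := mul_le_mul_of_nonneg_right hz hst0
  have h4 : 0 ≤ (1 - 2 * Real.sin τ) * (1 - c) := mul_nonneg (by linarith) (by linarith)
  nlinarith

end

end Pool.BA
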