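import Pool.Agent.Work.MP_655153_ba.Interface3

/-!
# Block K2: flat pair with disjoint caps, both angles at least `π/6`
-/

open MeasureTheory Set

namespace Pool.BA

noncomputable section

theorem K2_cs (w z : ℂ) (c s : ℝ) (h : c ^ 2 + s ^ 2 = 1) :
    (z.re - w.re) * c + (z.im - w.im) * s ≤ dist w z := by
  rw [Complex.dist_eq_re_im]
  apply Real.le_sqrt_of_sq_le
  have h1 : ((z.re - w.re) * c + (z.im - w.im) * s) ^ 2 +
      ((z.re - w.re) * s - (z.im - w.im) * c) ^ 2 =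
      ((w.re - z.re) ^ 2 + (w.im - z.im) ^ 2) * (c ^ 2 + s ^ 2) := by ring
  rw [h, mul_one] at h1
  nlinarith [sq_nonneg ((z.re - w.re) * s - (z.im - w.im) * c)]

/-- the estimate of one summand -/
theorem K2_S (α ψ μ κ : ℝ) (h0 : 0 ≤ α) (h1 : α < Real.pi / 2) (hψ : |ψ| ≤ Real.pi / 6)
    (hμ : Real.pi / 6 ≤ μ) (hμκ : μ ≤ κ - α) (hκ : κ < ψ + Real.pi - α) :
    2 * Real.sin ((μ - Real.pi / 6) / 2) * Real.sin ((Real.pi / 6 - ψ) / 2) /
      Real.sin ((μ - ψ) / 2) ≤ Real.sin (κ - Real.pi / 6) / Real.cos α - Real.tan α := by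
  obtain ⟨hψ1, hψ2⟩ := abs_le.1 hψ
  have hpi := Real.pi_pos
  set x := (κ - α - Real.pi / 6) / 2 with hx
  set x0 := (μ - Real.pi / 6) / 2 with hx0
  set k := (5 * Real.pi / 6 + ψ) / 2 with hk
  have hc : 0 < Real.cos α := Real.cos_pos_of_mem_Ioo ⟨by linarith, h1⟩
  have e1 : Real.sin (κ - Real.pi / 6) / Real.cos α - Real.tan α =
      2 * Real.sin x * Real.cos (x + α) / Real.cos α := by
    rw [Real.tan_eq_sin_div_cos, ← sub_div, Real.sin_sub_sin]
    have h2 : (κ - Real.pi / 6 - α) / 2 = x := by rw [hx]; ring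
    have h3 : (κ - Real.pi / 6 + α) / 2 = x + α := by rw [hx]; ring
    rw [h2, h3]
  have e2 : Real.sin ((Real.pi / 6 - ψ) / 2) = Real.cos k := by
    rw [← Real.sin_pi_div_two_sub]
    congr 1
    rw [hk]
    ring
  have e3 : Real.sin ((μ - ψ) / 2) = Real.cos (k - x0) := by
    rw [← Real.sin_pi_div_two_sub]
    congr 1
    rw [hk, hx0]
    ring
  have g0 : 0 ≤ x0 := by rw [hx0]; linarith
  have g1 : x0 ≤ x := by rw [hx0, hx]; linarith
  have g2 : x + α ≤ k := by rw [hx, hk]; linarith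
  have g3 : k ≤ Real.pi / 2 := by rw [hk]; linarith
  have g4 : 0 ≤ k := by linarith
  have s0 : 0 ≤ Real.sin x0 := Real.sin_nonneg_of_nonneg_of_le_pi g0 (by linarith)
  have s1 : 0 ≤ Real.sin x := Real.sin_nonneg_of_nonneg_of_le_pi (by linarith) (by linarith)
  have c1 : 0 ≤ Real.cos (x + α) :=
    Real.cos_nonneg_of_mem_Icc ⟨by linarith, by linarith⟩
  have ck : 0 ≤ Real.cos k := Real.cos_nonneg_of_mem_Icc ⟨by linarith, by linarith⟩
  have c0 : 0 ≤ Real.cos (k - x0) := Real.cos_nonneg_of_mem_Icc ⟨by linarith, by linarith⟩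
  rw [e1, e2, e3]
  rcases c0.eq_or_lt with h | h
  · rw [← h, div_zero]
    positivity
  · rw [div_le_div_iff₀ h hc]
    have p1 : Real.cos (x + α) * Real.cos (k - x) - Real.cos k * Real.cos α =
        Real.sin x * Real.sin (k - x - α) := by
      rw [Real.cos_add, Real.cos_sub, Real.sin_sub (k - x) α, Real.sin_sub k x, Real.cos_sub k x]
      linear_combination (Real.cos k * Real.cos α) * Real.sin_sq_add_cos_sq x
    have p2 : Real.sin x * Real.cos (k - x0) - Real.sin x0 * Real.cos (k - x) =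
        Real.cos k * Real.sin (x - x0) := by
      rw [Real.cos_sub, Real.cos_sub, Real.sin_sub]
      ring
    have q1 : 0 ≤ Real.sin x * Real.sin (k - x - α) :=
      mul_nonneg s1 (Real.sin_nonneg_of_nonneg_of_le_pi (by linarith) (by linarith))
    have q2 : 0 ≤ Real.cos k * Real.sin (x - x0) :=
      mul_nonneg ck (Real.sin_nonneg_of_nonneg_of_le_pi (by linarith) (by linarith))
    have r1 : Real.sin x0 * (Real.cos k * Real.cos α) ≤
        Real.sin x0 * (Real.cos (x + α) * Real.cos (k - x)) :=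
      mul_le_mul_of_nonneg_left (by linarith) s0
    have r2 : Real.cos (x + α) * (Real.sin x0 * Real.cos (k - x)) ≤
        Real.cos (x + α) * (Real.sin x * Real.cos (k - x0)) :=
      mul_le_mul_of_nonneg_left (by linarith) c1
    nlinarith [r1, r2]

theorem p_K2 (hGS : Stmt_GS) : Stmt_K2 := by
  intro κ κ' α α' ψ μ1 μ2 z h0 h1 h0' h1' hψ hm1 hm1' hm2 hm2' _ hκ hκ' _ hμ1 hμ2
  have hpi := Real.pi_pos
  have hG := hGS.2 ψ μ1 μ2 hψ hm1 hm1' hm2 hm2'
  have hS := K2_S α ψ μ1 κ h0 h1 hψ hm1 hμ1 hκ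
  have hS' := K2_S α' (-ψ) μ2 (2 * Real.pi - κ') h0' h1' (by rwa [abs_neg]) hm2 (by linarith)
    (by linarith)
  rw [sub_neg_eq_add, sub_neg_eq_add] at hS'
  have hu : Real.cos (Real.pi / 3) ^ 2 + Real.sin (Real.pi / 3) ^ 2 = 1 := by
    rw [add_comm]
    exact Real.sin_sq_add_cos_sq _
  have hd := K2_cs (V κ α) z (Real.cos (Real.pi / 3)) (-Real.sin (Real.pi / 3))
    (by rw [neg_sq]; exact hu)
  have hd' := K2_cs (V κ' α') z (Real.cos (Real.pi / 3)) (Real.sin (Real.pi / 3)) hu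
  rw [dist_comm (V κ' α') z] at hd'
  have e1 : Real.sin (κ - Real.pi / 6) =
      -(Real.cos κ * Real.cos (Real.pi / 3) - Real.sin κ * Real.sin (Real.pi / 3)) := by
    rw [← Real.cos_add]
    have h : κ + Real.pi / 3 = (κ - Real.pi / 6) + Real.pi / 2 := by ring
    rw [h, Real.cos_add_pi_div_two, neg_neg]
  have e2 : Real.sin (2 * Real.pi - κ' - Real.pi / 6) =
      -(Real.cos κ' * Real.cos (Real.pi / 3) + Real.sin κ' * Real.sin (Real.pi / 3)) := by
    rw [← Real.cos_sub]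
    have h : 2 * Real.pi - κ' - Real.pi / 6 = 2 * Real.pi - (κ' + Real.pi / 6) := by ring
    rw [h, Real.sin_two_pi_sub]
    have h2 : κ' + Real.pi / 6 = Real.pi / 2 + (κ' - Real.pi / 3) := by ring
    rw [h2, Real.sin_add, Real.sin_pi_div_two, Real.cos_pi_div_two]
    ring
  rw [e1] at hS
  rw [e2] at hS'
  have hV1 : (V κ α).re = Real.cos κ / Real.cos α := rfl
  have hV2 : (V κ α).im = Real.sin κ / Real.cos α := rfl
  have hV3 : (V κ' α').re = Real.cos κ' / Real.cos α' := rfl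
  have hV4 : (V κ' α').im = Real.sin κ' / Real.cos α' := rfl
  rw [hV1, hV2] at hd
  rw [hV3, hV4] at hd'
  have f1 : -(Real.cos κ * Real.cos (Real.pi / 3) - Real.sin κ * Real.sin (Real.pi / 3)) /
      Real.cos α = -(Real.cos κ / Real.cos α * Real.cos (Real.pi / 3)) +
        Real.sin κ / Real.cos α * Real.sin (Real.pi / 3) := by ring
  have f2 : -(Real.cos κ' * Real.cos (Real.pi / 3) + Real.sin κ' * Real.sin (Real.pi / 3)) /
      Real.cos α' = -(Real.cos κ' / Real.cos α' * Real.cos (Real.pi / 3)) -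
        Real.sin κ' / Real.cos α' * Real.sin (Real.pi / 3) := by ring
  rw [f1] at hS
  rw [f2] at hS'
  have hz : z.re * Real.cos (Real.pi / 3) + z.re * Real.cos (Real.pi / 3) = z.re := by
    rw [Real.cos_pi_div_three]
    ring
  linarith

end

end Pool.BA
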