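import Pool.Agent.Work.MP_655153_ba.Interface3

/-!
# Block LEV: levels and horizontal order along a full chain
-/

open MeasureTheory Set

namespace Pool.BA

noncomputable section

theorem LEV_up (f : ℕ → ℝ) (a b : ℕ) (hab : a ≤ b) (h : ∀ k, a ≤ k → k < b → f k ≤ f (k + 1)) :
    f a ≤ f b := by
  induction b, hab using Nat.le_induction with
  | base => exact le_refl _
  | succ n hn ih =>
    exact le_trans (ih (fun k h1 h2 => h k h1 (by omega))) (h n hn (by omega))

theorem LEV_down (f : ℕ → ℝ) (a b : ℕ) (hab : a ≤ b) (h : ∀ k, a ≤ k → k < b → f (k + 1) ≤ f k) :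
    f b ≤ f a := by
  have := LEV_up (fun k => - f k) a b hab (fun k h1 h2 => by
    have := h k h1 h2
    show - f k ≤ - f (k + 1)
    linarith)
  have h3 : - f a ≤ - f b := this
  linarith

theorem LEV_L {m : ℕ} {κ α : ℕ → ℝ} (hc : Chain m κ α) (a b : ℕ) (hab : a ≤ b) (hb : b < m) :
    Lf κ α a ≤ Lf κ α b :=
  LEV_up (Lf κ α) a b hab (fun k _ h2 => (hc.l k (by omega)).le)

theorem LEV_R {m : ℕ} {κ α : ℕ → ℝ} (hc : Chain m κ α) (a b : ℕ) (hab : a ≤ b) (hb : b < m) :
    Rt κ α a ≤ Rt κ α b :=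
  LEV_up (Rt κ α) a b hab (fun k _ h2 => (hc.r k (by omega)).le)

theorem LEV_step (hO : Stmt_OVG) {m : ℕ} {κ α : ℕ → ℝ} {a b : ℝ} (hF : Full m κ α a b) (k : ℕ)
    (hk : k + 1 < m) : ∃ θ d : ℝ, Lf κ α (k + 1) ≤ θ ∧ θ ≤ Rt κ α k ∧ 0 ≤ d ∧
      (W κ α (k + 1)).re = (W κ α k).re - d * Real.sin θ ∧
      (W κ α (k + 1)).im = (W κ α k).im + d * Real.cos θ := by
  obtain ⟨θ, ρ, p, q, h1, h2, -, h4, h5, h6, -⟩ := hO (κ k) (κ (k + 1)) (α k) (α (k + 1))
    (hF.ch.α0 k (by omega)) (hF.ch.α1 k (by omega)) (hF.ch.α0 (k + 1) hk) (hF.ch.α1 (k + 1) hk)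
    (hF.ch.l k hk) (hF.nogap k hk) (hF.ch.r k hk)
  refine ⟨θ, p + q, h1, h2, h4, ?_, ?_⟩
  · unfold W
    rw [h5, h6]
    simp only [u, e, Complex.add_re, Complex.sub_re, Complex.mul_re, Complex.ofReal_re,
      Complex.ofReal_im, zero_mul, sub_zero]
    ring
  · unfold W
    rw [h5, h6]
    simp only [u, e, Complex.add_im, Complex.sub_im, Complex.mul_im, Complex.ofReal_re,
      Complex.ofReal_im, zero_mul, add_zero]
    ring

theorem p_LEV (hO : Stmt_OVG) : Stmt_LEV := by
  intro m κ α μ1 μ2 hμ1 hμ2 hF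
  have hpi := Real.pi_pos
  have hc := hF.ch
  have hm := hF.pos
  have hst : ∀ k, ∃ θ d : ℝ, k + 1 < m → Lf κ α (k + 1) ≤ θ ∧ θ ≤ Rt κ α k ∧ 0 ≤ d ∧
      (W κ α (k + 1)).re = (W κ α k).re - d * Real.sin θ ∧
      (W κ α (k + 1)).im = (W κ α k).im + d * Real.cos θ := by
    intro k
    by_cases hk : k + 1 < m
    · obtain ⟨θ, d, h⟩ := LEV_step hO hF k hk
      exact ⟨θ, d, fun _ => h⟩
    · exact ⟨0, 0, fun h => absurd h hk⟩
  choose θ d hθ using hst
  -- bounds of the angles
  have hpos : ∀ k, k + 1 < m → 0 < θ k := by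
    intro k hk
    have h1 := LEV_L hc 0 (k + 1) (by omega) hk
    have h2 := hF.left
    have h3 := (hθ k hk).1
    linarith
  have hlt : ∀ k, k + 1 < m → θ k < 2 * Real.pi := by
    intro k hk
    have h1 := LEV_R hc k (m - 1) (by omega) (by omega)
    have h2 := hF.right
    have h3 := (hθ k hk).2.1
    linarith
  have hmon : ∀ k l, k ≤ l → l + 1 < m → θ k ≤ θ l := by
    intro k l hkl hl
    refine LEV_up θ k l hkl (fun n _ h2 => ?_)
    have h3 := (hθ n (by omega)).2.1
    have h4 := hc.sep n (by omega)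
    have h5 := (hθ (n + 1) (by omega)).1
    linarith
  refine ⟨?_, ?_, ?_⟩
  · intro i hi
    rcases Nat.eq_zero_or_pos i with h0 | h0
    · subst h0
      exact le_max_left _ _
    · by_cases hπ : θ (i - 1) ≤ Real.pi
      · refine le_trans ?_ (le_max_left _ _)
        refine LEV_down (fun k => (W κ α k).re) 0 i (by omega) (fun k _ hk => ?_)
        have hk1 : k + 1 < m := by omega
        obtain ⟨-, -, hd, hre, -⟩ := hθ k hk1
        show (W κ α (k + 1)).re ≤ (W κ α k).re
        rw [hre]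
        have h1 : θ k ≤ Real.pi := le_trans (hmon k (i - 1) (by omega) (by omega)) hπ
        have h2 : 0 ≤ Real.sin (θ k) := Real.sin_nonneg_of_nonneg_of_le_pi (hpos k hk1).le h1
        have h3 := mul_nonneg hd h2
        linarith
      · push Not at hπ
        refine le_trans ?_ (le_max_right _ _)
        refine LEV_up (fun k => (W κ α k).re) i (m - 1) (by omega) (fun k hk0 hk => ?_)
        have hk1 : k + 1 < m := by omega
        obtain ⟨-, -, hd, hre, -⟩ := hθ k hk1
        show (W κ α k).re ≤ (W κ α (k + 1)).re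
        rw [hre]
        have h1 : Real.pi < θ k := lt_of_lt_of_le hπ (hmon (i - 1) k (by omega) hk1)
        have h2 : 0 ≤ Real.sin (θ k - Real.pi) :=
          Real.sin_nonneg_of_nonneg_of_le_pi (by linarith) (by linarith [hlt k hk1])
        rw [Real.sin_sub_pi] at h2
        have h3 := mul_nonneg hd h2
        linarith
  · intro i hi hcond
    refine LEV_up (fun k => (W κ α k).im) 0 i (by omega) (fun k _ hk => ?_)
    have hk1 : k + 1 < m := by omega
    obtain ⟨-, hR, hd, -, him⟩ := hθ k hk1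
    show (W κ α k).im ≤ (W κ α (k + 1)).im
    rw [him]
    have h1 : θ k ≤ Real.pi / 2 := by
      rcases hcond with h | ⟨h, h'⟩
      · have := LEV_R hc k i (by omega) hi
        linarith
      · have h5 := hc.sep k (by omega)
        have h6 := LEV_L hc (k + 2) (i + 1) (by omega) h
        linarith
    have h2 : 0 ≤ Real.cos (θ k) :=
      Real.cos_nonneg_of_neg_pi_div_two_le_of_le (by linarith [hpos k hk1]) h1
    have h3 := mul_nonneg hd h2
    linarith
  · intro j hj hcond
    refine LEV_up (fun k => (W κ α k).im) j (m - 1) (by omega) (fun k hk0 hk => ?_)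
    have hk1 : k + 1 < m := by omega
    obtain ⟨hL, -, hd, -, him⟩ := hθ k hk1
    show (W κ α k).im ≤ (W κ α (k + 1)).im
    rw [him]
    have h1 : 3 * Real.pi / 2 ≤ θ k := by
      rcases hcond with h | ⟨h, h'⟩
      · have := LEV_L hc j (k + 1) (by omega) hk1
        linarith
      · have h5 := hc.sep (k - 1) (by omega)
        have h6 := LEV_R hc (j - 1) (k - 1) (by omega) (by omega)
        have h7 : k - 1 + 2 = k + 1 := by omega
        rw [h7] at h5
        linarith
    have h2 : 0 ≤ Real.cos (θ k - 2 * Real.pi) :=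
      Real.cos_nonneg_of_neg_pi_div_two_le_of_le (by linarith) (by linarith [hlt k hk1])
    rw [Real.cos_sub_two_pi] at h2
    have h3 := mul_nonneg hd h2
    linarith

end

end Pool.BA
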