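import Pool.Agent.Work.MP_655153_ba.Interface2

/-! # Two-arc beam detectors, block LIFT: the cap of a point in a window -/

open MeasureTheory Set

namespace Pool.BA

noncomputable section

/-- the level of a point given in polar coordinates -/
theorem LIFT_pr (x : ℂ) (r κ θ : ℝ) (h1 : x.re = r * Real.cos κ) (h2 : x.im = r * Real.sin κ) :
    pr θ x = r * Real.cos (θ - κ) := by
  unfold pr
  rw [h1, h2, Real.cos_sub]
  ring

/-- comparison of cosines of arguments in `(α - 2π, 2π - α)` -/
theorem LIFT_cos (α w : ℝ) (h0 : 0 ≤ α) (h1 : α < Real.pi) (h2 : |w| < 2 * Real.pi - α) :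
    Real.cos α ≤ Real.cos w ↔ |w| ≤ α := by
  rw [← Real.cos_abs w]
  constructor
  · intro h
    by_contra hcon
    push Not at hcon
    have h3 : Real.cos |w| < Real.cos α := by
      rcases le_total |w| Real.pi with h4 | h4
      · exact Real.cos_lt_cos_of_nonneg_of_le_pi h0 h4 hcon
      · have h5 : Real.cos |w| = Real.cos (2 * Real.pi - |w|) := by
          rw [Real.cos_two_pi_sub]
        rw [h5]
        exact Real.cos_lt_cos_of_nonneg_of_le_pi h0 (by linarith) (by linarith)
    linarith
  · intro h
    exact Real.cos_le_cos_of_nonneg_of_le_pi (abs_nonneg w) h1.le h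

/-- LIFT. -/
theorem p_LIFT : Stmt_LIFT := by
  intro x θ0 hx
  have hpi := Real.pi_pos
  constructor
  · intro hr
    obtain ⟨r, hrd⟩ : ∃ r : ℝ, r = ‖x‖ := ⟨_, rfl⟩
    rw [← hrd] at hr
    have hr0 : 0 < r := by linarith
    obtain ⟨κ, hκd⟩ : ∃ κ : ℝ, κ = toIcoMod Real.two_pi_pos θ0 (Complex.arg x) := ⟨_, rfl⟩
    have hκm : κ ∈ Ico θ0 (θ0 + 2 * Real.pi) := by
      rw [hκd]
      exact toIcoMod_mem_Ico Real.two_pi_pos θ0 (Complex.arg x)
    have hκe : κ = Complex.arg x - (toIcoDiv Real.two_pi_pos θ0 (Complex.arg x) : ℝ) *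
        (2 * Real.pi) := by
      rw [hκd, toIcoMod, zsmul_eq_mul]
    have hc : Real.cos κ = Real.cos (Complex.arg x) := by
      rw [hκe]
      exact Real.cos_sub_int_mul_two_pi _ _
    have hs : Real.sin κ = Real.sin (Complex.arg x) := by
      rw [hκe]
      exact Real.sin_sub_int_mul_two_pi _ _
    have hre : x.re = r * Real.cos κ := by
      rw [hc, hrd, Complex.norm_mul_cos_arg]
    have him : x.im = r * Real.sin κ := by
      rw [hs, hrd, Complex.norm_mul_sin_arg]
    obtain ⟨α, hαd⟩ : ∃ α : ℝ, α = Real.arccos (1 / r) := ⟨_, rfl⟩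
    have hα0 : 0 ≤ α := by
      rw [hαd]
      exact Real.arccos_nonneg _
    have hα1 : α < Real.pi / 2 := by
      rw [hαd, Real.arccos_lt_pi_div_two]
      positivity
    have hcα : Real.cos α = 1 / r := by
      rw [hαd]
      refine Real.cos_arccos ?_ ?_
      · have : 0 < 1 / r := by positivity
        linarith
      · rw [div_le_one hr0]
        exact hr
    have hkey : ∀ θ, 1 ≤ pr θ x ↔ Real.cos α ≤ Real.cos (θ - κ) := by
      intro θ
      rw [LIFT_pr x r κ θ hre him, hcα, div_le_iff₀' hr0]
    have hx' : Real.cos (κ - θ0) < Real.cos α := by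
      have h1 : ¬ (1 ≤ pr θ0 x) := not_le.2 hx
      rw [hkey, not_le] at h1
      rwa [← Real.cos_neg (κ - θ0), neg_sub]
    have hy0 : 0 ≤ κ - θ0 := by linarith [hκm.1]
    have hy1 : κ - θ0 < 2 * Real.pi := by linarith [hκm.2]
    have hlow : α < κ - θ0 := by
      by_contra hcon
      push Not at hcon
      have := Real.cos_le_cos_of_nonneg_of_le_pi hy0 (by linarith) hcon
      linarith
    have hup : κ - θ0 < 2 * Real.pi - α := by
      by_contra hcon
      push Not at hcon
      have h1 := Real.cos_le_cos_of_nonneg_of_le_pi (x := 2 * Real.pi - (κ - θ0)) (y := α)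
        (by linarith) (by linarith) (by linarith)
      rw [Real.cos_two_pi_sub] at h1
      linarith
    refine ⟨κ, α, hα0, hα1, by linarith, by linarith, ?_, ?_⟩
    · apply Complex.ext
      · show x.re = Real.cos κ / Real.cos α
        rw [hre, hcα]
        field_simp
      · show x.im = Real.sin κ / Real.cos α
        rw [him, hcα]
        field_simp
    · intro θ hθ
      rw [hkey, LIFT_cos α (θ - κ) hα0 (by linarith) ?_]
      · rw [abs_le]
        constructor
        · rintro ⟨h1, h2⟩
          constructor <;> linarith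
        · rintro ⟨h1, h2⟩
          constructor <;> linarith
      · rw [abs_lt]
        have h1 := hθ.1
        have h2 := hθ.2
        constructor <;> linarith
  · intro θ hθ
    have h1 := LIFT_pr x ‖x‖ (Complex.arg x) θ (Complex.norm_mul_cos_arg x).symm
      (Complex.norm_mul_sin_arg x).symm
    rw [h1] at hθ
    have h2 : ‖x‖ * Real.cos (θ - Complex.arg x) ≤ ‖x‖ * 1 :=
      mul_le_mul_of_nonneg_left (Real.cos_le_one _) (norm_nonneg x)
    linarith

end

end Pool.BA
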