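import Pool.Agent.Work.MP_655153_ba.Interface4

/-! # Block LOWC (helper58) -/

open MeasureTheory Set

namespace Pool.BA

noncomputable section

theorem LOWC_nonneg : ∀ l : List ℂ, 0 ≤ plen l
  | [] => le_refl _
  | [_] => le_refl _
  | x :: y :: l => by
    have h1 := LOWC_nonneg (y :: l)
    have h2 := dist_nonneg (x := x) (y := y)
    show 0 ≤ dist x y + plen (y :: l)
    linarith

theorem LOWC_head (l : List ℂ) : ∀ a y : ℂ, y ∈ a :: l → dist a y ≤ plen (a :: l) := by
  induction l with
  | nil =>
    intro a y hy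
    rw [List.mem_singleton] at hy
    subst hy
    simpa using LOWC_nonneg [y]
  | cons b l ih =>
    intro a y hy
    rcases List.mem_cons.1 hy with h | h
    · subst h
      rw [dist_self]
      exact LOWC_nonneg _
    · have h1 := ih b y h
      have h2 := dist_triangle a b y
      show dist a y ≤ dist a b + plen (b :: l)
      linarith

theorem LOWC_dist (l : List ℂ) : ∀ x y : ℂ, x ∈ l → y ∈ l → dist x y ≤ plen l := by
  induction l with
  | nil =>
    intro x y hx
    simp at hx
  | cons a l ih =>
    intro x y hx hy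
    rcases List.mem_cons.1 hx with h | h
    · subst h
      exact LOWC_head l x y hy
    · rcases List.mem_cons.1 hy with h' | h'
      · subst h'
        rw [dist_comm]
        exact LOWC_head l y x hx
      · have h1 := ih x y h h'
        refine le_trans h1 ?_
        cases l with
        | nil => exact le_refl _
        | cons b l =>
          have h2 := dist_nonneg (x := a) (y := b)
          show plen (b :: l) ≤ dist a b + plen (b :: l)
          linarith

theorem LOWC_key (μ a b : ℝ) (h0 : 0 < μ) (h1 : μ ≤ Real.pi / 2) (ha : a < -1)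
    (h : 1 ≤ a * Real.cos μ + b * Real.sin μ) : 1 / Real.tan (μ / 2) ≤ b := by
  have hpi := Real.pi_pos
  have hs : 0 < Real.sin (μ / 2) := Real.sin_pos_of_pos_of_lt_pi (by linarith) (by linarith)
  have hc : 0 < Real.cos (μ / 2) := Real.cos_pos_of_mem_Ioo ⟨by linarith, by linarith⟩
  have hc2 : 0 ≤ Real.cos μ := Real.cos_nonneg_of_mem_Icc ⟨by linarith, by linarith⟩
  have e1 : Real.cos μ = 2 * Real.cos (μ / 2) ^ 2 - 1 := by
    rw [← Real.cos_two_mul]; congr 1; ring
  have e2 : Real.sin μ = 2 * Real.sin (μ / 2) * Real.cos (μ / 2) := by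
    rw [← Real.sin_two_mul]; congr 1; ring
  rw [Real.tan_eq_sin_div_cos, one_div_div, div_le_iff₀ hs]
  have h2 : a * Real.cos μ ≤ -1 * Real.cos μ := mul_le_mul_of_nonneg_right ha.le hc2
  have h3 : Real.cos (μ / 2) * (2 * Real.cos (μ / 2)) ≤
      b * Real.sin (μ / 2) * (2 * Real.cos (μ / 2)) := by
    rw [e1, e2] at h
    rw [e1] at h2
    nlinarith
  exact le_of_mul_le_mul_right h3 (by linarith)

theorem p_LOWC : Stmt_LOWC := by
  intro P μ1 μ2 h1 h1' h2 h2' hP hx hy
  obtain ⟨x, hxP, hx⟩ := hx
  obtain ⟨y, hyP, hy⟩ := hy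
  have k1 := LOWC_key μ1 x.re x.im h1 h1' (hP x hxP) hx
  have hy' : 1 ≤ y.re * Real.cos μ2 + (-y.im) * Real.sin μ2 := by
    unfold pr at hy
    rw [Real.cos_neg, Real.sin_neg] at hy
    linarith
  have k2 := LOWC_key μ2 y.re (-y.im) h2 h2' (hP y hyP) hy'
  have k3 := LOWC_dist P x y hxP hyP
  have k4 : x.im - y.im ≤ dist x y := by
    rw [dist_eq_norm]
    refine le_trans (le_abs_self _) ?_
    rw [← Complex.sub_im]
    exact Complex.abs_im_le_norm _
  linarith

end

end Pool.BA
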