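import Pool.Agent.Work.MP_655153_ba.Interface2

/-! # Block RED (helper17) -/

open MeasureTheory Set
open scoped ENNReal

namespace Pool.BA

noncomputable section

open Pool.Agent.Work.MP_655153_co

theorem RED_pr_sub (θ : ℝ) (z w : ℂ) : pr θ z - pr θ w ≤ dist z w := by
  rw [Complex.dist_eq_re_im]
  refine (le_abs_self _).trans (Real.abs_le_sqrt ?_)
  unfold pr
  have h2 := Real.sin_sq_add_cos_sq θ
  obtain ⟨a, ha⟩ : ∃ a, a = z.re - w.re := ⟨_, rfl⟩
  obtain ⟨b, hb⟩ : ∃ b, b = z.im - w.im := ⟨_, rfl⟩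
  have h1 : z.re * Real.cos θ + z.im * Real.sin θ - (w.re * Real.cos θ + w.im * Real.sin θ) =
      a * Real.cos θ + b * Real.sin θ := by rw [ha, hb]; ring
  rw [h1, ← ha, ← hb]
  nlinarith [sq_nonneg (a * Real.sin θ - b * Real.cos θ)]

theorem RED_pr_smul (θ c : ℝ) (z : ℂ) : pr θ (c • z) = c * pr θ z := by
  unfold pr
  simp only [Complex.smul_re, Complex.smul_im, smul_eq_mul]
  ring

/-- the line of level `r` in direction `θ` meets a detector -/
theorem RED_line (S : Set ℂ) (hS : IsBeamDetector S) (θ r : ℝ) (h1 : -1 ≤ r) (h2 : r ≤ 1) :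
    ∃ z ∈ S, pr θ z = r := by
  have hsc := Real.sin_sq_add_cos_sq θ
  set v : ℂ := ⟨-Real.sin θ, Real.cos θ⟩ with hv
  set p : ℂ := ⟨r * Real.cos θ, r * Real.sin θ⟩ with hp
  have hv0 : v ≠ 0 := by
    intro h
    have h3 : -Real.sin θ = 0 := congrArg Complex.re h
    have h4 : Real.cos θ = 0 := congrArg Complex.im h
    nlinarith
  set l : AffineSubspace ℝ ℂ := AffineSubspace.mk' p (Submodule.span ℝ {v}) with hl
  have hdir : Module.finrank ℝ l.direction = 1 := by
    rw [hl, AffineSubspace.direction_mk']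
    exact finrank_span_singleton hv0
  obtain ⟨z, hz, hzS⟩ := hS l hdir (by
    refine ⟨p + Real.sqrt (1 - r ^ 2) • v, ?_, ?_⟩
    · rw [hl, AffineSubspace.mem_mk', vsub_eq_sub, add_sub_cancel_left]
      exact Submodule.smul_mem _ _ (Submodule.mem_span_singleton_self v)
    · have hs : Real.sqrt (1 - r ^ 2) ^ 2 = 1 - r ^ 2 := Real.sq_sqrt (by nlinarith)
      rw [Complex.norm_eq_sqrt_sq_add_sq]
      have e1 : (p + Real.sqrt (1 - r ^ 2) • v).re =
          r * Real.cos θ + Real.sqrt (1 - r ^ 2) * (-Real.sin θ) := by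
        simp [hp, hv]
      have e2 : (p + Real.sqrt (1 - r ^ 2) • v).im =
          r * Real.sin θ + Real.sqrt (1 - r ^ 2) * Real.cos θ := by
        simp [hp, hv]
      rw [e1, e2]
      have e3 : (r * Real.cos θ + Real.sqrt (1 - r ^ 2) * (-Real.sin θ)) ^ 2 +
          (r * Real.sin θ + Real.sqrt (1 - r ^ 2) * Real.cos θ) ^ 2 =
          (r ^ 2 + Real.sqrt (1 - r ^ 2) ^ 2) * (Real.sin θ ^ 2 + Real.cos θ ^ 2) := by ring
      rw [e3, hs, hsc]
      norm_num)
  refine ⟨z, hzS, ?_⟩
  rw [hl, AffineSubspace.mem_mk', vsub_eq_sub, Submodule.mem_span_singleton] at hz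
  obtain ⟨t, ht⟩ := hz
  have e1 : z.re = r * Real.cos θ - t * Real.sin θ := by
    have := congrArg Complex.re ht
    simp [hp, hv] at this
    linarith
  have e2 : z.im = r * Real.sin θ + t * Real.cos θ := by
    have := congrArg Complex.im ht
    simp [hp, hv] at this
    linarith
  unfold pr
  rw [e1, e2]
  have : (r * Real.cos θ - t * Real.sin θ) * Real.cos θ +
      (r * Real.sin θ + t * Real.cos θ) * Real.sin θ =
      r * (Real.sin θ ^ 2 + Real.cos θ ^ 2) := by ring
  rw [this, hsc, mul_one]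

/-- polygon through `g s, ..., g (s + n)` -/
def RED_L (g : ℕ → ℂ) : ℕ → ℕ → List ℂ
  | s, 0 => [g s]
  | s, n + 1 => g s :: RED_L g (s + 1) n

theorem RED_L_plen (g : ℕ → ℂ) : ∀ n s : ℕ,
    plen (RED_L g s n) = ∑ k ∈ Finset.range n, dist (g (s + k)) (g (s + k + 1)) := by
  intro n
  induction n with
  | zero => intro s; simp [RED_L, plen]
  | succ n ih =>
    intro s
    have h := ih (s + 1)
    have e1 : plen (RED_L g s (n + 1)) = dist (g s) (g (s + 1)) + plen (RED_L g (s + 1) n) := by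
      cases n with
      | zero => rfl
      | succ n => rfl
    rw [e1, h, Finset.sum_range_succ']
    have e2 : ∀ k ∈ Finset.range n, dist (g (s + 1 + k)) (g (s + 1 + k + 1)) =
        dist (g (s + (k + 1))) (g (s + (k + 1) + 1)) := by
      intro k _
      have : s + 1 + k = s + (k + 1) := by ring
      rw [this]
    rw [Finset.sum_congr rfl e2, add_zero]
    ring

theorem RED_L_mem (g : ℕ → ℂ) : ∀ n s : ℕ, ∀ x ∈ RED_L g s n, ∃ k ≤ n, x = g (s + k) := by
  intro n
  induction n with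
  | zero => intro s x hx; exact ⟨0, le_rfl, by simpa [RED_L] using hx⟩
  | succ n ih =>
    intro s x hx
    have hx' : x ∈ g s :: RED_L g (s + 1) n := hx
    rcases List.mem_cons.mp hx' with h | h
    · exact ⟨0, by omega, by simpa using h⟩
    · obtain ⟨k, hk, h2⟩ := ih (s + 1) x h
      exact ⟨k + 1, by omega, by rw [h2]; congr 1; ring⟩

theorem RED_L_mem' (g : ℕ → ℂ) : ∀ n s k : ℕ, k ≤ n → g (s + k) ∈ RED_L g s n := by
  intro n
  induction n with
  | zero =>
    intro s k hk
    have : k = 0 := by omega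
    subst this
    simp [RED_L]
  | succ n ih =>
    intro s k hk
    have e : RED_L g s (n + 1) = g s :: RED_L g (s + 1) n := rfl
    rw [e]
    cases k with
    | zero => simp
    | succ k =>
      have h := ih (s + 1) k (by omega)
      have e2 : s + 1 + k = s + (k + 1) := by ring
      rw [e2] at h
      exact List.mem_cons_of_mem _ h

theorem RED_L_ne (g : ℕ → ℂ) (n s : ℕ) : RED_L g s n ≠ [] := by
  cases n <;> simp [RED_L]

/-- a fine inscribed polygon -/
theorem RED_sample (A : PlaneArc) (hA : A.length ≠ ⊤) (δ : ℝ) (hδ : 0 < δ) :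
    ∃ P : List ℂ, P ≠ [] ∧ (∀ z ∈ A.carrier, ∃ x ∈ P, dist z x ≤ δ) ∧
      plen P ≤ A.length.toReal := by
  have huc : UniformContinuousOn A.toFun (Icc A.a A.b) :=
    isCompact_Icc.uniformContinuousOn_of_continuous A.cont
  obtain ⟨η, hη, hη2⟩ := Metric.uniformContinuousOn_iff.mp huc δ hδ
  have hlt := A.lt
  obtain ⟨N, hN⟩ := exists_nat_gt ((A.b - A.a) / η)
  have hN0 : (0 : ℝ) < N := lt_of_le_of_lt (by apply div_nonneg <;> linarith) hN
  have hN1 : 0 < N := by exact_mod_cast hN0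
  have hh : (A.b - A.a) / N < η := by
    rw [div_lt_iff₀ hη] at hN
    rw [div_lt_iff₀ hN0]
    linarith
  have hh0 : 0 < (A.b - A.a) / N := div_pos (by linarith) hN0
  set h := (A.b - A.a) / N with hdef
  have hNh : (N : ℝ) * h = A.b - A.a := by rw [hdef]; field_simp
  let t : ℕ → ℝ := fun k => A.a + (min k N : ℕ) * h
  have ht : ∀ k, t k ∈ Icc A.a A.b := by
    intro k
    have h1 : ((min k N : ℕ) : ℝ) ≤ N := by exact_mod_cast min_le_right k N
    have h2 : (0 : ℝ) ≤ ((min k N : ℕ) : ℝ) := Nat.cast_nonneg _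
    refine ⟨?_, ?_⟩
    · change A.a ≤ A.a + (min k N : ℕ) * h
      have := mul_nonneg h2 hh0.le
      linarith
    · change A.a + (min k N : ℕ) * h ≤ A.b
      have := mul_le_mul_of_nonneg_right h1 hh0.le
      linarith
  have hmono : Monotone t := by
    intro i j hij
    change A.a + (min i N : ℕ) * h ≤ A.a + (min j N : ℕ) * h
    have h1 : ((min i N : ℕ) : ℝ) ≤ ((min j N : ℕ) : ℝ) := by
      exact_mod_cast min_le_min_right N hij
    have := mul_le_mul_of_nonneg_right h1 hh0.le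
    linarith
  refine ⟨RED_L (fun k => A.toFun (t k)) 0 N, RED_L_ne _ _ _, ?_, ?_⟩
  · rintro z ⟨x, hx, rfl⟩
    -- index of the parameter
    have hx1 : 0 ≤ (x - A.a) / h := div_nonneg (by linarith [hx.1]) hh0.le
    set k := ⌊(x - A.a) / h⌋₊ with hk
    have hk1 : (k : ℝ) ≤ (x - A.a) / h := Nat.floor_le hx1
    have hk2 : (x - A.a) / h < k + 1 := Nat.lt_floor_add_one _
    have hk1' : (k : ℝ) * h ≤ x - A.a := by rw [le_div_iff₀ hh0] at hk1; exact hk1
    have hk2' : x - A.a < (k + 1) * h := by rw [div_lt_iff₀ hh0] at hk2; exact hk2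
    have hkN : k ≤ N := by
      have h1 : (k : ℝ) * h ≤ N * h := by rw [hNh]; linarith [hx.2]
      have h2 : (k : ℝ) ≤ N := le_of_mul_le_mul_right h1 hh0
      exact_mod_cast h2
    refine ⟨A.toFun (t k), ?_, ?_⟩
    · have := RED_L_mem' (fun k => A.toFun (t k)) N 0 k hkN
      simpa using this
    · apply le_of_lt
      apply hη2 x hx (t k) (ht k)
      have e : t k = A.a + k * h := by
        change A.a + (min k N : ℕ) * h = _
        rw [min_eq_left hkN]
      rw [e, Real.dist_eq, abs_lt]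
      constructor <;> linarith
  · rw [RED_L_plen]
    have h1 : ∑ k ∈ Finset.range N, edist (A.toFun (t (k + 1))) (A.toFun (t k)) ≤ A.length :=
      eVariationOn.sum_le hmono ht
    have h2 : ∑ k ∈ Finset.range N, dist (A.toFun (t (0 + k))) (A.toFun (t (0 + k + 1))) =
        (∑ k ∈ Finset.range N, edist (A.toFun (t (k + 1))) (A.toFun (t k))).toReal := by
      rw [ENNReal.toReal_sum (fun i _ => edist_ne_top _ _)]
      apply Finset.sum_congr rfl
      intro k _
      rw [zero_add, edist_comm, edist_dist, ENNReal.toReal_ofReal dist_nonneg]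
    rw [h2]
    exact ENNReal.toReal_mono hA h1

theorem RED_plen_smul (c : ℝ) (hc : 0 ≤ c) : ∀ P : List ℂ,
    plen (P.map (fun z => c • z)) = c * plen P
  | [] => by simp [plen]
  | [x] => by simp [plen]
  | x :: y :: l => by
    have h := RED_plen_smul c hc (y :: l)
    have e1 : plen ((x :: y :: l).map (fun z => c • z)) =
      dist (c • x) (c • y) + plen ((y :: l).map (fun z => c • z)) := rfl
    have e2 : plen (x :: y :: l) = dist x y + plen (y :: l) := rfl
    rw [e1, e2, h, dist_smul₀, Real.norm_eq_abs, abs_of_nonneg hc]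
    ring

/-- maximum of a function on a nonempty list -/
theorem RED_max (g : ℂ → ℝ) : ∀ P : List ℂ, P ≠ [] → ∃ p ∈ P, ∀ x ∈ P, g x ≤ g p
  | [], h => absurd rfl h
  | [x], _ => ⟨x, by simp, by simp⟩
  | x :: y :: l, _ => by
    obtain ⟨p, hp, h⟩ := RED_max g (y :: l) (by simp)
    rcases le_total (g x) (g p) with h1 | h1
    · refine ⟨p, List.mem_cons_of_mem _ hp, ?_⟩
      intro z hz
      rcases List.mem_cons.mp hz with h2 | h2
      · rw [h2]; exact h1
      · exact h z h2
    · refine ⟨x, by simp, ?_⟩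
      intro z hz
      rcases List.mem_cons.mp hz with h2 | h2
      · rw [h2]
      · exact (h z h2).trans h1

theorem RED_half (C₀ C₁ : Set ℂ) (P Q : List ℂ) (δ : ℝ) (hδ : 0 < δ) (hδ1 : δ < 1 / 4)
    (hP : P ≠ []) (hCP : ∀ z ∈ C₀, ∃ x ∈ P, dist z x ≤ δ)
    (hCQ : ∀ z ∈ C₁, ∃ x ∈ Q, dist z x ≤ δ)
    (hdet : ∀ θ r : ℝ, -1 ≤ r → r ≤ 1 → ∃ z, (z ∈ C₀ ∨ z ∈ C₁) ∧ pr θ z = r) (θ : ℝ)
    (hfree : Free (P.map (fun z => (1 / (1 - δ)) • z)) θ) :
    ∃ q ∈ Q.map (fun z => (1 / (1 - δ)) • z), pr θ q ≤ -1 + 4 * δ ∨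
      ∃ p ∈ P.map (fun z => (1 / (1 - δ)) • z), pr θ q ≤ pr θ p + 4 * δ := by
  have h1d : 0 < 1 - δ := by linarith
  obtain ⟨p, hp, hmax⟩ := RED_max (pr θ) P hP
  have hp1 : pr θ p < 1 - δ := by
    have h := hfree _ (List.mem_map_of_mem (f := fun z => (1 / (1 - δ)) • z) hp)
    rw [RED_pr_smul, one_div, inv_mul_lt_iff₀ h1d] at h
    linarith
  set R := max (-1) (pr θ p + δ) with hR
  have hR1 : R < 1 := max_lt (by norm_num) (by linarith)
  have hR2 : -1 ≤ R := le_max_left _ _
  have hR3 : pr θ p + δ ≤ R := le_max_right _ _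
  set r := min 1 (R + δ) with hr
  have hr1 : R < r := lt_min hR1 (by linarith)
  have hr2 : r ≤ 1 := min_le_left _ _
  have hr3 : r ≤ R + δ := min_le_right _ _
  obtain ⟨z, hz, hzr⟩ := hdet θ r (by linarith) hr2
  have hz1 : z ∈ C₁ := by
    rcases hz with hz | hz
    · exfalso
      obtain ⟨x, hx, hxd⟩ := hCP z hz
      have h3 := RED_pr_sub θ z x
      have h4 := hmax x hx
      linarith
    · exact hz
  obtain ⟨q, hq, hqd⟩ := hCQ z hz1
  have h3 := RED_pr_sub θ q z
  rw [dist_comm] at h3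
  refine ⟨_, List.mem_map_of_mem (f := fun z => (1 / (1 - δ)) • z) hq, ?_⟩
  have hq2 : pr θ q ≤ R + 2 * δ := by linarith
  rw [RED_pr_smul]
  rcases le_total (pr θ p + δ) (-1) with h5 | h5
  · left
    have h6 : R = -1 := max_eq_left h5
    rw [h6] at hq2
    rw [one_div, inv_mul_le_iff₀ h1d]
    nlinarith
  · right
    have h6 : R = pr θ p + δ := max_eq_right h5
    rw [h6] at hq2
    refine ⟨_, List.mem_map_of_mem (f := fun z => (1 / (1 - δ)) • z) hp, ?_⟩
    rw [RED_pr_smul, one_div, inv_mul_le_iff₀ h1d]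
    have h7 : (1 - δ) * ((1 - δ)⁻¹ * pr θ p + 4 * δ) = pr θ p + (1 - δ) * (4 * δ) := by
      field_simp
    rw [h7]
    nlinarith

theorem p_RED (hFT : Stmt_FT) : Stmt_RED := by
  unfold Stmt_RED detectorConstant
  refine le_iInf₂ ?_
  intro A hA
  rw [Fin.sum_univ_two]
  by_cases htop : (A 0).length + (A 1).length = ⊤
  · rw [htop]; exact le_top
  have h0 : (A 0).length ≠ ⊤ := fun h => htop (by rw [h]; simp)
  have h1 : (A 1).length ≠ ⊤ := fun h => htop (by rw [h]; simp)
  set V₀ := (A 0).length.toReal with hV0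
  set V₁ := (A 1).length.toReal with hV1
  have hdet : ∀ θ r : ℝ, -1 ≤ r → r ≤ 1 →
      ∃ z, (z ∈ (A 0).carrier ∨ z ∈ (A 1).carrier) ∧ pr θ z = r := by
    intro θ r hr1 hr2
    obtain ⟨z, hz, hzr⟩ := RED_line _ hA θ r hr1 hr2
    refine ⟨z, ?_, hzr⟩
    obtain ⟨i, hi⟩ := mem_iUnion.mp hz
    fin_cases i
    · exact Or.inl hi
    · exact Or.inr hi
  have key : ∀ δ : ℝ, 0 < δ → δ < 1 / 4000 → (Tstar - 4 * δ) * (1 - δ) ≤ V₀ + V₁ := by
    intro δ hδ hδ1
    have h1d : 0 < 1 - δ := by linarith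
    obtain ⟨P, hP, hCP, hPl⟩ := RED_sample (A 0) h0 δ hδ
    obtain ⟨Q, hQ, hCQ, hQl⟩ := RED_sample (A 1) h1 δ hδ
    have hpair : Pair (P.map (fun z => (1 / (1 - δ)) • z)) (Q.map (fun z => (1 / (1 - δ)) • z))
        (4 * δ) := by
      refine ⟨by simpa using hP, by simpa using hQ, ?_, ?_, ?_⟩
      · intro θ
        obtain ⟨z, hz, hzr⟩ := hdet θ 1 (by norm_num) le_rfl
        rcases hz with hz | hz
        · left
          intro hf
          obtain ⟨x, hx, hxd⟩ := hCP z hz
          have h3 := RED_pr_sub θ z x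
          have h4 := hf _ (List.mem_map_of_mem (f := fun z => (1 / (1 - δ)) • z) hx)
          rw [RED_pr_smul, one_div, inv_mul_lt_iff₀ h1d] at h4
          linarith
        · right
          intro hf
          obtain ⟨x, hx, hxd⟩ := hCQ z hz
          have h3 := RED_pr_sub θ z x
          have h4 := hf _ (List.mem_map_of_mem (f := fun z => (1 / (1 - δ)) • z) hx)
          rw [RED_pr_smul, one_div, inv_mul_lt_iff₀ h1d] at h4
          linarith
      · intro θ hf
        exact RED_half _ _ P Q δ hδ (by linarith) hP hCP hCQ hdet θ hf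
      · intro θ hf
        exact RED_half _ _ Q P δ hδ (by linarith) hQ hCQ hCP
          (fun θ r h3 h4 => by
            obtain ⟨z, hz, hzr⟩ := hdet θ r h3 h4
            exact ⟨z, hz.symm, hzr⟩) θ hf
    have h3 := hFT _ _ (4 * δ) (by linarith) (by linarith) hpair
    rw [RED_plen_smul _ (by positivity), RED_plen_smul _ (by positivity), ← mul_add, one_div,
      le_inv_mul_iff₀ h1d] at h3
    linarith
  have hfin : Tstar ≤ V₀ + V₁ := by
    by_contra hcon
    push Not at hcon
    set c := Tstar - (V₀ + V₁) with hc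
    have hcpos : 0 < c := by linarith
    have hV : 0 ≤ V₀ + V₁ := by positivity
    have hT : 0 < Tstar := by linarith
    set δ := min (1 / 8000) (c / (2 * (4 + Tstar))) with hδ
    have hd0 : 0 < δ := lt_min (by norm_num) (by positivity)
    have hd1 : δ ≤ 1 / 8000 := min_le_left _ _
    have hd2 : δ ≤ c / (2 * (4 + Tstar)) := min_le_right _ _
    have hd3 : δ * (2 * (4 + Tstar)) ≤ c := by
      rwa [le_div_iff₀ (by positivity)] at hd2
    have h3 := key δ hd0 (by linarith)
    nlinarith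
  calc ENNReal.ofReal Tstar ≤ ENNReal.ofReal (V₀ + V₁) := ENNReal.ofReal_le_ofReal hfin
    _ = (A 0).length + (A 1).length := by
      rw [ENNReal.ofReal_add ENNReal.toReal_nonneg ENNReal.toReal_nonneg,
        ENNReal.ofReal_toReal h0, ENNReal.ofReal_toReal h1]

end

end Pool.BA
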