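import Pool.Agent.Work.MP_655153_ba.Interface5
import Pool.Agent.Work.MP_655153_ba.B_RED

/-! # Block LVL (helper17) -/

open MeasureTheory Set

namespace Pool.BA

noncomputable section

theorem p_LVL : Stmt_LVL := by
  intro P Q ε ν hpair hfree
  obtain ⟨hP, _, _, h1, _⟩ := hpair
  obtain ⟨z, hz, hmax⟩ := RED_max (pr ν) P hP
  refine ⟨z, hz, hfree z hz, hmax, ?_⟩
  obtain ⟨q, hq, h2⟩ := h1 ν hfree
  by_cases h3 : -1 ≤ pr ν z
  · left
    refine ⟨h3, q, hq, ?_⟩
    rcases h2 with h2 | ⟨p, hp, h2⟩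
    · linarith
    · linarith [hmax p hp]
  · right
    push Not at h3
    refine ⟨h3, q, hq, ?_⟩
    rcases h2 with h2 | ⟨p, hp, h2⟩
    · exact h2
    · linarith [hmax p hp]

end

end Pool.BA
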