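import Pool.Agent.Work.MP_655153_ba.Interface4

set_option autoImplicit false

/-! # Block MINT (helper84) -/

open MeasureTheory Set

namespace Pool.BA

theorem MINT_id (α β : ℝ) (h : Real.cos α ≠ 0) :
    Real.cos β ^ 2 * Real.tan α - Real.sin β * Real.cos β =
      Real.sin (α - β) * Real.cos (α - β) + Real.tan α * Real.sin (α - β) ^ 2 := by
  have h1 : Real.cos (α - β) * Real.cos α + Real.sin α * Real.sin (α - β) = Real.cos β := by
    have e : β = α - (α - β) := by ring
    conv_rhs => rw [e, Real.cos_sub]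
    ring
  have h2 : Real.sin (α - β) = Real.sin α * Real.cos β - Real.cos α * Real.sin β :=
    Real.sin_sub α β
  have h3 : Real.tan α = Real.sin α / Real.cos α := Real.tan_eq_sin_div_cos α
  have h4 : Real.tan α * Real.cos α = Real.sin α := by
    rw [h3]
    field_simp
  have h5 : (Real.cos β ^ 2 * Real.tan α - Real.sin β * Real.cos β) * Real.cos α =
      (Real.sin (α - β) * Real.cos (α - β) + Real.tan α * Real.sin (α - β) ^ 2) *
        Real.cos α := by
    have e1 : (Real.sin (α - β) * Real.cos (α - β) + Real.tan α * Real.sin (α - β) ^ 2) *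
        Real.cos α = Real.sin (α - β) *
          (Real.cos (α - β) * Real.cos α + (Real.tan α * Real.cos α) * Real.sin (α - β)) := by
      ring
    have e2 : (Real.cos β ^ 2 * Real.tan α - Real.sin β * Real.cos β) * Real.cos α =
        Real.cos β ^ 2 * (Real.tan α * Real.cos α) - Real.sin β * Real.cos β * Real.cos α := by
      ring
    rw [e1, e2, h4, h1, h2]
    ring
  exact mul_right_cancel₀ h h5

theorem p_MINT : Stmt_MINT := by
  intro μ α h0 h1 h2 h3
  obtain ⟨y, hy⟩ : ∃ y, y = |Real.pi / 2 - μ| := ⟨_, rfl⟩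
  have hy0 : 0 ≤ y := hy ▸ abs_nonneg _
  have hy1 : y ≤ Real.pi / 2 := by
    rw [hy, abs_le]
    constructor <;> linarith
  have hs : Real.sin μ = Real.cos y := by
    rw [hy, Real.cos_abs, Real.cos_pi_div_two_sub]
  obtain ⟨β, hβ⟩ : ∃ β, y = 2 * β := ⟨y / 2, by ring⟩
  have hca : 0 < Real.cos α := Real.cos_pos_of_mem_Ioo ⟨by linarith, h3⟩
  have hta : 0 ≤ Real.tan α := Real.tan_nonneg_of_nonneg_of_le_pi_div_two h2 h3.le
  have hβ0 : 0 ≤ β := by linarith
  have key : α - β ≤ Real.cos β ^ 2 * Real.tan α - Real.sin β * Real.cos β := by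
    rw [MINT_id α β hca.ne']
    rcases le_total 0 (α - β) with hd | hd
    · have hdp : α - β < Real.pi / 2 := by linarith
      have h5 : α - β ≤ Real.tan (α - β) := Real.le_tan hd hdp
      have hcd : 0 < Real.cos (α - β) := Real.cos_pos_of_mem_Ioo ⟨by linarith, hdp⟩
      have h6 : Real.tan (α - β) ≤ Real.tan α := by
        rcases eq_or_lt_of_le (show α - β ≤ α by linarith) with e | e
        · rw [e]
        · exact (Real.tan_lt_tan_of_nonneg_of_lt_pi_div_two hd h3 e).le
      have h7 : Real.tan (α - β) = Real.sin (α - β) * Real.cos (α - β) +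
          Real.tan (α - β) * Real.sin (α - β) ^ 2 := by
        have h8 := Real.sin_sq_add_cos_sq (α - β)
        have h9 : Real.tan (α - β) * Real.cos (α - β) = Real.sin (α - β) := by
          rw [Real.tan_eq_sin_div_cos]
          field_simp
        calc Real.tan (α - β) = Real.tan (α - β) *
              (Real.sin (α - β) ^ 2 + Real.cos (α - β) ^ 2) := by rw [h8, mul_one]
          _ = (Real.tan (α - β) * Real.cos (α - β)) * Real.cos (α - β) +
              Real.tan (α - β) * Real.sin (α - β) ^ 2 := by ring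
          _ = _ := by rw [h9]
      have h10 : Real.tan (α - β) * Real.sin (α - β) ^ 2 ≤
          Real.tan α * Real.sin (α - β) ^ 2 := mul_le_mul_of_nonneg_right h6 (sq_nonneg _)
      linarith
    · have e0 : 0 ≤ β - α := by linarith
      have e1 : Real.sin (β - α) ≤ β - α := Real.sin_le e0
      have e2 : 0 ≤ Real.sin (β - α) :=
        Real.sin_nonneg_of_nonneg_of_le_pi e0 (by linarith [Real.pi_pos])
      have e3 : Real.sin (α - β) = - Real.sin (β - α) := by
        rw [← Real.sin_neg]
        congr 1
        ring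
      have e4 : Real.cos (α - β) ≤ 1 := Real.cos_le_one _
      have e5 : 0 ≤ Real.tan α * Real.sin (α - β) ^ 2 := mul_nonneg hta (sq_nonneg _)
      have e6 : Real.sin (β - α) * Real.cos (α - β) ≤ Real.sin (β - α) * 1 :=
        mul_le_mul_of_nonneg_left e4 e2
      rw [e3] at e5 ⊢
      nlinarith
  rw [← hy, hs, hβ, Real.sin_two_mul, Real.cos_two_mul]
  unfold sf
  nlinarith [key]

end Pool.BA
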