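import Pool.Agent.Work.MP_655153_ba.Interface5

/-! # Block MS: measure of the free directions -/

open MeasureTheory Set

namespace Pool.BA

noncomputable section

theorem MS_shift (hROT : Stmt_ROT) (P : List ℂ) (a : ℝ) :
    volume ({θ | Free P θ} ∩ Ioc a (a + 2 * Real.pi)) =
      volume ({θ | Free P θ} ∩ Ioc 0 (2 * Real.pi)) := by
  obtain ⟨-, -, -, -, -, hper, hopen, -⟩ := hROT
  have h0 := isAddFundamentalDomain_Ioc (T := 2 * Real.pi) Real.two_pi_pos 0
  have ha := isAddFundamentalDomain_Ioc (T := 2 * Real.pi) Real.two_pi_pos a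
  rw [zero_add] at h0
  refine IsAddFundamentalDomain.measure_set_eq ha h0 (hopen P).measurableSet ?_
  rintro ⟨g, hg⟩
  obtain ⟨n, rfl⟩ := AddSubgroup.mem_zmultiples_iff.1 hg
  have hP : Function.Periodic (fun θ => Free P θ) (2 * Real.pi) := fun θ =>
    propext (hper P θ)
  have hn := hP.zsmul n
  ext x
  show Free P (n • (2 * Real.pi) + x) ↔ Free P x
  have h1 : Free P (x + n • (2 * Real.pi)) = Free P x := hn x
  rw [add_comm, h1]

theorem MS_fin (A : Set ℝ) (a b : ℝ) (h : A ⊆ Ioc a b) : volume A ≠ ⊤ := by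
  refine ne_top_of_le_ne_top ?_ (measure_mono h)
  rw [Real.volume_Ioc]
  exact ENNReal.ofReal_ne_top

theorem p_MS (hROT : Stmt_ROT) : Stmt_MS := by
  have h1 : ∀ (P : List ℂ) (a : ℝ),
      volume.real ({θ | Free P θ} ∩ Ioc a (a + 2 * Real.pi)) = fr P := fun P a =>
    congrArg ENNReal.toReal (MS_shift hROT P a)
  obtain ⟨-, -, -, -, -, hper, hopen, -⟩ := hROT
  refine ⟨h1, ?_, ?_, ?_⟩
  · intro P l1 r1 l2 r2 e1 e2 e3 e4 f1 f2
    have hA : {θ | Free P θ} ∩ Ioc l1 (l1 + 2 * Real.pi) ⊆ Ioc l1 (l1 + 2 * Real.pi) :=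
      inter_subset_right
    have hB : Ioo l1 r1 ⊆ Ioc l1 (l1 + 2 * Real.pi) := fun x hx => ⟨hx.1, by linarith [hx.2]⟩
    have hC : Ioo l2 r2 ⊆ Ioc l1 (l1 + 2 * Real.pi) := fun x hx =>
      ⟨by linarith [hx.1], by linarith [hx.2]⟩
    have hBC : Disjoint (Ioo l1 r1) (Ioo l2 r2) := by
      rw [Set.disjoint_left]
      intro x hx hy
      linarith [hx.2, hy.1]
    have hABC : Disjoint ({θ | Free P θ} ∩ Ioc l1 (l1 + 2 * Real.pi))
        (Ioo l1 r1 ∪ Ioo l2 r2) := by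
      rw [Set.disjoint_left]
      rintro x ⟨hx, -⟩ (hy | hy)
      · exact f1 x hy hx
      · exact f2 x hy hx
    have hBCs : Ioo l1 r1 ∪ Ioo l2 r2 ⊆ Ioc l1 (l1 + 2 * Real.pi) := union_subset hB hC
    have e5 := measureReal_union (μ := volume) hBC measurableSet_Ioo (MS_fin _ _ _ hB)
      (MS_fin _ _ _ hC)
    have e6 := measureReal_union (μ := volume) hABC (measurableSet_Ioo.union measurableSet_Ioo)
      (MS_fin _ _ _ hA) (MS_fin _ _ _ hBCs)
    have e7 : volume.real ({θ | Free P θ} ∩ Ioc l1 (l1 + 2 * Real.pi) ∪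
        (Ioo l1 r1 ∪ Ioo l2 r2)) ≤ volume.real (Ioc l1 (l1 + 2 * Real.pi)) :=
      measureReal_mono (union_subset hA hBCs) (MS_fin _ _ _ (Subset.refl _))
    rw [e6, e5, h1, Real.volume_real_Ioo_of_le e1, Real.volume_real_Ioo_of_le e3,
      Real.volume_real_Ioc_of_le (by linarith [Real.pi_pos])] at e7
    linarith
  · intro P Q hPQ
    have hA : {θ | Free P θ} ∩ Ioc 0 (0 + 2 * Real.pi) ⊆ Ioc 0 (0 + 2 * Real.pi) :=
      inter_subset_right
    have hB : {θ | Free Q θ} ∩ Ioc 0 (0 + 2 * Real.pi) ⊆ Ioc 0 (0 + 2 * Real.pi) :=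
      inter_subset_right
    have hAB : Disjoint ({θ | Free P θ} ∩ Ioc 0 (0 + 2 * Real.pi))
        ({θ | Free Q θ} ∩ Ioc 0 (0 + 2 * Real.pi)) := by
      rw [Set.disjoint_left]
      rintro x ⟨hx, -⟩ ⟨hy, -⟩
      rcases hPQ x with h | h
      · exact h hx
      · exact h hy
    have e6 := measureReal_union (μ := volume) hAB
      ((hopen Q).measurableSet.inter measurableSet_Ioc) (MS_fin _ _ _ hA) (MS_fin _ _ _ hB)
    have e7 : volume.real (({θ | Free P θ} ∩ Ioc 0 (0 + 2 * Real.pi)) ∪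
        ({θ | Free Q θ} ∩ Ioc 0 (0 + 2 * Real.pi))) ≤ volume.real (Ioc 0 (0 + 2 * Real.pi)) :=
      measureReal_mono (union_subset hA hB) (MS_fin _ _ _ (Subset.refl _))
    rw [e6, h1, h1, Real.volume_real_Ioc_of_le (by linarith [Real.pi_pos])] at e7
    linarith
  · intro P a b hab hb hf
    refine ⟨ENNReal.toReal_nonneg, ?_⟩
    have hA : {θ | Free P θ} ∩ Ioc a (a + 2 * Real.pi) ⊆ Ioc a (a + 2 * Real.pi) :=
      inter_subset_right
    have hs : Ioo a b ⊆ {θ | Free P θ} ∩ Ioc a (a + 2 * Real.pi) := fun x hx =>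
      ⟨hf x hx, hx.1, by linarith [hx.2]⟩
    have e7 := measureReal_mono (μ := volume) hs (MS_fin _ _ _ hA)
    rw [h1, Real.volume_real_Ioo_of_le hab] at e7
    exact e7

end

end Pool.BA
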