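import Pool.Agent.Work.MP_655153_ba.Interface4

/-! # Block N2 (helper72) -/

namespace Pool.BA

/-- `tan α + tan β ≥ 2 tan ((α + β) / 2)` -/
theorem N2_tan (α β : ℝ) (h2 : 0 ≤ α) (h3 : α < Real.pi / 2) (h4 : 0 ≤ β)
    (h5 : β < Real.pi / 2) : 2 * Real.tan ((α + β) / 2) ≤ Real.tan α + Real.tan β := by
  have hpi := Real.pi_pos
  have ca : 0 < Real.cos α := Real.cos_pos_of_mem_Ioo ⟨by linarith, h3⟩
  have cb : 0 < Real.cos β := Real.cos_pos_of_mem_Ioo ⟨by linarith, h5⟩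
  obtain ⟨s, hs⟩ : ∃ s, s = (α + β) / 2 := ⟨_, rfl⟩
  have cs : 0 < Real.cos s := Real.cos_pos_of_mem_Ioo ⟨by linarith, by linarith⟩
  have ss : 0 ≤ Real.sin s := Real.sin_nonneg_of_nonneg_of_le_pi (by linarith) (by linarith)
  have e1 : Real.tan α + Real.tan β = Real.sin (2 * s) / (Real.cos α * Real.cos β) := by
    rw [Real.tan_eq_sin_div_cos, Real.tan_eq_sin_div_cos, div_add_div _ _ ca.ne' cb.ne']
    have e : 2 * s = α + β := by linarith
    rw [e, Real.sin_add]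
  have e2 : Real.cos α * Real.cos β ≤ Real.cos s ^ 2 := by
    have h6 : Real.cos (α + β) = 2 * Real.cos s ^ 2 - 1 := by
      rw [← Real.cos_two_mul]
      congr 1
      linarith
    have h7 := Real.cos_add α β
    have h8 := Real.cos_sub α β
    have h9 := Real.cos_le_one (α - β)
    linarith
  rw [← hs, e1, Real.tan_eq_sin_div_cos, Real.sin_two_mul, le_div_iff₀ (mul_pos ca cb)]
  have h6 : 2 * (Real.sin s / Real.cos s) * (Real.cos α * Real.cos β) ≤
      2 * (Real.sin s / Real.cos s) * Real.cos s ^ 2 :=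
    mul_le_mul_of_nonneg_left e2 (mul_nonneg (by norm_num) (div_nonneg ss cs.le))
  refine h6.trans (le_of_eq ?_)
  field_simp

theorem N2_a (μ α β : ℝ) (h0 : 0 < μ) (h1 : μ ≤ Real.pi / 2) (h2 : 0 ≤ α)
    (h3 : α < Real.pi / 2) (h4 : 0 ≤ β) (h5 : β < Real.pi / 2) (h6 : Real.pi - μ ≤ α + β) :
    2 * Real.sin (2 * Real.pi / 3 - μ / 2) / Real.sin (μ / 2) ≤
      2 * Real.cos (2 * Real.pi / 3 - μ) +
        (Real.tan α + Real.tan β) * Real.sin (2 * Real.pi / 3 - μ) := by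
  have hpi := Real.pi_pos
  have hs : 0 < Real.sin (μ / 2) := Real.sin_pos_of_pos_of_lt_pi (by linarith) (by linarith)
  have ht : 0 ≤ Real.sin (2 * Real.pi / 3 - μ) :=
    Real.sin_nonneg_of_nonneg_of_le_pi (by linarith) (by linarith)
  have h7 := N2_tan α β h2 h3 h4 h5
  have h8 : Real.tan (Real.pi / 2 - μ / 2) ≤ Real.tan ((α + β) / 2) :=
    Real.strictMonoOn_tan.monotoneOn ⟨by linarith, by linarith⟩ ⟨by linarith, by linarith⟩
      (by linarith)
  rw [Real.tan_pi_div_two_sub, Real.tan_eq_sin_div_cos, inv_div] at h8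
  have h9 : 2 * (Real.cos (μ / 2) / Real.sin (μ / 2)) ≤ Real.tan α + Real.tan β := by linarith
  have h10 := mul_le_mul_of_nonneg_right h9 ht
  have e : 2 * Real.sin (2 * Real.pi / 3 - μ / 2) / Real.sin (μ / 2) =
      2 * Real.cos (2 * Real.pi / 3 - μ) +
        2 * (Real.cos (μ / 2) / Real.sin (μ / 2)) * Real.sin (2 * Real.pi / 3 - μ) := by
    have e1 : 2 * Real.pi / 3 - μ / 2 = (2 * Real.pi / 3 - μ) + μ / 2 := by ring
    rw [e1, Real.sin_add]
    field_simp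
    ring
  rw [e]
  linarith

theorem N2_sin (x : ℝ) : 2 * Real.sin (2 * Real.pi / 3 - x) =
    √3 * Real.cos x + Real.sin x := by
  have e1 : 2 * Real.pi / 3 - x = Real.pi - (Real.pi / 3 + x) := by ring
  rw [e1, Real.sin_pi_sub, Real.sin_add, Real.sin_pi_div_three, Real.cos_pi_div_three]
  ring

theorem N2_b (μ : ℝ) (h0 : 0 < μ) (h1 : μ ≤ Real.pi / 3) :
    4 ≤ 2 * Real.sin (2 * Real.pi / 3 - μ / 2) / Real.sin (μ / 2) := by
  have hpi := Real.pi_pos
  have hs : 0 < Real.sin (μ / 2) := Real.sin_pos_of_pos_of_lt_pi (by linarith) (by linarith)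
  rw [le_div_iff₀ hs, N2_sin]
  have h2 : 0 ≤ Real.cos (Real.pi / 3 + μ / 2) :=
    Real.cos_nonneg_of_mem_Icc ⟨by linarith, by linarith⟩
  rw [Real.cos_add, Real.cos_pi_div_three, Real.sin_pi_div_three] at h2
  have h3 : (0 : ℝ) < √3 := Real.sqrt_pos.2 (by norm_num)
  have h4 : √3 * √3 = 3 := Real.mul_self_sqrt (by norm_num)
  have h5 := mul_nonneg h3.le h2
  have h6 : √3 * (1 / 2 * Real.cos (μ / 2) - √3 / 2 * Real.sin (μ / 2)) =
      1 / 2 * (√3 * Real.cos (μ / 2)) - (√3 * √3) / 2 * Real.sin (μ / 2) := by ring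
  rw [h6, h4] at h5
  linarith

theorem N2_c (μ : ℝ) (h0 : 0 < μ) (h1 : μ ≤ Real.pi / 2) :
    Real.pi + 1 - μ ≤ 2 * Real.sin (2 * Real.pi / 3 - μ / 2) / Real.sin (μ / 2) := by
  have hpi := Real.pi_pos
  have hpi2 := Real.pi_lt_d2
  have hs : 0 < Real.sin (μ / 2) := Real.sin_pos_of_pos_of_lt_pi (by linarith) (by linarith)
  rw [le_div_iff₀ hs, N2_sin]
  obtain ⟨y, hy⟩ : ∃ y, y = Real.pi / 4 - μ / 2 := ⟨_, rfl⟩
  have hy0 : 0 ≤ y := by linarith
  have hx : μ / 2 = Real.pi / 4 - y := by linarith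
  have hcy : 0 < Real.cos y := Real.cos_pos_of_mem_Ioo ⟨by linarith, by linarith⟩
  have hsy : 0 ≤ Real.sin y := Real.sin_nonneg_of_nonneg_of_le_pi hy0 (by linarith)
  have hty : y * Real.cos y ≤ Real.sin y := by
    have h2 := Real.le_tan hy0 (by linarith)
    rw [Real.tan_eq_sin_div_cos, le_div_iff₀ hcy] at h2
    exact h2
  have h2 : (1 + 2 * y) * Real.sin (μ / 2) ≤ Real.cos (μ / 2) := by
    rw [hx, Real.sin_sub, Real.cos_sub, Real.sin_pi_div_four, Real.cos_pi_div_four]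
    have h3 : (0 : ℝ) < √2 := Real.sqrt_pos.2 (by norm_num)
    have h4 : 0 ≤ 2 * Real.sin y - 2 * y * (Real.cos y - Real.sin y) := by
      have := mul_nonneg hy0 hsy
      nlinarith
    have h5 := mul_nonneg h3.le h4
    nlinarith
  have h3 : (17 / 10 : ℝ) ≤ √3 := Real.le_sqrt_of_sq_le (by norm_num)
  have h4 : (Real.pi - μ) ≤ √3 * (1 + 2 * y) := by
    have h5 : Real.pi - μ = Real.pi / 2 + 2 * y := by linarith
    have h6 := mul_le_mul_of_nonneg_right h3 (show (0 : ℝ) ≤ 1 + 2 * y by linarith)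
    rw [h5]
    linarith
  have h5 := mul_le_mul_of_nonneg_right h4 hs.le
  have h6 := mul_le_mul_of_nonneg_left h2 (show (0 : ℝ) ≤ √3 by linarith)
  linarith

theorem p_N2 : Stmt_N2 :=
  ⟨N2_a, N2_b, N2_c⟩

end Pool.BA
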