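import Pool.Agent.Work.MP_655153_ba.Interface4

/-!
# Block NB: the numerical inequality for the second and third alternative of the insertion
-/

set_option autoImplicit false

open MeasureTheory Set

namespace Pool.BA

noncomputable section

/-- a lower bound of the secant -/
theorem NB_sec {μ : ℝ} (h0 : 0 ≤ μ) (h1 : μ ≤ 1) :
    0 < Real.cos μ ∧ (1 + μ ^ 2 / 2 + 19 / 96 * μ ^ 4) * Real.cos μ ≤ 1 := by
  have hb := abs_le.1 (Real.cos_bound (x := μ) (by rw [abs_of_nonneg h0]; exact h1))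
  rw [abs_of_nonneg h0] at hb
  have hsq : μ ^ 2 ≤ 1 := by nlinarith
  have hsq0 : 0 ≤ μ ^ 2 := sq_nonneg μ
  have h4 : μ ^ 4 = μ ^ 2 * μ ^ 2 := by ring
  have h4' : μ ^ 4 ≤ μ ^ 2 := by rw [h4]; nlinarith
  have h40 : 0 ≤ μ ^ 4 := by positivity
  refine ⟨by linarith, ?_⟩
  have hB : 0 ≤ 1 + μ ^ 2 / 2 + 19 / 96 * μ ^ 4 := by positivity
  have hc : Real.cos μ ≤ 1 - μ ^ 2 / 2 + 5 / 96 * μ ^ 4 := by linarith
  refine (mul_le_mul_of_nonneg_left hc hB).trans ?_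
  have e : (1 + μ ^ 2 / 2 + 19 / 96 * μ ^ 4) * (1 - μ ^ 2 / 2 + 5 / 96 * μ ^ 4) =
      1 - μ ^ 4 * μ ^ 2 * (7 / 96 - 95 / 9216 * μ ^ 2) := by ring
  rw [e]
  have : 0 ≤ μ ^ 4 * μ ^ 2 * (7 / 96 - 95 / 9216 * μ ^ 2) := by
    apply mul_nonneg (by positivity)
    linarith
  linarith

/-- a lower bound of the quotient of cosines -/
theorem NB_quo {μ δ : ℝ} (h0 : 0 ≤ μ) (h1 : μ ≤ 1) (hδ : |δ| ≤ Real.pi / 36) :
    996 / 1000 * (1 + μ ^ 2 / 2 + 19 / 96 * μ ^ 4) ≤ Real.cos δ / Real.cos μ := by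
  obtain ⟨hc, hs⟩ := NB_sec h0 h1
  have hp := Real.pi_lt_d6
  have hδ2 : |δ| ≤ 873 / 10000 := by linarith
  have hδ3 : δ ^ 2 ≤ (873 / 10000) ^ 2 := by
    rw [← sq_abs]
    exact pow_le_pow_left₀ (abs_nonneg _) hδ2 2
  have hcd := Real.one_sub_sq_div_two_le_cos (x := δ)
  have hcd2 : 996 / 1000 ≤ Real.cos δ := by nlinarith
  rw [le_div_iff₀ hc]
  calc 996 / 1000 * (1 + μ ^ 2 / 2 + 19 / 96 * μ ^ 4) * Real.cos μ
      = 996 / 1000 * ((1 + μ ^ 2 / 2 + 19 / 96 * μ ^ 4) * Real.cos μ) := by ring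
    _ ≤ 996 / 1000 * 1 := by
        apply mul_le_mul_of_nonneg_left hs (by norm_num)
    _ ≤ Real.cos δ := by linarith

theorem NB_bS {γ : ℝ} (h0 : Real.pi / 6 ≤ γ) (h1 : γ ≤ Real.pi) : 0 ≤ bS γ := by
  have hpi := Real.pi_pos
  apply div_nonneg
  · exact Real.sin_nonneg_of_nonneg_of_le_pi (by linarith) (by linarith)
  · exact Real.sin_nonneg_of_nonneg_of_le_pi (by linarith) (by linarith)

/-- NB -/
theorem p_NB : Stmt_NB := by
  intro μ δ h0 h1 hδ hδμ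
  have hp := Real.pi_lt_d6
  have hp' := Real.pi_gt_d6
  have hμ : μ ≤ 87267 / 100000 := by linarith
  have hq := NB_quo (δ := δ) h0.le (by linarith : μ ≤ 1) hδ
  have hsq0 : 0 ≤ μ ^ 2 := sq_nonneg μ
  have h40 : 0 ≤ μ ^ 4 := by positivity
  have hmin : min (μ + δ) (μ - δ) = μ - |δ| := by
    rcases le_total 0 δ with h | h
    · rw [abs_of_nonneg h, min_eq_right (by linarith)]
    · rw [abs_of_nonpos h, min_eq_left (by linarith)]
      ring
  have hs0 : s0 = Real.pi / 2 - 1 := rfl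
  obtain ⟨d1, d2⟩ := abs_le.1 hδ
  unfold loss
  rw [hmin]
  by_cases hm : Real.pi / 6 ≤ μ - |δ|
  · rw [if_pos hm]
    have hm1 : Real.pi / 6 ≤ μ + δ := by
      have := neg_abs_le δ
      linarith
    have hm2 : Real.pi / 6 ≤ μ - δ := by
      have := le_abs_self δ
      linarith
    have hb : 0 ≤ min (bS (μ + δ)) (bS (μ - δ)) :=
      le_min (NB_bS hm1 (by linarith)) (NB_bS hm2 (by linarith))
    have t1 : 0 ≤ (μ - 7 / 8) ^ 2 := sq_nonneg _
    have t2 : 0 ≤ (μ ^ 2 - 49 / 64) ^ 2 := sq_nonneg _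
    have t3 : (μ ^ 2 - 49 / 64) ^ 2 = μ ^ 4 - 49 / 32 * μ ^ 2 + (49 / 64) ^ 2 := by ring
    have t4 : (μ - 7 / 8) ^ 2 = μ ^ 2 - 7 / 4 * μ + 49 / 64 := by ring
    rw [t3] at t2
    rw [t4] at t1
    rw [hs0]
    linarith
  · rw [if_neg hm]
    have hx0 : 0 < μ - |δ| := by linarith
    have hx1 : μ - |δ| ≤ Real.pi / 6 := (not_le.1 hm).le
    rcases le_or_gt μ (Real.pi / 36) with h36 | h36
    · have hs : 0 ≤ Real.sin (μ - |δ|) :=
        Real.sin_nonneg_of_nonneg_of_le_pi hx0.le (by linarith)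
      rw [hs0]
      linarith
    · have hx : 0 < μ - Real.pi / 36 := by linarith
      have hmon : Real.sin (μ - Real.pi / 36) ≤ Real.sin (μ - |δ|) :=
        Real.sin_le_sin_of_le_of_le_pi_div_two (by linarith) (by linarith) (by linarith)
      have hx2 : μ - Real.pi / 36 ≤ Real.pi / 6 := by
        have := abs_nonneg δ
        linarith
      have hsc := (Real.sin_gt_sub_cube hx).le
      obtain ⟨x, hxx⟩ : ∃ x, x = μ - Real.pi / 36 := ⟨_, rfl⟩
      rw [← hxx] at hx hx2 hsc hmon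
      have hμ2 : μ ≤ 7 / 10 := by linarith
      have hxμ : x ≤ μ := by rw [hxx]; linarith
      have hx3 : x ^ 3 ≤ μ ^ 2 * (7 / 10) := by
        have a1 : x ^ 2 ≤ μ ^ 2 := pow_le_pow_left₀ hx.le hxμ 2
        have a2 : x ^ 3 = x ^ 2 * x := by ring
        rw [a2]
        exact mul_le_mul a1 (hxμ.trans hμ2) hx.le hsq0
      rw [hs0]
      linarith

end

end Pool.BA
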