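import Pool.Agent.Work.MP_655153_ba.Interface4

/-!
# Block NC
-/

namespace Pool.BA

theorem NC_cos_le (x : ℝ) (h0 : 0 ≤ x) (h1 : x ≤ 1) :
    Real.cos x ≤ 1 - x ^ 2 / 2 + 5 * x ^ 4 / 96 := by
  have h := Real.cos_bound (x := x) (by rw [abs_of_nonneg h0]; exact h1)
  rw [abs_le, abs_of_nonneg h0] at h
  linarith [h.2]

theorem p_NC : Stmt_NC := by
  intro μ δ hμ0 hμ1 hδ hδμ
  have hp1 := Real.pi_gt_d4
  have hp2 := Real.pi_lt_d4
  have hμ2 : μ ≤ 8727 / 10000 := by linarith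
  have hδ2 : |δ| ≤ 873 / 10000 := by linarith
  have hd := abs_le.mp hδ2
  have hs : s0 = Real.pi / 2 - 1 := rfl
  -- the quotient
  have hcδ : 99618 / 100000 ≤ Real.cos δ := by
    have h := Real.one_sub_sq_div_two_le_cos (x := δ)
    nlinarith [mul_nonneg (sub_nonneg.mpr hd.1) (sub_nonneg.mpr hd.2)]
  have hcμ0 : 0 < Real.cos μ :=
    Real.cos_pos_of_mem_Ioo ⟨by linarith, by linarith⟩
  have hcμ : (1 + μ ^ 2 / 2) * Real.cos μ ≤ 1 := by
    have h := NC_cos_le μ hμ0.le (by linarith)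
    have h2 : (1 + μ ^ 2 / 2) * Real.cos μ ≤
        (1 + μ ^ 2 / 2) * (1 - μ ^ 2 / 2 + 5 * μ ^ 4 / 96) :=
      mul_le_mul_of_nonneg_left h (by positivity)
    have h3 : μ ^ 2 ≤ 1 := by nlinarith
    have h4 : (1 + μ ^ 2 / 2) * (1 - μ ^ 2 / 2 + 5 * μ ^ 4 / 96) =
        1 - μ ^ 4 * (19 / 96 - 5 * μ ^ 2 / 192) := by ring
    have h5 : 0 ≤ μ ^ 4 * (19 / 96 - 5 * μ ^ 2 / 192) :=
      mul_nonneg (by positivity) (by linarith)
    linarith
  have hq : 99618 / 100000 * (1 + μ ^ 2 / 2) ≤ Real.cos δ / Real.cos μ := by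
    rw [le_div_iff₀ hcμ0]
    calc 99618 / 100000 * (1 + μ ^ 2 / 2) * Real.cos μ
        = 99618 / 100000 * ((1 + μ ^ 2 / 2) * Real.cos μ) := by ring
      _ ≤ 99618 / 100000 * 1 := mul_le_mul_of_nonneg_left hcμ (by norm_num)
      _ ≤ Real.cos δ := by linarith
  rcases le_total μ (38 / 100) with hc | hc
  · have hm : max (Real.cos (μ + δ)) (Real.cos (μ - δ)) ≤ 1 :=
      max_le (Real.cos_le_one _) (Real.cos_le_one _)
    rw [hs]
    nlinarith
  · have hx0 : 0 ≤ μ - 873 / 10000 := by linarith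
    have hm1 : Real.cos (μ + δ) ≤ Real.cos (μ - 873 / 10000) :=
      Real.cos_le_cos_of_nonneg_of_le_pi hx0 (by linarith) (by linarith)
    have hm2 : Real.cos (μ - δ) ≤ Real.cos (μ - 873 / 10000) :=
      Real.cos_le_cos_of_nonneg_of_le_pi hx0 (by linarith) (by linarith)
    have hm : max (Real.cos (μ + δ)) (Real.cos (μ - δ)) ≤ Real.cos (μ - 873 / 10000) :=
      max_le hm1 hm2
    have hx := NC_cos_le (μ - 873 / 10000) hx0 (by linarith)
    have hy : (μ - 873 / 10000) ^ 2 ≤ 617 / 1000 := by nlinarith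
    have hy2 : (μ - 873 / 10000) ^ 4 ≤ 617 / 1000 * (μ - 873 / 10000) ^ 2 := by
      have : (μ - 873 / 10000) ^ 4 = (μ - 873 / 10000) ^ 2 * (μ - 873 / 10000) ^ 2 := by ring
      rw [this]
      exact mul_le_mul_of_nonneg_right hy (sq_nonneg _)
    rw [hs]
    nlinarith [sq_nonneg (μ - 56 / 100)]

end Pool.BA
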