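import Pool.Agent.Work.MP_655153_ba.Interface4

/-! # Block NT: the main inequality -/

set_option autoImplicit false

open MeasureTheory Set

namespace Pool.BA

noncomputable section

theorem NT_cos_le {x : ℝ} (h0 : 0 ≤ x) (h1 : x ≤ 1) :
    Real.cos x ≤ 1 - x ^ 2 / 2 + x ^ 4 / 24 := by
  rcases h0.eq_or_lt with h | h
  · rw [← h]
    norm_num
  · have h2 := Real.sin_gt_sub_cube (x := x / 2) (by positivity)
    have h3 : Real.cos x = 1 - 2 * Real.sin (x / 2) ^ 2 := by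
      have h4 := Real.cos_two_mul (x / 2)
      have h5 := Real.sin_sq_add_cos_sq (x / 2)
      rw [show 2 * (x / 2) = x by ring] at h4
      linarith
    rw [h3]
    have h4 : 0 ≤ x / 2 - (x / 2) ^ 3 / 6 := by
      have h5 : x ^ 3 ≤ x := by
        have : x ^ 3 ≤ x ^ 1 := pow_le_pow_of_le_one h0 h1 (by norm_num)
        simpa using this
      nlinarith
    have h5 := mul_self_le_mul_self h4 h2.le
    have h6 : 0 ≤ x ^ 6 := by positivity
    nlinarith [h5, h6]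

theorem NT_arctan_le {x : ℝ} (hx : 0 ≤ x) : Real.arctan x ≤ x - x ^ 3 / 3 + x ^ 5 / 5 := by
  have hd : ∀ y : ℝ, HasDerivAt (fun x : ℝ => (x - x ^ 3 / 3 + x ^ 5 / 5) - Real.arctan x)
      (y ^ 6 / (1 + y ^ 2)) y := by
    intro y
    have h1 := Real.hasDerivAt_arctan y
    have h2 : HasDerivAt (fun x : ℝ => x - x ^ 3 / 3 + x ^ 5 / 5)
        (1 - (3 : ℕ) * y ^ 2 / 3 + (5 : ℕ) * y ^ 4 / 5) y :=
      ((hasDerivAt_id y).sub ((hasDerivAt_pow 3 y).div_const 3)).add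
        ((hasDerivAt_pow 5 y).div_const 5)
    have h3 := h2.sub h1
    have e : y ^ 6 / (1 + y ^ 2) = (1 - (3 : ℕ) * y ^ 2 / 3 + (5 : ℕ) * y ^ 4 / 5) -
        1 / (1 + y ^ 2) := by
      have h4 : (1 + y ^ 2 : ℝ) ≠ 0 := by positivity
      field_simp
      push_cast
      ring
    rw [e]
    exact h3
  have h1 : Monotone (fun x : ℝ => (x - x ^ 3 / 3 + x ^ 5 / 5) - Real.arctan x) := by
    refine monotone_of_deriv_nonneg (fun y => (hd y).differentiableAt) fun y => ?_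
    rw [(hd y).deriv]
    positivity
  have h2 := h1 hx
  simp only [Real.arctan_zero] at h2
  norm_num at h2
  linarith

theorem NT_F (a D κ : ℝ) (hD : 0 ≤ D)
    (hk : ∀ x, 0 ≤ x → x ≤ D → κ * ((1 + (a - x) ^ 2) * (1 + (a + x) ^ 2)) ≤ 4 * a) :
    κ * D ^ 2 ≤ 2 * (2 * Real.arctan a - Real.arctan (a - D) - Real.arctan (a + D)) := by
  have hd : ∀ x : ℝ, HasDerivAt (fun x : ℝ => 2 * (2 * Real.arctan a - Real.arctan (a - x) -
      Real.arctan (a + x)) - κ * x ^ 2)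
      (2 * x * (4 * a - κ * ((1 + (a - x) ^ 2) * (1 + (a + x) ^ 2))) /
        ((1 + (a - x) ^ 2) * (1 + (a + x) ^ 2))) x := by
    intro x
    have h1 : HasDerivAt (fun x : ℝ => Real.arctan (a - x)) (1 / (1 + (a - x) ^ 2) * (-1)) x := by
      have := (Real.hasDerivAt_arctan (a - x)).comp x ((hasDerivAt_id x).const_sub a)
      exact this
    have h2 : HasDerivAt (fun x : ℝ => Real.arctan (a + x)) (1 / (1 + (a + x) ^ 2) * 1) x := by
      have := (Real.hasDerivAt_arctan (a + x)).comp x ((hasDerivAt_id x).const_add a)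
      exact this
    have h3 : HasDerivAt (fun x : ℝ => κ * x ^ 2) (κ * ((2 : ℕ) * x ^ 1)) x :=
      (hasDerivAt_pow 2 x).const_mul κ
    have h4 := (((h1.const_sub (2 * Real.arctan a)).sub h2).const_mul 2).sub h3
    have h5 : (1 + (a - x) ^ 2 : ℝ) ≠ 0 := by positivity
    have h6 : (1 + (a + x) ^ 2 : ℝ) ≠ 0 := by positivity
    have e : 2 * x * (4 * a - κ * ((1 + (a - x) ^ 2) * (1 + (a + x) ^ 2))) /
        ((1 + (a - x) ^ 2) * (1 + (a + x) ^ 2)) =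
        2 * (-(1 / (1 + (a - x) ^ 2) * (-1)) - 1 / (1 + (a + x) ^ 2) * 1) -
          κ * ((2 : ℕ) * x ^ 1) := by
      field_simp
      push_cast
      ring
    rw [e]
    exact h4
  have hm : MonotoneOn (fun x : ℝ => 2 * (2 * Real.arctan a - Real.arctan (a - x) -
      Real.arctan (a + x)) - κ * x ^ 2) (Icc 0 D) := by
    refine monotoneOn_of_deriv_nonneg (convex_Icc 0 D)
      (fun x _ => (hd x).continuousAt.continuousWithinAt)
      (fun x _ => (hd x).differentiableAt.differentiableWithinAt) fun x hx => ?_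
    rw [interior_Icc] at hx
    rw [(hd x).deriv]
    have h1 := hk x hx.1.le hx.2.le
    have h2 := hx.1.le
    exact div_nonneg (mul_nonneg (by linarith) (by linarith)) (by positivity)
  have h := hm (left_mem_Icc.2 hD) (right_mem_Icc.2 hD) hD
  simp only [sub_zero, add_zero] at h
  linarith

theorem NT_Fabs (a d κ : ℝ) (hk : ∀ x, 0 ≤ x → x ≤ |d| →
    κ * ((1 + (a - x) ^ 2) * (1 + (a + x) ^ 2)) ≤ 4 * a) :
    κ * d ^ 2 ≤ 2 * (2 * Real.arctan a - Real.arctan (a - d) - Real.arctan (a + d)) := by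
  rcases abs_cases d with ⟨h, _⟩ | ⟨h, _⟩
  · have h1 := NT_F a |d| κ (abs_nonneg d) hk
    rw [h] at h1
    exact h1
  · have h1 := NT_F a |d| κ (abs_nonneg d) hk
    rw [h] at h1
    rw [show a - -d = a + d by ring, show a + -d = a - d by ring, neg_sq] at h1
    linarith

theorem NT_P (a x : ℝ) (hx0 : 0 ≤ x) (hx : x ≤ a) (ha : a ≤ 7 / 5) :
    (1 + (a - x) ^ 2) * (1 + (a + x) ^ 2) ≤ 1 + 4 * a ^ 2 := by
  have h1 : x ^ 2 ≤ a ^ 2 := pow_le_pow_left₀ hx0 hx 2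
  have h2 : a ^ 2 ≤ 2 := by nlinarith
  have h3 : 0 ≤ (a ^ 2 - x ^ 2) * (x ^ 2 + 2 - a ^ 2) :=
    mul_nonneg (by linarith) (by nlinarith [sq_nonneg x])
  nlinarith [h3]

theorem NT_cd (u x : ℝ) (hu : 0 ≤ u) (hx : 0 < x) (h : x ^ 2 * (1 + u) = 1) : 1 - u / 2 ≤ x := by
  by_contra hc
  have hc' : x < 1 - u / 2 := not_le.1 hc
  have h1 : u < 2 := by linarith
  have h2 : x ^ 2 < (1 - u / 2) ^ 2 := pow_lt_pow_left₀ hc' hx.le (by norm_num)
  have h3 : x ^ 2 * (1 + u) < (1 - u / 2) ^ 2 * (1 + u) := mul_lt_mul_of_pos_right h2 (by linarith)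
  have h4 : (1 - u / 2) ^ 2 * (1 + u) = 1 - u ^ 2 * (3 - u) / 4 := by ring
  have h5 : 0 ≤ u ^ 2 * (3 - u) := mul_nonneg (sq_nonneg u) (by linarith)
  linarith

theorem NT_c1 : (6427 / 10000 : ℝ) ≤ Real.cos (5 * Real.pi / 18) := by
  have hpi := Real.pi_pos
  obtain ⟨c, hc⟩ : ∃ c, c = Real.cos (5 * Real.pi / 18) := ⟨_, rfl⟩
  have h1 : 1 / 2 ≤ c := by
    rw [hc, ← Real.cos_pi_div_three]
    exact Real.cos_le_cos_of_nonneg_of_le_pi (by positivity) (by linarith) (by linarith)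
  have h2 : 4 * c ^ 3 - 3 * c = -(Real.sqrt 3 / 2) := by
    rw [hc, ← Real.cos_three_mul, ← Real.cos_pi_div_six, ← Real.cos_pi_sub]
    congr 1
    ring
  have h3 : Real.sqrt 3 ≤ 1.7323 := by
    rw [Real.sqrt_le_left (by norm_num)]
    norm_num
  rw [← hc]
  by_contra hcon
  have h4 : c < 6427 / 10000 := not_le.1 hcon
  have h5 : 0 ≤ (6427 / 10000 - c) * (4 * (c ^ 2 + c * (6427 / 10000) + (6427 / 10000) ^ 2) - 3) :=
    mul_nonneg (by linarith) (by nlinarith)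
  nlinarith [h5]

theorem NT_c {μ : ℝ} (h0 : 0 ≤ μ) (h1 : μ ≤ 5 * Real.pi / 18) :
    6427 / 10000 ≤ Real.cos μ ∧ Real.sin μ ≤ 7662 / 10000 := by
  have hpi := Real.pi_pos
  have h2 : Real.cos (5 * Real.pi / 18) ≤ Real.cos μ :=
    Real.cos_le_cos_of_nonneg_of_le_pi h0 (by linarith) h1
  have h3 := NT_c1.trans h2
  refine ⟨h3, ?_⟩
  have h4 := Real.sin_sq_add_cos_sq μ
  by_contra hcon
  have h5 : 7662 / 10000 < Real.sin μ := not_le.1 hcon
  nlinarith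

theorem NT_bdd : BddBelow {y | ∃ μ t, 0 < μ ∧ μ < Real.pi / 2 ∧ 0 < t ∧
    4 * Real.arctan t < 2 * Real.pi - 2 * μ ∧ y = bowArrow μ t} := by
  refine ⟨0, ?_⟩
  rintro y ⟨μ, t, h1, h2, h3, h4, rfl⟩
  have h5 : 0 < Real.tan μ := Real.tan_pos_of_pos_of_lt_pi_div_two h1 h2
  have h6 : 0 < Real.sin μ := Real.sin_pos_of_pos_of_lt_pi h1 (by linarith [Real.pi_pos])
  have h7 : 0 < (Real.tan μ + t) * Real.sin μ := mul_pos (by linarith) h6
  unfold bowArrow
  linarith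

/-- reduction of the right side -/
theorem NT_red (μ t t' δ S : ℝ) (hμ0 : 0 < μ) (hμ : μ < Real.pi / 2)
    (h1 : S ≤ 2 * Real.pi - 2 * μ + (t - 2 * Real.arctan t) + (t' - 2 * Real.arctan t') +
      (Real.tan μ + t) * Real.sin (μ + δ))
    (h2 : S ≤ 2 * Real.pi - 2 * μ + (t - 2 * Real.arctan t) + (t' - 2 * Real.arctan t') +
      (Real.tan μ + t') * Real.sin (μ - δ)) :
    S ≤ 2 * Real.pi - 2 * μ - (2 * Real.arctan t - t) - (2 * Real.arctan t' - t') +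
      Real.cos δ / Real.cos μ -
      max (Real.cos (μ + δ) - t * Real.sin (μ + δ)) (Real.cos (μ - δ) - t' * Real.sin (μ - δ)) := by
  have hc : 0 < Real.cos μ := Real.cos_pos_of_mem_Ioo ⟨by linarith, hμ⟩
  have e1 : Real.cos δ / Real.cos μ - (Real.cos (μ + δ) - t * Real.sin (μ + δ)) =
      (Real.tan μ + t) * Real.sin (μ + δ) := by
    have h := Real.cos_sub (μ + δ) μ
    rw [add_sub_cancel_left] at h
    rw [h, Real.tan_eq_sin_div_cos]
    field_simp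
    ring
  have e2 : Real.cos δ / Real.cos μ - (Real.cos (μ - δ) - t' * Real.sin (μ - δ)) =
      (Real.tan μ + t') * Real.sin (μ - δ) := by
    have h := Real.cos_sub μ (μ - δ)
    rw [sub_sub_cancel] at h
    rw [h, Real.tan_eq_sin_div_cos]
    field_simp
    ring
  rcases max_choice (Real.cos (μ + δ) - t * Real.sin (μ + δ))
    (Real.cos (μ - δ) - t' * Real.sin (μ - δ)) with h | h
  · rw [h]
    linarith
  · rw [h]
    linarith

/-- `ψ(t) + t sin μ ≥ cos μ - (π/2 - μ)` -/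
theorem NT_mint (hM : Stmt_MINT) (μ t : ℝ) (h0 : 0 ≤ μ) (h1 : μ ≤ Real.pi / 2) (ht : 0 ≤ t) :
    Real.cos μ - (Real.pi / 2 - μ) ≤ t * Real.sin μ + (t - 2 * Real.arctan t) := by
  have hpi := Real.pi_pos
  have h := hM μ (Real.arctan t) h0 (by linarith) (Real.arctan_nonneg.2 ht)
    (Real.arctan_lt_pi_div_two t)
  rw [abs_of_nonneg (by linarith : 0 ≤ Real.pi / 2 - μ), Real.sin_pi_div_two_sub] at h
  unfold sf at h
  rw [Real.tan_arctan] at h
  linarith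

theorem NT_psi (hM : Stmt_MINT) (t : ℝ) (ht : 0 ≤ t) :
    1 - Real.pi / 2 ≤ t - 2 * Real.arctan t := by
  have h := NT_mint hM 0 t le_rfl (by linarith [Real.pi_pos]) ht
  simp only [Real.cos_zero, Real.sin_zero, mul_zero, sub_zero, zero_add] at h
  exact h

theorem NT_lin {μ : ℝ} (h0 : 0 ≤ μ) (h1 : μ ≤ 873 / 1000) :
    Real.cos μ ≤ 12 / 10 - 62 / 100 * μ := by
  have h2 := NT_cos_le h0 (by linarith)
  have h3 : 0 ≤ (μ - 67 / 100) ^ 2 * (4438875 / 10000000 - 67 / 1200 * μ - μ ^ 2 / 24) :=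
    mul_nonneg (sq_nonneg _) (by nlinarith)
  nlinarith [h3]

theorem NT_case1 (hM : Stmt_MINT) (μ t t' : ℝ) (hμ0 : 0 < μ) (hμ1 : μ ≤ 5 * Real.pi / 18)
    (ht : 0 ≤ t) (ht' : 0 ≤ t') :
    4819 / 1000 ≤ 2 * Real.pi - 2 * μ + (t - 2 * Real.arctan t) + (t' - 2 * Real.arctan t') +
      (Real.tan μ + t) * Real.sin (μ + Real.pi / 36) := by
  have hpi1 := Real.pi_gt_d6
  have hpi2 := Real.pi_lt_d6
  have h1 := NT_mint hM (μ + Real.pi / 36) t (by linarith) (by linarith) ht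
  have h2 := NT_psi hM t' ht'
  have hc : 0 < Real.cos μ := Real.cos_pos_of_mem_Ioo ⟨by linarith, by linarith⟩
  have h3 : Real.cos (μ + Real.pi / 36) + Real.tan μ * Real.sin (μ + Real.pi / 36) =
      Real.cos (Real.pi / 36) / Real.cos μ := by
    have h := Real.cos_sub (μ + Real.pi / 36) μ
    rw [add_sub_cancel_left] at h
    rw [h, Real.tan_eq_sin_div_cos]
    field_simp
  have h4 : 99619 / 100000 ≤ Real.cos (Real.pi / 36) := by
    have h := Real.one_sub_sq_div_two_le_cos (x := Real.pi / 36)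
    nlinarith
  have h5 : 5902 / 10000 + μ ≤ Real.cos (Real.pi / 36) / Real.cos μ := by
    rw [le_div_iff₀ hc]
    have h6 := NT_lin hμ0.le (by linarith)
    have h7 : (5902 / 10000 + μ) * Real.cos μ ≤ (5902 / 10000 + μ) * (12 / 10 - 62 / 100 * μ) :=
      mul_le_mul_of_nonneg_left h6 (by linarith)
    nlinarith [sq_nonneg (μ - 67 / 100)]
  linarith

theorem NT_kap (a c s : ℝ) (ha0 : 3 / 10 ≤ a) (ha1 : a ≤ 7 / 5) (hs : 0 < s)
    (hs1 : s ≤ 7662 / 10000) (hc0 : 6427 / 10000 ≤ c) (hc1 : c ≤ 1) (hcs : s ^ 2 + c ^ 2 = 1) :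
    s * (1 + (s / c) ^ 2 / 2) * (1 + 4 * a ^ 2) ≤ 4 * a * (s / c + a) := by
  have hc : 0 < c := by linarith
  have h1 : (1 + c ^ 2) * (1 + 4 * a ^ 2) ≤ 8 * a * c * (1 + 8388 / 10000 * a) := by
    have e1 : 0 ≤ (c - 6427 / 10000) * (1 - c) := mul_nonneg (by linarith) (by linarith)
    have e2 : 0 ≤ 8 * a * (1 + 8388 / 10000 * a) - (1 + 6427 / 10000) * (1 + 4 * a ^ 2) := by
      nlinarith [mul_nonneg (sub_nonneg.2 ha0) (sub_nonneg.2 ha1)]
    have e3 := mul_nonneg (sub_nonneg.2 hc0) e2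
    have e4 : 0 ≤ 8 * a * (6427 / 10000) * (1 + 8388 / 10000 * a) -
        (1 + (6427 / 10000) ^ 2) * (1 + 4 * a ^ 2) := by
      nlinarith [mul_nonneg (sub_nonneg.2 ha0) (sub_nonneg.2 ha1)]
    have e5 : 0 ≤ (c - 6427 / 10000) * (1 - c) * (1 + 4 * a ^ 2) := mul_nonneg e1 (by positivity)
    nlinarith [e3, e4, e5]
  have h2 : 8388 / 10000 * s ≤ c := by nlinarith
  have h3 : s * (1 + c ^ 2) * (1 + 4 * a ^ 2) ≤ 8 * a * c * (s + a * c) := by
    have e1 := mul_le_mul_of_nonneg_left h1 hs.le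
    have e2 : 8 * a * c * a * (8388 / 10000 * s) ≤ 8 * a * c * a * c :=
      mul_le_mul_of_nonneg_left h2 (by positivity)
    nlinarith [e1, e2]
  have e1 : s * (1 + (s / c) ^ 2 / 2) * (1 + 4 * a ^ 2) =
      s * (1 + c ^ 2) * (1 + 4 * a ^ 2) / (2 * c ^ 2) := by
    have h4 : s ^ 2 = 1 - c ^ 2 := by linarith
    rw [div_pow, h4]
    field_simp
    ring
  have e2 : 4 * a * (s / c + a) = 8 * a * c * (s + a * c) / (2 * c ^ 2) := by
    field_simp
    ring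
  rw [e1, e2]
  exact div_le_div_of_nonneg_right h3 (by positivity)

theorem NT_2A (μ a d δ : ℝ) (hμ0 : 0 < μ) (hμ1 : μ ≤ 5 * Real.pi / 18) (hδ : |δ| < μ)
    (hd : |d| ≤ a) (ha0 : 3 / 10 ≤ a) (ha1 : a ≤ 7 / 5)
    (hH : (Real.tan μ + (a + d)) * Real.sin (μ + δ) = (Real.tan μ + (a - d)) * Real.sin (μ - δ)) :
    bowArrow μ a ≤ 2 * Real.pi - 2 * μ + ((a + d) - 2 * Real.arctan (a + d)) +
      ((a - d) - 2 * Real.arctan (a - d)) + (Real.tan μ + (a + d)) * Real.sin (μ + δ) := by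
  have hpi := Real.pi_pos
  obtain ⟨hc0, hs1⟩ := NT_c hμ0.le hμ1
  have hs0 : 0 < Real.sin μ := Real.sin_pos_of_pos_of_lt_pi hμ0 (by linarith)
  have hc1 := Real.cos_le_one μ
  have hcs := Real.sin_sq_add_cos_sq μ
  have hδ' := abs_lt.1 hδ
  have hcd : 0 < Real.cos δ := Real.cos_pos_of_mem_Ioo ⟨by linarith, by linarith⟩
  have hcsd := Real.sin_sq_add_cos_sq δ
  have hd' := abs_le.1 hd
  unfold bowArrow
  rw [Real.sin_add, Real.sin_sub] at hH
  rw [Real.sin_add]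
  rw [Real.tan_eq_sin_div_cos] at hH ⊢
  obtain ⟨s, hs⟩ : ∃ s, s = Real.sin μ := ⟨_, rfl⟩
  obtain ⟨c, hc⟩ : ∃ c, c = Real.cos μ := ⟨_, rfl⟩
  obtain ⟨x, hx⟩ : ∃ x, x = Real.cos δ := ⟨_, rfl⟩
  obtain ⟨y, hy⟩ : ∃ y, y = Real.sin δ := ⟨_, rfl⟩
  rw [← hs, ← hc, ← hx, ← hy] at hH
  rw [← hs, ← hc, ← hx, ← hy]
  rw [← hs, ← hc] at hcs
  rw [← hx, ← hy] at hcsd
  rw [← hs] at hs0 hs1
  rw [← hc] at hc0 hc1
  rw [← hx] at hcd
  have hcpos : 0 < c := by linarith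
  have hkap := NT_kap a c s ha0 ha1 hs0 hs1 hc0 hc1 hcs
  obtain ⟨T, hT⟩ : ∃ T, T = s / c := ⟨_, rfl⟩
  rw [← hT] at hH hkap ⊢
  have hTc : T * c = s := by rw [hT]; field_simp
  have hTpos : 0 < T := by rw [hT]; positivity
  obtain ⟨Lb, hLb⟩ : ∃ Lb, Lb = T + a := ⟨_, rfl⟩
  have hLpos : 0 < Lb := by rw [hLb]; linarith
  rw [← hLb] at hkap ⊢
  rw [show T + (a + d) = Lb + d by rw [hLb]; ring] at hH ⊢
  rw [show T + (a - d) = Lb - d by rw [hLb]; ring] at hH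
  have E1 : Lb * c * y = -(d * s * x) := by linarith
  have hdL : d ^ 2 ≤ Lb ^ 2 := by
    have h1 : |d| ≤ Lb := by rw [hLb]; linarith
    rw [← sq_abs d]
    exact pow_le_pow_left₀ (abs_nonneg d) h1 2
  obtain ⟨H, hHd⟩ : ∃ H, H = (Lb + d) * (s * x + c * y) := ⟨_, rfl⟩
  rw [← hHd]
  have hHL : H * Lb = s * x * (Lb ^ 2 - d ^ 2) := by
    rw [hHd]
    linear_combination (Lb + d) * E1
  obtain ⟨u, hu⟩ : ∃ u, u = d ^ 2 * T ^ 2 / Lb ^ 2 := ⟨_, rfl⟩
  have hu0 : 0 ≤ u := by rw [hu]; positivity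
  have huL : u * Lb ^ 2 = d ^ 2 * T ^ 2 := by rw [hu]; field_simp
  have hxu : x ^ 2 * (1 + u) = 1 := by
    have h1 : (Lb * c) ^ 2 * (x ^ 2 * (1 + u)) = (Lb * c) ^ 2 := by
      have h2 : (Lb * c) ^ 2 * (x ^ 2 * (1 + u)) =
          (Lb * c * x) ^ 2 + x ^ 2 * c ^ 2 * (u * Lb ^ 2) := by ring
      have h3 : x ^ 2 * c ^ 2 * (u * Lb ^ 2) = (Lb * c * y) ^ 2 := by
        rw [huL, E1, ← hTc]
        ring
      rw [h2, h3]
      have h4 : (Lb * c * x) ^ 2 + (Lb * c * y) ^ 2 = (Lb * c) ^ 2 * (y ^ 2 + x ^ 2) := by ring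
      rw [h4, hcsd, mul_one]
    have h2 : (Lb * c) ^ 2 ≠ 0 := by positivity
    exact mul_left_cancel₀ h2 (by rw [h1, mul_one])
  have hxl := NT_cd u x hu0 hcd hxu
  have hH1 : s * (Lb ^ 2 - d ^ 2 - d ^ 2 * T ^ 2 / 2) ≤ H * Lb := by
    rw [hHL]
    have h1 : s * (1 - u / 2) * (Lb ^ 2 - d ^ 2) ≤ s * x * (Lb ^ 2 - d ^ 2) :=
      mul_le_mul_of_nonneg_right (mul_le_mul_of_nonneg_left hxl hs0.le) (by linarith)
    refine le_trans ?_ h1
    have h2 : s * (1 - u / 2) * (Lb ^ 2 - d ^ 2) =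
        s * (Lb ^ 2 - d ^ 2 - u * Lb ^ 2 / 2) + s * u * d ^ 2 / 2 := by ring
    rw [h2, huL]
    have h3 : 0 ≤ s * u * d ^ 2 / 2 := by positivity
    linarith
  obtain ⟨κ, hκ⟩ : ∃ κ, κ = s * (1 + T ^ 2 / 2) / Lb := ⟨_, rfl⟩
  have hκL : κ * Lb = s * (1 + T ^ 2 / 2) := by rw [hκ]; field_simp
  have hκ0 : 0 ≤ κ := by rw [hκ]; positivity
  have hH2 : Lb * s - κ * d ^ 2 ≤ H := by
    have h1 : (Lb * s - κ * d ^ 2) * Lb ≤ H * Lb := by
      have h2 : (Lb * s - κ * d ^ 2) * Lb = s * Lb ^ 2 - (κ * Lb) * d ^ 2 := by ring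
      rw [h2, hκL]
      linarith
    exact le_of_mul_le_mul_right h1 hLpos
  have hκa : κ * (1 + 4 * a ^ 2) ≤ 4 * a := by
    have h1 : κ * (1 + 4 * a ^ 2) * Lb ≤ 4 * a * Lb := by
      have h2 : κ * (1 + 4 * a ^ 2) * Lb = (κ * Lb) * (1 + 4 * a ^ 2) := by ring
      rw [h2, hκL]
      exact hkap
    exact le_of_mul_le_mul_right h1 hLpos
  have hF := NT_Fabs a d κ fun z hz0 hz =>
    (mul_le_mul_of_nonneg_left (NT_P a z hz0 (hz.trans hd) ha1) hκ0).trans hκa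
  linarith

theorem NT_conv (a d : ℝ) (hd : |d| ≤ a) :
    Real.arctan (a + d) + Real.arctan (a - d) ≤ 2 * Real.arctan a := by
  have h := NT_Fabs a d 0 fun x _ _ => by
    have : 0 ≤ a := (abs_nonneg d).trans hd
    linarith
  linarith

theorem NT_2B (μ a d δ : ℝ) (hμ0 : 0 < μ) (hμ1 : μ ≤ 5 * Real.pi / 18) (hδ : |δ| < μ)
    (hδ1 : |δ| ≤ Real.pi / 36) (hd : |d| ≤ a) (ha1 : a ≤ 3 / 10)
    (hH : (Real.tan μ + (a + d)) * Real.sin (μ + δ) = (Real.tan μ + (a - d)) * Real.sin (μ - δ)) :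
    4819 / 1000 ≤ 2 * Real.pi - 2 * μ + ((a + d) - 2 * Real.arctan (a + d)) +
      ((a - d) - 2 * Real.arctan (a - d)) + (Real.tan μ + (a + d)) * Real.sin (μ + δ) := by
  have hpi1 := Real.pi_gt_d6
  have hpi2 := Real.pi_lt_d6
  have ha0 : 0 ≤ a := (abs_nonneg d).trans hd
  have hδ' := abs_lt.1 hδ
  have hδ1' := abs_le.1 hδ1
  have hd' := abs_le.1 hd
  have hs0 : 0 < Real.sin μ := Real.sin_pos_of_pos_of_lt_pi hμ0 (by linarith)
  have hc0 : 0 < Real.cos μ := Real.cos_pos_of_mem_Ioo ⟨by linarith, by linarith⟩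
  have hT0 : 0 < Real.tan μ := Real.tan_pos_of_pos_of_lt_pi_div_two hμ0 (by linarith)
  have h1 := NT_conv a d hd
  have h2 := NT_arctan_le ha0
  have hH1 : Real.tan μ * Real.sin μ ≤ (Real.tan μ + (a + d)) * Real.sin (μ + δ) := by
    rcases le_total 0 δ with h | h
    · have h3 : Real.sin μ ≤ Real.sin (μ + δ) :=
        Real.sin_le_sin_of_le_of_le_pi_div_two (by linarith) (by linarith) (by linarith)
      exact mul_le_mul (by linarith) h3 hs0.le (by linarith)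
    · rw [hH]
      have h3 : Real.sin μ ≤ Real.sin (μ - δ) :=
        Real.sin_le_sin_of_le_of_le_pi_div_two (by linarith) (by linarith) (by linarith)
      exact mul_le_mul (by linarith) h3 hs0.le (by linarith)
  have hcs := Real.sin_sq_add_cos_sq μ
  have h3 : μ ^ 2 + μ ^ 4 / 6 ≤ Real.tan μ * Real.sin μ := by
    have h4 := NT_cos_le hμ0.le (by linarith)
    have h5 : Real.tan μ * Real.sin μ = (1 - Real.cos μ ^ 2) / Real.cos μ := by
      rw [Real.tan_eq_sin_div_cos]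
      field_simp
      linarith
    rw [h5, le_div_iff₀ hc0]
    obtain ⟨C, hC⟩ : ∃ C, C = 1 - μ ^ 2 / 2 + μ ^ 4 / 24 := ⟨_, rfl⟩
    rw [← hC] at h4
    have h6 : (μ ^ 2 + μ ^ 4 / 6) * Real.cos μ ≤ (μ ^ 2 + μ ^ 4 / 6) * C :=
      mul_le_mul_of_nonneg_left h4 (by positivity)
    have h7 : Real.cos μ ^ 2 ≤ C ^ 2 := pow_le_pow_left₀ hc0.le h4 2
    have h8 : (μ ^ 2 + μ ^ 4 / 6) * C + C ^ 2 ≤ 1 := by
      rw [hC]
      have h9 : (μ ^ 2 + μ ^ 4 / 6) * (1 - μ ^ 2 / 2 + μ ^ 4 / 24) +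
          (1 - μ ^ 2 / 2 + μ ^ 4 / 24) ^ 2 = 1 - μ ^ 6 * (48 - 5 * μ ^ 2) / 576 := by ring
      rw [h9]
      have h10 : 0 ≤ μ ^ 6 * (48 - 5 * μ ^ 2) := mul_nonneg (by positivity) (by nlinarith)
      linarith
    linarith
  have h4 : -(566 / 1000) ≤ 2 * a - 4 * (a - a ^ 3 / 3 + a ^ 5 / 5) := by
    have h5 : a ^ 5 ≤ a * (3 / 10) ^ 4 := by
      have h6 : a ^ 4 ≤ (3 / 10) ^ 4 := pow_le_pow_left₀ ha0 ha1 4
      have h7 := mul_le_mul_of_nonneg_left h6 ha0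
      have h8 : a ^ 5 = a * a ^ 4 := by ring
      rw [h8]
      exact h7
    nlinarith [mul_nonneg ha0 (sub_nonneg.2 ha1), mul_nonneg (mul_nonneg ha0 ha0)
      (sub_nonneg.2 ha1), mul_nonneg (sq_nonneg (3 / 10 - a)) ha0]
  have h5 : 0 ≤ μ ^ 4 / 6 + μ ^ 2 - 2 * μ + 8981 / 10000 := by
    nlinarith [sq_nonneg (μ ^ 2 - 6686 / 10000), sq_nonneg (μ - 8177 / 10000)]
  linarith

theorem NT_2C (hM : Stmt_MINT) (μ a d δ : ℝ) (hμ0 : 0 < μ) (hμ1 : μ ≤ 5 * Real.pi / 18)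
    (hδ : |δ| < μ)
    (hδ1 : |δ| ≤ Real.pi / 36) (hd : |d| ≤ a) (ha1 : 7 / 5 ≤ a)
    (hH : (Real.tan μ + (a + d)) * Real.sin (μ + δ) = (Real.tan μ + (a - d)) * Real.sin (μ - δ)) :
    4819 / 1000 ≤ 2 * Real.pi - 2 * μ + ((a + d) - 2 * Real.arctan (a + d)) +
      ((a - d) - 2 * Real.arctan (a - d)) + (Real.tan μ + (a + d)) * Real.sin (μ + δ) := by
  have hpi1 := Real.pi_gt_d6
  have hpi2 := Real.pi_lt_d6
  have hδ' := abs_lt.1 hδ
  have hδ1' := abs_le.1 hδ1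
  have hd' := abs_le.1 hd
  have h1 := NT_psi hM (a + d) (by linarith)
  have h2 := NT_psi hM (a - d) (by linarith)
  have hT : μ ≤ Real.tan μ := Real.le_tan hμ0.le (by linarith)
  have hδa : δ ≤ |δ| := le_abs_self δ
  have hδb : -δ ≤ |δ| := neg_le_abs δ
  have hδ0 : 0 ≤ |δ| := abs_nonneg δ
  have hs0 : 0 ≤ Real.sin (μ - |δ|) :=
    Real.sin_nonneg_of_nonneg_of_le_pi (by linarith) (by linarith)
  have h3 : (μ + 7 / 5) * Real.sin (μ - |δ|) ≤ (Real.tan μ + (a + d)) * Real.sin (μ + δ) := by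
    rcases le_total 0 d with h | h
    · have h4 : Real.sin (μ - |δ|) ≤ Real.sin (μ + δ) :=
        Real.sin_le_sin_of_le_of_le_pi_div_two (by linarith) (by linarith) (by linarith)
      exact mul_le_mul (by linarith) h4 hs0 (by linarith)
    · rw [hH]
      have h4 : Real.sin (μ - |δ|) ≤ Real.sin (μ - δ) :=
        Real.sin_le_sin_of_le_of_le_pi_div_two (by linarith) (by linarith) (by linarith)
      exact mul_le_mul (by linarith) h4 hs0 (by linarith)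
  rcases le_or_gt μ (Real.pi / 36) with h | h
  · have h4 : 0 ≤ (μ + 7 / 5) * Real.sin (μ - |δ|) := mul_nonneg (by linarith) hs0
    linarith
  · obtain ⟨x, hx⟩ : ∃ x, x = μ - Real.pi / 36 := ⟨_, rfl⟩
    have hx0 : 0 < x := by linarith
    have hx1 : x ≤ 7854 / 10000 := by linarith
    have h5 := Real.sin_gt_sub_cube hx0
    have h6 : Real.sin x ≤ Real.sin (μ - |δ|) :=
      Real.sin_le_sin_of_le_of_le_pi_div_two (by linarith) (by linarith) (by linarith)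
    have h7 : (x + 1487 / 1000) * (x - x ^ 3 / 6) ≤ (μ + 7 / 5) * Real.sin (μ - |δ|) := by
      have h8 : 0 ≤ x - x ^ 3 / 6 := by
        have h9 : x ^ 3 ≤ x ^ 1 := pow_le_pow_of_le_one hx0.le (by linarith) (by norm_num)
        rw [pow_one] at h9
        linarith
      exact mul_le_mul (by linarith) (by linarith) h8 (by linarith)
    have h8 : -(147 / 1000) ≤ (x + 1487 / 1000) * (x - x ^ 3 / 6) - 2 * x := by
      have h9 : 0 ≤ x ^ 2 * (7854 / 10000 - x) := mul_nonneg (sq_nonneg x) (by linarith)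
      have h10 : 0 ≤ x ^ 2 * (7854 / 10000 - x) * x := mul_nonneg h9 hx0.le
      nlinarith [sq_nonneg (x - 37 / 100)]
    linarith

theorem p_NT (hTU : Stmt_TU) (hM : Stmt_MINT) : Stmt_NT := by
  intro μ t t' hμ0 hμ1 ht ht'
  have hpi1 := Real.pi_gt_d6
  have hpi2 := Real.pi_lt_d6
  have hT0 : 0 < Real.tan μ := Real.tan_pos_of_pos_of_lt_pi_div_two hμ0 (by linarith)
  obtain ⟨g, hg⟩ : ∃ g : ℝ → ℝ, g = fun δ => (Real.tan μ + t) * Real.sin (μ + δ) -
    (Real.tan μ + t') * Real.sin (μ - δ) := ⟨_, rfl⟩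
  have hgc : Continuous g := by
    rw [hg]
    fun_prop
  have hU : Tstar ≤ 4819 / 1000 := hTU
  -- a zero of g is enough
  have key : ∀ δ : ℝ, |δ| ≤ Real.pi / 36 → |δ| < μ → g δ = 0 → ∃ δ : ℝ, |δ| ≤ Real.pi / 36 ∧
      |δ| < μ ∧
      Tstar ≤ 2 * Real.pi - 2 * μ - (2 * Real.arctan t - t) - (2 * Real.arctan t' - t') +
        Real.cos δ / Real.cos μ -
        max (Real.cos (μ + δ) - t * Real.sin (μ + δ)) (Real.cos (μ - δ) - t' * Real.sin (μ - δ)) := by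
    intro δ h1 h2 h3
    refine ⟨δ, h1, h2, ?_⟩
    obtain ⟨a, ha⟩ : ∃ a, a = (t + t') / 2 := ⟨_, rfl⟩
    obtain ⟨d, hd⟩ : ∃ d, d = (t - t') / 2 := ⟨_, rfl⟩
    have et : t = a + d := by rw [ha, hd]; ring
    have et' : t' = a - d := by rw [ha, hd]; ring
    have hda : |d| ≤ a := abs_le.2 ⟨by linarith, by linarith⟩
    have hH : (Real.tan μ + t) * Real.sin (μ + δ) = (Real.tan μ + t') * Real.sin (μ - δ) := by
      rw [hg] at h3
      simp only at h3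
      linarith
    have hmain : Tstar ≤ 2 * Real.pi - 2 * μ + (t - 2 * Real.arctan t) +
        (t' - 2 * Real.arctan t') + (Real.tan μ + t) * Real.sin (μ + δ) := by
      rw [et, et'] at hH ⊢
      rcases le_total a (3 / 10) with h | h
      · exact hU.trans (NT_2B μ a d δ hμ0 hμ1 h2 h1 hda h hH)
      · rcases le_total (7 / 5) a with h' | h'
        · exact hU.trans (NT_2C hM μ a d δ hμ0 hμ1 h2 h1 hda h' hH)
        · refine le_trans ?_ (NT_2A μ a d δ hμ0 hμ1 h2 hda h h' hH)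
          refine csInf_le NT_bdd ⟨μ, a, hμ0, by linarith, by linarith, ?_, rfl⟩
          have h4 := NT_psi hM a (by linarith)
          linarith
    exact NT_red μ t t' δ Tstar hμ0 (by linarith) hmain (by rw [← hH]; exact hmain)
  rcases le_or_gt μ (Real.pi / 36) with h | h
  · have hs : 0 < Real.sin (2 * μ) := Real.sin_pos_of_pos_of_lt_pi (by linarith) (by linarith)
    have g1 : g (-μ) < 0 := by
      rw [hg]
      simp only
      rw [show μ + -μ = 0 by ring, show μ - -μ = 2 * μ by ring, Real.sin_zero, mul_zero]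
      have : 0 < (Real.tan μ + t') * Real.sin (2 * μ) := mul_pos (by linarith) hs
      linarith
    have g2 : 0 < g μ := by
      rw [hg]
      simp only
      rw [show μ + μ = 2 * μ by ring, show μ - μ = 0 by ring, Real.sin_zero, mul_zero]
      have : 0 < (Real.tan μ + t) * Real.sin (2 * μ) := mul_pos (by linarith) hs
      linarith
    obtain ⟨δ, hδ, hδ0⟩ := intermediate_value_Icc (by linarith : -μ ≤ μ) hgc.continuousOn
      ⟨g1.le, g2.le⟩
    have e1 : δ ≠ -μ := fun e => by rw [e] at hδ0; linarith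
    have e2 : δ ≠ μ := fun e => by rw [e] at hδ0; linarith
    have e3 : |δ| < μ := abs_lt.2 ⟨lt_of_le_of_ne hδ.1 (Ne.symm e1), lt_of_le_of_ne hδ.2 e2⟩
    exact key δ (e3.le.trans h) e3 hδ0
  · have habs : |Real.pi / 36| = Real.pi / 36 := abs_of_pos (by linarith)
    rcases lt_or_ge (g (Real.pi / 36)) 0 with h1 | h1
    · refine ⟨Real.pi / 36, habs.le, by rw [habs]; exact h, ?_⟩
      have h2 := hU.trans (NT_case1 hM μ t t' hμ0 hμ1 ht ht')
      refine NT_red μ t t' _ Tstar hμ0 (by linarith) h2 ?_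
      rw [hg] at h1
      simp only at h1
      linarith
    · rcases lt_or_ge 0 (g (-(Real.pi / 36))) with h2 | h2
      · refine ⟨-(Real.pi / 36), by rw [abs_neg]; exact habs.le,
          by rw [abs_neg, habs]; exact h, ?_⟩
        have h3 := hU.trans (NT_case1 hM μ t' t hμ0 hμ1 ht' ht)
        rw [hg] at h2
        simp only at h2
        rw [sub_neg_eq_add] at h2
        refine NT_red μ t t' _ Tstar hμ0 (by linarith) ?_ ?_
        · linarith
        · rw [sub_neg_eq_add]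
          linarith
      · obtain ⟨δ, hδ, hδ0⟩ := intermediate_value_Icc
          (by linarith : -(Real.pi / 36) ≤ Real.pi / 36) hgc.continuousOn ⟨h2, h1⟩
        have e3 : |δ| ≤ Real.pi / 36 := abs_le.2 ⟨hδ.1, hδ.2⟩
        exact key δ e3 (e3.trans_lt h) hδ0

end

end Pool.BA
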