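import Pool.Agent.Work.MP_655153_ba.Interface4

/-! Block NV (typed by helper85). -/

open MeasureTheory Set

namespace Pool.BA

noncomputable section

namespace NVaux

theorem sin_ge3 {x : ℝ} (hx : 0 ≤ x) : x - x ^ 3 / 6 ≤ Real.sin x := by
  have hd : ∀ y : ℝ, HasDerivAt (fun y : ℝ => Real.sin y - y + y ^ 3 / 6)
      (Real.cos y - 1 + y ^ 2 / 2) y := by
    intro y
    have h1 : HasDerivAt (fun y : ℝ => Real.sin y - y + y ^ 3 / 6)
        (Real.cos y - 1 + ((3 : ℕ) : ℝ) * y ^ (3 - 1) / 6) y :=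
      ((Real.hasDerivAt_sin y).sub (hasDerivAt_id y)).add
        ((hasDerivAt_pow 3 y).div_const 6)
    exact h1.congr_deriv (by norm_num; ring)
  have hm : MonotoneOn (fun y : ℝ => Real.sin y - y + y ^ 3 / 6) (Ici 0) := by
    refine monotoneOn_of_deriv_nonneg (convex_Ici 0) ?_ ?_ ?_
    · exact fun y _ => (hd y).continuousAt.continuousWithinAt
    · exact fun y _ => (hd y).differentiableAt.differentiableWithinAt
    · intro y _
      rw [(hd y).deriv]
      have := Real.one_sub_sq_div_two_le_cos (x := y)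
      linarith
  have h := hm (mem_Ici.mpr le_rfl) (mem_Ici.mpr hx) hx
  simp only [Real.sin_zero] at h
  linarith

theorem cos_le4 {x : ℝ} (hx : 0 ≤ x) : Real.cos x ≤ 1 - x ^ 2 / 2 + x ^ 4 / 24 := by
  have hd : ∀ y : ℝ, HasDerivAt (fun y : ℝ => 1 - y ^ 2 / 2 + y ^ 4 / 24 - Real.cos y)
      (-y + y ^ 3 / 6 + Real.sin y) y := by
    intro y
    have h1 : HasDerivAt (fun y : ℝ => 1 - y ^ 2 / 2 + y ^ 4 / 24 - Real.cos y)
        (0 - ((2 : ℕ) : ℝ) * y ^ (2 - 1) / 2 + ((4 : ℕ) : ℝ) * y ^ (4 - 1) / 24 -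
          (-Real.sin y)) y :=
      (((hasDerivAt_const y (1 : ℝ)).sub ((hasDerivAt_pow 2 y).div_const 2)).add
        ((hasDerivAt_pow 4 y).div_const 24)).sub (Real.hasDerivAt_cos y)
    exact h1.congr_deriv (by norm_num; ring)
  have hm : MonotoneOn (fun y : ℝ => 1 - y ^ 2 / 2 + y ^ 4 / 24 - Real.cos y) (Ici 0) := by
    refine monotoneOn_of_deriv_nonneg (convex_Ici 0) ?_ ?_ ?_
    · exact fun y _ => (hd y).continuousAt.continuousWithinAt
    · exact fun y _ => (hd y).differentiableAt.differentiableWithinAt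
    · intro y hy
      rw [(hd y).deriv]
      rw [interior_Ici, mem_Ioi] at hy
      have := sin_ge3 hy.le
      linarith
  have h := hm (mem_Ici.mpr le_rfl) (mem_Ici.mpr hx) hx
  simp only [Real.cos_zero] at h
  linarith

theorem pi_lo : (3.141592 : ℝ) < Real.pi := Real.pi_gt_d6

theorem pi_hi : Real.pi < (3.141593 : ℝ) := Real.pi_lt_d6

theorem cos_pos_of {μ : ℝ} (h1 : 5 * Real.pi / 18 ≤ μ) (h2 : μ ≤ Real.pi / 3) :
    0 < Real.cos μ := by
  have hp := Real.pi_pos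
  exact Real.cos_pos_of_mem_Ioo ⟨by linarith, by linarith⟩

theorem inv_cos1 {μ : ℝ} (h1 : 5 * Real.pi / 18 ≤ μ) (h2 : μ ≤ Real.pi / 3) :
    μ + 0.677408 ≤ 1 / Real.cos μ := by
  have hlo := pi_lo
  have hhi := pi_hi
  have hc := cos_pos_of h1 h2
  have hμ0 : 0 ≤ μ := by linarith
  rw [le_div_iff₀ hc]
  have h4 := cos_le4 hμ0
  obtain ⟨u, hu⟩ : ∃ u, u = μ - 0.87266 := ⟨_, rfl⟩
  have hu0 : 0 ≤ u := by rw [hu]; norm_num at *; linarith
  have hu1 : u ≤ 0.175 := by rw [hu]; norm_num at *; linarith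
  have hμ : μ = u + 0.87266 := by rw [hu]; ring
  have h5 : (μ + 0.677408) * Real.cos μ ≤ (μ + 0.677408) * (1 - μ ^ 2 / 2 + μ ^ 4 / 24) :=
    mul_le_mul_of_nonneg_left h4 (by norm_num; linarith)
  refine h5.trans ?_
  rw [hμ]
  have hu2 : 0 ≤ u ^ 2 := sq_nonneg u
  have hu3 : 0 ≤ u ^ 3 := pow_nonneg hu0 3
  have hu4 : u ^ 4 ≤ u ^ 2 := by
    have : u ^ 4 = u ^ 2 * u ^ 2 := by ring
    rw [this]
    have h6 : u ^ 2 ≤ 1 := by
      have : u ≤ 1 := by linarith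
      exact pow_le_one₀ hu0 this
    nlinarith
  have hu5 : u ^ 5 ≤ u ^ 2 := by
    have : u ^ 5 = u ^ 2 * u ^ 3 := by ring
    rw [this]
    have h6 : u ^ 3 ≤ 1 := by
      have : u ≤ 1 := by linarith
      exact pow_le_one₀ hu0 this
    nlinarith
  nlinarith [hu0, hu2, hu3, hu4, hu5]

theorem inv_cos2 {μ : ℝ} (h1 : 5 * Real.pi / 18 ≤ μ) (h2 : μ ≤ Real.pi / 3) :
    2 * μ - 0.322592 ≤ 1 / Real.cos μ := by
  have hlo := pi_lo
  have hhi := pi_hi
  have hc := cos_pos_of h1 h2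
  have hμ0 : 0 ≤ μ := by linarith
  rw [le_div_iff₀ hc]
  have h4 := cos_le4 hμ0
  obtain ⟨u, hu⟩ : ∃ u, u = μ - 0.87266 := ⟨_, rfl⟩
  have hu0 : 0 ≤ u := by rw [hu]; norm_num at *; linarith
  have hu1 : u ≤ 0.175 := by rw [hu]; norm_num at *; linarith
  have hμ : μ = u + 0.87266 := by rw [hu]; ring
  have h5 : (2 * μ - 0.322592) * Real.cos μ ≤
      (2 * μ - 0.322592) * (1 - μ ^ 2 / 2 + μ ^ 4 / 24) :=
    mul_le_mul_of_nonneg_left h4 (by rw [hμ]; norm_num; linarith)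
  refine h5.trans ?_
  rw [hμ]
  have hu2 : 0 ≤ u ^ 2 := sq_nonneg u
  have hu3 : 0 ≤ u ^ 3 := pow_nonneg hu0 3
  have hu4 : u ^ 4 ≤ u ^ 2 := by
    have : u ^ 4 = u ^ 2 * u ^ 2 := by ring
    rw [this]
    have h6 : u ^ 2 ≤ 1 := by
      have : u ≤ 1 := by linarith
      exact pow_le_one₀ hu0 this
    nlinarith
  have hu5 : u ^ 5 ≤ u ^ 2 := by
    have : u ^ 5 = u ^ 2 * u ^ 3 := by ring
    rw [this]
    have h6 : u ^ 3 ≤ 1 := by
      have : u ≤ 1 := by linarith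
      exact pow_le_one₀ hu0 this
    nlinarith
  nlinarith [hu0, hu2, hu3, hu4, hu5, sq_nonneg (u - 0.1)]

theorem bS_nonneg {μ : ℝ} (h1 : Real.pi / 6 ≤ μ) (h2 : μ ≤ Real.pi / 2) : 0 ≤ bS μ := by
  have hp := Real.pi_pos
  unfold bS
  apply div_nonneg
  · exact Real.sin_nonneg_of_nonneg_of_le_pi (by linarith) (by linarith)
  · exact Real.sin_nonneg_of_nonneg_of_le_pi (by linarith) (by linarith)

theorem sqrt3_hi : Real.sqrt 3 ≤ 1.7320509 := by
  rw [Real.sqrt_le_left (by norm_num)]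
  norm_num

theorem sqrt3_lo : 1.73205 ≤ Real.sqrt 3 := by
  apply Real.le_sqrt_of_sq_le
  norm_num

theorem bS_ge {μ : ℝ} (h1 : Real.pi / 3 ≤ μ) (h2 : μ ≤ 5 * Real.pi / 12) : 0.2955 ≤ bS μ := by
  have hlo := pi_lo
  have hhi := pi_hi
  have hs3 := sqrt3_hi
  unfold bS
  have hden : 0 < Real.sin ((μ + Real.pi / 6) / 2) :=
    Real.sin_pos_of_pos_of_lt_pi (by linarith) (by linarith)
  rw [le_div_iff₀ hden]
  have hden2 : Real.sin ((μ + Real.pi / 6) / 2) ≤ Real.sqrt 3 / 2 := by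
    rw [← Real.sin_pi_div_three]
    exact Real.sin_le_sin_of_le_of_le_pi_div_two (by linarith) (by linarith) (by linarith)
  have hnum : Real.sin (Real.pi / 12) ≤ Real.sin ((μ - Real.pi / 6) / 2) :=
    Real.sin_le_sin_of_le_of_le_pi_div_two (by linarith) (by linarith) (by linarith)
  have hnum2 : (0.256 : ℝ) ≤ Real.sin (Real.pi / 12) := by
    have h := sin_ge3 (x := Real.pi / 12) (by linarith)
    have h3 : (Real.pi / 12) ^ 3 ≤ 0.02 := by
      have h5 : Real.pi / 12 ≤ 0.2618 := by norm_num; linarith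
      have h6 : 0 ≤ Real.pi / 12 := by linarith
      calc (Real.pi / 12) ^ 3 ≤ (0.2618 : ℝ) ^ 3 := pow_le_pow_left₀ h6 h5 3
        _ ≤ 0.02 := by norm_num
    have h7 : (0.2617 : ℝ) ≤ Real.pi / 12 := by norm_num; linarith
    norm_num at *
    linarith
  calc (0.2955 : ℝ) * Real.sin ((μ + Real.pi / 6) / 2) ≤ 0.2955 * (Real.sqrt 3 / 2) :=
        mul_le_mul_of_nonneg_left hden2 (by norm_num)
    _ ≤ 0.2955 * (1.7320509 / 2) :=
        mul_le_mul_of_nonneg_left (by linarith) (by norm_num)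
    _ ≤ 0.256 := by norm_num
    _ ≤ Real.sin (Real.pi / 12) := hnum2
    _ ≤ _ := hnum

theorem bS_ge' {μ : ℝ} (h1 : 5 * Real.pi / 12 ≤ μ) (h2 : μ ≤ Real.pi / 2) : μ - 1 ≤ bS μ := by
  have hlo := pi_lo
  have hhi := pi_hi
  have hs3 := sqrt3_hi
  have hs3' := sqrt3_lo
  unfold bS
  have hden : 0 < Real.sin ((μ + Real.pi / 6) / 2) :=
    Real.sin_pos_of_pos_of_lt_pi (by linarith) (by linarith)
  rw [le_div_iff₀ hden]
  obtain ⟨y, hy⟩ : ∃ y, y = Real.pi / 2 - μ := ⟨_, rfl⟩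
  have hy0 : 0 ≤ y := by rw [hy]; linarith
  have hy1 : y ≤ 0.262 := by rw [hy]; norm_num at *; linarith
  have e1 : (μ + Real.pi / 6) / 2 = Real.pi / 3 - y / 2 := by rw [hy]; ring
  have e2 : (μ - Real.pi / 6) / 2 = Real.pi / 6 - y / 2 := by rw [hy]; ring
  have e3 : μ - 1 = Real.pi / 2 - 1 - y := by rw [hy]; ring
  rw [e1, e2, e3, Real.sin_sub, Real.sin_sub, Real.sin_pi_div_three, Real.cos_pi_div_three,
    Real.sin_pi_div_six, Real.cos_pi_div_six]
  obtain ⟨c, hc⟩ : ∃ c, c = Real.cos (y / 2) := ⟨_, rfl⟩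
  obtain ⟨s, hs⟩ : ∃ s, s = Real.sin (y / 2) := ⟨_, rfl⟩
  rw [← hc, ← hs]
  have hs0 : 0 ≤ s := by
    rw [hs]
    exact Real.sin_nonneg_of_nonneg_of_le_pi (by linarith) (by norm_num at *; linarith)
  have hs1 : s ≤ y / 2 := by
    rw [hs]
    exact Real.sin_le (by linarith)
  have hc1 : 1 - (y / 2) ^ 2 / 2 ≤ c := by
    rw [hc]
    exact Real.one_sub_sq_div_two_le_cos
  -- coefficients
  have hk : Real.pi / 2 - 1 ≤ 0.5707965 := by norm_num at *; linarith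
  have hA : 0.0055 + 0.866 * y ≤ 1 / 2 - Real.sqrt 3 / 2 * (Real.pi / 2 - 1 - y) := by
    have h1 : Real.sqrt 3 / 2 * (Real.pi / 2 - 1) ≤ 1.7320509 / 2 * 0.5707965 := by
      apply mul_le_mul
      · linarith
      · exact hk
      · linarith
      · norm_num
    have h2 : 0.866 * y ≤ Real.sqrt 3 / 2 * y :=
      mul_le_mul_of_nonneg_right (by norm_num at *; linarith) hy0
    have h3 : (1.7320509 / 2 * 0.5707965 : ℝ) ≤ 0.4944 := by norm_num
    have h4 : Real.sqrt 3 / 2 * (Real.pi / 2 - 1 - y) =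
      Real.sqrt 3 / 2 * (Real.pi / 2 - 1) - Real.sqrt 3 / 2 * y := by ring
    rw [h4]
    norm_num at *
    linarith
  have hB : Real.sqrt 3 / 2 - (Real.pi / 2 - 1 - y) / 2 ≤ 0.581 + y / 2 := by
    norm_num at *
    linarith
  have hcp : 0 ≤ c := by
    refine le_trans ?_ hc1
    have : (y / 2) ^ 2 ≤ 1 := by
      apply pow_le_one₀
      · linarith
      · norm_num at *; linarith
    linarith
  have hm1 : (1 - (y / 2) ^ 2 / 2) * (0.0055 + 0.866 * y) ≤
      c * (1 / 2 - Real.sqrt 3 / 2 * (Real.pi / 2 - 1 - y)) :=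
    mul_le_mul hc1 hA (by positivity) hcp
  have hm2 : s * (Real.sqrt 3 / 2 - (Real.pi / 2 - 1 - y) / 2) ≤ y / 2 * (0.581 + y / 2) := by
    calc s * (Real.sqrt 3 / 2 - (Real.pi / 2 - 1 - y) / 2) ≤ s * (0.581 + y / 2) :=
          mul_le_mul_of_nonneg_left hB hs0
      _ ≤ y / 2 * (0.581 + y / 2) := mul_le_mul_of_nonneg_right hs1 (by positivity)
  have hm3 : y / 2 * (0.581 + y / 2) ≤ (1 - (y / 2) ^ 2 / 2) * (0.0055 + 0.866 * y) := by
    have h2 : 0 ≤ y * (0.262 - y) := mul_nonneg hy0 (by linarith)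
    have h3 : 0 ≤ y ^ 2 * (0.262 - y) := mul_nonneg (sq_nonneg y) (by linarith)
    norm_num at *
    nlinarith
  nlinarith [hm1, hm2, hm3]

end NVaux

open NVaux

theorem p_NV : Stmt_NV := by
  have hlo := pi_lo
  have hhi := pi_hi
  refine ⟨?_, ?_, ?_⟩
  · intro μ h1 h2
    have hi1 := inv_cos1 h1 h2
    have hi2 := inv_cos2 h1 h2
    have hb : 0 ≤ bS μ := bS_nonneg (by linarith) (by linarith)
    constructor
    · norm_num at *
      linarith
    · norm_num at *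
      linarith
  · intro μ h1 h2
    have hb := bS_ge h1 h2
    constructor
    · norm_num at *
      linarith
    · norm_num at *
      linarith
  · intro μ h1 h2
    exact bS_ge' h1 h2

end

end Pool.BA
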