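import Pool.Agent.Work.MP_655153_ba.Interface3

/-!
# Block OVG: edge of two overlapping caps
-/

open MeasureTheory Set

namespace Pool.BA

noncomputable section

theorem OVG_cos {a α : ℝ} (h1 : -α ≤ a) (h2 : a ≤ α) (h3 : α < Real.pi / 2) :
    Real.cos α ≤ Real.cos a := by
  rw [← Real.cos_abs a]
  exact Real.cos_le_cos_of_nonneg_of_le_pi (abs_nonneg a) (by linarith [Real.pi_pos])
    (abs_le.2 ⟨h1, h2⟩)

theorem p_OVG : Stmt_OVG := by
  intro κ κ' α α' hα hα2 hα' hα2' h1 h2 h3
  have hπ := Real.pi_pos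
  have hc : 0 < Real.cos α := Real.cos_pos_of_mem_Ioo ⟨by linarith, hα2⟩
  have hc' : 0 < Real.cos α' := Real.cos_pos_of_mem_Ioo ⟨by linarith, hα2'⟩
  have hcont : ContinuousOn (fun θ => Real.cos (θ - κ) / Real.cos α -
      Real.cos (κ' - θ) / Real.cos α') (Icc (κ' - α') (κ + α)) := by
    apply Continuous.continuousOn
    fun_prop
  have hFa : 0 ≤ Real.cos (κ' - α' - κ) / Real.cos α -
      Real.cos (κ' - (κ' - α')) / Real.cos α' := by
    have e1 : κ' - (κ' - α') = α' := by ring
    rw [e1, div_self hc'.ne', sub_nonneg, le_div_iff₀ hc, one_mul]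
    exact OVG_cos (by linarith) (by linarith) hα2
  have hFb : Real.cos (κ + α - κ) / Real.cos α - Real.cos (κ' - (κ + α)) / Real.cos α' ≤ 0 := by
    have e1 : κ + α - κ = α := by ring
    rw [e1, div_self hc.ne', sub_nonpos, le_div_iff₀ hc', one_mul]
    exact OVG_cos (by linarith) (by linarith) hα2'
  obtain ⟨θ0, hθ, hF⟩ := intermediate_value_Icc' h2 hcont ⟨hFb, hFa⟩
  have hF : Real.cos (θ0 - κ) / Real.cos α - Real.cos (κ' - θ0) / Real.cos α' = 0 := hF
  have hρ' : Real.cos (κ' - θ0) / Real.cos α' = Real.cos (θ0 - κ) / Real.cos α := by linarith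
  have key : ∀ θ, Real.cos (θ - κ) / Real.cos α - Real.cos (κ' - θ) / Real.cos α' =
      -((Real.sin (θ0 - κ) / Real.cos α + Real.sin (κ' - θ0) / Real.cos α') *
        Real.sin (θ - θ0)) := by
    intro θ
    have e1 : θ - κ = (θ - θ0) + (θ0 - κ) := by ring
    have e2 : κ' - θ = (κ' - θ0) - (θ - θ0) := by ring
    rw [e1, e2, Real.cos_add, Real.cos_sub (κ' - θ0) (θ - θ0)]
    have e3 : (Real.cos (κ' - θ0) * Real.cos (θ - θ0) + Real.sin (κ' - θ0) * Real.sin (θ - θ0)) /
        Real.cos α' = Real.cos (κ' - θ0) / Real.cos α' * Real.cos (θ - θ0) +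
          Real.sin (κ' - θ0) / Real.cos α' * Real.sin (θ - θ0) := by ring
    rw [e3, hρ']
    ring
  have hpq : 0 ≤ Real.sin (θ0 - κ) / Real.cos α + Real.sin (κ' - θ0) / Real.cos α' := by
    rcases eq_or_lt_of_le hθ.2 with hb | hb
    · rcases eq_or_lt_of_le hθ.1 with ha | ha
      · have e1 : θ0 - κ = α := by linarith
        have e2 : κ' - θ0 = α' := by linarith
        rw [e1, e2]
        have s1 := Real.sin_nonneg_of_nonneg_of_le_pi hα (by linarith)
        have s2 := Real.sin_nonneg_of_nonneg_of_le_pi hα' (by linarith)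
        positivity
      · have h5 := key (κ' - α')
        rw [h5] at hFa
        have s1 : Real.sin (κ' - α' - θ0) < 0 :=
          Real.sin_neg_of_neg_of_neg_pi_lt (by linarith) (by linarith)
        by_contra hn
        push Not at hn
        have := mul_pos_of_neg_of_neg hn s1
        linarith
    · have h5 := key (κ + α)
      rw [h5] at hFb
      have s1 : 0 < Real.sin (κ + α - θ0) :=
        Real.sin_pos_of_pos_of_lt_pi (by linarith) (by linarith [hθ.1])
      by_contra hn
      push Not at hn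
      have := mul_neg_of_neg_of_pos hn s1
      linarith
  have hV : V κ α = (Real.cos (θ0 - κ) / Real.cos α : ℝ) * u θ0 -
      (Real.sin (θ0 - κ) / Real.cos α : ℝ) * e θ0 := by
    apply Complex.ext
    · simp only [V, u, e, Complex.sub_re, Complex.mul_re, Complex.ofReal_re, Complex.ofReal_im]
      have e1 : Real.cos κ = Real.cos (θ0 - κ) * Real.cos θ0 + Real.sin (θ0 - κ) * Real.sin θ0 := by
        rw [← Real.cos_sub]
        rw [show θ0 - κ - θ0 = -κ by ring, Real.cos_neg]
      rw [e1]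
      ring
    · simp only [V, u, e, Complex.sub_im, Complex.mul_im, Complex.ofReal_re, Complex.ofReal_im]
      have e1 : Real.sin κ = Real.sin θ0 * Real.cos (θ0 - κ) - Real.cos θ0 * Real.sin (θ0 - κ) := by
        rw [← Real.sin_sub]
        rw [show θ0 - (θ0 - κ) = κ by ring]
      rw [e1]
      ring
  have hV' : V κ' α' = (Real.cos (θ0 - κ) / Real.cos α : ℝ) * u θ0 +
      (Real.sin (κ' - θ0) / Real.cos α' : ℝ) * e θ0 := by
    rw [← hρ']
    apply Complex.ext
    · simp only [V, u, e, Complex.add_re, Complex.mul_re, Complex.ofReal_re, Complex.ofReal_im]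
      have e1 : Real.cos κ' = Real.cos (κ' - θ0) * Real.cos θ0 -
          Real.sin (κ' - θ0) * Real.sin θ0 := by
        rw [← Real.cos_add]
        rw [show κ' - θ0 + θ0 = κ' by ring]
      rw [e1]
      ring
    · simp only [V, u, e, Complex.add_im, Complex.mul_im, Complex.ofReal_re, Complex.ofReal_im]
      have e1 : Real.sin κ' = Real.sin (κ' - θ0) * Real.cos θ0 +
          Real.cos (κ' - θ0) * Real.sin θ0 := by
        rw [← Real.sin_add]
        rw [show κ' - θ0 + θ0 = κ' by ring]
      rw [e1]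
      ring
  refine ⟨θ0, Real.cos (θ0 - κ) / Real.cos α, Real.sin (θ0 - κ) / Real.cos α,
    Real.sin (κ' - θ0) / Real.cos α', hθ.1, hθ.2, ?_, hpq, hV, hV', ?_⟩
  · rw [le_div_iff₀ hc, one_mul]
    exact OVG_cos (by linarith [hθ.1]) (by linarith [hθ.2]) hα2
  · generalize Real.sin (θ0 - κ) / Real.cos α = p at *
    generalize Real.sin (κ' - θ0) / Real.cos α' = q at *
    generalize Real.cos (θ0 - κ) / Real.cos α = ρ at *
    rw [hV, hV', Complex.dist_eq]
    have e1 : (ρ : ℂ) * u θ0 - (p : ℂ) * e θ0 - ((ρ : ℂ) * u θ0 + (q : ℂ) * e θ0) =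
        ((-(p + q) : ℝ) : ℂ) * e θ0 := by
      push_cast
      ring
    have e2 : ‖e θ0‖ = 1 := by
      rw [Complex.norm_def, Complex.normSq_apply]
      simp only [e]
      rw [Real.sqrt_eq_one]
      have := Real.sin_sq_add_cos_sq θ0
      nlinarith
    rw [e1, norm_mul, e2, mul_one, Complex.norm_real, Real.norm_eq_abs, abs_neg,
      abs_of_nonneg hpq]

end

end Pool.BA
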