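import Pool.Agent.Work.MP_655153_ba.Interface4

/-!
# Block PDEV: the first path, small gap
-/

open MeasureTheory Set

namespace Pool.BA

noncomputable section

theorem PDEV_pr (θ δ : ℝ) (x : ℂ) : pr θ (x * u δ) = pr (θ - δ) x := by
  unfold pr u
  rw [Complex.mul_re, Complex.mul_im, Real.cos_sub, Real.sin_sub]
  ring

theorem PDEV_norm (δ : ℝ) : ‖u δ‖ = 1 := by
  rw [Complex.norm_def, u, Complex.normSq_mk, ← sq, ← sq, Real.cos_sq_add_sin_sq, Real.sqrt_one]

theorem PDEV_dist (δ : ℝ) (x y : ℂ) : dist (x * u δ) (y * u δ) = dist x y := by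
  rw [Complex.dist_eq, Complex.dist_eq, ← sub_mul, norm_mul, PDEV_norm, mul_one]

theorem PDEV_plen (δ : ℝ) : ∀ P : List ℂ, plen (P.map (fun x => x * u δ)) = plen P
  | [] => rfl
  | [_] => rfl
  | x :: y :: l => by
    have h := PDEV_plen δ (y :: l)
    rw [List.map_cons] at h
    rw [List.map_cons, List.map_cons, plen, plen, PDEV_dist, h]

theorem PDEV_V (κ α δ : ℝ) : V (κ + δ) α = V κ α * u δ := by
  apply Complex.ext
  · rw [Complex.mul_re]
    simp only [V, u]
    rw [Real.cos_add]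
    ring
  · rw [Complex.mul_im]
    simp only [V, u]
    rw [Real.sin_add]
    ring

theorem PDEV_re0 (μ α : ℝ) (hα : 0 < Real.cos α) :
    (V (μ + α) α).re = Real.cos μ - Real.tan α * Real.sin μ := by
  simp only [V]
  rw [Real.cos_add, Real.tan_eq_sin_div_cos]
  field_simp

theorem PDEV_re1 (μ α : ℝ) (hα : 0 < Real.cos α) :
    (V (2 * Real.pi - μ - α) α).re = Real.cos μ - Real.tan α * Real.sin μ := by
  rw [← PDEV_re0 μ α hα]
  simp only [V]
  rw [show 2 * Real.pi - μ - α = 2 * Real.pi - (μ + α) by ring, Real.cos_two_pi_sub]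

theorem p_PDEV (hEXF : Stmt_EXF) (hPM2 : Stmt_PM2) (hN2 : Stmt_N2) (hIM : Stmt_IM)
    (hAC : Stmt_AC) (hNT : Stmt_NT) (hNC : Stmt_NC) (hNB : Stmt_NB) (hSFB : Stmt_SFB)
    (hTU : Stmt_TU) : Stmt_PDEV := by
  intro P μ hμ0 hμ1 hgap
  obtain ⟨g1, g2, g3⟩ := hgap
  have hpi : 0 < Real.pi := Real.pi_pos
  have hT : Tstar ≤ 4819 / 1000 := hTU
  have hcosμ : 0 < Real.cos μ := Real.cos_pos_of_mem_Ioo ⟨by linarith, by linarith⟩
  obtain ⟨m, κ, α, hF, hWP, hx⟩ := hEXF P (-μ) μ (by linarith) (by linarith)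
    (fun θ hθ => g1 θ ⟨hθ.1, by linarith [hθ.2]⟩) g2 g3
  have hF' : Full m κ α μ (2 * Real.pi - μ) := by
    rw [show 2 * Real.pi - μ = -μ + 2 * Real.pi by ring]
    exact hF
  by_cases hm : m ≤ 2
  · refine ⟨0, by rw [abs_zero]; positivity, by rw [abs_zero]; exact hμ0, ?_⟩
    intro z hz c hc1 hc
    have h1 : c ≤ z.re := by
      have h2 : pr (-0) z = z.re := by
        unfold pr
        rw [neg_zero, Real.cos_zero, Real.sin_zero]
        ring
      rw [← h2]
      exact hc
    have h2 := hPM2 P m κ α μ z hμ0 (by linarith) hF' hm hWP hz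
    have h3 := hN2.2.1 μ hμ0 (by linarith)
    have h4 : 1 ≤ Real.cos 0 / Real.cos μ := by
      rw [Real.cos_zero, le_div_iff₀ hcosμ, one_mul]
      exact Real.cos_le_one μ
    linarith
  · push Not at hm
    have hm0 : 0 < m := by omega
    have hm1 : m - 1 < m := by omega
    have hα0 := hF.ch.α0 0 hm0
    have hα0' := hF.ch.α1 0 hm0
    have hα1 := hF.ch.α0 (m - 1) hm1
    have hα1' := hF.ch.α1 (m - 1) hm1
    have hc0 : 0 < Real.cos (α 0) := Real.cos_pos_of_mem_Ioo ⟨by linarith, hα0'⟩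
    have hc1 : 0 < Real.cos (α (m - 1)) := Real.cos_pos_of_mem_Ioo ⟨by linarith, hα1'⟩
    have ht0 : 0 ≤ Real.tan (α 0) := Real.tan_nonneg_of_nonneg_of_le_pi_div_two hα0 hα0'.le
    have ht1 : 0 ≤ Real.tan (α (m - 1)) :=
      Real.tan_nonneg_of_nonneg_of_le_pi_div_two hα1 hα1'.le
    obtain ⟨δ, hδ1, hδ2, hδ3⟩ := hNT μ (Real.tan (α 0)) (Real.tan (α (m - 1))) hμ0 hμ1 ht0 ht1
    rw [Real.arctan_tan (by linarith) hα0', Real.arctan_tan (by linarith) hα1'] at hδ3
    refine ⟨δ, hδ1, hδ2, ?_⟩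
    intro z hz c hc1' hc
    have hδa := abs_le.1 hδ1
    have hδb := abs_lt.1 hδ2
    -- the rotated frame
    obtain ⟨κ', hκ'⟩ : ∃ κ' : ℕ → ℝ, ∀ i, κ' i = κ i + δ := ⟨_, fun _ => rfl⟩
    have hL : ∀ i, Lf κ' α i = Lf κ α i + δ := by
      intro i
      simp only [Lf, hκ']
      ring
    have hR : ∀ i, Rt κ' α i = Rt κ α i + δ := by
      intro i
      simp only [Rt, hκ']
      ring
    have hFull : Full m κ' α (μ + δ) (2 * Real.pi - (μ - δ)) := by
      refine ⟨⟨hF.ch.α0, hF.ch.α1, ?_, ?_, ?_⟩, hF.pos, ?_, ?_, ?_⟩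
      · intro i hi
        rw [hL, hL]
        linarith [hF.ch.l i hi]
      · intro i hi
        rw [hR, hR]
        linarith [hF.ch.r i hi]
      · intro i hi
        rw [hR, hL]
        linarith [hF.ch.sep i hi]
      · rw [hL, hF.left]
      · rw [hR, hF'.right]
        ring
      · intro i hi
        rw [hL, hR]
        linarith [hF.nogap i hi]
    have hW : ∀ i, W κ' α i = W κ α i * u δ := by
      intro i
      unfold W
      rw [hκ', PDEV_V]
    have hWP' : ∀ i < m, W κ' α i ∈ P.map (fun x => x * u δ) := by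
      intro i hi
      rw [hW]
      exact List.mem_map_of_mem (hWP i hi)
    have hx' : ∀ x ∈ P.map (fun x => x * u δ), pr (μ + δ) x ≤ 1 ∧ pr (-(μ - δ)) x ≤ 1 := by
      intro x hxm
      obtain ⟨x0, hx0, rfl⟩ := List.mem_map.1 hxm
      rw [PDEV_pr, PDEV_pr, show μ + δ - δ = μ by ring, show -(μ - δ) - δ = -μ by ring]
      exact ⟨(hx x0 hx0).2, (hx x0 hx0).1⟩
    have hz' : z * u δ ∈ P.map (fun x => x * u δ) := List.mem_map_of_mem hz
    have hcz : c ≤ (z * u δ).re := by
      have h1 : pr 0 (z * u δ) = (z * u δ).re := by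
        unfold pr
        rw [Real.cos_zero, Real.sin_zero]
        ring
      rw [← h1, PDEV_pr, zero_sub]
      exact hc
    have hμδ : (μ + δ ≤ Real.pi / 4 ∧ μ - δ ≤ Real.pi / 4) ∨
        (Real.pi / 6 ≤ μ + δ ∧ Real.pi / 6 ≤ μ - δ ∧ μ + δ ≤ 7 * Real.pi / 12 ∧
          μ - δ ≤ 7 * Real.pi / 12) := by
      by_cases h1 : Real.pi / 6 ≤ μ + δ
      · by_cases h2 : Real.pi / 6 ≤ μ - δ
        · right
          exact ⟨h1, h2, by linarith [hδa.2], by linarith [hδa.1]⟩
        · left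
          push Not at h2
          exact ⟨by linarith [hδa.2, hδa.1], by linarith⟩
      · left
        push Not at h1
        exact ⟨by linarith, by linarith [hδa.2, hδa.1]⟩
    have hs : 0 < Real.sin (μ + δ) :=
      Real.sin_pos_of_pos_of_lt_pi (by linarith [hδb.1]) (by linarith [hδa.2])
    have hs' : 0 < Real.sin (μ - δ) :=
      Real.sin_pos_of_pos_of_lt_pi (by linarith [hδb.2]) (by linarith [hδa.1])
    have hre0 : (W κ' α 0).re = Real.cos (μ + δ) - Real.tan (α 0) * Real.sin (μ + δ) := by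
      have h1 : κ' 0 = (μ + δ) + α 0 := by
        have h2 := hFull.left
        unfold Lf at h2
        linarith
      unfold W
      rw [h1]
      exact PDEV_re0 _ _ hc0
    have hre1 : (W κ' α (m - 1)).re =
        Real.cos (μ - δ) - Real.tan (α (m - 1)) * Real.sin (μ - δ) := by
      have h1 : κ' (m - 1) = 2 * Real.pi - (μ - δ) - α (m - 1) := by
        have h2 := hFull.right
        unfold Rt at h2
        linarith
      unfold W
      rw [h1]
      exact PDEV_re1 _ _ hc1
    obtain ⟨p, hp, hcases⟩ := hIM m κ' α (μ + δ) (μ - δ) c (P.map (fun x => x * u δ)) (z * u δ)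
      (by linarith [hδb.1]) (by linarith [hδb.2]) hμδ hFull hWP' hx' hz' hcz hc1'
    rw [PDEV_plen, hre0, hre1] at hcases
    have hac := hAC m κ' α (μ + δ) (2 * Real.pi - (μ - δ)) p hFull (by omega)
      (by linarith) hp
    have hsf0 := (hSFB (α 0) hα0 hα0').1
    have hsf1 := (hSFB (α (m - 1)) hα1 hα1').1
    have hsfa : sf (α 0) = 2 * α 0 - Real.tan (α 0) := rfl
    have hsfb : sf (α (m - 1)) = 2 * α (m - 1) - Real.tan (α (m - 1)) := rfl
    have hnc := hNC μ δ hμ0 hμ1 hδ1 hδ2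
    have hnb := hNB μ δ hμ0 hμ1 hδ1 hδ2
    have hpsum : 2 * Real.pi - 2 * μ - 2 * s0 ≤ psum (dd κ' α) p := by
      rcases hac with h | h
      · linarith
      · linarith
    rcases hcases with h | h | h
    · rcases hac with h1 | h1
      · linarith
      · have h2 : max (Real.cos (μ + δ) - Real.tan (α 0) * Real.sin (μ + δ))
            (Real.cos (μ - δ) - Real.tan (α (m - 1)) * Real.sin (μ - δ)) ≤
            max (Real.cos (μ + δ)) (Real.cos (μ - δ)) := by
          apply max_le_max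
          · linarith [mul_nonneg ht0 hs.le]
          · linarith [mul_nonneg ht1 hs'.le]
        linarith
    · linarith
    · linarith

end

end Pool.BA
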