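import Pool.Agent.Work.MP_655153_ba.Interface2

/-! # Block PLS (helper69): lengths of polygonal paths -/

open MeasureTheory Set
open scoped ENNReal

namespace Pool.BA

noncomputable section

theorem PLS_cc (x y : ℂ) (l : List ℂ) : plen (x :: y :: l) = dist x y + plen (y :: l) := rfl

theorem PLS_cons (x : ℂ) (l : List ℂ) : plen l ≤ plen (x :: l) := by
  cases l with
  | nil => exact le_refl (0 : ℝ)
  | cons y l =>
    rw [PLS_cc]
    have := dist_nonneg (x := x) (y := y)
    linarith

theorem PLS_skip (x y : ℂ) (l : List ℂ) : plen (x :: l) ≤ dist x y + plen (y :: l) := by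
  cases l with
  | nil =>
    have := dist_nonneg (x := x) (y := y)
    show (0 : ℝ) ≤ dist x y + 0
    linarith
  | cons z l =>
    rw [PLS_cc, PLS_cc]
    have := dist_triangle x y z
    linarith

theorem PLS_sub {l₁ l₂ : List ℂ} (h : l₁.Sublist l₂) :
    plen l₁ ≤ plen l₂ ∧ ∀ x, plen (x :: l₁) ≤ plen (x :: l₂) := by
  induction h with
  | slnil => exact ⟨le_refl _, fun _ => le_refl _⟩
  | cons a _ ih =>
    refine ⟨le_trans ih.1 (PLS_cons a _), fun x => ?_⟩
    have h2 := ih.2 a
    refine le_trans (PLS_skip x a _) ?_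
    rw [PLS_cc]
    linarith
  | cons_cons a _ ih =>
    refine ⟨ih.2 a, fun x => ?_⟩
    rw [PLS_cc, PLS_cc]
    have := ih.2 a
    linarith

theorem PLS_map (w : ℕ → ℂ) (l : List ℕ) :
    plen (l.map w) = psum (fun i j => dist (w i) (w j)) l := by
  induction l with
  | nil => rfl
  | cons i l ih =>
    cases l with
    | nil => rfl
    | cons j l =>
      show dist (w i) (w j) + plen ((j :: l).map w) =
        dist (w i) (w j) + psum (fun i j => dist (w i) (w j)) (j :: l)
      rw [ih]

theorem PLS_app (l₁ l₂ : List ℂ) (x : ℂ) :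
    plen (l₁ ++ x :: l₂) = plen (l₁ ++ [x]) + plen (x :: l₂) := by
  induction l₁ with
  | nil =>
    show plen (x :: l₂) = 0 + plen (x :: l₂)
    rw [zero_add]
  | cons a l ih =>
    cases l with
    | nil =>
      show dist a x + plen (x :: l₂) = (dist a x + 0) + plen (x :: l₂)
      rw [add_zero]
    | cons b l =>
      show dist a b + plen ((b :: l) ++ x :: l₂) =
        (dist a b + plen ((b :: l) ++ [x])) + plen (x :: l₂)
      rw [ih, add_assoc]

theorem PLS_rev (l : List ℂ) : plen l.reverse = plen l := by
  induction l with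
  | nil => rfl
  | cons x l ih =>
    cases l with
    | nil => rfl
    | cons y l =>
      rw [PLS_cc, List.reverse_cons]
      have e : (y :: l).reverse ++ [x] = l.reverse ++ y :: [x] := by
        rw [List.reverse_cons, List.append_assoc]
        rfl
      have e2 : l.reverse ++ [y] = (y :: l).reverse := List.reverse_cons.symm
      rw [e, PLS_app, e2, ih]
      show plen (y :: l) + (dist y x + 0) = _
      rw [add_zero, dist_comm, add_comm]

theorem p_PLS : Stmt_PLS :=
  ⟨fun _ _ h => (PLS_sub h).1, PLS_map, PLS_rev, PLS_app⟩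

end

end Pool.BA
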