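import Pool.Agent.Work.MP_655153_ba.Interface4

/-!
# MP_655153_co, block PM2: at most two vertices
-/

set_option autoImplicit false

open MeasureTheory Set

namespace Pool.BA

noncomputable section

theorem PM2_pr {θ κ α : ℝ} (hα : 0 < Real.cos α) :
    pr θ (V κ α) = Real.cos (θ - κ) / Real.cos α := by
  unfold pr V
  rw [Real.cos_sub]
  field_simp

theorem PM2_val {a α : ℝ} (hα : 0 < Real.cos α) :
    Real.cos (a - α) / Real.cos α = Real.cos a + Real.tan α * Real.sin a := by
  rw [Real.cos_sub, Real.tan_eq_sin_div_cos]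
  field_simp

theorem p_PM2 (hFER : Stmt_FER) (hN2 : Stmt_N2) : Stmt_PM2 := by
  intro P m κ α μ z hμ0 hμ1 hF hm hW hz
  have hpos := hF.pos
  rcases (show m = 1 ∨ m = 2 by omega) with rfl | rfl
  · exfalso
    have h1 := hF.left
    have h2 := hF.right
    have h3 := hF.ch.α1 0 (by norm_num)
    unfold Lf at h1
    unfold Rt at h2
    simp only [Nat.sub_self] at h2
    linarith
  · have h1 := hF.left
    have h2 := hF.right
    have h3 := hF.nogap 0 (by norm_num)
    have ha0 := hF.ch.α0 0 (by norm_num)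
    have ha1 := hF.ch.α1 0 (by norm_num)
    have hb0 := hF.ch.α0 1 (by norm_num)
    have hb1 := hF.ch.α1 1 (by norm_num)
    have e21 : (2 : ℕ) - 1 = 1 := rfl
    have e01 : (0 : ℕ) + 1 = 1 := rfl
    rw [e21] at h2
    rw [e01] at h3
    unfold Lf at h1 h3
    unfold Rt at h2 h3
    have hpi := Real.pi_pos
    have hca : 0 < Real.cos (α 0) := Real.cos_pos_of_mem_Ioo ⟨by linarith, ha1⟩
    have hcb : 0 < Real.cos (α 1) := Real.cos_pos_of_mem_Ioo ⟨by linarith, hb1⟩
    have hfer := hFER P (W κ α 0) (W κ α 1) z (hW 0 (by norm_num)) (hW 1 (by norm_num)) hz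
    have hx : pr (2 * Real.pi / 3) (W κ α 0) = Real.cos (2 * Real.pi / 3 - μ) +
        Real.tan (α 0) * Real.sin (2 * Real.pi / 3 - μ) := by
      unfold W
      rw [PM2_pr hca, ← PM2_val hca]
      rw [show 2 * Real.pi / 3 - κ 0 = 2 * Real.pi / 3 - μ - α 0 by linarith]
    have hy : pr (4 * Real.pi / 3) (W κ α 1) = Real.cos (2 * Real.pi / 3 - μ) +
        Real.tan (α 1) * Real.sin (2 * Real.pi / 3 - μ) := by
      unfold W
      rw [PM2_pr hcb, ← PM2_val hcb]
      rw [show 4 * Real.pi / 3 - κ 1 = -(2 * Real.pi / 3 - μ - α 1) by linarith, Real.cos_neg]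
    rw [hx, hy] at hfer
    have hn := hN2.1 μ (α 0) (α 1) hμ0 hμ1 ha0 ha1 hb0 hb1 (by linarith)
    linarith

end

end Pool.BA
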