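import Pool.Agent.Work.MP_655153_ba.Interface4

/-!
# Block PMID: first path, middle range of the gap
-/

open MeasureTheory Set

namespace Pool.BA

noncomputable section

theorem PMID_re {κ α μ : ℝ} (hα : 0 < Real.cos α) (h : Real.cos κ = Real.cos (μ + α)) :
    (V κ α).re = Real.cos μ - Real.tan α * Real.sin μ := by
  simp only [V]
  rw [h, Real.cos_add, Real.tan_eq_sin_div_cos]
  field_simp

theorem p_PMID (hEXF : Stmt_EXF) (hPM2 : Stmt_PM2) (hN2 : Stmt_N2) (hIM : Stmt_IM)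
    (hAC : Stmt_AC) (hGV1 : Stmt_GV1) (hSFB : Stmt_SFB) : Stmt_PMID := by
  intro P μ c z hμ1 hμ2 hG hz hcz hc
  have hπ := Real.pi_pos
  have hμ0 : 0 < μ := by linarith
  obtain ⟨hG1, hG2, hG3⟩ := hG
  obtain ⟨m, κ, α, hF, hW, hx⟩ := hEXF P (-μ) μ (by linarith) (by linarith)
    (by
      intro θ hθ
      exact hG1 θ ⟨hθ.1, by linarith [hθ.2]⟩) hG2 hG3
  have e1 : -μ + 2 * Real.pi = 2 * Real.pi - μ := by ring
  rw [e1] at hF
  rcases Nat.lt_or_ge 2 m with hm | hm
  · have hα0 := hF.ch.α0 0 hF.pos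
    have hα1 := hF.ch.α1 0 hF.pos
    have hlt : m - 1 < m := Nat.sub_lt hF.pos one_pos
    have hβ0 := hF.ch.α0 (m - 1) hlt
    have hβ1 := hF.ch.α1 (m - 1) hlt
    have hca : 0 < Real.cos (α 0) := Real.cos_pos_of_mem_Ioo ⟨by linarith, hα1⟩
    have hcb : 0 < Real.cos (α (m - 1)) := Real.cos_pos_of_mem_Ioo ⟨by linarith, hβ1⟩
    have hl := hF.left
    have hr := hF.right
    unfold Lf at hl
    unfold Rt at hr
    have hW0 : (W κ α 0).re = Real.cos μ - Real.tan (α 0) * Real.sin μ := by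
      refine PMID_re hca ?_
      rw [show κ 0 = μ + α 0 by linarith]
    have hW1 : (W κ α (m - 1)).re = Real.cos μ - Real.tan (α (m - 1)) * Real.sin μ := by
      refine PMID_re hcb ?_
      rw [show κ (m - 1) = 2 * Real.pi - (μ + α (m - 1)) by linarith, Real.cos_two_pi_sub]
    have hsin : 0 ≤ Real.sin μ := Real.sin_nonneg_of_nonneg_of_le_pi hμ0.le (by linarith)
    have hta : 0 ≤ Real.tan (α 0) := Real.tan_nonneg_of_nonneg_of_le_pi_div_two hα0 hα1.le
    have htb : 0 ≤ Real.tan (α (m - 1)) :=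
      Real.tan_nonneg_of_nonneg_of_le_pi_div_two hβ0 hβ1.le
    have hmax : max (W κ α 0).re (W κ α (m - 1)).re ≤ 1 := by
      rw [hW0, hW1]
      refine max_le ?_ ?_
      · linarith [Real.cos_le_one μ, mul_nonneg hta hsin]
      · linarith [Real.cos_le_one μ, mul_nonneg htb hsin]
    have hloss : loss μ μ = -bS μ := by
      unfold loss
      rw [min_self, min_self, if_pos (by linarith)]
    have hs0 : 2 * s0 = Real.pi - 2 := by
      unfold s0
      ring
    have hs1 := (hSFB (α 0) hα0 hα1).1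
    have hs2 := (hSFB (α (m - 1)) hβ0 hβ1).1
    have hg := hGV1 μ (α 0) (α (m - 1)) hμ0 hμ2 hα0 hα1 hβ0 hβ1
    rw [← hW0, ← hW1] at hg
    obtain ⟨p, hp, hcase⟩ := hIM m κ α μ μ c P z hμ0 hμ0
      (Or.inr ⟨by linarith, by linarith, by linarith, by linarith⟩) hF hW
      (fun x hxP => ⟨(hx x hxP).2, (hx x hxP).1⟩) hz hcz hc
    have hac := hAC m κ α μ (2 * Real.pi - μ) p hF hm (by linarith) hp
    rw [hloss] at hcase
    have hm1 := min_le_left (Real.pi + 1 - μ) (Real.pi + 2 - 2 * μ + bS μ)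
    have hm2 := min_le_right (Real.pi + 1 - μ) (Real.pi + 2 - 2 * μ + bS μ)
    rcases hcase with h1 | h1 | h1
    · rcases hac with h2 | h2
      · linarith
      · linarith
    · rcases hac with h2 | h2
      · linarith
      · linarith
    · linarith
  · have h1 := hPM2 P m κ α μ z hμ0 hμ2 hF hm hW hz
    have h2 := hN2.2.2 μ hμ0 hμ2
    have hm1 := min_le_left (Real.pi + 1 - μ) (Real.pi + 2 - 2 * μ + bS μ)
    linarith

end

end Pool.BA
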