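import Pool.Agent.Work.MP_655153_ba.Interface1

/-! # Block PRJ (helper72) -/

namespace Pool.BA

theorem p_PRJ : Stmt_PRJ := by
  intro κ κ' α α' β hc hc'
  rw [Complex.dist_eq_re_im]
  refine (le_abs_self _).trans (Real.abs_le_sqrt ?_)
  have e1 : (V κ α).re - (V κ' α').re = Real.cos κ / Real.cos α - Real.cos κ' / Real.cos α' := rfl
  have e2 : (V κ α).im - (V κ' α').im = Real.sin κ / Real.cos α - Real.sin κ' / Real.cos α' := rfl
  rw [e1, e2]
  obtain ⟨a, ha⟩ : ∃ a, a = Real.cos κ / Real.cos α - Real.cos κ' / Real.cos α' := ⟨_, rfl⟩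
  obtain ⟨b, hb⟩ : ∃ b, b = Real.sin κ / Real.cos α - Real.sin κ' / Real.cos α' := ⟨_, rfl⟩
  have h1 : Real.sin (β - κ) / Real.cos α + Real.sin (κ' - β) / Real.cos α' =
      Real.sin β * a - Real.cos β * b := by
    rw [ha, hb, Real.sin_sub, Real.sin_sub]
    ring
  rw [h1, ← ha, ← hb]
  have h2 := Real.sin_sq_add_cos_sq β
  nlinarith [sq_nonneg (Real.cos β * a + Real.sin β * b)]

end Pool.BA
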