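import Pool.Agent.Work.MP_655153_ba.Interface4

/-!
# Block QIV: second path, `75° ≤ μ ≤ 90°`
-/

set_option autoImplicit false

open MeasureTheory Set

namespace Pool.BA

noncomputable section

theorem QIV_re {κ α μ : ℝ} (hα : 0 < Real.cos α) (h : Real.cos κ = Real.cos (μ + α)) :
    (V κ α).re = Real.cos μ - Real.tan α * Real.sin μ := by
  simp only [V]
  rw [h, Real.cos_add, Real.tan_eq_sin_div_cos]
  field_simp

theorem QIV_cov {m : ℕ} {κ α : ℕ → ℝ} (hC : Chain m κ α) {i : ℕ} (hi : i < m) {θ : ℝ}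
    (h1 : Lf κ α i ≤ θ) (h2 : θ ≤ Rt κ α i) : 1 ≤ pr θ (W κ α i) := by
  have ha0 := hC.α0 i hi
  have ha1 := hC.α1 i hi
  have hπ := Real.pi_pos
  have hca : 0 < Real.cos (α i) := Real.cos_pos_of_mem_Ioo ⟨by linarith, ha1⟩
  unfold Lf at h1
  unfold Rt at h2
  have h3 : |θ - κ i| ≤ α i := abs_le.2 ⟨by linarith, by linarith⟩
  have h4 : Real.cos (α i) ≤ Real.cos (θ - κ i) := by
    rw [← Real.cos_abs (θ - κ i)]
    exact Real.cos_le_cos_of_nonneg_of_le_pi (abs_nonneg _) (by linarith) h3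
  have h5 : pr θ (W κ α i) = Real.cos (θ - κ i) / Real.cos (α i) := by
    unfold pr W V
    rw [Real.cos_sub]
    field_simp
  rw [h5, le_div_iff₀ hca, one_mul]
  exact h4

theorem p_QIV (hEXF : Stmt_EXF) (hQM2 : Stmt_QM2) (hIM : Stmt_IM) (hAC : Stmt_AC)
    (hGV2 : Stmt_GV2) (hSFB : Stmt_SFB) : Stmt_QIV := by
  intro Q μ μ1 μ2 c z hμa hμb h1 h2 h12 hG hz hcz hc
  have hπ := Real.pi_pos
  have hμ0 : 0 < μ := by linarith
  have hm1 : Real.pi / 4 ≤ μ1 := by linarith
  have hm2 : Real.pi / 4 ≤ μ2 := by linarith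
  have hM1 : μ1 ≤ 7 * Real.pi / 12 := by linarith
  have hM2 : μ2 ≤ 7 * Real.pi / 12 := by linarith
  obtain ⟨hG1, hG2, hG3⟩ := hG
  obtain ⟨m, κ, α, hF, hW, hx⟩ := hEXF Q (-μ2) μ1 (by linarith) (by linarith)
    (by
      intro θ hθ
      exact hG1 θ ⟨hθ.1, by linarith [hθ.2]⟩) hG2 hG3
  have e1 : -μ2 + 2 * Real.pi = 2 * Real.pi - μ2 := by ring
  rw [e1] at hF
  have hlt : m - 1 < m := Nat.sub_lt hF.pos one_pos
  have hα0 := hF.ch.α0 0 hF.pos
  have hα1 := hF.ch.α1 0 hF.pos
  have hβ0 := hF.ch.α0 (m - 1) hlt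
  have hβ1 := hF.ch.α1 (m - 1) hlt
  rcases Nat.lt_or_ge 2 m with hm | hm
  · have hca : 0 < Real.cos (α 0) := Real.cos_pos_of_mem_Ioo ⟨by linarith, hα1⟩
    have hcb : 0 < Real.cos (α (m - 1)) := Real.cos_pos_of_mem_Ioo ⟨by linarith, hβ1⟩
    have hl := hF.left
    have hr := hF.right
    unfold Lf at hl
    unfold Rt at hr
    have hW0 : (W κ α 0).re = Real.cos μ1 - Real.tan (α 0) * Real.sin μ1 := by
      refine QIV_re hca ?_
      rw [show κ 0 = μ1 + α 0 by linarith]
    have hW1 : (W κ α (m - 1)).re = Real.cos μ2 - Real.tan (α (m - 1)) * Real.sin μ2 := by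
      refine QIV_re hcb ?_
      rw [show κ (m - 1) = 2 * Real.pi - (μ2 + α (m - 1)) by linarith, Real.cos_two_pi_sub]
    have hsin1 : 0 ≤ Real.sin μ1 := Real.sin_nonneg_of_nonneg_of_le_pi (by linarith) (by linarith)
    have hsin2 : 0 ≤ Real.sin μ2 := Real.sin_nonneg_of_nonneg_of_le_pi (by linarith) (by linarith)
    have hta : 0 ≤ Real.tan (α 0) := Real.tan_nonneg_of_nonneg_of_le_pi_div_two hα0 hα1.le
    have htb : 0 ≤ Real.tan (α (m - 1)) :=
      Real.tan_nonneg_of_nonneg_of_le_pi_div_two hβ0 hβ1.le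
    have hmax : max (W κ α 0).re (W κ α (m - 1)).re ≤ max (Real.cos μ1) (Real.cos μ2) := by
      rw [hW0, hW1]
      refine max_le_max ?_ ?_
      · linarith [mul_nonneg hta hsin1]
      · linarith [mul_nonneg htb hsin2]
    have hloss : loss μ1 μ2 = -(min (bS μ1) (bS μ2)) := by
      unfold loss
      rw [if_pos (le_min (by linarith) (by linarith))]
    have hs1 := (hSFB (α 0) hα0 hα1).1
    have hs2 := (hSFB (α (m - 1)) hβ0 hβ1).1
    obtain ⟨g1, g2, g3⟩ := hGV2 μ μ1 μ2 hμa hμb h1 h2 h12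
    have g1 := g1 (α 0) (α (m - 1)) hα0 hα1 hβ0 hβ1
    rw [← hW0, ← hW1] at g1
    obtain ⟨p, hp, hcase⟩ := hIM m κ α μ1 μ2 c Q z (by linarith) (by linarith)
      (Or.inr ⟨by linarith, by linarith, hM1, hM2⟩) hF hW
      (fun x hxP => ⟨(hx x hxP).2, (hx x hxP).1⟩) hz hcz hc
    have hac := hAC m κ α μ1 (2 * Real.pi - μ2) p hF hm (by linarith) hp
    rw [hloss] at hcase
    rcases hcase with h1 | h1 | h1
    · rcases hac with h2 | h2
      · linarith
      · linarith
    · rcases hac with h2 | h2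
      · linarith
      · linarith
    · linarith
  · -- at most two vertices
    have hLR : Lf κ α (m - 1) ≤ Rt κ α 0 := by
      rcases (show m = 1 ∨ m = 2 by have := hF.pos; omega) with rfl | rfl
      · show Lf κ α 0 ≤ Rt κ α 0
        unfold Lf Rt
        linarith
      · exact hF.nogap 0 (by norm_num)
    have hl := hF.left
    have hr := hF.right
    have hx0 : W κ α 0 ∈ Q := hW 0 hF.pos
    have hy0 : W κ α (m - 1) ∈ Q := hW (m - 1) hlt
    have key : z.re + μ + 17 / 25 ≤ plen Q := by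
      rcases le_or_gt (Lf κ α (m - 1)) (Real.pi - μ) with hA | hA
      · refine hQM2 Q μ Real.pi (W κ α (m - 1)) (W κ α (m - 1)) z hμa hμb (by linarith)
          (by linarith) hy0 hy0 hz ?_ ?_ ?_ ?_
        · exact QIV_cov hF.ch hlt hA (by linarith)
        · exact QIV_cov hF.ch hlt (by linarith) (by linarith)
        · exact QIV_cov hF.ch hlt (by linarith) (by linarith)
        · exact QIV_cov hF.ch hlt (by linarith) (by linarith)
      · rcases le_or_gt (Real.pi + μ) (Rt κ α 0) with hB | hB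
        · refine hQM2 Q μ Real.pi (W κ α 0) (W κ α 0) z hμa hμb (by linarith)
            (by linarith) hx0 hx0 hz ?_ ?_ ?_ ?_
          · exact QIV_cov hF.ch hF.pos (by linarith) (by linarith)
          · exact QIV_cov hF.ch hF.pos (by linarith) (by linarith)
          · exact QIV_cov hF.ch hF.pos (by linarith) (by linarith)
          · exact QIV_cov hF.ch hF.pos (by linarith) hB
        · refine hQM2 Q μ (Lf κ α (m - 1)) (W κ α 0) (W κ α (m - 1)) z hμa hμb hA.le
            (by linarith) hx0 hy0 hz ?_ ?_ ?_ ?_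
          · exact QIV_cov hF.ch hF.pos (by linarith) (by linarith)
          · exact QIV_cov hF.ch hF.pos (by linarith) hLR
          · exact QIV_cov hF.ch hlt le_rfl (by linarith)
          · exact QIV_cov hF.ch hlt (by linarith) (by linarith)
    linarith

end

end Pool.BA
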