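import Pool.Agent.Work.MP_655153_ba.Interface4

open MeasureTheory Set

namespace Pool.BA

theorem QL2_pr_le (θ : ℝ) (p q : ℂ) : pr θ p - pr θ q ≤ dist p q := by
  have h1 : pr θ p - pr θ q = (p - q).re * Real.cos θ + (p - q).im * Real.sin θ := by
    unfold pr
    rw [Complex.sub_re, Complex.sub_im]
    ring
  rw [h1, dist_eq_norm]
  have h2 : ((p - q).re * Real.cos θ + (p - q).im * Real.sin θ) ^ 2 ≤ ‖p - q‖ ^ 2 := by
    rw [Complex.sq_norm, Complex.normSq_apply]
    nlinarith [sq_nonneg ((p - q).re * Real.sin θ - (p - q).im * Real.cos θ),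
      Real.sin_sq_add_cos_sq θ]
  exact le_of_abs_le ((sq_le_sq.1 h2).trans (abs_of_nonneg (norm_nonneg _)).le)

theorem QL2_key {k : ℝ} (h0 : 0 ≤ k) (h1 : k ≤ 1) (θ : ℝ) (p q : ℂ) :
    k * pr θ p - k * pr θ q ≤ dist p q := by
  have h2 := QL2_pr_le θ p q
  have h3 : k * (pr θ p - pr θ q) ≤ k * dist p q := mul_le_mul_of_nonneg_left h2 h0
  have h4 : k * dist p q ≤ 1 * dist p q := mul_le_mul_of_nonneg_right h1 dist_nonneg
  linarith

theorem p_QL2 (hTHREE : Stmt_THREE) : Stmt_QL2 := by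
  intro Q a b ν G₁ G₂ K c x y z hx hy hz hG10 hG11 hG20 hG21 hK0 hK1 hcos hsin hax hby hνz
  have hν : ∀ w : ℂ, K * pr ν w = G₁ * pr a w + G₂ * pr b w := by
    intro w
    unfold pr
    linear_combination (-w.re) * hcos - w.im * hsin
  have e1 : G₁ * 1 ≤ G₁ * pr a x := mul_le_mul_of_nonneg_left hax hG10
  have e2 : G₂ * 1 ≤ G₂ * pr b y := mul_le_mul_of_nonneg_left hby hG20
  have e3 : K * pr ν z ≤ K * c := mul_le_mul_of_nonneg_left hνz hK0
  rcases hTHREE Q x y z hx hy hz with h | h | h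
  · have h1 := QL2_key hG10 hG11 a x y
    have h2 := QL2_key hK0 hK1 ν y z
    have h3 := hν y
    linarith
  · have h1 := QL2_key hG20 hG21 b y x
    have h2 := QL2_key hK0 hK1 ν x z
    have h3 := hν x
    linarith
  · have h1 := QL2_key hG10 hG11 a x z
    have h2 := QL2_key hG20 hG21 b y z
    rw [dist_comm y z] at h2
    have h3 := hν z
    linarith

end Pool.BA
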