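import Pool.Agent.Work.MP_655153_ba.Interface4

/-!
# MP_655153_co, block QM2 (second path, at most two vertices)
-/

open MeasureTheory Set

namespace Pool.BA

noncomputable section

/-- a point which covers two directions, in a direction between them -/
theorem QM2_lin (a b φ : ℝ) (x : ℂ) (h1 : a ≤ φ) (h2 : φ ≤ b) (h3 : b - a ≤ Real.pi)
    (ha : 1 ≤ pr a x) (hb : 1 ≤ pr b x) :
    Real.sin (b - φ) + Real.sin (φ - a) ≤ Real.sin (b - a) * pr φ x := by
  have s1 : 0 ≤ Real.sin (b - φ) := Real.sin_nonneg_of_nonneg_of_le_pi (by linarith) (by linarith)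
  have s2 : 0 ≤ Real.sin (φ - a) := Real.sin_nonneg_of_nonneg_of_le_pi (by linarith) (by linarith)
  have e : Real.sin (b - a) * pr φ x = Real.sin (b - φ) * pr a x + Real.sin (φ - a) * pr b x := by
    unfold pr
    simp only [Real.sin_sub]
    ring
  rw [e]
  nlinarith [mul_le_mul_of_nonneg_left ha s1, mul_le_mul_of_nonneg_left hb s2]

theorem QM2_half (h s P : ℝ) (h0 : 0 < h) (h1 : h < Real.pi / 2) (hs : 0 ≤ Real.sin s)
    (hP : Real.sin (2 * h - s) + Real.sin s ≤ Real.sin (2 * h) * P) :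
    Real.cos s + h * Real.sin s ≤ P := by
  have hc : 0 < Real.cos h := Real.cos_pos_of_mem_Ioo ⟨by linarith [Real.pi_pos], h1⟩
  have hsn : 0 < Real.sin h := Real.sin_pos_of_pos_of_lt_pi h0 (by linarith [Real.pi_pos])
  have e : Real.sin (2 * h - s) + Real.sin s =
      (2 * Real.sin h) * (Real.cos h * Real.cos s + Real.sin h * Real.sin s) := by
    rw [Real.sin_sub, Real.sin_two_mul, Real.cos_two_mul]
    linear_combination (-2 * Real.sin s) * Real.sin_sq_add_cos_sq h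
  rw [e, Real.sin_two_mul, mul_assoc (2 * Real.sin h)] at hP
  have h2 : Real.cos h * Real.cos s + Real.sin h * Real.sin s ≤ Real.cos h * P :=
    le_of_mul_le_mul_left hP (by positivity)
  have h3 : h ≤ Real.tan h := Real.le_tan h0.le h1
  rw [Real.tan_eq_sin_div_cos, le_div_iff₀ hc] at h3
  refine le_of_mul_le_mul_left ?_ hc
  nlinarith [mul_le_mul_of_nonneg_right h3 hs]

theorem QM2_num (μ : ℝ) (h1 : 5 * Real.pi / 12 ≤ μ) (h2 : μ ≤ Real.pi / 2) :
    μ + 17 / 25 ≤ 2 * Real.cos (μ - Real.pi / 3) + μ * Real.sin (μ - Real.pi / 3) := by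
  have hp1 := Real.pi_gt_d4
  have hp2 := Real.pi_lt_d4
  have c1 := Real.one_sub_sq_div_two_le_cos (x := μ - Real.pi / 3)
  have s1 := Real.sin_gt_sub_cube (x := μ - Real.pi / 3) (by linarith)
  obtain ⟨s, hs⟩ : ∃ s, s = μ - Real.pi / 3 := ⟨_, rfl⟩
  rw [← hs] at c1 s1 ⊢
  have hμ : μ = s + Real.pi / 3 := by linarith
  have hs0 : 0 ≤ s := by linarith
  have hs1 : s ≤ 53 / 100 := by linarith
  have hμ0 : 0 ≤ μ := by linarith
  have k1 : μ * (s - s ^ 3 / 6) ≤ μ * Real.sin s := mul_le_mul_of_nonneg_left s1.le hμ0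
  have q3 : s ^ 3 ≤ (53 / 100) ^ 3 := pow_le_pow_left₀ hs0 hs1 3
  have q4 : s ^ 4 ≤ (53 / 100) ^ 4 := pow_le_pow_left₀ hs0 hs1 4
  have q3' : 0 ≤ s ^ 3 := pow_nonneg hs0 3
  have k2 : (Real.pi / 3) * s ^ 3 ≤ (1.0472 : ℝ) * (53 / 100) ^ 3 :=
    mul_le_mul (by linarith) q3 q3' (by norm_num)
  have k3 : 0 ≤ (Real.pi / 3 - 1) * s := mul_nonneg (by linarith) hs0
  have e : μ * (s - s ^ 3 / 6) = s ^ 2 + (Real.pi / 3) * s - s ^ 4 / 6 -
      (Real.pi / 3) * s ^ 3 / 6 := by
    rw [hμ]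
    ring
  rw [e] at k1
  norm_num at q3 q4 k2
  nlinarith

theorem QM2_far (μ t P : ℝ) (h1 : 5 * Real.pi / 12 ≤ μ) (h2 : μ ≤ Real.pi / 2)
    (ht : Real.pi / 3 ≤ t) (ht' : t ≤ μ)
    (hP : Real.sin μ + Real.sin t ≤ Real.sin (μ + t) * P) : μ + 17 / 25 ≤ P := by
  have hpi := Real.pi_pos
  have hp2 := Real.pi_lt_d4
  have s1 : Real.sin (Real.pi / 3) ≤ Real.sin μ :=
    Real.sin_le_sin_of_le_of_le_pi_div_two (by linarith) h2 (by linarith)
  have s2 : Real.sin (Real.pi / 3) ≤ Real.sin t :=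
    Real.sin_le_sin_of_le_of_le_pi_div_two (by linarith) (by linarith) ht
  have s3 : Real.sin (μ + t) ≤ Real.sin (Real.pi / 4) := by
    rw [← Real.sin_pi_sub (μ + t)]
    exact Real.sin_le_sin_of_le_of_le_pi_div_two (by linarith) (by linarith) (by linarith)
  have s4 : 0 ≤ Real.sin (μ + t) :=
    Real.sin_nonneg_of_nonneg_of_le_pi (by linarith) (by linarith)
  rw [Real.sin_pi_div_three] at s1 s2
  rw [Real.sin_pi_div_four] at s3
  have r3 : (1.73 : ℝ) ≤ √3 := Real.le_sqrt_of_sq_le (by norm_num)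
  have r2 : √2 ≤ (1.42 : ℝ) := by
    rw [Real.sqrt_le_left (by norm_num)]
    norm_num
  have hP0 : 0 ≤ P := by
    by_contra hneg
    push Not at hneg
    nlinarith [mul_nonneg s4 (by linarith : (0 : ℝ) ≤ -P)]
  have h3 : Real.sin (μ + t) * P ≤ (0.71 : ℝ) * P :=
    mul_le_mul_of_nonneg_right (by linarith) hP0
  linarith

theorem QM2_dist (hT : Stmt_THREE) (Q : List ℂ) (y z : ℂ) (hy : y ∈ Q) (hz : z ∈ Q) :
    z.re - y.re ≤ plen Q := by
  have h0 : z.re - y.re ≤ dist y z := by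
    have h := Complex.abs_re_le_norm (z - y)
    rw [← dist_eq_norm, dist_comm] at h
    have h' := le_abs_self ((z - y).re)
    rw [Complex.sub_re] at h'
    rw [Complex.sub_re] at h
    linarith
  have h1 : 0 ≤ dist z y := dist_nonneg
  rcases hT Q y z z hy hz hz with h | h | h
  · rw [dist_self] at h
    linarith
  · linarith
  · rw [dist_self] at h
    linarith

theorem p_QM2 (hFER : Stmt_FER) (hTHREE : Stmt_THREE) : Stmt_QM2 := by
  intro Q μ θ0 x y z hμ1 hμ2 hθ1 hθ2 hx hy hz hx1 hx2 hy1 hy2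
  have hpi := Real.pi_pos
  have hpr : ∀ w : ℂ, pr Real.pi w = -w.re := by
    intro w
    unfold pr
    rw [Real.cos_pi, Real.sin_pi]
    ring
  rcases lt_or_ge θ0 (2 * Real.pi / 3) with hc | hc
  · -- the point y
    have h1 := QM2_lin θ0 (Real.pi + μ) Real.pi y (by linarith) (by linarith) (by linarith) hy1 hy2
    have e1 : Real.pi + μ - Real.pi = μ := by ring
    have e2 : Real.pi + μ - θ0 = μ + (Real.pi - θ0) := by ring
    rw [e1, e2] at h1
    have h2 := QM2_far μ (Real.pi - θ0) _ hμ1 hμ2 (by linarith) (by linarith) h1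
    rw [hpr] at h2
    have h3 := QM2_dist hTHREE Q y z hy hz
    linarith
  rcases lt_or_ge (4 * Real.pi / 3) θ0 with hc' | hc'
  · -- the point x
    have h1 := QM2_lin (Real.pi - μ) θ0 Real.pi x (by linarith) (by linarith) (by linarith) hx1 hx2
    have e1 : Real.pi - (Real.pi - μ) = μ := by ring
    have e2 : θ0 - (Real.pi - μ) = μ + (θ0 - Real.pi) := by ring
    rw [e1, e2, add_comm (Real.sin (θ0 - Real.pi))] at h1
    have h2 := QM2_far μ (θ0 - Real.pi) _ hμ1 hμ2 (by linarith) (by linarith) h1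
    rw [hpr] at h2
    have h3 := QM2_dist hTHREE Q x z hx hz
    linarith
  · have hs : 0 ≤ Real.sin (μ - Real.pi / 3) :=
      Real.sin_nonneg_of_nonneg_of_le_pi (by linarith) (by linarith)
    have h1 := QM2_lin (Real.pi - μ) θ0 (2 * Real.pi / 3) x (by linarith) (by linarith)
      (by linarith) hx1 hx2
    have h2 := QM2_lin θ0 (Real.pi + μ) (4 * Real.pi / 3) y (by linarith) (by linarith)
      (by linarith) hy1 hy2
    have e1 : θ0 - 2 * Real.pi / 3 = 2 * ((θ0 - Real.pi + μ) / 2) - (μ - Real.pi / 3) := by ring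
    have e2 : 2 * Real.pi / 3 - (Real.pi - μ) = μ - Real.pi / 3 := by ring
    have e3 : θ0 - (Real.pi - μ) = 2 * ((θ0 - Real.pi + μ) / 2) := by ring
    have e4 : Real.pi + μ - 4 * Real.pi / 3 = μ - Real.pi / 3 := by ring
    have e5 : 4 * Real.pi / 3 - θ0 = 2 * ((Real.pi + μ - θ0) / 2) - (μ - Real.pi / 3) := by ring
    have e6 : Real.pi + μ - θ0 = 2 * ((Real.pi + μ - θ0) / 2) := by ring
    rw [e1, e2, e3] at h1
    rw [e4, e5, add_comm (Real.sin (μ - Real.pi / 3))] at h2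
    have e7 : Real.sin (Real.pi + μ - θ0) = Real.sin (2 * ((Real.pi + μ - θ0) / 2)) := by
      rw [← e6]
    rw [e7] at h2
    have k1 := QM2_half _ _ _ (by linarith) (by linarith) hs h1
    have k2 := QM2_half _ _ _ (by linarith) (by linarith) hs h2
    have k3 := hFER Q x y z hx hy hz
    have k4 := QM2_num μ hμ1 hμ2
    have k5 : (θ0 - Real.pi + μ) / 2 * Real.sin (μ - Real.pi / 3) +
        (Real.pi + μ - θ0) / 2 * Real.sin (μ - Real.pi / 3) = μ * Real.sin (μ - Real.pi / 3) := by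
      ring
    linarith

end

end Pool.BA
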