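import Pool.Agent.Work.MP_655153_ba.Interface4

/-!
# Block QR: bounds for the second path, frame: the first gap is `(-μ, μ)`
-/

set_option autoImplicit false

open MeasureTheory Set

namespace Pool.BA

noncomputable section

theorem QR_nonneg : ∀ l : List ℂ, 0 ≤ plen l
  | [] => le_refl _
  | [_] => le_refl _
  | x :: y :: l => by
    have h := QR_nonneg (y :: l)
    show 0 ≤ dist x y + plen (y :: l)
    exact add_nonneg dist_nonneg h

theorem QR_dir {Q : List ℂ} {θ : ℝ} (h : ¬ Free Q θ) : ∃ x ∈ Q, 1 ≤ pr θ x := by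
  unfold Free at h
  push Not at h
  exact h

theorem QR_abs {μ ν : ℝ} (hμ0 : 0 < μ) (hμ : μ ≤ Real.pi / 2) (hν : |ν| ≤ μ) :
    0 ≤ Real.sin (μ - |ν|) ∧ Real.sin (μ - |ν|) ≤ Real.sin (μ + |ν|) := by
  have hpi := Real.pi_pos
  have ha := abs_nonneg ν
  have h1 : 0 ≤ Real.cos μ := Real.cos_nonneg_of_neg_pi_div_two_le_of_le (by linarith) hμ
  have h2 : 0 ≤ Real.sin |ν| := Real.sin_nonneg_of_nonneg_of_le_pi ha (by linarith)
  refine ⟨Real.sin_nonneg_of_nonneg_of_le_pi (by linarith) (by linarith), ?_⟩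
  rw [Real.sin_sub, Real.sin_add]
  have h3 : 0 ≤ Real.cos μ * Real.sin |ν| := mul_nonneg h1 h2
  linarith

/-- both coefficients are between `0` and `sin (μ + |ν|)` -/
theorem QR_two {μ ν : ℝ} (hμ0 : 0 < μ) (hμ : μ ≤ Real.pi / 2) (hν : |ν| ≤ μ) :
    0 ≤ Real.sin (μ - ν) ∧ 0 ≤ Real.sin (μ + ν) ∧ Real.sin (μ - ν) ≤ Real.sin (μ + |ν|) ∧
      Real.sin (μ + ν) ≤ Real.sin (μ + |ν|) := by
  obtain ⟨h1, h2⟩ := QR_abs hμ0 hμ hν
  rcases le_total 0 ν with h | h
  · rw [abs_of_nonneg h] at h1 h2 ⊢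
    exact ⟨h1, h1.trans h2, h2, le_refl _⟩
  · rw [abs_of_nonpos h] at h1 h2 ⊢
    rw [sub_neg_eq_add, ← sub_eq_add_neg] at h2
    rw [sub_neg_eq_add] at h1
    rw [← sub_eq_add_neg]
    exact ⟨h1.trans h2, h1, le_refl _, h2⟩

theorem QR_gen (hQL : Stmt_QL2) {Q : List ℂ} {μ ν c M : ℝ} (hμ0 : 0 < μ) (hμ : μ ≤ Real.pi / 2)
    (hQ : ∀ θ ∈ Icc (-μ) μ, ¬ Free Q θ) (hν : |ν| ≤ μ) (hM : 0 < M)
    (hM1 : Real.sin (2 * μ) ≤ M) (hM2 : Real.sin (μ + |ν|) ≤ M) (hz : ∃ z ∈ Q, pr ν z ≤ c) :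
    (2 * Real.sin μ * Real.cos ν - Real.sin (2 * μ) * c) / M ≤ plen Q := by
  have hpi := Real.pi_pos
  obtain ⟨z, hzQ, hzc⟩ := hz
  obtain ⟨x, hxQ, hx⟩ := QR_dir (hQ (-μ) ⟨le_refl _, by linarith⟩)
  obtain ⟨y, hyQ, hy⟩ := QR_dir (hQ μ ⟨by linarith, le_refl _⟩)
  obtain ⟨a1, a2, a3, a4⟩ := QR_two hμ0 hμ hν
  have hs2 : 0 ≤ Real.sin (2 * μ) :=
    Real.sin_nonneg_of_nonneg_of_le_pi (by linarith) (by linarith)
  have h := hQL Q (-μ) μ ν (Real.sin (μ - ν) / M) (Real.sin (μ + ν) / M) (Real.sin (2 * μ) / M) c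
    x y z hxQ hyQ hzQ (div_nonneg a1 hM.le) ((div_le_one hM).2 (a3.trans hM2))
    (div_nonneg a2 hM.le) ((div_le_one hM).2 (a4.trans hM2)) (div_nonneg hs2 hM.le)
    ((div_le_one hM).2 hM1)
    (by
      rw [Real.cos_neg, Real.sin_sub, Real.sin_add, Real.sin_two_mul]
      field_simp
      ring)
    (by
      rw [Real.sin_neg, Real.sin_sub, Real.sin_add, Real.sin_two_mul]
      field_simp
      ring) hx hy hzc
  refine le_trans (le_of_eq ?_) h
  rw [Real.sin_sub, Real.sin_add]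
  field_simp
  ring

/-- QR -/
theorem p_QR (hQL : Stmt_QL2) : Stmt_QR := by
  intro Q μ hμ0 hμ hQ
  have hpi := Real.pi_pos
  refine ⟨?_, ?_, ?_, ?_⟩
  · intro h5 δ c hδ hδμ hz
    have hs : 0 < Real.sin (2 * μ) := Real.sin_pos_of_pos_of_lt_pi (by linarith) (by linarith)
    have hsμ : 0 < Real.sin μ := Real.sin_pos_of_pos_of_lt_pi hμ0 (by linarith)
    have hcμ : 0 < Real.cos μ := Real.cos_pos_of_mem_Ioo ⟨by linarith, by linarith⟩
    have ha := abs_nonneg δ
    have hM : Real.sin (μ + |δ|) ≤ Real.sin (2 * μ) := by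
      rcases le_total μ (Real.pi / 4) with h4 | h4
      · exact Real.sin_le_sin_of_le_of_le_pi_div_two (by linarith) (by linarith) (by linarith)
      · rw [← Real.sin_pi_sub (2 * μ)]
        exact Real.sin_le_sin_of_le_of_le_pi_div_two (by linarith) (by linarith) (by linarith)
    have h := QR_gen hQL hμ0 hμ hQ (ν := -δ) (c := c) (M := Real.sin (2 * μ))
      (by rw [abs_neg]; exact hδμ.le) hs (le_refl _) (by rw [abs_neg]; exact hM) hz
    refine le_trans (le_of_eq ?_) h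
    rw [Real.cos_neg, Real.sin_two_mul]
    field_simp
  · intro h3 c hz
    have hs : 0 < Real.sin (2 * μ) := Real.sin_pos_of_pos_of_lt_pi (by linarith) (by linarith)
    have hsμ : 0 < Real.sin μ := Real.sin_pos_of_pos_of_lt_pi hμ0 (by linarith)
    have hcμ : 0 < Real.cos μ := Real.cos_pos_of_mem_Ioo ⟨by linarith, by linarith⟩
    have hc3 : 1 / 2 ≤ Real.cos μ := by
      rw [← Real.cos_pi_div_three]
      exact Real.cos_le_cos_of_nonneg_of_le_pi hμ0.le (by linarith) h3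
    have hM : Real.sin (μ + |(0 : ℝ)|) ≤ Real.sin (2 * μ) := by
      rw [abs_zero, add_zero, Real.sin_two_mul]
      nlinarith
    obtain ⟨z, hzQ, hzc⟩ := hz
    have h := QR_gen hQL hμ0 hμ hQ (ν := 0) (c := c) (M := Real.sin (2 * μ))
      (by rw [abs_zero]; exact hμ0.le) hs (le_refl _) hM
      ⟨z, hzQ, by
        unfold pr
        rw [Real.cos_zero, Real.sin_zero, mul_one, mul_zero, add_zero]
        exact hzc⟩
    refine le_trans (le_of_eq ?_) h
    rw [Real.cos_zero, Real.sin_two_mul]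
    field_simp
  · intro h3 c hz
    obtain ⟨z, hzQ, hzc⟩ := hz
    obtain ⟨x, hxQ, hx⟩ := QR_dir (hQ (-(Real.pi / 3)) ⟨by linarith, by linarith⟩)
    obtain ⟨y, hyQ, hy⟩ := QR_dir (hQ (Real.pi / 3) ⟨by linarith, by linarith⟩)
    have h := hQL Q (-(Real.pi / 3)) (Real.pi / 3) 0 1 1 1 c x y z hxQ hyQ hzQ (by norm_num)
      (by norm_num) (by norm_num) (by norm_num) (by norm_num) (by norm_num)
      (by
        rw [Real.cos_neg, Real.cos_pi_div_three, Real.cos_zero]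
        norm_num)
      (by
        rw [Real.sin_neg, Real.sin_zero]
        ring) hx hy
      (by
        unfold pr
        rw [Real.cos_zero, Real.sin_zero, mul_one, mul_zero, add_zero]
        exact hzc)
    linarith
  · intro s ε hs hε hz
    have hs2 : 0 ≤ Real.sin (2 * μ) :=
      Real.sin_nonneg_of_nonneg_of_le_pi (by linarith) (by linarith)
    obtain ⟨M, hM⟩ : ∃ M, M = max (Real.sin (2 * μ)) (Real.sin (μ + |s|)) := ⟨_, rfl⟩
    have hM1 : Real.sin (2 * μ) ≤ M := by rw [hM]; exact le_max_left _ _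
    have hM2 : Real.sin (μ + |s|) ≤ M := by rw [hM]; exact le_max_right _ _
    have hM0 : 0 ≤ M := hs2.trans hM1
    unfold Lam
    rw [← hM]
    rcases hM0.eq_or_lt with h0 | h0
    · rw [← h0, div_zero]
      have := QR_nonneg Q
      linarith
    · have h := QR_gen hQL hμ0 hμ hQ (ν := s) (c := 1 + ε) (M := M) hs h0 hM1 hM2 hz
      refine le_trans ?_ h
      rw [Real.cos_abs]
      have e : (2 * Real.sin μ * Real.cos s - Real.sin (2 * μ) * (1 + ε)) / M =
          (2 * Real.sin μ * Real.cos s - Real.sin (2 * μ)) / M - Real.sin (2 * μ) / M * ε := by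
        field_simp
        ring
      rw [e]
      have h1 : Real.sin (2 * μ) / M ≤ 1 := (div_le_one h0).2 hM1
      have h2 : Real.sin (2 * μ) / M * ε ≤ 1 * ε := mul_le_mul_of_nonneg_right h1 hε
      linarith

end

end Pool.BA
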