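import Pool.Agent.Work.MP_655153_ba.Interface5
import Pool.Agent.Work.MP_655153_ba.B_RED

/-! # Block RED1 (helper55) -/

open MeasureTheory Set
open scoped ENNReal

namespace Pool.BA

noncomputable section

open Pool.Agent.Work.MP_655153_co

theorem p_RED1 (hK0 : Stmt_K0) : Stmt_RED1 := by
  unfold Stmt_RED1 detectorConstant
  refine le_iInf₂ ?_
  intro A hA
  rw [Fin.sum_univ_one]
  by_cases h0 : (A 0).length = ⊤
  · rw [h0]; exact le_top
  set V₀ := (A 0).length.toReal with hV0
  have hdet : ∀ θ : ℝ, ∃ z, z ∈ (A 0).carrier ∧ pr θ z = 1 := by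
    intro θ
    obtain ⟨z, hz, hzr⟩ := RED_line _ hA θ 1 (by norm_num) le_rfl
    refine ⟨z, ?_, hzr⟩
    obtain ⟨i, hi⟩ := mem_iUnion.mp hz
    fin_cases i
    exact hi
  have key : ∀ δ : ℝ, 0 < δ → δ < 1 → (Real.pi + 2) * (1 - δ) ≤ V₀ := by
    intro δ hδ hδ1
    have h1d : 0 < 1 - δ := by linarith
    obtain ⟨P, hP, hCP, hPl⟩ := RED_sample (A 0) h0 δ hδ
    have hfree : ∀ θ, ¬ Free (P.map (fun z => (1 / (1 - δ)) • z)) θ := by
      intro θ hf
      obtain ⟨z, hz, hzr⟩ := hdet θ
      obtain ⟨x, hx, hxd⟩ := hCP z hz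
      have h3 := RED_pr_sub θ z x
      have h4 := hf _ (List.mem_map_of_mem (f := fun z => (1 / (1 - δ)) • z) hx)
      rw [RED_pr_smul, one_div, inv_mul_lt_iff₀ h1d] at h4
      linarith
    have h3 := hK0 _ hfree
    rw [RED_plen_smul _ (by positivity), one_div, le_inv_mul_iff₀ h1d] at h3
    linarith
  have hfin : Real.pi + 2 ≤ V₀ := by
    by_contra hcon
    push Not at hcon
    have hpi := Real.pi_pos
    set c := Real.pi + 2 - V₀ with hc
    have hcpos : 0 < c := by linarith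
    have hV : 0 ≤ V₀ := ENNReal.toReal_nonneg
    set δ := c / (2 * (Real.pi + 2)) with hδ
    have hd0 : 0 < δ := by positivity
    have hd3 : δ * (2 * (Real.pi + 2)) = c := by
      rw [hδ]
      field_simp
    have hd1 : δ < 1 := by
      rw [hδ, div_lt_one (by positivity)]
      linarith
    have h3 := key δ hd0 hd1
    nlinarith
  calc ENNReal.ofReal (Real.pi + 2) ≤ ENNReal.ofReal V₀ := ENNReal.ofReal_le_ofReal hfin
    _ = (A 0).length := by
      rw [ENNReal.ofReal_toReal h0]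

end

end Pool.BA
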