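import Pool.Agent.Work.MP_655153_ba.Interface5

/-! # Block ROT: elementary facts on rotations and free directions -/

open MeasureTheory Set

namespace Pool.BA

noncomputable section

theorem ROT_pr (φ θ : ℝ) (z : ℂ) : pr θ (z * u φ) = pr (θ - φ) z := by
  unfold pr u
  rw [Complex.mul_re, Complex.mul_im, Real.cos_sub, Real.sin_sub]
  ring

theorem ROT_norm (φ : ℝ) : ‖u φ‖ = 1 := by
  have h : ‖u φ‖ ^ 2 = 1 := by
    rw [Complex.sq_norm, Complex.normSq_apply]
    unfold u
    have := Real.sin_sq_add_cos_sq φ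
    nlinarith
  have h0 : 0 ≤ ‖u φ‖ := norm_nonneg _
  nlinarith

theorem ROT_dist (φ : ℝ) (x y : ℂ) : dist (x * u φ) (y * u φ) = dist x y := by
  rw [dist_eq_norm, dist_eq_norm, ← sub_mul, norm_mul, ROT_norm, mul_one]

theorem ROT_plen (φ : ℝ) (P : List ℂ) : plen (rot φ P) = plen P := by
  induction P with
  | nil => rfl
  | cons x l ih =>
    cases l with
    | nil => rfl
    | cons y l =>
      have h1 : rot φ (x :: y :: l) = (x * u φ) :: (y * u φ) :: rot φ l := rfl
      have h2 : rot φ (y :: l) = (y * u φ) :: rot φ l := rfl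
      rw [h1]
      show dist (x * u φ) (y * u φ) + plen ((y * u φ) :: rot φ l) = dist x y + plen (y :: l)
      rw [← h2, ih, ROT_dist]

theorem ROT_free (φ : ℝ) (P : List ℂ) (θ : ℝ) : Free (rot φ P) θ ↔ Free P (θ - φ) := by
  unfold Free rot
  constructor
  · intro h p hp
    have := h (p * u φ) (List.mem_map.2 ⟨p, hp, rfl⟩)
    rwa [ROT_pr] at this
  · intro h p hp
    obtain ⟨q, hq, rfl⟩ := List.mem_map.1 hp
    rw [ROT_pr]
    exact h q hq

theorem ROT_plen_nonneg (P : List ℂ) : 0 ≤ plen P := by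
  induction P with
  | nil => exact le_refl _
  | cons x l ih =>
    cases l with
    | nil => exact le_refl _
    | cons y l =>
      show 0 ≤ dist x y + plen (y :: l)
      exact add_nonneg dist_nonneg ih

theorem ROT_half (φ : ℝ) (P Q : List ℂ) (ε : ℝ)
    (h : ∀ θ, Free P θ → ∃ q ∈ Q, pr θ q ≤ -1 + ε ∨ ∃ p ∈ P, pr θ q ≤ pr θ p + ε) :
    ∀ θ, Free (rot φ P) θ → ∃ q ∈ rot φ Q, pr θ q ≤ -1 + ε ∨
      ∃ p ∈ rot φ P, pr θ q ≤ pr θ p + ε := by
  intro θ hθ
  obtain ⟨q, hq, h1⟩ := h (θ - φ) ((ROT_free φ P θ).1 hθ)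
  refine ⟨q * u φ, List.mem_map.2 ⟨q, hq, rfl⟩, ?_⟩
  rw [ROT_pr]
  rcases h1 with h1 | ⟨p, hp, h1⟩
  · exact Or.inl h1
  · refine Or.inr ⟨p * u φ, List.mem_map.2 ⟨p, hp, rfl⟩, ?_⟩
    rw [ROT_pr]
    exact h1

theorem p_ROT : Stmt_ROT := by
  refine ⟨ROT_pr, ROT_plen, ROT_free, ?_, ?_, ?_, ?_, ROT_plen_nonneg⟩
  · rintro φ P Q ε ⟨h1, h2, h3, h4, h5⟩
    refine ⟨?_, ?_, ?_, ROT_half φ P Q ε h4, ROT_half φ Q P ε h5⟩
    · intro h
      exact h1 (List.map_eq_nil_iff.1 h)
    · intro h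
      exact h2 (List.map_eq_nil_iff.1 h)
    · intro θ
      rw [ROT_free, ROT_free]
      exact h3 (θ - φ)
  · rintro P Q ε ⟨h1, h2, h3, h4, h5⟩
    exact ⟨h2, h1, fun θ => (h3 θ).symm, h5, h4⟩
  · intro P θ
    have h : ∀ p : ℂ, pr (θ + 2 * Real.pi) p = pr θ p := by
      intro p
      unfold pr
      rw [Real.cos_add_two_pi, Real.sin_add_two_pi]
    unfold Free
    simp only [h]
  · intro P
    induction P with
    | nil =>
      have : {θ : ℝ | Free [] θ} = univ := by
        ext θ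
        simp [Free]
      rw [this]
      exact isOpen_univ
    | cons x l ih =>
      have : {θ : ℝ | Free (x :: l) θ} = {θ | pr θ x < 1} ∩ {θ | Free l θ} := by
        ext θ
        simp [Free]
      rw [this]
      refine IsOpen.inter ?_ ih
      have hc : Continuous fun θ : ℝ => pr θ x := by
        unfold pr
        fun_prop
      exact isOpen_lt hc continuous_const

end

end Pool.BA
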