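import Pool.Agent.Work.MP_655153_ba.Interface4

/-! Block SPH (helper99) -/

open MeasureTheory Set

namespace Pool.BA

theorem SPH_cos_le {x : ℝ} (hx : 0 ≤ x) : Real.cos x ≤ 1 - x ^ 2 / 2 + x ^ 4 / 24 := by
  have hf : ∀ y : ℝ, HasDerivAt (fun y => 1 - y ^ 2 / 2 + y ^ 4 / 24 - Real.cos y)
      (-y + y ^ 3 / 6 + Real.sin y) y := by
    intro y
    have h := ((((hasDerivAt_pow 2 y).div_const 2).const_sub 1).add
      ((hasDerivAt_pow 4 y).div_const 24)).sub (Real.hasDerivAt_cos y)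
    refine h.congr_deriv ?_
    push_cast
    ring
  have hm : MonotoneOn (fun y => 1 - y ^ 2 / 2 + y ^ 4 / 24 - Real.cos y) (Set.Ici 0) := by
    refine monotoneOn_of_deriv_nonneg (convex_Ici 0)
      (fun y _ => (hf y).continuousAt.continuousWithinAt)
      (fun y _ => (hf y).differentiableAt.differentiableWithinAt) fun y hy => ?_
    rw [(hf y).deriv]
    rw [interior_Ici] at hy
    have := Real.sin_ge_sub_cube (le_of_lt hy)
    linarith
  have h := hm (Set.mem_Ici.2 le_rfl) (Set.mem_Ici.2 hx) hx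
  simp only [Real.cos_zero] at h
  norm_num at h
  linarith

theorem SPH_L1 {μ d : ℝ} (h0 : 0 < μ) (h1 : μ ≤ Real.pi / 2) (hd0 : 0 ≤ d) (hd : d ≤ μ) :
    2 * Real.sin μ * (Real.cos d - Real.cos μ) ≤ Lam μ d := by
  have hpi := Real.pi_pos
  have hs : 0 ≤ Real.sin μ := Real.sin_nonneg_of_nonneg_of_le_pi h0.le (by linarith)
  have hc : Real.cos μ ≤ Real.cos d :=
    Real.cos_le_cos_of_nonneg_of_le_pi hd0 (by linarith) hd
  have hN : 2 * Real.sin μ * Real.cos d - Real.sin (2 * μ) =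
      2 * Real.sin μ * (Real.cos d - Real.cos μ) := by
    rw [Real.sin_two_mul]
    ring
  have hN0 : 0 ≤ 2 * Real.sin μ * (Real.cos d - Real.cos μ) := by
    have : 0 ≤ Real.cos d - Real.cos μ := by linarith
    positivity
  unfold Lam
  rw [hN]
  have hD1 : max (Real.sin (2 * μ)) (Real.sin (μ + d)) ≤ 1 :=
    max_le (Real.sin_le_one _) (Real.sin_le_one _)
  by_cases hD : 0 < max (Real.sin (2 * μ)) (Real.sin (μ + d))
  · rw [le_div_iff₀ hD]
    exact mul_le_of_le_one_right hN0 hD1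
  · rw [lt_max_iff, not_or, not_lt, not_lt] at hD
    obtain ⟨hD2, hD3⟩ := hD
    have hμ : μ = Real.pi / 2 := by
      by_contra hne
      have : μ < Real.pi / 2 := lt_of_le_of_ne h1 hne
      have := Real.sin_pos_of_pos_of_lt_pi (x := 2 * μ) (by linarith) (by linarith)
      linarith
    have hdd : d = Real.pi / 2 := by
      by_contra hne
      have hlt : d < Real.pi / 2 := lt_of_le_of_ne (by linarith) hne
      have h2 := Real.cos_pos_of_mem_Ioo (x := d) ⟨by linarith, hlt⟩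
      rw [hμ, add_comm, Real.sin_add_pi_div_two] at hD3
      linarith
    rw [hμ, hdd]
    simp

theorem SPH_L2 {μ d : ℝ} (h0 : 0 < μ) (h1 : μ < Real.pi / 2)
    (hs : Real.sin (μ + d) ≤ Real.sin (2 * μ)) :
    Lam μ d = Real.cos d / Real.cos μ - 1 := by
  have hpi := Real.pi_pos
  have hs0 : 0 < Real.sin μ := Real.sin_pos_of_pos_of_lt_pi h0 (by linarith)
  have hc0 : 0 < Real.cos μ := Real.cos_pos_of_mem_Ioo ⟨by linarith, h1⟩
  unfold Lam
  rw [max_eq_left hs, Real.sin_two_mul]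
  field_simp

theorem SPH_conc {a x b K m : ℝ} (ha : 0 ≤ a) (hax : a ≤ x) (hxb : x ≤ b) (hb : b ≤ Real.pi / 2)
    (hK : 0 ≤ K) (h1 : m ≤ a + K * Real.cos a) (h2 : m ≤ b + K * Real.cos b) :
    m ≤ x + K * Real.cos x := by
  have hpi := Real.pi_pos
  rcases eq_or_lt_of_le (hax.trans hxb) with hab | hab
  · have : x = a := le_antisymm (by linarith) hax
    rw [this]
    exact h1
  · have hba : 0 < b - a := by linarith
    have hp : 0 ≤ (b - x) / (b - a) := div_nonneg (by linarith) hba.le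
    have hq : 0 ≤ (x - a) / (b - a) := div_nonneg (by linarith) hba.le
    have hpq : (b - x) / (b - a) + (x - a) / (b - a) = 1 := by
      field_simp
      ring
    have hx : (b - x) / (b - a) * a + (x - a) / (b - a) * b = x := by
      field_simp
      ring
    have hcc := strictConcaveOn_cos_Icc.concaveOn.2
      (show a ∈ Icc (-(Real.pi / 2)) (Real.pi / 2) from ⟨by linarith, by linarith⟩)
      (show b ∈ Icc (-(Real.pi / 2)) (Real.pi / 2) from ⟨by linarith, hb⟩) hp hq hpq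
    rw [smul_eq_mul, smul_eq_mul, smul_eq_mul, smul_eq_mul, hx] at hcc
    generalize (b - x) / (b - a) = p at *
    generalize (x - a) / (b - a) = q at *
    have h3 := mul_le_mul_of_nonneg_left hcc hK
    have h4 := mul_le_mul_of_nonneg_left h1 hp
    have h5 := mul_le_mul_of_nonneg_left h2 hq
    have h6 : p * m + q * m = m := by rw [← add_mul, hpq, one_mul]
    nlinarith

theorem SPH_B {μ : ℝ} (h0 : 9 / 10 ≤ μ) (h1 : μ ≤ Real.pi / 2) :
    4819 / 1000 - Real.pi - 2 + μ ≤ 2 * Real.sin μ * (1 - Real.cos μ) := by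
  have hp1 := Real.pi_gt_d4
  have hp2 := Real.pi_lt_d4
  have hs := Real.sin_ge_sub_cube (x := μ) (by linarith)
  have hc := SPH_cos_le (x := μ) (by linarith)
  have hμ : μ ≤ 15709 / 10000 := by linarith
  have hm2 : μ ^ 2 ≤ 247 / 100 := by nlinarith
  have h2 : 0 ≤ μ - μ ^ 3 / 6 := by
    have : μ - μ ^ 3 / 6 = μ * (1 - μ ^ 2 / 6) := by ring
    rw [this]
    exact mul_nonneg (by linarith) (by linarith)
  have h3 : 0 ≤ μ ^ 2 / 2 - μ ^ 4 / 24 := by
    have : μ ^ 2 / 2 - μ ^ 4 / 24 = μ ^ 2 / 2 * (1 - μ ^ 2 / 12) := by ring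
    rw [this]
    exact mul_nonneg (by positivity) (by linarith)
  have h4 : (μ - μ ^ 3 / 6) * (μ ^ 2 / 2 - μ ^ 4 / 24) ≤ Real.sin μ * (1 - Real.cos μ) :=
    mul_le_mul hs (by linarith) h3 (by linarith)
  have h5 : (0 : ℝ) ≤ μ ^ 3 - μ ^ 5 / 4 - μ + 3225 / 10000 := by
    obtain ⟨y, rfl⟩ : ∃ y, μ = 9 / 10 + y := ⟨μ - 9 / 10, by ring⟩
    have hy0 : 0 ≤ y := by linarith
    have hy1 : y ≤ 6709 / 10000 := by linarith
    nlinarith [mul_nonneg hy0 (sub_nonneg.2 hy1), mul_nonneg (mul_nonneg hy0 hy0)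
      (sub_nonneg.2 hy1), mul_nonneg (mul_nonneg (mul_nonneg hy0 hy0) hy0) (sub_nonneg.2 hy1),
      mul_nonneg (mul_nonneg (mul_nonneg (mul_nonneg hy0 hy0) hy0) hy0) (sub_nonneg.2 hy1)]
  have h6 : 0 ≤ μ ^ 7 := by positivity
  nlinarith

theorem SPH_C1 {μ : ℝ} (h0 : Real.pi / 4 ≤ μ) (h1 : μ ≤ 9 / 10) :
    4819 / 1000 - Real.pi - 2 + μ - Real.pi / 36 ≤
      2 * Real.sin μ * (Real.cos (Real.pi / 36) - Real.cos μ) := by
  have hp1 := Real.pi_gt_d4
  have hp2 := Real.pi_lt_d4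
  have hs := Real.sin_ge_sub_cube (x := μ) (by linarith)
  have hc := SPH_cos_le (x := μ) (by linarith)
  have hμ : 785 / 1000 ≤ μ := by linarith
  have hm2 : μ ^ 2 ≤ 81 / 100 := by nlinarith
  have hm2' : 616 / 1000 ≤ μ ^ 2 := by nlinarith
  have ha : 99619 / 100000 ≤ Real.cos (Real.pi / 36) := by
    have h := Real.one_sub_sq_div_two_le_cos (x := Real.pi / 36)
    nlinarith
  have h2 : 0 ≤ μ - μ ^ 3 / 6 := by
    have : μ - μ ^ 3 / 6 = μ * (1 - μ ^ 2 / 6) := by ring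
    rw [this]
    exact mul_nonneg (by linarith) (by linarith)
  have h3 : 0 ≤ μ ^ 2 / 2 - μ ^ 4 / 24 - 381 / 100000 := by
    have : μ ^ 2 / 2 - μ ^ 4 / 24 = μ ^ 2 / 2 * (1 - μ ^ 2 / 12) := by ring
    rw [this]
    nlinarith
  have h4 : (μ - μ ^ 3 / 6) * (μ ^ 2 / 2 - μ ^ 4 / 24 - 381 / 100000) ≤
      Real.sin μ * (Real.cos (Real.pi / 36) - Real.cos μ) :=
    mul_le_mul hs (by linarith) h3 (by linarith)
  have h5 : (0 : ℝ) ≤ μ ^ 3 - μ ^ 5 / 4 - 762 / 100000 * μ - μ + 4096 / 10000 := by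
    obtain ⟨y, rfl⟩ : ∃ y, μ = 785 / 1000 + y := ⟨μ - 785 / 1000, by ring⟩
    have hy0 : 0 ≤ y := by linarith
    have hy1 : y ≤ 115 / 1000 := by linarith
    nlinarith [mul_nonneg hy0 (sub_nonneg.2 hy1), mul_nonneg (mul_nonneg hy0 hy0)
      (sub_nonneg.2 hy1), mul_nonneg (mul_nonneg (mul_nonneg hy0 hy0) hy0) (sub_nonneg.2 hy1),
      mul_nonneg (mul_nonneg (mul_nonneg (mul_nonneg hy0 hy0) hy0) hy0) (sub_nonneg.2 hy1)]
  have h6 : 0 ≤ μ ^ 7 := by positivity
  have h7 : 0 ≤ μ ^ 3 := by positivity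
  nlinarith

/-- polynomial bounds: `(μ + c) cos μ ≤ v` -/
theorem SPH_poly {μ c v : ℝ} (h0 : 0 ≤ μ) (hc0 : 0 ≤ c)
    (h : (μ + c) * (1 - μ ^ 2 / 2 + μ ^ 4 / 24) ≤ v) : (μ + c) * Real.cos μ ≤ v :=
  (mul_le_mul_of_nonneg_left (SPH_cos_le h0) (by linarith)).trans h

theorem SPH_P1 {μ : ℝ} (h0 : 0 < μ) (h1 : μ ≤ 413 / 1000) :
    (μ + 6775 / 10000) * (1 - μ ^ 2 / 2 + μ ^ 4 / 24) ≤ 1 := by
  have h2 : 0 ≤ 413 / 1000 - μ := by linarith
  nlinarith [mul_nonneg h0.le h2, mul_nonneg (mul_nonneg h0.le h0.le) h2,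
    mul_nonneg (mul_nonneg (mul_nonneg h0.le h0.le) h0.le) h2,
    mul_nonneg (mul_nonneg (mul_nonneg (mul_nonneg h0.le h0.le) h0.le) h0.le) h2]

theorem SPH_P2 {μ : ℝ} (h0 : 413 / 1000 ≤ μ) (h1 : μ ≤ 9 / 10) :
    (μ + 5903 / 10000) * (1 - μ ^ 2 / 2 + μ ^ 4 / 24) ≤ 99619 / 100000 := by
  obtain ⟨y, rfl⟩ : ∃ y, μ = 668 / 1000 + y := ⟨μ - 668 / 1000, by ring⟩
  have hy0 : 0 ≤ y + 255 / 1000 := by linarith
  have hy1 : 0 ≤ 232 / 1000 - y := by linarith
  nlinarith [mul_nonneg hy0 hy1, sq_nonneg y, mul_nonneg (sq_nonneg y) hy0,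
    mul_nonneg (sq_nonneg y) hy1, mul_nonneg (mul_nonneg (sq_nonneg y) hy0) hy1,
    mul_nonneg (mul_nonneg (mul_nonneg (sq_nonneg y) hy0) hy1) hy1,
    mul_nonneg (mul_nonneg (mul_nonneg (sq_nonneg y) hy0) hy1) hy0]

/-- the case of small `S` and the simple form of `Lam` -/
theorem SPH_small {μ S b c : ℝ} (hμ0 : 0 < μ) (hμ1 : μ ≤ 9 / 10) (hS0 : 0 ≤ S)
    (hS1 : S ≤ 2 * (1 - μ ^ 2 / 2)) (hcos : Real.cos S ≤ Real.cos b)
    (hs : Real.sin (μ + b) ≤ Real.sin (2 * μ)) (hP : (μ + c) * Real.cos μ ≤ 1) :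
    μ + c - 1 ≤ S + Lam μ b := by
  have hp1 := Real.pi_gt_d4
  have hc0 : 0 < Real.cos μ := Real.cos_pos_of_mem_Ioo ⟨by linarith, by linarith⟩
  rw [SPH_L2 hμ0 (by linarith) hs]
  have hcm := Real.one_sub_sq_div_two_le_cos (x := μ)
  have hcS := Real.one_sub_sq_div_two_le_cos (x := S)
  have h1 : 1 ≤ S * Real.cos μ + Real.cos S := by
    have h2 : S / 2 ≤ Real.cos μ := by linarith
    have h3 := mul_le_mul_of_nonneg_left h2 hS0
    nlinarith
  have h4 : 1 / Real.cos μ ≤ S + Real.cos b / Real.cos μ := by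
    rw [div_le_iff₀ hc0, add_mul, div_mul_cancel₀ _ hc0.ne']
    linarith
  have h5 : μ + c ≤ 1 / Real.cos μ := by
    rw [le_div_iff₀ hc0]
    exact hP
  linarith

theorem p_SPH : Stmt_SPH := by
  intro μ b1 b2 hμ0 hμ1 h1 h1' h2 h2'
  have hp1 := Real.pi_gt_d4
  have hp2 := Real.pi_lt_d4
  have hb0 : 0 ≤ min b1 b2 := le_min h1 h2
  have hbS : min b1 b2 ≤ (b1 + b2) / 2 := by
    rcases le_total b1 b2 with h | h
    · rw [min_eq_left h]
      linarith
    · rw [min_eq_right h]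
      linarith
  have hE : 2 * Real.pi - (2 * μ - b1 - b2) / 2 - 2 * s0 =
      Real.pi + 2 - μ + (b1 + b2) / 2 := by
    unfold s0
    ring
  have hSμ : (b1 + b2) / 2 ≤ μ := by linarith
  have hbs : b1 + b2 = 2 * ((b1 + b2) / 2) := by ring
  rw [hE, hbs]
  generalize (b1 + b2) / 2 = S at *
  generalize min b1 b2 = b at *
  have hS0 : 0 ≤ S := hb0.trans hbS
  have hcos : Real.cos S ≤ Real.cos b :=
    Real.cos_le_cos_of_nonneg_of_le_pi hb0 (by linarith) hbS
  have hsin0 : 0 ≤ Real.sin μ := Real.sin_nonneg_of_nonneg_of_le_pi hμ0.le (by linarith)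
  have F1 : 2 * Real.sin μ * (Real.cos S - Real.cos μ) ≤ Lam μ b := by
    refine le_trans ?_ (SPH_L1 hμ0 hμ1 hb0 (by linarith))
    refine mul_le_mul_of_nonneg_left (by linarith) (by linarith)
  have hs4 : μ ≤ Real.pi / 4 → Real.sin (μ + b) ≤ Real.sin (2 * μ) := fun h =>
    Real.sin_le_sin_of_le_of_le_pi_div_two (by linarith) (by linarith) (by linarith)
  refine ⟨?_, ?_⟩
  · intro hyp
    by_cases hA : μ ≤ 413 / 1000
    · have h := SPH_small (c := 6775 / 10000) hμ0 (by linarith) hS0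
        (by nlinarith) hcos (hs4 (by linarith))
        (SPH_poly hμ0.le (by norm_num) (SPH_P1 hμ0 hA))
      linarith
    by_cases hB : 9 / 10 ≤ μ
    · have h := SPH_conc (a := 0) (x := S) (b := μ) (K := 2 * Real.sin μ)
        (m := 4819 / 1000 - Real.pi - 2 + μ + 2 * Real.sin μ * Real.cos μ) le_rfl hS0 hSμ hμ1
        (by linarith) (by
          have := SPH_B hB hμ1
          rw [Real.cos_zero]
          linarith) (by linarith)
      linarith
    rw [not_le] at hA hB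
    have hS1 : Real.pi / 36 ≤ S := by
      rcases hyp with h | h | h
      · linarith
      · linarith
      · linarith
    by_cases h4 : Real.pi / 4 ≤ μ
    · have h := SPH_conc (a := Real.pi / 36) (x := S) (b := μ) (K := 2 * Real.sin μ)
        (m := 4819 / 1000 - Real.pi - 2 + μ + 2 * Real.sin μ * Real.cos μ) (by linarith) hS1 hSμ
        hμ1 (by linarith) (by
          have := SPH_C1 h4 hB.le
          linarith) (by linarith)
      linarith
    · rw [not_le] at h4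
      have hc0 : 0 < Real.cos μ := Real.cos_pos_of_mem_Ioo ⟨by linarith, by linarith⟩
      have ha : 99619 / 100000 ≤ Real.cos (Real.pi / 36) := by
        have h := Real.one_sub_sq_div_two_le_cos (x := Real.pi / 36)
        nlinarith
      have hP := SPH_poly hμ0.le (by norm_num) (SPH_P2 hA.le hB.le)
      have h := SPH_conc (a := Real.pi / 36) (x := S) (b := μ) (K := 1 / Real.cos μ)
        (m := 4819 / 1000 - Real.pi - 1 + μ) (by linarith) hS1 hSμ hμ1 (by positivity) (by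
          have h5 : μ + 5903 / 10000 ≤ 1 / Real.cos μ * Real.cos (Real.pi / 36) := by
            rw [one_div_mul_eq_div, le_div_iff₀ hc0]
            linarith
          linarith) (by
          have h6 : 1 / Real.cos μ * Real.cos μ = 1 := by
            rw [one_div_mul_eq_div, div_self hc0.ne']
          linarith)
      have hL := SPH_L2 hμ0 (by linarith) (hs4 h4.le)
      have h7 : 1 / Real.cos μ * Real.cos S ≤ Real.cos b / Real.cos μ := by
        rw [one_div_mul_eq_div]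
        exact div_le_div_of_nonneg_right hcos hc0.le
      rw [hL]
      linarith
  · intro hA hB hS1
    have hs : Real.sin (μ + b) ≤ Real.sin (2 * μ) := by
      by_cases h4 : μ ≤ Real.pi / 4
      · exact hs4 h4
      · rw [not_le] at h4
        rw [← Real.sin_pi_sub (2 * μ)]
        exact Real.sin_le_sin_of_le_of_le_pi_div_two (by linarith) (by linarith) (by linarith)
    have hP := SPH_poly hμ0.le (by norm_num) (SPH_P2 hA hB)
    have h := SPH_small (c := 5903 / 10000) hμ0 hB hS0 (by nlinarith) hcos hs (by linarith)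
    linarith

end Pool.BA
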