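import Pool.Agent.Work.MP_655153_ba.Interface4

/-!
# Block SPK: the spike case
-/

open MeasureTheory Set

namespace Pool.BA

noncomputable section

theorem SPK_periodic (x : ℂ) (θ : ℝ) : pr (θ + 2 * Real.pi) x = pr θ x := by
  unfold pr
  rw [Real.cos_add_two_pi, Real.sin_add_two_pi]

theorem SPK_mono (m : ℕ) (κ α : ℕ → ℝ) (h : Chain m κ α) :
    (∀ i j, i ≤ j → j < m → Lf κ α i ≤ Lf κ α j) ∧
    (∀ i j, i ≤ j → j < m → Rt κ α i ≤ Rt κ α j) := by
  constructor
  · intro i j hij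
    induction j, hij using Nat.le_induction with
    | base => intro _; exact le_rfl
    | succ j hij ih =>
      intro hj
      exact (ih (by omega)).trans (h.l j hj).le
  · intro i j hij
    induction j, hij using Nat.le_induction with
    | base => intro _; exact le_rfl
    | succ j hij ih =>
      intro hj
      exact (ih (by omega)).trans (h.r j hj).le

theorem SPK_some2 (R : ℕ → ℕ → Prop) (s : ℕ) : ∀ p : List ℕ,
    (∀ i ∈ p, ∀ j ∈ p, (i < s ∧ s ≤ j) ∨ (j < s ∧ s ≤ i) → R i j) → (∃ i ∈ p, i < s) →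
    (∃ j ∈ p, s ≤ j) → Some2 R p
  | [] => by
    rintro _ ⟨i, hi, _⟩ _
    simp at hi
  | [x] => by
    rintro _ ⟨i, hi, h1⟩ ⟨j, hj, h2⟩
    rw [List.mem_singleton] at hi hj
    omega
  | x :: y :: l => by
    rintro hR ⟨i, hi, h1⟩ ⟨j, hj, h2⟩
    have hx : x ∈ x :: y :: l := List.mem_cons_self
    have hy : y ∈ x :: y :: l := List.mem_cons_of_mem _ List.mem_cons_self
    have hR' : ∀ i ∈ y :: l, ∀ j ∈ y :: l, (i < s ∧ s ≤ j) ∨ (j < s ∧ s ≤ i) → R i j :=
      fun i hi j hj => hR i (List.mem_cons_of_mem _ hi) j (List.mem_cons_of_mem _ hj)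
    rw [Some2]
    by_cases hxs : x < s
    · by_cases hys : y < s
      · right
        refine SPK_some2 R s (y :: l) hR' ⟨y, List.mem_cons_self, hys⟩ ⟨j, ?_, h2⟩
        rcases List.mem_cons.1 hj with h | h
        · omega
        · exact h
      · left
        exact hR x hx y hy (Or.inl ⟨hxs, by omega⟩)
    · by_cases hys : y < s
      · left
        exact hR x hx y hy (Or.inr ⟨hys, by omega⟩)
      · right
        refine SPK_some2 R s (y :: l) hR' ⟨i, ?_, h1⟩ ⟨y, List.mem_cons_self, by omega⟩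
        rcases List.mem_cons.1 hi with h | h
        · omega
        · exact h

theorem p_SPK (hEXG : Stmt_EXG) (hLIFT : Stmt_LIFT) (hSUBZ : Stmt_SUBZ) (hPLS : Stmt_PLS)
    (hHU : Stmt_HU) (hGAIN : Stmt_GAIN) (hSFB : Stmt_SFB) : Stmt_SPK := by
  classical
  intro P μ n1 n2 hμ0 hμ1 hn1 hn12 hn2 hgap g4 g5 g6
  obtain ⟨g1, g2, g3⟩ := hgap
  have hpi : 0 < Real.pi := Real.pi_pos
  obtain ⟨θ0, ⟨hθa, hθb⟩, hθF⟩ := g5 (n1 + μ) (by linarith)
  have hθa' : -μ < θ0 := by linarith
  obtain ⟨P', hP'⟩ : ∃ P' : List ℂ, P' = P.filter (fun x =>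
      decide ((∃ θ ∈ Icc μ (2 * Real.pi - μ), 1 ≤ pr θ x) ∨ ∃ θ ∈ Icc n1 n2, 1 ≤ pr θ x)) :=
    ⟨_, rfl⟩
  have hP'sub : P'.Sublist P := by
    rw [hP']
    exact List.filter_sublist
  have hP'mem : ∀ x, x ∈ P' ↔ x ∈ P ∧
      ((∃ θ ∈ Icc μ (2 * Real.pi - μ), 1 ≤ pr θ x) ∨ ∃ θ ∈ Icc n1 n2, 1 ≤ pr θ x) := by
    intro x
    rw [hP', List.mem_filter, decide_eq_true_iff]
  have hcap : ∀ x ∈ P', ∀ θ ∈ Icc θ0 (θ0 + 2 * Real.pi), 1 ≤ pr θ x →
      θ ∈ Icc n1 n2 ∨ θ ∈ Icc μ (2 * Real.pi - μ) := by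
    intro x hx θ hθ hθx
    obtain ⟨hxP, hx2⟩ := (hP'mem x).1 hx
    obtain ⟨hl1, hl2⟩ := hLIFT x θ0 (hθF x hxP)
    obtain ⟨κ, α, ha0, ha1, hb0, hb1, hV, hc⟩ := hl1 (hl2 θ hθx)
    have hnf : ∀ θ' ∈ Icc θ0 (θ0 + 2 * Real.pi), Free P θ' →
        ¬ (κ - α ≤ θ' ∧ θ' ≤ κ + α) := by
      intro θ' hθ' hfr h
      exact absurd ((hc θ' hθ').2 h) (not_le.2 (hfr x hxP))
    have hθI := (hc θ hθ).1 hθx
    rcases hx2 with ⟨θ1, hθ1, h1⟩ | ⟨θ1, hθ1, h1⟩
    · right
      have hθ1' : θ1 ∈ Icc θ0 (θ0 + 2 * Real.pi) :=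
        ⟨by linarith [hθ1.1], by linarith [hθ1.2]⟩
      have hI := (hc θ1 hθ1').1 h1
      constructor
      · by_contra hcon
        push Not at hcon
        obtain ⟨θ', ⟨h2, h3⟩, h4⟩ := g3 (μ - (κ - α)) (by linarith [hθI.1])
        exact hnf θ' ⟨by linarith, by linarith [hθ1'.2, hθ1.1]⟩ h4
          ⟨by linarith, by linarith [hθ1.1, hI.2]⟩
      · by_contra hcon
        push Not at hcon
        obtain ⟨θ', ⟨h2, h3⟩, h4⟩ := g2 (κ + α - (2 * Real.pi - μ)) (by linarith [hθI.2])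
        have h5 : Free P (θ' + 2 * Real.pi) := by
          intro y hy
          rw [SPK_periodic]
          exact h4 y hy
        exact hnf (θ' + 2 * Real.pi) ⟨by linarith [hθ1'.1, hθ1.2], by linarith⟩ h5
          ⟨by linarith [hθ1.2, hI.1], by linarith⟩
    · left
      have hθ1' : θ1 ∈ Icc θ0 (θ0 + 2 * Real.pi) :=
        ⟨by linarith [hθ1.1], by linarith [hθ1.2]⟩
      have hI := (hc θ1 hθ1').1 h1
      constructor
      · by_contra hcon
        push Not at hcon
        obtain ⟨θ', ⟨h2, h3⟩, h4⟩ := g5 (n1 - (κ - α)) (by linarith [hθI.1])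
        exact hnf θ' ⟨by linarith, by linarith [hθ1'.2, hθ1.1]⟩ h4
          ⟨by linarith, by linarith [hθ1.1, hI.2]⟩
      · by_contra hcon
        push Not at hcon
        obtain ⟨θ', ⟨h2, h3⟩, h4⟩ := g6 (κ + α - n2) (by linarith [hθI.2])
        exact hnf θ' ⟨by linarith [hθ1'.1, hθ1.2], by linarith⟩ h4
          ⟨by linarith [hθ1.2, hI.1], by linarith⟩
  have hcov : ∀ θ ∈ Icc θ0 (θ0 + 2 * Real.pi),
      (¬ Free P' θ ↔ θ ∈ Icc n1 n2 ∨ θ ∈ Icc μ (2 * Real.pi - μ)) := by
    intro θ hθ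
    constructor
    · intro h
      unfold Free at h
      push Not at h
      obtain ⟨x, hx, hx1⟩ := h
      exact hcap x hx θ hθ hx1
    · intro h hF
      have h2 : ¬ Free P θ := by
        rcases h with h | h
        · exact g4 θ h
        · exact g1 θ h
      unfold Free at h2
      push Not at h2
      obtain ⟨x, hx, hx1⟩ := h2
      have hx' : x ∈ P' := by
        refine (hP'mem x).2 ⟨hx, ?_⟩
        rcases h with h | h
        · exact Or.inr ⟨θ, h, hx1⟩
        · exact Or.inl ⟨θ, h, hx1⟩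
      exact absurd hx1 (not_le.2 (hF x hx'))
  have hF0 : Free P' θ0 := fun x hx => hθF x (hP'sub.subset hx)
  have hn1F : ¬ Free P' n1 :=
    (hcov n1 ⟨hθb.le, by linarith⟩).2 (Or.inl ⟨le_rfl, hn12⟩)
  obtain ⟨m, κ, α, hm, hch, hL0, hRm, hVP, hiff⟩ := hEXG P' θ0 hF0 ⟨n1, hn1F⟩
  obtain ⟨hLm, hRm'⟩ := SPK_mono m κ α hch
  have hLR : ∀ i < m, Lf κ α i ≤ Rt κ α i := by
    intro i hi
    unfold Lf Rt
    linarith [hch.α0 i hi]
  have hin : ∀ i < m, ∀ θ, Lf κ α i ≤ θ → θ ≤ Rt κ α i →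
      (θ ∈ Icc n1 n2 ∨ θ ∈ Icc μ (2 * Real.pi - μ)) := by
    intro i hi θ h1 h2
    have h3 : θ ∈ Icc θ0 (θ0 + 2 * Real.pi) :=
      ⟨by linarith [hLm 0 i (Nat.zero_le _) hi],
        by linarith [hRm' i (m - 1) (by omega) (by omega)]⟩
    exact (hcov θ h3).1 ((hiff θ h3).2 ⟨i, hi, h1, h2⟩)
  have hout : ∀ θ, (θ ∈ Icc n1 n2 ∨ θ ∈ Icc μ (2 * Real.pi - μ)) →
      ∃ i < m, Lf κ α i ≤ θ ∧ θ ≤ Rt κ α i := by
    intro θ h
    have h3 : θ ∈ Icc θ0 (θ0 + 2 * Real.pi) := by
      rcases h with h | h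
      · exact ⟨by linarith [h.1], by linarith [h.2]⟩
      · exact ⟨by linarith [h.1], by linarith [h.2]⟩
    exact (hiff θ h3).1 ((hcov θ h3).2 h)
  have htype : ∀ i < m, (n1 ≤ Lf κ α i ∧ Rt κ α i ≤ n2) ∨
      (μ ≤ Lf κ α i ∧ Rt κ α i ≤ 2 * Real.pi - μ) := by
    intro i hi
    have h1 := hin i hi (Lf κ α i) le_rfl (hLR i hi)
    have h2 := hin i hi (Rt κ α i) (hLR i hi) le_rfl
    rcases h1 with h1 | h1
    · rcases h2 with h2 | h2
      · exact Or.inl ⟨h1.1, h2.2⟩
      · exfalso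
        have h3 := hin i hi ((n2 + μ) / 2) (by linarith [h1.2]) (by linarith [h2.1])
        rcases h3 with h3 | h3
        · linarith [h3.2]
        · linarith [h3.1]
    · rcases h2 with h2 | h2
      · exfalso
        linarith [h1.1, h2.2, hLR i hi]
      · exact Or.inr ⟨h1.1, h2.2⟩
  have hex : ∃ s, s < m ∧ μ ≤ Lf κ α s := by
    obtain ⟨i, hi, h1, h2⟩ := hout μ (Or.inr ⟨le_rfl, by linarith⟩)
    rcases htype i hi with h3 | h3
    · exfalso
      linarith [h3.2]
    · exact ⟨i, hi, h3.1⟩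
  obtain ⟨s, hsm, hsL, hsmin⟩ : ∃ s, s < m ∧ μ ≤ Lf κ α s ∧
      ∀ i < s, ¬ (i < m ∧ μ ≤ Lf κ α i) :=
    ⟨Nat.find hex, (Nat.find_spec hex).1, (Nat.find_spec hex).2,
      fun i hi => Nat.find_min hex hi⟩
  have hlt : ∀ i < s, n1 ≤ Lf κ α i ∧ Rt κ α i ≤ n2 := by
    intro i hi
    have h1 := hsmin i hi
    rcases htype i (by omega) with h | h
    · exact h
    · exact absurd ⟨by omega, h.1⟩ h1
  have hge : ∀ i, s ≤ i → i < m → μ ≤ Lf κ α i ∧ Rt κ α i ≤ 2 * Real.pi - μ := by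
    intro i hi him
    rcases htype i him with h | h
    · exfalso
      have := hLm s i hi him
      linarith [h.2, hLR i him]
    · exact h
  have hs0 : 0 < s := by
    obtain ⟨i, hi, h1, h2⟩ := hout n1 (Or.inl ⟨le_rfl, hn12⟩)
    by_contra hcon
    have := hge i (by omega) hi
    linarith [this.1]
  have e1 : Lf κ α 0 = n1 := by
    obtain ⟨i, hi, h1, h2⟩ := hout n1 (Or.inl ⟨le_rfl, hn12⟩)
    have h3 := hLm 0 i (Nat.zero_le _) hi
    have h4 := (hlt 0 hs0).1
    linarith
  have e2 : Rt κ α (s - 1) = n2 := by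
    obtain ⟨i, hi, h1, h2⟩ := hout n2 (Or.inl ⟨hn12, le_rfl⟩)
    have h3 : i < s := by
      by_contra hcon
      have := (hge i (by omega) hi).1
      linarith
    have h4 := hRm' i (s - 1) (by omega) (by omega)
    have h5 := (hlt (s - 1) (by omega)).2
    linarith
  have e3 : Lf κ α s = μ := by
    obtain ⟨i, hi, h1, h2⟩ := hout μ (Or.inr ⟨le_rfl, by linarith⟩)
    have h3 : s ≤ i := by
      by_contra hcon
      have := (hlt i (by omega)).2
      linarith
    have h4 := hLm s i h3 hi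
    linarith
  have e4 : Rt κ α (m - 1) = 2 * Real.pi - μ := by
    obtain ⟨i, hi, h1, h2⟩ := hout (2 * Real.pi - μ) (Or.inr ⟨by linarith, le_rfl⟩)
    have h4 := hRm' i (m - 1) (by omega) (by omega)
    have h5 := (hge (m - 1) (by omega) (by omega)).2
    linarith
  have hgap' : ∀ i, i < m → 0 < gap κ α m i → i = 0 ∨ i = s := by
    intro i hi hg
    by_contra hcon
    push Not at hcon
    obtain ⟨hi0, his⟩ := hcon
    rw [gap, if_neg hi0] at hg
    have h1 : (Rt κ α (i - 1) + Lf κ α i) / 2 ∈ Icc n1 n2 ∨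
        (Rt κ α (i - 1) + Lf κ α i) / 2 ∈ Icc μ (2 * Real.pi - μ) := by
      have ha' := hLR (i - 1) (by omega)
      have hb' := hLR i hi
      rcases lt_or_gt_of_ne his with h | h
      · left
        have ha := hlt (i - 1) (by omega)
        have hb := hlt i h
        exact ⟨by linarith [ha.1, ha.2, hb.1, hb.2], by linarith [ha.1, ha.2, hb.1, hb.2]⟩
      · right
        have ha := hge (i - 1) (by omega) (by omega)
        have hb := hge i (by omega) hi
        exact ⟨by linarith [ha.1, ha.2, hb.1, hb.2], by linarith [ha.1, ha.2, hb.1, hb.2]⟩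
    obtain ⟨j, hj, h2, h3⟩ := hout _ h1
    rcases Nat.lt_or_ge j i with h | h
    · have := hRm' j (i - 1) (by omega) (by omega)
      linarith
    · have := hLm i j h hj
      linarith
  have hU : ∀ p, Visits m p → U κ α p = (n2 - n1) + (2 * Real.pi - 2 * μ) := by
    intro p hp
    have h1 : (⋃ i ∈ p, Icc (Lf κ α i) (Rt κ α i)) = Icc n1 n2 ∪ Icc μ (2 * Real.pi - μ) := by
      ext θ
      simp only [mem_iUnion, exists_prop, mem_union]
      constructor
      · rintro ⟨i, hi, h1, h2⟩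
        exact hin i ((hp.2 i).1 hi) θ h1 h2
      · intro h
        obtain ⟨i, hi, h1, h2⟩ := hout θ h
        exact ⟨i, (hp.2 i).2 hi, h1, h2⟩
    have h2 : Disjoint (Icc n1 n2) (Icc μ (2 * Real.pi - μ)) := by
      rw [Set.disjoint_left]
      intro θ h1 h2
      linarith [h1.2, h2.1]
    rw [U, h1, measure_union h2 measurableSet_Icc, Real.volume_Icc, Real.volume_Icc,
      ENNReal.toReal_add ENNReal.ofReal_ne_top ENNReal.ofReal_ne_top,
      ENNReal.toReal_ofReal (by linarith), ENNReal.toReal_ofReal (by linarith)]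
    ring
  have hwin : Rt κ α (m - 1) < Lf κ α 0 + 2 * Real.pi := by
    rw [e1, e4]
    linarith
  obtain ⟨⟨p, hp, hpsub⟩, -⟩ := hSUBZ P' m κ α hch hVP hwin
  have hplen : psum (dd κ α) p ≤ plen P := by
    have h1 := hPLS.1 _ _ (hpsub.trans hP'sub)
    have h2 := hPLS.2.1 (fun i => V (κ i) (α i)) p
    unfold pts at h1
    rw [h2] at h1
    exact h1
  have hm2 : 3 ≤ m ∨ (m = 2 ∧ Rt κ α 0 < Lf κ α 1) := by
    rcases Nat.lt_or_ge 2 m with h | h
    · left
      omega
    · right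
      have hm' : m = 2 := by omega
      have hs1 : s = 1 := by omega
      refine ⟨hm', ?_⟩
      have h1 := (hlt 0 hs0).2
      rw [hs1] at e3
      linarith
  have hα : ∀ i < s, α i ≤ (n2 - n1) / 2 := by
    intro i hi
    have h1 := hlt i hi
    unfold Lf Rt at h1
    linarith [h1.1, h1.2]
  have hsf1 : ∀ i < s, sf (α i) ≤ min s0 ((n2 - n1) / 2) := by
    intro i hi
    have h1 := hSFB (α i) (hch.α0 i (by omega)) (hch.α1 i (by omega))
    exact le_min h1.1 (h1.2.trans (hα i hi))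
  have hsf2 : ∀ i < m, sf (α i) ≤ s0 := by
    intro i hi
    exact (hSFB (α i) (hch.α0 i hi) (hch.α1 i hi)).1
  have hmain : ∀ η : ℝ, (η = 0 ∨ (0 ≤ η ∧ Some2 (fun i j => ¬ ov κ α i j ∧
      short κ α (min i j) (max i j) / 2 + η ≤ exc κ α i j) p)) →
      (2 * Real.pi - (2 * μ - (n2 - n1)) / 2 - 2 * s0 + η ≤ plen P) ∨
      2 * Real.pi - (2 * μ - (n2 - n1)) / 2 - (n1 + μ) / 2 - s0 - min s0 ((n2 - n1) / 2) ≤
        plen P ∨
      2 * Real.pi - (2 * μ - (n2 - n1)) / 2 - (μ - n2) / 2 - s0 - min s0 ((n2 - n1) / 2) ≤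
        plen P := by
    intro η hη
    rcases hHU m κ α p η hch hwin hp hm2 hη with h | ⟨s', hs', hg, h⟩
    · left
      rw [hU p hp] at h
      linarith
    · rw [hU p hp] at h
      rcases hgap' s' hs' hg with h0 | h0
      · right
        left
        rw [h0, gap, if_pos rfl, prd, if_pos rfl, e1, e4] at h
        have h1 := hsf1 0 hs0
        have h2 := hsf2 (m - 1) (by omega)
        linarith
      · right
        right
        have hsne : s ≠ 0 := by omega
        rw [h0, gap, if_neg hsne, prd, if_neg hsne, e2, e3] at h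
        have h1 := hsf1 (s - 1) (by omega)
        have h2 := hsf2 s hsm
        linarith
  by_cases hsmall : n2 - n1 ≤ Real.pi / 18 ∧ 13 * Real.pi / 180 ≤ n1 + μ ∧
      13 * Real.pi / 180 ≤ μ - n2
  · obtain ⟨q1, q2, q3⟩ := hsmall
    have hnov : ∀ lo hi, lo < s → s ≤ hi → hi < m → ¬ ov κ α lo hi ∧ ¬ ov κ α hi lo := by
      intro lo hi h1 h2 h3
      have h4 := (hlt lo h1).2
      have h5 := (hge hi h2 h3).1
      constructor
      · rintro (⟨_, h6⟩ | ⟨h6, _⟩)
        · linarith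
        · omega
      · rintro (⟨h6, _⟩ | ⟨_, h6⟩)
        · omega
        · linarith
    have hpair : ∀ lo hi, lo < s → s ≤ hi → hi < m →
        short κ α lo hi / 2 + 1 / 10 ≤
          dd κ α lo hi - Real.tan (α lo) - Real.tan (α hi) := by
      intro lo hi h1 h2 h3
      have h4 := hlt lo h1
      have h5 := hge hi h2 h3
      have ha := hα lo h1
      have hb0 := hch.α0 lo (by omega)
      have hc0 := hch.α0 hi h3
      have hc1 := hch.α1 hi h3
      unfold Lf Rt at h4 h5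
      by_cases hpi2 : κ hi - κ lo ≤ Real.pi
      · have h6 : short κ α lo hi = κ hi - κ lo - α lo - α hi := by
          rw [short, if_pos hpi2]
          unfold Lf Rt
          ring
        have h7 := hGAIN (κ lo) (κ hi) (α lo) (α hi) (κ hi - κ lo) hb0 (by linarith) hc0 hc1
          rfl (by linarith [h4.2, h5.1]) hpi2
        rw [h6]
        unfold dd
        linarith
      · have h6 : short κ α lo hi = 2 * Real.pi - (κ hi - κ lo) - α lo - α hi := by
          rw [short, if_neg hpi2]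
          unfold Lf Rt
          ring
        push Not at hpi2
        have h7 := hGAIN (κ lo) (κ hi) (α lo) (α hi) (2 * Real.pi - (κ hi - κ lo)) hb0
          (by linarith) hc0 hc1 (Real.cos_two_pi_sub _) (by linarith [h4.1, h5.2])
          (by linarith)
        rw [h6]
        unfold dd
        linarith
    have hη : Some2 (fun i j => ¬ ov κ α i j ∧
        short κ α (min i j) (max i j) / 2 + 1 / 10 ≤ exc κ α i j) p := by
      apply SPK_some2 _ s p
      · intro i hi j hj hij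
        have him := (hp.2 i).1 hi
        have hjm := (hp.2 j).1 hj
        rcases hij with ⟨h1, h2⟩ | ⟨h1, h2⟩
        · have h3 := (hnov i j h1 h2 hjm).1
          have h4 := hpair i j h1 h2 hjm
          refine ⟨h3, ?_⟩
          rw [exc, if_neg h3, min_eq_left (by omega), max_eq_right (by omega)]
          exact h4
        · have h3 := (hnov j i h1 h2 him).2
          have h4 := hpair j i h1 h2 him
          refine ⟨h3, ?_⟩
          rw [exc, if_neg h3, min_eq_right (by omega), max_eq_left (by omega)]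
          have h5 : dd κ α j i = dd κ α i j := by
            unfold dd
            exact dist_comm _ _
          rw [h5] at h4
          linarith
      · exact ⟨0, (hp.2 0).2 hm, hs0⟩
      · exact ⟨s, (hp.2 s).2 hsm, le_rfl⟩
    rcases hmain (1 / 10) (Or.inr ⟨by norm_num, hη⟩) with h | h | h
    · left
      exact ⟨by linarith, fun _ _ _ => h⟩
    · right
      left
      exact h
    · right
      right
      exact h
  · rcases hmain 0 (Or.inl rfl) with h | h | h
    · left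
      exact ⟨by linarith, fun h1 h2 h3 => absurd ⟨h1, h2, h3⟩ hsmall⟩
    · right
      left
      exact h
    · right
      right
      exact h

end

end Pool.BA
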