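import Pool.Agent.Work.MP_655153_ba.Interface4

/-! # Block SPT (helper53): total length in the spike case -/

open MeasureTheory Set

namespace Pool.BA

noncomputable section

theorem p_SPT (hSPK : Stmt_SPK) (hQR : Stmt_QR) (hSPH : Stmt_SPH) (hSPU : Stmt_SPU) :
    Stmt_SPT := by
  intro P Q μ n1 n2 ε hμ hμ2 hn1 hn10 hn20 hn2 hε hgap hcov hfl hfr hQ hz1 hz2
  have hq := (hQR Q μ hμ hμ2 hQ).2.2.2
  have a1 : |n1| = -n1 := abs_of_nonpos hn10
  have a2 : |n2| = n2 := abs_of_nonneg hn20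
  have q1 : Lam μ (-n1) - ε ≤ plen Q := by
    have h := hq n1 ε (by rw [a1]; linarith) hε hz1
    rwa [a1] at h
  have q2 : Lam μ n2 - ε ≤ plen Q := by
    have h := hq n2 ε (by rw [a2]; linarith) hε hz2
    rwa [a2] at h
  have qmin : Lam μ (min (-n1) n2) - ε ≤ plen Q := by
    rcases le_total (-n1) n2 with h | h
    · rw [min_eq_left h]; exact q1
    · rw [min_eq_right h]; exact q2
  have qmax : max (Lam μ (-n1)) (Lam μ n2) - ε ≤ plen Q := by
    rcases le_total (Lam μ (-n1)) (Lam μ n2) with h | h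
    · rw [max_eq_right h]; exact q2
    · rw [max_eq_left h]; exact q1
  have hH := hSPH μ (-n1) n2 hμ hμ2 (by linarith) (by linarith) hn20 hn2.le
  have hU1 := hSPU μ (-n1) n2 hμ hμ2 (by linarith) (by linarith) hn20 hn2.le
  have hU2 := hSPU μ n2 (-n1) hμ hμ2 hn20 hn2.le (by linarith) (by linarith)
  have hpi1 : Real.pi < 3.1416 := Real.pi_lt_d4
  rcases hSPK P μ n1 n2 hμ hμ2 hn1 (by linarith) hn2 hgap hcov hfl hfr with h | h | h
  · obtain ⟨h1, h2⟩ := h
    by_cases hc : Real.pi / 18 ≤ -n1 + n2 ∨ μ ≤ 413 / 1000 ∨ 9 / 10 ≤ μ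
    · have e := hH.1 hc
      have e2 : (2 * μ - -n1 - n2) / 2 = (2 * μ - (n2 - n1)) / 2 := by ring
      rw [e2] at e
      linarith
    · push Not at hc
      obtain ⟨c1, c2, c3⟩ := hc
      have e := hH.2 c2.le c3.le c1.le
      have e2 : (2 * μ - -n1 - n2) / 2 = (2 * μ - (n2 - n1)) / 2 := by ring
      rw [e2] at e
      have h3 := h2 (by linarith) (by linarith) (by linarith)
      linarith
  · have e2 : (2 * μ - -n1 - n2) / 2 = (2 * μ - (n2 - n1)) / 2 := by ring
    have e3 : (μ - -n1) / 2 = (n1 + μ) / 2 := by ring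
    have e4 : (-n1 + n2) / 2 = (n2 - n1) / 2 := by ring
    rw [e2, e3, e4] at hU1
    linarith
  · have e2 : (2 * μ - n2 - -n1) / 2 = (2 * μ - (n2 - n1)) / 2 := by ring
    have e4 : (n2 + -n1) / 2 = (n2 - n1) / 2 := by ring
    rw [e2, e4, max_comm] at hU2
    linarith

end

end Pool.BA
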