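import Pool.Agent.Work.MP_655153_ba.Interface4

/-! # Block SPU: numerical bound for spikes, unhopped -/

open MeasureTheory Set

namespace Pool.BA

noncomputable section

/-- concavity of the cosine on `[a, M]` -/
theorem SPU_cc {a b M : ℝ} (h0 : 0 ≤ a) (h1 : a ≤ b) (h2 : b ≤ M) (h3 : M ≤ Real.pi / 2) :
    (M - b) * Real.cos a + (b - a) * Real.cos M ≤ (M - a) * Real.cos b := by
  rcases eq_or_lt_of_le (h1.trans h2) with h | h
  · have hb : b = a := le_antisymm (by linarith) h1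
    subst hb
    rw [← h]
    simp
  · have hpi := Real.pi_pos
    have hMa : 0 < M - a := by linarith
    have hma : a ∈ Icc (-(Real.pi / 2)) (Real.pi / 2) := ⟨by linarith, by linarith⟩
    have hmM : M ∈ Icc (-(Real.pi / 2)) (Real.pi / 2) := ⟨by linarith, h3⟩
    have hw1 : 0 ≤ (M - b) / (M - a) := div_nonneg (by linarith) hMa.le
    have hw2 : 0 ≤ (b - a) / (M - a) := div_nonneg (by linarith) hMa.le
    have hw3 : (M - b) / (M - a) + (b - a) / (M - a) = 1 := by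
      rw [← add_div, div_eq_one_iff_eq hMa.ne']
      ring
    have hc := strictConcaveOn_cos_Icc.concaveOn.2 hma hmM hw1 hw2 hw3
    have e1 : ((M - b) / (M - a)) • a + ((b - a) / (M - a)) • M = b := by
      simp only [smul_eq_mul]
      rw [div_mul_eq_mul_div, div_mul_eq_mul_div, ← add_div, div_eq_iff hMa.ne']
      ring
    rw [e1] at hc
    simp only [smul_eq_mul] at hc
    rw [div_mul_eq_mul_div, div_mul_eq_mul_div, ← add_div, div_le_iff₀ hMa] at hc
    linarith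

theorem SPU_lam {μ d : ℝ} (h0 : 0 < μ) (h1 : μ ≤ Real.pi / 2) (h2 : 0 ≤ d) (h3 : d ≤ μ) :
    2 * Real.sin μ * Real.cos d - Real.sin (2 * μ) ≤ Lam μ d := by
  have hpi := Real.pi_pos
  have hs : 0 < Real.sin μ := Real.sin_pos_of_pos_of_lt_pi h0 (by linarith)
  have hcd : Real.cos μ ≤ Real.cos d :=
    Real.cos_le_cos_of_nonneg_of_le_pi h2 (by linarith) h3
  have hcm : 0 ≤ Real.cos μ := Real.cos_nonneg_of_mem_Icc ⟨by linarith, h1⟩
  have hsd : 0 ≤ Real.sin d := Real.sin_nonneg_of_nonneg_of_le_pi h2 (by linarith)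
  have hN : 0 ≤ 2 * Real.sin μ * Real.cos d - Real.sin (2 * μ) := by
    rw [Real.sin_two_mul]
    nlinarith
  unfold Lam
  obtain ⟨M, hM⟩ : ∃ M, M = max (Real.sin (2 * μ)) (Real.sin (μ + d)) := ⟨_, rfl⟩
  rw [← hM]
  have hM1 : M ≤ 1 := by
    rw [hM]
    exact max_le (Real.sin_le_one _) (Real.sin_le_one _)
  rcases le_or_gt M 0 with h | h
  · have h4 : Real.sin (μ + d) ≤ 0 := by
      refine le_trans ?_ h
      rw [hM]
      exact le_max_right _ _
    rw [Real.sin_add] at h4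
    have h5 : 0 ≤ Real.cos μ * Real.sin d := mul_nonneg hcm hsd
    have h6 : 0 ≤ Real.sin μ * Real.cos μ := mul_nonneg hs.le hcm
    have h7 : 2 * Real.sin μ * Real.cos d - Real.sin (2 * μ) = 0 := by
      refine le_antisymm ?_ hN
      rw [Real.sin_two_mul]
      nlinarith
    rw [h7, zero_div]
  · rw [le_div_iff₀ h]
    nlinarith

theorem SPU_lam2 {μ d : ℝ} (h0 : 0 < μ) (h1 : μ ≤ Real.pi / 4) (h2 : 0 ≤ d) (h3 : d ≤ μ) :
    Real.cos d / Real.cos μ - 1 = Lam μ d := by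
  have hpi := Real.pi_pos
  have hs : 0 < Real.sin μ := Real.sin_pos_of_pos_of_lt_pi h0 (by linarith)
  have hc : 0 < Real.cos μ := Real.cos_pos_of_mem_Ioo ⟨by linarith, by linarith⟩
  have hm : Real.sin (μ + d) ≤ Real.sin (2 * μ) :=
    Real.sin_le_sin_of_le_of_le_pi_div_two (by linarith) (by linarith) (by linarith)
  unfold Lam
  rw [max_eq_left hm, Real.sin_two_mul]
  field_simp

/-- `1 / cos μ ≥ 1 + μ² / 2` -/
theorem SPU_sec {μ : ℝ} (h0 : 0 ≤ μ) (h1 : μ ≤ 1) :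
    1 + μ ^ 2 / 2 ≤ 1 / Real.cos μ := by
  have hpi := Real.pi_gt_three
  have hc : 0 < Real.cos μ := Real.cos_pos_of_mem_Ioo ⟨by linarith, by linarith⟩
  have hb := Real.cos_bound (x := μ) (by rw [abs_of_nonneg h0]; exact h1)
  rw [abs_of_nonneg h0] at hb
  have hb2 := (abs_le.1 hb).2
  rw [le_div_iff₀ hc]
  have h2 : 0 ≤ 1 + μ ^ 2 / 2 := by positivity
  have h3 : (1 + μ ^ 2 / 2) * Real.cos μ ≤ (1 + μ ^ 2 / 2) * (1 - μ ^ 2 / 2 + μ ^ 4 * (5 / 96)) :=
    mul_le_mul_of_nonneg_left (by linarith) h2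
  have h4 : μ ^ 2 ≤ 1 := by nlinarith
  have h5 : 0 ≤ μ ^ 4 := by positivity
  have h6 : μ ^ 4 * μ ^ 2 ≤ μ ^ 4 * 1 := mul_le_mul_of_nonneg_left h4 h5
  nlinarith

/-- the main numerical bound -/
theorem SPU_G {μ : ℝ} (h0 : Real.pi / 4 ≤ μ) (h1 : μ ≤ Real.pi / 2) :
    4819 / 1000 ≤ 3 * Real.pi / 2 + 1 + Real.pi / 8 - 3 * μ / 2 - Real.sin (2 * μ) +
      √2 * Real.sin μ := by
  obtain ⟨y, hy⟩ : ∃ y, y = μ - Real.pi / 4 := ⟨_, rfl⟩
  have hμ : μ = y + Real.pi / 4 := by rw [hy]; ring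
  have hp1 := Real.pi_gt_d4
  have hp2 := Real.pi_lt_d4
  have hy0 : 0 ≤ y := by linarith
  have hy1 : y ≤ 7854 / 10000 := by linarith
  have e1 : Real.sin (2 * μ) = 1 - 2 * Real.sin y ^ 2 := by
    have : 2 * μ = 2 * y + Real.pi / 2 := by rw [hμ]; ring
    rw [this, Real.sin_add_pi_div_two, Real.cos_two_mul, Real.cos_sq']
    ring
  have e2 : √2 * Real.sin μ = Real.sin y + Real.cos y := by
    rw [hμ, Real.sin_add, Real.sin_pi_div_four, Real.cos_pi_div_four]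
    have h22 : √2 * √2 = 2 := Real.mul_self_sqrt (by norm_num)
    have h23 : √2 * (Real.sin y * (√2 / 2) + Real.cos y * (√2 / 2)) =
        (√2 * √2) / 2 * (Real.sin y + Real.cos y) := by ring
    rw [h23, h22]
    ring
  rw [e1, e2]
  have hs : y - y ^ 3 / 4 ≤ Real.sin y := by
    rcases eq_or_lt_of_le hy0 with h | h
    · rw [← h]
      simp
    · have h5 := Real.sin_gt_sub_cube h
      have h6 : 0 ≤ y ^ 3 := by positivity
      linarith
  have hc := Real.one_sub_sq_div_two_le_cos (x := y)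
  have hs0 : 0 ≤ y - y ^ 3 / 4 := by
    have : 0 ≤ y * (1 - y ^ 2 / 4) := mul_nonneg hy0 (by nlinarith)
    nlinarith
  have hs2 : (y - y ^ 3 / 4) ^ 2 ≤ Real.sin y ^ 2 := pow_le_pow_left₀ hs0 hs 2
  have hpoly : 893 / 1000 ≤ 2 * (y - y ^ 3 / 4) ^ 2 + (y - y ^ 3 / 4) + (1 - y ^ 2 / 2) -
      3 * y / 2 := by
    have hyy : y ^ 2 ≤ (7854 / 10000) * y := by nlinarith
    have hy2 : 0 ≤ y ^ 2 := sq_nonneg y
    have hy3 : y ^ 3 ≤ (7854 / 10000) * y ^ 2 := by nlinarith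
    have hy4 : y ^ 4 ≤ (7854 / 10000) ^ 2 * y ^ 2 := by nlinarith
    have hy6 : 0 ≤ y ^ 6 := by positivity
    nlinarith [sq_nonneg (y - 1 / 3)]
  rw [hμ]
  nlinarith

theorem SPU_F1 {μ : ℝ} (h0 : Real.pi / 4 ≤ μ) (h1 : μ ≤ Real.pi / 2) :
    4819 / 1000 ≤ 3 * Real.pi / 2 + 1 - 3 * μ / 2 - Real.sin (2 * μ) +
      2 * Real.sin μ := by
  have h2 := SPU_G h0 h1
  have hp2 := Real.pi_lt_d4
  have hpi := Real.pi_pos
  have h3 : √2 / 2 ≤ Real.sin μ := by
    rw [← Real.sin_pi_div_four]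
    exact Real.sin_le_sin_of_le_of_le_pi_div_two (by linarith) h1 h0
  have h4 : √2 * √2 = 2 := Real.mul_self_sqrt (by norm_num)
  have h5 : 0 ≤ √2 := Real.sqrt_nonneg 2
  have h6 : √2 < 142 / 100 := by
    rw [Real.sqrt_lt' (by norm_num)]
    norm_num
  have h7 : 141 / 100 < √2 := by
    rw [Real.lt_sqrt (by norm_num)]
    norm_num
  have h8 : (2 - √2) * (√2 / 2) ≤ (2 - √2) * Real.sin μ :=
    mul_le_mul_of_nonneg_left h3 (by linarith)
  nlinarith

/-- on `[0, π/4]` -/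
theorem SPU_A {μ b k : ℝ} (h0 : Real.pi / 4 ≤ μ) (h1 : μ ≤ Real.pi / 2) (hb0 : 0 ≤ b)
    (hb1 : b ≤ Real.pi / 4) (hk : 3 * Real.pi / 2 + 1 ≤ k) :
    4819 / 1000 ≤ k - 3 * μ / 2 + b / 2 + (2 * Real.sin μ * Real.cos b - Real.sin (2 * μ)) := by
  have hG := SPU_G h0 h1
  have hF := SPU_F1 h0 h1
  have hpi := Real.pi_pos
  have hs : 0 ≤ Real.sin μ := Real.sin_nonneg_of_nonneg_of_le_pi (by linarith) (by linarith)
  have hc := SPU_cc (a := 0) (b := b) (M := Real.pi / 4) le_rfl hb0 hb1 (by linarith)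
  rw [Real.cos_zero, Real.cos_pi_div_four] at hc
  have hc2 := mul_le_mul_of_nonneg_left hc (show 0 ≤ 2 * Real.sin μ by linarith)
  have g1 := mul_le_mul_of_nonneg_left hF (show 0 ≤ Real.pi / 4 - b by linarith)
  have g2 := mul_le_mul_of_nonneg_left hG hb0
  have g3 := mul_le_mul_of_nonneg_left hk (show 0 ≤ Real.pi / 4 by linarith)
  have key : Real.pi / 4 * (4819 / 1000) ≤ Real.pi / 4 *
      (k - 3 * μ / 2 + b / 2 + (2 * Real.sin μ * Real.cos b - Real.sin (2 * μ))) := by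
    nlinarith
  exact le_of_mul_le_mul_left key (by linarith)

/-- on `[π/4, μ]` -/
theorem SPU_B {μ b : ℝ} (h1 : μ ≤ Real.pi / 2) (hb0 : Real.pi / 4 ≤ b) (hb1 : b ≤ μ) :
    4819 / 1000 ≤ Real.pi + 2 - 3 * μ / 2 + 3 * b / 2 +
      (2 * Real.sin μ * Real.cos b - Real.sin (2 * μ)) := by
  have hpi := Real.pi_pos
  have hp1 := Real.pi_gt_d4
  have hp2 := Real.pi_lt_d4
  have h0 : Real.pi / 4 ≤ μ := hb0.trans hb1
  have hG := SPU_G h0 h1
  rcases eq_or_lt_of_le h0 with h | h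
  · have hb : b = μ := le_antisymm hb1 (by rw [← h]; exact hb0)
    rw [hb, Real.sin_two_mul]
    linarith
  · have hs : 0 ≤ Real.sin μ := Real.sin_nonneg_of_nonneg_of_le_pi (by linarith) (by linarith)
    have hc := SPU_cc (a := Real.pi / 4) (b := b) (M := μ) (by linarith) hb0 hb1 h1
    rw [Real.cos_pi_div_four] at hc
    have hc2 := mul_le_mul_of_nonneg_left hc (show 0 ≤ 2 * Real.sin μ by linarith)
    have hG2 : 4819 / 1000 ≤ Real.pi + 2 - 3 * μ / 2 + 3 * (Real.pi / 4) / 2 +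
        (√2 * Real.sin μ - Real.sin (2 * μ)) := by linarith
    have g1 := mul_le_mul_of_nonneg_left hG2 (show 0 ≤ μ - b by linarith)
    have hH : 4819 / 1000 ≤ Real.pi + 2 - 3 * μ / 2 + 3 * μ / 2 +
        (2 * Real.sin μ * Real.cos μ - Real.sin (2 * μ)) := by
      rw [Real.sin_two_mul]
      linarith
    have g2 := mul_le_mul_of_nonneg_left hH (show 0 ≤ b - Real.pi / 4 by linarith)
    have key : (μ - Real.pi / 4) * (4819 / 1000) ≤ (μ - Real.pi / 4) *
        (Real.pi + 2 - 3 * μ / 2 + 3 * b / 2 +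
          (2 * Real.sin μ * Real.cos b - Real.sin (2 * μ))) := by
      nlinarith
    exact le_of_mul_le_mul_left key (by linarith)

/-- SPU. -/
theorem p_SPU : Stmt_SPU := by
  intro μ b1 b2 h0 h1 hb1 hb1' hb2 hb2'
  have hpi := Real.pi_pos
  have hp1 := Real.pi_gt_d4
  have hp2 := Real.pi_lt_d4
  have hmin1 : min s0 ((b1 + b2) / 2) ≤ (b1 + b2) / 2 := min_le_right _ _
  have hmin2 : min s0 ((b1 + b2) / 2) ≤ s0 := min_le_left _ _
  have hmax1 : Lam μ b1 ≤ max (Lam μ b1) (Lam μ b2) := le_max_left _ _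
  have hmax2 : Lam μ b2 ≤ max (Lam μ b1) (Lam μ b2) := le_max_right _ _
  have hs0 : s0 = Real.pi / 2 - 1 := rfl
  rcases le_total μ (Real.pi / 4) with hμ | hμ
  · have hL := SPU_lam2 h0 hμ hb1 hb1'
    have hc : 0 < Real.cos μ := Real.cos_pos_of_mem_Ioo ⟨by linarith, by linarith⟩
    have hsec := SPU_sec h0.le (by linarith)
    have hcc := SPU_cc (a := 0) (b := b1) (M := μ) le_rfl hb1 hb1' h1
    rw [Real.cos_zero] at hcc
    have h5 : (μ - b1) * (1 / Real.cos μ) + b1 ≤ μ * (Real.cos b1 / Real.cos μ) := by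
      have h6 : (μ - b1) * (1 / Real.cos μ) + b1 = ((μ - b1) * 1 + (b1 - 0) * Real.cos μ) /
          Real.cos μ := by
        field_simp
        ring
      rw [h6, ← mul_div_assoc]
      refine div_le_div_of_nonneg_right ?_ hc.le
      linarith
    have hA : 4819 / 1000 ≤ 3 * Real.pi / 2 - 3 * μ / 2 + 1 / Real.cos μ := by
      nlinarith
    have hB : 4819 / 1000 ≤ 3 * Real.pi / 2 - 3 * μ / 2 + μ / 2 + 1 := by linarith
    have g1 := mul_le_mul_of_nonneg_left hA (show 0 ≤ μ - b1 by linarith)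
    have g2 := mul_le_mul_of_nonneg_left hB hb1
    have key : μ * (4819 / 1000) ≤ μ * (3 * Real.pi / 2 - 3 * μ / 2 + b1 / 2 +
        Real.cos b1 / Real.cos μ) := by
      nlinarith
    have key2 := le_of_mul_le_mul_left key h0
    linarith
  · have hL1 := SPU_lam h0 h1 hb1 hb1'
    have hL2 := SPU_lam h0 h1 hb2 hb2'
    rcases le_total b1 (Real.pi / 4) with hb | hb
    · have h3 := SPU_A (k := 3 * Real.pi / 2 + 1) hμ h1 hb1 hb le_rfl
      linarith
    · rcases le_total b1 b2 with h | h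
      · have h3 := SPU_B h1 hb hb1'
        linarith
      · rcases le_total b2 (Real.pi / 4) with h' | h'
        · have h3 := SPU_A (k := Real.pi + 2 + Real.pi / 4) hμ h1 hb2 h' (by linarith)
          linarith
        · have h3 := SPU_B h1 h' hb2'
          linarith

end

end Pool.BA
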