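import Pool.Agent.Work.MP_655153_ba.Interface5

/-!
# Block SPZ of the blueprint of MP_655153_co (spike: the middle direction is not free)
-/

open MeasureTheory Set
open scoped Topology

namespace Pool.BA

/-- `pr` is continuous in the direction -/
theorem spz_cont (z : ℂ) : Continuous (fun θ => pr θ z) := by
  unfold pr
  fun_prop

/-- level of `Q` at a limit of free directions of `P` -/
theorem spz_level {P Q : List ℂ} {ε : ℝ} (hp : Pair P Q ε) (n : ℝ)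
    (hn : ∀ η > 0, ∃ θ, |θ - n| < η ∧ Free P θ) : ∃ z ∈ Q, pr n z ≤ 1 + ε := by
  by_contra hcon
  push Not at hcon
  have h1 : ∀ᶠ θ in 𝓝 n, ∀ z ∈ {z | z ∈ Q}, 1 + ε < pr θ z := by
    rw [Filter.eventually_all_finite (List.finite_toSet Q)]
    intro z hz
    exact (spz_cont z).continuousAt.eventually_const_lt (hcon z hz)
  rw [Metric.eventually_nhds_iff] at h1
  obtain ⟨η, hη, h1⟩ := h1
  obtain ⟨θ, hθ, hfree⟩ := hn η hη
  have h2 := h1 (y := θ) (by rw [Real.dist_eq]; exact hθ)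
  obtain ⟨q, hq, h3⟩ := hp.2.2.2.1 θ hfree
  have h4 : 1 + ε < pr θ q := h2 q hq
  rcases h3 with h3 | ⟨p, hpP, h3⟩
  · linarith
  · have := hfree p hpP
    linarith

theorem p_SPZ (hSPT : Stmt_SPT) (hROT : Stmt_ROT) : Stmt_SPZ := by
  intro P Q μ a' b' ε hF h0
  obtain ⟨-, -, -, -, -, hper, hopen, -⟩ := hROT
  have hμ := hF.mpos
  -- the point `n1`
  obtain ⟨S1, hS1⟩ : ∃ S : Set ℝ, S = {θ | -μ < θ ∧ θ < 0 ∧ Free P θ} := ⟨_, rfl⟩
  have hS1m : ∀ θ, θ ∈ S1 ↔ -μ < θ ∧ θ < 0 ∧ Free P θ := by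
    intro θ
    rw [hS1]
    exact Iff.rfl
  have hne1 : S1.Nonempty := by
    obtain ⟨θ, hθ, hf⟩ := hF.gapP.2.1 μ hμ
    refine ⟨θ, (hS1m θ).2 ⟨hθ.1, ?_, hf⟩⟩
    have := hθ.2
    linarith
  have hbd1 : BddAbove S1 := ⟨0, fun θ hθ => ((hS1m θ).1 hθ).2.1.le⟩
  obtain ⟨n1, hn1⟩ : ∃ x, x = sSup S1 := ⟨_, rfl⟩
  have hn1a : -μ < n1 := by
    obtain ⟨θ, hθ⟩ := hne1
    have h1 := le_csSup hbd1 hθ
    have h2 := ((hS1m θ).1 hθ).1
    rw [← hn1] at h1
    linarith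
  have hn1b : n1 ≤ 0 := by
    rw [hn1]
    exact csSup_le hne1 (fun θ hθ => ((hS1m θ).1 hθ).2.1.le)
  have hn1f : ¬ Free P n1 := by
    intro hf
    have hlt : n1 < 0 := by
      rcases hn1b.lt_or_eq with h | h
      · exact h
      · rw [h] at hf
        exact absurd hf h0
    obtain ⟨δ, hδ, hball⟩ := Metric.isOpen_iff.1 (hopen P) n1 hf
    have hmin : 0 < min (δ / 2) (-n1 / 2) := lt_min (by linarith) (by linarith)
    have hm1 := min_le_left (δ / 2) (-n1 / 2)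
    have hm2 := min_le_right (δ / 2) (-n1 / 2)
    have hfree : Free P (n1 + min (δ / 2) (-n1 / 2)) := by
      apply hball
      rw [Metric.mem_ball, Real.dist_eq, add_sub_cancel_left, abs_of_pos hmin]
      linarith
    have hmem : n1 + min (δ / 2) (-n1 / 2) ∈ S1 :=
      (hS1m _).2 ⟨by linarith, by linarith, hfree⟩
    have := le_csSup hbd1 hmem
    rw [← hn1] at this
    linarith
  have hacc1 : ∀ η > 0, ∃ θ ∈ Ioo (n1 - η) n1, Free P θ := by
    intro η hη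
    obtain ⟨θ, hθ, hlt⟩ := exists_lt_of_lt_csSup hne1 (show n1 - η < sSup S1 by rw [← hn1]; linarith)
    have hle := le_csSup hbd1 hθ
    rw [← hn1] at hle
    have hf := ((hS1m θ).1 hθ).2.2
    refine ⟨θ, ⟨hlt, lt_of_le_of_ne hle ?_⟩, hf⟩
    intro h
    rw [h] at hf
    exact hn1f hf
  -- the point `n2`
  obtain ⟨S2, hS2⟩ : ∃ S : Set ℝ, S = {θ | 0 < θ ∧ θ < μ ∧ Free P θ} := ⟨_, rfl⟩
  have hS2m : ∀ θ, θ ∈ S2 ↔ 0 < θ ∧ θ < μ ∧ Free P θ := by
    intro θ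
    rw [hS2]
    exact Iff.rfl
  have hne2 : S2.Nonempty := by
    obtain ⟨θ, hθ, hf⟩ := hF.gapP.2.2 μ hμ
    refine ⟨θ, (hS2m θ).2 ⟨?_, hθ.2, hf⟩⟩
    have := hθ.1
    linarith
  have hbd2 : BddBelow S2 := ⟨0, fun θ hθ => ((hS2m θ).1 hθ).1.le⟩
  obtain ⟨n2, hn2⟩ : ∃ x, x = sInf S2 := ⟨_, rfl⟩
  have hn2a : n2 < μ := by
    obtain ⟨θ, hθ⟩ := hne2
    have h1 := csInf_le hbd2 hθ
    have h2 := ((hS2m θ).1 hθ).2.1
    rw [← hn2] at h1
    linarith
  have hn2b : 0 ≤ n2 := by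
    rw [hn2]
    exact le_csInf hne2 (fun θ hθ => ((hS2m θ).1 hθ).1.le)
  have hn2f : ¬ Free P n2 := by
    intro hf
    have hlt : 0 < n2 := by
      rcases hn2b.lt_or_eq with h | h
      · exact h
      · rw [← h] at hf
        exact absurd hf h0
    obtain ⟨δ, hδ, hball⟩ := Metric.isOpen_iff.1 (hopen P) n2 hf
    have hmin : 0 < min (δ / 2) (n2 / 2) := lt_min (by linarith) (by linarith)
    have hm1 := min_le_left (δ / 2) (n2 / 2)
    have hm2 := min_le_right (δ / 2) (n2 / 2)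
    have hfree : Free P (n2 - min (δ / 2) (n2 / 2)) := by
      apply hball
      rw [Metric.mem_ball, Real.dist_eq, sub_sub_cancel_left, abs_neg, abs_of_pos hmin]
      linarith
    have hmem : n2 - min (δ / 2) (n2 / 2) ∈ S2 :=
      (hS2m _).2 ⟨by linarith, by linarith, hfree⟩
    have := csInf_le hbd2 hmem
    rw [← hn2] at this
    linarith
  have hacc2 : ∀ η > 0, ∃ θ ∈ Ioo n2 (n2 + η), Free P θ := by
    intro η hη
    obtain ⟨θ, hθ, hlt⟩ := exists_lt_of_csInf_lt hne2 (show sInf S2 < n2 + η by rw [← hn2]; linarith)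
    have hle := csInf_le hbd2 hθ
    rw [← hn2] at hle
    have hf := ((hS2m θ).1 hθ).2.2
    refine ⟨θ, ⟨lt_of_le_of_ne hle ?_, hlt⟩, hf⟩
    intro h
    rw [← h] at hf
    exact hn2f hf
  -- nothing is free in `[n1, n2]`
  have hcov : ∀ θ ∈ Icc n1 n2, ¬ Free P θ := by
    intro θ hθ hf
    have hθ1 := hθ.1
    have hθ2 := hθ.2
    rcases lt_trichotomy θ 0 with h | h | h
    · have hmem : θ ∈ S1 := (hS1m θ).2 ⟨by linarith, h, hf⟩
      have hle := le_csSup hbd1 hmem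
      rw [← hn1] at hle
      have heq : θ = n1 := le_antisymm hle hθ1
      rw [heq] at hf
      exact hn1f hf
    · rw [h] at hf
      exact h0 hf
    · have hmem : θ ∈ S2 := (hS2m θ).2 ⟨h, by linarith, hf⟩
      have hle := csInf_le hbd2 hmem
      rw [← hn2] at hle
      have heq : θ = n2 := le_antisymm hθ2 hle
      rw [heq] at hf
      exact hn2f hf
  have hQ : ∀ θ ∈ Icc (-μ) μ, ¬ Free Q θ := by
    intro θ hθ hf
    have h1 := hF.ha
    have h2 := hF.hb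
    have h3 := hθ.1
    have h4 := hθ.2
    exact hF.covQ (θ + 2 * Real.pi) ⟨by linarith, by linarith⟩ ((hper Q θ).2 hf)
  have hl1 : ∃ z ∈ Q, pr n1 z ≤ 1 + ε := by
    apply spz_level hF.pair
    intro η hη
    obtain ⟨θ, hθ, hf⟩ := hacc1 η hη
    refine ⟨θ, ?_, hf⟩
    have h1 := hθ.1
    have h2 := hθ.2
    rw [abs_lt]
    exact ⟨by linarith, by linarith⟩
  have hl2 : ∃ z ∈ Q, pr n2 z ≤ 1 + ε := by
    apply spz_level hF.pair
    intro η hη
    obtain ⟨θ, hθ, hf⟩ := hacc2 η hη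
    refine ⟨θ, ?_, hf⟩
    have h1 := hθ.1
    have h2 := hθ.2
    rw [abs_lt]
    exact ⟨by linarith, by linarith⟩
  exact hSPT P Q μ n1 n2 ε hμ hF.mle hn1a hn1b hn2b hn2a hF.epos.le hF.gapP hcov hacc1 hacc2
    hQ hl1 hl2

end Pool.BA
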