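import Pool.Agent.Work.MP_655153_ba.Interface3

open MeasureTheory Set

namespace Pool.BA

theorem p_ST : Stmt_ST := by
  intro x y z c c0 hx hy hc hz hd
  have hzy : dist z y = dist z (⟨2 * z.re - y.re, y.im⟩ : ℂ) := by
    rw [Complex.dist_eq_re_im, Complex.dist_eq_re_im]
    congr 1
    ring
  rw [hzy]
  refine le_trans ?_ (dist_triangle x z _)
  set d := dist x y with hdd
  have hd0 : 0 ≤ d := dist_nonneg
  have hsq : d ^ 2 = (x.re - y.re) ^ 2 + (x.im - y.im) ^ 2 := by
    rw [hdd, Complex.dist_eq_re_im, Real.sq_sqrt (by positivity)]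
  rw [Complex.dist_eq_re_im]
  apply Real.le_sqrt_of_sq_le
  show (d + (c - c0)) ^ 2 ≤ (x.re - (2 * z.re - y.re)) ^ 2 + (x.im - y.im) ^ 2
  rcases le_total x.re y.re with h | h
  · rw [abs_of_nonpos (by linarith)] at hd
    have h1 : 0 ≤ z.re - y.re := by linarith
    have h2 : c - c0 ≤ z.re - y.re := by linarith
    have h3 : 0 ≤ c - c0 := by linarith
    have h4 : (d + (c - c0)) ^ 2 ≤ (d + (z.re - y.re)) ^ 2 := by
      apply pow_le_pow_left₀ (by linarith)
      linarith
    nlinarith [mul_nonneg h1 (by linarith : 0 ≤ -(x.re - y.re) - d / 2), sq_nonneg (z.re - y.re)]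
  · rw [abs_of_nonneg (by linarith)] at hd
    have h1 : 0 ≤ z.re - x.re := by linarith
    have h2 : c - c0 ≤ z.re - x.re := by linarith
    have h3 : 0 ≤ c - c0 := by linarith
    have h4 : (d + (c - c0)) ^ 2 ≤ (d + (z.re - x.re)) ^ 2 := by
      apply pow_le_pow_left₀ (by linarith)
      linarith
    nlinarith [mul_nonneg h1 (by linarith : 0 ≤ (x.re - y.re) - d / 2), sq_nonneg (z.re - x.re)]

end Pool.BA
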