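import Pool.Agent.Work.MP_655153_ba.Interface2

open MeasureTheory Set

namespace Pool.BA

theorem SUBZ_mono {f : ℕ → ℝ} {m : ℕ} (h : ∀ i, i + 1 < m → f i < f (i + 1)) :
    ∀ i j, i < j → j < m → f i < f j := by
  intro i j
  induction j with
  | zero => intro h1; omega
  | succ j ih =>
    intro h1 h2
    rcases Nat.lt_succ_iff_lt_or_eq.1 h1 with h3 | h3
    · exact (ih h3 (by omega)).trans (h j h2)
    · rw [h3]; exact h j h2

theorem SUBZ_monoe {f : ℕ → ℝ} {m : ℕ} (h : ∀ i, i + 1 < m → f i < f (i + 1)) :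
    ∀ i j, i ≤ j → j < m → f i ≤ f j := by
  intro i j hij hj
  rcases hij.lt_or_eq with h1 | h1
  · exact (SUBZ_mono h i j h1 hj).le
  · rw [h1]

theorem SUBZ_lt {m : ℕ} {κ α : ℕ → ℝ} (hC : Chain m κ α)
    (hw : Rt κ α (m - 1) < Lf κ α 0 + 2 * Real.pi) {i j : ℕ} (hij : i < j) (hj : j < m) :
    V (κ i) (α i) ≠ V (κ j) (α j) := by
  intro h
  have hi : i < m := hij.trans hj
  have ci : 0 < Real.cos (α i) :=
    Real.cos_pos_of_mem_Ioo ⟨by linarith [hC.α0 i hi, Real.pi_pos], hC.α1 i hi⟩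
  have cj : 0 < Real.cos (α j) :=
    Real.cos_pos_of_mem_Ioo ⟨by linarith [hC.α0 j hj, Real.pi_pos], hC.α1 j hj⟩
  have hre : Real.cos (κ i) / Real.cos (α i) = Real.cos (κ j) / Real.cos (α j) :=
    congrArg Complex.re h
  have him : Real.sin (κ i) / Real.cos (α i) = Real.sin (κ j) / Real.cos (α j) :=
    congrArg Complex.im h
  rw [div_eq_div_iff ci.ne' cj.ne'] at hre him
  have s1 := Real.sin_sq_add_cos_sq (κ i)
  have s2 := Real.sin_sq_add_cos_sq (κ j)
  have hsq : Real.cos (α j) ^ 2 = Real.cos (α i) ^ 2 := by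
    have e1 : (Real.cos (κ i) * Real.cos (α j)) ^ 2 + (Real.sin (κ i) * Real.cos (α j)) ^ 2 =
        Real.cos (α j) ^ 2 := by
      have : (Real.cos (κ i) * Real.cos (α j)) ^ 2 + (Real.sin (κ i) * Real.cos (α j)) ^ 2 =
        (Real.sin (κ i) ^ 2 + Real.cos (κ i) ^ 2) * Real.cos (α j) ^ 2 := by ring
      rw [this, s1, one_mul]
    have e2 : (Real.cos (κ j) * Real.cos (α i)) ^ 2 + (Real.sin (κ j) * Real.cos (α i)) ^ 2 =
        Real.cos (α i) ^ 2 := by
      have : (Real.cos (κ j) * Real.cos (α i)) ^ 2 + (Real.sin (κ j) * Real.cos (α i)) ^ 2 =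
        (Real.sin (κ j) ^ 2 + Real.cos (κ j) ^ 2) * Real.cos (α i) ^ 2 := by ring
      rw [this, s2, one_mul]
    rw [← e1, ← e2, hre, him]
  have hcc : Real.cos (α i) = Real.cos (α j) := by
    have := (sq_eq_sq₀ cj.le ci.le).1 hsq
    exact this.symm
  have hα : α i = α j := by
    apply Real.injOn_cos ⟨hC.α0 i hi, ?_⟩ ⟨hC.α0 j hj, ?_⟩ hcc
    · linarith [hC.α1 i hi, Real.pi_pos]
    · linarith [hC.α1 j hj, Real.pi_pos]
  rw [hcc] at hre him
  have hck := mul_right_cancel₀ cj.ne' hre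
  have hsk := mul_right_cancel₀ cj.ne' him
  have hL := SUBZ_mono hC.l i j hij hj
  have hL0 := SUBZ_monoe hC.l 0 i (Nat.zero_le _) hi
  have hR := SUBZ_monoe hC.r j (m - 1) (by omega) (by omega)
  have a0 := hC.α0 i hi
  have a1 := hC.α0 j hj
  unfold Lf Rt at *
  have h1 : Real.cos (κ j - κ i) = 1 := by
    rw [Real.cos_sub, ← hck, ← hsk]
    nlinarith
  have h2 := (Real.cos_eq_one_iff_of_lt_of_lt (by linarith [Real.pi_pos]) (by linarith)).1 h1
  rw [hα] at hL
  linarith

theorem SUBZ_map {w : ℕ → ℂ} {g : ℂ → ℕ} {m : ℕ} (hg : ∀ i < m, g (w i) = i) {l : List ℂ}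
    (hl : ∀ x ∈ l, ∃ i < m, w i = x) : (l.map g).map w = l := by
  rw [List.map_map]
  conv_rhs => rw [← List.map_id l]
  apply List.map_congr_left
  intro x hx
  obtain ⟨i, hi, rfl⟩ := hl x hx
  show w (g (w i)) = w i
  rw [hg i hi]

theorem SUBZ_vis {w : ℕ → ℂ} {g : ℂ → ℕ} {m : ℕ} (hg : ∀ i < m, g (w i) = i) {l : List ℂ}
    (hn : l.Nodup) (hl : ∀ x, x ∈ l ↔ ∃ i < m, w i = x) : Visits m (l.map g) := by
  refine ⟨?_, ?_⟩
  · have h1 : ((l.map g).map w).Nodup := by
      rw [SUBZ_map hg (fun x hx => (hl x).1 hx)]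
      exact hn
    exact h1.of_map w
  · intro i
    rw [List.mem_map]
    constructor
    · rintro ⟨x, hx, rfl⟩
      obtain ⟨j, hj, rfl⟩ := (hl x).1 hx
      rwa [hg j hj]
    · intro hi
      exact ⟨w i, (hl _).2 ⟨i, hi, rfl⟩, hg i hi⟩

theorem p_SUBZ : Stmt_SUBZ := by
  classical
  intro P m κ α hC hP hw
  have hinj : ∀ i < m, ∀ j < m, V (κ i) (α i) = V (κ j) (α j) → i = j := by
    intro i hi j hj h
    rcases lt_trichotomy i j with h1 | h1 | h1
    · exact absurd h (SUBZ_lt hC hw h1 hj)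
    · exact h1
    · exact absurd h.symm (SUBZ_lt hC hw h1 hi)
  set w : ℕ → ℂ := fun i => V (κ i) (α i) with hwdef
  obtain ⟨g, hg⟩ : ∃ g : ℂ → ℕ, ∀ i < m, g (w i) = i := by
    refine ⟨fun x => if h : ∃ i, i < m ∧ w i = x then h.choose else 0, ?_⟩
    intro i hi
    have h : ∃ j, j < m ∧ w j = w i := ⟨i, hi, rfl⟩
    show (if h : ∃ j, j < m ∧ w j = w i then h.choose else 0) = i
    rw [dif_pos h]
    exact hinj _ h.choose_spec.1 _ hi h.choose_spec.2
  have hpts : ∀ p, pts κ α p = p.map w := fun p => rfl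
  refine ⟨?_, ?_⟩
  · set l := (P.filter (fun x => ∃ i < m, w i = x)).dedup with hl
    have hmem : ∀ x, x ∈ l ↔ ∃ i < m, w i = x := by
      intro x
      rw [hl, List.mem_dedup, List.mem_filter]
      constructor
      · rintro ⟨-, h⟩
        exact of_decide_eq_true h
      · rintro ⟨i, hi, rfl⟩
        exact ⟨hP i hi, decide_eq_true ⟨i, hi, rfl⟩⟩
    refine ⟨l.map g, SUBZ_vis hg (List.nodup_dedup _) hmem, ?_⟩
    rw [hpts, SUBZ_map hg (fun x hx => (hmem x).1 hx)]
    exact (List.dedup_sublist _).trans List.filter_sublist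
  · intro z hz
    by_cases hzT : ∃ i < m, w i = z
    · obtain ⟨i, hi, h⟩ := hzT
      exact Or.inl ⟨i, hi, h.symm⟩
    right
    set l := (P.filter (fun x => (∃ i < m, w i = x) ∨ x = z)).dedup with hl
    have hmem : ∀ x, x ∈ l ↔ (∃ i < m, w i = x) ∨ x = z := by
      intro x
      rw [hl, List.mem_dedup, List.mem_filter]
      constructor
      · rintro ⟨-, h⟩
        exact of_decide_eq_true h
      · intro h
        refine ⟨?_, decide_eq_true h⟩
        rcases h with ⟨i, hi, rfl⟩ | rfl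
        · exact hP i hi
        · exact hz
    have hnd : l.Nodup := List.nodup_dedup _
    have hsub : l.Sublist P := (List.dedup_sublist _).trans List.filter_sublist
    clear_value l
    obtain ⟨s, t, rfl⟩ := List.append_of_mem ((hmem z).2 (Or.inr rfl))
    have hnd' := List.nodup_append.1 hnd
    have hzs : z ∉ s := fun h => hnd'.2.2 z h z (List.mem_cons_self ..) rfl
    have hzt : z ∉ t := (List.nodup_cons.1 hnd'.2.1).1
    have hmem' : ∀ x, x ∈ s ++ t ↔ ∃ i < m, w i = x := by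
      intro x
      have h1 := hmem x
      rw [List.mem_append, List.mem_cons] at h1
      rw [List.mem_append]
      constructor
      · rintro (h | h)
        · rcases h1.1 (Or.inl h) with h2 | rfl
          · exact h2
          · exact absurd h hzs
        · rcases h1.1 (Or.inr (Or.inr h)) with h2 | rfl
          · exact h2
          · exact absurd h hzt
      · intro h
        rcases h1.2 (Or.inl h) with h2 | h2 | h2
        · exact Or.inl h2
        · exfalso
          apply hzT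
          rw [← h2]
          exact h
        · exact Or.inr h2
    have hnst : (s ++ t).Nodup := hnd.sublist
      (List.Sublist.append (List.Sublist.refl s) (List.sublist_cons_self z t))
    refine ⟨s.map g, t.map g, ?_, ?_⟩
    · rw [← List.map_append]
      exact SUBZ_vis hg hnst hmem'
    · rw [hpts, hpts, SUBZ_map hg (fun x hx => (hmem' x).1 (List.mem_append_left _ hx)),
        SUBZ_map hg (fun x hx => (hmem' x).1 (List.mem_append_right _ hx))]
      exact hsub

end Pool.BA
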