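import Pool.Agent.Work.MP_655153_ba.Interface2

/-!
# Block THREE: three points on a path (helper63)
-/

set_option autoImplicit false

open MeasureTheory Set
open scoped ENNReal

namespace Pool.BA

noncomputable section

open Pool.Agent.Work.MP_655153_co

/-- two different elements of a list form a sublist -/
theorem THREE_sub2 {l : List ℂ} {a b : ℂ} (ha : a ∈ l) (hb : b ∈ l) (hab : a ≠ b) :
    [a, b].Sublist l ∨ [b, a].Sublist l := by
  obtain ⟨l₁, l₂, rfl⟩ := List.append_of_mem ha
  rcases List.mem_append.1 hb with h | h
  · right
    exact List.Sublist.append (List.singleton_sublist.2 h)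
      ((List.nil_sublist l₂).cons_cons a)
  · rcases List.mem_cons.1 h with h | h
    · exact absurd h.symm hab
    · left
      exact ((List.singleton_sublist.2 h).cons_cons a).trans (List.sublist_append_right l₁ _)

theorem THREE_p3 (a b c : ℂ) : plen [a, b, c] = dist a b + dist b c := by
  simp [plen]

theorem p_THREE (hPLS : Stmt_PLS) : Stmt_THREE := by
  intro P x y z hx hy hz
  have hmono := hPLS.1
  have h0 : 0 ≤ plen P := by
    have := hmono [] P (List.nil_sublist P)
    simpa [plen] using this
  have h2 : ∀ a b : ℂ, a ∈ P → b ∈ P → dist a b ≤ plen P := by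
    intro a b ha hb
    by_cases hab : a = b
    · rw [hab, dist_self]
      exact h0
    · rcases THREE_sub2 ha hb hab with h | h
      · have := hmono _ _ h
        simpa [plen] using this
      · have := hmono _ _ h
        rw [dist_comm]
        simpa [plen] using this
  have h3 : ∀ a b c : ℂ, [a, b, c].Sublist P → dist a b + dist b c ≤ plen P := by
    intro a b c h
    have := hmono _ _ h
    rwa [THREE_p3] at this
  by_cases hxy : x = y
  · left
    rw [hxy, dist_self, zero_add]
    exact h2 y z hy hz
  by_cases hyz : y = z
  · left
    rw [← hyz, dist_self, add_zero]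
    exact h2 x y hx hy
  by_cases hxz : x = z
  · right; left
    rw [← hxz, dist_self, add_zero]
    exact h2 y x hy hx
  obtain ⟨l₁, l₂, hP⟩ := List.append_of_mem hy
  have hcase : ∀ w : ℂ, w ∈ P → w ≠ y → w ∈ l₁ ∨ w ∈ l₂ := by
    intro w hw hwy
    rw [hP] at hw
    rcases List.mem_append.1 hw with h | h
    · exact Or.inl h
    · rcases List.mem_cons.1 h with h | h
      · exact absurd h hwy
      · exact Or.inr h
  rcases hcase x hx hxy with hx1 | hx2
  · rcases hcase z hz (Ne.symm hyz) with hz1 | hz2
    · rcases THREE_sub2 hx1 hz1 hxz with h | h
      · right; right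
        refine h3 x z y ?_
        rw [hP]
        exact List.Sublist.append h ((List.nil_sublist l₂).cons_cons y)
      · right; left
        rw [add_comm, dist_comm x z, dist_comm y x]
        refine h3 z x y ?_
        rw [hP]
        exact List.Sublist.append h ((List.nil_sublist l₂).cons_cons y)
    · left
      refine h3 x y z ?_
      rw [hP]
      exact List.Sublist.append (List.singleton_sublist.2 hx1)
        ((List.singleton_sublist.2 hz2).cons_cons y)
  · rcases hcase z hz (Ne.symm hyz) with hz1 | hz2
    · left
      rw [add_comm, dist_comm y z, dist_comm x y]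
      refine h3 z y x ?_
      rw [hP]
      exact List.Sublist.append (List.singleton_sublist.2 hz1)
        ((List.singleton_sublist.2 hx2).cons_cons y)
    · rcases THREE_sub2 hx2 hz2 hxz with h | h
      · right; left
        refine h3 y x z ?_
        rw [hP]
        exact (h.cons_cons y).trans (List.sublist_append_right l₁ _)
      · right; right
        rw [add_comm, dist_comm z y, dist_comm x z]
        refine h3 y z x ?_
        rw [hP]
        exact (h.cons_cons y).trans (List.sublist_append_right l₁ _)

end

end Pool.BA
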