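import Pool.Agent.Work.MP_655153_ba.Interface5

/-!
# Block TL: lower bound for the constant

Linear and quadratic minorants with rational data: in `t` at `3/4`, in `μ` at `2 arctan (4/13)`.
-/

set_option autoImplicit false

open MeasureTheory Set

namespace Pool.BA

noncomputable section

theorem TL_hdU (x : ℝ) : HasDerivAt (fun x : ℝ =>
    (x - x ^ 3 / 3 + x ^ 5 / 5 - x ^ 7 / 7 + x ^ 9 / 9) - Real.arctan x)
    (x ^ 10 / (1 + x ^ 2)) x := by
  have h1 := Real.hasDerivAt_arctan x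
  have h2 : HasDerivAt (fun x : ℝ => x - x ^ 3 / 3 + x ^ 5 / 5 - x ^ 7 / 7 + x ^ 9 / 9)
      (1 - (3 : ℕ) * x ^ 2 / 3 + (5 : ℕ) * x ^ 4 / 5 - (7 : ℕ) * x ^ 6 / 7 +
      (9 : ℕ) * x ^ 8 / 9) x :=
    (((((hasDerivAt_id x).sub ((hasDerivAt_pow 3 x).div_const 3)).add
      ((hasDerivAt_pow 5 x).div_const 5)).sub ((hasDerivAt_pow 7 x).div_const 7)).add
      ((hasDerivAt_pow 9 x).div_const 9))
  have h3 := h2.sub h1
  have e : x ^ 10 / (1 + x ^ 2) = (1 - (3 : ℕ) * x ^ 2 / 3 +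
      (5 : ℕ) * x ^ 4 / 5 - (7 : ℕ) * x ^ 6 / 7 + (9 : ℕ) * x ^ 8 / 9) - 1 / (1 + x ^ 2) := by
    have h4 : (1 + x ^ 2 : ℝ) ≠ 0 := by positivity
    field_simp
    push_cast
    ring
  rw [e]
  exact h3

theorem TL_hdL (x : ℝ) : HasDerivAt (fun x : ℝ => Real.arctan x -
    (x - x ^ 3 / 3 + x ^ 5 / 5 - x ^ 7 / 7)) (x ^ 8 / (1 + x ^ 2)) x := by
  have h1 := Real.hasDerivAt_arctan x
  have h2 : HasDerivAt (fun x : ℝ => x - x ^ 3 / 3 + x ^ 5 / 5 - x ^ 7 / 7)
      (1 - (3 : ℕ) * x ^ 2 / 3 + (5 : ℕ) * x ^ 4 / 5 - (7 : ℕ) * x ^ 6 / 7) x :=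
    ((((hasDerivAt_id x).sub ((hasDerivAt_pow 3 x).div_const 3)).add
      ((hasDerivAt_pow 5 x).div_const 5)).sub ((hasDerivAt_pow 7 x).div_const 7))
  have h3 := h1.sub h2
  have e : x ^ 8 / (1 + x ^ 2) = 1 / (1 + x ^ 2) - (1 - (3 : ℕ) * x ^ 2 / 3 +
      (5 : ℕ) * x ^ 4 / 5 - (7 : ℕ) * x ^ 6 / 7) := by
    have h4 : (1 + x ^ 2 : ℝ) ≠ 0 := by positivity
    field_simp
    push_cast
    ring
  rw [e]
  exact h3

theorem TL_up (x : ℝ) (hx : 0 ≤ x) :
    Real.arctan x ≤ x - x ^ 3 / 3 + x ^ 5 / 5 - x ^ 7 / 7 + x ^ 9 / 9 := by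
  have h1 : Monotone (fun x : ℝ =>
      (x - x ^ 3 / 3 + x ^ 5 / 5 - x ^ 7 / 7 + x ^ 9 / 9) - Real.arctan x) := by
    refine monotone_of_deriv_nonneg (fun y => (TL_hdU y).differentiableAt) fun y => ?_
    rw [(TL_hdU y).deriv]
    positivity
  have h2 := h1 hx
  simp only [Real.arctan_zero] at h2
  norm_num at h2
  linarith

theorem TL_low (x : ℝ) (hx : 0 ≤ x) :
    x - x ^ 3 / 3 + x ^ 5 / 5 - x ^ 7 / 7 ≤ Real.arctan x := by
  have h1 : Monotone (fun x : ℝ => Real.arctan x -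
      (x - x ^ 3 / 3 + x ^ 5 / 5 - x ^ 7 / 7)) := by
    refine monotone_of_deriv_nonneg (fun y => (TL_hdL y).differentiableAt) fun y => ?_
    rw [(TL_hdL y).deriv]
    positivity
  have h2 := h1 hx
  simp only [Real.arctan_zero] at h2
  norm_num at h2
  linarith

/-- tangent line of the concave function `arctan` on `[0, ∞)` -/
theorem TL_tan (a t : ℝ) (ha : 0 ≤ a) (ht : 0 ≤ t) :
    Real.arctan t ≤ Real.arctan a + (t - a) / (1 + a ^ 2) := by
  have hd : ∀ x : ℝ, HasDerivAt (fun x : ℝ => (x - a) / (1 + a ^ 2) - Real.arctan x)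
      (1 / (1 + a ^ 2) - 1 / (1 + x ^ 2)) x := by
    intro x
    have h1 : HasDerivAt (fun x : ℝ => (x - a) / (1 + a ^ 2)) (1 / (1 + a ^ 2)) x :=
      ((hasDerivAt_id x).sub_const a).div_const _
    exact h1.sub (Real.hasDerivAt_arctan x)
  have hc : Continuous (fun x : ℝ => (x - a) / (1 + a ^ 2) - Real.arctan x) :=
    continuous_iff_continuousAt.2 fun x => (hd x).continuousAt
  have hA : AntitoneOn (fun x : ℝ => (x - a) / (1 + a ^ 2) - Real.arctan x) (Icc 0 a) := by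
    refine antitoneOn_of_deriv_nonpos (convex_Icc _ _) hc.continuousOn
      (fun x _ => (hd x).differentiableAt.differentiableWithinAt) fun x hx => ?_
    rw [interior_Icc] at hx
    rw [(hd x).deriv]
    have h1 : 1 / (1 + a ^ 2) ≤ 1 / (1 + x ^ 2) := by
      apply one_div_le_one_div_of_le (by positivity)
      nlinarith [hx.1, hx.2]
    linarith
  have hB : MonotoneOn (fun x : ℝ => (x - a) / (1 + a ^ 2) - Real.arctan x) (Ici a) := by
    refine monotoneOn_of_deriv_nonneg (convex_Ici _) hc.continuousOn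
      (fun x _ => (hd x).differentiableAt.differentiableWithinAt) fun x hx => ?_
    rw [interior_Ici] at hx
    rw [(hd x).deriv]
    have h1 : 1 / (1 + x ^ 2) ≤ 1 / (1 + a ^ 2) := by
      apply one_div_le_one_div_of_le (by positivity)
      have : a < x := hx
      nlinarith
    linarith
  rcases le_total t a with h | h
  · have h1 := hA (⟨ht, h⟩ : t ∈ Icc 0 a) (⟨ha, le_refl _⟩ : a ∈ Icc 0 a) h
    simp only [sub_self, zero_div] at h1
    linarith
  · have h1 := hB (mem_Ici.2 (le_refl a) : a ∈ Ici a) (h : t ∈ Ici a) h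
    simp only [sub_self, zero_div] at h1
    linarith

theorem TL_a34 : Real.arctan (3 / 4) = 2 * Real.arctan (1 / 3) := by
  rw [Real.two_mul_arctan (by norm_num) (by norm_num)]
  norm_num

/-- the function `2.56 t - (t - 3/4)² - 4 arctan t` has its minimum on `[1/10, 6/5]` at `3/4` -/
theorem TL_phi (t : ℝ) (h1 : 1 / 10 ≤ t) (h2 : t ≤ 6 / 5) :
    48 / 25 - 4 * Real.arctan (3 / 4) ≤
      64 / 25 * t - (t - 3 / 4) ^ 2 - 4 * Real.arctan t := by
  have hd : ∀ x : ℝ, HasDerivAt (fun x : ℝ => 64 / 25 * x - (x - 3 / 4) ^ 2 - 4 * Real.arctan x)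
      ((x - 3 / 4) * (-2 * x ^ 2 + 64 / 25 * x - 2 / 25) / (1 + x ^ 2)) x := by
    intro x
    have e1 : HasDerivAt (fun x : ℝ => 64 / 25 * x) (64 / 25 * 1) x :=
      (hasDerivAt_id x).const_mul _
    have e2 : HasDerivAt (fun x : ℝ => (x - 3 / 4) ^ 2) ((2 : ℕ) * (x - 3 / 4) ^ (2 - 1) * 1) x :=
      ((hasDerivAt_id x).sub_const _).pow 2
    have e3 : HasDerivAt (fun x : ℝ => 4 * Real.arctan x) (4 * (1 / (1 + x ^ 2))) x :=
      (Real.hasDerivAt_arctan x).const_mul _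
    have e4 := (e1.sub e2).sub e3
    have e : (x - 3 / 4) * (-2 * x ^ 2 + 64 / 25 * x - 2 / 25) / (1 + x ^ 2) =
        64 / 25 * 1 - (2 : ℕ) * (x - 3 / 4) ^ (2 - 1) * 1 - 4 * (1 / (1 + x ^ 2)) := by
      have h4 : (1 + x ^ 2 : ℝ) ≠ 0 := by positivity
      field_simp
      push_cast
      ring
    rw [e]
    exact e4
  have hc : Continuous (fun x : ℝ => 64 / 25 * x - (x - 3 / 4) ^ 2 - 4 * Real.arctan x) :=
    continuous_iff_continuousAt.2 fun x => (hd x).continuousAt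
  have hA : AntitoneOn (fun x : ℝ => 64 / 25 * x - (x - 3 / 4) ^ 2 - 4 * Real.arctan x)
      (Icc (1 / 10) (3 / 4)) := by
    refine antitoneOn_of_deriv_nonpos (convex_Icc _ _) hc.continuousOn
      (fun x _ => (hd x).differentiableAt.differentiableWithinAt) fun x hx => ?_
    rw [interior_Icc] at hx
    rw [(hd x).deriv]
    apply div_nonpos_of_nonpos_of_nonneg _ (by positivity)
    apply mul_nonpos_of_nonpos_of_nonneg (by linarith [hx.2])
    nlinarith [hx.1, hx.2, mul_pos (sub_pos.2 hx.1) (sub_pos.2 hx.2)]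
  have hB : MonotoneOn (fun x : ℝ => 64 / 25 * x - (x - 3 / 4) ^ 2 - 4 * Real.arctan x)
      (Icc (3 / 4) (6 / 5)) := by
    refine monotoneOn_of_deriv_nonneg (convex_Icc _ _) hc.continuousOn
      (fun x _ => (hd x).differentiableAt.differentiableWithinAt) fun x hx => ?_
    rw [interior_Icc] at hx
    rw [(hd x).deriv]
    apply div_nonneg _ (by positivity)
    apply mul_nonneg (by linarith [hx.1])
    nlinarith [hx.1, hx.2, mul_pos (sub_pos.2 hx.1) (sub_pos.2 hx.2)]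
  rcases le_total t (3 / 4) with h | h
  · have h3 := hA (⟨h1, h⟩ : t ∈ Icc (1 / 10 : ℝ) (3 / 4))
      (⟨by norm_num, le_refl _⟩ : (3 / 4 : ℝ) ∈ Icc (1 / 10 : ℝ) (3 / 4)) h
    norm_num at h3
    linarith
  · have h3 := hB (⟨le_refl _, by norm_num⟩ : (3 / 4 : ℝ) ∈ Icc (3 / 4 : ℝ) (6 / 5))
      (⟨h, h2⟩ : t ∈ Icc (3 / 4 : ℝ) (6 / 5)) h
    norm_num at h3
    linarith

/-- the quadratic minorant in `s` -/
theorem TL_h (s t : ℝ) (hs0 : 0 ≤ s) (hs1 : s ≤ 1) (ht : 0 < t) :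
    48 / 25 - 4 * Real.arctan (3 / 4) + 3 / 4 * (s - 14 / 25) - 1 / 4 * (s - 14 / 25) ^ 2 ≤
      (2 + s) * t - 4 * Real.arctan t := by
  have hL := TL_low (1 / 3) (by norm_num)
  have hL2 : (321745 / 1000000 : ℝ) ≤ Real.arctan (1 / 3) := by
    refine le_trans ?_ hL
    norm_num
  have hC := TL_a34
  rcases le_total t (53 / 100) with h | h
  · have h1 := TL_tan (4 / 7) t (by norm_num) ht.le
    have h2 : Real.arctan (4 / 7) ≤ 5215 / 10000 := by
      refine (TL_up (4 / 7) (by norm_num)).trans ?_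
      norm_num
    have h3 : 0 ≤ (1 - s) * (78 / 100 - t - s / 4) :=
      mul_nonneg (by linarith) (by linarith)
    have h4 : (t - 4 / 7) / (1 + (4 / 7 : ℝ) ^ 2) = 49 / 65 * t - 28 / 65 := by
      field_simp
      ring
    rw [h4] at h1
    have h5 : (2 + s) * t - 3 / 4 * (s - 14 / 25) + 1 / 4 * (s - 14 / 25) ^ 2 =
        3 * t - 2816 / 10000 + (1 - s) * (78 / 100 - t - s / 4) := by ring
    linarith
  rcases le_total t (103 / 100) with h' | h'
  · have h1 := TL_phi t (by linarith) (by linarith)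
    nlinarith [sq_nonneg ((s - 14 / 25) / 2 + (t - 3 / 4))]
  · have h1 := TL_tan 1 t (by norm_num) ht.le
    rw [Real.arctan_one] at h1
    have h3 : 0 ≤ s * (t - 103 / 100 + s / 4) :=
      mul_nonneg hs0 (by linarith)
    have h4 : (t - 1) / (1 + (1 : ℝ) ^ 2) = t / 2 - 1 / 2 := by ring
    rw [h4] at h1
    have h5 : (2 + s) * t - 3 / 4 * (s - 14 / 25) + 1 / 4 * (s - 14 / 25) ^ 2 =
        2 * t + 4984 / 10000 + s * (t - 103 / 100 + s / 4) := by ring
    have hpi := Real.pi_lt_d6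
    linarith

/-- the minorant in `μ` -/
def TL_Phi (μ : ℝ) : ℝ := -2 * μ - 945037 / 384800 * Real.cos μ + 3 / 4 * Real.sin μ -
  1 / 4 * (Real.sin μ - 14 / 25) ^ 2

theorem TL_Phid (μ : ℝ) : HasDerivAt TL_Phi (-2 + 945037 / 384800 * Real.sin μ +
    (103 / 100 - Real.sin μ / 2) * Real.cos μ) μ := by
  have e1 : HasDerivAt (fun x : ℝ => -2 * x) (-2 * 1) μ := (hasDerivAt_id μ).const_mul _
  have e2 : HasDerivAt (fun x : ℝ => 945037 / 384800 * Real.cos x)
      (945037 / 384800 * (-Real.sin μ)) μ := (Real.hasDerivAt_cos μ).const_mul _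
  have e3 : HasDerivAt (fun x : ℝ => 3 / 4 * Real.sin x) (3 / 4 * Real.cos μ) μ :=
    (Real.hasDerivAt_sin μ).const_mul _
  have e4 : HasDerivAt (fun x : ℝ => 1 / 4 * (Real.sin x - 14 / 25) ^ 2)
      (1 / 4 * ((2 : ℕ) * (Real.sin μ - 14 / 25) ^ (2 - 1) * Real.cos μ)) μ :=
    (((Real.hasDerivAt_sin μ).sub_const _).pow 2).const_mul _
  have e5 := ((e1.sub e2).add e3).sub e4
  have e : -2 + 945037 / 384800 * Real.sin μ + (103 / 100 - Real.sin μ / 2) * Real.cos μ =
      -2 * 1 - 945037 / 384800 * (-Real.sin μ) + 3 / 4 * Real.cos μ -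
        1 / 4 * ((2 : ℕ) * (Real.sin μ - 14 / 25) ^ (2 - 1) * Real.cos μ) := by
    push_cast
    ring
  rw [e]
  exact e5

theorem TL_sq (s : ℝ) : (103 / 100 - s / 2) ^ 2 * (1 - s ^ 2) - (2 - 945037 / 384800 * s) ^ 2 =
    (s - 104 / 185) * (1087467 / 208000 - 27439801 / 4326400 * s + 3291 / 3700 * s ^ 2 -
      1 / 4 * s ^ 3) := by
  ring

/-- the constants of the point `2 arctan (4/13)` -/
theorem TL_point : 0 < 2 * Real.arctan (4 / 13) ∧ 2 * Real.arctan (4 / 13) < Real.pi / 2 ∧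
    Real.sin (2 * Real.arctan (4 / 13)) = 104 / 185 ∧
    Real.cos (2 * Real.arctan (4 / 13)) = 153 / 185 := by
  have hA0 : 0 < Real.arctan (4 / 13) := Real.arctan_pos.2 (by norm_num)
  have hA1 : Real.arctan (4 / 13) < Real.pi / 4 := by
    rw [← Real.arctan_one]
    exact Real.arctan_strictMono (by norm_num)
  have hcos : 0 < Real.cos (Real.arctan (4 / 13)) := Real.cos_arctan_pos _
  have ht : Real.sin (Real.arctan (4 / 13)) = 4 / 13 * Real.cos (Real.arctan (4 / 13)) := by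
    have h1 := Real.tan_arctan (4 / 13)
    rw [Real.tan_eq_sin_div_cos, div_eq_iff hcos.ne'] at h1
    exact h1
  have hc2 : Real.cos (Real.arctan (4 / 13)) ^ 2 = 169 / 185 := by
    have h1 := Real.sin_sq_add_cos_sq (Real.arctan (4 / 13))
    rw [ht] at h1
    nlinarith [h1]
  have hsin : Real.sin (2 * Real.arctan (4 / 13)) = 104 / 185 := by
    rw [Real.sin_two_mul, ht]
    nlinarith [hc2]
  have hcos2 : Real.cos (2 * Real.arctan (4 / 13)) = 153 / 185 := by
    rw [Real.cos_two_mul, hc2]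
    norm_num
  exact ⟨by linarith, by linarith, hsin, hcos2⟩

theorem TL_R (s : ℝ) (h1 : 945037 / 384800 * s ≤ 2) :
    0 ≤ 1087467 / 208000 - 27439801 / 4326400 * s + 3291 / 3700 * s ^ 2 - 1 / 4 * s ^ 3 := by
  have h2 : s ≤ 8144 / 10000 := by linarith
  have h3 : 0 ≤ s ^ 2 * (3291 / 3700 - 1 / 4 * s) :=
    mul_nonneg (sq_nonneg _) (by linarith)
  nlinarith

/-- the minorant in `μ` has its minimum at `2 arctan (4/13)` -/
theorem TL_min (μ : ℝ) (h0 : 0 ≤ μ) (h1 : μ ≤ Real.pi / 2) :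
    TL_Phi (2 * Real.arctan (4 / 13)) ≤ TL_Phi μ := by
  obtain ⟨hp0, hp1, hps, hpc⟩ := TL_point
  have hc : Continuous TL_Phi :=
    continuous_iff_continuousAt.2 fun x => (TL_Phid x).continuousAt
  have hA : AntitoneOn TL_Phi (Icc 0 (2 * Real.arctan (4 / 13))) := by
    refine antitoneOn_of_deriv_nonpos (convex_Icc _ _) hc.continuousOn
      (fun x _ => (TL_Phid x).differentiableAt.differentiableWithinAt) fun x hx => ?_
    rw [interior_Icc] at hx
    rw [(TL_Phid x).deriv]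
    have hs0 : 0 ≤ Real.sin x := Real.sin_nonneg_of_nonneg_of_le_pi hx.1.le
      (by linarith [hx.2, Real.pi_pos])
    have hs1 : Real.sin x ≤ 104 / 185 := by
      rw [← hps]
      exact Real.sin_le_sin_of_le_of_le_pi_div_two (by linarith [hx.1, Real.pi_pos]) hp1.le hx.2.le
    have hR := TL_R (Real.sin x) (by linarith)
    have hsq := TL_sq (Real.sin x)
    have hcs : 1 - Real.sin x ^ 2 = Real.cos x ^ 2 := by
      linarith [Real.sin_sq_add_cos_sq x]
    rw [hcs] at hsq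
    have h3 : ((103 / 100 - Real.sin x / 2) * Real.cos x) ^ 2 ≤
        (2 - 945037 / 384800 * Real.sin x) ^ 2 := by
      have h4 := mul_nonneg (sub_nonneg.2 hs1) hR
      rw [mul_pow]
      linarith
    have h5 := abs_le_of_sq_le_sq' h3 (by linarith)
    linarith [h5.2]
  have hB : MonotoneOn TL_Phi (Icc (2 * Real.arctan (4 / 13)) (Real.pi / 2)) := by
    refine monotoneOn_of_deriv_nonneg (convex_Icc _ _) hc.continuousOn
      (fun x _ => (TL_Phid x).differentiableAt.differentiableWithinAt) fun x hx => ?_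
    rw [interior_Icc] at hx
    rw [(TL_Phid x).deriv]
    have hs1 : Real.sin x ≤ 1 := Real.sin_le_one x
    have hs2 : 104 / 185 ≤ Real.sin x := by
      rw [← hps]
      exact Real.sin_le_sin_of_le_of_le_pi_div_two (by linarith [Real.pi_pos]) hx.2.le hx.1.le
    have hc0 : 0 ≤ Real.cos x := Real.cos_nonneg_of_neg_pi_div_two_le_of_le
      (by linarith [hx.1, Real.pi_pos]) hx.2.le
    have hm : 0 ≤ (103 / 100 - Real.sin x / 2) * Real.cos x :=
      mul_nonneg (by linarith) hc0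
    rcases le_total 2 (945037 / 384800 * Real.sin x) with h | h
    · linarith
    have hR := TL_R (Real.sin x) h
    have hsq := TL_sq (Real.sin x)
    have hcs : 1 - Real.sin x ^ 2 = Real.cos x ^ 2 := by
      linarith [Real.sin_sq_add_cos_sq x]
    rw [hcs] at hsq
    have h3 : (2 - 945037 / 384800 * Real.sin x) ^ 2 ≤
        ((103 / 100 - Real.sin x / 2) * Real.cos x) ^ 2 := by
      have h4 := mul_nonneg (sub_nonneg.2 hs2) hR
      rw [mul_pow]
      linarith
    have h5 := abs_le_of_sq_le_sq' h3 hm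
    linarith [h5.2]
  rcases le_total μ (2 * Real.arctan (4 / 13)) with h | h
  · exact hA ⟨h0, h⟩ ⟨hp0.le, le_refl _⟩ h
  · exact hB ⟨le_refl _, hp1.le⟩ ⟨h, h1⟩ h

theorem TL_arrow (μ t : ℝ) (h0 : 0 < μ) (h1 : μ < Real.pi / 2) (ht : 0 < t) :
    481891 / 100000 ≤ bowArrow μ t := by
  have hc : 0 < Real.cos μ := Real.cos_pos_of_mem_Ioo ⟨by linarith, h1⟩
  have hs0 : 0 < Real.sin μ := Real.sin_pos_of_pos_of_lt_pi h0 (by linarith [Real.pi_pos])
  have hA := TL_h (Real.sin μ) t hs0.le (Real.sin_le_one μ) ht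
  have hM := TL_min μ h0.le h1.le
  obtain ⟨hp0, hp1, hps, hpc⟩ := TL_point
  unfold TL_Phi at hM
  rw [hps, hpc] at hM
  have e1 : Real.tan μ * Real.sin μ = 1 / Real.cos μ - Real.cos μ := by
    rw [Real.tan_eq_sin_div_cos]
    field_simp
    linarith [Real.sin_sq_add_cos_sq μ]
  have e2 : 2 * (603307 / 500000) - (603307 / 500000) ^ 2 * Real.cos μ ≤ 1 / Real.cos μ := by
    rw [le_div_iff₀ hc]
    nlinarith [sq_nonneg (1 - 603307 / 500000 * Real.cos μ)]
  have e3 : (603307 / 500000 : ℝ) ^ 2 * Real.cos μ ≤ (945037 / 384800 - 1) * Real.cos μ :=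
    mul_le_mul_of_nonneg_right (by norm_num) hc.le
  have hU1 := TL_up (1 / 3) (by norm_num)
  have hU2 := TL_up (4 / 13) (by norm_num)
  have hpi := Real.pi_gt_d6
  have hC := TL_a34
  unfold bowArrow
  have e4 : (Real.tan μ + t) * Real.sin μ = 1 / Real.cos μ - Real.cos μ + t * Real.sin μ := by
    rw [add_mul, e1]
  rw [e4]
  norm_num at hU1 hU2 hpi
  have e5 : (2 + Real.sin μ) * t = 2 * t + t * Real.sin μ := by ring
  rw [e5, hC] at hA
  norm_num at hM
  linarith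

theorem p_TL : Stmt_TL := by
  have h : (481891 / 100000 : ℝ) ≤ Tstar := by
    refine le_csInf ⟨bowArrow 1 1, 1, 1, by norm_num, ?_, by norm_num, ?_, rfl⟩ ?_
    · linarith [Real.pi_gt_three]
    · rw [Real.arctan_one]
      linarith [Real.pi_gt_three]
    · rintro y ⟨μ, t, h1, h2, h3, h4, rfl⟩
      exact TL_arrow μ t h1 h2 h3
  show (48189 / 10000 : ℝ) < Tstar
  have : (48189 / 10000 : ℝ) < 481891 / 100000 := by norm_num
  linarith

end

end Pool.BA
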