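import Pool.Agent.Work.MP_655153_ba.Interface2

set_option autoImplicit false

/-! # Block TU: the numeric upper bound

The point `t = 3/4 = tan (2 arctan (1/3))`, `μ = 2 arctan (4/13)`. -/

open MeasureTheory Set
open scoped ENNReal

namespace Pool.BA

noncomputable section

theorem TU_hd (x : ℝ) : HasDerivAt (fun x : ℝ => Real.arctan x -
    (x - x ^ 3 / 3 + x ^ 5 / 5 - x ^ 7 / 7 + x ^ 9 / 9 - x ^ 11 / 11)) (x ^ 12 / (1 + x ^ 2)) x := by
  have h1 := Real.hasDerivAt_arctan x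
  have h2 : HasDerivAt (fun x : ℝ => x - x ^ 3 / 3 + x ^ 5 / 5 - x ^ 7 / 7 + x ^ 9 / 9 -
      x ^ 11 / 11) (1 - (3 : ℕ) * x ^ 2 / 3 + (5 : ℕ) * x ^ 4 / 5 - (7 : ℕ) * x ^ 6 / 7 +
      (9 : ℕ) * x ^ 8 / 9 - (11 : ℕ) * x ^ 10 / 11) x :=
    ((((((hasDerivAt_id x).sub ((hasDerivAt_pow 3 x).div_const 3)).add
      ((hasDerivAt_pow 5 x).div_const 5)).sub ((hasDerivAt_pow 7 x).div_const 7)).add
      ((hasDerivAt_pow 9 x).div_const 9)).sub ((hasDerivAt_pow 11 x).div_const 11))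
  have h3 := h1.sub h2
  have e : x ^ 12 / (1 + x ^ 2) = 1 / (1 + x ^ 2) - (1 - (3 : ℕ) * x ^ 2 / 3 +
      (5 : ℕ) * x ^ 4 / 5 - (7 : ℕ) * x ^ 6 / 7 + (9 : ℕ) * x ^ 8 / 9 - (11 : ℕ) * x ^ 10 / 11) := by
    have h4 : (1 + x ^ 2 : ℝ) ≠ 0 := by positivity
    field_simp
    push_cast
    ring
  rw [e]
  exact h3

theorem TU_low (x : ℝ) (hx : 0 ≤ x) :
    x - x ^ 3 / 3 + x ^ 5 / 5 - x ^ 7 / 7 + x ^ 9 / 9 - x ^ 11 / 11 ≤ Real.arctan x := by
  have h1 : Monotone (fun x : ℝ => Real.arctan x -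
      (x - x ^ 3 / 3 + x ^ 5 / 5 - x ^ 7 / 7 + x ^ 9 / 9 - x ^ 11 / 11)) := by
    refine monotone_of_deriv_nonneg (fun y => (TU_hd y).differentiableAt) fun y => ?_
    rw [(TU_hd y).deriv]
    positivity
  have h2 := h1 hx
  simp only [Real.arctan_zero] at h2
  norm_num at h2
  linarith

theorem TU_bdd : BddBelow {y | ∃ μ t, 0 < μ ∧ μ < Real.pi / 2 ∧ 0 < t ∧
    4 * Real.arctan t < 2 * Real.pi - 2 * μ ∧ y = bowArrow μ t} := by
  refine ⟨0, ?_⟩
  rintro y ⟨μ, t, h1, h2, h3, h4, rfl⟩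
  have h5 : 0 < Real.tan μ := Real.tan_pos_of_pos_of_lt_pi_div_two h1 h2
  have h6 : 0 < Real.sin μ := Real.sin_pos_of_pos_of_lt_pi h1 (by linarith [Real.pi_pos])
  have h7 : 0 < (Real.tan μ + t) * Real.sin μ := mul_pos (by linarith) h6
  unfold bowArrow
  linarith

theorem p_TU : Stmt_TU := by
  have hA := TU_low (4 / 13) (by norm_num)
  have hB := TU_low (1 / 3) (by norm_num)
  have hpi := Real.pi_lt_d6
  have hpi0 := Real.pi_pos
  have hA0 : 0 < Real.arctan (4 / 13) := Real.arctan_pos.2 (by norm_num)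
  have hA1 : Real.arctan (4 / 13) < Real.pi / 4 := by
    rw [← Real.arctan_one]
    exact Real.arctan_strictMono (by norm_num)
  have hB1 : Real.arctan (3 / 4) < Real.pi / 4 := by
    rw [← Real.arctan_one]
    exact Real.arctan_strictMono (by norm_num)
  have hC : Real.arctan (3 / 4) = 2 * Real.arctan (1 / 3) := by
    rw [Real.two_mul_arctan (by norm_num) (by norm_num)]
    norm_num
  have hcos : 0 < Real.cos (Real.arctan (4 / 13)) := Real.cos_arctan_pos _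
  have ht : Real.sin (Real.arctan (4 / 13)) = 4 / 13 * Real.cos (Real.arctan (4 / 13)) := by
    have h1 := Real.tan_arctan (4 / 13)
    rw [Real.tan_eq_sin_div_cos, div_eq_iff hcos.ne'] at h1
    exact h1
  have hc2 : Real.cos (Real.arctan (4 / 13)) ^ 2 = 169 / 185 := by
    have h1 := Real.sin_sq_add_cos_sq (Real.arctan (4 / 13))
    rw [ht] at h1
    nlinarith [h1]
  have hsin : Real.sin (2 * Real.arctan (4 / 13)) = 104 / 185 := by
    rw [Real.sin_two_mul, ht]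
    nlinarith [hc2]
  have hcos2 : Real.cos (2 * Real.arctan (4 / 13)) = 153 / 185 := by
    rw [Real.cos_two_mul, hc2]
    norm_num
  have htan : Real.tan (2 * Real.arctan (4 / 13)) = 104 / 153 := by
    rw [Real.tan_eq_sin_div_cos, hsin, hcos2]
    norm_num
  have h1 : Tstar ≤ bowArrow (2 * Real.arctan (4 / 13)) (3 / 4) := by
    refine csInf_le TU_bdd ⟨2 * Real.arctan (4 / 13), 3 / 4, by linarith, by linarith,
      by norm_num, by linarith, rfl⟩
  refine h1.trans ?_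
  unfold bowArrow
  rw [htan, hsin, hC]
  norm_num at hA hB ⊢
  linarith

end

end Pool.BA
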