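import Pool.Agent.Work.MP_655153_ba.Interface5

/-! # Block TWO: HU when the free set has at least two components -/

open MeasureTheory Set
open scoped ENNReal

namespace Pool.BA

noncomputable section

/-- left ends increase -/
theorem TWO_L {m : ℕ} {κ α : ℕ → ℝ} (hC : Chain m κ α) {i j : ℕ} (hij : i ≤ j) (hj : j < m) :
    Lf κ α i ≤ Lf κ α j := by
  induction j, hij using Nat.le_induction with
  | base => exact le_rfl
  | succ j hij ih => exact (ih (by omega)).trans (hC.l j hj).le

/-- right ends increase -/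
theorem TWO_R {m : ℕ} {κ α : ℕ → ℝ} (hC : Chain m κ α) {i j : ℕ} (hij : i ≤ j) (hj : j < m) :
    Rt κ α i ≤ Rt κ α j := by
  induction j, hij using Nat.le_induction with
  | base => exact le_rfl
  | succ j hij ih => exact (ih (by omega)).trans (hC.r j hj).le

theorem TWO_LR {m : ℕ} {κ α : ℕ → ℝ} (hC : Chain m κ α) {i : ℕ} (hi : i < m) :
    Lf κ α i ≤ Rt κ α i := by
  have := hC.α0 i hi
  unfold Lf Rt
  linarith

/-- TWO. -/
theorem p_TWO (hHUL : Stmt_HUL) (hROT : Stmt_ROT) : Stmt_TWO := by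
  intro P hP
  obtain ⟨-, -, -, -, -, hper, -, -⟩ := hROT
  obtain ⟨a, b, c, d, hab, hbc, hcd, hda, hFa, hFb, hFc, hFd⟩ := hP
  have hpi := Real.pi_pos
  obtain ⟨m, κ, α, hm, hC, hL, hR, -, hcov, hHU⟩ := hHUL P a hFa ⟨b, hFb⟩
  have hper' : ∀ θ, Free P (θ - 2 * Real.pi) ↔ Free P θ := by
    intro θ
    rw [← hper P (θ - 2 * Real.pi), sub_add_cancel]
  obtain ⟨i, him, hi1, hi2⟩ := (hcov b ⟨by linarith, by linarith⟩).1 hFb
  obtain ⟨j, hjm, hj1, hj2⟩ := (hcov d ⟨by linarith, by linarith⟩).1 hFd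
  have hc : ∀ k < m, Lf κ α k ≤ c → Rt κ α k < c := by
    intro k hk h1
    by_contra hcon
    push Not at hcon
    exact (hcov c ⟨by linarith, by linarith⟩).2 ⟨k, hk, h1, hcon⟩ hFc
  have hex : ∃ s, s < m ∧ c < Lf κ α s := by
    refine ⟨j, hjm, ?_⟩
    by_contra hcon
    push Not at hcon
    have := hc j hjm hcon
    linarith
  classical
  obtain ⟨s, hsm, hsc, hmin⟩ : ∃ s, s < m ∧ c < Lf κ α s ∧ ∀ k < s, Lf κ α k ≤ c := by
    refine ⟨Nat.find hex, (Nat.find_spec hex).1, (Nat.find_spec hex).2, fun k hk => ?_⟩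
    have h1 := Nat.find_min hex hk
    have h2 := (Nat.find_spec hex).1
    by_contra hcon
    push Not at hcon
    exact h1 ⟨by omega, hcon⟩
  have hs0 : 0 < s := by
    rcases Nat.eq_zero_or_pos s with h | h
    · exfalso
      rw [h] at hsc
      have := TWO_L hC (Nat.zero_le i) him
      linarith
    · exact h
  have hs1 : Rt κ α (s - 1) < c := hc (s - 1) (by omega) (hmin (s - 1) (by omega))
  have hcase : 3 ≤ m ∨ (m = 2 ∧ Rt κ α 0 < Lf κ α 1) := by
    rcases Nat.lt_or_ge m 3 with h | h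
    · right
      have h2 : m = 2 := by omega
      have h3 : s = 1 := by omega
      refine ⟨h2, ?_⟩
      rw [h3] at hsc hs1
      exact hs1.trans hsc
    · exact Or.inl h
  rcases hHU hcase with h | ⟨k, hk, hg, hlen⟩
  · exact Or.inl h
  · right
    rcases Nat.eq_zero_or_pos k with hk0 | hk0
    · subst hk0
      have hgap : gap κ α m 0 = Lf κ α 0 + 2 * Real.pi - Rt κ α (m - 1) := by
        unfold gap
        rw [if_pos rfl]
      have hprd : prd m 0 = m - 1 := by
        unfold prd
        rw [if_pos rfl]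
      rw [hgap] at hg hlen
      rw [hprd] at hlen
      have hLm : Lf κ α 0 ≤ Lf κ α (m - 1) := TWO_L hC (Nat.zero_le _) (by omega)
      have hLRm := TWO_LR hC (show m - 1 < m by omega)
      have hLR0 := TWO_LR hC hm
      have h0m : Rt κ α 0 ≤ Rt κ α (m - 1) := TWO_R hC (Nat.zero_le _) (by omega)
      have h0s : Rt κ α 0 ≤ Rt κ α (s - 1) := TWO_R hC (Nat.zero_le _) (by omega)
      have hsm1 : Lf κ α s ≤ Lf κ α (m - 1) := TWO_L hC (by omega) (by omega)
      have e0 : Lf κ α 0 + 2 * α 0 = Rt κ α 0 := by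
        unfold Lf Rt
        ring
      have e1 : Rt κ α (m - 1) - 2 * α (m - 1) = Lf κ α (m - 1) := by
        unfold Lf Rt
        ring
      refine ⟨Rt κ α (m - 1), Lf κ α 0 + 2 * Real.pi, α 0, α (m - 1), c + 2 * Real.pi,
        by linarith, hC.α0 0 hm, hC.α1 0 hm, hC.α0 _ (by omega), hC.α1 _ (by omega), ?_, ?_, ?_,
        by linarith, by linarith, (hper P c).2 hFc, by linarith⟩
      · rintro θ ⟨h1, h2⟩
        rcases le_or_gt θ (a + 2 * Real.pi) with h3 | h3
        · by_contra hcon
          obtain ⟨i', hi', h4, h5⟩ := (hcov θ ⟨by linarith, h3⟩).1 hcon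
          have := TWO_R hC (show i' ≤ m - 1 by omega) (by omega)
          linarith
        · rw [← hper' θ]
          by_contra hcon
          obtain ⟨i', hi', h4, h5⟩ := (hcov (θ - 2 * Real.pi)
            ⟨by linarith, by linarith⟩).1 hcon
          have := TWO_L hC (Nat.zero_le i') hi'
          linarith
      · rintro θ ⟨h1, h2⟩ hF
        rw [← hper' θ] at hF
        exact (hcov (θ - 2 * Real.pi) ⟨by linarith, by linarith⟩).2
          ⟨0, hm, by linarith, by linarith⟩ hF
      · rintro θ ⟨h1, h2⟩ hF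
        rw [← hper' θ] at hF
        exact (hcov (θ - 2 * Real.pi) ⟨by linarith, by linarith⟩).2
          ⟨m - 1, by omega, by linarith, by linarith⟩ hF
    · have hgap : gap κ α m k = Lf κ α k - Rt κ α (k - 1) := by
        unfold gap
        rw [if_neg (by omega)]
      have hprd : prd m k = k - 1 := by
        unfold prd
        rw [if_neg (by omega)]
      rw [hgap] at hg hlen
      rw [hprd] at hlen
      have hk1 : k - 1 < m := by omega
      have hL0 : Lf κ α 0 ≤ Lf κ α (k - 1) := TWO_L hC (Nat.zero_le _) hk1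
      have hLR := TWO_LR hC hk1
      have hLRk := TWO_LR hC hk
      have hRm : Rt κ α k ≤ Rt κ α (m - 1) := TWO_R hC (by omega) (by omega)
      have e0 : Lf κ α k + 2 * α k = Rt κ α k := by
        unfold Lf Rt
        ring
      have e1 : Rt κ α (k - 1) - 2 * α (k - 1) = Lf κ α (k - 1) := by
        unfold Lf Rt
        ring
      refine ⟨Rt κ α (k - 1), Lf κ α k, α k, α (k - 1), a + 2 * Real.pi,
        by linarith, hC.α0 k hk, hC.α1 k hk, hC.α0 _ hk1, hC.α1 _ hk1, ?_, ?_, ?_,
        by linarith, by linarith, (hper P a).2 hFa, by linarith⟩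
      · rintro θ ⟨h1, h2⟩
        by_contra hcon
        obtain ⟨i', hi', h4, h5⟩ := (hcov θ ⟨by linarith, by linarith⟩).1 hcon
        rcases Nat.lt_or_ge i' k with h6 | h6
        · have := TWO_R hC (show i' ≤ k - 1 by omega) hk1
          linarith
        · have := TWO_L hC h6 hi'
          linarith
      · rintro θ ⟨h1, h2⟩ hF
        exact (hcov θ ⟨by linarith, by linarith⟩).2 ⟨k, hk, by linarith, by linarith⟩ hF
      · rintro θ ⟨h1, h2⟩ hF
        rw [← hper' θ] at hF
        exact (hcov (θ - 2 * Real.pi) ⟨by linarith, by linarith⟩).2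
          ⟨k - 1, hk1, by linarith, by linarith⟩ hF

end

end Pool.BA
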