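import Pool.Agent.Work.MP_655153_ba.Interface2
import Pool.Agent.Work.MP_655153_co.Main

/-!
# Block UB (helper23): the bow and arrow detector
-/

set_option autoImplicit false

open scoped ENNReal
open Complex

namespace Pool.BA

open Pool.Agent.Work.MP_655153_co

noncomputable section

/-- the projection of `ℝ` onto `[0, γ]` -/
def UB_cl (γ s : ℝ) : ℝ := max 0 (min s γ)

/-- The bow: an arc of the unit circle of angle `γ`, continued by its tangents. -/
def UB_bow (β γ s : ℝ) : ℂ :=
  Complex.exp (β * I) * Complex.exp (UB_cl γ s * I) * (1 + ((s - UB_cl γ s : ℝ) : ℂ) * I)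

theorem UB_cl_left {γ s : ℝ} (h : s ≤ 0) : UB_cl γ s = 0 := by
  rw [UB_cl, max_eq_left]
  exact (min_le_left _ _).trans h

theorem UB_cl_mid {γ s : ℝ} (h : 0 ≤ s) (h' : s ≤ γ) : UB_cl γ s = s := by
  rw [UB_cl, min_eq_left h', max_eq_right h]

theorem UB_cl_right {γ s : ℝ} (hγ : 0 ≤ γ) (h : γ ≤ s) : UB_cl γ s = γ := by
  rw [UB_cl, min_eq_right h, max_eq_right hγ]

theorem UB_bow_left {β γ s : ℝ} (h : s ≤ 0) :
    UB_bow β γ s = Complex.exp (β * I) * (1 + (s : ℂ) * I) := by
  rw [UB_bow, UB_cl_left h]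
  simp

theorem UB_bow_mid {β γ s : ℝ} (h : 0 ≤ s) (h' : s ≤ γ) :
    UB_bow β γ s = Complex.exp (β * I) * Complex.exp (s * I) := by
  rw [UB_bow, UB_cl_mid h h']
  simp

theorem UB_bow_right {β γ s : ℝ} (hγ : 0 ≤ γ) (h : γ ≤ s) :
    UB_bow β γ s = Complex.exp (β * I) * Complex.exp (γ * I) * (1 + ((s - γ : ℝ) : ℂ) * I) := by
  rw [UB_bow, UB_cl_right hγ h]

theorem UB_bow_cont (β γ : ℝ) : Continuous (UB_bow β γ) := by
  have : Continuous (UB_cl γ) := by unfold UB_cl; fun_prop
  unfold UB_bow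
  fun_prop

theorem UB_cl_mono (γ : ℝ) {s s' : ℝ} (h : s ≤ s') : UB_cl γ s ≤ UB_cl γ s' := by
  unfold UB_cl
  exact max_le_max le_rfl (min_le_min_right _ h)

theorem UB_cl_lip {γ : ℝ} (hγ : 0 ≤ γ) {s s' : ℝ} (h : s ≤ s') :
    s - UB_cl γ s ≤ s' - UB_cl γ s' := by
  rcases le_total s 0 with h1 | h1
  · rw [UB_cl_left h1]
    rcases le_total s' 0 with h2 | h2
    · rw [UB_cl_left h2]; linarith
    · rcases le_total s' γ with h3 | h3
      · rw [UB_cl_mid h2 h3]; linarith
      · rw [UB_cl_right hγ h3]; linarith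
  · rcases le_total s γ with h4 | h4
    · rw [UB_cl_mid h1 h4]
      rcases le_total s' γ with h3 | h3
      · rw [UB_cl_mid (h1.trans h) h3]; linarith
      · rw [UB_cl_right hγ h3]; linarith
    · rw [UB_cl_right hγ h4, UB_cl_right hγ (h4.trans h)]; linarith

/-- the argument of the points of the bow -/
def UB_phi (γ s : ℝ) : ℝ := UB_cl γ s + Real.arctan (s - UB_cl γ s)

theorem UB_phi_strict {γ : ℝ} (hγ : 0 ≤ γ) : StrictMono (UB_phi γ) := by
  intro s s' h
  have h1 := UB_cl_mono γ h.le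
  have h2 := UB_cl_lip hγ h.le
  unfold UB_phi
  rcases h1.lt_or_eq with h3 | h3
  · have := Real.arctan_mono h2
    linarith
  · have h4 : s - UB_cl γ s < s' - UB_cl γ s' := by rw [h3]; linarith
    have := Real.arctan_strictMono h4
    linarith

theorem UB_polar (β γ s : ℝ) : UB_bow β γ s =
    ((Real.sqrt (1 + (s - UB_cl γ s) ^ 2) : ℝ) : ℂ) *
      Complex.exp (((β + UB_phi γ s : ℝ) : ℂ) * I) := by
  have h1 : (1 : ℂ) + ((s - UB_cl γ s : ℝ) : ℂ) * I =
      ((Real.sqrt (1 + (s - UB_cl γ s) ^ 2) : ℝ) : ℂ) *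
        Complex.exp ((Real.arctan (s - UB_cl γ s) : ℝ) * I) := by
    set d := s - UB_cl γ s with hd
    have hp : 0 < Real.sqrt (1 + d ^ 2) := Real.sqrt_pos.2 (by positivity)
    apply Complex.ext
    · rw [Complex.re_ofReal_mul, Complex.exp_ofReal_mul_I_re, Real.cos_arctan]
      simp
      field_simp
    · rw [Complex.im_ofReal_mul, Complex.exp_ofReal_mul_I_im, Real.sin_arctan]
      simp
      field_simp
  rw [UB_bow, h1, UB_phi]
  have h2 : Complex.exp (((β + (UB_cl γ s + Real.arctan (s - UB_cl γ s)) : ℝ) : ℂ) * I) =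
      Complex.exp (β * I) * Complex.exp (UB_cl γ s * I) *
        Complex.exp ((Real.arctan (s - UB_cl γ s) : ℝ) * I) := by
    rw [← Complex.exp_add, ← Complex.exp_add]
    congr 1
    push_cast
    ring
  rw [h2]
  ring

theorem UB_inj {β γ t : ℝ} (hγ : 0 ≤ γ) (ht : 0 ≤ t)
    (h2 : γ + 2 * Real.arctan t < 2 * Real.pi) :
    Set.InjOn (UB_bow β γ) (Set.Icc (-t) (γ + t)) := by
  have hlo : UB_phi γ (-t) = - Real.arctan t := by
    rw [UB_phi, UB_cl_left (by linarith), sub_zero, Real.arctan_neg, zero_add]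
  have hhi : UB_phi γ (γ + t) = γ + Real.arctan t := by
    rw [UB_phi, UB_cl_right hγ (by linarith)]
    congr 2
    ring
  intro s hs s' hs' h
  have hmono := (UB_phi_strict hγ).monotone
  have b1 := hmono hs.1
  have b2 := hmono hs.2
  have b3 := hmono hs'.1
  have b4 := hmono hs'.2
  rw [hlo] at b1 b3
  rw [hhi] at b2 b4
  rw [UB_polar, UB_polar] at h
  have hp : ∀ x : ℝ, 0 < Real.sqrt (1 + x ^ 2) := fun x => Real.sqrt_pos.2 (by positivity)
  have hn := congrArg norm h
  rw [norm_mul, norm_mul, Complex.norm_exp_ofReal_mul_I, Complex.norm_exp_ofReal_mul_I, mul_one,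
    mul_one, Complex.norm_real, Complex.norm_real, Real.norm_of_nonneg (hp _).le,
    Real.norm_of_nonneg (hp _).le] at hn
  rw [hn] at h
  have h3 := mul_left_cancel₀ (by exact_mod_cast (hp _).ne') h
  obtain ⟨n, hn2⟩ := Complex.exp_eq_exp_iff_exists_int.1 h3
  have h4 : ((β + UB_phi γ s : ℝ) : ℂ) = ((β + UB_phi γ s' + n * (2 * Real.pi) : ℝ) : ℂ) := by
    have : ((β + UB_phi γ s : ℝ) : ℂ) * I =
        ((β + UB_phi γ s' + n * (2 * Real.pi) : ℝ) : ℂ) * I := by
      rw [hn2]
      push_cast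
      ring
    exact mul_right_cancel₀ Complex.I_ne_zero this
  have h5 : β + UB_phi γ s = β + UB_phi γ s' + n * (2 * Real.pi) := by exact_mod_cast h4
  have hpi := Real.pi_pos
  have h6 : n = 0 := by
    by_contra hne
    rcases lt_or_gt_of_ne hne with h7 | h7
    · have h8 : (n : ℝ) ≤ -1 := by exact_mod_cast (by omega : n ≤ -1)
      nlinarith
    · have h8 : (1 : ℝ) ≤ n := by exact_mod_cast (by omega : 1 ≤ n)
      nlinarith
  rw [h6] at h5
  have h7 : UB_phi γ s = UB_phi γ s' := by
    push_cast at h5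
    linarith
  exact (UB_phi_strict hγ).injective h7

theorem UB_length {β γ t : ℝ} (hγ : 0 ≤ γ) (ht : 0 ≤ t) :
    eVariationOn (UB_bow β γ) (Set.Icc (-t) (γ + t)) ≤ ENNReal.ofReal (t + γ + t) := by
  have e1 := eVariationOn.Icc_add_Icc (UB_bow β γ) (s := Set.univ) (a := -t) (b := 0) (c := γ)
    (by linarith) hγ (Set.mem_univ _)
  have e2 := eVariationOn.Icc_add_Icc (UB_bow β γ) (s := Set.univ) (a := -t) (b := γ)
    (c := γ + t) (by linarith) (by linarith) (Set.mem_univ _)
  simp only [Set.univ_inter] at e1 e2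
  have hE : ‖Complex.exp (β * I)‖ = 1 := Complex.norm_exp_ofReal_mul_I β
  have hG : ‖Complex.exp (γ * I)‖ = 1 := Complex.norm_exp_ofReal_mul_I γ
  rw [← e2, ← e1]
  have v1 : eVariationOn (UB_bow β γ) (Set.Icc (-t) 0) ≤ ENNReal.ofReal (0 - -t) := by
    refine variation_le (by linarith) fun x hx y hy => ?_
    rw [UB_bow_left hx.2, UB_bow_left hy.2, dist_eq_norm, ← mul_sub, norm_mul, hE, one_mul]
    have : (1 + (x : ℂ) * I) - (1 + (y : ℂ) * I) = ((x - y : ℝ) : ℂ) * I := by push_cast; ring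
    rw [this, norm_mul, Complex.norm_I, mul_one, Complex.norm_real, dist_eq_norm]
  have v2 : eVariationOn (UB_bow β γ) (Set.Icc 0 γ) ≤ ENNReal.ofReal (γ - 0) := by
    refine variation_le hγ fun x hx y hy => ?_
    rw [UB_bow_mid hx.1 hx.2, UB_bow_mid hy.1 hy.2, dist_eq_norm, ← mul_sub, norm_mul, hE,
      one_mul]
    have : Complex.exp (x * I) - Complex.exp (y * I) =
        Complex.exp (y * I) * (Complex.exp (I * ((x - y : ℝ) : ℂ)) - 1) := by
      rw [mul_sub, ← Complex.exp_add, mul_one]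
      congr 2
      push_cast; ring
    rw [this, norm_mul, Complex.norm_exp_ofReal_mul_I, one_mul, dist_eq_norm]
    exact Real.norm_exp_I_mul_ofReal_sub_one_le
  have v3 : eVariationOn (UB_bow β γ) (Set.Icc γ (γ + t)) ≤ ENNReal.ofReal (γ + t - γ) := by
    refine variation_le (by linarith) fun x hx y hy => ?_
    rw [UB_bow_right hγ hx.1, UB_bow_right hγ hy.1, dist_eq_norm, ← mul_sub, norm_mul, norm_mul,
      hE, hG, one_mul, one_mul]
    have : (1 + ((x - γ : ℝ) : ℂ) * I) - (1 + ((y - γ : ℝ) : ℂ) * I) =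
        ((x - y : ℝ) : ℂ) * I := by push_cast; ring
    rw [this, norm_mul, Complex.norm_I, mul_one, Complex.norm_real, dist_eq_norm]
  calc _ ≤ ENNReal.ofReal (0 - -t) + ENNReal.ofReal (γ - 0) + ENNReal.ofReal (γ + t - γ) :=
        add_le_add (add_le_add v1 v2) v3
    _ = ENNReal.ofReal (t + γ + t) := by
        rw [← ENNReal.ofReal_add (by linarith) (by linarith),
          ← ENNReal.ofReal_add (by linarith) (by linarith)]
        congr 1; ring

/-- The bow as an arc. -/
def UB_arc (β γ t : ℝ) (hγ : 0 < γ) (ht : 0 < t)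
    (h2 : γ + 2 * Real.arctan t < 2 * Real.pi) : PlaneArc where
  a := -t
  b := γ + t
  toFun := UB_bow β γ
  lt := by linarith
  cont := (UB_bow_cont β γ).continuousOn
  inj := UB_inj hγ.le ht.le h2

theorem UB_line {l : AffineSubspace ℝ ℂ} (hl : Module.finrank ℝ l.direction = 1) {z0 : ℂ}
    (hz0 : z0 ∈ l) (hz0n : ‖z0‖ = 1) :
    ∃ (n : ℂ) (c : ℝ), ip n n = 1 ∧ |c| ≤ 1 ∧ ∀ z, ip n z = c → z ∈ l := by
  obtain ⟨v, hv, hspan⟩ := finrank_eq_one_iff'.1 hl
  have hv0 : (v : ℂ) ≠ 0 := fun h => hv (Subtype.ext h)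
  set r : ℝ := ‖(v : ℂ)‖ with hr
  have hr0 : 0 < r := norm_pos_iff.2 hv0
  set n : ℂ := ⟨-(v : ℂ).im / r, (v : ℂ).re / r⟩ with hn
  have hr2 : (v : ℂ).re ^ 2 + (v : ℂ).im ^ 2 = r ^ 2 := by
    rw [hr, Complex.sq_norm, Complex.normSq_apply]; ring
  have hnn : ip n n = 1 := by
    simp only [ip, hn]
    field_simp
    linarith
  have hmem : ∀ z : ℂ, ip n z = ip n z0 → z ∈ l := by
    intro z hz
    have h1 : (v : ℂ).re * (z.im - z0.im) = (v : ℂ).im * (z.re - z0.re) := by
      simp only [ip, hn] at hz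
      field_simp at hz
      linarith
    set t : ℝ := ((v : ℂ).re * (z.re - z0.re) + (v : ℂ).im * (z.im - z0.im)) / r ^ 2 with ht
    have h2 : z - z0 = (t : ℂ) * (v : ℂ) := by
      have hr2' : r ^ 2 ≠ 0 := by positivity
      apply Complex.ext
      · rw [Complex.sub_re, Complex.re_ofReal_mul, ht, div_mul_eq_mul_div, eq_div_iff hr2', ← hr2]
        linear_combination (-(v : ℂ).im) * h1
      · rw [Complex.sub_im, Complex.im_ofReal_mul, ht, div_mul_eq_mul_div, eq_div_iff hr2', ← hr2]
        linear_combination (v : ℂ).re * h1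
    have h3 : z - z0 ∈ l.direction := by
      rw [h2]
      have : (t • v : l.direction).1 = (t : ℂ) * (v : ℂ) := by simp
      rw [← this]
      exact (t • v : l.direction).2
    have h4 := AffineSubspace.vadd_mem_of_mem_direction h3 hz0
    simpa using h4
  refine ⟨n, ip n z0, hnn, ?_, hmem⟩
  have hz : ip z0 z0 = 1 := by
    have : ‖z0‖ ^ 2 = 1 := by rw [hz0n]; norm_num
    rw [Complex.sq_norm, Complex.normSq_apply] at this
    exact this
  rw [abs_le]
  unfold ip at *
  constructor
  · nlinarith [sq_nonneg (n.re + z0.re), sq_nonneg (n.im + z0.im)]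
  · nlinarith [sq_nonneg (n.re - z0.re), sq_nonneg (n.im - z0.im)]

/-- A unit vector is `(cos θ, sin θ)` with `0 ≤ θ < 2 π`. -/
theorem UB_angle {m : ℂ} (hm : ip m m = 1) :
    ∃ θ : ℝ, 0 ≤ θ ∧ θ < 2 * Real.pi ∧ m.re = Real.cos θ ∧ m.im = Real.sin θ := by
  have hn : ‖m‖ = 1 := by
    have : ‖m‖ ^ 2 = 1 := by
      rw [Complex.sq_norm, Complex.normSq_apply]; exact hm
    exact (pow_eq_one_iff_of_nonneg (norm_nonneg _) two_ne_zero).1 this
  have hexp : Complex.exp (Complex.arg m * I) = m := by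
    have := Complex.norm_mul_exp_arg_mul_I m
    rwa [hn, Complex.ofReal_one, one_mul] at this
  have hre : m.re = Real.cos (Complex.arg m) := by
    rw [← Complex.exp_ofReal_mul_I_re, hexp]
  have him : m.im = Real.sin (Complex.arg m) := by
    rw [← Complex.exp_ofReal_mul_I_im, hexp]
  have hpi := Real.pi_pos
  have h1 := Complex.arg_le_pi m
  have h2 := Complex.neg_pi_lt_arg m
  rcases le_or_gt 0 (Complex.arg m) with h | h
  · exact ⟨_, h, by linarith, hre, him⟩
  · refine ⟨Complex.arg m + 2 * Real.pi, by linarith, by linarith, ?_, ?_⟩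
    · rw [Real.cos_add_two_pi]; exact hre
    · rw [Real.sin_add_two_pi]; exact him

theorem p_UB : Stmt_UB := by
  intro μ t hμ hμ2 ht h4
  have hpi := Real.pi_pos
  obtain ⟨α, hα⟩ : ∃ α, α = Real.arctan t := ⟨_, rfl⟩
  have hα0 : 0 < α := by rw [hα]; exact Real.arctan_pos.2 ht
  have hα1 : α < Real.pi / 2 := by rw [hα]; exact Real.arctan_lt_pi_div_two t
  have hcosα : 0 < Real.cos α := Real.cos_pos_of_mem_Ioo ⟨by linarith, hα1⟩
  have htan : Real.sin α = t * Real.cos α := by
    have h1 : Real.tan α = t := by rw [hα]; exact Real.tan_arctan t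
    rw [Real.tan_eq_sin_div_cos, div_eq_iff hcosα.ne'] at h1
    exact h1
  have hcosμ : 0 < Real.cos μ := Real.cos_pos_of_mem_Ioo ⟨by linarith, hμ2⟩
  have hsinμ : 0 < Real.sin μ := Real.sin_pos_of_pos_of_lt_pi hμ (by linarith)
  rw [← hα] at h4
  obtain ⟨β, hβ⟩ : ∃ β, β = μ + 2 * α := ⟨_, rfl⟩
  obtain ⟨γ, hγ⟩ : ∃ γ, γ = 2 * Real.pi - 2 * μ - 4 * α := ⟨_, rfl⟩
  have hγ0 : 0 < γ := by rw [hγ]; linarith
  have hγ2 : γ + 2 * Real.arctan t < 2 * Real.pi := by rw [hγ, ← hα]; linarith
  -- the points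
  obtain ⟨x₀, hx₀⟩ : ∃ x, x = Real.cos μ - t * Real.sin μ := ⟨_, rfl⟩
  obtain ⟨x₁, hx₁⟩ : ∃ x, x = 1 / Real.cos μ := ⟨_, rfl⟩
  have hlen : x₁ - x₀ = (Real.tan μ + t) * Real.sin μ := by
    rw [hx₀, hx₁, Real.tan_eq_sin_div_cos]
    field_simp
    nlinarith [Real.sin_sq_add_cos_sq μ]
  have hlt : x₀ < x₁ := by
    have h1 : 0 < (Real.tan μ + t) * Real.sin μ :=
      mul_pos (add_pos (Real.tan_pos_of_pos_of_lt_pi_div_two hμ hμ2) ht) hsinμ
    linarith
  have hne : (x₀ : ℂ) ≠ (x₁ : ℂ) := by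
    intro h
    exact hlt.ne (by exact_mod_cast h)
  have hr : 0 < x₁ - x₀ := by linarith
  have hPre : (UB_bow β γ (-t)).re = x₀ ∧ (UB_bow β γ (-t)).im =
      Real.sin (μ + α) / Real.cos α := by
    rw [UB_bow_left (by linarith)]
    have e1 : Complex.exp (β * I) = ⟨Real.cos β, Real.sin β⟩ := by
      apply Complex.ext
      · exact Complex.exp_ofReal_mul_I_re β
      · exact Complex.exp_ofReal_mul_I_im β
    rw [e1]
    constructor
    · simp
      rw [hx₀]
      have h1 : Real.cos α * (Real.cos β + Real.sin β * t) =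
          Real.cos α * (Real.cos μ - t * Real.sin μ) := by
        have h2 : Real.cos α * (Real.cos β + Real.sin β * t) = Real.cos (μ + α) := by
          have h3 : μ + α = β - α := by rw [hβ]; ring
          rw [h3, Real.cos_sub, htan]
          ring
        rw [h2, Real.cos_add, htan]
        ring
      exact mul_left_cancel₀ hcosα.ne' h1
    · simp
      rw [eq_div_iff hcosα.ne']
      have h3 : μ + α = β - α := by rw [hβ]; ring
      rw [h3, Real.sin_sub, htan]
      ring
  have hPre2 : x₀ = Real.cos (μ + α) / Real.cos α := by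
    rw [eq_div_iff hcosα.ne', hx₀, Real.cos_add, htan]
    ring
  have hQ : UB_bow β γ (γ + t) = (starRingEnd ℂ) (UB_bow β γ (-t)) := by
    have q1 : UB_bow β γ (γ + t) =
        Complex.exp (β * I) * (Complex.exp (γ * I) * (1 + ((γ + t - γ : ℝ) : ℂ) * I)) := by
      rw [UB_bow_right hγ0.le (by linarith)]
      try push_cast
      try ring
    have q2 : UB_bow β γ (-t) = Complex.exp (β * I) * (1 + ((-t : ℝ) : ℂ) * I) := by
      rw [UB_bow_left (by linarith)]
    rw [q1, q2, map_mul, ← mul_assoc, ← Complex.exp_add]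
    have h1 : (β : ℂ) * I + γ * I = ((-β + 2 * Real.pi : ℝ) : ℂ) * I := by
      rw [hγ, hβ]
      push_cast
      ring
    have h2 : Complex.exp (((-β + 2 * Real.pi : ℝ) : ℂ) * I) =
        (starRingEnd ℂ) (Complex.exp (β * I)) := by
      apply Complex.ext
      · rw [Complex.exp_ofReal_mul_I_re, Complex.conj_re, Complex.exp_ofReal_mul_I_re,
          Real.cos_add_two_pi, Real.cos_neg]
      · rw [Complex.exp_ofReal_mul_I_im, Complex.conj_im, Complex.exp_ofReal_mul_I_im,
          Real.sin_add_two_pi, Real.sin_neg]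
    rw [h1, h2]
    have h3 : (1 + ((γ + t - γ : ℝ) : ℂ) * I) =
        (starRingEnd ℂ) (1 + ((-t : ℝ) : ℂ) * I) := by
      apply Complex.ext <;> simp
    rw [h3]
  -- the arcs
  let A : Fin 2 → PlaneArc := ![UB_arc β γ t hγ0 ht hγ2, segArc (x₀ : ℂ) (x₁ : ℂ) hne (x₁ - x₀) hr]
  have hA0 : (A 0).carrier = UB_bow β γ '' Set.Icc (-t) (γ + t) := rfl
  have hsum : ∑ i, (A i).length ≤ ENNReal.ofReal (bowArrow μ t) := by
    rw [Fin.sum_univ_two]
    have v0 : (A 0).length ≤ ENNReal.ofReal (t + γ + t) := UB_length hγ0.le ht.le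
    have v1 : (A 1).length ≤ ENNReal.ofReal (x₁ - x₀) := by
      refine segArc_length (h := hne) (hr := hr) ?_
      rw [← Complex.ofReal_sub, Complex.norm_real, Real.norm_of_nonneg hr.le]
    refine (add_le_add v0 v1).trans (le_of_eq ?_)
    rw [← ENNReal.ofReal_add (by linarith) hr.le]
    congr 1
    rw [bowArrow, hlen, hγ, hα]
    ring
  have hdet : IsBeamDetector (⋃ i, (A i).carrier) := by
    intro l hl ⟨z0, hz0, hz0n⟩
    obtain ⟨n, c, hn, hc, hmem⟩ := UB_line hl hz0 hz0n
    by_contra hcon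
    push Not at hcon
    have hmiss : ∀ i, ∀ z ∈ (A i).carrier, ip n z ≠ c := fun i z hz h =>
      hcon z (hmem z h) (Set.mem_iUnion.2 ⟨i, hz⟩)
    have key : ∀ (n : ℂ) (c : ℝ), ip n n = 1 → |c| ≤ 1 →
        (∀ i, ∀ z ∈ (A i).carrier, ip n z ≠ c) → ¬ c < ip n (UB_bow β γ (-t)) := by
      intro n c hn hc hmiss hlt2
      have hgc : Continuous (fun z : ℂ => ip n z - c) := by unfold ip; fun_prop
      have hP : UB_bow β γ (-t) ∈ (A 0).carrier := by
        rw [hA0]
        exact ⟨-t, ⟨le_rfl, by linarith⟩, rfl⟩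
      have hQm : UB_bow β γ (γ + t) ∈ (A 0).carrier := by
        rw [hA0]
        exact ⟨γ + t, ⟨by linarith, le_rfl⟩, rfl⟩
      have hbow : ∀ z ∈ (A 0).carrier, 0 < ip n z - c := fun z hz =>
        pos_of_pos (carrier_preconnected (A 0)) hgc
          (fun w hw => sub_ne_zero.2 (hmiss 0 w hw)) hP (by linarith) hz
      obtain ⟨θ, hθ0, hθ1, hre, him⟩ := UB_angle (m := -n) (by simpa [ip] using hn)
      have hipn : ∀ w, ip (-n) w = - ip n w := fun w => by simp [ip]; ring
      have hsup : ∀ w ∈ (A 0).carrier, ¬ 1 ≤ ip (-n) w := by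
        intro w hw h1
        rw [hipn] at h1
        have := hbow w hw
        have := (abs_le.1 hc).1
        linarith
      -- the direction is near the axis
      have hcase : Real.cos μ < Real.cos θ := by
        by_contra hno
        rw [not_lt] at hno
        rcases lt_or_ge θ μ with k1 | k1
        · exact absurd hno (not_le.2 (Real.cos_lt_cos_of_nonneg_of_le_pi hθ0 (by linarith) k1))
        rcases le_or_gt θ (μ + 2 * α) with k2 | k2
        · refine hsup _ hP ?_
          have e : ip (-n) (UB_bow β γ (-t)) = Real.cos (θ - (μ + α)) / Real.cos α := by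
            unfold ip
            rw [hre, him, hPre.1, hPre.2, hPre2, Real.cos_sub]
            field_simp
          rw [e, le_div_iff₀ hcosα, one_mul]
          rw [← Real.cos_abs (θ - (μ + α))]
          exact Real.cos_le_cos_of_nonneg_of_le_pi (abs_nonneg _) (by linarith)
            (abs_le.2 ⟨by linarith, by linarith⟩)
        rcases le_or_gt θ (2 * Real.pi - μ - 2 * α) with k3 | k3
        · refine hsup (-n) ?_ ?_
          · rw [hA0]
            refine ⟨θ - β, ⟨by rw [hβ]; linarith, by rw [hβ, hγ]; linarith⟩, ?_⟩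
            rw [UB_bow_mid (by rw [hβ]; linarith) (by rw [hβ, hγ]; linarith), ← Complex.exp_add]
            have h1 : (β : ℂ) * I + ((θ - β : ℝ) : ℂ) * I = (θ : ℂ) * I := by
              push_cast
              ring
            rw [h1]
            apply Complex.ext
            · rw [Complex.exp_ofReal_mul_I_re, hre]
            · rw [Complex.exp_ofReal_mul_I_im, him]
          · have : ip (-n) (-n) = 1 := by simpa [ip] using hn
            rw [this]
        rcases le_or_gt θ (2 * Real.pi - μ) with k4 | k4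
        · refine hsup _ hQm ?_
          have e : ip (-n) (UB_bow β γ (γ + t)) =
              Real.cos (θ - (2 * Real.pi - (μ + α))) / Real.cos α := by
            unfold ip
            rw [hre, him, hQ, Complex.conj_re, Complex.conj_im, hPre.1, hPre.2, hPre2]
            have h1 : θ - (2 * Real.pi - (μ + α)) = (θ + (μ + α)) - 2 * Real.pi := by ring
            rw [h1, Real.cos_sub_two_pi, Real.cos_add θ (μ + α)]
            field_simp
            try ring
          rw [e, le_div_iff₀ hcosα, one_mul]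
          rw [← Real.cos_abs (θ - (2 * Real.pi - (μ + α)))]
          exact Real.cos_le_cos_of_nonneg_of_le_pi (abs_nonneg _) (by linarith)
            (abs_le.2 ⟨by linarith, by linarith⟩)
        · have h1 : Real.cos θ = Real.cos (2 * Real.pi - θ) := by
            rw [Real.cos_two_pi_sub]
          rw [h1] at hno
          exact absurd hno (not_le.2 (Real.cos_lt_cos_of_nonneg_of_le_pi (by linarith)
            (by linarith) (by linarith)))
      -- the arrow
      have hx1 : ip n (x₁ : ℂ) - c < 0 := by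
        have h1 : ip (-n) (x₁ : ℂ) = Real.cos θ * x₁ := by
          unfold ip
          rw [hre]
          simp
        have h2 : 1 < Real.cos θ * x₁ := by
          rw [hx₁, mul_one_div, lt_div_iff₀ hcosμ, one_mul]
          exact hcase
        rw [hipn] at h1
        have := (abs_le.1 hc).1
        linarith
      have hx0 : 0 < ip n (x₀ : ℂ) - c := by
        have h1 := hbow _ hP
        have h2 := hbow _ hQm
        have h3 : ip n (UB_bow β γ (-t)) + ip n (UB_bow β γ (γ + t)) = 2 * ip n (x₀ : ℂ) := by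
          unfold ip
          rw [hQ, Complex.conj_re, Complex.conj_im, hPre.1]
          simp
          ring
        linarith
      have hx : 0 < ip n (x₁ : ℂ) - c := pos_of_pos (carrier_preconnected (A 1)) hgc
        (fun w hw => sub_ne_zero.2 (hmiss 1 w hw))
        (left_mem_segArc (h := hne) (hr := hr)) hx0 (right_mem_segArc (h := hne) (hr := hr))
      linarith
    rcases lt_trichotomy c (ip n (UB_bow β γ (-t))) with h | h | h
    · exact key n c hn hc hmiss h
    · have hP : UB_bow β γ (-t) ∈ (A 0).carrier := by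
        rw [hA0]
        exact ⟨-t, ⟨le_rfl, by linarith⟩, rfl⟩
      exact hmiss 0 _ hP h.symm
    · have hipn : ∀ w, ip (-n) w = - ip n w := fun w => by simp [ip]; ring
      refine key (-n) (-c) (by simpa [ip] using hn) (by rwa [abs_neg]) ?_ ?_
      · intro i z hz h1
        rw [hipn] at h1
        exact hmiss i z hz (by linarith)
      · rw [hipn]
        linarith
  exact (iInf₂_le A hdet).trans hsum

end

end Pool.BA
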