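import Pool.Agent.Work.MP_655153_ba.Interface5
import Pool.Agent.Work.MP_655153_ba.B_UB

/-!
# Block UBX: the detector of `B_UB.lean` (the proof is the one of `p_UB`, by helper23)
-/

set_option autoImplicit false

open scoped ENNReal
open Complex

namespace Pool.BA

open Pool.Agent.Work.MP_655153_co

noncomputable section

theorem p_UBX : Stmt_UBX := by
  intro μ t hμ hμ2 ht h4
  have hpi := Real.pi_pos
  obtain ⟨α, hα⟩ : ∃ α, α = Real.arctan t := ⟨_, rfl⟩
  have hα0 : 0 < α := by rw [hα]; exact Real.arctan_pos.2 ht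
  have hα1 : α < Real.pi / 2 := by rw [hα]; exact Real.arctan_lt_pi_div_two t
  have hcosα : 0 < Real.cos α := Real.cos_pos_of_mem_Ioo ⟨by linarith, hα1⟩
  have htan : Real.sin α = t * Real.cos α := by
    have h1 : Real.tan α = t := by rw [hα]; exact Real.tan_arctan t
    rw [Real.tan_eq_sin_div_cos, div_eq_iff hcosα.ne'] at h1
    exact h1
  have hcosμ : 0 < Real.cos μ := Real.cos_pos_of_mem_Ioo ⟨by linarith, hμ2⟩
  have hsinμ : 0 < Real.sin μ := Real.sin_pos_of_pos_of_lt_pi hμ (by linarith)
  rw [← hα] at h4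
  obtain ⟨β, hβ⟩ : ∃ β, β = μ + 2 * α := ⟨_, rfl⟩
  obtain ⟨γ, hγ⟩ : ∃ γ, γ = 2 * Real.pi - 2 * μ - 4 * α := ⟨_, rfl⟩
  have hγ0 : 0 < γ := by rw [hγ]; linarith
  have hγ2 : γ + 2 * Real.arctan t < 2 * Real.pi := by rw [hγ, ← hα]; linarith
  -- the points
  obtain ⟨x₀, hx₀⟩ : ∃ x, x = Real.cos μ - t * Real.sin μ := ⟨_, rfl⟩
  obtain ⟨x₁, hx₁⟩ : ∃ x, x = 1 / Real.cos μ := ⟨_, rfl⟩
  have hlen : x₁ - x₀ = (Real.tan μ + t) * Real.sin μ := by
    rw [hx₀, hx₁, Real.tan_eq_sin_div_cos]
    field_simp
    nlinarith [Real.sin_sq_add_cos_sq μ]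
  have hlt : x₀ < x₁ := by
    have h1 : 0 < (Real.tan μ + t) * Real.sin μ :=
      mul_pos (add_pos (Real.tan_pos_of_pos_of_lt_pi_div_two hμ hμ2) ht) hsinμ
    linarith
  have hne : (x₀ : ℂ) ≠ (x₁ : ℂ) := by
    intro h
    exact hlt.ne (by exact_mod_cast h)
  have hr : 0 < x₁ - x₀ := by linarith
  have hPre : (UB_bow β γ (-t)).re = x₀ ∧ (UB_bow β γ (-t)).im =
      Real.sin (μ + α) / Real.cos α := by
    rw [UB_bow_left (by linarith)]
    have e1 : Complex.exp (β * I) = ⟨Real.cos β, Real.sin β⟩ := by
      apply Complex.ext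
      · exact Complex.exp_ofReal_mul_I_re β
      · exact Complex.exp_ofReal_mul_I_im β
    rw [e1]
    constructor
    · simp
      rw [hx₀]
      have h1 : Real.cos α * (Real.cos β + Real.sin β * t) =
          Real.cos α * (Real.cos μ - t * Real.sin μ) := by
        have h2 : Real.cos α * (Real.cos β + Real.sin β * t) = Real.cos (μ + α) := by
          have h3 : μ + α = β - α := by rw [hβ]; ring
          rw [h3, Real.cos_sub, htan]
          ring
        rw [h2, Real.cos_add, htan]
        ring
      exact mul_left_cancel₀ hcosα.ne' h1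
    · simp
      rw [eq_div_iff hcosα.ne']
      have h3 : μ + α = β - α := by rw [hβ]; ring
      rw [h3, Real.sin_sub, htan]
      ring
  have hPre2 : x₀ = Real.cos (μ + α) / Real.cos α := by
    rw [eq_div_iff hcosα.ne', hx₀, Real.cos_add, htan]
    ring
  have hQ : UB_bow β γ (γ + t) = (starRingEnd ℂ) (UB_bow β γ (-t)) := by
    have q1 : UB_bow β γ (γ + t) =
        Complex.exp (β * I) * (Complex.exp (γ * I) * (1 + ((γ + t - γ : ℝ) : ℂ) * I)) := by
      rw [UB_bow_right hγ0.le (by linarith)]
      try push_cast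
      try ring
    have q2 : UB_bow β γ (-t) = Complex.exp (β * I) * (1 + ((-t : ℝ) : ℂ) * I) := by
      rw [UB_bow_left (by linarith)]
    rw [q1, q2, map_mul, ← mul_assoc, ← Complex.exp_add]
    have h1 : (β : ℂ) * I + γ * I = ((-β + 2 * Real.pi : ℝ) : ℂ) * I := by
      rw [hγ, hβ]
      push_cast
      ring
    have h2 : Complex.exp (((-β + 2 * Real.pi : ℝ) : ℂ) * I) =
        (starRingEnd ℂ) (Complex.exp (β * I)) := by
      apply Complex.ext
      · rw [Complex.exp_ofReal_mul_I_re, Complex.conj_re, Complex.exp_ofReal_mul_I_re,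
          Real.cos_add_two_pi, Real.cos_neg]
      · rw [Complex.exp_ofReal_mul_I_im, Complex.conj_im, Complex.exp_ofReal_mul_I_im,
          Real.sin_add_two_pi, Real.sin_neg]
    rw [h1, h2]
    have h3 : (1 + ((γ + t - γ : ℝ) : ℂ) * I) =
        (starRingEnd ℂ) (1 + ((-t : ℝ) : ℂ) * I) := by
      apply Complex.ext <;> simp
    rw [h3]
  -- the arcs
  let A : Fin 2 → PlaneArc := ![UB_arc β γ t hγ0 ht hγ2, segArc (x₀ : ℂ) (x₁ : ℂ) hne (x₁ - x₀) hr]
  have hA0 : (A 0).carrier = UB_bow β γ '' Set.Icc (-t) (γ + t) := rfl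
  have hsum : ∑ i, (A i).length ≤ ENNReal.ofReal (bowArrow μ t) := by
    rw [Fin.sum_univ_two]
    have v0 : (A 0).length ≤ ENNReal.ofReal (t + γ + t) := UB_length hγ0.le ht.le
    have v1 : (A 1).length ≤ ENNReal.ofReal (x₁ - x₀) := by
      refine segArc_length (h := hne) (hr := hr) ?_
      rw [← Complex.ofReal_sub, Complex.norm_real, Real.norm_of_nonneg hr.le]
    refine (add_le_add v0 v1).trans (le_of_eq ?_)
    rw [← ENNReal.ofReal_add (by linarith) hr.le]
    congr 1
    rw [bowArrow, hlen, hγ, hα]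
    ring
  have hdet : IsBeamDetector (⋃ i, (A i).carrier) := by
    intro l hl ⟨z0, hz0, hz0n⟩
    obtain ⟨n, c, hn, hc, hmem⟩ := UB_line hl hz0 hz0n
    by_contra hcon
    push Not at hcon
    have hmiss : ∀ i, ∀ z ∈ (A i).carrier, ip n z ≠ c := fun i z hz h =>
      hcon z (hmem z h) (Set.mem_iUnion.2 ⟨i, hz⟩)
    have key : ∀ (n : ℂ) (c : ℝ), ip n n = 1 → |c| ≤ 1 →
        (∀ i, ∀ z ∈ (A i).carrier, ip n z ≠ c) → ¬ c < ip n (UB_bow β γ (-t)) := by
      intro n c hn hc hmiss hlt2
      have hgc : Continuous (fun z : ℂ => ip n z - c) := by unfold ip; fun_prop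
      have hP : UB_bow β γ (-t) ∈ (A 0).carrier := by
        rw [hA0]
        exact ⟨-t, ⟨le_rfl, by linarith⟩, rfl⟩
      have hQm : UB_bow β γ (γ + t) ∈ (A 0).carrier := by
        rw [hA0]
        exact ⟨γ + t, ⟨by linarith, le_rfl⟩, rfl⟩
      have hbow : ∀ z ∈ (A 0).carrier, 0 < ip n z - c := fun z hz =>
        pos_of_pos (carrier_preconnected (A 0)) hgc
          (fun w hw => sub_ne_zero.2 (hmiss 0 w hw)) hP (by linarith) hz
      obtain ⟨θ, hθ0, hθ1, hre, him⟩ := UB_angle (m := -n) (by simpa [ip] using hn)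
      have hipn : ∀ w, ip (-n) w = - ip n w := fun w => by simp [ip]; ring
      have hsup : ∀ w ∈ (A 0).carrier, ¬ 1 ≤ ip (-n) w := by
        intro w hw h1
        rw [hipn] at h1
        have := hbow w hw
        have := (abs_le.1 hc).1
        linarith
      -- the direction is near the axis
      have hcase : Real.cos μ < Real.cos θ := by
        by_contra hno
        rw [not_lt] at hno
        rcases lt_or_ge θ μ with k1 | k1
        · exact absurd hno (not_le.2 (Real.cos_lt_cos_of_nonneg_of_le_pi hθ0 (by linarith) k1))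
        rcases le_or_gt θ (μ + 2 * α) with k2 | k2
        · refine hsup _ hP ?_
          have e : ip (-n) (UB_bow β γ (-t)) = Real.cos (θ - (μ + α)) / Real.cos α := by
            unfold ip
            rw [hre, him, hPre.1, hPre.2, hPre2, Real.cos_sub]
            field_simp
          rw [e, le_div_iff₀ hcosα, one_mul]
          rw [← Real.cos_abs (θ - (μ + α))]
          exact Real.cos_le_cos_of_nonneg_of_le_pi (abs_nonneg _) (by linarith)
            (abs_le.2 ⟨by linarith, by linarith⟩)
        rcases le_or_gt θ (2 * Real.pi - μ - 2 * α) with k3 | k3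
        · refine hsup (-n) ?_ ?_
          · rw [hA0]
            refine ⟨θ - β, ⟨by rw [hβ]; linarith, by rw [hβ, hγ]; linarith⟩, ?_⟩
            rw [UB_bow_mid (by rw [hβ]; linarith) (by rw [hβ, hγ]; linarith), ← Complex.exp_add]
            have h1 : (β : ℂ) * I + ((θ - β : ℝ) : ℂ) * I = (θ : ℂ) * I := by
              push_cast
              ring
            rw [h1]
            apply Complex.ext
            · rw [Complex.exp_ofReal_mul_I_re, hre]
            · rw [Complex.exp_ofReal_mul_I_im, him]
          · have : ip (-n) (-n) = 1 := by simpa [ip] using hn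
            rw [this]
        rcases le_or_gt θ (2 * Real.pi - μ) with k4 | k4
        · refine hsup _ hQm ?_
          have e : ip (-n) (UB_bow β γ (γ + t)) =
              Real.cos (θ - (2 * Real.pi - (μ + α))) / Real.cos α := by
            unfold ip
            rw [hre, him, hQ, Complex.conj_re, Complex.conj_im, hPre.1, hPre.2, hPre2]
            have h1 : θ - (2 * Real.pi - (μ + α)) = (θ + (μ + α)) - 2 * Real.pi := by ring
            rw [h1, Real.cos_sub_two_pi, Real.cos_add θ (μ + α)]
            field_simp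
            try ring
          rw [e, le_div_iff₀ hcosα, one_mul]
          rw [← Real.cos_abs (θ - (2 * Real.pi - (μ + α)))]
          exact Real.cos_le_cos_of_nonneg_of_le_pi (abs_nonneg _) (by linarith)
            (abs_le.2 ⟨by linarith, by linarith⟩)
        · have h1 : Real.cos θ = Real.cos (2 * Real.pi - θ) := by
            rw [Real.cos_two_pi_sub]
          rw [h1] at hno
          exact absurd hno (not_le.2 (Real.cos_lt_cos_of_nonneg_of_le_pi (by linarith)
            (by linarith) (by linarith)))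
      -- the arrow
      have hx1 : ip n (x₁ : ℂ) - c < 0 := by
        have h1 : ip (-n) (x₁ : ℂ) = Real.cos θ * x₁ := by
          unfold ip
          rw [hre]
          simp
        have h2 : 1 < Real.cos θ * x₁ := by
          rw [hx₁, mul_one_div, lt_div_iff₀ hcosμ, one_mul]
          exact hcase
        rw [hipn] at h1
        have := (abs_le.1 hc).1
        linarith
      have hx0 : 0 < ip n (x₀ : ℂ) - c := by
        have h1 := hbow _ hP
        have h2 := hbow _ hQm
        have h3 : ip n (UB_bow β γ (-t)) + ip n (UB_bow β γ (γ + t)) = 2 * ip n (x₀ : ℂ) := by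
          unfold ip
          rw [hQ, Complex.conj_re, Complex.conj_im, hPre.1]
          simp
          ring
        linarith
      have hx : 0 < ip n (x₁ : ℂ) - c := pos_of_pos (carrier_preconnected (A 1)) hgc
        (fun w hw => sub_ne_zero.2 (hmiss 1 w hw))
        (left_mem_segArc (h := hne) (hr := hr)) hx0 (right_mem_segArc (h := hne) (hr := hr))
      linarith
    rcases lt_trichotomy c (ip n (UB_bow β γ (-t))) with h | h | h
    · exact key n c hn hc hmiss h
    · have hP : UB_bow β γ (-t) ∈ (A 0).carrier := by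
        rw [hA0]
        exact ⟨-t, ⟨le_rfl, by linarith⟩, rfl⟩
      exact hmiss 0 _ hP h.symm
    · have hipn : ∀ w, ip (-n) w = - ip n w := fun w => by simp [ip]; ring
      refine key (-n) (-c) (by simpa [ip] using hn) (by rwa [abs_neg]) ?_ ?_
      · intro i z hz h1
        rw [hipn] at h1
        exact hmiss i z hz (by linarith)
      · rw [hipn]
        linarith
  exact ⟨A, hdet, hsum⟩

end

end Pool.BA
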