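import Pool.Agent.Work.MP_655153_ba.Interface3

/-!
# Block WL
-/

namespace Pool.BA

theorem p_WL : Stmt_WL := by
  intro x y z h1 h2 h3 h4
  have h5 : dist x y ≤ dist z y := by
    rw [Complex.dist_eq_re_im, Complex.dist_eq_re_im]
    apply Real.sqrt_le_sqrt
    nlinarith [mul_nonneg (sub_nonneg.mpr h4) (sub_nonneg.mpr h2),
      mul_nonneg (sub_nonneg.mpr h3) (sub_nonneg.mpr h1), sq_nonneg (z.re - x.re),
      sq_nonneg (x.im - z.im)]
  have h6 : z.re - x.re ≤ dist x z := by
    rw [dist_comm, Complex.dist_eq]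
    have h7 := Complex.re_le_norm (z - x)
    rw [Complex.sub_re] at h7
    exact h7
  linarith

end Pool.BA
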