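import Pool.Agent.Work.MP_655153_ba.Interface3

/-!
# MP_655153_co, block WZ
-/

open MeasureTheory Set

namespace Pool.BA

noncomputable section

theorem WZ_pr (κ α θ : ℝ) (hα : Real.cos α ≠ 0) (h : Real.cos (κ - θ) = Real.cos α) :
    pr θ (V κ α) = 1 := by
  unfold pr V
  rw [Real.cos_sub] at h
  show Real.cos κ / Real.cos α * Real.cos θ + Real.sin κ / Real.cos α * Real.sin θ = 1
  rw [div_mul_eq_mul_div, div_mul_eq_mul_div, ← add_div, h, div_self hα]

theorem p_WZ : Stmt_WZ := by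
  intro m κ α μ1 μ2 z h1 h2 hF
  have hm := hF.pos
  constructor
  · intro hle hz hre
    have hα0 : 0 ≤ α 0 := hF.ch.α0 0 hm
    have hα1 : α 0 < Real.pi / 2 := hF.ch.α1 0 hm
    have hc : 0 < Real.cos (α 0) := Real.cos_pos_of_mem_Ioo ⟨by linarith [Real.pi_pos], hα1⟩
    have hL : κ 0 - α 0 = μ1 := hF.left
    have hpr : pr μ1 (W κ α 0) = 1 := by
      unfold W
      apply WZ_pr _ _ _ hc.ne'
      rw [← hL]
      ring_nf
    have hcos : 0 ≤ Real.cos μ1 := Real.cos_nonneg_of_mem_Icc ⟨by linarith [Real.pi_pos], hle⟩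
    have hsin : 0 < Real.sin μ1 := Real.sin_pos_of_pos_of_lt_pi h1 (by linarith [Real.pi_pos])
    unfold pr at hpr hz
    by_contra hcon
    push Not at hcon
    nlinarith [mul_nonneg hcos (sub_nonneg.mpr hre), mul_pos hsin (sub_pos.mpr hcon)]
  · intro hle hz hre
    have hm' : m - 1 < m := by omega
    have hα0 : 0 ≤ α (m - 1) := hF.ch.α0 _ hm'
    have hα1 : α (m - 1) < Real.pi / 2 := hF.ch.α1 _ hm'
    have hc : 0 < Real.cos (α (m - 1)) :=
      Real.cos_pos_of_mem_Ioo ⟨by linarith [Real.pi_pos], hα1⟩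
    have hR : κ (m - 1) + α (m - 1) = 2 * Real.pi - μ2 := hF.right
    have hpr : pr (-μ2) (W κ α (m - 1)) = 1 := by
      unfold W
      apply WZ_pr _ _ _ hc.ne'
      have e : κ (m - 1) - -μ2 = 2 * Real.pi - α (m - 1) := by linarith
      rw [e, Real.cos_two_pi_sub]
    have hcos : 0 ≤ Real.cos μ2 := Real.cos_nonneg_of_mem_Icc ⟨by linarith [Real.pi_pos], hle⟩
    have hsin : 0 < Real.sin μ2 := Real.sin_pos_of_pos_of_lt_pi h2 (by linarith [Real.pi_pos])
    unfold pr at hpr hz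
    rw [Real.cos_neg, Real.sin_neg] at hpr hz
    by_contra hcon
    push Not at hcon
    nlinarith [mul_nonneg hcos (sub_nonneg.mpr hre), mul_pos hsin (sub_pos.mpr hcon)]

end

end Pool.BA
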