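import Pool.Agent.Work.MP_655153_ba.Interface1

/-!
# Charge lemma, common core of the blocks CP and BV

`E` is the set of ends; `P` the list; cells `[CP_cl i, CP_cr i]`, charges `CP_c i j`.
-/

open MeasureTheory Set
open scoped ENNReal

namespace Pool.BA

noncomputable section

/-- `i`, `j` are consecutive in the list (in some order) -/
def CP_adj (i j : ℕ) : List ℕ → Prop
  | [] => False
  | [_] => False
  | x :: y :: l => (x = i ∧ y = j) ∨ (x = j ∧ y = i) ∨ CP_adj i j (y :: l)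

theorem CP_adj_symm (i j : ℕ) : ∀ p : List ℕ, CP_adj i j p → CP_adj j i p
  | [], h => h
  | [_], h => h
  | x :: y :: l, h => by
    have h' : (x = i ∧ y = j) ∨ (x = j ∧ y = i) ∨ CP_adj i j (y :: l) := h
    have goal' : (x = j ∧ y = i) ∨ (x = i ∧ y = j) ∨ CP_adj j i (y :: l) := by
      rcases h' with h1 | h1 | h1
      · exact Or.inr (Or.inl h1)
      · exact Or.inl h1
      · exact Or.inr (Or.inr (CP_adj_symm i j (y :: l) h1))
    exact goal'

theorem CP_adj_mem (i j : ℕ) : ∀ p : List ℕ, CP_adj i j p → i ∈ p ∧ j ∈ p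
  | [], h => h.elim
  | [_], h => h.elim
  | x :: y :: l, h => by
    have h' : (x = i ∧ y = j) ∨ (x = j ∧ y = i) ∨ CP_adj i j (y :: l) := h
    rcases h' with ⟨h1, h2⟩ | ⟨h1, h2⟩ | h1
    · subst h1; subst h2; simp
    · subst h1; subst h2; simp
    · have := CP_adj_mem i j (y :: l) h1
      exact ⟨List.mem_cons_of_mem _ this.1, List.mem_cons_of_mem _ this.2⟩

section core

variable (κ α : ℕ → ℝ) (E : ℕ → Prop) (P : List ℕ)

open Classical in
/-- right end of the cell -/
def CP_cr (i : ℕ) : ℝ :=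
  if CP_adj i (i + 1) P ∧ ov κ α i (i + 1) ∧ E (i + 1) then Lf κ α (i + 1) else Rt κ α i

open Classical in
/-- left end of the cell -/
def CP_cl (i : ℕ) : ℝ :=
  if 0 < i ∧ CP_adj (i - 1) i P ∧ ov κ α (i - 1) i ∧ ¬ E i then Rt κ α (i - 1) else Lf κ α i

open Classical in
/-- charge of `i` from the pair `i`, `j` -/
def CP_c (i j : ℕ) : ℝ :=
  if ov κ α i j then
    (if j = i + 1 then Real.sin (CP_cr κ α E P i - κ i) / Real.cos (α i)
      else Real.sin (κ i - CP_cl κ α E P i) / Real.cos (α i))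
  else Real.tan (α i)

end core

theorem CP_ov_symm {κ α : ℕ → ℝ} {i j : ℕ} (h : ov κ α i j) : ov κ α j i := by
  rcases h with h | h
  · exact Or.inr h
  · exact Or.inl h

theorem CP_dd_symm (κ α : ℕ → ℝ) (i j : ℕ) : dd κ α i j = dd κ α j i := dist_comm _ _

theorem CP_exc_symm (κ α : ℕ → ℝ) (i j : ℕ) : exc κ α i j = exc κ α j i := by
  unfold exc
  by_cases h : ov κ α i j
  · rw [if_pos h, if_pos (CP_ov_symm h)]
  · have h' : ¬ ov κ α j i := fun hh => h (CP_ov_symm hh)
    rw [if_neg h, if_neg h', CP_dd_symm κ α i j]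
    ring

section main

variable {m : ℕ} {κ α : ℕ → ℝ} {E : ℕ → Prop} {P : List ℕ}

/-- bounds of the right end of the cell -/
theorem CP_cr_bd (hC : Chain m κ α) (hm : ∀ i ∈ P, i < m) {i : ℕ} (hi : i < m) :
    Lf κ α i ≤ CP_cr κ α E P i ∧ CP_cr κ α E P i ≤ Rt κ α i := by
  have ha := hC.α0 i hi
  unfold CP_cr
  split_ifs with h
  · obtain ⟨h1, h2, _⟩ := h
    have h3 : i + 1 < m := hm _ (CP_adj_mem _ _ _ h1).2
    refine ⟨(hC.l i h3).le, ?_⟩
    rcases h2 with h2 | h2
    · exact h2.2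
    · omega
  · unfold Lf Rt
    constructor <;> linarith

/-- bounds of the left end of the cell -/
theorem CP_cl_bd (hC : Chain m κ α) {i : ℕ} (hi : i < m) :
    Lf κ α i ≤ CP_cl κ α E P i ∧ CP_cl κ α E P i ≤ Rt κ α i := by
  have ha := hC.α0 i hi
  unfold CP_cl
  split_ifs with h
  · obtain ⟨h0, h1, h2, _⟩ := h
    obtain ⟨k, rfl⟩ : ∃ k, i = k + 1 := ⟨i - 1, by omega⟩
    simp only [Nat.add_sub_cancel] at h1 h2 ⊢
    have h4 := hC.r k hi
    refine ⟨?_, h4.le⟩
    rcases h2 with h2 | h2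
    · exact h2.2
    · omega
  · unfold Lf Rt
    constructor <;> linarith

theorem CP_cl_le_cr (hC : Chain m κ α) (hm : ∀ i ∈ P, i < m) {i : ℕ} (hi : i < m) :
    CP_cl κ α E P i ≤ CP_cr κ α E P i := by
  by_cases h : CP_adj i (i + 1) P ∧ ov κ α i (i + 1) ∧ E (i + 1)
  · have e1 : CP_cr κ α E P i = Lf κ α (i + 1) := by
      unfold CP_cr; rw [if_pos h]
    have h3 : i + 1 < m := hm _ (CP_adj_mem _ _ _ h.1).2
    rw [e1]
    unfold CP_cl
    split_ifs with h'
    · obtain ⟨k, rfl⟩ : ∃ k, i = k + 1 := ⟨i - 1, by omega⟩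
      simp only [Nat.add_sub_cancel]
      exact (hC.sep k h3).le
    · exact (hC.l i h3).le
  · have e1 : CP_cr κ α E P i = Rt κ α i := by
      unfold CP_cr; rw [if_neg h]
    rw [e1]
    exact (CP_cl_bd hC hi).2

theorem CP_cos_pos (hC : Chain m κ α) {i : ℕ} (hi : i < m) : 0 < Real.cos (α i) :=
  Real.cos_pos_of_mem_Ioo ⟨by linarith [hC.α0 i hi, Real.pi_pos], hC.α1 i hi⟩

theorem CP_S_le (hC : Chain m κ α) {i : ℕ} (hi : i < m) {x : ℝ} (hx : |x| ≤ α i) :
    Real.sin x / Real.cos (α i) ≤ Real.tan (α i) := by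
  rw [Real.tan_eq_sin_div_cos]
  have h1 := abs_le.mp hx
  have h2 := hC.α1 i hi
  exact div_le_div_of_nonneg_right
    (Real.sin_le_sin_of_le_of_le_pi_div_two (by linarith) h2.le h1.2) (CP_cos_pos hC hi).le

theorem CP_absr (hC : Chain m κ α) (hm : ∀ i ∈ P, i < m) {i : ℕ} (hi : i < m) :
    |CP_cr κ α E P i - κ i| ≤ α i := by
  have h := CP_cr_bd (E := E) hC hm hi
  unfold Lf Rt at h
  rw [abs_le]
  constructor <;> linarith [h.1, h.2]

theorem CP_absl (hC : Chain m κ α) {i : ℕ} (hi : i < m) :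
    |κ i - CP_cl κ α E P i| ≤ α i := by
  have h := CP_cl_bd (E := E) (P := P) hC hi
  unfold Lf Rt at h
  rw [abs_le]
  constructor <;> linarith [h.1, h.2]

/-- every charge is at most the tangent, and it is one of the three values -/
theorem CP_c_cases (κ α : ℕ → ℝ) (E : ℕ → Prop) (P : List ℕ) (i j : ℕ) :
    (j = i + 1 ∧ CP_c κ α E P i j = Real.sin (CP_cr κ α E P i - κ i) / Real.cos (α i)) ∨
    (i = j + 1 ∧ CP_c κ α E P i j = Real.sin (κ i - CP_cl κ α E P i) / Real.cos (α i)) ∨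
    CP_c κ α E P i j = Real.tan (α i) := by
  unfold CP_c
  split_ifs with h1 h2
  · exact Or.inl ⟨h2, rfl⟩
  · right; left
    refine ⟨?_, rfl⟩
    rcases h1 with h1 | h1
    · exact absurd h1.1 h2
    · exact h1.1
  · exact Or.inr (Or.inr rfl)

/-- the two charges of an inner vertex pay for its cell -/
theorem CP_inner (hCH : Stmt_CH) (hC : Chain m κ α) (hm : ∀ i ∈ P, i < m) {i x y : ℕ}
    (hi : i < m) (hxy : x ≠ y) :
    CP_cr κ α E P i - CP_cl κ α E P i ≤ CP_c κ α E P i x + CP_c κ α E P i y := by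
  have hA := CP_absr (E := E) hC hm hi
  have hB := CP_absl (E := E) (P := P) hC hi
  have hA' := CP_S_le hC hi hA
  have hB' := CP_S_le hC hi hB
  have hs : 0 ≤ (CP_cr κ α E P i - κ i) + (κ i - CP_cl κ α E P i) := by
    have := CP_cl_le_cr (E := E) hC hm hi
    linarith
  have h := hCH (α i) (CP_cr κ α E P i - κ i) (κ i - CP_cl κ α E P i) (hC.α1 i hi) hA hB hs
  have h2 : CP_cr κ α E P i - CP_cl κ α E P i ≤
      Real.sin (CP_cr κ α E P i - κ i) / Real.cos (α i) +
      Real.sin (κ i - CP_cl κ α E P i) / Real.cos (α i) := by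
    rw [← add_div]
    linarith
  rcases CP_c_cases κ α E P i x with ⟨h3, h4⟩ | ⟨h3, h4⟩ | h4 <;>
  rcases CP_c_cases κ α E P i y with ⟨h5, h6⟩ | ⟨h5, h6⟩ | h6 <;>
  first
    | (exfalso; omega)
    | (rw [h4, h6]; linarith)

/-- one charge and the tangent pay for the cell -/
theorem CP_inner1 (hCH : Stmt_CH) (hC : Chain m κ α) (hm : ∀ i ∈ P, i < m) {i x : ℕ}
    (hi : i < m) :
    CP_cr κ α E P i - CP_cl κ α E P i ≤ CP_c κ α E P i x + Real.tan (α i) := by
  have hA := CP_absr (E := E) hC hm hi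
  have hB := CP_absl (E := E) (P := P) hC hi
  have hA' := CP_S_le hC hi hA
  have hB' := CP_S_le hC hi hB
  have hs : 0 ≤ (CP_cr κ α E P i - κ i) + (κ i - CP_cl κ α E P i) := by
    have := CP_cl_le_cr (E := E) hC hm hi
    linarith
  have h := hCH (α i) (CP_cr κ α E P i - κ i) (κ i - CP_cl κ α E P i) (hC.α1 i hi) hA hB hs
  have h2 : CP_cr κ α E P i - CP_cl κ α E P i ≤
      Real.sin (CP_cr κ α E P i - κ i) / Real.cos (α i) +
      Real.sin (κ i - CP_cl κ α E P i) / Real.cos (α i) := by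
    rw [← add_div]
    linarith
  rcases CP_c_cases κ α E P i x with ⟨h3, h4⟩ | ⟨h3, h4⟩ | h4 <;> rw [h4] <;> linarith

/-- `E` contains no used pair -/
def CP_HE (κ α : ℕ → ℝ) (E : ℕ → Prop) (P : List ℕ) : Prop :=
  ∀ i, CP_adj i (i + 1) P → ov κ α i (i + 1) → E i → E (i + 1) → False

theorem CP_end (hE : CP_HE κ α E P) {i : ℕ} (hi : E i) :
    CP_cr κ α E P i = Rt κ α i ∧ CP_cl κ α E P i = Lf κ α i ∧
      ∀ j, CP_c κ α E P i j = Real.tan (α i) := by
  have h1 : CP_cr κ α E P i = Rt κ α i := by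
    unfold CP_cr
    rw [if_neg]
    rintro ⟨h1, h2, h3⟩
    exact hE i h1 h2 hi h3
  have h2 : CP_cl κ α E P i = Lf κ α i := by
    unfold CP_cl
    rw [if_neg]
    rintro ⟨_, _, _, h3⟩
    exact h3 hi
  refine ⟨h1, h2, ?_⟩
  intro j
  rcases CP_c_cases κ α E P i j with ⟨_, h4⟩ | ⟨_, h4⟩ | h4
  · rw [h4, h1, Real.tan_eq_sin_div_cos]
    unfold Rt
    congr 2
    ring
  · rw [h4, h2, Real.tan_eq_sin_div_cos]
    unfold Lf
    congr 2
    ring
  · exact h4

/-- the pair inequality, ordered form -/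
theorem CP_pair0 (hPRJ : Stmt_PRJ) (hC : Chain m κ α) (hm : ∀ i ∈ P, i < m) {i : ℕ}
    (ha : CP_adj i (i + 1) P) (ho : ov κ α i (i + 1)) :
    CP_c κ α E P i (i + 1) + CP_c κ α E P (i + 1) i + exc κ α i (i + 1) ≤ dd κ α i (i + 1) := by
  have hmem := CP_adj_mem _ _ _ ha
  have hi := hm _ hmem.1
  have hj := hm _ hmem.2
  have e0 : exc κ α i (i + 1) = 0 := by unfold exc; rw [if_pos ho]
  have e1 : CP_c κ α E P i (i + 1) =
      Real.sin (CP_cr κ α E P i - κ i) / Real.cos (α i) := by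
    unfold CP_c; rw [if_pos ho, if_pos rfl]
  have e2 : CP_c κ α E P (i + 1) i =
      Real.sin (κ (i + 1) - CP_cl κ α E P (i + 1)) / Real.cos (α (i + 1)) := by
    unfold CP_c; rw [if_pos (CP_ov_symm ho), if_neg (by omega)]
  have e3 : CP_cl κ α E P (i + 1) = CP_cr κ α E P i := by
    unfold CP_cl CP_cr
    by_cases h : E (i + 1)
    · rw [if_neg (by rintro ⟨_, _, _, h3⟩; exact h3 h), if_pos ⟨ha, ho, h⟩]
    · rw [if_pos ⟨Nat.succ_pos i, by simpa using ha, by simpa using ho, h⟩,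
        if_neg (by rintro ⟨_, _, h3⟩; exact h h3)]
      simp
  rw [e0, e1, e2, e3]
  have := hPRJ (κ i) (κ (i + 1)) (α i) (α (i + 1)) (CP_cr κ α E P i) (CP_cos_pos hC hi)
    (CP_cos_pos hC hj)
  unfold dd
  linarith

theorem CP_pair (hPRJ : Stmt_PRJ) (hC : Chain m κ α) (hm : ∀ i ∈ P, i < m) {i j : ℕ}
    (ha : CP_adj i j P) :
    CP_c κ α E P i j + CP_c κ α E P j i + exc κ α i j ≤ dd κ α i j := by
  by_cases ho : ov κ α i j
  · rcases id ho with h | h
    · obtain ⟨h1, _⟩ := h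
      subst h1
      exact CP_pair0 hPRJ hC hm ha ho
    · obtain ⟨h1, _⟩ := h
      subst h1
      have := CP_pair0 (E := E) hPRJ hC hm (CP_adj_symm _ _ _ ha) (CP_ov_symm ho)
      rw [CP_dd_symm κ α (j + 1) j, CP_exc_symm κ α (j + 1) j]
      linarith
  · have ho' : ¬ ov κ α j i := fun hh => ho (CP_ov_symm hh)
    unfold CP_c exc
    rw [if_neg ho, if_neg ho', if_neg ho]
    linarith

/-- sum of the cells -/
def CP_W (κ α : ℕ → ℝ) (E : ℕ → Prop) (P : List ℕ) (q : List ℕ) : ℝ :=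
  (q.map (fun i => CP_cr κ α E P i - CP_cl κ α E P i)).sum

theorem CP_sum (hPRJ : Stmt_PRJ) (hCH : Stmt_CH) (hC : Chain m κ α) (hm : ∀ i ∈ P, i < m)
    (hE : CP_HE κ α E P) {l : ℕ} (hl : E l) :
    ∀ (q : List ℕ) (x y : ℕ), (x :: y :: q).Nodup → (y :: q).getLast? = some l →
      (∀ i j, CP_adj i j (x :: y :: q) → CP_adj i j P) →
      CP_c κ α E P x y + CP_W κ α E P (y :: q) - sf (α l) + psum (exc κ α) (x :: y :: q) ≤
        psum (dd κ α) (x :: y :: q)
  | [], x, y, hnd, hla, hadj => by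
    have hyl : y = l := by simpa using hla
    subst hyl
    have hP : CP_adj x y P := hadj x y (Or.inl ⟨rfl, rfl⟩)
    have h1 := CP_pair (E := E) hPRJ hC hm hP
    obtain ⟨h2, h3, h4⟩ := CP_end hE hl
    rw [h4 x] at h1
    simp only [CP_W, List.map_cons, List.map_nil, List.sum_cons, List.sum_nil, psum, sf, h2, h3,
      Rt, Lf]
    linarith
  | z :: q, x, y, hnd, hla, hadj => by
    have hP : CP_adj x y P := hadj x y (Or.inl ⟨rfl, rfl⟩)
    have h1 := CP_pair (E := E) hPRJ hC hm hP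
    have hxz : x ≠ z := by
      intro h
      subst h
      simp at hnd
    have hy : y < m := hm _ (CP_adj_mem _ _ _ hP).2
    have h2 := CP_inner (E := E) hCH hC hm hy hxz
    have hla' : (z :: q).getLast? = some l := by
      rw [List.getLast?_cons_cons] at hla
      exact hla
    have h3 := CP_sum hPRJ hCH hC hm hE hl q y z (List.Nodup.of_cons hnd) hla'
      (fun i j h => hadj i j (Or.inr (Or.inr h)))
    have e1 : CP_W κ α E P (y :: z :: q) =
        (CP_cr κ α E P y - CP_cl κ α E P y) + CP_W κ α E P (z :: q) := by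
      simp only [CP_W, List.map_cons, List.sum_cons]
    have e2 : psum (exc κ α) (x :: y :: z :: q) = exc κ α x y + psum (exc κ α) (y :: z :: q) := rfl
    have e3 : psum (dd κ α) (x :: y :: z :: q) = dd κ α x y + psum (dd κ α) (y :: z :: q) := rfl
    rw [e1, e2, e3]
    linarith

/-- measure of a union of intervals over a list -/
theorem CP_meas (a b : ℕ → ℝ) : ∀ q : List ℕ, (∀ i ∈ q, a i ≤ b i) →
    volume (⋃ i ∈ q, Icc (a i) (b i)) ≤ ENNReal.ofReal ((q.map (fun i => b i - a i)).sum)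
  | [], _ => by simp
  | x :: q, h => by
    have h1 := CP_meas a b q (fun i hi => h i (List.mem_cons_of_mem _ hi))
    have h2 : (⋃ i ∈ (x :: q), Icc (a i) (b i)) ⊆ Icc (a x) (b x) ∪ ⋃ i ∈ q, Icc (a i) (b i) := by
      intro t ht
      simp only [mem_iUnion] at ht
      obtain ⟨i, hi, hti⟩ := ht
      rcases List.mem_cons.mp hi with h3 | h3
      · subst h3; exact Or.inl hti
      · exact Or.inr (by simp only [mem_iUnion]; exact ⟨i, h3, hti⟩)
    have h0 : 0 ≤ (q.map (fun i => b i - a i)).sum := by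
      apply List.sum_nonneg
      intro t ht
      obtain ⟨i, hi, rfl⟩ := List.mem_map.mp ht
      have := h i (List.mem_cons_of_mem _ hi)
      linarith
    calc volume (⋃ i ∈ (x :: q), Icc (a i) (b i))
        ≤ volume (Icc (a x) (b x) ∪ ⋃ i ∈ q, Icc (a i) (b i)) := measure_mono h2
      _ ≤ volume (Icc (a x) (b x)) + volume (⋃ i ∈ q, Icc (a i) (b i)) := measure_union_le _ _
      _ ≤ ENNReal.ofReal (b x - a x) + ENNReal.ofReal ((q.map (fun i => b i - a i)).sum) := by
          rw [Real.volume_Icc]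
          exact add_le_add le_rfl h1
      _ = ENNReal.ofReal (((x :: q).map (fun i => b i - a i)).sum) := by
          rw [List.map_cons, List.sum_cons, ENNReal.ofReal_add _ h0]
          have := h x (by simp)
          linarith

theorem CP_cover (hC : Chain m κ α) (hm : ∀ i ∈ P, i < m) (hE : CP_HE κ α E P) :
    (⋃ i ∈ P, Icc (Lf κ α i) (Rt κ α i)) ⊆
      ⋃ i ∈ P, Icc (CP_cl κ α E P i) (CP_cr κ α E P i) := by
  intro t ht
  simp only [mem_iUnion] at ht ⊢
  obtain ⟨i, hi, hti⟩ := ht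
  by_cases h1 : t < CP_cl κ α E P i
  · by_cases h2 : 0 < i ∧ CP_adj (i - 1) i P ∧ ov κ α (i - 1) i ∧ ¬ E i
    · have e1 : CP_cl κ α E P i = Rt κ α (i - 1) := by unfold CP_cl; rw [if_pos h2]
      obtain ⟨h3, h4, h5, h6⟩ := h2
      obtain ⟨k, rfl⟩ : ∃ k, i = k + 1 := ⟨i - 1, by omega⟩
      simp only [Nat.add_sub_cancel] at e1 h4 h5
      have hk1 : k + 1 < m := hm _ hi
      refine ⟨k, (CP_adj_mem _ _ _ h4).1, ?_, ?_⟩
      · have h7 : CP_cl κ α E P k ≤ Lf κ α (k + 1) := by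
          unfold CP_cl
          split_ifs with h8
          · obtain ⟨j, rfl⟩ : ∃ j, k = j + 1 := ⟨k - 1, by omega⟩
            simp only [Nat.add_sub_cancel]
            exact (hC.sep j hk1).le
          · exact (hC.l k hk1).le
        exact h7.trans hti.1
      · have e2 : CP_cr κ α E P k = Rt κ α k := by
          unfold CP_cr
          rw [if_neg]
          rintro ⟨_, _, h9⟩
          exact h6 h9
        rw [e2, ← e1]
        exact h1.le
    · have e1 : CP_cl κ α E P i = Lf κ α i := by unfold CP_cl; rw [if_neg h2]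
      rw [e1] at h1
      exact absurd hti.1 (not_le.mpr h1)
  · by_cases h2 : t ≤ CP_cr κ α E P i
    · exact ⟨i, hi, not_lt.mp h1, h2⟩
    · by_cases h3 : CP_adj i (i + 1) P ∧ ov κ α i (i + 1) ∧ E (i + 1)
      · have e1 : CP_cr κ α E P i = Lf κ α (i + 1) := by unfold CP_cr; rw [if_pos h3]
        have h4 := CP_end hE h3.2.2
        have h5 := (CP_adj_mem _ _ _ h3.1).2
        have h6 := hC.r i (hm _ h5)
        refine ⟨i + 1, h5, ?_, ?_⟩
        · rw [h4.2.1, ← e1]
          exact (not_le.mp h2).le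
        · rw [h4.1]
          exact hti.2.trans h6.le
      · have e1 : CP_cr κ α E P i = Rt κ α i := by unfold CP_cr; rw [if_neg h3]
        rw [e1] at h2
        exact absurd hti.2 h2

theorem CP_U_le (hC : Chain m κ α) (hm : ∀ i ∈ P, i < m) (hE : CP_HE κ α E P) :
    U κ α P ≤ CP_W κ α E P P := by
  have h1 := CP_meas (CP_cl κ α E P) (CP_cr κ α E P) P
    (fun i hi => CP_cl_le_cr hC hm (hm i hi))
  have h2 := (measure_mono (μ := volume) (CP_cover hC hm hE)).trans h1
  have h0 : 0 ≤ (P.map (fun i => CP_cr κ α E P i - CP_cl κ α E P i)).sum := by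
    apply List.sum_nonneg
    intro t ht
    obtain ⟨i, hi, rfl⟩ := List.mem_map.mp ht
    have := CP_cl_le_cr (E := E) hC hm (hm i hi)
    linarith
  have h3 := ENNReal.toReal_mono ENNReal.ofReal_ne_top h2
  rw [ENNReal.toReal_ofReal h0] at h3
  exact h3

end main

end

end Pool.BA
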