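import Mathlib
import Pool.Agent.Work.MP_655153_co.Defs

/-!
# The two-arc beam detection constant: definitions

`u θ` unit vector, `pr θ z` the component of `z` in direction `θ`, `V κ α` the point whose closed
cap (the directions `θ` with `pr θ z ≥ 1`) is `[κ - α, κ + α]`; `plen` the length of a polygonal
path through a list of points; `Chain m κ α` a minimal sorted family of caps.
-/

open MeasureTheory Set

namespace Pool.BA

noncomputable section

/-- unit vector of direction `θ` -/
def u (θ : ℝ) : ℂ := ⟨Real.cos θ, Real.sin θ⟩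

/-- component in direction `θ` -/
def pr (θ : ℝ) (z : ℂ) : ℝ := z.re * Real.cos θ + z.im * Real.sin θ

/-- the point with cap `[κ - α, κ + α]` (`0 ≤ α < π/2`): `(1 / cos α) u κ` -/
def V (κ α : ℝ) : ℂ := ⟨Real.cos κ / Real.cos α, Real.sin κ / Real.cos α⟩

/-- length of the polygonal path through a list of points -/
def plen : List ℂ → ℝ
  | [] => 0
  | [_] => 0
  | x :: y :: l => dist x y + plen (y :: l)

/-- sum of a function over the consecutive pairs of a list -/
def psum (f : ℕ → ℕ → ℝ) : List ℕ → ℝ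
  | [] => 0
  | [_] => 0
  | i :: j :: l => f i j + psum f (j :: l)

/-- a relation holds for all consecutive pairs of a list -/
def Cons (R : ℕ → ℕ → Prop) : List ℕ → Prop
  | [] => True
  | [_] => True
  | i :: j :: l => R i j ∧ Cons R (j :: l)

/-- the saving at an end of half-angle `α` -/
def sf (α : ℝ) : ℝ := 2 * α - Real.tan α

/-- the largest saving `sf (π/4)` -/
def s0 : ℝ := Real.pi / 2 - 1

/-- left end of the cap number `i` -/
def Lf (κ α : ℕ → ℝ) (i : ℕ) : ℝ := κ i - α i

/-- right end of the cap number `i` -/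
def Rt (κ α : ℕ → ℝ) (i : ℕ) : ℝ := κ i + α i

/-- distance of the vertices number `i` and `j` -/
def dd (κ α : ℕ → ℝ) (i j : ℕ) : ℝ := dist (V (κ i) (α i)) (V (κ j) (α j))

/-- a sorted minimal family of caps: consecutive caps may overlap or not, caps at index distance
at least two are disjoint -/
structure Chain (m : ℕ) (κ α : ℕ → ℝ) : Prop where
  α0 : ∀ i < m, 0 ≤ α i
  α1 : ∀ i < m, α i < Real.pi / 2
  l : ∀ i, i + 1 < m → Lf κ α i < Lf κ α (i + 1)
  r : ∀ i, i + 1 < m → Rt κ α i < Rt κ α (i + 1)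
  sep : ∀ i, i + 2 < m → Rt κ α i < Lf κ α (i + 2)

/-- neighbours whose closed caps meet -/
def ov (κ α : ℕ → ℝ) (i j : ℕ) : Prop :=
  (j = i + 1 ∧ Lf κ α j ≤ Rt κ α i) ∨ (i = j + 1 ∧ Lf κ α i ≤ Rt κ α j)

open Classical in
/-- excess of the edge `i j`: `0` for overlapping neighbours, otherwise distance minus the two
tangent lengths -/
def exc (κ α : ℕ → ℝ) (i j : ℕ) : ℝ :=
  if ov κ α i j then 0 else dd κ α i j - Real.tan (α i) - Real.tan (α j)

/-- measure of the union of the caps with index in the list `p` -/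
def U (κ α : ℕ → ℝ) (p : List ℕ) : ℝ :=
  (volume (⋃ i ∈ p, Icc (Lf κ α i) (Rt κ α i))).toReal

/-- length of the short side of the pair `i < j` in a window of length `2π` -/
def short (κ α : ℕ → ℝ) (i j : ℕ) : ℝ :=
  if κ j - κ i ≤ Real.pi then Lf κ α j - Rt κ α i else Lf κ α i + 2 * Real.pi - Rt κ α j

/-- `p` visits exactly the indices `< m`, each once -/
def Visits (m : ℕ) (p : List ℕ) : Prop := p.Nodup ∧ ∀ i, i ∈ p ↔ i < m

/-- the vertices of the list `p` of indices -/
def pts (κ α : ℕ → ℝ) (p : List ℕ) : List ℂ := p.map (fun i => V (κ i) (α i))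

/-- the direction `θ` is not covered by `P` -/
def Free (P : List ℂ) (θ : ℝ) : Prop := ∀ p ∈ P, pr θ p < 1

/-- length of the symmetric bow and arrow detector -/
def bowArrow (μ t : ℝ) : ℝ :=
  2 * Real.pi - 2 * μ + 2 * t - 4 * Real.arctan t + (Real.tan μ + t) * Real.sin μ

/-- the constant: infimum of the lengths of the bow and arrow detectors -/
def Tstar : ℝ :=
  sInf {y | ∃ μ t, 0 < μ ∧ μ < Real.pi / 2 ∧ 0 < t ∧ 4 * Real.arctan t < 2 * Real.pi - 2 * μ ∧
    y = bowArrow μ t}

end

end Pool.BA
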