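import Pool.Agent.Work.MP_655153_ba.Defs

/-!
# Blueprint, part 1: tools (all blocks independent; hypotheses = column `uses`)

Notation in the proofs: `L_i = Lf κ α i`, `R_i = Rt κ α i`, `t_i = tan (α i)`,
`w_i = V (κ i) (α i)`, `S_i(x) = sin x / cos (α i)`, `e(θ) = (-sin θ, cos θ)`.
-/

open MeasureTheory Set
open scoped ENNReal

namespace Pool.BA

noncomputable section

/-- lemma type: one consecutive pair of the list satisfies `R` -/
def Some2 (R : ℕ → ℕ → Prop) : List ℕ → Prop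
  | [] => False
  | [_] => False
  | i :: j :: l => R i j ∨ Some2 R (j :: l)

/-- the gap before the cap number `s` (for `s = 0`: the gap around the window of length `2π`) -/
def gap (κ α : ℕ → ℝ) (m s : ℕ) : ℝ :=
  if s = 0 then Lf κ α 0 + 2 * Real.pi - Rt κ α (m - 1) else Lf κ α s - Rt κ α (s - 1)

/-- cyclic predecessor -/
def prd (m s : ℕ) : ℕ := if s = 0 then m - 1 else s - 1

/-- HL. Proof. Multiply by `cos α > 0`: claim `sin α + (ω - α)/2 cos α ≤ sin ω`. The function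
`f(ω) = sin ω - (ω/2) cos α` is concave on `[α, π/2] ⊆ [0, π]` (`strictConcaveOn_sin_Icc`), so it is
enough to check the two ends. `ω = α`: equality. `ω = π/2`, `β = π/2 - α`: claim
`cos β + (β/2) sin β ≤ 1`, i.e. `2 sin (β/2) (sin (β/2) - (β/2) cos (β/2)) ≥ 0`, true as
`x cos x ≤ sin x` for `0 ≤ x ≤ π/2` (`Real.le_tan` or `Real.lt_tan`). -/
def Stmt_HL : Prop := ∀ α ω : ℝ, 0 ≤ α → α ≤ ω → ω ≤ Real.pi / 2 → α < Real.pi / 2 →
  Real.tan α + (ω - α) / 2 ≤ Real.sin ω / Real.cos α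

/-- PRJ. Proof. With the unit vector `e = (-sin β, cos β)`:
`⟨V κ' α' - V κ α, e⟩ = sin (κ' - β)/cos α' - sin (κ - β)/cos α` (`Real.sin_sub`), and
`⟨z, e⟩ ≤ ‖z‖` (Cauchy-Schwarz, `Complex.dist_eq`, `Complex.abs_re_le_norm` style or square). -/
def Stmt_PRJ : Prop := ∀ κ κ' α α' β : ℝ, 0 < Real.cos α → 0 < Real.cos α' →
  Real.sin (β - κ) / Real.cos α + Real.sin (κ' - β) / Real.cos α' ≤ dist (V κ α) (V κ' α')

/-- PI (two caps at angular distance `Θ` of their centres, `Θ ≤ π`). Uses HL, PRJ. Proof.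
`dist (V κ α) (V κ' α')² = 1/cos²α + 1/cos²α' - 2 cos (κ' - κ)/(cos α cos α')`, so
`dist (V κ α) (V κ' α') = dist (V 0 α) (V Θ α')`. Put `ω = max α (Θ - π/2)`; then `α ≤ ω ≤ π/2`
and `α' ≤ Θ - ω ≤ π/2`. PRJ with `β = ω`: `dist ≥ sin ω/cos α + sin (Θ - ω)/cos α'`; HL twice. -/
def Stmt_PI : Prop := ∀ κ κ' α α' Θ : ℝ, 0 ≤ α → α < Real.pi / 2 → 0 ≤ α' → α' < Real.pi / 2 →
  Real.cos Θ = Real.cos (κ' - κ) → α + α' ≤ Θ → Θ ≤ Real.pi →
  Real.tan α + Real.tan α' + (Θ - α - α') / 2 ≤ dist (V κ α) (V κ' α')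

/-- CH. Proof. Put `x = (ρ + ρ')/2 ≥ 0`, `y = (ρ - ρ')/2`; `x + |y| ≤ α` (as `|ρ|, |ρ'| ≤ α`).
`sin ρ + sin ρ' = 2 sin x cos y ≥ 2 sin x cos (α - x)` (`|y| ≤ α - x ≤ π`). Claim
`sin x cos (α - x) ≥ x cos α` for `0 ≤ x ≤ α < π/2`:
`cos (α - x) = cos α cos x + sin α sin x` and `sin α ≥ cos α tan x` (i.e. `sin (α - x) ≥ 0`), so
`sin x cos (α - x) ≥ cos α (sin x cos x + sin³ x/cos x) = cos α tan x ≥ x cos α`. -/
def Stmt_CH : Prop := ∀ α ρ ρ' : ℝ, α < Real.pi / 2 → |ρ| ≤ α → |ρ'| ≤ α → 0 ≤ ρ + ρ' →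
  ρ + ρ' ≤ (Real.sin ρ + Real.sin ρ') / Real.cos α

/-- D1 (overlapping caps). Uses PRJ. Proof. Fact: `sin x/cos α ≥ x` for `0 ≤ x ≤ α < π/2`
(`cos α ≤ cos x`, `sin x ≥ x cos x`). If `κ ≥ κ' - α'`: PRJ with `β = κ`:
`dist ≥ sin (κ' - κ)/cos α' ≥ κ' - κ`. If `κ' ≤ κ + α`: PRJ with `β = κ'`. Otherwise take
`β = κ' - α'`: `0 < β - κ ≤ α` and `κ' - β = α'`, so `dist ≥ (β - κ) + (κ' - β)`. -/
def Stmt_D1 : Prop := ∀ κ κ' α α' : ℝ, 0 ≤ α → α < Real.pi / 2 → 0 ≤ α' → α' < Real.pi / 2 →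
  κ ≤ κ' → κ' - α' ≤ κ + α → κ' - κ ≤ dist (V κ α) (V κ' α')

/-- GAIN (one of the caps is small). Uses HL, PRJ. Proof. As in PI:
`dist = dist (V 0 α) (V Θ α')`, `g = Θ - α - α' ≥ 13π/180`, `α ≤ π/36`. Note
`tan α ≤ tan (π/36) ≤ 0.0875`. (1) `g ≤ π/2 - α`: PRJ with `β = Θ - α'`:
`dist ≥ sin (g + α)/cos α + tan α'` and `sin (g + α)/cos α = sin g + tan α cos g`, so it remains
`G(g) = sin g - g/2 - 0.0875 (1 - cos g) ≥ 1/10` on `[13π/180, π/2]`; `sin g + 0.0875 cos g` is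
concave there, so `G` is concave and it is enough to check `g = 13π/180`
(`G = 0.2250 - 0.1135 - 0.0023 = 0.1092`) and `g = π/2` (`G = 1 - 0.7854 - 0.0875 = 0.1271`).
(2) `g > π/2 - α`: PRJ with `β = π/2`: `dist ≥ 1/cos α + sin (Θ - π/2)/cos α'`, and
`α' ≤ Θ - π/2 ≤ π/2`, so by HL `dist ≥ 1 + tan α' + (g + α - π/2)/2
≥ tan α' + g/2 + (1 - π/4) ≥ tan α' + g/2 + tan α + 1/10` (`1 - 0.7854 - 0.0875 = 0.127`). -/
def Stmt_GAIN : Prop := ∀ κ κ' α α' Θ : ℝ, 0 ≤ α → α ≤ Real.pi / 36 → 0 ≤ α' →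
  α' < Real.pi / 2 → Real.cos Θ = Real.cos (κ' - κ) → α + α' + 13 * Real.pi / 180 ≤ Θ →
  Θ ≤ Real.pi →
  Real.tan α + Real.tan α' + (Θ - α - α') / 2 + 1 / 10 ≤ dist (V κ α) (V κ' α')

/-- CP (charge lemma, two ends). Uses PRJ, CH. `p = y_0, ..., y_k`, ends `f = y_0`, `l = y_k`,
`k ≥ 1`. Proof. Call an unordered pair `{i, i+1}` USED if `i`, `i+1` are consecutive in `p` (in
some order) and `ov κ α i (i+1)`. The pair `{f, l}` is never used (if `f`, `l` are consecutive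
then `k = 1` and `¬ ov`). For `i ∈ p` define the cell `[cl i, cr i]`:
`cr i = L_{i+1}` if `{i, i+1}` is used and `i + 1 ∈ {f, l}`, otherwise `cr i = R_i`;
`cl i = R_{i-1}` if `{i-1, i}` is used and `i ∉ {f, l}`, otherwise `cl i = L_i`.
(a) For a used pair: `cr i = cl (i+1) =: β` (if `i + 1 ∈ {f, l}`: both are `L_{i+1}`; else both
are `R_i`). (b) `L_i ≤ cl i ≤ cr i ≤ R_i` (`L_{i+1} ∈ (L_i, R_i]`, `R_{i-1} ∈ [L_i, R_i)`,
`R_{i-1} < L_{i+1}` by `sep`). (c) If `i ∈ {f, l}` the cell is the whole cap. (d) The cells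
cover the caps: `x ∈ [L_i, cl i)` means `cl i = R_{i-1}`, `i ∉ {f, l}`, so `cr (i-1) = R_{i-1}`
and `cl (i-1) ∈ {R_{i-2}, L_{i-1}}` is `< L_i ≤ x`: `x` is in the cell of `i-1`; `x ∈ (cr i, R_i]`
means `cr i = L_{i+1}`, `i + 1 ∈ {f, l}`, the cell of `i+1` is its cap and contains `x`. So
`U κ α p ≤ ∑_{i ∈ p} (cr i - cl i)`. Charges: for each consecutive pair `e = (i, j)` of `p` put
`c(i, e) = S_i(cr i - κ_i)` if `e` is used and `j = i + 1`, `c(i, e) = S_i(κ_i - cl i)` if `e` is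
used and `j = i - 1`, and `c(i, e) = t_i` if `¬ ov`. Then
`dd i j ≥ c(i, e) + c(j, e) + exc i j`: for a used pair by PRJ with `β` (exc = 0), otherwise
equality by definition of `exc`. A vertex `y_j` with `0 < j < k` has two different neighbours in
`p`; as `t_i = S_i(α_i) ≥ S_i(x)` for `|x| ≤ α_i`, the sum of its two charges is at least
`S_i(cr i - κ_i) + S_i(κ_i - cl i) ≥ cr i - cl i` (CH). An end `i` has one charge, equal to `t_i`
(its cell is the cap) `= (cr i - cl i) - sf (α i)`. Sum over all pairs. -/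
def Stmt_CP : Prop := ∀ (m : ℕ) (κ α : ℕ → ℝ) (p : List ℕ) (f l : ℕ), Chain m κ α → p.Nodup →
  (∀ i ∈ p, i < m) → p.head? = some f → p.getLast? = some l → 2 ≤ p.length →
  (p.length = 2 → ¬ ov κ α f l) →
  U κ α p - sf (α f) - sf (α l) + psum (exc κ α) p ≤ psum (dd κ α) p

/-- BV (charge lemma, one end). Uses PRJ, CH. Proof. If `p = [f]`: `f = l`, `U = 2 α_f`,
equality (`sf (α f) = 2 α_f - tan (α f)`). Otherwise exactly the proof of CP with the set of
ends `{l}` instead of `{f, l}` (all definitions of `cr`, `cl` with `{l}`), the vertex `f` has one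
charge from its pair and the additional charge `t_f` (the summand `tan (α f)` on the right), so
the same estimate `≥ S_f(cr - κ) + S_f(κ - cl) ≥` cell holds for `f`. (No exception for
`p.length = 2`: in (a) the case `i, i+1` both ends does not occur.) -/
def Stmt_BV : Prop := ∀ (m : ℕ) (κ α : ℕ → ℝ) (p : List ℕ) (f l : ℕ), Chain m κ α → p.Nodup →
  (∀ i ∈ p, i < m) → p.head? = some f → p.getLast? = some l →
  U κ α p - sf (α l) + psum (exc κ α) p ≤ psum (dd κ α) p + Real.tan (α f)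

/-- LA (all pairs use the inner side). Uses CP, D1. `a`, `b` smallest and largest index in `p`.
Proof by induction on the length (strong form of the statement for all `p`). `ov`, `exc`, `dd`
are symmetric, so reversing `p` changes nothing. `a < b` as `p` has two different elements.
(1) `f ∉ {a, b}`: `p = f :: q`, `q = y :: ...`; `q` contains `a`, `b`, satisfies the hypotheses
(if `q = [a, b]` or `[b, a]` then `a < f < b`, so `b ≥ a + 2` and `¬ ov`). `U p ≤ U q + δ`,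
`δ = volume (cap f \ cap y)`, and `δ ≤ 2 dd f y`: if `ov f y`, say `y = f + 1`, then
`δ ≤ L_y - L_f ≤ 2 (κ_y - κ_f) ≤ 2 dd` (D1; `2 κ = L + R`), the same if `y = f - 1`; if `¬ ov`,
the hypothesis gives `exc ≥ (L_max - R_min)/2 ≥ 0`, so `dd ≥ t_f + t_y ≥ α_f ≥ δ/2`
(`tan x ≥ x`). Hence the claim for `q` gives the claim for `p`. (2) `l ∉ {a, b}`: reverse.
(3) `{f, l} = {a, b}`: CP gives `psum dd ≥ U p - sf a - sf b + psum exc`, and
`psum exc ≥ ½ ∑ (L_max - R_min)` over the consecutive pairs with `¬ ov`. These intervals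
`(R_min, L_max)` cover `[L_a, R_b] \ ⋃ caps`: such a point `x` divides the indices of `p` into
`{R_i < x}` (contains `a`) and `{L_i > x}` (contains `b`); `p` goes from `a` to `b` (or back), so
some consecutive pair `(i, j)` has `R_i < x < L_j`, `i < j`, and it is not `ov`. So
`∑ ≥ (R_b - L_a) - U p`. -/
def Stmt_LA : Prop := ∀ (m : ℕ) (κ α : ℕ → ℝ) (p : List ℕ) (f l a b : ℕ), Chain m κ α →
  p.Nodup → (∀ i ∈ p, i < m) → p.head? = some f → p.getLast? = some l → 2 ≤ p.length →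
  (p.length = 2 → ¬ ov κ α f l) → a ∈ p → b ∈ p → (∀ i ∈ p, a ≤ i ∧ i ≤ b) →
  Cons (fun i j => ov κ α i j ∨
    (Lf κ α (max i j) - Rt κ α (min i j)) / 2 ≤ exc κ α i j) p →
  (Rt κ α b - Lf κ α a) / 2 + U κ α p / 2 - sf (α a) - sf (α b) ≤ psum (dd κ α) p

/-- HU (hopped or unhopped gap). Uses PI, CP, LA. Let `p` visit all `m` vertices of a chain in a
window of length `2π`. For `s < m` put `g_s = gap κ α m s`; a gap is `s = 0`, or `0 < s` with
`g_s > 0`. `U p = 2π - ∑ g_s` over the gaps (`U p = R_{m-1} - L_0 - ∑_{0<s} max 0 g_s`).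
For a consecutive pair `i < j` (order in `p` does not matter) with `¬ ov`: INNER if
`κ_j - κ_i ≤ π`, else OUTER; by PI (with `Θ = κ_j - κ_i` or `2π - (κ_j - κ_i)`; note
`R_i ≤ L_j`, `R_j ≤ L_i + 2π`) `exc i j ≥ short i j / 2 ≥ 0`. An inner pair hops the gaps `s` with
`i < s ≤ j`, an outer pair hops `s = 0` and the gaps `s` with `0 < s ≤ i` or `s > j`;
`short i j ≥ ∑` of the `g_s` of the gaps hopped by the pair (disjoint subintervals of the short
side). Case 1: every gap is hopped by some pair. Then `psum exc ≥ ½ ∑ g_s = (2π - U p)/2`, and if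
`Some2` holds with `η` then `psum exc ≥ (2π - U p)/2 + η`; CP and `sf x ≤ s0` for `0 ≤ x < π/2`
(maximum at `x = π/4`) give the first alternative (CP is applicable by the hypothesis on `m`).
Case 2: the gap `0` is not hopped, i.e. all pairs with `¬ ov` are inner: LA with `a = 0`,
`b = m - 1` gives the second alternative with `s = 0` (`½ (R_{m-1} - L_0) + ½ U p
= U p + (2π - U p)/2 - g_0/2`). Case 3: a gap `s > 0` is not hopped: rotate the window:
`κ' i = κ (i + s)` for `i < m - s`, `κ' i = κ (i + s - m) + 2π` for `m - s ≤ i`, `α'` the same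
without `2π`, `p' = p.map (fun i => if s ≤ i then i - s else i + m - s)`. This is again a chain
in a window (`g_s > 0` gives `R'_{m-1} < L'_0 + 2π`; at the junction of the old window:
`R_{m-1} < L_0 + 2π < L_1 + 2π` and `R_{m-2} < R_{m-1} < L_0 + 2π`), distances and `exc` are
unchanged (`V (κ + 2π) α = V κ α`; the neighbours at the junction are not `ov`, the old pair
`(s-1, s)` is not `ov` before and after). A pair `i < j` which is not `ov` and does not hop the
gap `s` is inner in the new chain: if `s ≤ i` or `j < s` it must have been inner (an outer pair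
hops `s`) and the difference of the centres is the same; if `i < s ≤ j` it must have been outer
and the new difference is `κ_i + 2π - κ_j < π`. So LA applies to the new chain (`a = 0`,
`b = m - 1`, old indices `s` and `s - 1`), its hypothesis by PI, and gives the second
alternative with `s`. (`m = 2`: `s = 1`, `R'_0 = R_1 < L_0 + 2π = L'_1`, not `ov`.) -/
def Stmt_HU : Prop := ∀ (m : ℕ) (κ α : ℕ → ℝ) (p : List ℕ) (η : ℝ), Chain m κ α →
  Rt κ α (m - 1) < Lf κ α 0 + 2 * Real.pi → Visits m p → (3 ≤ m ∨ (m = 2 ∧ Rt κ α 0 < Lf κ α 1)) →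
  (η = 0 ∨ (0 ≤ η ∧ Some2 (fun i j => ¬ ov κ α i j ∧
    short κ α (min i j) (max i j) / 2 + η ≤ exc κ α i j) p)) →
  (U κ α p + (2 * Real.pi - U κ α p) / 2 - 2 * s0 + η ≤ psum (dd κ α) p) ∨
  (∃ s < m, 0 < gap κ α m s ∧
    U κ α p + (2 * Real.pi - U κ α p) / 2 - gap κ α m s / 2 - sf (α s) - sf (α (prd m s))
      ≤ psum (dd κ α) p)

end

end Pool.BA
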