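import Pool.Agent.Work.MP_655153_ba.Interface1

/-!
# Blueprint, part 2: lists, extraction of the chain, three points on a path, reduction to finite
paths, upper bound (all blocks independent)
-/

open MeasureTheory Set
open scoped ENNReal

namespace Pool.BA

noncomputable section

open Pool.Agent.Work.MP_655153_co

/-- PLS. Proof: induction on the sublist relation with the triangle inequality; prove first
`plen (x :: l') ≤ dist x y + plen (y :: l')`-type steps: the stronger claim for every `x`: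
`plen (x :: l₁) ≤ plen (x :: l₂)`, `plen l₁ ≤ plen l₂` and `plen (x :: l₁) ≤ dist x y +
plen (y :: l₂)` may be convenient. Second item: `plen (l.map w) = psum (fun i j => dist (w i)
(w j)) l`. Third item: reversal (prove `plen (l₁ ++ [x] ++ l₂) = plen (l₁ ++ [x]) +
plen ([x] ++ l₂)` first; this is the fourth item). -/
def Stmt_PLS : Prop := (∀ l₁ l₂ : List ℂ, l₁.Sublist l₂ → plen l₁ ≤ plen l₂) ∧
  (∀ (w : ℕ → ℂ) (l : List ℕ), plen (l.map w) = psum (fun i j => dist (w i) (w j)) l) ∧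
  (∀ l : List ℂ, plen l.reverse = plen l) ∧
  (∀ (l₁ l₂ : List ℂ) (x : ℂ), plen (l₁ ++ x :: l₂) = plen (l₁ ++ [x]) + plen (x :: l₂))

/-- THREE. Uses PLS. Proof. If two of the points are equal, say `x = y`: then both occur, and
`dist x y + dist y z = dist y z ≤ plen P` (two elements of a list: `[y, z]` or `[z, y]` is a
sublist if `y ≠ z`). If all three are different, the list `P` has a sublist consisting of the
three points in some order; the middle one is `y`, `x` or `z`. PLS. -/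
def Stmt_THREE : Prop := ∀ (P : List ℂ) (x y z : ℂ), x ∈ P → y ∈ P → z ∈ P →
  dist x y + dist y z ≤ plen P ∨ dist y x + dist x z ≤ plen P ∨ dist x z + dist z y ≤ plen P

/-- QL. Uses THREE. Proof. For vectors `g₁`, `g₂` of norm `≤ 1`:
`dist p q ≥ ⟨q - p, g⟩`. `⟨z, u a⟩ = pr a z`. (1) middle `z` (path `x z y`):
`dist x z + dist z y ≥ ⟨x - z, K A u a⟩ + ⟨y - z, K B u b⟩ = K A pr a x + K B pr b y -
K pr ν z ≥ K (A + B - c)` (`A u a + B u b = u ν`; if `c < 0`... no sign condition is needed as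
`K ≥ 0` and `pr ν z ≤ c`). (2) middle `y` (path `x y z`): `dist x y + dist y z ≥
⟨x - y, K A u a⟩ + ⟨y - z, K u ν⟩ = K A pr a x + K B pr b y - K pr ν z`. (3) middle `x`: the
same with `a`, `b` exchanged. -/
def Stmt_QL : Prop := ∀ (Q : List ℂ) (a b ν A B K c : ℝ) (x y z : ℂ), x ∈ Q → y ∈ Q → z ∈ Q →
  0 ≤ A → 0 ≤ B → 0 ≤ K → K ≤ 1 → K * A ≤ 1 → K * B ≤ 1 →
  A * Real.cos a + B * Real.cos b = Real.cos ν → A * Real.sin a + B * Real.sin b = Real.sin ν →
  1 ≤ pr a x → 1 ≤ pr b y → pr ν z ≤ c → K * (A + B - c) ≤ plen Q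

/-- FER. Uses THREE. Proof. `g₀ = u 0`, `g₁ = u (2π/3)`, `g₂ = u (4π/3)`: unit vectors with sum
`0`. Middle `z`: `dist x z + dist z y ≥ ⟨x - z, g₁⟩ + ⟨y - z, g₂⟩ = pr (2π/3) x + pr (4π/3) y +
z.re`. Middle `x` (path `y x z`): `dist y x + dist x z ≥ ⟨y - x, g₂⟩ + ⟨z - x, g₀⟩`, the same
value. Middle `y`: `⟨x - y, g₁⟩ + ⟨z - y, g₀⟩`. -/
def Stmt_FER : Prop := ∀ (P : List ℂ) (x y z : ℂ), x ∈ P → y ∈ P → z ∈ P →
  z.re + pr (2 * Real.pi / 3) x + pr (4 * Real.pi / 3) y ≤ plen P

/-- LIFT. Proof. `x = r u κ₁` in polar coordinates, `r = ‖x‖ ≥ 1`, `α = arccos (1/r) ∈ [0, π/2)`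
so `r = 1/cos α`, `x = V κ₁ α`, `pr θ x = cos (θ - κ₁)/cos α`. `pr θ0 x < 1` means
`cos (θ0 - κ₁) < cos α`. Choose `κ = κ₁ + 2π n` in `[θ0, θ0 + 2π)`; with `y = κ - θ0 ∈ [0, 2π)`:
`cos y < cos α` means `α < y < 2π - α`. For `θ ∈ [θ0, θ0 + 2π]`: `|θ - κ| < 2π - α`, and for
such an argument `cos (θ - κ) ≥ cos α` iff `|θ - κ| ≤ α`. Last item: if `‖x‖ < 1` nothing is
covered (`pr θ x ≤ ‖x‖`). -/
def Stmt_LIFT : Prop := ∀ (x : ℂ) (θ0 : ℝ), pr θ0 x < 1 →
  (1 ≤ ‖x‖ → ∃ κ α : ℝ, 0 ≤ α ∧ α < Real.pi / 2 ∧ θ0 < κ - α ∧ κ + α < θ0 + 2 * Real.pi ∧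
    x = V κ α ∧ ∀ θ ∈ Icc θ0 (θ0 + 2 * Real.pi), (1 ≤ pr θ x ↔ κ - α ≤ θ ∧ θ ≤ κ + α)) ∧
  (∀ θ, 1 ≤ pr θ x → 1 ≤ ‖x‖)

/-- INTV (minimal subfamily of finitely many closed intervals). Proof. Among the subsets `T ⊆ S`
with the same union of intervals `[s.1 - s.2, s.1 + s.2]` take one with the least number `m` of
elements, and enumerate it by increasing left ends (`Finset.orderEmbOfFin` or
`Finset.sort`-like; left ends are different, since of two intervals with the same left end the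
shorter one is contained in the other and could be dropped). `L_i < L_{i+1}`; `R_i < R_{i+1}`
(otherwise the interval `i+1` is contained in the interval `i`); `R_i < L_{i+2}` (otherwise
`[L_{i+1}, R_{i+1}] ⊆ [L_i, R_i] ∪ [L_{i+2}, R_{i+2}]`, as `L_i < L_{i+1}`,
`R_{i+1} < R_{i+2}`). Use any values (e.g. 0) for indices `≥ m`. -/
def Stmt_INTV : Prop := ∀ S : Finset (ℝ × ℝ), (∀ s ∈ S, 0 ≤ s.2 ∧ s.2 < Real.pi / 2) →
  ∃ (m : ℕ) (κ α : ℕ → ℝ), Chain m κ α ∧ (∀ i < m, (κ i, α i) ∈ S) ∧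
    ∀ θ : ℝ, (∃ s ∈ S, s.1 - s.2 ≤ θ ∧ θ ≤ s.1 + s.2) ↔
      ∃ i < m, Lf κ α i ≤ θ ∧ θ ≤ Rt κ α i

/-- SUBZ. Proof. The map `i ↦ V (κ i) (α i)` is injective on `{i | i < m}`: if the points are
equal then `cos (α i) = cos (α j)`, so `α i = α j`, and `κ i - κ j ∈ 2π ℤ`, but
`|κ i - κ j| < 2π` by the window hypothesis (all caps lie in `[L_0, R_{m-1}]`), so
`κ i = κ j`, `L_i = L_j`, `i = j` (the `L_i` increase strictly). Let `w i` be the points.
For each `x = w i` choose one occurrence in `P` (e.g. the sublist of `P` obtained by keeping the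
elements of the finite set `{w i | i < m}` and then `List.dedup`): a sublist of `P` without
repetitions whose elements are exactly the `w i`; it is `p.map w` with `Visits m p`. For the
second item do the same with the finite set `{w i | i < m} ∪ {z}`: if `z` is not one of the
`w i`, the list contains `z` exactly once: split it there. -/
def Stmt_SUBZ : Prop := ∀ (P : List ℂ) (m : ℕ) (κ α : ℕ → ℝ), Chain m κ α →
  (∀ i < m, V (κ i) (α i) ∈ P) → Rt κ α (m - 1) < Lf κ α 0 + 2 * Real.pi →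
  (∃ p, Visits m p ∧ (pts κ α p).Sublist P) ∧
  ∀ z ∈ P, (∃ i < m, z = V (κ i) (α i)) ∨
    ∃ p₁ p₂, Visits m (p₁ ++ p₂) ∧ (pts κ α p₁ ++ z :: pts κ α p₂).Sublist P

/-- EXG (extraction of the chain in a window). Uses LIFT, INTV. Proof. Apply LIFT to all
elements `x` of `P` with `1 ≤ ‖x‖` (with this `θ0`), let `S` be the finite set of the pairs
`(κ, α)` obtained, and apply INTV. The last item is the last item of INTV together with LIFT
(`θ` is covered by `P` iff by some `x` with `‖x‖ ≥ 1`). `0 < m` as some direction is covered: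
a covered direction has a representative in `[θ0, θ0 + 2π]` (`pr` is `2π`-periodic). -/
def Stmt_EXG : Prop := ∀ (P : List ℂ) (θ0 : ℝ), Free P θ0 → (∃ θ, ¬ Free P θ) →
  ∃ (m : ℕ) (κ α : ℕ → ℝ), 0 < m ∧ Chain m κ α ∧ θ0 < Lf κ α 0 ∧
    Rt κ α (m - 1) < θ0 + 2 * Real.pi ∧ (∀ i < m, V (κ i) (α i) ∈ P) ∧
    ∀ θ ∈ Icc θ0 (θ0 + 2 * Real.pi), (¬ Free P θ ↔ ∃ i < m, Lf κ α i ≤ θ ∧ θ ≤ Rt κ α i)

/-- The finite problem with tolerance `ε`: all directions are covered by `P` or by `Q`, and if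
`θ` is not covered by `P` then some point of `Q` has level (in direction `θ`) at most
`max (-1) (level of P) + ε`; and symmetrically. -/
def Pair (P Q : List ℂ) (ε : ℝ) : Prop :=
  P ≠ [] ∧ Q ≠ [] ∧ (∀ θ, ¬ Free P θ ∨ ¬ Free Q θ) ∧
  (∀ θ, Free P θ → ∃ q ∈ Q, pr θ q ≤ -1 + ε ∨ ∃ p ∈ P, pr θ q ≤ pr θ p + ε) ∧
  (∀ θ, Free Q θ → ∃ p ∈ P, pr θ p ≤ -1 + ε ∨ ∃ q ∈ Q, pr θ p ≤ pr θ q + ε)

/-- the finite theorem -/
def Stmt_FT : Prop := ∀ (P Q : List ℂ) (ε : ℝ), 0 < ε → ε < 1 / 1000 → Pair P Q ε →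
  Tstar - ε ≤ plen P + plen Q

/-- RED. Uses FT (hypothesis of the block). Proof. Let `A₀`, `A₁` be two arcs whose union is a beam
detector, of finite total length (else trivial), `V_i = (A_i).length`. Let `0 < δ < 1/10000`. By
uniform continuity choose a finite increasing sequence of parameters in `[a_i, b_i]` (with at
least one element) such that every point of the arc `i` is at distance `≤ δ` from one of its
points with parameter in the sequence; `P₀`, `Q₀` the lists of these points; `plen P₀ ≤ V₀`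
(`eVariationOn.sum_le` or `sum_le_of_monotoneOn_Iic`; `plen` of a list is a sum over consecutive
pairs), the same for `Q₀`. `P = P₀.map (· / (1 - δ))`, `Q` the same. Fix `θ`. The projection
`pr θ` of the arc `i` is a compact interval `[m_i, M_i]` (image of a connected compact set).
Every line `{z | pr θ z = r}`, `|r| ≤ 1`, meets the circle, so `[-1, 1] ⊆ [m_0, M_0] ∪ [m_1, M_1]`.
(The line as `AffineSubspace`: `AffineSubspace.mk' (r u θ) (span {i u θ})`.) (1) `1` is in one of
them, say `M_i ≥ 1`, so `P₀` (or `Q₀`) has a point with `pr θ ≥ 1 - δ`, after scaling `≥ 1`: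
not `Free`. (2) Let `Free P θ`: all points of `P₀` have `pr θ < 1 - δ`, so `M_0 < 1` (a point of
the arc with `pr θ = M_0` has a point of `P₀` at distance `≤ δ`). For all `r` with
`max (-1) M_0 < r ≤ 1`: `r ∈ [m_1, M_1]`; let `r` tend to `max (-1) M_0`: `m_1 ≤ max (-1) M_0`. Some
point `q₀ ∈ Q₀` has `pr θ q₀ ≤ m_1 + δ`, and some `p₀ ∈ P₀` has `pr θ p₀ ≥ M_0 - δ`. If
`max (-1) M_0 = -1`: `q = q₀/(1-δ)` has `pr θ q ≤ (-1 + δ)/(1 - δ) ≤ -1 + ε`; otherwise
`pr θ q ≤ (M_0 + δ)/(1 - δ) ≤ pr θ p + 2 δ/(1 - δ)`. With `ε = 4 δ` everything holds. (3) FT: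
`Tstar - 4 δ ≤ plen P + plen Q ≤ (V₀ + V₁)/(1 - δ)`. Let `δ → 0`. -/
def Stmt_RED : Prop := ENNReal.ofReal Tstar ≤ detectorConstant 2

/-- UB (the bow and the arrow). Proof. `α = arctan t ∈ (0, π/2)`. The BOW: points
`v = u μ + t e(μ) = V (μ + α) α` (left), arc of the unit circle from the angle `μ + 2α` to the
angle `2π - μ - 2α` (`μ + 2α < 2π - μ - 2α` by hypothesis), and `v' = V (2π - μ - α) α`, the
conjugate of `v`. The bow is the segment from `v` to `u (μ + 2α)` (length `t`; tangent to the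
circle), the circular arc (length `2π - 2μ - 4α`), the segment from `u (2π - μ - 2α)` to `v'`
(length `t`). The ARROW: the segment of the real axis from `x₀ = cos μ - t sin μ = Re v` to
`x₁ = 1/cos μ`; its length is `(tan μ + t) sin μ > 0`. Total length `bowArrow μ t`. Both are arcs
(injective: the segments lie, except for their end on the circle, outside the circle, and in
disjoint half planes `Im > 0`, `Im < 0`: on the segment from `u (μ+2α)` to `v` the points are
`u (μ+2α) - s e(μ+2α)`, `0 ≤ s ≤ t`, of norm `√(1+s²)` and argument `μ + 2α - arctan s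
∈ [μ + α, μ + 2α]`; parametrise the bow by the argument-like parameter: the argument is strictly
monotone along the whole bow, from `μ + α` to `2π - μ - α`, an interval of length `< 2π`;
so a good parametrisation is by the argument `φ ∈ [μ+α, 2π-μ-α]`: `r(φ) u φ` with
`r(φ) = 1/cos (μ + 2α - φ)` for `φ ≤ μ + 2α`, `1` in the middle, symmetric at the end; it is
injective since `φ` is determined mod `2π`). The length (eVariationOn) of each piece: the
segments are affinely reparametrised segments (monotone in `tan`), the circular arc has variation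
`≤` its angle (chords are shorter); only `≤` is needed. DETECTOR: let a line be
`{z | pr θ z = r}`, `|r| ≤ 1`; as `(θ, r)` and `(θ + π, -r)` give the same line and by
periodicity, either (i) both `θ` and `θ + π` are covered directions of the bow, i.e. there are
points of the bow with `pr θ ≥ 1` and with `pr θ ≤ -1`: then the line meets the bow
(connected); or (ii) one of them, say `θ`, is in `(-μ, μ)` (covered directions of the bow are
`[μ, 2π - μ]`: `[μ, μ+2α]` by `v`, the middle by the arc, the end by `v'`; if `θ ∈ (-μ, μ)` then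
`θ + π` is covered as `μ < π/2`). In case (ii) the bow has a point with `pr θ ≤ -1`; put
`h = max (pr θ v) (pr θ v')`; if `r ≤ h` the line meets the bow; if `h < r ≤ 1`: the arrow has
`pr θ x₁ = cos θ/cos μ ≥ 1 ≥ r` and `pr θ x₀ = x₀ cos θ ≤ h` (`pr θ v` and `pr θ v'` are
`x₀ cos θ ± Im v sin θ`): the line meets the arrow. See
`Work/MP_655153_co/Main.lean` for the three-arc detector (lemmas on `eVariationOn` of segments
and circular arcs, lines and `AffineSubspace`, can be copied from there). -/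
def Stmt_UB : Prop := ∀ μ t : ℝ, 0 < μ → μ < Real.pi / 2 → 0 < t →
  4 * Real.arctan t < 2 * Real.pi - 2 * μ →
  detectorConstant 2 ≤ ENNReal.ofReal (bowArrow μ t)

/-- TU. Proof. Evaluate `bowArrow` at one point near `μ = 34.12° = 0.5955`, `t = 0.7496`
(value `4.81892646`): `Tstar ≤ bowArrow μ t` by `csInf_le` (bounded below by `0`: all terms:
`bowArrow μ t ≥ 2 t + (2π - 2μ - 4 arctan t) ≥ 0` on the set). Convenient choice:
`t = 3/4`, `sin μ = 14/25 = 0.56`, `cos μ = √(1 - 0.3136) = 0.828493`, `tan μ = 0.675926`,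
`μ = arcsin 0.56 = 0.594386`: `6.283185 - 1.188772 + 1.5 - 4 · 0.643501 + 1.425926 · 0.56
= 4.818927`. Bounds for `π` (`Real.pi_gt_d6`, `Real.pi_lt_d6`), `arctan (3/4) = 2 arctan (1/3)`
and a lower bound for it, a lower bound for `arcsin 0.56 = arctan (0.675926)`
(series of `arctan`, or `sin x ≤ 0.56` at `x = 0.59438` by `Real.sin_bound`-type estimates or
Taylor polynomials). The slack is `7 · 10⁻⁵`. -/
def Stmt_TU : Prop := Tstar ≤ 4819 / 1000

end

end Pool.BA
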