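import Pool.Agent.Work.MP_655153_ba.Interface2

/-!
# Blueprint, part 3: insertion of the highest point

Frame: `ν = 0`, so the level of a point is its real part, left is `+ i`. The first path `P` covers
the directions `[μ1, 2π - μ2]`, the chain `W = (w_i)` covers exactly this interval.
-/

open MeasureTheory Set

namespace Pool.BA

noncomputable section

/-- unit vector orthogonal to `u θ` -/
def e (θ : ℝ) : ℂ := ⟨-Real.sin θ, Real.cos θ⟩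

/-- a chain without gaps from `a` to `b` -/
structure Full (m : ℕ) (κ α : ℕ → ℝ) (a b : ℝ) : Prop where
  ch : Chain m κ α
  pos : 0 < m
  left : Lf κ α 0 = a
  right : Rt κ α (m - 1) = b
  nogap : ∀ i, i + 1 < m → Lf κ α (i + 1) ≤ Rt κ α i

/-- the vertex number `i` -/
def W (κ α : ℕ → ℝ) (i : ℕ) : ℂ := V (κ i) (α i)

/-- the bonus function -/
def bS (μ : ℝ) : ℝ := Real.sin ((μ - Real.pi / 6) / 2) / Real.sin ((μ + Real.pi / 6) / 2)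

/-- ST (steep pairs). Proof. Reflect `y` at the line `{re = z.re}`: `y' = (2 z.re - y.re, y.im)`,
`dist z y = dist z y'`, so the right side is `≥ dist x y'`. Let `h = z.re - max x.re y.re
≥ c - c0 ≥ 0`, `δ = |x.re - y.re| ≥ d/2`, `d = dist x y`, `w = |x.im - y.im|`. Then
`dist x y'² = w² + (2h + δ)² = d² + 4h² + 4hδ ≥ d² + 4h² + 2hd ≥ (d + h)²`. -/
def Stmt_ST : Prop := ∀ (x y z : ℂ) (c c0 : ℝ), x.re ≤ c0 → y.re ≤ c0 → c0 ≤ c → c ≤ z.re →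
  dist x y / 2 ≤ |x.re - y.re| → dist x y + (c - c0) ≤ dist x z + dist z y

/-- WL (wedge). Proof. `dist z y ≥ dist x y` (both coordinate differences are at least as large)
and `dist x z ≥ z.re - x.re`. -/
def Stmt_WL : Prop := ∀ (x y z : ℂ), x.im ≤ y.im → y.re ≤ x.re → z.im ≤ x.im → x.re ≤ z.re →
  dist x y + (z.re - x.re) ≤ dist x z + dist z y

/-- OVG (edge of two overlapping caps). Proof. `f(θ) = pr θ (V κ α) - pr θ (V κ' α')` is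
continuous; `pr (κ' - α') (V κ' α') = 1`, `pr (κ + α) (V κ α) = 1`, and `pr θ (V κ α) ≥ 1` iff
`|θ - κ| ≤ α` near; so `f(κ' - α') ≥ 0 ≥ f(κ + α)` and there is `θ0` in between with
`f(θ0) = 0`. `ρ` = the common value `≥ 1` (`θ0` is in both caps). `p = sin (θ0 - κ)/cos α
= -⟨V κ α, e θ0⟩`, `q = sin (κ' - θ0)/cos α' = ⟨V κ' α', e θ0⟩`. `V κ' α' - V κ α = (p+q) e θ0`
and `⟨e θ0, u θ⟩ = sin (θ - θ0)`, so `-f(θ) = (p + q) sin (θ - θ0)`; at `θ = κ + α` this is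
`≥ 0`, at `θ = κ' - α'` it is `≤ 0`; if one of these ends is different from `θ0` (difference
`< π`) this gives `p + q ≥ 0`; if both ends equal `θ0` then `p = tan α`, `q = tan α'`. -/
def Stmt_OVG : Prop := ∀ κ κ' α α' : ℝ, 0 ≤ α → α < Real.pi / 2 → 0 ≤ α' → α' < Real.pi / 2 →
  κ - α < κ' - α' → κ' - α' ≤ κ + α → κ + α < κ' + α' →
  ∃ θ0 ρ p q : ℝ, κ' - α' ≤ θ0 ∧ θ0 ≤ κ + α ∧ 1 ≤ ρ ∧ 0 ≤ p + q ∧
    V κ α = ρ * u θ0 - p * e θ0 ∧ V κ' α' = ρ * u θ0 + q * e θ0 ∧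
    dist (V κ α) (V κ' α') = p + q

/-- LEV (levels and horizontal order along the chain; `0 < μ1`, `0 < μ2`). Uses OVG. Proof. By
OVG `w_{k+1} - w_k = d_k e(θ_k)`, `d_k ≥ 0`, `θ_k ∈ [L_{k+1}, R_k] ⊆ (0, 2π)`, and
`θ_k ≤ R_k < L_{k+2} ≤ θ_{k+1}` (`sep`), so the `θ_k` increase. `e θ = (-sin θ, cos θ)`. First
item: if `θ_{i-1} ≤ π` then `θ_k ≤ π` for `k < i`, all differences have real part `≤ 0`, so
`re w_i ≤ re w_0`; if `θ_{i-1} > π` then `θ_k > π` for `k ≥ i`, so `re w_i ≤ re w_{m-1}`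
(`i = 0`, `i = m-1` trivial). Second item: if `L_{i+1} ≤ π/6`... : for `k < i`
`θ_k ≤ R_k < R_i`... we use: if `θ_k ≤ π/2` for all `k < i` then `im w_0 ≤ im w_i`; this holds
if `Rt κ α i ≤ π/2` (`R_k < R_i`) or if `i + 1 < m` and `L_{i+1} ≤ π/2` (`R_k < L_{k+2} ≤
L_{i+1}` for `k + 2 ≤ i + 1`). Third item: the mirror image: if `3π/2 ≤ L_j` or (`0 < j` and
`3π/2 ≤ R_{j-1}`) then for `k ≥ j`: `θ_k ≥ L_{k+1} > L_j`, resp. `θ_k ≥ L_{k+1} > R_{k-1} ≥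
R_{j-1}`, so `cos θ_k ≥ 0` and `im w_j ≤ im w_{m-1}`. -/
def Stmt_LEV : Prop := ∀ (m : ℕ) (κ α : ℕ → ℝ) (μ1 μ2 : ℝ), 0 < μ1 → 0 < μ2 →
  Full m κ α μ1 (2 * Real.pi - μ2) →
  (∀ i < m, (W κ α i).re ≤ max (W κ α 0).re (W κ α (m - 1)).re) ∧
  (∀ i < m, Rt κ α i ≤ Real.pi / 2 ∨ (i + 1 < m ∧ Lf κ α (i + 1) ≤ Real.pi / 2) →
    (W κ α 0).im ≤ (W κ α i).im) ∧
  (∀ j < m, 3 * Real.pi / 2 ≤ Lf κ α j ∨ (0 < j ∧ 3 * Real.pi / 2 ≤ Rt κ α (j - 1)) →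
    (W κ α j).im ≤ (W κ α (m - 1)).im)

/-- WZ (the point `z` is to the right of `w_0` and to the left of `w_{m-1}`). Proof.
`pr μ1 (W 0) = 1` (as `L_0 = μ1`), so `cos μ1 (z.re - re w_0) + sin μ1 (z.im - im w_0) ≤ 0`, with
`z.re ≥ re w_0`, `cos μ1 ≥ 0`, `sin μ1 > 0`. The same on the other side: `pr (-μ2) (W (m-1)) = 1`
(`R_{m-1} = 2π - μ2`). -/
def Stmt_WZ : Prop := ∀ (m : ℕ) (κ α : ℕ → ℝ) (μ1 μ2 : ℝ) (z : ℂ), 0 < μ1 → 0 < μ2 →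
  Full m κ α μ1 (2 * Real.pi - μ2) →
  (μ1 ≤ Real.pi / 2 → pr μ1 z ≤ 1 → (W κ α 0).re ≤ z.re → z.im ≤ (W κ α 0).im) ∧
  (μ2 ≤ Real.pi / 2 → pr (-μ2) z ≤ 1 → (W κ α (m - 1)).re ≤ z.re → (W κ α (m - 1)).im ≤ z.im)

/-- CLS (line through two points with disjoint caps). `ψ` normal direction of the line:
`pr ψ w = pr ψ w' =: h`. Proof. Write `x = κ - ψ`, `x' = κ' - ψ`; `cos x/cos α = cos x'/cos α' = h`.
(1) `|h| < 1`: if `h ≥ 1` then `cos x ≥ cos α`, so some `ψ + 2πn` lies in `[κ-α, κ+α]`, and some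
`ψ + 2πn'` in `[κ'-α', κ'+α']`; both caps are contained in `[κ-α, κ-α+2π)`, so `n = n'` and the
caps meet, a contradiction; `h ≤ -1`: the same with `ψ + π`. (2) So `|cos x| < cos α`, i.e.
modulo `2π` either `x ∈ (α, π - α)` (LEFT, `⟨w, e ψ⟩ = sin x/cos α > 0`) or
`x ∈ (π + α, 2π - α)` (RIGHT), the same for `x'`. (3) Not both left: if
`⟨w, e ψ⟩ ≤ ⟨w', e ψ⟩`, then for `θ ∈ (ψ, ψ + π)` `pr θ w ≤ pr θ w'` (`pr θ w = h cos (θ - ψ) +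
⟨w, e ψ⟩ sin (θ - ψ)`), so the cap of `w` (contained in `(ψ, ψ+π)` mod `2π`) is contained in the
cap of `w'` mod `2π`, a contradiction as in (1); same if `≥`, same for both right. (4) If `w` is
left and `w'` right then `⟨w' - w, e ψ⟩ < 0`; if `w` is right and `w'` left then
`⟨w' - w, e ψ⟩ > 0`. (5) Representatives: `0 ≤ κ - α`, `κ' + α' ≤ 2π`, `|ψ| ≤ π/6`,
so `x, x' ∈ [-π/6, 2π + π/6]`, `x < x'`. First case (`w` left, `w'` right): `x ∈ (α, π-α)` or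
`x > 2π + α`; `x' ∈ (π+α', 2π-α')` or `x' < -α'`; as `x < x'` only the first possibilities
remain. Second case (`w` right, `w'` left): `x ∈ (π+α, 2π-α)` or `x < -α`;
`x' ∈ (α', π-α')` or `x' > 2π + α'`; as `x < x'`: `x < -α` or `x' > 2π + α'`. -/
def Stmt_CLS : Prop := ∀ κ κ' α α' ψ : ℝ, 0 ≤ α → α < Real.pi / 2 → 0 ≤ α' → α' < Real.pi / 2 →
  0 ≤ κ - α → κ + α < κ' - α' → κ' + α' ≤ 2 * Real.pi → κ' + α' < κ - α + 2 * Real.pi →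
  |ψ| ≤ Real.pi / 6 → pr ψ (V κ α) = pr ψ (V κ' α') →
  (pr (ψ + Real.pi / 2) (V κ' α') < pr (ψ + Real.pi / 2) (V κ α) ∧ ψ + α < κ ∧
    κ < ψ + Real.pi - α ∧ ψ + Real.pi + α' < κ' ∧ κ' < ψ + 2 * Real.pi - α') ∨
  (pr (ψ + Real.pi / 2) (V κ α) < pr (ψ + Real.pi / 2) (V κ' α') ∧
    (κ + α < ψ ∨ 2 * Real.pi + ψ < κ' - α'))

/-- B1 (overlapping flat pair at the bottom, small angles). `θ0 = π + σ`. Proof. `τ = |σ|`,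
`τ' = max τ ϑ ≤ π/6`, `a = u (τ' - π/2)`, `b = u (π/2 - τ')`, `a + b = 2 sin τ' · u 0`. So
`dist w z + dist z w' ≥ ⟨z - w, a⟩ + ⟨z - w', b⟩ ≥ 2 c sin τ' + (Sp + p) + (Sq + q)` with
`Sp = -⟨w, a⟩ - p = ρ sin A - p (1 - cos A)`, `A = τ' - σ`, `Sq = -⟨w', b⟩ - q = ρ sin A' -
q (1 - cos A')`, `A' = τ' + σ` (`⟨u θ0, a⟩ = cos (θ0 - τ' + π/2) = -sin (π + σ - τ') =
-sin A`... check: `= sin (σ - τ') = - sin A`; `⟨e θ0, a⟩ = cos (σ - τ')`; similarly for `b`).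
`0 ≤ A, A' ≤ π/3`. It is enough that `Sp + Sq ≥ -2 (sin τ' - sin ϑ)`, because
`2 c sin τ' = c - (1 - 2 sin τ') c ≥ c - (1 - 2 sin τ')` (`c ≤ 1`, `sin τ' ≤ 1/2`).
Hypotheses: `pr ϑ w = ρ cos Θ + p sin Θ ≤ 1` with `Θ = θ0 - ϑ = π + σ - ϑ`, and
`pr (-ϑ) w' = ρ cos Θ' + q sin Θ' ≤ 1` with `Θ' = π - σ - ϑ`. By symmetry (`σ ↔ -σ`,
`p ↔ q`) let `σ ≤ 0`. (1) `τ ≤ ϑ`, `τ' = ϑ`: `A = π - Θ`, `A' = π - Θ'`. `Sp ≥ 0`: if `A = 0`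
clear; else `p sin A ≤ 1 + ρ cos A` and `sin A · Sp = ρ sin² A - (1 - cos A) p sin A ≥
(1 - cos A)(ρ (1 + cos A) - 1 - ρ cos A) = (1 - cos A)(ρ - 1) ≥ 0`. Same for `Sq`.
(2) `τ > ϑ`: `τ' = τ = -σ`, `A' = 0`, `Sq = 0`, `A = 2τ`, `Θ = π - (τ + ϑ)`,
`p sin (τ+ϑ) ≤ 1 + ρ cos (τ+ϑ)`, so `-Sp sin (τ+ϑ) ≤ (1 - cos 2τ)(1 + ρ cos (τ+ϑ)) -
ρ sin 2τ sin (τ+ϑ) = 2 sin τ (sin τ - ρ sin ϑ) ≤ 2 sin τ (sin τ - sin ϑ)
≤ 2 sin (τ+ϑ) (sin τ - sin ϑ)`. -/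
def Stmt_B1 : Prop := ∀ (σ ϑ ρ p q c : ℝ) (w w' z : ℂ), |σ| ≤ Real.pi / 6 → 0 < ϑ →
  ϑ ≤ Real.pi / 6 → 1 ≤ ρ → w = ρ * u (Real.pi + σ) - p * e (Real.pi + σ) →
  w' = ρ * u (Real.pi + σ) + q * e (Real.pi + σ) → pr ϑ w ≤ 1 → pr (-ϑ) w' ≤ 1 → c ≤ 1 →
  c ≤ z.re → p + q + c - (1 - 2 * Real.sin ϑ) ≤ dist w z + dist z w'

/-- K1 (flat pair with disjoint caps, small angles). Proof. `τ' = max |ψ| ϑ ≤ π/6`,
`a = u (τ' - π/2)`, `b = u (π/2 - τ')`, `a + b = 2 sin τ' · u 0`, so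
`dist w z + dist z w' ≥ 2 c sin τ' + sin (κ - τ')/cos α + sin (2π - κ' - τ')/cos α'`
(`-⟨w, a⟩ = sin (κ - τ')/cos α`, `-⟨w', b⟩ = - sin (κ' + τ')/cos α'`). Put
`S = sin (κ - τ')/cos α - tan α`, `S' = sin (2π - κ' - τ')/cos α' - tan α'`. As in B1 it is enough
that `S + S' ≥ 0` if `τ' = ϑ`, and `S + S' ≥ -2 (sin τ' - sin ϑ)` in general. (1) `S ≥ 0` if
`τ' ≤ κ - α` and `κ + α ≤ π + τ'` (then `α ≤ κ - τ' ≤ π - α`). (2) If `γ = κ - α < τ'`,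
`γ ≥ ϑ`, and `κ + α ≤ π - τ'`: put `v = (τ' - γ)/2`, `h = (τ' + γ)/2`; `-S = 2 sin v (cos v +
tan α sin v)`, `tan α ≤ cot h` (`α ≤ π/2 - h`), so `-S ≤ 2 sin v sin (h + v)/sin h =
2 sin v sin τ'/sin h ≤ 4 sin v cos h = 2 (sin τ' - sin γ) ≤ 2 (sin τ' - sin ϑ)`, using
`sin τ' ≤ sin (τ' + γ) = 2 sin h cos h`. The mirror image: `κ̃ = 2π - κ'` satisfies
`κ̃ - α' ≥ ϑ`, `-ψ + α' < κ̃ < -ψ + π - α'`. Let `ψ ≥ 0` (other case symmetric). Then `κ - α > ψ`,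
`κ - α ≥ ϑ`, so `κ - α ≥ τ'`, and `κ + α < π + ψ ≤ π + τ'`: `S ≥ 0`. For `S'`: `κ̃ + α' < π - ψ`;
if `τ' = ϑ`: `κ̃ - α' ≥ τ'`, `κ̃ + α' ≤ π + τ'`: `S' ≥ 0`. If `τ' = ψ > ϑ`: (1) or (2) for `κ̃`. -/
def Stmt_K1 : Prop := ∀ (κ κ' α α' ψ ϑ c : ℝ) (z : ℂ), 0 ≤ α → α < Real.pi / 2 → 0 ≤ α' →
  α' < Real.pi / 2 → |ψ| ≤ Real.pi / 6 → 0 < ϑ → ϑ ≤ Real.pi / 6 → ψ + α < κ →
  κ < ψ + Real.pi - α → ψ + Real.pi + α' < κ' → κ' < ψ + 2 * Real.pi - α' → ϑ ≤ κ - α →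
  κ' + α' ≤ 2 * Real.pi - ϑ → c ≤ 1 → c ≤ z.re →
  Real.tan α + Real.tan α' + c - (1 - 2 * Real.sin ϑ) ≤ dist (V κ α) z + dist z (V κ' α')

/-- GS (the bonus). `G(σ, μ) = sin η - tan ((π + σ - μ)/2) (1 - cos η)`, `η = μ - π/6`. Proof.
For `σ < μ` (here `σ ≤ π/6 ≤ μ`; if `σ = μ = π/6` the function is meaningless, but then the
third item with the convention of the statement is only used for `σ < μ`) the argument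
`(π + σ - μ)/2 ∈ (-π/2, π/2)`. (1) `G` is concave in `σ` on `[-π/6, π/6]` (for `σ < μ`: `tan` is
convex on `[0, π/2)`; the argument is `≥ (π - π/6 - 7π/12)/2 > 0`), `G(π/6, μ) = 0` for
`μ > π/6` and `G(-π/6, μ) = bS μ`, by the identity `G(σ, μ) = 2 sin ((μ - π/6)/2)
sin ((π/6 - σ)/2)/sin ((μ - σ)/2)`. So `G(σ, μ) ≥ bS μ (π/6 - σ)/(π/3)`. This is the first item
(`μ > π/6`); in the form with the quotient it also holds for `μ = π/6` (`bS = 0`). (2) Second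
item: sum of the first for `(σ, μ1)`, `(-σ, μ2)`: `≥ min · ((π/6 - σ) + (π/6 + σ))/(π/3)`. -/
def Stmt_GS : Prop := (∀ σ μ : ℝ, |σ| ≤ Real.pi / 6 → Real.pi / 6 ≤ μ → μ ≤ 7 * Real.pi / 12 →
    0 ≤ bS μ ∧ bS μ * ((Real.pi / 6 - σ) / (Real.pi / 3)) ≤
      2 * Real.sin ((μ - Real.pi / 6) / 2) * Real.sin ((Real.pi / 6 - σ) / 2) /
        Real.sin ((μ - σ) / 2)) ∧
  (∀ σ μ1 μ2 : ℝ, |σ| ≤ Real.pi / 6 → Real.pi / 6 ≤ μ1 → μ1 ≤ 7 * Real.pi / 12 →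
    Real.pi / 6 ≤ μ2 → μ2 ≤ 7 * Real.pi / 12 →
    min (bS μ1) (bS μ2) ≤
      2 * Real.sin ((μ1 - Real.pi / 6) / 2) * Real.sin ((Real.pi / 6 - σ) / 2) /
        Real.sin ((μ1 - σ) / 2) +
      2 * Real.sin ((μ2 - Real.pi / 6) / 2) * Real.sin ((Real.pi / 6 + σ) / 2) /
        Real.sin ((μ2 + σ) / 2))

/-- B2 (overlapping flat pair, `μ1, μ2 ≥ π/6`). Uses GS. Proof. As B1 with `τ' = π/6`:
`a = u (-π/3)`, `b = u (π/3)`, `a + b = u 0`; `dist w z + dist z w' ≥ z.re + (Sp + p) + (Sq + q)`,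
`Sp = ρ sin A - p (1 - cos A)`, `A = π/6 - σ ∈ [0, π/3]`, `Sq` with `A' = π/6 + σ`. Claim
`Sp ≥ 2 sin ((μ1 - π/6)/2) sin ((π/6 - σ)/2)/sin ((μ1 - σ)/2)`. `Θ = π + σ - μ1 ∈ [π/4, π]`,
hypothesis `ρ cos Θ + p sin Θ ≤ 1`. If `Θ = π` then `σ = μ1 = π/6`, `A = 0`, `Sp = 0`, and the
right side is `0`. Else `sin Θ > 0`, `p ≤ (1 - ρ cos Θ)/sin Θ` and
`Sp ≥ [ρ (cos Θ - cos (A + Θ)) - (1 - cos A)]/sin Θ`; the coefficient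
`cos Θ - cos (A+Θ) = 2 sin (Θ + A/2) sin (A/2) ≥ 0` as `Θ + A/2 = 13π/12 + σ/2 - μ1 ∈
[5π/12, π]`; so `Sp ≥ [cos Θ - cos (A+Θ) - 1 + cos A]/sin Θ = 2 cos ((A+Θ)/2) sin (A/2)/
cos (Θ/2)`, and `(A + Θ)/2 = 7π/12 - μ1/2`, `cos = sin (μ1/2 - π/12)`,
`cos (Θ/2) = sin ((μ1 - σ)/2)`. Same for `Sq` with `μ2`, `-σ`. GS, second item. -/
def Stmt_B2 : Prop := ∀ (σ μ1 μ2 ρ p q : ℝ) (w w' z : ℂ), |σ| ≤ Real.pi / 6 →
  Real.pi / 6 ≤ μ1 → μ1 ≤ 7 * Real.pi / 12 → Real.pi / 6 ≤ μ2 → μ2 ≤ 7 * Real.pi / 12 → 1 ≤ ρ →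
  w = ρ * u (Real.pi + σ) - p * e (Real.pi + σ) →
  w' = ρ * u (Real.pi + σ) + q * e (Real.pi + σ) → pr μ1 w ≤ 1 → pr (-μ2) w' ≤ 1 →
  p + q + z.re + min (bS μ1) (bS μ2) ≤ dist w z + dist z w'

/-- K2 (flat pair with disjoint caps, `μ1, μ2 ≥ π/6`). Uses GS. Proof. As K1 with `τ' = π/6`:
`dist w z + dist z w' ≥ z.re + (tan α + S) + (tan α' + S')`, `S = sin (κ - π/6)/cos α - tan α`. With
`γ = κ - α ≥ μ1`, `r = κ + α < π + ψ`: `S = sin η - tan ((r - γ)/2)(1 - cos η)`, `η = γ - π/6`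
(`κ - π/6 = η + α`), decreasing in `r`, so `S ≥ sin η - tan ((π + ψ - γ)/2) (1 - cos η)
= 2 sin ((γ - π/6)/2) cos ((5π/6 + ψ)/2)/cos ((π + ψ - γ)/2)`; and this is increasing in `γ`
(`π/6 ≤ γ ≤ π + ψ`): with `x = (γ - π/6)/2`, `k = (5π/6 + ψ)/2 ∈ [0, π/2]` the quotient is
`2 cos k · sin x/cos (k - x)` and `sin x' cos (k - x) - sin x cos (k - x') = cos k sin (x' - x)
≥ 0`. So `S ≥` the same with `γ = μ1`, which is the first summand of GS for `σ = ψ`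
(`cos k = sin ((π/6 - ψ)/2)`, `cos ((π + ψ - μ1)/2) = sin ((μ1 - ψ)/2)`). Mirror image for
`S'` (`κ̃ = 2π - κ'`, `-ψ`, `μ2`). -/
def Stmt_K2 : Prop := ∀ (κ κ' α α' ψ μ1 μ2 : ℝ) (z : ℂ), 0 ≤ α → α < Real.pi / 2 → 0 ≤ α' →
  α' < Real.pi / 2 → |ψ| ≤ Real.pi / 6 → Real.pi / 6 ≤ μ1 → μ1 ≤ 7 * Real.pi / 12 →
  Real.pi / 6 ≤ μ2 → μ2 ≤ 7 * Real.pi / 12 → ψ + α < κ → κ < ψ + Real.pi - α →
  ψ + Real.pi + α' < κ' → κ' < ψ + 2 * Real.pi - α' → μ1 ≤ κ - α →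
  κ' + α' ≤ 2 * Real.pi - μ2 →
  Real.tan α + Real.tan α' + z.re + min (bS μ1) (bS μ2) ≤ dist (V κ α) z + dist z (V κ' α')

/-- IZ1 (insertion between two vertices, small angles). Uses ST, WL, OVG, LEV, WZ, CLS, B1, K1.
`ϑ = min μ1 μ2 < π/6`. Proof. `w = W i`, `w' = W j`, `D = w' - w`, `d = ‖D‖`. If
`d/2 ≤ |D.re|`: first alternative by ST and LEV. Now let `|D.re| < d/2`. (A) `ov`, `j = i+1`: OVG
gives `θ0 ∈ [L_j, R_i] ⊆ (μ1, 2π - μ2)`, `D = d e(θ0)`, `|sin θ0| < 1/2`. (A1) `θ0 < π/6`: then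
`L_j < π/6`, so `im w_0 ≤ im w` (LEV), `z.im ≤ im w_0` (WZ, as `re w_0 ≤ c0 ≤ c ≤ z.re`),
`D.im = d cos θ0 ≥ 0`, `D.re = -d sin θ0 ≤ 0`: WL with `x = w`, `y = w'`, and
`z.re - w.re ≥ c - c0`: first alternative. (A2) `θ0 > 2π - π/6`: mirror image (`R_i > 3π/2`,
`0 < j`, so `im w' ≤ im w_{m-1} ≤ z.im`; apply WL to the complex conjugates with `x = w'`,
`y = w`). (A3) `θ0 = π + σ`, `|σ| < π/6`: B1; `pr ϑ w ≤ 1` as `ϑ ≤ μ1 ≤ L_i` and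
`R_i ≤ 2π - μ2 < 2π + ϑ - ...` (the direction `ϑ` is outside the open cap: `R_i - 2π ≤ ϑ ≤
L_i`), the same for `pr (-ϑ) w' ≤ 1`; `d = p + q`: second alternative. (B) `¬ ov`: then
`R_i < L_j` (`sep`, or neighbours with a gap — excluded by `nogap` — so `i + 2 ≤ j`), and
`R_j ≤ 2π - μ2 < L_i + 2π`. Write `D = ± d e(ψ)` with `|ψ| < π/6` (choose `ψ` with
`D = s d (-sin ψ, cos ψ)`, `s = ± 1`; possible as `|D.re| < d/2`), so `pr ψ w = pr ψ w'`; CLS.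
First case of CLS (`s = -1`): K1: third alternative. Second case (`s = 1`, `D = d e(ψ)`):
either `R_i < ψ`, so `ψ > 0`, `R_i < π/6`, `im w_0 ≤ im w` (LEV), `D.re ≤ 0`, `D.im ≥ 0`,
`z.im ≤ im w_0` (WZ): WL; or `2π + ψ < L_j`, `ψ < 0` (as `L_j < 2π`), `L_j > 3π/2`:
`D.re = -d sin ψ ≥ 0`, mirror image of WL with `x = w'`, `y = w`, `im w' ≤ im w_{m-1} ≤ z.im`. -/
def Stmt_IZ1 : Prop := ∀ (m : ℕ) (κ α : ℕ → ℝ) (μ1 μ2 c : ℝ) (i j : ℕ) (z : ℂ),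
  0 < μ1 → μ1 ≤ Real.pi / 4 → 0 < μ2 → μ2 ≤ Real.pi / 4 → min μ1 μ2 < Real.pi / 6 →
  Full m κ α μ1 (2 * Real.pi - μ2) → i < j → j < m → pr μ1 z ≤ 1 → pr (-μ2) z ≤ 1 → c ≤ 1 →
  c ≤ z.re → max (W κ α 0).re (W κ α (m - 1)).re ≤ c →
  (dd κ α i j + (c - max (W κ α 0).re (W κ α (m - 1)).re) ≤
    dist (W κ α i) z + dist z (W κ α j)) ∨
  (ov κ α i j ∧ dd κ α i j + c - (1 - 2 * Real.sin (min μ1 μ2)) ≤
    dist (W κ α i) z + dist z (W κ α j)) ∨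
  (¬ ov κ α i j ∧ Real.tan (α i) + Real.tan (α j) + c - (1 - 2 * Real.sin (min μ1 μ2)) ≤
    dist (W κ α i) z + dist z (W κ α j))

/-- IZ2 (insertion between two vertices, `μ1, μ2 ≥ π/6`). Uses ST, OVG, LEV, CLS, B2, K2. Proof. As
IZ1, but the cases (A1), (A2) do not occur (`θ0 ∈ (μ1, 2π - μ2)`, `μ1, μ2 ≥ π/6`), (A3) is B2
(`pr μ1 w ≤ 1`, `pr (-μ2) w' ≤ 1` as the directions are outside the open caps, which lie in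
`[μ1, 2π - μ2]`), and in (B) the second case of CLS does not occur (`R_i < ψ ≤ π/6 ≤ μ1 ≤ L_i`,
resp. `L_j > 2π + ψ ≥ 2π - π/6 ≥ R_j`), the first case is K2. -/
def Stmt_IZ2 : Prop := ∀ (m : ℕ) (κ α : ℕ → ℝ) (μ1 μ2 c : ℝ) (i j : ℕ) (z : ℂ),
  Real.pi / 6 ≤ μ1 → μ1 ≤ 7 * Real.pi / 12 → Real.pi / 6 ≤ μ2 → μ2 ≤ 7 * Real.pi / 12 →
  Full m κ α μ1 (2 * Real.pi - μ2) → i < j → j < m →
  c ≤ z.re → max (W κ α 0).re (W κ α (m - 1)).re ≤ c →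
  (dd κ α i j + (c - max (W κ α 0).re (W κ α (m - 1)).re) ≤
    dist (W κ α i) z + dist z (W κ α j)) ∨
  (ov κ α i j ∧ dd κ α i j + c + min (bS μ1) (bS μ2) ≤
    dist (W κ α i) z + dist z (W κ α j)) ∨
  (¬ ov κ α i j ∧ Real.tan (α i) + Real.tan (α j) + c + min (bS μ1) (bS μ2) ≤
    dist (W κ α i) z + dist z (W κ α j))

/-- the loss (or, with sign `-`, the bonus) in the bad case of the insertion -/
def loss (μ1 μ2 : ℝ) : ℝ :=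
  if Real.pi / 6 ≤ min μ1 μ2 then -(min (bS μ1) (bS μ2)) else 1 - 2 * Real.sin (min μ1 μ2)

/-- IM (insertion lemma, frame `ν = 0`). Uses IZ1, IZ2, LEV, PLS, SUBZ, BV, PI. Proof. Let
`c0 = max (re w_0) (re w_{m-1})`. If `c ≤ c0`: any `p` from the first item of SUBZ,
`plen P ≥ psum dd p ≥ psum dd p + (c - c0)` (PLS). Let `c > c0`. SUBZ for `z`: the first case
`z = w_i` is impossible (`re w_i ≤ c0 < c ≤ z.re`, LEV). So there are `p₁`, `p₂`,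
`p = p₁ ++ p₂`, and `plen P ≥ plen (pts p₁ ++ z :: pts p₂)`. If `p₁ = []` or `p₂ = []`:
`plen = psum dd p + dist z w_i` with an end `w_i`, and `dist z w_i ≥ z.re - re w_i ≥ c - c0`:
first alternative. Otherwise let `i'` be the last element of `p₁`, `j'` the first of `p₂`,
`i = min`, `j = max`; `plen = psum dd p₁ + dist w_i' z + dist z w_j' + psum dd p₂` and
`psum dd p = psum dd p₁ + dd i' j' + psum dd p₂`. IZ1 or IZ2: the first alternative gives the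
first alternative, the second (`ov`) gives the second one; the third (`¬ ov`): BV for
`p₁.reverse` (`f = i'`) and for `p₂` (`f = j'`), with `psum exc ≥ 0` (by PI, the caps of a pair
which is not `ov` are disjoint and the window is shorter than `2π`) and `sf ≤ s0` (maximum of
`2x - tan x` on `[0, π/2)` at `π/4`): `psum dd p₁ + tan (α i') ≥ U p₁ - s0`, the same for `p₂`, and
`U p₁ + U p₂ ≥ volume (Icc μ1 (2π - μ2)) = 2π - μ1 - μ2` (the caps of a full chain cover this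
interval). -/
def Stmt_IM : Prop := ∀ (m : ℕ) (κ α : ℕ → ℝ) (μ1 μ2 c : ℝ) (P : List ℂ) (z : ℂ),
  0 < μ1 → 0 < μ2 → ((μ1 ≤ Real.pi / 4 ∧ μ2 ≤ Real.pi / 4) ∨
    (Real.pi / 6 ≤ μ1 ∧ Real.pi / 6 ≤ μ2 ∧ μ1 ≤ 7 * Real.pi / 12 ∧ μ2 ≤ 7 * Real.pi / 12)) →
  Full m κ α μ1 (2 * Real.pi - μ2) → (∀ i < m, W κ α i ∈ P) →
  (∀ x ∈ P, pr μ1 x ≤ 1 ∧ pr (-μ2) x ≤ 1) → z ∈ P → c ≤ z.re → c ≤ 1 →
  ∃ p, Visits m p ∧
    (psum (dd κ α) p + (c - max (W κ α 0).re (W κ α (m - 1)).re) ≤ plen P ∨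
     psum (dd κ α) p + c - loss μ1 μ2 ≤ plen P ∨
     2 * Real.pi - μ1 - μ2 - 2 * s0 + c - loss μ1 μ2 ≤ plen P)

/-- AC. Uses HU. Proof. `U p = b - a` (the caps of a full chain cover exactly `[a, b]`), all gaps
`s > 0` are `≤ 0`, `gap 0 = 2π - (b - a)`. HU with `η = 0`. -/
def Stmt_AC : Prop := ∀ (m : ℕ) (κ α : ℕ → ℝ) (a b : ℝ) (p : List ℕ), Full m κ α a b → 3 ≤ m →
  b < a + 2 * Real.pi → Visits m p →
  (b - a) - sf (α 0) - sf (α (m - 1)) ≤ psum (dd κ α) p ∨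
  (b - a) + (2 * Real.pi - (b - a)) / 2 - 2 * s0 ≤ psum (dd κ α) p

end

end Pool.BA
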