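import Pool.Agent.Work.MP_655153_ba.Interface3

/-!
# Blueprint, part 4: numerical lemmas and the bounds for each of the two paths

`π + 2 = 2π - 2 s0`. Degrees: `5π/18 = 50°`, `π/36 = 5°`, `5π/12 = 75°`, `7π/12 = 105°`.
All numerical claims have been tested numerically; the slack is given.
-/

open MeasureTheory Set

namespace Pool.BA

noncomputable section

/-- SFB. Proof. `sf α = 2α - tan α`. (1) `tan α ≥ 1 + 2 (α - π/4)` on `[0, π/2)` (tangent at `π/4`,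
`tan` convex there; or: `α ↦ 2α - tan α` has derivative `1 - tan² α`). (2) `tan α ≥ α`. -/
def Stmt_SFB : Prop := ∀ α : ℝ, 0 ≤ α → α < Real.pi / 2 → sf α ≤ s0 ∧ sf α ≤ α

/-- MINT. Proof. Put `β = |π/2 - μ|/2 ∈ [0, π/4]`, `t = tan α ≥ 0`, `t0 = tan β`,
`sin μ = cos (2β)`. Claim `sin 2β - 2β ≤ t (1 + cos 2β) - 2 arctan t`. Tangent of the concave
function `arctan` on `[0, ∞)`: `arctan t ≤ β + (t - t0)/(1 + t0²) = β + (t - t0) cos² β`, and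
`1 + cos 2β = 2 cos² β`: the right side is `≥ -2β + 2 t0 cos² β = -2β + sin 2β`. (Or in `α`:
derivative of `tan α (1 + cos 2β) - 2 α` is `2 cos²β/cos²α - 2`, sign of `α - β`.) -/
def Stmt_MINT : Prop := ∀ μ α : ℝ, 0 ≤ μ → μ ≤ Real.pi → 0 ≤ α → α < Real.pi / 2 →
  Real.sin |Real.pi / 2 - μ| - |Real.pi / 2 - μ| ≤ Real.tan α * Real.sin μ - sf α

/-- GV1. Uses SFB, MINT. Proof. The maximum is one of the two, say the one with `α` (same for `β`).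
`-sf α + tan α sin μ ≥ sin (π/2 - μ) - (π/2 - μ) = cos μ - π/2 + μ` (MINT), `-sf β ≥ -s0`:
the right side is `≥ 2π - 2μ - s0 + cos μ - π/2 + μ - cos μ = π + 1 - μ`. -/
def Stmt_GV1 : Prop := ∀ μ α β : ℝ, 0 < μ → μ ≤ Real.pi / 2 → 0 ≤ α → α < Real.pi / 2 → 0 ≤ β →
  β < Real.pi / 2 → Real.pi + 1 - μ ≤ 2 * Real.pi - 2 * μ - sf α - sf β -
    max (Real.cos μ - Real.tan α * Real.sin μ) (Real.cos μ - Real.tan β * Real.sin μ)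

/-- GV2. Uses SFB, MINT. Proof. Three claims. (1): let the maximum be the first (the other case is
symmetric). `-sf α + tan α sin μ1 ≥ sin y - y`, `y = |π/2 - μ1|`, `-sf β ≥ -s0`. If `μ1 ≤ π/2`:
value `≥ 2π - μ1 - μ2 - s0 - (π/2 - μ1) = 3π/2 - μ2 - s0 ≥ 3π/2 - (π - μ) - s0 = 1 + μ`. If
`μ1 ≥ π/2`: `sin y - y - cos μ1 = 2 sin y - y ≥ 0` (`y ≤ π/12`), value `≥ 2π - μ1 - μ2 - s0 ≥
2μ - s0 ≥ μ + 17/25` (`μ ≥ 5π/12`). (2): `max ≤ cos (π/4)`-type: `μ1, μ2 ≥ 2μ - (π - μ) ≥ π/4`, so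
`max ≤ √2/2`, value `≥ 2π - (π - μ) - 2 s0 - √2/2 = μ + 2 - √2/2`. (3): `b = bS` is increasing and
`bS (γ') - bS γ ≤ γ' - γ` for `π/4 ≤ γ ≤ γ' ≤ 7π/12` (derivative
`(1/2) sin (π/6)/sin² ((γ + π/6)/2) ≤ (1/4)/sin² (5π/24) ≤ 0.68`; `5π/24 = 37.5°`). Let `μ1` be the
smaller one: value `= 2π - μ1 - μ2 - 2 s0 + bS μ1 ≥ 2π - (π - μ) - (π - μ) - 2 s0 + bS (π - μ)
= 2μ - 2 s0 + bS (π - μ)`, and this is `≥ μ + 17/25`: `μ - 1.8216 + bS (π - μ) ≥ 0`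
(`μ = 5π/12`: `0.146`; `bS (π - μ) ≥ bS (π/2) = 1/√3 = 0.577`, so it is `≥ 1.309 - 1.8216 +
0.577 > 0`). -/
def Stmt_GV2 : Prop := ∀ μ μ1 μ2 : ℝ, 5 * Real.pi / 12 ≤ μ → μ ≤ Real.pi / 2 → μ1 ≤ Real.pi - μ →
  μ2 ≤ Real.pi - μ → 2 * μ ≤ μ1 + μ2 →
  (∀ α β : ℝ, 0 ≤ α → α < Real.pi / 2 → 0 ≤ β → β < Real.pi / 2 →
    μ + 17 / 25 ≤ 2 * Real.pi - μ1 - μ2 - sf α - sf β -
      max (Real.cos μ1 - Real.tan α * Real.sin μ1) (Real.cos μ2 - Real.tan β * Real.sin μ2)) ∧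
  μ + 17 / 25 ≤ 2 * Real.pi - (μ1 + μ2) / 2 - 2 * s0 - max (Real.cos μ1) (Real.cos μ2) ∧
  μ + 17 / 25 ≤ 2 * Real.pi - μ1 - μ2 - 2 * s0 + min (bS μ1) (bS μ2)

/-- NC (slack 0.041). Proof. `2π - 2 s0 = π + 2`; the right side is
`π + 2 - μ + cos δ/cos μ - cos (μ - |δ|)`. Let `|δ| ≤ π/36`. For `μ ≤ π/36`: `≥ π + 2 - μ + cos δ/
cos μ - 1 ≥ π + 2 - μ + 1 - 1`(`cos δ ≥ cos μ`) `≥ 5.05`. For `μ ≥ π/36`:
`≥ π + 2 - μ + cos (π/36)/cos μ - cos (μ - π/36)` (the right side of the claim decreases in `|δ|`: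
`cos δ` decreases, `cos (μ - |δ|)` increases). With `1/cos μ ≥ 1 + μ²/2` (more precisely
`≥ 1 + μ²/2 + 5μ⁴/24`) and `cos (μ - π/36) ≤ 1 - x²/2 + x⁴/24`, `x = μ - π/36`, it is a polynomial
inequality in `μ ∈ [0.087, 0.873]`; the minimum of the true function is `4.8606` at `28.2°`. -/
def Stmt_NC : Prop := ∀ μ δ : ℝ, 0 < μ → μ ≤ 5 * Real.pi / 18 → |δ| ≤ Real.pi / 36 → |δ| < μ →
  4819 / 1000 ≤ 2 * Real.pi - 2 * μ + μ - 2 * s0 + Real.cos δ / Real.cos μ -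
    max (Real.cos (μ + δ)) (Real.cos (μ - δ))

/-- NB (slack 0.127). Proof. `m = min (μ+δ) (μ-δ) = μ - |δ|`. If `m ≥ π/6`: `loss ≤ 0`, value
`≥ π + 2 - 2μ + cos (π/36)/cos μ` with `μ ∈ [π/6, 5π/18]`, decreasing-type function, minimum
`4.946` at `μ = 5π/18` (use e.g. `1/cos μ ≥ 1/cos μ0 + (μ - μ0) sin μ0/cos² μ0` with a suitable
`μ0`, or Taylor polynomials). If `m < π/6`: value `π + 1 - 2μ + cos δ/cos μ + 2 sin (μ - |δ|)`,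
`μ < π/6 + π/36`. If `μ ≤ π/36`: `≥ π + 1 - 2μ + 1 ≥ 4.96`. If `μ ≥ π/36`: `≥ π + 1 - 2μ +
cos (π/36)/cos μ + 2 sin (μ - π/36)`, with `sin x ≥ x - x³/6`: `≥ π + 1 - 2μ + 0.996 (1 + μ²/2)
+ 2 x - x³/3`, `x = μ - 0.0873 ≤ 0.53`: `≥ 4.1415 - 0.175 + 0.996 + 0.498 μ² - x³/3 ≥ 4.91`. -/
def Stmt_NB : Prop := ∀ μ δ : ℝ, 0 < μ → μ ≤ 5 * Real.pi / 18 → |δ| ≤ Real.pi / 36 → |δ| < μ →
  4819 / 1000 ≤ 2 * Real.pi - 2 * μ - 2 * s0 - loss (μ + δ) (μ - δ) + Real.cos δ / Real.cos μ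

/-- N2. Proof. First item: `tan α + tan β ≥ 2 tan ((α+β)/2) ≥ 2 tan ((π - μ)/2) = 2 cot (μ/2)`
(`tan` convex on `[0, π/2)`; if `(α + β)/2 ≥ ...` monotone), `sin (2π/3 - μ) ≥ 0`, and
`2 cos (2π/3 - μ) + 2 cot (μ/2) sin (2π/3 - μ) = 2 sin (2π/3 - μ + μ/2)/sin (μ/2)`. Second item
(values): for `0 < μ ≤ π/3` `sin (2π/3 - μ/2) ≥ ...`: write
`2 sin (2π/3 - μ/2)/sin (μ/2) = √3 cot (μ/2) + 1`, decreasing in `μ`; at `π/3`: `4`; at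
`5π/12`: `√3/tan (37.5°) + 1 = 3.257`; at `π/2`: `√3 + 1 = 2.732`. Third item:
`√3 cot (μ/2) + 1 ≥ π + 1 - μ` for `0 < μ ≤ π/2`: `cot (μ/2) ≥ 1 + (π/2 - μ)` (`cot` convex, tangent
at `π/4`: `cot x ≥ 1 - 2 (x - π/4)`), so it is `≥ √3 (1 + π/2 - μ) + 1 ≥ π + 1 - μ`
(`√3 + √3 π/2 = 4.45`, slope `-√3 < -1`, at `μ = π/2`: `1.732 ≥ 1.5708`). -/
def Stmt_N2 : Prop := (∀ μ α β : ℝ, 0 < μ → μ ≤ Real.pi / 2 → 0 ≤ α → α < Real.pi / 2 → 0 ≤ β →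
    β < Real.pi / 2 → Real.pi - μ ≤ α + β →
    2 * Real.sin (2 * Real.pi / 3 - μ / 2) / Real.sin (μ / 2) ≤
      2 * Real.cos (2 * Real.pi / 3 - μ) +
        (Real.tan α + Real.tan β) * Real.sin (2 * Real.pi / 3 - μ)) ∧
  (∀ μ : ℝ, 0 < μ → μ ≤ Real.pi / 3 →
    4 ≤ 2 * Real.sin (2 * Real.pi / 3 - μ / 2) / Real.sin (μ / 2)) ∧
  (∀ μ : ℝ, 0 < μ → μ ≤ Real.pi / 2 →
    Real.pi + 1 - μ ≤ 2 * Real.sin (2 * Real.pi / 3 - μ / 2) / Real.sin (μ / 2))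

/-- NV (values; slacks 0.0056, 0.18, 0.0136, 0.0065). Proof. (1) `5π/18 ≤ μ ≤ π/3`: `1/cos μ - μ` is
increasing there (derivative `sin μ/cos² μ - 1 > 0`), value at `5π/18`:
`π + 1 - 0.872665 + 1.555724 = 4.824652`. (2) `bS μ ≥ 0`; `π + 2 - 2μ + 1/cos μ ≥ 4.95` on
`[5π/18, π/3]` (convex; tangent at `0.8954`). (3), (4) `π/3 ≤ μ ≤ 5π/12`: `π + 3 - μ ≥ 4.8326`;
`π + 4 - 2μ + bS μ ≥ π + 4 - 2μ + bS (π/3)` for `μ ≤ 1.3`, `bS (π/3) = 0.366`, or simply: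
`bS μ ≥ bS (π/3) = tan-like 0.366` and `π + 4 - 5π/6 = 4.5236`, sum `4.8896 ≥ 4.819`. (5)
`bS μ ≥ μ - 1` on `[5π/12, π/2]`: `bS μ ≥ bS (π/2) - 0.37 (π/2 - μ)`-type: derivative of `bS` is
`(1/4)/sin² ((μ + π/6)/2) ≤ 1`, so `bS μ - μ` is decreasing and it is enough to check `μ = π/2`:
`1/√3 = 0.57735 ≥ π/2 - 1 = 0.570796`. -/
def Stmt_NV : Prop := (∀ μ : ℝ, 5 * Real.pi / 18 ≤ μ → μ ≤ Real.pi / 3 →
    4819 / 1000 ≤ Real.pi + 1 - μ + 1 / Real.cos μ ∧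
    4819 / 1000 ≤ Real.pi + 2 - 2 * μ + bS μ + 1 / Real.cos μ) ∧
  (∀ μ : ℝ, Real.pi / 3 ≤ μ → μ ≤ 5 * Real.pi / 12 →
    4819 / 1000 ≤ Real.pi + 3 - μ ∧ 4819 / 1000 ≤ Real.pi + 4 - 2 * μ + bS μ) ∧
  (∀ μ : ℝ, 5 * Real.pi / 12 ≤ μ → μ ≤ Real.pi / 2 → μ - 1 ≤ bS μ)

/-- the lower bound of the second path in the spike case -/
def Lam (μ d : ℝ) : ℝ :=
  (2 * Real.sin μ * Real.cos d - Real.sin (2 * μ)) / max (Real.sin (2 * μ)) (Real.sin (μ + d))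

/-- SPH (spikes, hopped; slacks 0.0026 and 0.028). Notation `S = (b1 + b2)/2`, `b = min b1 b2 ≤ S`,
`π + 2 = 2π - 2 s0`; first value `E = π + 2 - μ + S + Lam μ b`. `Lam` decreases in `d`, so
`E ≥ π + 2 - μ + S + Lam μ S`. For `0 < μ < π/2`, `0 ≤ d ≤ μ`: the numerator of `Lam` is `≥ 0`, so
(as the denominator is `≤ 1`) `Lam μ d ≥ 2 sin μ cos d - sin 2μ`; and for `μ ≤ π/4`
(`μ + d ≤ 2μ ≤ π/2`) `Lam μ d = cos d/cos μ - 1`; the same for `μ ≤ 5π/18`, `d ≤ π/36`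
(`sin (μ+d) ≤ sin 55° ≤ sin 100° ≤ sin 2μ` if `μ ≥ π/4`). (A) `μ ≤ 0.413`: `E ≥ π + 1 - μ + S +
cos S/cos μ ≥ π + 1 - μ + 1/cos μ` (`S ≥ (1 - cos S)/cos μ` as `1 - cos S ≤ S²/2`,
`S ≤ 0.413`), and `1/cos μ - μ` decreases; at `0.413`: `4.14159 - 0.413 + 1.09196 = 4.82055`.
(B) `μ ≥ 0.9`: `E ≥ π + 2 - μ + S + 2 sin μ cos S - sin 2μ`, concave in `S ∈ [0, μ]`; `S = μ`:
`π + 2`; `S = 0`: `π + 2 - μ + 2 sin μ - sin 2μ ≥ 4.83` on `[0.9, π/2]` (at `0.9`: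
`5.14159 - 0.9 + 1.56665 - 0.97385 = 4.8344`; increasing: derivative `-1 + 2 cos μ - 2 cos 2μ > 0`
there). (C) `0.413 ≤ μ ≤ 0.9` and `S ≥ π/36`: for `μ ≥ π/4` the function of (B) at `S = π/36`:
`≥ 4.85`; for `μ ≤ π/4`: `π + 1 - μ + S + cos S/cos μ`, concave in `S`, at `S = μ`: `π + 2`, at
`S = π/36`: `π + 1 - μ + 0.08727 + 0.99619/cos μ ≥ 4.829` (minimum at `μ = 0.668`; tangent line of
`1/cos`). (D) Second claim: `S ≤ π/36`, `0.413 ≤ μ ≤ 0.9`: `E ≥ π + 1 - μ + S + cos S/cos μ + 1/10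
≥ π + 1 - μ + 1/cos μ + 1/10 ≥ 4.84` for `μ ≤ 5π/18` (minimum of `1/cos μ - μ`: `0.6058` at
`0.6662`); for `μ ∈ [5π/18, 0.9]`, `S ≤ π/36`: `sin (μ + d) ≤ sin (0.988) ≤ 0.836 ≤ sin 1.8 ≤
sin 2μ`, the same formula. -/
def Stmt_SPH : Prop := ∀ μ b1 b2 : ℝ, 0 < μ → μ ≤ Real.pi / 2 → 0 ≤ b1 → b1 ≤ μ → 0 ≤ b2 →
  b2 ≤ μ →
  (Real.pi / 18 ≤ b1 + b2 ∨ μ ≤ 413 / 1000 ∨ 9 / 10 ≤ μ →
    4819 / 1000 ≤ 2 * Real.pi - (2 * μ - b1 - b2) / 2 - 2 * s0 + Lam μ (min b1 b2)) ∧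
  (413 / 1000 ≤ μ → μ ≤ 9 / 10 → b1 + b2 ≤ Real.pi / 18 →
    4819 / 1000 ≤ 2 * Real.pi - (2 * μ - b1 - b2) / 2 - 2 * s0 + 1 / 10 + Lam μ (min b1 b2))

/-- SPU (spikes, unhopped; slack 0.128). `S = (b1+b2)/2`,
`E = 2π - μ + S - (μ - b1)/2 - s0 - min s0 S + max (Lam μ b1) (Lam μ b2)`. As in SPH
`Lam μ d ≥ 2 sin μ cos d - sin 2μ`, and `= cos d/cos μ - 1` for `μ ≤ π/4`. (i) `min s0 S ≤ S`:
`E ≥ 2π - 3μ/2 + b1/2 - s0 + Lam μ b1`. For `μ ≤ π/4`: concave in `b1`, at `b1 = 0`: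
`2π - s0 - 1 - 3μ/2 + 1/cos μ ≥ 4.948` (decreasing on `[0, π/4]`, at `π/4`: `4.9485`), at
`b1 = μ`: `2π - s0 - μ ≥ 4.92`. For `μ ≥ π/4`: `E ≥ D + b1/2 + 2 sin μ cos b1`,
`D = 2π - 3μ/2 - s0 - sin 2μ`, concave in `b1`; at `b1 = 0`: `≥ 4.94` (`π/4`: `4.9485`, minimum
`4.9477` near `46°`, then increasing); at `b1 = 2π/9` (40°): `≥ 4.93` (only needed for
`μ ≥ 51°`; for `μ ≤ 0.889` use the end `b1 = μ`: `2π - s0 - μ ≥ 4.823`). So (i) settles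
`μ ≤ 0.889`, and `b1 ≤ 2π/9` for `μ ≥ 0.889`. (ii) `μ ≥ 0.889`, `b1 ≥ 2π/9`: `min s0 S ≤ s0`:
`E ≥ C + b1 + b2/2 + 2 sin μ cos b`, `C = 2π - 3μ/2 - 2 s0 - sin 2μ`, `b = b1` or `b2`. If
`b1 ≤ b2` take `b = b1`, `b2 ≥ b1`: `E ≥ C + (3/2) b1 + 2 sin μ cos b1`, concave on
`[2π/9, μ]`; at `μ`: `2π - 2 s0 = π + 2`; at `2π/9`: `C + 1.0472 + 1.532 sin μ ≥ 5.05`. If
`b2 ≤ b1` take `b = b2`: for `b2 ≥ 2π/9` `E ≥ C + (3/2) b2 + 2 sin μ cos b2`, the same; for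
`b2 ≤ 2π/9` `E ≥ C + 2π/9 + b2/2 + 2 sin μ cos b2`, concave in `b2`, at `0`:
`C + 0.698 + 2 sin μ ≥ 5.05`, at `2π/9` as before. -/
def Stmt_SPU : Prop := ∀ μ b1 b2 : ℝ, 0 < μ → μ ≤ Real.pi / 2 → 0 ≤ b1 → b1 ≤ μ → 0 ≤ b2 →
  b2 ≤ μ → 4819 / 1000 ≤ 2 * Real.pi - (2 * μ - b1 - b2) / 2 - (μ - b1) / 2 - s0 -
    min s0 ((b1 + b2) / 2) + max (Lam μ b1) (Lam μ b2)

/-- NT (the main inequality). Uses TU, MINT. `ψ(t) = t - 2 arctan t` (so `-sf α = ψ (tan α)`),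
`L = tan μ + t`, `L' = tan μ + t'`. Since `cos δ = cos (μ+δ) cos μ + sin (μ+δ) sin μ`:
`cos δ/cos μ - (cos (μ+δ) - t sin (μ+δ)) = L sin (μ+δ)` and
`cos δ/cos μ - (cos (μ-δ) - t' sin (μ-δ)) = L' sin (μ-δ)`, so the right side of the claim is
`T(δ) = 2π - 2μ + ψ(t) + ψ(t') + min (L sin (μ+δ)) (L' sin (μ-δ))`. `g(δ) = L sin (μ+δ) -
L' sin (μ-δ)` is continuous, `g(-μ) ≤ 0 ≤ g(μ)`. CASE 1: `g` has no zero `δ` with `|δ| ≤ π/36`,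
`|δ| < μ`. Then `μ > π/36` (for `μ ≤ π/36`: `g(-μ) < 0 < g(μ)` gives a zero in `(-μ, μ)`), and
`g` has constant sign on `[-π/36, π/36]`; if `g < 0` there take `δ = π/36`:
`T = 2π - 2μ + ψ(t') + [ψ(t) + t sin μ'] + tan μ sin μ'`, `μ' = μ + π/36`; MINT (in the form
`ψ(t) + t sin μ' ≥ cos μ' - (π/2 - μ')`) and `ψ(t') ≥ -s0` give `T ≥ π + 1 - μ + π/36 +
cos (π/36)/cos μ` (`cos μ' + tan μ sin μ' = cos (μ' - μ)/cos μ`) `≥ 4.829 > 4.819 ≥ Tstar`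
(minimum at `μ = 0.668`; tangent line of `1/cos` at a rational point). If `g > 0` take
`δ = -π/36` (symmetric). CASE 2: `g(δ) = 0`, `|δ| ≤ π/36`, `|δ| < μ`: take this `δ`,
`h = L sin (μ+δ) = L' sin (μ-δ)`, `T = 2π - 2μ + ψ(t) + ψ(t') + h`. `t̄ = (t+t')/2`,
`D = |t - t'|/2 ≤ t̄`, `L̄ = tan μ + t̄`. Identity `sin²A + sin²B + 2 sin A sin B cos (A+B) =
sin² (A+B)` with `A = μ+δ`, `B = μ-δ` gives `h² (L² + L'² + 2 L L' cos 2μ) = L² L'² sin² 2μ`,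
hence, with `L L' = L̄² - D²`, `L² + L'² + 2 L L' cos 2μ = 4 L̄² cos² μ + 4 D² sin² μ`:
`h = (L̄² - D²) sin μ/√(L̄² + D² tan² μ) ≥ L̄ sin μ (1 - e²)(1 - e² tan² μ/2) ≥
L̄ sin μ - D² sin μ (1 + tan² μ/2)/L̄`, `e = D/L̄`. Also `h ≥ tan μ sin μ` and
`h ≥ (tan μ + t̄) sin (μ - |δ|)`. CASE 2A: `3/10 ≤ t̄ ≤ 7/5`. Claim `T ≥ bowArrow μ t̄`
(`= 2π - 2μ + 2 ψ(t̄) + L̄ sin μ`), and `bowArrow μ t̄ ≥ Tstar` (`4 arctan (7/5) < 3.81 <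
2π - 10π/18 ≤ 2π - 2μ`, `csInf_le`). It is enough: `2 (2 arctan t̄ - arctan t - arctan t')
≥ κ D²`, `κ = sin μ (1 + tan² μ/2)/(tan μ + t̄)`. The left side is `2 arctan y`,
`y = 2 t̄ D²/N`, `N = (1 + t̄²)² + D² (1 - t̄²) > 0` (addition theorem of `arctan`), and
`arctan y ≥ y - y³/3`. `κ` increases with `T0 = tan μ` (`κ = T0 (1 + T0²/2)/(√(1+T0²)(T0 + t̄))`),
`T0 ≤ tan 50° ≤ 1.1918`, so `κ ≤ 1.3103/(1.1918 + t̄)`. So it is enough that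
`4 t̄ (1 - y²/3)/N ≥ 1.3103/(1.1918 + t̄)`. For `t̄ ≤ 1`: `N ≤ 1 + 3 t̄²` (`D ≤ t̄`),
`y ≤ 2 t̄³/(1 + 3 t̄²) ≤ 1/2` (`y` increases in `D`); `4 t̄ (1 - y²/3)(1.1918 + t̄) ≥
1.3103 (1 + 3 t̄²)` on `[0.3, 1]` (at `0.3`: `1.789 ≥ 1.664`; at `1`: `8.03 ≥ 5.24`). For
`1 ≤ t̄ ≤ 7/5`: `(1 - y²/3)(1 + t̄²)²/N ≥ 9/10` (numerically `≥ 0.91`) and
`3.6 t̄ (1.1918 + t̄) ≥ 1.3103 (1 + t̄²)²`. CASE 2B: `t̄ < 3/10`: `ψ(t) + ψ(t') ≥ 2 ψ(t̄) ≥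
2 ψ(0.3) ≥ -0.566` (`ψ` is convex, decreasing on `[0, 1]`), `h ≥ tan μ sin μ`:
`T ≥ 2π - 2μ - 0.566 + tan μ sin μ ≥ 4.85` (minimum near `43°`: `tan μ sin μ = 1/cos μ - cos μ`).
CASE 2C: `t̄ > 7/5`: `ψ(t) + ψ(t') ≥ 2 ψ(t̄) ≥ 2 ψ(1.4) ≥ -1.003`, `h ≥ (tan μ + 1.4)
sin (μ - |δ|)`: `T ≥ 5.28 - 2μ + (μ + 1.4) sin (max 0 (μ - π/36)) ≥ 5.0` on `[0, 5π/18]`. -/
def Stmt_NT : Prop := ∀ μ t t' : ℝ, 0 < μ → μ ≤ 5 * Real.pi / 18 → 0 ≤ t → 0 ≤ t' →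
  ∃ δ : ℝ, |δ| ≤ Real.pi / 36 ∧ |δ| < μ ∧
    Tstar ≤ 2 * Real.pi - 2 * μ - (2 * Real.arctan t - t) - (2 * Real.arctan t' - t') +
      Real.cos δ / Real.cos μ -
      max (Real.cos (μ + δ) - t * Real.sin (μ + δ)) (Real.cos (μ - δ) - t' * Real.sin (μ - δ))

/-- QL2 (as QL, homogeneous form). Uses THREE. Proof. As QL with the vectors `G₁ u a`, `G₂ u b`,
`K u ν = G₁ u a + G₂ u b`, all of norm `≤ 1`. -/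
def Stmt_QL2 : Prop := ∀ (Q : List ℂ) (a b ν G₁ G₂ K c : ℝ) (x y z : ℂ), x ∈ Q → y ∈ Q → z ∈ Q →
  0 ≤ G₁ → G₁ ≤ 1 → 0 ≤ G₂ → G₂ ≤ 1 → 0 ≤ K → K ≤ 1 →
  G₁ * Real.cos a + G₂ * Real.cos b = K * Real.cos ν →
  G₁ * Real.sin a + G₂ * Real.sin b = K * Real.sin ν →
  1 ≤ pr a x → 1 ≤ pr b y → pr ν z ≤ c → G₁ + G₂ - K * c ≤ plen Q

/-- QR (bounds for the second path, frame: the first gap is `(-μ, μ)`). Uses QL2. Proof. `¬ Free`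
gives points `x, y ∈ Q` with `pr (-μ) x ≥ 1`, `pr μ y ≥ 1`. Identity: `sin (μ - ν) u (-μ) +
sin (μ + ν) u μ = sin (2μ) u ν`. (1) `ν = -δ`, `G₁ = sin (μ+δ)/sin 2μ`, `G₂ = sin (μ-δ)/sin 2μ`,
`K = 1`; both are `≤ 1`: if `μ ≤ π/4` as `μ ± δ ≤ 2μ ≤ π/2`; if `μ ≥ π/4` as
`sin (μ ± δ) ≤ sin (55°) ≤ sin (100°) ≤ sin 2μ`; `G₁ + G₂ = 2 sin μ cos δ/sin 2μ`. (2) The same with
`δ = 0`: `G = 1/(2 cos μ) ≤ 1`. (3) Directions `±π/3 ∈ [-μ, μ]`, `G₁ = G₂ = K = 1`. (4) `M =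
max (sin 2μ) (sin (μ+|s|)) > 0`, `ν = s`, `G₁ = sin (μ - s)/M`, `G₂ = sin (μ + s)/M`,
`K = sin 2μ/M`: all in `[0, 1]` (`sin (μ - |s|) ≤ max ...`: `μ - |s| ≤ μ + |s|`, and if
`μ + |s| > π/2` then ... in any case `sin (μ-|s|) ≤ max (sin 2μ) (sin (μ+|s|))` because
`μ - |s| ≤ μ + |s| ≤ 2μ` and, `sin` being concave on `[0, π]`, `sin (μ - |s|) ≤ sin (μ + |s|)` iff
`μ ≤ π/2`: `sin (μ+|s|) - sin (μ-|s|) = 2 cos μ sin |s| ≥ 0`). Result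
`(2 sin μ cos s - sin 2μ (1 + ε))/M ≥ Lam μ |s| - ε`. -/
def Stmt_QR : Prop := ∀ (Q : List ℂ) (μ : ℝ), 0 < μ → μ ≤ Real.pi / 2 →
  (∀ θ ∈ Icc (-μ) μ, ¬ Free Q θ) →
  (μ ≤ 5 * Real.pi / 18 → ∀ δ c : ℝ, |δ| ≤ Real.pi / 36 → |δ| < μ → (∃ z ∈ Q, pr (-δ) z ≤ c) →
    Real.cos δ / Real.cos μ - c ≤ plen Q) ∧
  (μ ≤ Real.pi / 3 → ∀ c : ℝ, (∃ z ∈ Q, z.re ≤ c) → 1 / Real.cos μ - c ≤ plen Q) ∧
  (Real.pi / 3 ≤ μ → ∀ c : ℝ, (∃ z ∈ Q, z.re ≤ c) → 2 - c ≤ plen Q) ∧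
  (∀ s ε : ℝ, |s| ≤ μ → 0 ≤ ε → (∃ z ∈ Q, pr s z ≤ 1 + ε) → Lam μ |s| - ε ≤ plen Q)

/-- EXF (extraction of a full chain). Uses EXG, LIFT. Proof. (1) For `x ∈ P`: `pr a x ≤ 1`, because
there are `θ → a` with `pr θ x < 1`; same for `b`. (2) Choose a free `θ0 ∈ (a, b)`. Let
`P' = P.filter (fun x => ∃ θ ∈ Icc b (a + 2π), 1 ≤ pr θ x)`. By LIFT each `x ∈ P'` has a cap
`[κ-α, κ+α] ⊆ (θ0, θ0 + 2π)` describing the covered directions in `[θ0, θ0+2π]`; it meets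
`[b, a+2π]`; it does not contain the free directions `θ ∈ (b - η, b)` (arbitrarily close to `b`),
nor those in `(a + 2π, a + 2π + η)`, so the cap is contained in `[b, a + 2π]`. Hence the
directions of `[θ0, θ0+2π]` covered by `P'` are exactly `[b, a+2π]` (and `θ0` is free for `P'`).
EXG for `P'`: the union of the caps of the chain is `[b, a+2π]`; so `L_0 = b`, `R_{m-1} = a+2π`
(the smallest left and the largest right end), and `L_{i+1} ≤ R_i` (otherwise a point of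
`(R_i, L_{i+1})` is not covered: later caps start later, earlier caps end earlier). -/
def Stmt_EXF : Prop := ∀ (P : List ℂ) (a b : ℝ), a < b → b < a + 2 * Real.pi →
  (∀ θ ∈ Icc b (a + 2 * Real.pi), ¬ Free P θ) →
  (∀ η > 0, ∃ θ ∈ Ioo a (a + η), Free P θ) → (∀ η > 0, ∃ θ ∈ Ioo (b - η) b, Free P θ) →
  ∃ (m : ℕ) (κ α : ℕ → ℝ), Full m κ α b (a + 2 * Real.pi) ∧ (∀ i < m, W κ α i ∈ P) ∧
    ∀ x ∈ P, pr a x ≤ 1 ∧ pr b x ≤ 1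

/-- PM2 (at most two vertices). Uses FER, N2. Proof. `x = W 0`, `y = W (m-1)`;
`pr (2π/3) x = cos (2π/3 - μ) + tan (α 0) sin (2π/3 - μ)` (as `L_0 = μ`,
`pr θ (V (μ+α) α) = cos (θ - μ) + tan α sin (θ - μ)`), and by symmetry
`pr (4π/3) y = cos (2π/3 - μ) + tan (α (m-1)) sin (2π/3 - μ)` (`R_{m-1} = 2π - μ`).
`m = 1`: `2 α 0 = 2π - 2μ ≥ π` contradicts `α 0 < π/2`. `m = 2`: `L_1 ≤ R_0` gives
`2 α 0 + 2 α 1 ≥ 2π - 2μ`. FER, N2 (first item). -/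
def Stmt_PM2 : Prop := ∀ (P : List ℂ) (m : ℕ) (κ α : ℕ → ℝ) (μ : ℝ) (z : ℂ), 0 < μ →
  μ ≤ Real.pi / 2 → Full m κ α μ (2 * Real.pi - μ) → m ≤ 2 → (∀ i < m, W κ α i ∈ P) → z ∈ P →
  z.re + 2 * Real.sin (2 * Real.pi / 3 - μ / 2) / Real.sin (μ / 2) ≤ plen P

/-- the directions `[μ1, 2π - μ2]` are covered by `P`, and there are free directions just inside
both ends of the gap `(-μ2, μ1)` -/
def GapAt (P : List ℂ) (μ1 μ2 : ℝ) : Prop :=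
  (∀ θ ∈ Icc μ1 (2 * Real.pi - μ2), ¬ Free P θ) ∧
  (∀ η > 0, ∃ θ ∈ Ioo (-μ2) (-μ2 + η), Free P θ) ∧ (∀ η > 0, ∃ θ ∈ Ioo (μ1 - η) μ1, Free P θ)

/-- PMID (first path, `50° ≤ μ ≤ 90°`, direction `ν = 0`). Uses EXF, PM2, N2, IM, AC, GV1, SFB.
Proof. EXF with `a = -μ`, `b = μ`. If `m ≤ 2`: PM2 and the third item of N2. If `m ≥ 3`: IM with
`μ1 = μ2 = μ` (second alternative of its hypothesis), `loss μ μ = - bS μ`; AC for the `p` of IM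
(`b - a` there is `2π - 2μ`); `(W 0).re = cos μ - tan (α 0) sin μ`, `(W (m-1)).re = cos μ -
tan (α (m-1)) sin μ`. IM first alternative with AC first alternative: GV1. With AC second
alternative: `psum ≥ 2π - 2μ + μ - 2 s0 = π + 2 - μ`, and both levels are `≤ cos μ ≤ 1`. IM second
and third alternative: `psum ≥ 2π - 2μ - 2 s0 = π + 2 - 2μ` in both cases of AC (`sf ≤ s0`). -/
def Stmt_PMID : Prop := ∀ (P : List ℂ) (μ c : ℝ) (z : ℂ), 5 * Real.pi / 18 ≤ μ →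
  μ ≤ Real.pi / 2 → GapAt P μ μ → z ∈ P → c ≤ z.re → c ≤ 1 →
  c + min (Real.pi + 1 - μ) (Real.pi + 2 - 2 * μ + bS μ) ≤ plen P

/-- PDEV (first path, `μ ≤ 50°`). Uses EXF, PM2, N2, IM, AC, NT, NC, NB, SFB, TU. Proof. EXF with
`a = -μ`, `b = μ`. If `m ≤ 2`: `δ = 0`; PM2, N2 (second item, `≥ 4`) and
`Tstar ≤ 4.819 ≤ 4 + 1/cos μ`. If `m ≥ 3`: `t = tan (α 0)`, `t' = tan (α (m-1))`, let `δ` be given
by NT. Rotate the frame by `δ`: `P' = P.map (· * exp (i δ))`, `κ' = κ + δ`, `μ1 = μ + δ`,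
`μ2 = μ - δ`, `z' = z * exp (i δ)`; `pr θ (x * exp (i δ)) = pr (θ - δ) x`,
`V (κ + δ) α = V κ α * exp (i δ)`, `plen`, `dd` unchanged, `Full m κ' α μ1 (2π - μ2)`,
`z'.re = pr (-δ) z`. IM applies: if `min μ1 μ2 < π/6` then `max μ1 μ2 < π/6 + π/18 < π/4`; else
`max ≤ 11π/36 ≤ 7π/12`. AC with `b - a = 2π - 2μ`. First alternative of IM: with the first of AC:
NT (`arctan (tan α) = α`); with the second of AC: NC (`re w_0 ≤ cos μ1`, `re w_{m-1} ≤ cos μ2`)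
and TU. Second and third alternative of IM: `psum ≥ 2π - 2μ - 2 s0`, NB and TU. -/
def Stmt_PDEV : Prop := ∀ (P : List ℂ) (μ : ℝ), 0 < μ → μ ≤ 5 * Real.pi / 18 → GapAt P μ μ →
  ∃ δ : ℝ, |δ| ≤ Real.pi / 36 ∧ |δ| < μ ∧ ∀ z ∈ P, ∀ c : ℝ, c ≤ 1 → c ≤ pr (-δ) z →
    Tstar + c - Real.cos δ / Real.cos μ ≤ plen P

/-- QM2 (second path for `μ ≥ 75°`, at most two vertices; frame: level = `re`, the gap of the first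
path is `(π - μ, π + μ)`). Uses FER, THREE. Proof. `x` covers `π - μ` and `θ0`, `y` covers `θ0` and
`π + μ`. (1) `2π/3 ≤ θ0 ≤ 4π/3`: `u (2π/3)` is a nonnegative combination of `u (π - μ)` and
`u θ0`, `pr (2π/3) x ≥ cos (2π/3 - c1)/cos h1`, `c1 = (π - μ + θ0)/2`, `h1 = (θ0 - π + μ)/2`
`= cos (μ - π/3) + tan h1 sin (μ - π/3)`, similarly `pr (4π/3) y ≥ cos (μ - π/3) + tan h2
sin (μ - π/3)`, `h2 = (π + μ - θ0)/2`, `h1 + h2 = μ`, so by convexity of `tan` the sum is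
`≥ 2 cos (μ - π/3) + 2 tan (μ/2) sin (μ - π/3) = 2 cos (μ/2 - π/3)/cos (μ/2) ≥ μ + 0.68`
(slack 0.34). FER. (2) `θ0 < 2π/3`: `y` covers `[2π/3, π+μ]` (or at least `2π/3`: a point which
covers `θ0` and `π + μ` with `π + μ - θ0 < π`... if `π + μ - θ0 ≥ π` this is impossible, as a cap is
shorter than `π` and contains one of the arcs between; use: `y` covers `θ0` and `π + μ`,
`u π` is a nonnegative combination of `u θ0` and `u (π+μ)` as `θ0 ≤ π ≤ π + μ ≤ θ0 + π`), so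
`pr π y ≥ cos (π - c)/cos h` with `c = (θ0 + π + μ)/2`, `h = (π + μ - θ0)/2 < π/2`; put
`x0 = π - θ0 ∈ [π/3, μ]`: value `cos ((μ - x0)/2)/cos ((μ + x0)/2)`, increasing in `x0`, so
`≥ cos ((μ - π/3)/2)/cos ((μ + π/3)/2) ≥ μ + 0.68` (slack 0.6). `plen Q ≥ dist y z ≥ z.re + pr π y`
(`pr π y = - y.re`). (3) `θ0 > 4π/3`: mirror image with `x`. (If `μ + x0 = π` in (2), i.e.
`θ0 = π - μ`, `μ = π/2`: then `y` covers two opposite directions, impossible.) -/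
def Stmt_QM2 : Prop := ∀ (Q : List ℂ) (μ θ0 : ℝ) (x y z : ℂ), 5 * Real.pi / 12 ≤ μ →
  μ ≤ Real.pi / 2 → Real.pi - μ ≤ θ0 → θ0 ≤ Real.pi + μ → x ∈ Q → y ∈ Q → z ∈ Q →
  1 ≤ pr (Real.pi - μ) x → 1 ≤ pr θ0 x → 1 ≤ pr θ0 y → 1 ≤ pr (Real.pi + μ) y →
  z.re + μ + 17 / 25 ≤ plen Q

/-- QIV (second path, `75° ≤ μ ≤ 90°`; frame: `Q` has the gap `(-μ2, μ1)`, the gap of the first path
is `(π - μ, π + μ)`). Uses EXF, QM2, IM, AC, GV2, SFB. Proof. EXF with `a = -μ2`, `b = μ1`. Note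
`μ1, μ2 ≥ 2μ - (π - μ) ≥ π/4` and `≤ π - μ ≤ 7π/12`, so IM applies (second alternative of its
hypothesis), `loss = - min (bS μ1) (bS μ2)`. If `m ≤ 2`: QM2: let `x = W 0`, `y = W (m-1)`; the
caps are `[μ1, R_0]`, `[L_{m-1}, 2π - μ2]` with `L_{m-1} ≤ R_0`, and `μ1 ≤ π - μ`,
`π + μ ≤ 2π - μ2`; if `L_{m-1} ≤ π - μ` use `(y, y, θ0 = π)`, if `R_0 ≥ π + μ` use
`(x, x, θ0 = π)`, else `θ0 = L_{m-1} ∈ (π - μ, π + μ)`. If `m ≥ 3`: AC (`b - a` there is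
`2π - μ1 - μ2`). `(W 0).re = cos μ1 - tan (α 0) sin μ1`, `(W (m-1)).re = cos μ2 - tan (α (m-1))
sin μ2`. IM 1 with AC 1: GV2 (1); IM 1 with AC 2: GV2 (2); IM 2, 3: `psum ≥ 2π - μ1 - μ2 - 2 s0`,
GV2 (3). -/
def Stmt_QIV : Prop := ∀ (Q : List ℂ) (μ μ1 μ2 c : ℝ) (z : ℂ), 5 * Real.pi / 12 ≤ μ →
  μ ≤ Real.pi / 2 → μ1 ≤ Real.pi - μ → μ2 ≤ Real.pi - μ → 2 * μ ≤ μ1 + μ2 → GapAt Q μ1 μ2 →
  z ∈ Q → c ≤ z.re → c ≤ 1 → c + μ + 17 / 25 ≤ plen Q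

/-- LOWC. Proof. `x ∈ P` with `cos μ1 x.re + sin μ1 x.im ≥ 1`, `x.re < -1`, `cos μ1 ≥ 0`:
`x.im ≥ (1 + cos μ1)/sin μ1 = 1/tan (μ1/2)`; similarly `y.im ≤ -1/tan (μ2/2)`; `plen P ≥ dist x y
≥ x.im - y.im` (two elements of the list; `x ≠ y`). -/
def Stmt_LOWC : Prop := ∀ (P : List ℂ) (μ1 μ2 : ℝ), 0 < μ1 → μ1 ≤ Real.pi / 2 → 0 < μ2 →
  μ2 ≤ Real.pi / 2 → (∀ x ∈ P, x.re < -1) → (∃ x ∈ P, 1 ≤ pr μ1 x) → (∃ y ∈ P, 1 ≤ pr (-μ2) y) →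
  1 / Real.tan (μ1 / 2) + 1 / Real.tan (μ2 / 2) ≤ plen P

/-- SPK (spike). Uses EXG, LIFT, SUBZ, PLS, HU, GAIN, SFB. `P` covers `[μ, 2π - μ]` and
`[n1, n2] ⊆ (-μ, μ)`, with free directions just outside. Proof. Choose a free `θ0 ∈ (-μ, n1)`. Let
`P' = P.filter (fun x => (∃ θ ∈ Icc μ (2π - μ), 1 ≤ pr θ x) ∨ ∃ θ ∈ Icc n1 n2, 1 ≤ pr θ x)`. As in
EXF each `x ∈ P'` has its cap (lifted to `(θ0, θ0 + 2π)`) inside `[n1, n2]` or inside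
`[μ, 2π - μ]`, so the directions of `[θ0, θ0 + 2π]` covered by `P'` are exactly
`[n1, n2] ∪ [μ, 2π - μ]`. EXG for `P'` gives a chain; let `s` be the number of its caps in
`[n1, n2]`: `0 < s < m`, `L_0 = n1`, `R_{s-1} = n2`, `L_s = μ`, `R_{m-1} = 2π - μ`, no other gaps;
`U p = 2π - 2μ + (n2 - n1)` for every `p` with `Visits m p`. SUBZ, PLS: `plen P ≥ plen P' ≥
psum dd p`. HU with `η = 1/10` if the three smallness conditions hold, else `η = 0` (`m ≥ 3`, or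
`m = 2` and `R_0 = n2 < μ = L_1`). For `η = 1/10`: `p` visits indices `< s` and `≥ s`, so some
consecutive pair has `i < s ≤ j`; `¬ ov`; `α i ≤ (n2 - n1)/2 ≤ π/36`; GAIN with
`Θ = κ j - κ i` or `2π - (κ j - κ i)` (the short side is `≥ μ - n2` resp. `≥ n1 + μ`, both
`≥ 13π/180`): `exc ≥ short/2 + 1/10`. Conclusions: first alternative of HU. Second alternative: the
gap is `0` (length `n1 + μ`, vertices `0` and `m-1`) or `s` (length `μ - n2`, vertices `s` and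
`s-1`); the vertex in `[n1, n2]` has `2 α ≤ n2 - n1`, so `sf α ≤ min s0 ((n2 - n1)/2)`, the other
one `sf ≤ s0`. (`U + (2π - U)/2 = 2π - (2π - U)/2`.) -/
def Stmt_SPK : Prop := ∀ (P : List ℂ) (μ n1 n2 : ℝ), 0 < μ → μ ≤ Real.pi / 2 → -μ < n1 →
  n1 ≤ n2 → n2 < μ → GapAt P μ μ → (∀ θ ∈ Icc n1 n2, ¬ Free P θ) →
  (∀ η > 0, ∃ θ ∈ Ioo (n1 - η) n1, Free P θ) → (∀ η > 0, ∃ θ ∈ Ioo n2 (n2 + η), Free P θ) →
  (2 * Real.pi - (2 * μ - (n2 - n1)) / 2 - 2 * s0 ≤ plen P ∧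
    (n2 - n1 ≤ Real.pi / 18 → 13 * Real.pi / 180 ≤ n1 + μ → 13 * Real.pi / 180 ≤ μ - n2 →
      2 * Real.pi - (2 * μ - (n2 - n1)) / 2 - 2 * s0 + 1 / 10 ≤ plen P)) ∨
  2 * Real.pi - (2 * μ - (n2 - n1)) / 2 - (n1 + μ) / 2 - s0 - min s0 ((n2 - n1) / 2) ≤ plen P ∨
  2 * Real.pi - (2 * μ - (n2 - n1)) / 2 - (μ - n2) / 2 - s0 - min s0 ((n2 - n1) / 2) ≤ plen P

/-- SPT (total length in the spike case). Uses SPK, QR, SPH, SPU. Proof. `b1 = -n1`, `b2 = n2`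
(`≥ 0`, `≤ μ`). QR (4) with `s = n1`, `s = n2`: `plen Q ≥ Lam μ b1 - ε`, `≥ Lam μ b2 - ε`, hence
also `≥ Lam μ (min b1 b2) - ε` and `≥ max ... - ε`. First alternative of SPK: if
`π/18 ≤ b1 + b2` or `μ ≤ 413/1000` or `μ ≥ 9/10`: SPH (1). Otherwise `b1 + b2 ≤ π/18`,
`μ - b1 ≥ 0.413 - π/18 ≥ 13π/180` (`0.413 - 0.1746 = 0.2384 ≥ 0.2269`), the same for `b2`:
SPH (2). Second alternative: SPU. Third: SPU with `b1`, `b2` exchanged. -/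
def Stmt_SPT : Prop := ∀ (P Q : List ℂ) (μ n1 n2 ε : ℝ), 0 < μ → μ ≤ Real.pi / 2 → -μ < n1 →
  n1 ≤ 0 → 0 ≤ n2 → n2 < μ → 0 ≤ ε → GapAt P μ μ → (∀ θ ∈ Icc n1 n2, ¬ Free P θ) →
  (∀ η > 0, ∃ θ ∈ Ioo (n1 - η) n1, Free P θ) → (∀ η > 0, ∃ θ ∈ Ioo n2 (n2 + η), Free P θ) →
  (∀ θ ∈ Icc (-μ) μ, ¬ Free Q θ) → (∃ z ∈ Q, pr n1 z ≤ 1 + ε) → (∃ z ∈ Q, pr n2 z ≤ 1 + ε) →
  4819 / 1000 - ε ≤ plen P + plen Q

end

end Pool.BA
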