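import Pool.Agent.Work.MP_655153_ba.Interface4

/-!
# Blueprint, part 5: two components, hulls, the cases, the final theorem

`F_P = {θ | Free P θ}` is open and `2π`-periodic.
-/

open MeasureTheory Set
open scoped ENNReal

namespace Pool.BA

noncomputable section

open Pool.Agent.Work.MP_655153_co

/-- rotation of a list of points by the angle `φ` -/
def rot (φ : ℝ) (P : List ℂ) : List ℂ := P.map (fun z => z * u φ)

/-- the free directions form at least two arcs (modulo `2π`) -/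
def TwoC (P : List ℂ) : Prop := ∃ a b c d : ℝ, a < b ∧ b < c ∧ c < d ∧ d < a + 2 * Real.pi ∧
  Free P a ∧ ¬ Free P b ∧ Free P c ∧ ¬ Free P d

/-- measure of the free directions in a period -/
def fr (P : List ℂ) : ℝ := (volume ({θ | Free P θ} ∩ Ioc 0 (2 * Real.pi))).toReal

/-- ROT (elementary facts). Proof. `pr θ (z * u φ) = z.re cos (θ - φ) + z.im sin (θ - φ)`
(`cos_sub`, `sin_sub`); multiplication by `u φ` (norm 1) is an isometry; the statements about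
`Free` and `Pair` follow by `List.mem_map` (`Pair (rot ..)` at `θ` is `Pair` at `θ - φ`).
Periodicity: `pr (θ + 2π) = pr θ`. `{θ | Free P θ}` is a finite intersection of open sets
(induction on `P` or `isOpen_biInter_finset`), `pr θ p` is continuous in `θ`. -/
def Stmt_ROT : Prop := (∀ (φ θ : ℝ) (z : ℂ), pr θ (z * u φ) = pr (θ - φ) z) ∧
  (∀ (φ : ℝ) (P : List ℂ), plen (rot φ P) = plen P) ∧
  (∀ (φ : ℝ) (P : List ℂ) (θ : ℝ), Free (rot φ P) θ ↔ Free P (θ - φ)) ∧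
  (∀ (φ : ℝ) (P Q : List ℂ) (ε : ℝ), Pair P Q ε → Pair (rot φ P) (rot φ Q) ε) ∧
  (∀ (P Q : List ℂ) (ε : ℝ), Pair P Q ε → Pair Q P ε) ∧
  (∀ (P : List ℂ) (θ : ℝ), Free P (θ + 2 * Real.pi) ↔ Free P θ) ∧
  (∀ P : List ℂ, IsOpen {θ | Free P θ}) ∧ ∀ P : List ℂ, 0 ≤ plen P

/-- MS (measure of the free directions). Uses ROT. Proof. First item: `F` is periodic and
measurable (open): both `Ioc` are fundamental domains of the translations by multiples of `2π`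
(`isAddFundamentalDomain_Ioc`, `IsAddFundamentalDomain.measure_set_eq`), or with integrals of the
indicator function (`Function.Periodic.intervalIntegral_add_eq`). Second item: in the window
`Ioc l1 (l1 + 2π)` the free set is contained in the complement of `Ioo l1 r1 ∪ Ioo l2 r2`
(disjoint, measure `(r1 - l1) + (r2 - l2)`). Third item: disjoint subsets of `Ioc 0 (2π)`. Last
item: a free interval `Ioo a b`, `b ≤ a + 2π`, is contained in `Ioc a (a + 2π)`. -/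
def Stmt_MS : Prop :=
  (∀ (P : List ℂ) (a : ℝ), (volume ({θ | Free P θ} ∩ Ioc a (a + 2 * Real.pi))).toReal = fr P) ∧
  (∀ (P : List ℂ) (l1 r1 l2 r2 : ℝ), l1 ≤ r1 → r1 ≤ l2 → l2 ≤ r2 → r2 ≤ l1 + 2 * Real.pi →
    (∀ θ ∈ Ioo l1 r1, ¬ Free P θ) → (∀ θ ∈ Ioo l2 r2, ¬ Free P θ) →
    fr P + (r1 - l1) + (r2 - l2) ≤ 2 * Real.pi) ∧
  (∀ P Q : List ℂ, (∀ θ, ¬ Free P θ ∨ ¬ Free Q θ) → fr P + fr Q ≤ 2 * Real.pi) ∧
  ∀ (P : List ℂ) (a b : ℝ), a ≤ b → b ≤ a + 2 * Real.pi → (∀ θ ∈ Ioo a b, Free P θ) →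
    0 ≤ fr P ∧ b - a ≤ fr P

/-- HUL (HU for a list). Uses EXG, SUBZ, PLS, HU, MS. Proof. EXG gives the chain; SUBZ (window
hypothesis: `R_{m-1} < θ0 + 2π < L_0 + 2π`) gives `p` with `Visits m p` and `pts κ α p` a sublist of
`P`, so `plen P ≥ plen (pts κ α p) = psum (dd κ α) p` (PLS, first and second item). The caps are
contained in the window and cover exactly its non-free directions, so
`U κ α p = 2π - fr P` (MS, first item with `a = θ0`). HU with `η = 0`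
(`U + (2π - U)/2 = 2π - fr P/2`). -/
def Stmt_HUL : Prop := ∀ (P : List ℂ) (θ0 : ℝ), Free P θ0 → (∃ θ, ¬ Free P θ) →
  ∃ (m : ℕ) (κ α : ℕ → ℝ), 0 < m ∧ Chain m κ α ∧ θ0 < Lf κ α 0 ∧
    Rt κ α (m - 1) < θ0 + 2 * Real.pi ∧ (∀ i < m, V (κ i) (α i) ∈ P) ∧
    (∀ θ ∈ Icc θ0 (θ0 + 2 * Real.pi), (¬ Free P θ ↔ ∃ i < m, Lf κ α i ≤ θ ∧ θ ≤ Rt κ α i)) ∧
    (3 ≤ m ∨ (m = 2 ∧ Rt κ α 0 < Lf κ α 1) →
      2 * Real.pi - fr P / 2 - 2 * s0 ≤ plen P ∨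
      ∃ s < m, 0 < gap κ α m s ∧
        2 * Real.pi - fr P / 2 - gap κ α m s / 2 - sf (α s) - sf (α (prd m s)) ≤ plen P)

/-- TWO (HU when the free set has at least two components). Uses HUL, ROT. Proof. `a, b, c, d`
from `TwoC`; HUL with `θ0 = a`. `b` is in a cap `i`, `d` in a cap `j`, `c` in none. Let `s` be the
smallest index with `c < L_s` (exists: `c < d ≤ R_j` and `c` is not in the cap `j`). `s > 0` as
`L_0 ≤ L_i ≤ b < c`; `L_{s-1} ≤ c` and `c` is not in this cap, so `R_{s-1} < c < L_s`. Hence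
`m ≥ 2`, and if `m = 2` then `s = 1`, `R_0 < L_1`: HUL applies. Its first alternative is the first
one here. Second one, with the index `k`: (i) `k > 0`: `a' = R_{k-1}`, `b' = L_k`, `α' = α k`,
`β' = α (k-1)`, `θ' = a + 2π` (free by periodicity; `R_k ≤ R_{m-1} < a + 2π < L_0 + 2π ≤
L_{k-1} + 2π`). `(a', b')` is free: it lies in the window, caps `≤ k-1` end before, caps `≥ k`
start after. (ii) `k = 0`: `a' = R_{m-1}`, `b' = L_0 + 2π`, `α' = α 0`, `β' = α (m-1)`,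
`θ' = c + 2π` (`R_0 ≤ R_{s-1} < c < L_s ≤ L_{m-1}`); `(a', b')` is free: `(R_{m-1}, a + 2π]` is in
the window, `(a + 2π, L_0 + 2π)` by periodicity. Monotonicity of `L_i`, `R_i` in `i < m` by
induction from `Chain`. The caps are covered (window and periodicity). -/
def Stmt_TWO : Prop := ∀ P : List ℂ, TwoC P →
  2 * Real.pi - fr P / 2 - 2 * s0 ≤ plen P ∨
  ∃ a b α β θ' : ℝ, a < b ∧ 0 ≤ α ∧ α < Real.pi / 2 ∧ 0 ≤ β ∧ β < Real.pi / 2 ∧
    (∀ θ ∈ Ioo a b, Free P θ) ∧ (∀ θ ∈ Icc b (b + 2 * α), ¬ Free P θ) ∧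
    (∀ θ ∈ Icc (a + 2 * Real.pi - 2 * β) (a + 2 * Real.pi), ¬ Free P θ) ∧
    b + 2 * α < θ' ∧ θ' < a + 2 * Real.pi - 2 * β ∧ Free P θ' ∧
    2 * Real.pi - fr P / 2 - (b - a) / 2 - sf α - sf β ≤ plen P

/-- BOTH (both free sets have at least two components). Uses TWO, MS, SFB, ROT. Proof. `F_P`,
`F_Q` are disjoint. `sf x ≤ s0`, `sf x ≤ x` (SFB), `s0 = π/2 - 1`, `π + 2 = 2π - 2 s0`. (H)/(H):
`plen P + plen Q ≥ 4π - (fr P + fr Q)/2 - 4 s0 ≥ 3π - 4 s0 = π + 4`. (H)/(U) with `Q` of type (U):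
`fr Q + 2α + 2β ≤ 2π` (MS 2 with `[b, b+2α]`, `[a+2π-2β, a+2π]`), `fr P + (b - a) ≤ 2π` (MS 2,
`(a, b)` is free for `Q` so not free for `P`; second interval empty), so
`4π - (fr P + fr Q)/2 - (b - a)/2 - (α + β) - 2 s0 ≥ 4π - π - π - 2 s0`. (U)/(U): data
`a, b, α, β, θ'` for `P`, `c, d, γ, δ, ϑ'` for `Q`. Claim (*): `fr P + (d - c) + 2α ≤ 2π` or
`fr P + (d - c) + 2β ≤ 2π`. Shift `(c, d)` by a multiple of `2π` so that `b ≤ c < b + 2π`. No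
`θ ∈ (c, d)` is free for `P`, and `(a + 2π, b + 2π)` is free for `P`, so `c < a + 2π` (else
points slightly to the right of `c` are free for both) and `d ≤ a + 2π`. `θ'` is free for `P`, so
`θ' ∉ (c, d)`. If `d ≤ θ'`: MS 2 with `[c, d]`, `[a+2π-2β, a+2π]` (`d ≤ θ' < a + 2π - 2β`,
`a + 2π ≤ c + 2π`). If `θ' ≤ c`: MS 2 with `[b, b+2α]`, `[c, d]`. The same with `P`, `Q`
exchanged: (**) `fr Q + (b - a) + 2γ ≤ 2π` or `... 2δ ≤ 2π`. Say `α` and `γ`: use `sf α ≤ α`,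
`sf γ ≤ γ`, `sf β ≤ s0`, `sf δ ≤ s0`: the sum is
`≥ 4π - (fr P + (d-c) + 2α)/2 - (fr Q + (b-a) + 2γ)/2 - 2 s0 ≥ 2π - 2 s0`. -/
def Stmt_BOTH : Prop := ∀ P Q : List ℂ, (∀ θ, ¬ Free P θ ∨ ¬ Free Q θ) → TwoC P → TwoC Q →
  Real.pi + 2 ≤ plen P + plen Q

/-- K0 (no free direction). Uses HUL, MS, ROT. Proof. `P ≠ []` (otherwise everything is free). Let
`h θ = max over p ∈ P of pr θ p`, continuous, `2π`-periodic, `h ≥ 1`, `λ = min h = h θ0 ≥ 1`. For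
`τ > 0` let `P_τ = P.map (fun z => z / (λ (1 + τ)))`: `Free P_τ θ ↔ h θ < λ (1 + τ)`, `θ0` is free
for `P_τ`, `plen P_τ = plen P/(λ (1+τ)) ≤ plen P`. (1) `fr P_τ → 0` as `τ → 0` (`τ = 1/n`): the
sets `{θ ∈ Ioc 0 (2π) | h θ < λ (1+τ)}` decrease to `{h = λ}`, contained in the union over
`p ∈ P` of `{θ | pr θ p = λ}`; with `p = r u κ`, `r cos (θ - κ) = λ > 0` means
`cos (θ - κ) = cos β`, `θ - κ ∈ {±β + 2πn}` (`Real.cos_eq_cos_iff`): countable, so measure zero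
(`MeasureTheory.tendsto_measure_iInter_atTop`). (2) So for every `η > 0` there is `τ > 0` with
`fr P_τ < η`. Let `R = max ‖p‖`, `A = arccos (1/R) < π/2`: all half-angles of the chain of HUL for
`P_τ` are `≤ A` (`1/cos (α i) = ‖V (κ i) (α i)‖ ≤ R`). If `η ≤ 2π - 4A` then `m ≥ 3`, because
`2π - fr P_τ ≤ 2 m A` (the caps cover the non-free directions of the window). (3) HUL: in both
alternatives `plen P_τ ≥ 2π - fr P_τ - 2 s0`: first one clear (`fr/2 ≤ fr`); second one: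
`gap s ≤ fr P_τ` (the gap is a free interval, MS last item; see TWO for the proof that it is
free) and `sf ≤ s0` (`sf x = 2x - tan x`, maximum at `π/4`; this is SFB, add it as a hypothesis or
prove it). So `plen P ≥ π + 2 - η` for all small `η`. -/
def Stmt_K0 : Prop := ∀ P : List ℂ, (∀ θ, ¬ Free P θ) → Real.pi + 2 ≤ plen P

/-- the frame of the main case: the free directions of `P` have the hull `(-μ, μ)`, those of `Q`
the hull `(a', b')` -/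
structure Frame (P Q : List ℂ) (μ a' b' ε : ℝ) : Prop where
  mpos : 0 < μ
  mle : μ ≤ Real.pi / 2
  epos : 0 < ε
  elt : ε < 1 / 1000
  pair : Pair P Q ε
  gapP : GapAt P μ μ
  ha : μ ≤ a'
  hb : b' ≤ 2 * Real.pi - μ
  len : 2 * μ ≤ b' - a'
  covQ : ∀ θ ∈ Icc b' (a' + 2 * Real.pi), ¬ Free Q θ
  accA : ∀ η > 0, ∃ θ ∈ Ioo a' (a' + η), Free Q θ
  accB : ∀ η > 0, ∃ θ ∈ Ioo (b' - η) b', Free Q θ

/-- LVL (levels). Proof. `P ≠ []`; let `z ∈ P` have the largest `pr ν`, `c = pr ν z < 1` (`ν` is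
free). `Pair` gives `q ∈ Q` with `pr ν q ≤ -1 + ε` or `pr ν q ≤ pr ν p + ε ≤ c + ε`. -/
def Stmt_LVL : Prop := ∀ (P Q : List ℂ) (ε ν : ℝ), Pair P Q ε → Free P ν →
  ∃ z ∈ P, pr ν z < 1 ∧ (∀ x ∈ P, pr ν x ≤ pr ν z) ∧
    ((-1 ≤ pr ν z ∧ ∃ q ∈ Q, pr ν q ≤ pr ν z + ε) ∨
     (pr ν z < -1 ∧ ∃ q ∈ Q, pr ν q ≤ -1 + ε))

/-- SPZ (spike: the middle direction `0` is not free). Uses SPT, ROT. Proof. `n1 = sup` of the free
directions (of `P`) in `(-μ, 0)` (nonempty by `gapP.2.1`, `η = μ`), `n2 = inf` of those in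
`(0, μ)`. `-μ < n1 ≤ 0 ≤ n2 < μ`. As `F_P` is open and `0 ∉ F_P`: `n1`, `n2` are not free, and by
the choice no direction of `[n1, n2]` is free; free directions accumulate at `n1` from the left
and at `n2` from the right. `Q` is not free on `[-μ, μ]`: `[2π - μ, 2π + μ] ⊆ [b', a' + 2π]` and
periodicity. Level of `Q` at `n1`: for `θ < n1` free for `P`, arbitrarily close to `n1`, some
`q ∈ Q` has `pr θ q ≤ max (-1) 1 + ε = 1 + ε` (`Pair`; `pr θ p < 1` for `p ∈ P`); if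
`pr n1 q > 1 + ε` for all `q ∈ Q` then this holds for all `θ` near `n1` (finitely many `q`,
continuity), a contradiction. Same at `n2`. SPT. -/
def Stmt_SPZ : Prop := ∀ (P Q : List ℂ) (μ a' b' ε : ℝ), Frame P Q μ a' b' ε → ¬ Free P 0 →
  4819 / 1000 - ε ≤ plen P + plen Q

/-- CA (`μ ≤ 50°`). Uses PDEV, QR, LVL, LOWC, ROT, SPZ, TU. Proof. `Q` is not free on `[-μ, μ]` (as
in SPZ). `δ` from PDEV, `ν = -δ`. (1) `ν` is free for `P`: LVL. If `-1 ≤ c = pr ν z`: PDEV gives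
`Tstar + c - cos δ/cos μ ≤ plen P`, QR (1) with `c + ε` gives `cos δ/cos μ - c - ε ≤ plen Q`; add.
If `c < -1`: LOWC for `rot δ P` with `μ1 = μ + δ`, `μ2 = μ - δ`, both in `(0, π/3]`
(`(x * u δ).re = pr 0 (x * u δ) = pr (-δ) x = pr ν x < -1`; `pr (μ+δ) (x * u δ) = pr μ x`, and some
`x ∈ P` has `pr μ x ≥ 1`, since `μ ∈ [μ, 2π - μ]` is not free; `pr (-(μ-δ)) (x * u δ) =
pr (-μ) x`, and `2π - μ` is not free): `plen P ≥ 2/tan (π/6) = 2√3 ≥ 3.4`. QR (1) with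
`c = -1 + ε`: `plen Q ≥ cos δ/cos μ + 1 - ε ≥ 2 - ε` (`cos δ ≥ cos μ`). Sum `≥ 5.4 - ε`, and
`Tstar ≤ 4.819` (TU). (2) `ν` is not free for `P`: some `z ∈ P` has `pr ν z ≥ 1`, PDEV with `c = 1`:
`Tstar + 1 - cos δ/cos μ ≤ plen P`. If `0` is free for `P`: LVL at `0` (level `< 1`) and QR (2)
(`μ ≤ 5π/18 ≤ π/3`) with `c = 1 + ε`: `plen Q ≥ 1/cos μ - 1 - ε ≥ cos δ/cos μ - 1 - ε`; add. If `0`
is not free: SPZ and TU. -/
def Stmt_CA : Prop := ∀ (P Q : List ℂ) (μ a' b' ε : ℝ), Frame P Q μ a' b' ε →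
  μ ≤ 5 * Real.pi / 18 → Tstar - ε ≤ plen P + plen Q

/-- CB (`50° ≤ μ ≤ 75°`). Uses PMID, QR, NV, LVL, LOWC, SPZ, ROT. Proof. If `0` is not free for `P`:
SPZ. Otherwise LVL with `ν = 0` (`pr 0 z = z.re`), `c = z.re < 1`. `Q` is not free on `[-μ, μ]`.
If `-1 ≤ c`: PMID: `plen P ≥ c + min (π + 1 - μ) (π + 2 - 2μ + bS μ)`; for `μ ≤ π/3` QR (2):
`plen Q ≥ 1/cos μ - c - ε`, NV (1); for `μ ≥ π/3` QR (3): `plen Q ≥ 2 - c - ε`, NV (2). If
`c < -1`: LOWC with `μ1 = μ2 = μ`: `plen P ≥ 2/tan (μ/2) ≥ 2` (`μ/2 ≤ π/4`), for `μ ≤ π/3`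
`≥ 2√3 ≥ 3.4`; `plen Q ≥ 1/cos μ + 1 - ε ≥ 2 - ε` for `μ ≤ π/3`, `≥ 3 - ε` for `μ ≥ π/3`
(QR (2), (3) with `c = -1 + ε`). -/
def Stmt_CB : Prop := ∀ (P Q : List ℂ) (μ a' b' ε : ℝ), Frame P Q μ a' b' ε →
  5 * Real.pi / 18 ≤ μ → μ ≤ 5 * Real.pi / 12 → 4819 / 1000 - ε ≤ plen P + plen Q

/-- CC (`75° ≤ μ ≤ 90°`). Uses PMID, QIV, NV, QR, LVL, LOWC, ROT, SPZ. Proof. If `0` is not free for
`P`: SPZ. Otherwise LVL with `ν = 0`, `c = z.re < 1`. If `c < -1`: as in CB (`2 + 3 - ε`). If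
`-1 ≤ c`: PMID and NV (3) (`bS μ ≥ μ - 1`, so `π + 2 - 2μ + bS μ ≥ π + 1 - μ`):
`plen P ≥ c + π + 1 - μ`. For `Q`: `q ∈ Q` with `q.re ≤ c + ε`. QIV for `Q' = rot (-π) Q`
(`x * u (-π) = -x`), `μ1 = b' - π`, `μ2 = π - a'`, the point `-q`, `c' = -c - ε ≤ 1`: `Q'` is free
at `θ` iff `Q` is free at `θ + π`; `[μ1, 2π - μ2] + π = [b', a' + 2π]`, `(-μ2, μ1) + π = (a', b')`;
`μ1 ≤ π - μ`, `μ2 ≤ π - μ`, `μ1 + μ2 = b' - a' ≥ 2μ`. So `plen Q ≥ -c - ε + μ + 17/25`. Sum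
`≥ π + 1.68 - ε ≥ 4.8215 - ε`. -/
def Stmt_CC : Prop := ∀ (P Q : List ℂ) (μ a' b' ε : ℝ), Frame P Q μ a' b' ε →
  5 * Real.pi / 12 ≤ μ → 4819 / 1000 - ε ≤ plen P + plen Q

/-- the free directions of `P` have the hull `(a, b)` modulo `2π` -/
def Hull (P : List ℂ) (a b : ℝ) : Prop := (∀ θ ∈ Icc b (a + 2 * Real.pi), ¬ Free P θ) ∧
  (∀ η > 0, ∃ θ ∈ Ioo a (a + η), Free P θ) ∧ (∀ η > 0, ∃ θ ∈ Ioo (b - η) b, Free P θ)

/-- CG (hulls in general position). Uses CA, CB, CC, ROT, TU. Proof. `m = (a + b)/2`,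
`φ = -m`: `Free (rot φ P) θ ↔ Free P (θ + m)`. `Frame (rot φ P) (rot φ Q) μ (c - m) (d - m) ε`
with `μ = (b - a)/2`: `b - m = μ`, `a - m = -μ`, `c - m ≥ b - m = μ`,
`d - m ≤ a + 2π - m = 2π - μ`, `2μ = b - a ≤ d - c`; `μ ≤ π/2` since `(b - a) + (d - c) ≤ 2π`. CA,
CB or CC and TU (`Tstar ≤ 4.819`). -/
def Stmt_CG : Prop := ∀ (P Q : List ℂ) (a b c d ε : ℝ), 0 < ε → ε < 1 / 1000 → Pair P Q ε →
  a < b → b ≤ c → c < d → d ≤ a + 2 * Real.pi → b - a ≤ d - c → Hull P a b → Hull Q c d →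
  Tstar - ε ≤ plen P + plen Q

/-- HULL. Uses ROT. Proof. `θQ` free for `Q`, then (openness of `F_Q`, disjointness) `P` is not free
in a neighbourhood of `θQ` and of `θQ + 2π`. `a = inf`, `b = sup` of the free directions of `P` in
`[θQ, θQ + 2π]` (nonempty by periodicity); `θQ < a < b < θQ + 2π` (`F_P` is open). `a`, `b` are not
free (openness), `P` is not free on `[θQ, a]` and `[b, θQ + 2π]`, so (periodicity) not on
`[b, a + 2π]`: `Hull P a b`. `(a, b)` is free: if `n ∈ (a, b)` is not, there are free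
`θ1 ∈ (a, n)`, `θ2 ∈ (n, b)` and `θ1 < n < θ2 < θQ + 2π < θ1 + 2π` contradicts `¬ TwoC P`. So `Q`
is not free on `(a, b)`, nor on `(a + 2π, b + 2π)`, and (openness) not at `a`, `b`, `a + 2π`,
`b + 2π`. `c = inf`, `d = sup` of the free directions of `Q` in `[b, a + 2π]` (contains
`θQ + 2π`): `b ≤ c < d ≤ a + 2π`, `Q` is not free on `[d, a + 2π] ∪ [a + 2π, b + 2π] ∪
[b + 2π, c + 2π] = [d, c + 2π]`. -/
def Stmt_HULL : Prop := ∀ P Q : List ℂ, (∀ θ, ¬ Free P θ ∨ ¬ Free Q θ) → (∃ θ, Free P θ) →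
  (∃ θ, Free Q θ) → ¬ TwoC P →
  ∃ a b c d : ℝ, a < b ∧ b ≤ c ∧ c < d ∧ d ≤ a + 2 * Real.pi ∧ Hull P a b ∧ Hull Q c d

/-- FTB: the finite theorem. Uses K0, BOTH, HULL, CG, ROT, TU. Proof. If no direction is free for
`P`, or none for `Q`: K0 (`plen ≥ 0`, `Tstar ≤ 4.819 ≤ π + 2`). If `TwoC P` and `TwoC Q`: BOTH. If
`¬ TwoC P`: HULL gives `a, b, c, d`; if `b - a ≤ d - c`: CG. Otherwise CG for the pair `(Q, P)` with
`c < d ≤ a + 2π < b + 2π ≤ c + 2π` (`Hull P (a + 2π) (b + 2π)` by periodicity; `Pair Q P ε`). If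
`¬ TwoC Q`: the same for the pair `(Q, P)`. The block is the theorem
`p_FTB (hK0 : Stmt_K0) (hBOTH : Stmt_BOTH) (hHULL : Stmt_HULL) (hCG : Stmt_CG) (hROT : Stmt_ROT)
(hTU : Stmt_TU) : Stmt_FTB`. -/
def Stmt_FTB : Prop := Stmt_FT

/-- TL (lower bound for the constant; slack `1.1 · 10⁻⁵`). Proof. Let `0 < μ < π/2`, `t > 0`,
`s = sin μ`, `c = cos μ`, `t0 = √((2 - s)/(2 + s)) ∈ (1/√3, 1)`, `4/(1 + t0²) = 2 + s`. `arctan` is
concave on `[0, ∞)`: `arctan t ≤ arctan t0 + (t - t0)/(1 + t0²)`, so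
`(2 + s) t - 4 arctan t ≥ (2 + s) t0 - 4 arctan t0`, and `bowArrow μ t ≥ g μ`,
`g μ = 2π - 2μ + s²/c + (2 + s) t0 - 4 arctan t0`. `g' μ = -2 + s + s/c² + c t0` (the derivative of
`s ↦ (2 + s) t0 - 4 arctan t0` is `t0`), `g'' μ = c + 1/c + 2 s²/c³ - s t0 - 2 c²/(t0 (2 + s)²)
≥ 1/4`: (`t0' (s) = -2/(t0 (2+s)²)`; `t0 (2 + s)² = (2+s)^{3/2} (2-s)^{1/2} ≥ 4`;
`c + 1/c ≥ 2`, `s t0 ≤ 1`, `2c²/4 ≤ 1/2`). So `g' - μ/4` is increasing, and with
`μ0 = arcsin (14/25)`: `g μ ≥ g μ0 + g' μ0 (μ - μ0) + (μ - μ0)²/8 ≥ g μ0 - 2 (g' μ0)²`. At `μ0`: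
`t0 = 3/4`, `c = √0.6864 = 0.828493`, `g' μ0 = -2 + 0.56 + 0.56/0.6864 + 0.75 · 0.828493
= -0.0027787`, `2 (g' μ0)² ≤ 1.6 · 10⁻⁵`, `g μ0 = 2π - 2 arcsin 0.56 + 0.3136/c + 1.92 -
4 arctan (3/4) ≥ 4.818926`. Hence `bowArrow μ t ≥ 4.81891`. (`arctan (3/4) = 2 arctan (1/3)`; upper
bounds for `arctan (1/3)` and `arcsin 0.56`; bounds for `π` from `Real.pi_gt_d6` etc.) -/
def Stmt_TL : Prop := 48189 / 10000 < Tstar

/-- ATT (the infimum is attained). Proof. With `g` of TL (recall: for `s ∈ [0, 1]`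
`(2 + s) t - 4 arctan t ≥ (2 + s) t0 - 4 arctan t0`, `t0 = √((2 - s)/(2 + s)) ∈ [1/√3, 1]`, with
equality for `t = t0`): `g` is continuous on `[0, π/2)`, `g 0 = π + 2`, `g μ → ∞` as `μ → π/2`
(`g μ ≥ 2 + sin² μ/cos μ` since `(2 + s) t0 - 4 arctan t0 ≥ 2 - π`, it is increasing in `s`; so
`g μ ≥ 5` if `cos μ ≤ 3/10`), and `g < 4.82` somewhere (TU's point, or `Tstar ≤ 4819/1000` as a
hypothesis: use TU). So `g` has a minimum on `[0, arccos (3/10)]` which is smaller than `g 0` and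
than `5`, attained at some `μ ∈ (0, π/2)`; it is a minimum on `(0, π/2)`; with
`t = t0 (sin μ)`: `4 arctan t ≤ π < 2π - 2μ`, `bowArrow μ t = g μ ≤ bowArrow μ' t'` for all
`μ', t'`. So `bowArrow μ t = Tstar` (`csInf` of a set with a least element). The equation
`(2 + sin μ)(1 + t²) = 4` is the definition of `t0`. The second one is `g' μ = 0` (interior
minimum), multiplied by `cos² μ`. -/
def Stmt_ATT : Prop := ∃ μ t : ℝ, 0 < μ ∧ μ < Real.pi / 2 ∧ 0 < t ∧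
  4 * Real.arctan t < 2 * Real.pi - 2 * μ ∧ Tstar = bowArrow μ t ∧
  (2 + Real.sin μ) * (1 + t ^ 2) = 4 ∧
  (2 - Real.sin μ - t * Real.cos μ) * Real.cos μ ^ 2 = Real.sin μ

/-- UBX (UB with the detector). Proof. This is what the proof of UB constructs (`B_UB.lean`). -/
def Stmt_UBX : Prop := ∀ μ t : ℝ, 0 < μ → μ < Real.pi / 2 → 0 < t →
  4 * Real.arctan t < 2 * Real.pi - 2 * μ →
  ∃ A : Fin 2 → PlaneArc, IsBeamDetector (⋃ i, (A i).carrier) ∧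
    ∑ i, (A i).length ≤ ENNReal.ofReal (bowArrow μ t)

/-- RED1 (one arc). Uses K0. Proof. As RED, simpler: `A` a single arc (`Fin 1`) which is a beam
detector, of finite length; `0 < δ < 1`; a list `P₀` of points of the arc (increasing parameters)
such that every point of the arc is at distance `≤ δ` from one of them,
`P = P₀.map (· / (1 - δ))`: for every `θ` the line `{z | pr θ z = 1}` meets the arc, so some point of
`P₀` has `pr θ ≥ 1 - δ`: `¬ Free P θ`. K0: `π + 2 ≤ plen P ≤ length/(1 - δ)`. Copy from the proof of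
RED. -/
def Stmt_RED1 : Prop := ENNReal.ofReal (Real.pi + 2) ≤ detectorConstant 1

/-- FIN. Uses RED, UBX, ATT. Proof. `≤`: UBX for the `μ, t` of ATT. `≥`: RED. -/
def Stmt_FIN : Prop := detectorConstant 2 = ENNReal.ofReal Tstar ∧
  ∃ A : Fin 2 → PlaneArc, IsBeamDetector (⋃ i, (A i).carrier) ∧
    ∑ i, (A i).length = ENNReal.ofReal Tstar

end

end Pool.BA
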