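import Pool.Agent.Work.MP_655153_ba.Interface5
import Pool.Agent.Work.MP_655153_ba.B_AC
import Pool.Agent.Work.MP_655153_ba.B_ATT
import Pool.Agent.Work.MP_655153_ba.B_B1
import Pool.Agent.Work.MP_655153_ba.B_B2
import Pool.Agent.Work.MP_655153_ba.B_BOTH
import Pool.Agent.Work.MP_655153_ba.B_BV
import Pool.Agent.Work.MP_655153_ba.B_CA
import Pool.Agent.Work.MP_655153_ba.B_CB
import Pool.Agent.Work.MP_655153_ba.B_CC
import Pool.Agent.Work.MP_655153_ba.B_CG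
import Pool.Agent.Work.MP_655153_ba.B_CH
import Pool.Agent.Work.MP_655153_ba.B_CLS
import Pool.Agent.Work.MP_655153_ba.B_CP
import Pool.Agent.Work.MP_655153_ba.B_D1
import Pool.Agent.Work.MP_655153_ba.B_EXF
import Pool.Agent.Work.MP_655153_ba.B_EXG
import Pool.Agent.Work.MP_655153_ba.B_FER
import Pool.Agent.Work.MP_655153_ba.B_FIN
import Pool.Agent.Work.MP_655153_ba.B_FTB
import Pool.Agent.Work.MP_655153_ba.B_GAIN
import Pool.Agent.Work.MP_655153_ba.B_GS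
import Pool.Agent.Work.MP_655153_ba.B_GV1
import Pool.Agent.Work.MP_655153_ba.B_GV2
import Pool.Agent.Work.MP_655153_ba.B_HL
import Pool.Agent.Work.MP_655153_ba.B_HU
import Pool.Agent.Work.MP_655153_ba.B_HUL
import Pool.Agent.Work.MP_655153_ba.B_HULL
import Pool.Agent.Work.MP_655153_ba.B_IM
import Pool.Agent.Work.MP_655153_ba.B_INTV
import Pool.Agent.Work.MP_655153_ba.B_IZ1
import Pool.Agent.Work.MP_655153_ba.B_IZ2
import Pool.Agent.Work.MP_655153_ba.B_K0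
import Pool.Agent.Work.MP_655153_ba.B_K1
import Pool.Agent.Work.MP_655153_ba.B_K2
import Pool.Agent.Work.MP_655153_ba.B_LA
import Pool.Agent.Work.MP_655153_ba.B_LEV
import Pool.Agent.Work.MP_655153_ba.B_LIFT
import Pool.Agent.Work.MP_655153_ba.B_LOWC
import Pool.Agent.Work.MP_655153_ba.B_LVL
import Pool.Agent.Work.MP_655153_ba.B_MINT
import Pool.Agent.Work.MP_655153_ba.B_MS
import Pool.Agent.Work.MP_655153_ba.B_N2
import Pool.Agent.Work.MP_655153_ba.B_NB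
import Pool.Agent.Work.MP_655153_ba.B_NC
import Pool.Agent.Work.MP_655153_ba.B_NT
import Pool.Agent.Work.MP_655153_ba.B_NV
import Pool.Agent.Work.MP_655153_ba.B_OVG
import Pool.Agent.Work.MP_655153_ba.B_PDEV
import Pool.Agent.Work.MP_655153_ba.B_PI
import Pool.Agent.Work.MP_655153_ba.B_PLS
import Pool.Agent.Work.MP_655153_ba.B_PM2
import Pool.Agent.Work.MP_655153_ba.B_PMID
import Pool.Agent.Work.MP_655153_ba.B_PRJ
import Pool.Agent.Work.MP_655153_ba.B_QIV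
import Pool.Agent.Work.MP_655153_ba.B_QL2
import Pool.Agent.Work.MP_655153_ba.B_QM2
import Pool.Agent.Work.MP_655153_ba.B_QR
import Pool.Agent.Work.MP_655153_ba.B_RED
import Pool.Agent.Work.MP_655153_ba.B_RED1
import Pool.Agent.Work.MP_655153_ba.B_ROT
import Pool.Agent.Work.MP_655153_ba.B_SFB
import Pool.Agent.Work.MP_655153_ba.B_SPH
import Pool.Agent.Work.MP_655153_ba.B_SPK
import Pool.Agent.Work.MP_655153_ba.B_SPT
import Pool.Agent.Work.MP_655153_ba.B_SPU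
import Pool.Agent.Work.MP_655153_ba.B_SPZ
import Pool.Agent.Work.MP_655153_ba.B_ST
import Pool.Agent.Work.MP_655153_ba.B_SUBZ
import Pool.Agent.Work.MP_655153_ba.B_THREE
import Pool.Agent.Work.MP_655153_ba.B_TL
import Pool.Agent.Work.MP_655153_ba.B_TU
import Pool.Agent.Work.MP_655153_ba.B_TWO
import Pool.Agent.Work.MP_655153_ba.B_UBX
import Pool.Agent.Work.MP_655153_ba.B_WL
import Pool.Agent.Work.MP_655153_ba.B_WZ

/-!
# Assembly: the two-arc constant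
-/

open MeasureTheory Set
open scoped ENNReal

namespace Pool.BA

open Pool.Agent.Work.MP_655153_co

/-- part 1 -/
theorem m_PRJ : Stmt_PRJ := p_PRJ
theorem m_CH : Stmt_CH := p_CH
theorem m_PI : Stmt_PI := p_PI p_HL m_PRJ
theorem m_CP : Stmt_CP := p_CP m_PRJ m_CH
theorem m_BV : Stmt_BV := p_BV m_PRJ m_CH
theorem m_LA : Stmt_LA := p_LA m_CP (p_D1 m_PRJ)
theorem m_HU : Stmt_HU := p_HU m_PI m_CP m_LA
theorem m_GAIN : Stmt_GAIN := p_GAIN p_HL m_PRJ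
theorem m_PLS : Stmt_PLS := p_PLS
theorem m_THREE : Stmt_THREE := p_THREE m_PLS
theorem m_FER : Stmt_FER := p_FER m_THREE
theorem m_QL2 : Stmt_QL2 := p_QL2 m_THREE
theorem m_EXG : Stmt_EXG := p_EXG p_LIFT p_INTV
theorem m_LEV : Stmt_LEV := p_LEV p_OVG
theorem m_IZ1 : Stmt_IZ1 := p_IZ1 p_ST p_WL p_OVG m_LEV p_WZ p_CLS p_B1 p_K1
theorem m_IZ2 : Stmt_IZ2 := p_IZ2 p_ST p_OVG m_LEV p_CLS (p_B2 p_GS) (p_K2 p_GS)
theorem m_IM : Stmt_IM := p_IM m_IZ1 m_IZ2 m_LEV m_PLS p_SUBZ m_BV m_PI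
theorem m_AC : Stmt_AC := p_AC m_HU
theorem m_GV1 : Stmt_GV1 := p_GV1 p_SFB p_MINT
theorem m_GV2 : Stmt_GV2 := p_GV2 p_SFB p_MINT
theorem m_NT : Stmt_NT := p_NT p_TU p_MINT
theorem m_QR : Stmt_QR := p_QR m_QL2
theorem m_EXF : Stmt_EXF := p_EXF m_EXG p_LIFT
theorem m_PM2 : Stmt_PM2 := p_PM2 m_FER p_N2
theorem m_PMID : Stmt_PMID := p_PMID m_EXF m_PM2 p_N2 m_IM m_AC m_GV1 p_SFB
theorem m_PDEV : Stmt_PDEV := p_PDEV m_EXF m_PM2 p_N2 m_IM m_AC m_NT p_NC p_NB p_SFB p_TU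
theorem m_QM2 : Stmt_QM2 := p_QM2 m_FER m_THREE
theorem m_QIV : Stmt_QIV := p_QIV m_EXF m_QM2 m_IM m_AC m_GV2 p_SFB
theorem m_SPK : Stmt_SPK := p_SPK m_EXG p_LIFT p_SUBZ m_PLS m_HU m_GAIN p_SFB
theorem m_SPT : Stmt_SPT := p_SPT m_SPK m_QR p_SPH p_SPU
theorem m_ROT : Stmt_ROT := p_ROT
theorem m_MS : Stmt_MS := p_MS m_ROT
theorem m_HUL : Stmt_HUL := p_HUL m_EXG p_SUBZ m_PLS m_HU m_MS
theorem m_TWO : Stmt_TWO := p_TWO m_HUL m_ROT
theorem m_BOTH : Stmt_BOTH := p_BOTH m_TWO m_MS p_SFB m_ROT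
theorem m_K0 : Stmt_K0 := p_K0 m_HUL m_MS m_ROT
theorem m_SPZ : Stmt_SPZ := p_SPZ m_SPT m_ROT
theorem m_CA : Stmt_CA := p_CA m_PDEV m_QR p_LVL p_LOWC m_ROT m_SPZ p_TU
theorem m_CB : Stmt_CB := p_CB m_PMID m_QR p_NV p_LVL p_LOWC m_SPZ m_ROT
theorem m_CC : Stmt_CC := p_CC m_PMID m_QIV p_NV m_QR p_LVL p_LOWC m_ROT m_SPZ
theorem m_CG : Stmt_CG := p_CG m_CA m_CB m_CC m_ROT p_TU
theorem m_HULL : Stmt_HULL := p_HULL m_ROT
theorem m_FT : Stmt_FT := p_FTB m_K0 m_BOTH m_HULL m_CG m_ROT p_TU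
theorem m_ATT : Stmt_ATT := p_ATT p_TU
theorem m_FIN : Stmt_FIN := p_FIN (p_RED m_FT) p_UBX m_ATT
theorem m_RED1 : Stmt_RED1 := p_RED1 m_K0

end Pool.BA
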